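import Pool.Agent.W_MP_654ec6.Stmt

/-!
# Task F1: the host sets (quotients by compact groups)

`TauPt`: points `(X, Y, v) ∈ ℝ × ℝ × ℝ³` modulo `τ (X, Y, v) = (-X, Y, -v)`.
`WPt m`: points of `ℂ³` modulo the circle acting with the weights `m 0, m 1, m 2`.
`NegPt`: points of `E4` modulo `± 1`.
The relations are closed: `tau_sep`, `neg_sep` are elementary; `w_sep`: if there were `(x_n, y_n) → (a, b)`
with `σ' y_n = c_n • σ x_n`, `|c_n| = 1`, then for a subsequence `c_n → c` and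
`σ' b = c • σ a`. (Or: the set `{(p, q) | ∃ c, ‖c‖ = 1 ∧ q = c • p}` is closed, by
`IsCompact` of the circle and `isClosedMap_snd_of_compactSpace` or `IsCompact.image`.)
-/

open scoped ContDiff Topology
open Filter Real

namespace Pool.Agent.W_MP_654ec6

theorem host_ev_ne {X Y : Type*} [TopologicalSpace Y] [T2Space Y] {l : Filter X} {f g : X → Y}
    {y z : Y} (hf : Tendsto f l (𝓝 y)) (hg : Tendsto g l (𝓝 z)) (h : y ≠ z) :
    ∀ᶠ x in l, f x ≠ g x := by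
  have h1 := (hf.prodMk_nhds hg).eventually
    (isClosed_diagonal.isOpen_compl.mem_nhds (show (y, z) ∉ Set.diagonal Y from h))
  filter_upwards [h1] with x hx using hx

/-- The relation of `τ`. -/
def tauSetoid : Setoid (ℝ × ℝ × (Fin 3 → ℝ)) where
  r p q := q = p ∨ q = (-p.1, p.2.1, -p.2.2)
  iseqv := by
    refine ⟨fun p => Or.inl rfl, ?_, ?_⟩
    · rintro p q (rfl | rfl)
      · exact Or.inl rfl
      · right; simp
    · rintro p q r (rfl | rfl) (rfl | rfl)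
      · exact Or.inl rfl
      · exact Or.inr rfl
      · exact Or.inr rfl
      · left; simp

def TauPt : Type := Quotient tauSetoid

def TauPt.mk (p : ℝ × ℝ × (Fin 3 → ℝ)) : TauPt := Quotient.mk tauSetoid p

theorem TauPt.mk_eq {p q : ℝ × ℝ × (Fin 3 → ℝ)} :
    TauPt.mk p = TauPt.mk q ↔ q = p ∨ q = (-p.1, p.2.1, -p.2.2) :=
  ⟨fun h => Quotient.exact h, fun h => Quotient.sound h⟩

theorem tau_sep {σ σ' : E4 → ℝ × ℝ × (Fin 3 → ℝ)} {a b : E4} (hσ : ContinuousAt σ a)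
    (hσ' : ContinuousAt σ' b) (h : TauPt.mk (σ a) ≠ TauPt.mk (σ' b)) :
    ∀ᶠ q in 𝓝 (a, b), TauPt.mk (σ q.1) ≠ TauPt.mk (σ' q.2) := by
  have h1 : Tendsto (fun q : E4 × E4 => σ q.1) (𝓝 (a, b)) (𝓝 (σ a)) :=
    Tendsto.comp (g := σ) hσ (continuous_fst.tendsto (a, b))
  have h2 : Tendsto (fun q : E4 × E4 => σ' q.2) (𝓝 (a, b)) (𝓝 (σ' b)) :=
    Tendsto.comp (g := σ') hσ' (continuous_snd.tendsto (a, b))
  have hc : Continuous fun p : ℝ × ℝ × (Fin 3 → ℝ) => ((-p.1, p.2.1, -p.2.2) : ℝ × ℝ × (Fin 3 → ℝ)) := by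
    fun_prop
  have h3 : Tendsto (fun q : E4 × E4 => ((-(σ q.1).1, (σ q.1).2.1, -(σ q.1).2.2) :
      ℝ × ℝ × (Fin 3 → ℝ))) (𝓝 (a, b)) (𝓝 (-(σ a).1, (σ a).2.1, -(σ a).2.2)) :=
    (hc.tendsto (σ a)).comp h1
  rw [Ne, TauPt.mk_eq, not_or] at h
  filter_upwards [host_ev_ne h2 h1 h.1, host_ev_ne h2 h3 h.2] with q hq hq'
  rw [Ne, TauPt.mk_eq, not_or]
  exact ⟨hq, hq'⟩

/-- The action of the unit complex numbers with weights `m`. -/
noncomputable def wAct (m : Fin 3 → ℤ) (c : ℂ) (p : ℂ × ℂ × ℂ) : ℂ × ℂ × ℂ :=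
  (c ^ m 0 * p.1, c ^ m 1 * p.2.1, c ^ m 2 * p.2.2)

theorem wAct_one (m : Fin 3 → ℤ) (p : ℂ × ℂ × ℂ) : wAct m 1 p = p := by
  simp [wAct]

theorem wAct_mul (m : Fin 3 → ℤ) (c d : ℂ) (p : ℂ × ℂ × ℂ) :
    wAct m c (wAct m d p) = wAct m (c * d) p := by
  simp [wAct, mul_zpow, mul_assoc]

def wSetoid (m : Fin 3 → ℤ) : Setoid (ℂ × ℂ × ℂ) where
  r p q := ∃ c : ℂ, ‖c‖ = 1 ∧ q = wAct m c p
  iseqv := by
    refine ⟨fun p => ⟨1, by simp, (wAct_one m p).symm⟩, ?_, ?_⟩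
    · rintro p q ⟨c, hc, rfl⟩
      refine ⟨c⁻¹, by simp [hc], ?_⟩
      have h0 : c ≠ 0 := by rintro rfl; simp at hc
      rw [wAct_mul, inv_mul_cancel₀ h0, wAct_one]
    · rintro p q r ⟨c, hc, rfl⟩ ⟨d, hd, rfl⟩
      exact ⟨d * c, by simp [hc, hd], by rw [wAct_mul]⟩

def WPt (m : Fin 3 → ℤ) : Type := Quotient (wSetoid m)

def WPt.mk (m : Fin 3 → ℤ) (p : ℂ × ℂ × ℂ) : WPt m := Quotient.mk (wSetoid m) p

theorem WPt.mk_eq {m : Fin 3 → ℤ} {p q : ℂ × ℂ × ℂ} :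
    WPt.mk m p = WPt.mk m q ↔ ∃ c : ℂ, ‖c‖ = 1 ∧ q = wAct m c p :=
  ⟨fun h => Quotient.exact h, fun h => Quotient.sound h⟩

/-- the relation is closed -/
theorem host_w_closed (m : Fin 3 → ℤ) :
    IsClosed {x : (ℂ × ℂ × ℂ) × (ℂ × ℂ × ℂ) | ∃ c : ℂ, ‖c‖ = 1 ∧ x.2 = wAct m c x.1} := by
  have hz : ∀ k : ℤ, Continuous fun c : Circle => ((c : ℂ) ^ k : ℂ) := by
    intro k
    have h1 : Continuous fun c : Circle => ((c ^ k : Circle) : ℂ) :=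
      continuous_subtype_val.comp (continuous_zpow k)
    simpa only [Circle.coe_zpow] using h1
  have hc : Continuous fun y : Circle × ((ℂ × ℂ × ℂ) × (ℂ × ℂ × ℂ)) =>
      wAct m (y.1 : ℂ) y.2.1 := by
    unfold wAct
    refine Continuous.prodMk ?_ (Continuous.prodMk ?_ ?_)
    · exact ((hz (m 0)).comp continuous_fst).mul (by fun_prop)
    · exact ((hz (m 1)).comp continuous_fst).mul (by fun_prop)
    · exact ((hz (m 2)).comp continuous_fst).mul (by fun_prop)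
  have hcl : IsClosed {y : Circle × ((ℂ × ℂ × ℂ) × (ℂ × ℂ × ℂ)) |
      y.2.2 = wAct m (y.1 : ℂ) y.2.1} :=
    isClosed_eq (by fun_prop) hc
  have h1 := isClosedMap_snd_of_compactSpace (X := Circle) (Y := (ℂ × ℂ × ℂ) × (ℂ × ℂ × ℂ)) _ hcl
  have h2 : {x : (ℂ × ℂ × ℂ) × (ℂ × ℂ × ℂ) | ∃ c : ℂ, ‖c‖ = 1 ∧ x.2 = wAct m c x.1} =
      Prod.snd '' {y : Circle × ((ℂ × ℂ × ℂ) × (ℂ × ℂ × ℂ)) | y.2.2 = wAct m (y.1 : ℂ) y.2.1} := by
    ext x
    constructor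
    · rintro ⟨c, hc1, hx⟩
      exact ⟨(⟨c, mem_sphere_zero_iff_norm.2 hc1⟩, x), hx, rfl⟩
    · rintro ⟨⟨c, x'⟩, hx, rfl⟩
      exact ⟨(c : ℂ), Circle.norm_coe c, hx⟩
  rw [h2]
  exact h1

theorem w_sep {m : Fin 3 → ℤ} {σ σ' : E4 → ℂ × ℂ × ℂ} {a b : E4} (hσ : ContinuousAt σ a)
    (hσ' : ContinuousAt σ' b) (h : WPt.mk m (σ a) ≠ WPt.mk m (σ' b)) :
    ∀ᶠ q in 𝓝 (a, b), WPt.mk m (σ q.1) ≠ WPt.mk m (σ' q.2) := by
  have h1 : Tendsto (fun q : E4 × E4 => (σ q.1, σ' q.2)) (𝓝 (a, b)) (𝓝 (σ a, σ' b)) :=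
    (Tendsto.comp (g := σ) hσ (continuous_fst.tendsto (a, b))).prodMk_nhds
      (Tendsto.comp (g := σ') hσ' (continuous_snd.tendsto (a, b)))
  rw [Ne, WPt.mk_eq] at h
  have h2 := h1.eventually ((host_w_closed m).isOpen_compl.mem_nhds h)
  filter_upwards [h2] with q hq
  rw [Ne, WPt.mk_eq]
  exact hq

def negSetoid : Setoid E4 where
  r p q := q = p ∨ q = -p
  iseqv := by
    refine ⟨fun p => Or.inl rfl, ?_, ?_⟩
    · rintro p q (rfl | rfl)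
      · exact Or.inl rfl
      · right; simp
    · rintro p q r (rfl | rfl) (rfl | rfl)
      · exact Or.inl rfl
      · exact Or.inr rfl
      · exact Or.inr rfl
      · left; simp

def NegPt : Type := Quotient negSetoid

def NegPt.mk (p : E4) : NegPt := Quotient.mk negSetoid p

theorem NegPt.mk_eq {p q : E4} : NegPt.mk p = NegPt.mk q ↔ q = p ∨ q = -p :=
  ⟨fun h => Quotient.exact h, fun h => Quotient.sound h⟩

theorem neg_sep {a b : E4} (h : NegPt.mk a ≠ NegPt.mk b) :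
    ∀ᶠ q in 𝓝 (a, b), NegPt.mk q.1 ≠ NegPt.mk q.2 := by
  have h1 : Tendsto (fun q : E4 × E4 => q.1) (𝓝 (a, b)) (𝓝 a) := continuous_fst.tendsto (a, b)
  have h2 : Tendsto (fun q : E4 × E4 => q.2) (𝓝 (a, b)) (𝓝 b) := continuous_snd.tendsto (a, b)
  rw [Ne, NegPt.mk_eq, not_or] at h
  filter_upwards [host_ev_ne h2 h1 h.1, host_ev_ne h2 h1.neg h.2] with q hq hq'
  rw [Ne, NegPt.mk_eq, not_or]
  exact ⟨hq, hq'⟩

/-- Functions on the quotients. -/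
noncomputable def TauPt.lift (f : ℝ × ℝ × (Fin 3 → ℝ) → ℝ)
    (hf : ∀ X Y v, f (-X, Y, -v) = f (X, Y, v)) : TauPt → ℝ :=
  Quotient.lift f (by
    rintro p q (rfl | rfl)
    · rfl
    · exact (hf _ _ _).symm)

noncomputable def WPt.lift {m : Fin 3 → ℤ} (f : ℂ × ℂ × ℂ → ℝ)
    (hf : ∀ c p, ‖c‖ = 1 → f (wAct m c p) = f p) : WPt m → ℝ :=
  Quotient.lift f (by
    rintro p q ⟨c, hc, rfl⟩
    exact (hf c p hc).symm)

noncomputable def NegPt.lift (f : E4 → ℝ) (hf : ∀ p, f (-p) = f p) : NegPt → ℝ :=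
  Quotient.lift f (by
    rintro p q (rfl | rfl)
    · rfl
    · exact (hf _).symm)

end Pool.Agent.W_MP_654ec6
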