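import Pool.Agent.W_MP_654ec6.A.Scale
import Pool.Agent.W_MP_654ec6.B.Defs
import Pool.Agent.W_MP_654ec6.B.Pre

/-!
# Part F: pre-patchworks (patchworks without base point, covering and connectedness)

`PreP.smul`: scaling of the metrics; `PreP.restr`: restriction by a proposition; `PreP.sigma`:
disjoint union; `PreP.glue`: gluing along a collar; `PreP.toPatchwork`.

Proofs. `smul_trans`: `qf_smulMet`. `sigma_trans`, `sigma_sep`: equality in a sigma type; if the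
indices differ the points are always different. `glue_*`: see `GlueData`. -/

open scoped ContDiff Topology
open Filter

namespace Pool.Agent.W_MP_654ec6

/-- A patchwork without base point, covering and connectedness. -/
structure PreP where
  ι : Type
  V : ι → Set E4
  g : ι → Met
  Pt : Type
  ψ : ι → E4 → Pt
  isOpen_V : ∀ i, IsOpen (V i)
  good : ∀ i, GoodMet (g i) (V i)
  inj : ∀ i, ∀ a ∈ V i, ∃ U ∈ 𝓝 a, Set.InjOn (ψ i) U
  trans : ∀ i j, ∀ a ∈ V i, ∀ b ∈ V j, ψ i a = ψ j b →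
    ∃ θ : E4 → E4, θ a = b ∧ IsoAt (g i) (g j) θ a ∧ ∀ᶠ x in 𝓝 a, ψ j (θ x) = ψ i x
  sep : ∀ i j, ∀ a ∈ V i, ∀ b ∈ V j, ψ i a ≠ ψ j b → ∀ᶠ q in 𝓝 (a, b), ψ i q.1 ≠ ψ j q.2

namespace PreP

theorem smul_isoAt {g g' : Met} {θ : E4 → E4} {x : E4} (h : IsoAt g g' θ x) (c : ℝ) :
    IsoAt (smulMet c g) (smulMet c g') θ x := by
  refine ⟨h.1, ?_⟩
  filter_upwards [h.2] with y hy v
  rw [qf_smulMet, qf_smulMet, hy]

/-- Scaling of the metrics by `c > 0`. -/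
noncomputable def smul (P : PreP) (c : ℝ) (hc : 0 < c) : PreP where
  ι := P.ι
  V := P.V
  g := fun i => smulMet c (P.g i)
  Pt := P.Pt
  ψ := P.ψ
  isOpen_V := P.isOpen_V
  good := fun i => goodMet_smul (P.good i) hc
  inj := P.inj
  trans := fun i j a ha b hb hab => by
    obtain ⟨θ, h1, h2, h3⟩ := P.trans i j a ha b hb hab
    exact ⟨θ, h1, smul_isoAt h2 c, h3⟩
  sep := P.sep

/-- Restriction by a proposition: all domains are empty unless `c` holds. -/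
def restr (P : PreP) (c : Prop) : PreP where
  ι := P.ι
  V := fun i => {a | c ∧ a ∈ P.V i}
  g := P.g
  Pt := P.Pt
  ψ := P.ψ
  isOpen_V := fun i => by
    by_cases h : c
    · simpa [h] using P.isOpen_V i
    · simp [h]
  good := fun i => ⟨fun k l => ((P.good i).smooth k l).mono fun _ hx => hx.2,
    fun x hx => (P.good i).symm x hx.2, fun x hx => (P.good i).pos x hx.2⟩
  inj := fun i a ha => P.inj i a ha.2
  trans := fun i j a ha b hb => P.trans i j a ha.2 b hb.2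
  sep := fun i j a ha b hb => P.sep i j a ha.2 b hb.2

theorem sigma_trans {K : Type} (Q : K → PreP) (i j : Σ k, (Q k).ι) (a : E4)
    (ha : a ∈ (Q i.1).V i.2) (b : E4) (hb : b ∈ (Q j.1).V j.2)
    (hab : (⟨i.1, (Q i.1).ψ i.2 a⟩ : Σ k, (Q k).Pt) = ⟨j.1, (Q j.1).ψ j.2 b⟩) :
    ∃ θ : E4 → E4, θ a = b ∧ IsoAt ((Q i.1).g i.2) ((Q j.1).g j.2) θ a ∧
      ∀ᶠ x in 𝓝 a, (⟨j.1, (Q j.1).ψ j.2 (θ x)⟩ : Σ k, (Q k).Pt) = ⟨i.1, (Q i.1).ψ i.2 x⟩ := by
  obtain ⟨k, i⟩ := i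
  obtain ⟨l, j⟩ := j
  obtain ⟨h1, h2⟩ := Sigma.mk.inj_iff.mp hab
  simp only at h1
  subst h1
  obtain ⟨θ, h3, h4, h5⟩ := (Q k).trans i j a ha b hb (eq_of_heq h2)
  refine ⟨θ, h3, h4, ?_⟩
  filter_upwards [h5] with x hx
  simp only [hx]

theorem sigma_sep {K : Type} (Q : K → PreP) (i j : Σ k, (Q k).ι) (a : E4)
    (ha : a ∈ (Q i.1).V i.2) (b : E4) (hb : b ∈ (Q j.1).V j.2)
    (hab : (⟨i.1, (Q i.1).ψ i.2 a⟩ : Σ k, (Q k).Pt) ≠ ⟨j.1, (Q j.1).ψ j.2 b⟩) :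
    ∀ᶠ q in 𝓝 (a, b), (⟨i.1, (Q i.1).ψ i.2 q.1⟩ : Σ k, (Q k).Pt) ≠ ⟨j.1, (Q j.1).ψ j.2 q.2⟩ := by
  obtain ⟨k, i⟩ := i
  obtain ⟨l, j⟩ := j
  by_cases hkl : k = l
  · subst hkl
    have h1 : (Q k).ψ i a ≠ (Q k).ψ j b := fun h => hab (by simp only [h])
    filter_upwards [(Q k).sep i j a ha b hb h1] with q hq h2
    exact hq (eq_of_heq (Sigma.mk.inj_iff.mp h2).2)
  · exact Eventually.of_forall fun q h2 => hkl (Sigma.mk.inj_iff.mp h2).1

theorem sigma_inj {K : Type} (Q : K → PreP) (i : Σ k, (Q k).ι) (a : E4)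
    (ha : a ∈ (Q i.1).V i.2) :
    ∃ U ∈ 𝓝 a, Set.InjOn (fun x => (⟨i.1, (Q i.1).ψ i.2 x⟩ : Σ k, (Q k).Pt)) U := by
  obtain ⟨U, hU, hinj⟩ := (Q i.1).inj i.2 a ha
  exact ⟨U, hU, fun x hx y hy hxy => hinj hx hy (eq_of_heq (Sigma.mk.inj_iff.mp hxy).2)⟩

/-- Disjoint union. -/
def sigma {K : Type} (Q : K → PreP) : PreP where
  ι := Σ k, (Q k).ι
  V := fun i => (Q i.1).V i.2
  g := fun i => (Q i.1).g i.2
  Pt := Σ k, (Q k).Pt
  ψ := fun i a => ⟨i.1, (Q i.1).ψ i.2 a⟩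
  isOpen_V := fun i => (Q i.1).isOpen_V i.2
  good := fun i => (Q i.1).good i.2
  inj := sigma_inj Q
  trans := sigma_trans Q
  sep := sigma_sep Q

/-- Gluing data: the part `{rQ > 0}` of `Q` is covered by the patches in `D` and identified with a
part of `P` by `ψ d u ↦ E d u`. The function `rP (κ d)` on `P` restricts to `rQ`. -/
structure GlueData (P Q : PreP) where
  rQ : Q.Pt → ℝ
  D : Set Q.ι
  E : Q.ι → E4 → P.Pt
  K : Type
  κ : Q.ι → K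
  rP : K → P.Pt → ℝ
  rQ_cont : ∀ j, ∀ q ∈ Q.V j, ContinuousAt (fun x => rQ (Q.ψ j x)) q
  cover : ∀ j, ∀ q ∈ Q.V j, 0 < rQ (Q.ψ j q) → ∃ d ∈ D, ∃ u ∈ Q.V d, Q.ψ d u = Q.ψ j q
  E_iff : ∀ d ∈ D, ∀ u ∈ Q.V d, ∀ d' ∈ D, ∀ u' ∈ Q.V d', 0 < rQ (Q.ψ d u) →
    0 < rQ (Q.ψ d' u') → (E d u = E d' u' ↔ Q.ψ d u = Q.ψ d' u')
  etale : ∀ d ∈ D, ∀ u ∈ Q.V d, 0 < rQ (Q.ψ d u) → ∃ (i : P.ι) (θ : E4 → E4),
    θ u ∈ P.V i ∧ IsoAt (Q.g d) (P.g i) θ u ∧ ∀ᶠ x in 𝓝 u, P.ψ i (θ x) = E d x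
  κ_eq : ∀ i j, ∀ a ∈ Q.V i, ∀ b ∈ Q.V j, Q.ψ i a = Q.ψ j b → κ i = κ j
  rP_cont : ∀ k i, ∀ a ∈ P.V i, ContinuousAt (fun x => rP k (P.ψ i x)) a
  rP_pos : ∀ k i, ∀ a ∈ P.V i, 0 < rP k (P.ψ i a)
  rP_E : ∀ d ∈ D, ∀ u ∈ Q.V d, 0 < rQ (Q.ψ d u) → rP (κ d) (E d u) = rQ (Q.ψ d u)

open Classical in
/-- The map from `Q` to the glued space. -/
noncomputable def glueMap {P Q : PreP} (G : GlueData P Q) (p : Q.Pt) : P.Pt ⊕ Q.Pt :=
  if h : 0 < G.rQ p ∧ ∃ du : Q.ι × E4, du.1 ∈ G.D ∧ du.2 ∈ Q.V du.1 ∧ Q.ψ du.1 du.2 = p then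
    Sum.inl (G.E (Classical.choose h.2).1 (Classical.choose h.2).2) else Sum.inr p

theorem glueMap_of_pos {P Q : PreP} (G : GlueData P Q) {d : Q.ι} (hd : d ∈ G.D) {u : E4}
    (hu : u ∈ Q.V d) (h : 0 < G.rQ (Q.ψ d u)) : glueMap G (Q.ψ d u) = Sum.inl (G.E d u) := by
  have h1 : 0 < G.rQ (Q.ψ d u) ∧ ∃ du : Q.ι × E4, du.1 ∈ G.D ∧ du.2 ∈ Q.V du.1 ∧
      Q.ψ du.1 du.2 = Q.ψ d u := ⟨h, (d, u), hd, hu, rfl⟩
  unfold glueMap
  rw [dif_pos h1]
  obtain ⟨h2, h3, h4⟩ := Classical.choose_spec h1.2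
  congr 1
  refine (G.E_iff _ h2 _ h3 d hd u hu ?_ h).mpr h4
  rw [h4]
  exact h

theorem glueMap_of_le {P Q : PreP} (G : GlueData P Q) {p : Q.Pt} (h : G.rQ p ≤ 0) :
    glueMap G p = Sum.inr p := by
  unfold glueMap
  exact dif_neg fun h1 => absurd h1.1 (not_lt.mpr h)

/-- Representatives of the values of the map to the glued space. -/
theorem Pre_glueMap_pos {P Q : PreP} (G : GlueData P Q) {j : Q.ι} {b : E4} (hb : b ∈ Q.V j)
    (h : 0 < G.rQ (Q.ψ j b)) : ∃ d ∈ G.D, ∃ u ∈ Q.V d, Q.ψ d u = Q.ψ j b ∧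
      0 < G.rQ (Q.ψ d u) ∧ glueMap G (Q.ψ j b) = Sum.inl (G.E d u) := by
  obtain ⟨d, hd, u, hu, hdu⟩ := G.cover j b hb h
  have h' : 0 < G.rQ (Q.ψ d u) := by
    rw [hdu]
    exact h
  refine ⟨d, hd, u, hu, hdu, h', ?_⟩
  rw [← hdu]
  exact glueMap_of_pos G hd hu h'

theorem glueMap_inj {P Q : PreP} (G : GlueData P Q) {i j : Q.ι} {a b : E4} (ha : a ∈ Q.V i)
    (hb : b ∈ Q.V j) : glueMap G (Q.ψ i a) = glueMap G (Q.ψ j b) ↔ Q.ψ i a = Q.ψ j b := by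
  constructor
  · intro h
    by_cases h1 : 0 < G.rQ (Q.ψ i a)
    · obtain ⟨d, hd, u, hu, e1, h1', e2⟩ := Pre_glueMap_pos G ha h1
      by_cases h2 : 0 < G.rQ (Q.ψ j b)
      · obtain ⟨d', hd', u', hu', e1', h2', e2'⟩ := Pre_glueMap_pos G hb h2
        rw [e2, e2'] at h
        have h3 := (G.E_iff d hd u hu d' hd' u' hu' h1' h2').mp (Sum.inl_injective h)
        rw [← e1, h3, e1']
      · rw [e2, glueMap_of_le G (not_lt.mp h2)] at h
        cases h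
    · rw [glueMap_of_le G (not_lt.mp h1)] at h
      by_cases h2 : 0 < G.rQ (Q.ψ j b)
      · obtain ⟨d', hd', u', hu', e1', h2', e2'⟩ := Pre_glueMap_pos G hb h2
        rw [e2'] at h
        cases h
      · rw [glueMap_of_le G (not_lt.mp h2)] at h
        exact Sum.inr_injective h
  · intro h
    rw [h]

/-- The parametrisations of the glued space. -/
noncomputable def gluePsi {P Q : PreP} (G : GlueData P Q) : P.ι ⊕ Q.ι → E4 → P.Pt ⊕ Q.Pt
  | Sum.inl i => fun a => Sum.inl (P.ψ i a)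
  | Sum.inr j => fun a => glueMap G (Q.ψ j a)

theorem glue_inj {P Q : PreP} (G : GlueData P Q) (i : P.ι ⊕ Q.ι) (a : E4)
    (ha : a ∈ Sum.elim P.V Q.V i) : ∃ U ∈ 𝓝 a, Set.InjOn (gluePsi G i) U := by
  rcases i with i | j
  · obtain ⟨U, hU, hinj⟩ := P.inj i a ha
    exact ⟨U, hU, fun x hx y hy hxy => hinj hx hy (Sum.inl_injective hxy)⟩
  · obtain ⟨U, hU, hinj⟩ := Q.inj j a ha
    exact ⟨U ∩ Q.V j, inter_mem hU ((Q.isOpen_V j).mem_nhds ha),
      fun x hx y hy hxy => hinj hx.1 hy.1 ((glueMap_inj G hx.2 hy.2).mp hxy)⟩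

theorem Pre_tendsto {g g' : Met} {θ : E4 → E4} {x : E4} (h : IsoAt g g' θ x) :
    Tendsto θ (𝓝 x) (𝓝 (θ x)) := h.1.continuousAt

/-- Near a point with `0 < rQ` the map to the glued space factors through a patch of `P`. -/
theorem Pre_local {P Q : PreP} (G : GlueData P Q) {j : Q.ι} {b : E4} (hb : b ∈ Q.V j)
    (h : 0 < G.rQ (Q.ψ j b)) : ∃ (i : P.ι) (θ : E4 → E4), θ b ∈ P.V i ∧
      IsoAt (Q.g j) (P.g i) θ b ∧
      ∀ᶠ x in 𝓝 b, glueMap G (Q.ψ j x) = Sum.inl (P.ψ i (θ x)) := by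
  obtain ⟨d, hd, u, hu, e1, h1, e2⟩ := Pre_glueMap_pos G hb h
  obtain ⟨θ₁, k1, k2, k3⟩ := Q.trans j d b hb u hu e1.symm
  obtain ⟨i, θ₂, m1, m2, m3⟩ := G.etale d hd u hu h1
  have t1 : Tendsto θ₁ (𝓝 b) (𝓝 u) := by
    have := Pre_tendsto k2
    rwa [k1] at this
  refine ⟨i, θ₂ ∘ θ₁, ?_, ?_, ?_⟩
  · change θ₂ (θ₁ b) ∈ P.V i
    rw [k1]
    exact m1
  · refine isoAt_comp k2 ?_
    rw [k1]
    exact m2
  · have c1 : ∀ᶠ x in 𝓝 b, 0 < G.rQ (Q.ψ j x) := (G.rQ_cont j b hb).eventually (lt_mem_nhds h)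
    have c2 : ∀ᶠ x in 𝓝 b, θ₁ x ∈ Q.V d := t1.eventually ((Q.isOpen_V d).mem_nhds hu)
    filter_upwards [k3, t1.eventually m3, c1, c2] with x x1 x2 x3 x4
    rw [← x1] at x3
    rw [← x1, glueMap_of_pos G hd x4 x3, Function.comp_apply, x2]

/-- Both from `P`, both from `Q` (`glueMap_inj` and `Q.trans`), or `a` in the patch `j` of `Q` and
`b` in the patch `i` of `P`: then `0 < rQ`, `Q.ψ j a = Q.ψ d u`, `E d u = P.ψ i b`; compose
`Q.trans j d`, `etale` and `P.trans`. The case with `P`, `Q` exchanged by `trans_of_or`. -/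
theorem glue_trans {P Q : PreP} (G : GlueData P Q) (i j : P.ι ⊕ Q.ι) (a : E4)
    (ha : a ∈ Sum.elim P.V Q.V i) (b : E4) (hb : b ∈ Sum.elim P.V Q.V j)
    (hab : gluePsi G i a = gluePsi G j b) :
    ∃ θ : E4 → E4, θ a = b ∧ IsoAt (Sum.elim P.g Q.g i) (Sum.elim P.g Q.g j) θ a ∧
      ∀ᶠ x in 𝓝 a, gluePsi G j (θ x) = gluePsi G i x := by
  have hop : ∀ i : P.ι ⊕ Q.ι, IsOpen (Sum.elim P.V Q.V i) := by
    rintro (i | j)
    · exact P.isOpen_V i
    · exact Q.isOpen_V j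
  have hgood : ∀ i : P.ι ⊕ Q.ι, GoodMet (Sum.elim P.g Q.g i) (Sum.elim P.V Q.V i) := by
    rintro (i | j)
    · exact P.good i
    · exact Q.good j
  -- from a patch of `Q` to a patch of `P`
  have key : ∀ (j : Q.ι) (i : P.ι), ∀ a ∈ Q.V j, ∀ b ∈ P.V i,
      glueMap G (Q.ψ j a) = Sum.inl (P.ψ i b) → ∃ θ : E4 → E4, θ a = b ∧
        IsoAt (Q.g j) (P.g i) θ a ∧ ∀ᶠ x in 𝓝 a, Sum.inl (P.ψ i (θ x)) = glueMap G (Q.ψ j x) := by
    intro j i a ha b hb hab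
    have h0 : 0 < G.rQ (Q.ψ j a) := by
      by_contra hcon
      rw [glueMap_of_le G (not_lt.mp hcon)] at hab
      cases hab
    obtain ⟨i', θ₁, m1, m2, m3⟩ := Pre_local G ha h0
    have h1 : P.ψ i' (θ₁ a) = P.ψ i b := by
      have := m3.self_of_nhds
      rw [hab] at this
      exact (Sum.inl_injective this).symm
    obtain ⟨θ₂, n1, n2, n3⟩ := P.trans i' i (θ₁ a) m1 b hb h1
    refine ⟨θ₂ ∘ θ₁, n1, isoAt_comp m2 n2, ?_⟩
    filter_upwards [m3, (Pre_tendsto m2).eventually n3] with x x1 x2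
    rw [x1, Function.comp_apply, x2]
  refine trans_of_or hop hgood ?_ i j a ha b hb hab
  rintro (i | i) (j | j) a ha b hb hab
  · left
    obtain ⟨θ, h1, h2, h3⟩ := P.trans i j a ha b hb (Sum.inl_injective hab)
    refine ⟨θ, h1, h2, ?_⟩
    filter_upwards [h3] with x hx
    change Sum.inl (P.ψ j (θ x)) = Sum.inl (P.ψ i x)
    rw [hx]
  · right
    exact key j i b hb a ha hab.symm
  · left
    exact key i j a ha b hb hab
  · left
    obtain ⟨θ, h1, h2, h3⟩ := Q.trans i j a ha b hb ((glueMap_inj G ha hb).mp hab)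
    refine ⟨θ, h1, h2, ?_⟩
    filter_upwards [h3] with x hx
    change glueMap G (Q.ψ j (θ x)) = glueMap G (Q.ψ i x)
    rw [hx]

theorem Pre_sep {P Q : PreP} (G : GlueData P Q) (i : P.ι) (j : Q.ι) (a : E4)
    (ha : a ∈ P.V i) (b : E4) (hb : b ∈ Q.V j) (hab : Sum.inl (P.ψ i a) ≠ glueMap G (Q.ψ j b)) :
    ∀ᶠ q in 𝓝 (a, b), Sum.inl (P.ψ i q.1) ≠ glueMap G (Q.ψ j q.2) := by
  have t1 : Tendsto (fun q : E4 × E4 => q.1) (𝓝 (a, b)) (𝓝 a) := continuous_fst.tendsto _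
  have t2 : Tendsto (fun q : E4 × E4 => q.2) (𝓝 (a, b)) (𝓝 b) := continuous_snd.tendsto _
  by_cases h0 : 0 < G.rQ (Q.ψ j b)
  · obtain ⟨i', θ, m1, m2, m3⟩ := Pre_local G hb h0
    have h1 : P.ψ i a ≠ P.ψ i' (θ b) := by
      intro h
      apply hab
      rw [m3.self_of_nhds, h]
    have t3 : Tendsto (fun q : E4 × E4 => (q.1, θ q.2)) (𝓝 (a, b)) (𝓝 (a, θ b)) :=
      t1.prodMk_nhds ((Pre_tendsto m2).comp t2)
    filter_upwards [t2.eventually m3, t3.eventually (P.sep i i' a ha (θ b) m1 h1)] with q q1 q2 q3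
    rw [q1] at q3
    exact q2 (Sum.inl_injective q3)
  · have h1 := G.rP_pos (G.κ j) i a ha
    obtain ⟨ρ, hρ⟩ : ∃ ρ, ρ = G.rP (G.κ j) (P.ψ i a) := ⟨_, rfl⟩
    rw [← hρ] at h1
    have c1 : ∀ᶠ x in 𝓝 a, ρ / 2 < G.rP (G.κ j) (P.ψ i x) :=
      (G.rP_cont (G.κ j) i a ha).eventually (lt_mem_nhds (by
        change ρ / 2 < G.rP (G.κ j) (P.ψ i a)
        rw [← hρ]
        linarith))
    have c2 : ∀ᶠ x in 𝓝 b, G.rQ (Q.ψ j x) < ρ / 2 :=
      (G.rQ_cont j b hb).eventually (gt_mem_nhds (by linarith [not_lt.mp h0]))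
    have c3 : ∀ᶠ x in 𝓝 b, x ∈ Q.V j := (Q.isOpen_V j).mem_nhds hb
    filter_upwards [t1.eventually c1, t2.eventually c2, t2.eventually c3] with q q1 q2 q3 q4
    by_cases h2 : 0 < G.rQ (Q.ψ j q.2)
    · obtain ⟨d, hd, u, hu, e1, e2, e3⟩ := Pre_glueMap_pos G q3 h2
      rw [e3] at q4
      have q5 : P.ψ i q.1 = G.E d u := Sum.inl_injective q4
      have q6 := G.rP_E d hd u hu e2
      have q7 := G.κ_eq d j u hu q.2 q3 e1
      rw [q7, ← q5, e1] at q6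
      linarith
    · rw [glueMap_of_le G (not_lt.mp h2)] at q4
      cases q4

/-- Both from `Q`: `glueMap_inj`. `a` in `P`, `b` in `Q`: if `rQ (Q.ψ j b) ≤ 0`, then near `(a, b)` a
point with `rQ > 0` has `rQ` smaller than `rP (κ j)` of the first point. If `rQ > 0`, write
`glueMap G ∘ Q.ψ j` near `b` as `P.ψ i' ∘ θ` and use `P.sep`. -/
theorem glue_sep {P Q : PreP} (G : GlueData P Q) (i j : P.ι ⊕ Q.ι) (a : E4)
    (ha : a ∈ Sum.elim P.V Q.V i) (b : E4) (hb : b ∈ Sum.elim P.V Q.V j)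
    (hab : gluePsi G i a ≠ gluePsi G j b) :
    ∀ᶠ q in 𝓝 (a, b), gluePsi G i q.1 ≠ gluePsi G j q.2 := by
  have t1 : Tendsto (fun q : E4 × E4 => q.1) (𝓝 (a, b)) (𝓝 a) := continuous_fst.tendsto _
  have t2 : Tendsto (fun q : E4 × E4 => q.2) (𝓝 (a, b)) (𝓝 b) := continuous_snd.tendsto _
  rcases i with i | i <;> rcases j with j | j
  · have h1 : P.ψ i a ≠ P.ψ j b := fun h => hab (congrArg Sum.inl h)
    filter_upwards [P.sep i j a ha b hb h1] with q q1 q2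
    exact q1 (Sum.inl_injective q2)
  · exact Pre_sep G i j a ha b hb hab
  · have h1 := Pre_sep G j i b hb a ha hab.symm
    have t3 : Tendsto (fun q : E4 × E4 => (q.2, q.1)) (𝓝 (a, b)) (𝓝 (b, a)) :=
      t2.prodMk_nhds t1
    filter_upwards [t3.eventually h1] with q q1 q2
    exact q1 q2.symm
  · have h1 : Q.ψ i a ≠ Q.ψ j b := fun h => hab (congrArg (glueMap G) h)
    have c1 : ∀ᶠ x in 𝓝 a, x ∈ Q.V i := (Q.isOpen_V i).mem_nhds ha
    have c2 : ∀ᶠ x in 𝓝 b, x ∈ Q.V j := (Q.isOpen_V j).mem_nhds hb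
    filter_upwards [Q.sep i j a ha b hb h1, t1.eventually c1, t2.eventually c2] with q q1 q2 q3 q4
    exact q1 ((glueMap_inj G q2 q3).mp q4)

theorem glue_good {P Q : PreP} (i : P.ι ⊕ Q.ι) :
    GoodMet (Sum.elim P.g Q.g i) (Sum.elim P.V Q.V i) := by
  rcases i with i | j
  · exact P.good i
  · exact Q.good j

theorem glue_isOpen {P Q : PreP} (i : P.ι ⊕ Q.ι) : IsOpen (Sum.elim P.V Q.V i) := by
  rcases i with i | j
  · exact P.isOpen_V i
  · exact Q.isOpen_V j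

/-- The glued space. -/
noncomputable def glue (P Q : PreP) (G : GlueData P Q) : PreP where
  ι := P.ι ⊕ Q.ι
  V := Sum.elim P.V Q.V
  g := Sum.elim P.g Q.g
  Pt := P.Pt ⊕ Q.Pt
  ψ := gluePsi G
  isOpen_V := glue_isOpen
  good := glue_good
  inj := glue_inj G
  trans := glue_trans G
  sep := glue_sep G

/-- `p` and `q` are the ends of a segment in a patch. -/
def Seg (P : PreP) (p q : P.Pt) : Prop :=
  ∃ i a b, segment ℝ a b ⊆ P.V i ∧ P.ψ i a = p ∧ P.ψ i b = q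

/-- The points which are covered by the patches. -/
def CPt (P : PreP) : Type := {p : P.Pt // ∃ i, ∃ a ∈ P.V i, P.ψ i a = p}

open Classical in
/-- The parametrisation with values in the covered points. -/
noncomputable def cpsi (P : PreP) (b : P.CPt) (i : P.ι) (a : E4) : P.CPt :=
  if h : a ∈ P.V i then ⟨P.ψ i a, i, a, h, rfl⟩ else b

theorem Pre_cpsi_pos (P : PreP) (b : P.CPt) {i : P.ι} {a : E4} (h : a ∈ P.V i) :
    P.cpsi b i a = ⟨P.ψ i a, i, a, h, rfl⟩ := by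
  unfold cpsi
  exact dif_pos h

theorem Pre_cpsi_val (P : PreP) (b : P.CPt) {i : P.ι} {a : E4} (h : a ∈ P.V i) :
    (P.cpsi b i a).1 = P.ψ i a := by
  rw [Pre_cpsi_pos P b h]

theorem Pre_cpsi_iff (P : PreP) (b : P.CPt) {i j : P.ι} {a c : E4} (h : a ∈ P.V i)
    (h' : c ∈ P.V j) : P.cpsi b i a = P.cpsi b j c ↔ P.ψ i a = P.ψ j c := by
  constructor
  · intro h1
    rw [← Pre_cpsi_val P b h, ← Pre_cpsi_val P b h', h1]
  · intro h1
    apply Subtype.ext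
    rw [Pre_cpsi_val P b h, Pre_cpsi_val P b h', h1]

theorem Pre_conn (P : PreP) (b : P.CPt) (x : P.CPt) {y : P.Pt}
    (h : Relation.ReflTransGen P.Seg x.1 y) : ∃ z : P.CPt, z.1 = y ∧
      Relation.ReflTransGen (fun p q => ∃ i a c, segment ℝ a c ⊆ P.V i ∧ P.cpsi b i a = p ∧
        P.cpsi b i c = q) x z := by
  induction h with
  | refl => exact ⟨x, rfl, Relation.ReflTransGen.refl⟩
  | tail _ h2 ih =>
    obtain ⟨z, rfl, hz⟩ := ih
    obtain ⟨i, a, c, hseg, h3, h4⟩ := h2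
    have ha : a ∈ P.V i := hseg (left_mem_segment ℝ a c)
    have hc : c ∈ P.V i := hseg (right_mem_segment ℝ a c)
    refine ⟨P.cpsi b i c, ?_, hz.tail ⟨i, a, c, hseg, ?_, rfl⟩⟩
    · rw [Pre_cpsi_val P b hc, h4]
    · apply Subtype.ext
      rw [Pre_cpsi_val P b ha, h3]

/-- The patchwork of the covered points. -/
noncomputable def toPatchwork (P : PreP) (b : P.CPt)
    (conn : ∀ i j, ∀ a ∈ P.V i, ∀ c ∈ P.V j, Relation.ReflTransGen P.Seg (P.ψ i a) (P.ψ j c)) :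
    Patchwork where
  ι := P.ι
  V := P.V
  g := P.g
  Pt := P.CPt
  ψ := P.cpsi b
  isOpen_V := P.isOpen_V
  good := P.good
  base := b
  cover := by
    intro p
    obtain ⟨i, a, ha, hp⟩ := p.2
    refine ⟨i, a, ha, ?_⟩
    apply Subtype.ext
    rw [Pre_cpsi_val P b ha, hp]
  inj := by
    intro i a ha
    obtain ⟨U, hU, hinj⟩ := P.inj i a ha
    exact ⟨U ∩ P.V i, inter_mem hU ((P.isOpen_V i).mem_nhds ha),
      fun x hx y hy hxy => hinj hx.1 hy.1 ((Pre_cpsi_iff P b hx.2 hy.2).mp hxy)⟩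
  trans := by
    intro i j a ha c hc hac
    obtain ⟨θ, h1, h2, h3⟩ := P.trans i j a ha c hc ((Pre_cpsi_iff P b ha hc).mp hac)
    refine ⟨θ, h1, h2, ?_⟩
    have t1 : Tendsto θ (𝓝 a) (𝓝 c) := by
      have := Pre_tendsto h2
      rwa [h1] at this
    have c1 : ∀ᶠ x in 𝓝 a, x ∈ P.V i := (P.isOpen_V i).mem_nhds ha
    have c2 : ∀ᶠ x in 𝓝 c, x ∈ P.V j := (P.isOpen_V j).mem_nhds hc
    filter_upwards [h3, c1, t1.eventually c2] with x x1 x2 x3
    exact (Pre_cpsi_iff P b x3 x2).mpr x1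
  sep := by
    intro i j a ha c hc hac
    have h1 : P.ψ i a ≠ P.ψ j c := fun h => hac ((Pre_cpsi_iff P b ha hc).mpr h)
    have t1 : Tendsto (fun q : E4 × E4 => q.1) (𝓝 (a, c)) (𝓝 a) := continuous_fst.tendsto _
    have t2 : Tendsto (fun q : E4 × E4 => q.2) (𝓝 (a, c)) (𝓝 c) := continuous_snd.tendsto _
    have c1 : ∀ᶠ x in 𝓝 a, x ∈ P.V i := (P.isOpen_V i).mem_nhds ha
    have c2 : ∀ᶠ x in 𝓝 c, x ∈ P.V j := (P.isOpen_V j).mem_nhds hc
    filter_upwards [P.sep i j a ha c hc h1, t1.eventually c1, t2.eventually c2] with q q1 q2 q3 q4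
    exact q1 ((Pre_cpsi_iff P b q2 q3).mp q4)
  conn := by
    intro p q
    obtain ⟨i, a, ha, hp⟩ := p.2
    obtain ⟨j, c, hc, hq⟩ := q.2
    have h1 := conn i j a ha c hc
    rw [hp] at h1
    obtain ⟨z, hz, h2⟩ := Pre_conn P b p h1
    have h3 : z = q := Subtype.ext (by rw [hz, hq])
    rw [← h3]
    exact h2

theorem Pre_seg_symm (P : PreP) {p q : P.Pt} (h : P.Seg p q) : P.Seg q p := by
  obtain ⟨i, a, b, h1, h2, h3⟩ := h
  exact ⟨i, b, a, by rw [segment_symm]; exact h1, h3, h2⟩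

theorem Pre_rtg_symm (P : PreP) {p q : P.Pt} (h : Relation.ReflTransGen P.Seg p q) :
    Relation.ReflTransGen P.Seg q p := by
  induction h with
  | refl => exact Relation.ReflTransGen.refl
  | tail _ h2 ih => exact Relation.ReflTransGen.head (Pre_seg_symm P h2) ih

/-- Two points which are joined by a path in the domain of a patch are joined by a chain of
segments (the classes of the relation are open in the domain; connectedness of `[0,1]`). -/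
theorem seg_of_joined (P : PreP) {i : P.ι} {a b : E4} (h : JoinedIn (P.V i) a b) :
    Relation.ReflTransGen P.Seg (P.ψ i a) (P.ψ i b) := by
  obtain ⟨γ, hγ⟩ := h
  have key : ∀ s t : unitInterval,
      Relation.ReflTransGen P.Seg (P.ψ i (γ s)) (P.ψ i (γ t)) := by
    apply PreconnectedSpace.induction₂'
      (fun s t : unitInterval => Relation.ReflTransGen P.Seg (P.ψ i (γ s)) (P.ψ i (γ t)))
    · intro s
      obtain ⟨r, hr, hball⟩ := Metric.isOpen_iff.mp (P.isOpen_V i) (γ s) (hγ s)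
      have h1 : ∀ᶠ t in 𝓝 s, γ t ∈ Metric.ball (γ s) r :=
        γ.continuous.continuousAt.eventually (Metric.ball_mem_nhds _ hr)
      filter_upwards [h1] with t ht
      have h2 : segment ℝ (γ s) (γ t) ⊆ P.V i :=
        ((convex_ball (γ s) r).segment_subset (Metric.mem_ball_self hr) ht).trans hball
      have h3 : P.Seg (P.ψ i (γ s)) (P.ψ i (γ t)) := ⟨i, γ s, γ t, h2, rfl, rfl⟩
      exact ⟨Relation.ReflTransGen.single h3, Relation.ReflTransGen.single (Pre_seg_symm P h3)⟩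
    · exact ⟨fun _ _ _ h1 h2 => h1.trans h2⟩
  have h1 := key 0 1
  rw [γ.source, γ.target] at h1
  exact h1

theorem seg_symm (P : PreP) {p q : P.Pt} (h : Relation.ReflTransGen P.Seg p q) :
    Relation.ReflTransGen P.Seg q p := Pre_rtg_symm P h

end PreP

end Pool.Agent.W_MP_654ec6
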