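import Pool.Agent.W_MP_654ec6.C.TransC
import Pool.Agent.W_MP_654ec6.F.Host
import Pool.Agent.W_MP_654ec6.F.Pre

/-!
# Task F2: the ambient pre-patchwork

Patches `j ≤ N` with the metric `gC R N j` on `VA N ρ j`: the points of `VC N j` over points `(X, Y)` of the
half plane at distance `> ρ k` from the vertices `(± zz k, FF N (zz k))`, `1 ≤ k ≤ N`, and (for `N`
finite) at distance `> ρ 0` from the point `(0, midY N)`. Points: `TauPt.mk (X, Y, b ξ)`, where `b ξ` is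
`repA R N j u` (`u k / n3 u = 0` if `n3 u = 0`).

Proofs. `isOpen_VA`: let `N = ⊤` (for `N` finite there are finitely many conditions). If
`u ∈ VC ⊤ j` then `(pX u, pY u) ≠ (0, FF ⊤ 0)` (`GG_top_zero`, and an open edge has `pX > 0`), so there is a
neighbourhood of `u` in which `(pX, pY)` has distance `≥ 2^{-m}` from `(0, FF ⊤ 0)`, for some `m`; for
`k ≥ m + 2` we have `zz k ≤ 2^{-m}/4`, `|FF (zz k) - FF 0| ≤ zz k/20` and `ρ k ≤ zz k/8`, so that the
`k`-th condition holds automatically. Finitely many conditions are left.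
`continuousAt_repA`: if `n3 u ≠ 0` clear (`bb_contDiffAt`); if `n3 u = 0` then by `gC_edge` near `u` we
have `bb = n3` where `n3 ≠ 0`, so `repA = (pX, pY, (u 1, u 2, u 3))`.
`repA_inj`: `lc_p, sc_p` give `u 0` and `n3 u`, and `bb > 0` if `n3 u ≠ 0`.
`repA_free`: a point of `VA` is not fixed by `τ`: if `X = 0` and `v = 0`, then `n3 u = 0` (`bb_pos`) and `u` is
in an open edge with `pX = 0`, so `j = N` is the middle edge (`opEdge`) and `(pX, pY) = (0, midY)`,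
excluded by the condition for `ρ 0 > 0`.
`ambInj`: by `repA_free` and continuity `τ (repA x) ≠ repA y` for `x, y` near `a`.
`ambTrans`: `repA R N j b = repA R N i a` or `= τ (..)`, i.e. `pX N j b = ε pX N i a` etc. If `n3 a ≠ 0`: then
`GG < pY`, `bb > 0`, so `n3 b ≠ 0` and the directions agree up to `ε`; `thC_unique`, `isoAt_thC`,
`thC_coord`. If `n3 a = 0` then `n3 b = 0` and `edge_only` gives `b = a`, or `b = -a` and `i = j = N`:
`θ = id` or `θ = neg` (`isoAt_mid_neg`, `mid_neg`).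
`ambSep`: `tau_sep`.
-/

open scoped ContDiff Topology
open Filter Real

namespace Pool.Agent.W_MP_654ec6

/-- The ordinate of the middle of the middle edge (`N` finite). -/
noncomputable def midY (N : ℕ∞) : ℝ := FF N (zz N.toNat)

/-- The condition that `(X, Y)` is outside the disks. -/
def OutDisks (N : ℕ∞) (ρ : ℕ → ℝ) (X Y : ℝ) : Prop :=
  (∀ k : ℕ, 1 ≤ k → (k : ℕ∞) ≤ N → ρ k ^ 2 < (|X| - zz k) ^ 2 + (Y - FF N (zz k)) ^ 2) ∧
    (N ≠ ⊤ → ρ 0 ^ 2 < X ^ 2 + (Y - midY N) ^ 2)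

def VA (N : ℕ∞) (ρ : ℕ → ℝ) (j : ℕ) : Set E4 :=
  {u | (j : ℕ∞) ≤ N ∧ u ∈ VC N j ∧ OutDisks N ρ (pX N j u) (pY N j u)}

/-- The representative `(X, Y, b ξ)`. -/
noncomputable def repA (R : ℝ) (N : ℕ∞) (j : ℕ) (u : E4) : ℝ × ℝ × (Fin 3 → ℝ) :=
  (pX N j u, pY N j u, fun k : Fin 3 => bb R N (pX N j u) (pY N j u) * (u k.succ / n3 u))

/-- The conditions on the radii. -/
structure RadOK (R : ℝ) (N : ℕ∞) (ρ : ℕ → ℝ) : Prop where
  pos : ∀ k, 0 < ρ k
  le : ∀ k : ℕ, 1 ≤ k → 2 * ρ k ≤ zz k / 8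
  mid : N ≠ ⊤ → 2 * ρ 0 ≤ R * cc N N.toNat * zz N.toNat / 32

section

variable {R : ℝ} {N : ℕ∞} {ρ : ℕ → ℝ}

theorem Amb_cont (N : ℕ∞) (j : ℕ) (z w : ℝ) :
    Continuous fun u : E4 => (|pX N j u| - z) ^ 2 + (pY N j u - w) ^ 2 :=
  (((continuous_pX (N := N) (j := j)).abs.sub continuous_const).pow 2).add
    (((continuous_pY (N := N) (j := j)).sub continuous_const).pow 2)

theorem Amb_cont' (N : ℕ∞) (j : ℕ) (w : ℝ) :
    Continuous fun u : E4 => pX N j u ^ 2 + (pY N j u - w) ^ 2 :=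
  ((continuous_pX (N := N) (j := j)).pow 2).add
    (((continuous_pY (N := N) (j := j)).sub continuous_const).pow 2)

/-- a point of a patch is not over `(0, FF ⊤ 0)` -/
theorem Amb_pos_top {j : ℕ} {u : E4} (hu : u ∈ VC ⊤ j) :
    0 < pX ⊤ j u ^ 2 + (pY ⊤ j u - FF ⊤ 0) ^ 2 := by
  by_cases hX : pX ⊤ j u = 0
  · rcases hu with h | h
    · rw [hX, GG_top_zero] at h
      have : 0 < pY ⊤ j u - FF ⊤ 0 := by linarith
      positivity
    · exfalso
      have h1 := h.2.2.1 (ENat.natCast_lt_top j)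
      have h2 := zz_pos (j + 1)
      rw [hX] at h1
      linarith
  · positivity

theorem Amb_far {X Y d z f r : ℝ} (hd : 0 < d) (h : d ^ 2 < X ^ 2 + Y ^ 2) (hz : 0 ≤ z)
    (hzd : z ≤ d / 4) (hf : |f| ≤ z / 20) (hr : 0 ≤ r) (hrz : r ≤ z) :
    r ^ 2 < (|X| - z) ^ 2 + (Y - f) ^ 2 := by
  have h1 : |X| ^ 2 = X ^ 2 := sq_abs X
  have h2 : f ^ 2 ≤ (z / 20) ^ 2 := by
    rw [← sq_abs f]
    exact pow_le_pow_left₀ (abs_nonneg f) hf 2
  have h3 : z ^ 2 ≤ (d / 4) ^ 2 := pow_le_pow_left₀ hz hzd 2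
  have h4 : r ^ 2 ≤ z ^ 2 := pow_le_pow_left₀ hr hrz 2
  nlinarith [sq_nonneg (|X| - 2 * z), sq_nonneg (Y - 2 * f), sq_nonneg z]

theorem Amb_outDisks_top (hρ : RadOK R ⊤ ρ) {j : ℕ} {u : E4} (hu : u ∈ VC ⊤ j) :
    ∃ K : ℕ, ∀ᶠ w in 𝓝 u, ∀ k : ℕ, K ≤ k → 1 ≤ k →
      ρ k ^ 2 < (|pX ⊤ j w| - zz k) ^ 2 + (pY ⊤ j w - FF ⊤ (zz k)) ^ 2 := by
  have hp := Amb_pos_top hu
  set P := pX ⊤ j u ^ 2 + (pY ⊤ j u - FF ⊤ 0) ^ 2 with hP
  set d := Real.sqrt (P / 2) with hd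
  have hd0 : 0 < d := Real.sqrt_pos.2 (by linarith)
  have hd2 : d ^ 2 = P / 2 := Real.sq_sqrt (by linarith)
  have hev : ∀ᶠ w in 𝓝 u, d ^ 2 < pX ⊤ j w ^ 2 + (pY ⊤ j w - FF ⊤ 0) ^ 2 :=
    (Amb_cont' ⊤ j (FF ⊤ 0)).continuousAt.eventually_const_lt (by rw [hd2]; linarith)
  have hz : ∀ᶠ k : ℕ in atTop, zz k < d / 4 :=
    zz_tendsto.eventually_lt_const (by positivity)
  obtain ⟨K, hK⟩ := eventually_atTop.1 hz
  refine ⟨K, ?_⟩
  filter_upwards [hev] with w hw k hk hk1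
  have hzk := hK k hk
  have hz0 := zz_pos k
  have hl := FF_lip ⊤ (zz k) 0
  rw [sub_zero, abs_of_pos hz0] at hl
  have := Amb_far (X := pX ⊤ j w) (Y := pY ⊤ j w - FF ⊤ 0) (f := FF ⊤ (zz k) - FF ⊤ 0)
    (r := ρ k) hd0 hw hz0.le hzk.le (by linarith) (hρ.pos k).le (by linarith [hρ.le k hk1])
  have e : pY ⊤ j w - FF ⊤ 0 - (FF ⊤ (zz k) - FF ⊤ 0) = pY ⊤ j w - FF ⊤ (zz k) := by ring
  rw [e] at this
  exact this

theorem Amb_outDisks (hρ : RadOK R N ρ) {j : ℕ} {u : E4} (hu : u ∈ VC N j) :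
    ∃ K : ℕ, ∀ᶠ w in 𝓝 u, ∀ k : ℕ, K ≤ k → 1 ≤ k → (k : ℕ∞) ≤ N →
      ρ k ^ 2 < (|pX N j w| - zz k) ^ 2 + (pY N j w - FF N (zz k)) ^ 2 := by
  by_cases hN : N = ⊤
  · subst hN
    obtain ⟨K, hK⟩ := Amb_outDisks_top hρ hu
    refine ⟨K, ?_⟩
    filter_upwards [hK] with w hw k hk hk1 _
    exact hw k hk hk1
  · refine ⟨N.toNat + 1, Eventually.of_forall fun w k hk _ hkN => ?_⟩
    exfalso
    rw [← ENat.natCast_toNat hN] at hkN
    have := Nat.cast_le.1 hkN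
    omega

theorem isOpen_VA (hN : 1 ≤ N) (hρ : RadOK R N ρ) (j : ℕ) : IsOpen (VA N ρ j) := by
  rw [isOpen_iff_eventually]
  rintro u ⟨hj, hu, hk, hm⟩
  obtain ⟨K, hK⟩ := Amb_outDisks hρ hu
  have h1 : ∀ᶠ w in 𝓝 u, ∀ k ∈ Finset.range K, 1 ≤ k → (k : ℕ∞) ≤ N →
      ρ k ^ 2 < (|pX N j w| - zz k) ^ 2 + (pY N j w - FF N (zz k)) ^ 2 := by
    rw [Filter.eventually_all_finset]
    intro k _
    by_cases hk1 : 1 ≤ k
    · by_cases hkN : (k : ℕ∞) ≤ N
      · filter_upwards [(Amb_cont N j (zz k) (FF N (zz k))).continuousAt.eventually_const_lt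
          (hk k hk1 hkN)] with w hw _ _ using hw
      · exact Eventually.of_forall fun w _ h => absurd h hkN
    · exact Eventually.of_forall fun w h => absurd h hk1
  have h2 : ∀ᶠ w in 𝓝 u, N ≠ ⊤ → ρ 0 ^ 2 < pX N j w ^ 2 + (pY N j w - midY N) ^ 2 := by
    by_cases hNt : N = ⊤
    · exact Eventually.of_forall fun w h => absurd hNt h
    · filter_upwards [(Amb_cont' N j (midY N)).continuousAt.eventually_const_lt (hm hNt)] with
        w hw _ using hw
  filter_upwards [h1, h2, hK, (isOpen_VC hN hj).mem_nhds hu] with w w1 w2 w3 w4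
  refine ⟨hj, w4, fun k hk1 hkN => ?_, w2⟩
  by_cases hkK : k < K
  · exact w1 k (Finset.mem_range.2 hkK) hk1 hkN
  · exact w3 k (not_lt.1 hkK) hk1 hkN

theorem good_VA (hR : 0 < R) (hR' : R ≤ 1 / 8) (hN : 1 ≤ N) (j : ℕ) :
    GoodMet (gC R N j) (VA N ρ j) := by
  by_cases hj : (j : ℕ∞) ≤ N
  · have h := goodMet_gC hR hR' hN hj
    exact ⟨fun i k => (h.smooth i k).mono fun x hx => hx.2.1, fun x hx => h.symm x hx.2.1,
      fun x hx => h.pos x hx.2.1⟩
  · have he : VA N ρ j = ∅ := by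
      ext u
      exact ⟨fun hu => absurd hu.1 hj, fun hu => absurd hu (Set.notMem_empty u)⟩
    rw [he]
    exact ⟨fun i k => contDiffOn_empty, fun x hx => absurd hx (Set.notMem_empty x),
      fun x hx => absurd hx (Set.notMem_empty x)⟩

theorem Amb_edge {j : ℕ} (hj : (j : ℕ∞) ≤ N) {u : E4} (hu : u ∈ VC N j) (h0 : n3 u = 0) :
    opEdge N j (pX N j u) := by
  rcases hu with h | h
  · exact absurd h0 (n3_pos hj h).ne'
  · exact h.2

theorem Amb_succ_zero {u : E4} (h0 : n3 u = 0) (k : Fin 3) : u k.succ = 0 := by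
  obtain ⟨h1, h2, h3⟩ := n3_eq_zero.1 h0
  fin_cases k
  · exact h1
  · exact h2
  · exact h3

theorem continuousAt_repA (hR : 0 < R) (hR' : R ≤ 1 / 8) (hN : 1 ≤ N) {j : ℕ}
    (hj : (j : ℕ∞) ≤ N) {u : E4} (hu : u ∈ VC N j) : ContinuousAt (repA R N j) u := by
  have cX : ContinuousAt (pX N j) u := (continuous_pX (N := N) (j := j)).continuousAt
  have cY : ContinuousAt (pY N j) u := (continuous_pY (N := N) (j := j)).continuousAt
  have cc : ∀ k : Fin 4, ContinuousAt (fun u : E4 => u k) u := fun k =>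
    (by fun_prop : Continuous fun u : E4 => u k).continuousAt
  by_cases h0 : n3 u = 0
  · have hE := Amb_edge hj hu h0
    have h1 : ContinuousAt (fun w : E4 => (pX N j w, pY N j w, fun k : Fin 3 => w k.succ)) u :=
      cX.prodMk (cY.prodMk (continuousAt_pi.2 fun k => cc k.succ))
    refine h1.congr ?_
    filter_upwards [gC_edge hR hN hj h0 hE] with w hw
    unfold repA
    refine Prod.ext rfl (Prod.ext rfl ?_)
    funext k
    show w k.succ = bb R N (pX N j w) (pY N j w) * (w k.succ / n3 w)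
    by_cases hw0 : n3 w = 0
    · rw [Amb_succ_zero hw0]
      ring
    · rw [hw.2.2 hw0]
      field_simp
  · have hG := mem_VC_of_n3 hj hu h0
    have hb : ContinuousAt (fun w : E4 => bb R N (pX N j w) (pY N j w)) u :=
      ContinuousAt.comp (f := fun w : E4 => (pX N j w, pY N j w))
        (g := fun q : ℝ × ℝ => bb R N q.1 q.2) (bb_contDiffAt hR hR' hN hG).continuousAt
        (cX.prodMk cY)
    have hn : ContinuousAt n3 u := continuous_n3.continuousAt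
    exact cX.prodMk (cY.prodMk (continuousAt_pi.2 fun k =>
      hb.mul ((cc k.succ).div hn h0)))

theorem Amb_ext {u u' : E4} (h0 : u 0 = u' 0) (h : ∀ k : Fin 3, u k.succ = u' k.succ) :
    u = u' := by
  ext i
  refine Fin.cases h0 h i

theorem repA_inj (hR : 0 < R) (hR' : R ≤ 1 / 8) (hN : 1 ≤ N) {j : ℕ} (hj : (j : ℕ∞) ≤ N)
    {u u' : E4} (hu : u ∈ VC N j) (hu' : u' ∈ VC N j) (h : repA R N j u = repA R N j u') :
    u = u' := by
  have hX : pX N j u = pX N j u' := congrArg (fun p : ℝ × ℝ × (Fin 3 → ℝ) => p.1) h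
  have hY : pY N j u = pY N j u' := congrArg (fun p : ℝ × ℝ × (Fin 3 → ℝ) => p.2.1) h
  have hv : ∀ k : Fin 3, bb R N (pX N j u) (pY N j u) * (u k.succ / n3 u) =
      bb R N (pX N j u') (pY N j u') * (u' k.succ / n3 u') := fun k =>
    congrArg (fun p : ℝ × ℝ × (Fin 3 → ℝ) => p.2.2 k) h
  have h0 : u 0 = u' 0 := by
    rw [← lc_p (N := N) (j := j) u, ← lc_p (N := N) (j := j) u', hX, hY]
  have hn : n3 u = n3 u' := by
    rw [← sc_p (N := N) (j := j) u, ← sc_p (N := N) (j := j) u', hX, hY]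
  refine Amb_ext h0 fun k => ?_
  by_cases hz : n3 u = 0
  · rw [Amb_succ_zero hz, Amb_succ_zero (hn ▸ hz)]
  · have hb := bb_pos hR hN (mem_VC_of_n3 hj hu hz)
    have := hv k
    rw [← hX, ← hY, ← hn] at this
    have h2 := mul_left_cancel₀ hb.ne' this
    exact (div_left_inj' hz).1 h2

theorem Amb_mid {j : ℕ} {u : E4} (hj : (j : ℕ∞) ≤ N) (hX : pX N j u = 0) (h0 : n3 u = 0)
    (hu : u ∈ VC N j) : N ≠ ⊤ ∧ pY N j u = midY N := by
  have hE := Amb_edge hj hu h0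
  have hnlt : ¬ (j : ℕ∞) < N := by
    intro hlt
    have h1 := hE.2.1 hlt
    have h2 := zz_pos (j + 1)
    rw [hX] at h1
    linarith
  have hNj : N = (j : ℕ∞) := le_antisymm (not_lt.1 hnlt) hj
  have hNt : N ≠ ⊤ := by
    rw [hNj]
    exact ENat.natCast_ne_top j
  refine ⟨hNt, ?_⟩
  rw [pY_of_n3_zero N j h0, hX]
  unfold line midY
  rw [aa_of_not_lt hnlt, Line_vert_not hnlt, zero_mul, add_zero]
  have : N.toNat = j := by rw [hNj]; rfl
  rw [this]

theorem repA_free (hR : 0 < R) (hR' : R ≤ 1 / 8) (hN : 1 ≤ N) (hρ : RadOK R N ρ) {j : ℕ}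
    {u : E4} (hu : u ∈ VA N ρ j) :
    repA R N j u ≠ (-(repA R N j u).1, (repA R N j u).2.1, -(repA R N j u).2.2) := by
  intro h
  obtain ⟨hj, huV, hk, hm⟩ := hu
  have hX : pX N j u = -pX N j u := congrArg (fun p : ℝ × ℝ × (Fin 3 → ℝ) => p.1) h
  have hv : ∀ k : Fin 3, bb R N (pX N j u) (pY N j u) * (u k.succ / n3 u) =
      -(bb R N (pX N j u) (pY N j u) * (u k.succ / n3 u)) := fun k =>
    congrArg (fun p : ℝ × ℝ × (Fin 3 → ℝ) => p.2.2 k) h
  have hX0 : pX N j u = 0 := by linarith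
  have h0 : n3 u = 0 := by
    by_contra hne
    have hb := bb_pos hR hN (mem_VC_of_n3 hj huV hne)
    have hz : ∀ k : Fin 3, u k.succ = 0 := by
      intro k
      have h1 : bb R N (pX N j u) (pY N j u) * (u k.succ / n3 u) = 0 := by linarith [hv k]
      rcases mul_eq_zero.1 h1 with h2 | h2
      · exact absurd h2 hb.ne'
      · exact (div_eq_zero_iff.1 h2).resolve_right hne
    exact hne (n3_eq_zero.2 ⟨hz 0, hz 1, hz 2⟩)
  obtain ⟨hNt, hY⟩ := Amb_mid hj hX0 h0 huV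
  have h1 := hm hNt
  rw [hX0, hY, sub_self] at h1
  have h2 : 0 ≤ ρ 0 ^ 2 := sq_nonneg _
  linarith

theorem ambInj (hR : 0 < R) (hR' : R ≤ 1 / 8) (hN : 1 ≤ N) (hρ : RadOK R N ρ) (j : ℕ) (a : E4)
    (ha : a ∈ VA N ρ j) : ∃ U ∈ 𝓝 a, Set.InjOn (fun u => TauPt.mk (repA R N j u)) U := by
  have hc := continuousAt_repA hR hR' hN ha.1 ha.2.1
  have hfree := repA_free hR hR' hN hρ ha
  have h1 : Tendsto (fun q : E4 × E4 => repA R N j q.1) (𝓝 (a, a)) (𝓝 (repA R N j a)) :=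
    Tendsto.comp (g := repA R N j) hc (continuous_fst.tendsto (a, a))
  have h2 : Tendsto (fun q : E4 × E4 => repA R N j q.2) (𝓝 (a, a)) (𝓝 (repA R N j a)) :=
    Tendsto.comp (g := repA R N j) hc (continuous_snd.tendsto (a, a))
  have hcn : Continuous fun p : ℝ × ℝ × (Fin 3 → ℝ) =>
      ((-p.1, p.2.1, -p.2.2) : ℝ × ℝ × (Fin 3 → ℝ)) := by fun_prop
  have h3 : Tendsto (fun q : E4 × E4 => ((-(repA R N j q.1).1, (repA R N j q.1).2.1,
      -(repA R N j q.1).2.2) : ℝ × ℝ × (Fin 3 → ℝ))) (𝓝 (a, a))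
      (𝓝 (-(repA R N j a).1, (repA R N j a).2.1, -(repA R N j a).2.2)) :=
    (hcn.tendsto (repA R N j a)).comp h1
  have h4 := host_ev_ne h2 h3 hfree
  rw [nhds_prod_eq] at h4
  obtain ⟨U, hU, hUU⟩ := (eventually_prod_self_iff (r := fun x y : E4 => repA R N j y ≠
    (-(repA R N j x).1, (repA R N j x).2.1, -(repA R N j x).2.2))).1 h4
  refine ⟨U ∩ VC N j, Filter.inter_mem hU ((isOpen_VC hN ha.1).mem_nhds ha.2.1), ?_⟩
  intro x hx y hy hxy
  rcases TauPt.mk_eq.1 hxy with h | h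
  · exact (repA_inj hR hR' hN ha.1 hy.2 hx.2 h).symm
  · exact absurd h (hUU x hx.1 y hy.1)

theorem Amb_mk {i j : ℕ} {x y : E4} {ε : ℝ} (hε : ε = 1 ∨ ε = -1)
    (hX : pX N j y = ε * pX N i x) (hY : pY N j y = pY N i x)
    (hv : ∀ k : Fin 3, y k.succ / n3 y = ε * (x k.succ / n3 x)) :
    TauPt.mk (repA R N j y) = TauPt.mk (repA R N i x) := by
  rcases hε with rfl | rfl
  · rw [TauPt.mk_eq]
    left
    unfold repA
    simp only [one_mul] at hX hv
    rw [hX, hY]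
    simp only [hv]
  · rw [eq_comm, TauPt.mk_eq]
    right
    unfold repA
    simp only [neg_one_mul] at hX hv
    rw [hX, hY, bb_neg]
    refine Prod.ext rfl (Prod.ext rfl ?_)
    funext k
    show bb R N (pX N i x) (pY N i x) * (y k.succ / n3 y) =
      -(bb R N (pX N i x) (pY N i x) * (x k.succ / n3 x))
    rw [hv]
    ring

theorem Amb_data {i j : ℕ} {a b : E4}
    (hab : TauPt.mk (repA R N i a) = TauPt.mk (repA R N j b)) :
    ∃ ε : ℝ, (ε = 1 ∨ ε = -1) ∧ pX N j b = ε * pX N i a ∧ pY N j b = pY N i a ∧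
      ∀ k : Fin 3, bb R N (pX N i a) (pY N i a) * (b k.succ / n3 b) =
        ε * (bb R N (pX N i a) (pY N i a) * (a k.succ / n3 a)) := by
  rcases TauPt.mk_eq.1 hab with h | h
  · have hX : pX N j b = pX N i a := congrArg (fun p : ℝ × ℝ × (Fin 3 → ℝ) => p.1) h
    have hY : pY N j b = pY N i a := congrArg (fun p : ℝ × ℝ × (Fin 3 → ℝ) => p.2.1) h
    have hv : ∀ k : Fin 3, bb R N (pX N j b) (pY N j b) * (b k.succ / n3 b) =
        bb R N (pX N i a) (pY N i a) * (a k.succ / n3 a) := fun k =>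
      congrArg (fun p : ℝ × ℝ × (Fin 3 → ℝ) => p.2.2 k) h
    refine ⟨1, Or.inl rfl, by rw [hX, one_mul], hY, fun k => ?_⟩
    have := hv k
    rw [hX, hY] at this
    rw [this, one_mul]
  · have hX : pX N j b = -pX N i a := congrArg (fun p : ℝ × ℝ × (Fin 3 → ℝ) => p.1) h
    have hY : pY N j b = pY N i a := congrArg (fun p : ℝ × ℝ × (Fin 3 → ℝ) => p.2.1) h
    have hv : ∀ k : Fin 3, bb R N (pX N j b) (pY N j b) * (b k.succ / n3 b) =
        -(bb R N (pX N i a) (pY N i a) * (a k.succ / n3 a)) := fun k =>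
      congrArg (fun p : ℝ × ℝ × (Fin 3 → ℝ) => p.2.2 k) h
    refine ⟨-1, Or.inr rfl, by rw [hX, neg_one_mul], hY, fun k => ?_⟩
    have := hv k
    rw [hX, hY, bb_neg] at this
    rw [this, neg_one_mul]

theorem Amb_isoAt_id (g : Met) (x : E4) : IsoAt g g (fun y => y) x := by
  refine ⟨contDiffAt_id, Eventually.of_forall fun y v => ?_⟩
  have : fderiv ℝ (fun y : E4 => y) y v = v := by
    rw [fderiv_fun_id]
    rfl
  rw [this]

theorem ambTrans (hR : 0 < R) (hR' : R ≤ 1 / 8) (hN : 1 ≤ N) (hρ : RadOK R N ρ) (i j : ℕ)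
    (a : E4) (ha : a ∈ VA N ρ i) (b : E4) (hb : b ∈ VA N ρ j)
    (hab : TauPt.mk (repA R N i a) = TauPt.mk (repA R N j b)) :
    ∃ θ : E4 → E4, θ a = b ∧ IsoAt (gC R N i) (gC R N j) θ a ∧
      ∀ᶠ x in 𝓝 a, TauPt.mk (repA R N j (θ x)) = TauPt.mk (repA R N i x) := by
  obtain ⟨ε, hε, hX, hY, hv⟩ := Amb_data hab
  have hi := ha.1
  have hj := hb.1
  by_cases h0 : n3 a = 0
  · obtain ⟨hij, hb0, hb1, hcase⟩ := edge_only hN hi hj hε ha.2.1 h0 hb.2.1 hX hY
    subst hij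
    rcases hε with rfl | rfl
    · refine ⟨fun y => y, ?_, Amb_isoAt_id _ _, Eventually.of_forall fun x => rfl⟩
      refine Amb_ext (by rw [hb1, one_mul]) fun k => ?_
      rw [Amb_succ_zero h0, Amb_succ_zero hb0]
    · have hiN : (i : ℕ∞) = N := hcase.resolve_left (by norm_num)
      subst hiN
      have hi1 : 1 ≤ i := by exact_mod_cast hN
      refine ⟨fun y => -y, ?_, isoAt_mid_neg hR hR' hi1 ha.2.1, Eventually.of_forall fun x => ?_⟩
      · refine Amb_ext (by rw [hb1, neg_one_mul]; rfl) fun k => ?_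
        have e : (-a) k.succ = -(a k.succ) := rfl
        rw [e, Amb_succ_zero h0, Amb_succ_zero hb0, neg_zero]
      · obtain ⟨m1, m2, -⟩ := mid_neg hi1 x
        refine Amb_mk (Or.inr rfl) (by rw [m1, neg_one_mul]) m2 fun k => ?_
        have e : (-x) k.succ = -(x k.succ) := rfl
        rw [e, n3_neg]
        ring
  · have hG := mem_VC_of_n3 hi ha.2.1 h0
    have hbp := bb_pos hR hN hG
    have hξ : ∀ k : Fin 3, b k.succ / n3 b = ε * (a k.succ / n3 a) := by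
      intro k
      refine mul_left_cancel₀ hbp.ne' ?_
      rw [hv k]
      ring
    refine ⟨thC N i j ε, (thC_unique hi hj hε hG hX hY hξ).symm, isoAt_thC hR hR' hN hi hj hε hG,
      ?_⟩
    filter_upwards [transC_open hN hG] with x hx
    obtain ⟨c1, c2, -, -, c5⟩ := thC_coord hN hi hj hε hx
    exact Amb_mk hε c1 c2 c5

theorem ambSep (hR : 0 < R) (hR' : R ≤ 1 / 8) (hN : 1 ≤ N) (i j : ℕ) (a : E4)
    (ha : a ∈ VA N ρ i) (b : E4) (hb : b ∈ VA N ρ j)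
    (hab : TauPt.mk (repA R N i a) ≠ TauPt.mk (repA R N j b)) :
    ∀ᶠ q in 𝓝 (a, b), TauPt.mk (repA R N i q.1) ≠ TauPt.mk (repA R N j q.2) :=
  tau_sep (continuousAt_repA hR hR' hN ha.1 ha.2.1) (continuousAt_repA hR hR' hN hb.1 hb.2.1) hab

end

/-- The parameters of the ambient space. -/
structure AmbPar where
  R : ℝ
  N : ℕ∞
  ρ : ℕ → ℝ
  R_pos : 0 < R
  R_le : R ≤ 1 / 8
  N_ge : 2 ≤ N
  rad : RadOK R N ρ

theorem AmbPar.one_le (A : AmbPar) : 1 ≤ A.N := le_trans (by norm_num) A.N_ge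

/-- The ambient pre-patchwork. -/
noncomputable def ambP (A : AmbPar) : PreP where
  ι := ℕ
  V := VA A.N A.ρ
  g := gC A.R A.N
  Pt := TauPt
  ψ := fun j u => TauPt.mk (repA A.R A.N j u)
  isOpen_V := isOpen_VA A.one_le A.rad
  good := good_VA A.R_pos A.R_le A.one_le
  inj := ambInj A.R_pos A.R_le A.one_le A.rad
  trans := ambTrans A.R_pos A.R_le A.one_le A.rad
  sep := ambSep A.R_pos A.R_le A.one_le

/-- A function of the point of the half plane and of nothing else. -/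
noncomputable def tauFun (f : ℝ → ℝ → ℝ) (hf : ∀ X Y, f (-X) Y = f X Y) : TauPt → ℝ :=
  TauPt.lift (fun p => f p.1 p.2.1) fun X Y _ => hf X Y

theorem tauFun_repA (f : ℝ → ℝ → ℝ) (hf : ∀ X Y, f (-X) Y = f X Y) (R : ℝ) (N : ℕ∞) (j : ℕ)
    (u : E4) : tauFun f hf (TauPt.mk (repA R N j u)) = f (pX N j u) (pY N j u) := rfl

end Pool.Agent.W_MP_654ec6
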