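import Pool.Agent.W_MP_654ec6.F.Pre

/-!
# Task F6: connectedness of glued spaces

`P.Conn`: any two points of the patches are joined by a chain of segments. `P.Reach r`: from every
point one can reach (by a chain) a point with `0 < r`. `glue_conn`: if `P` is connected and from
every point of `Q` one reaches the collar then `glue P Q G` is connected: chains in `Q` are
mapped by `glueMap G` to chains in the glued space, and a point of the collar is
`Sum.inl (G.E d u) = Sum.inl (P.ψ i (θ u))` by `etale`. Use `seg_symm`.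
`reach_glue`: reaching in `glue P Q G` for a function `Sum.elim fP fQ`: from a point of `Q` one
reaches the collar of `G`, hence a point of `P`, and from there a point with `0 < fP`.
-/

open scoped ContDiff Topology
open Filter

namespace Pool.Agent.W_MP_654ec6

namespace PreP

def Conn (P : PreP) : Prop :=
  ∀ i j, ∀ a ∈ P.V i, ∀ c ∈ P.V j, Relation.ReflTransGen P.Seg (P.ψ i a) (P.ψ j c)

def Reach (P : PreP) (r : P.Pt → ℝ) : Prop :=
  ∀ i, ∀ a ∈ P.V i, ∃ j, ∃ c ∈ P.V j, 0 < r (P.ψ j c) ∧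
    Relation.ReflTransGen P.Seg (P.ψ i a) (P.ψ j c)

theorem Conn_inl {P Q : PreP} (G : GlueData P Q) {p q : P.Pt}
    (h : Relation.ReflTransGen P.Seg p q) :
    Relation.ReflTransGen (glue P Q G).Seg (Sum.inl p) (Sum.inl q) := by
  refine Relation.ReflTransGen.lift (r := P.Seg) (p := (glue P Q G).Seg)
    (fun p : P.Pt => (Sum.inl p : P.Pt ⊕ Q.Pt)) ?_ _ _ h
  rintro p q ⟨i, a, b, h1, h2, h3⟩
  exact ⟨Sum.inl i, a, b, h1, congrArg Sum.inl h2, congrArg Sum.inl h3⟩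

theorem Conn_map {P Q : PreP} (G : GlueData P Q) {p q : Q.Pt}
    (h : Relation.ReflTransGen Q.Seg p q) :
    Relation.ReflTransGen (glue P Q G).Seg (glueMap G p) (glueMap G q) := by
  refine Relation.ReflTransGen.lift (r := Q.Seg) (p := (glue P Q G).Seg) (glueMap G) ?_ _ _ h
  rintro p q ⟨j, a, b, h1, h2, h3⟩
  exact ⟨Sum.inr j, a, b, h1, congrArg (glueMap G) h2, congrArg (glueMap G) h3⟩

/-- from every point of the glued space one reaches a point of `P` -/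
theorem Conn_toP {P Q : PreP} (G : GlueData P Q) (hQ : Q.Reach G.rQ) (i : P.ι ⊕ Q.ι) (a : E4)
    (ha : a ∈ (glue P Q G).V i) : ∃ j, ∃ c ∈ P.V j,
      Relation.ReflTransGen (glue P Q G).Seg ((glue P Q G).ψ i a) (Sum.inl (P.ψ j c)) := by
  rcases i with i | j
  · exact ⟨i, a, ha, Relation.ReflTransGen.refl⟩
  · obtain ⟨j', c, hc, h0, hch⟩ := hQ j a ha
    obtain ⟨d, hd, u, hu, -, h1, e2⟩ := Pre_glueMap_pos G hc h0
    obtain ⟨k, θ, hθ, -, hev⟩ := G.etale d hd u hu h1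
    have h2 : P.ψ k (θ u) = G.E d u := hev.self_of_nhds
    refine ⟨k, θ u, hθ, ?_⟩
    have h3 := Conn_map G hch
    rw [e2, ← h2] at h3
    exact h3

theorem glue_conn {P Q : PreP} (G : GlueData P Q) (hP : P.Conn) (hQ : Q.Reach G.rQ) :
    (glue P Q G).Conn := by
  intro i j a ha c hc
  obtain ⟨i', a', ha', h1⟩ := Conn_toP G hQ i a ha
  obtain ⟨j', c', hc', h2⟩ := Conn_toP G hQ j c hc
  exact (h1.trans (Conn_inl G (hP i' j' a' ha' c' hc'))).trans (seg_symm _ h2)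

theorem reach_glue {P Q : PreP} (G : GlueData P Q) {fP : P.Pt → ℝ} {fQ : Q.Pt → ℝ}
    (hP : P.Reach fP) (hQ : Q.Reach G.rQ) : (glue P Q G).Reach (Sum.elim fP fQ) := by
  intro i a ha
  obtain ⟨i', a', ha', h1⟩ := Conn_toP G hQ i a ha
  obtain ⟨j, c, hc, h0, h2⟩ := hP i' a' ha'
  exact ⟨Sum.inl j, c, hc, h0, h1.trans (Conn_inl G h2)⟩

theorem reach_sigma {K : Type} {Q : K → PreP} {r : ∀ k, (Q k).Pt → ℝ}
    (h : ∀ k, (Q k).Reach (r k)) : (sigma Q).Reach (fun p => r p.1 p.2) := by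
  rintro ⟨k, i⟩ a ha
  obtain ⟨j, c, hc, h0, h1⟩ := h k i a ha
  refine ⟨⟨k, j⟩, c, hc, h0, ?_⟩
  refine Relation.ReflTransGen.lift (r := (Q k).Seg) (p := (sigma Q).Seg)
    (fun p : (Q k).Pt => (⟨k, p⟩ : Σ k, (Q k).Pt)) ?_ _ _ h1
  rintro p q ⟨i, a, b, h1, h2, h3⟩
  exact ⟨⟨k, i⟩, a, b, h1, congrArg (Sigma.mk k) h2, congrArg (Sigma.mk k) h3⟩

theorem reach_restr {Q : PreP} {r : Q.Pt → ℝ} (h : Q.Reach r) (c : Prop) :
    (Q.restr c).Reach r := by
  rintro i a ⟨hc0, ha⟩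
  obtain ⟨j, b, hb, h0, h1⟩ := h i a ha
  refine ⟨j, b, ⟨hc0, hb⟩, h0, ?_⟩
  refine Relation.ReflTransGen.mono (r := Q.Seg) ?_ _ _ h1
  rintro p q ⟨i, a, b, h1, h2, h3⟩
  exact ⟨i, a, b, fun x hx => ⟨hc0, h1 hx⟩, h2, h3⟩

theorem reach_smul {Q : PreP} {r : Q.Pt → ℝ} (h : Q.Reach r) {c : ℝ} (hc : 0 < c) :
    (Q.smul c hc).Reach r := by
  intro i a ha
  exact h i a ha

end PreP

end Pool.Agent.W_MP_654ec6
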