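import Pool.Agent.W_MP_654ec6.C.Vertex
import Pool.Agent.W_MP_654ec6.F.Amb
import Pool.Agent.W_MP_654ec6.F.Conn

/-!
# Task F7: the ambient space is connected

All labels below are `(i, u)` with `u = mk4 (lc N i X Y) (sc N i X Y) ξ`, i.e. a point `(X, Y)` of the open polygon
outside the disks and a unit vector `ξ`; for fixed `ξ` a segment in the `(X, Y)` plane is a segment in
the patch `i` (`mk4 l s ξ` is affine in `(l, s)`, `lc, sc` are affine), and for fixed `(X, Y)` a path of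
unit vectors `ξ` is a path in the patch (`seg_of_joined`; the sphere of `ℝ³` is path connected).
(0) A point with `n3 u = 0` is joined inside `VA` (open) to a point with `n3 ≠ 0`.
(1) Let `(X, Y)` be outside the disks. It is bad for `k` (`1 ≤ k ≤ N`) if `||X| - zz k| ≤ ρ k` and
`Y < FF (zz k)`. As `Y > GG X ≥ GG (zz k) - ||X| - zz k|/10` (`GG_lip`, and `GG = FF` at the vertices), a bad point
has `d = |X| - zz k` with `d² (1 + 1/100) > ρ k²`. Move it on the ray from the vertex `(± zz k, FF (zz k))`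
through the point, by the factor `11/10`: the segment stays in the open polygon (near the vertex
`GG` is affine on both sides: `GG_right, GG_left` in the disk of radius `zz k/8`, or: use
convexity of the polygon and `vertex_mem`), outside the disk `k` and (by `vertex_disjoint`,
`vertex_disjoint_neg`, and the condition on the middle disk) outside the others, and the end
point is not bad: `|d| 11/10 > ρ k`. (Middle disk, `N = n` finite: center `(0, FF (zz n))`, radius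
`ρ 0 ≤ R zz n/64`: its points have `|X| ≤ zz n / 64`, while near the vertices `|X| ≥ 7/8 zz k`; a vertical ray
upwards never enters the middle disk because `Y > GG X ≥ FF (zz n)`.)
(2) From a point which is not bad the vertical ray upwards stays outside the disks and in the
polygon; go up to `Y₁ ≥ max 2 (GG X + 1)`, then horizontally to `X = 0` (`GG X' ≤ GG X` for `|X'| ≤ |X|`), and
vertically to `(0, 2)` (disks have `Y ≤ 1`: `FF (zz k) ≤ 0 `, `ρ k ≤ 1`; `GG 0 < 2`).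
(3) At `(0, 2)` join `ξ` to `ξ₀ = (1, 0, 0)`, and note that the labels
`(i, mk4 (lc N i 0 2) (sc N i 0 2) ξ₀)` for the different `i ≤ N` represent the same point.
-/

open scoped ContDiff Topology
open Filter Real

namespace Pool.Agent.W_MP_654ec6

section

variable {R : ℝ} {N : ℕ∞} {ρ : ℕ → ℝ}

/-- The points of the open polygon outside the disks. -/
def AmbConn_W (N : ℕ∞) (ρ : ℕ → ℝ) (X Y : ℝ) : Prop := GG N X < Y ∧ OutDisks N ρ X Y

/-- The point of the ambient space with the coordinates `(X, Y)` and the direction `ξ`. -/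
noncomputable def AmbConn_pt (R : ℝ) (N : ℕ∞) (X Y : ℝ) (ξ : Fin 3 → ℝ) : TauPt :=
  TauPt.mk (X, Y, fun k : Fin 3 => bb R N X Y * ξ k)

theorem AmbConn_zero_le (N : ℕ∞) : ((0 : ℕ) : ℕ∞) ≤ N := by
  simp

theorem AmbConn_mem {X Y : ℝ} (hW : AmbConn_W N ρ X Y) {ξ : Fin 3 → ℝ}
    (hξ : ξ 0 ^ 2 + ξ 1 ^ 2 + ξ 2 ^ 2 = 1) :
    mk4 (lc N 0 X Y) (sc N 0 X Y) ξ ∈ VA N ρ 0 := by
  have hs := sc_pos (AmbConn_zero_le N) hW.1
  refine ⟨AmbConn_zero_le N, Or.inl ?_, ?_⟩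
  · rw [pX_mk4 N 0 hs.le hξ, pY_mk4 N 0 hs.le hξ]
    exact hW.1
  · rw [pX_mk4 N 0 hs.le hξ, pY_mk4 N 0 hs.le hξ]
    exact hW.2

theorem AmbConn_psi {X Y : ℝ} (hW : GG N X < Y) {ξ : Fin 3 → ℝ}
    (hξ : ξ 0 ^ 2 + ξ 1 ^ 2 + ξ 2 ^ 2 = 1) :
    TauPt.mk (repA R N 0 (mk4 (lc N 0 X Y) (sc N 0 X Y) ξ)) = AmbConn_pt R N X Y ξ := by
  have hs := sc_pos (AmbConn_zero_le N) hW
  unfold repA AmbConn_pt
  rw [pX_mk4 N 0 hs.le hξ, pY_mk4 N 0 hs.le hξ, n3_mk4 _ hs.le hξ]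
  congr 1
  refine Prod.ext rfl (Prod.ext rfl ?_)
  funext k
  show bb R N X Y * (mk4 (lc N 0 X Y) (sc N 0 X Y) ξ k.succ / sc N 0 X Y) = bb R N X Y * ξ k
  rw [transC_mk4_succ]
  field_simp

theorem AmbConn_combo {s t : ℝ} (hst : s + t = 1) (X Y X' Y' : ℝ) (ξ : Fin 3 → ℝ) :
    s • mk4 (lc N 0 X Y) (sc N 0 X Y) ξ + t • mk4 (lc N 0 X' Y') (sc N 0 X' Y') ξ =
      mk4 (lc N 0 (s * X + t * X') (s * Y + t * Y')) (sc N 0 (s * X + t * X') (s * Y + t * Y'))
        ξ := by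
  have h1 : lc N 0 (s * X + t * X') (s * Y + t * Y') = s * lc N 0 X Y + t * lc N 0 X' Y' := by
    unfold lc
    have : s = 1 - t := by linarith
    subst this
    ring
  have h2 : sc N 0 (s * X + t * X') (s * Y + t * Y') = s * sc N 0 X Y + t * sc N 0 X' Y' := by
    unfold sc
    have : s = 1 - t := by linarith
    subst this
    ring
  rw [h1, h2]
  ext i
  fin_cases i
  · simp [mk4]
  · simp [mk4]
    ring
  · simp [mk4]
    ring
  · simp [mk4]
    ring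

/-- A segment in the open polygon outside the disks. -/
def AmbConn_PSeg (N : ℕ∞) (ρ : ℕ → ℝ) (p q : ℝ × ℝ) : Prop :=
  ∀ s t : ℝ, 0 ≤ s → 0 ≤ t → s + t = 1 → AmbConn_W N ρ (s * p.1 + t * q.1) (s * p.2 + t * q.2)

theorem AmbConn_seg {A : AmbPar} {p q : ℝ × ℝ} (h : AmbConn_PSeg A.N A.ρ p q) {ξ : Fin 3 → ℝ}
    (hξ : ξ 0 ^ 2 + ξ 1 ^ 2 + ξ 2 ^ 2 = 1) :
    (ambP A).Seg (AmbConn_pt A.R A.N p.1 p.2 ξ) (AmbConn_pt A.R A.N q.1 q.2 ξ) := by
  have hp : AmbConn_W A.N A.ρ p.1 p.2 := by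
    have := h 1 0 zero_le_one le_rfl (by norm_num)
    simpa using this
  have hq : AmbConn_W A.N A.ρ q.1 q.2 := by
    have := h 0 1 le_rfl zero_le_one (by norm_num)
    simpa using this
  refine ⟨(0 : ℕ), mk4 (lc A.N 0 p.1 p.2) (sc A.N 0 p.1 p.2) ξ,
    mk4 (lc A.N 0 q.1 q.2) (sc A.N 0 q.1 q.2) ξ, ?_, AmbConn_psi hp.1 hξ, AmbConn_psi hq.1 hξ⟩
  rintro z ⟨s, t, hs, ht, hst, rfl⟩
  rw [AmbConn_combo hst]
  exact AmbConn_mem (h s t hs ht hst) hξ

theorem AmbConn_chain {A : AmbPar} {p q : ℝ × ℝ}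
    (h : Relation.ReflTransGen (AmbConn_PSeg A.N A.ρ) p q) {ξ : Fin 3 → ℝ}
    (hξ : ξ 0 ^ 2 + ξ 1 ^ 2 + ξ 2 ^ 2 = 1) :
    Relation.ReflTransGen (ambP A).Seg (AmbConn_pt A.R A.N p.1 p.2 ξ)
      (AmbConn_pt A.R A.N q.1 q.2 ξ) := by
  induction h with
  | refl => exact Relation.ReflTransGen.refl
  | tail _ h2 ih => exact ih.tail (AmbConn_seg h2 hξ)

/-- Changing the direction. -/
theorem AmbConn_turn {A : AmbPar} {X Y : ℝ} (hW : AmbConn_W A.N A.ρ X Y) {ξ ξ' : Fin 3 → ℝ}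
    (hξ : ξ 0 ^ 2 + ξ 1 ^ 2 + ξ 2 ^ 2 = 1) (hξ' : ξ' 0 ^ 2 + ξ' 1 ^ 2 + ξ' 2 ^ 2 = 1) :
    Relation.ReflTransGen (ambP A).Seg (AmbConn_pt A.R A.N X Y ξ)
      (AmbConn_pt A.R A.N X Y ξ') := by
  have hrank : 1 < Module.rank ℝ (EuclideanSpace ℝ (Fin 3)) := by
    rw [← Module.finrank_eq_rank, finrank_euclideanSpace_fin]
    norm_num
  have hnorm : ∀ ζ : Fin 3 → ℝ, ζ 0 ^ 2 + ζ 1 ^ 2 + ζ 2 ^ 2 = 1 →
      (WithLp.toLp 2 ζ : EuclideanSpace ℝ (Fin 3)) ∈
        Metric.sphere (0 : EuclideanSpace ℝ (Fin 3)) 1 := by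
    intro ζ hζ
    rw [mem_sphere_zero_iff_norm, EuclideanSpace.norm_eq, Fin.sum_univ_three]
    simp only [Real.norm_eq_abs, sq_abs]
    rw [hζ, Real.sqrt_one]
  have hj := (isPathConnected_sphere hrank (0 : EuclideanSpace ℝ (Fin 3)) zero_le_one).joinedIn
    _ (hnorm ξ hξ) _ (hnorm ξ' hξ')
  obtain ⟨γ, hγ⟩ := hj
  have hf : Continuous fun v : EuclideanSpace ℝ (Fin 3) =>
      mk4 (lc A.N 0 X Y) (sc A.N 0 X Y) (fun k => v k) := by
    unfold mk4
    fun_prop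
  have hJ : JoinedIn ((ambP A).V (0 : ℕ)) (mk4 (lc A.N 0 X Y) (sc A.N 0 X Y) ξ)
      (mk4 (lc A.N 0 X Y) (sc A.N 0 X Y) ξ') := by
    refine ⟨γ.map hf, fun t => ?_⟩
    refine AmbConn_mem hW ?_
    have h1 := hγ t
    rw [mem_sphere_zero_iff_norm, EuclideanSpace.norm_eq, Fin.sum_univ_three] at h1
    simp only [Real.norm_eq_abs, sq_abs] at h1
    rw [Real.sqrt_eq_one] at h1
    exact h1
  have h2 := (ambP A).seg_of_joined hJ
  have e1 : (ambP A).ψ (0 : ℕ) (mk4 (lc A.N 0 X Y) (sc A.N 0 X Y) ξ) = AmbConn_pt A.R A.N X Y ξ :=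
    AmbConn_psi hW.1 hξ
  have e2 : (ambP A).ψ (0 : ℕ) (mk4 (lc A.N 0 X Y) (sc A.N 0 X Y) ξ') =
      AmbConn_pt A.R A.N X Y ξ' := AmbConn_psi hW.1 hξ'
  rw [e1, e2] at h2
  exact h2

/-! ### The plane -/

theorem AmbConn_F_nonpos (N : ℕ∞) (k : ℕ) : FF N (zz k) ≤ 0 := by
  have h1 : FF N 1 = 0 := by
    unfold FF
    exact intervalIntegral.integral_same
  rw [← h1]
  exact FF_mono N (zz_pos k).le (zz_le_one k)

theorem AmbConn_num1 {r a y f z : ℝ} (h1 : r ≤ z / 16) (h3 : z ≤ 1) (h4 : 0 < r) (hf : f ≤ 0)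
    (hY : 2 ≤ y) : r ^ 2 < a ^ 2 + (y - f) ^ 2 := by
  have h6 : r ^ 2 < (y - f) ^ 2 := pow_lt_pow_left₀ (by linarith) h4.le two_ne_zero
  have h7 := sq_nonneg a
  linarith

theorem AmbConn_num2 {r a y y' f : ℝ} (h1 : r ^ 2 < a ^ 2 + (y - f) ^ 2) (h2 : f ≤ y)
    (h3 : y ≤ y') : r ^ 2 < a ^ 2 + (y' - f) ^ 2 := by
  have h4 : (y - f) ^ 2 ≤ (y' - f) ^ 2 := pow_le_pow_left₀ (by linarith) (by linarith) 2
  linarith

theorem AmbConn_num3 {r a b : ℝ} (h0 : 0 ≤ r) (h : r < a) : r ^ 2 < a ^ 2 + b ^ 2 := by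
  have h1 := pow_lt_pow_left₀ h h0 two_ne_zero
  have h2 := sq_nonneg b
  linarith

theorem AmbConn_num4 {a x y : ℝ} (hx : x < 0) (hy : y < 0) (ha : a ≤ 1 / 10) (h : a * x < y) :
    y ^ 2 ≤ x ^ 2 / 100 := by
  have h1 : 1 / 10 * x ≤ a * x := mul_le_mul_of_nonpos_right ha hx.le
  have h2 : (-y) ^ 2 ≤ (-(1 / 10 * x)) ^ 2 := pow_le_pow_left₀ (by linarith) (by linarith) 2
  linarith

theorem AmbConn_num5 {r t x y : ℝ} (ht : 1 ≤ t ^ 2) (h : r ^ 2 < x ^ 2 + y ^ 2) :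
    r ^ 2 < (t * x) ^ 2 + (t * y) ^ 2 := by
  have h1 : 0 ≤ x ^ 2 + y ^ 2 := by positivity
  have h2 := mul_le_mul_of_nonneg_right ht h1
  linarith

theorem AmbConn_num6 {t x y z : ℝ} (ht : 0 ≤ t) (ht' : t ≤ 11 / 10) (hx : x < 0)
    (hx1 : -(z / 16) ≤ x) (hyx : y ^ 2 ≤ x ^ 2 / 100) :
    (t * x) ^ 2 + (t * y) ^ 2 ≤ (z / 8) ^ 2 := by
  have ht2 : t ^ 2 ≤ (11 / 10) ^ 2 := pow_le_pow_left₀ ht ht' 2
  have h4 : x ^ 2 ≤ (z / 16) ^ 2 := sq_le_sq' hx1 (by linarith)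
  have h5 : (t * x) ^ 2 + (t * y) ^ 2 = t ^ 2 * (x ^ 2 + y ^ 2) := by ring
  have h6 : x ^ 2 + y ^ 2 ≤ 101 / 100 * (z / 16) ^ 2 := by linarith
  have h7 : 0 ≤ x ^ 2 + y ^ 2 := by positivity
  have h8 := mul_le_mul ht2 h6 h7 (by norm_num)
  have h9 := sq_nonneg z
  rw [h5]
  linarith

theorem AmbConn_num7 {r x y : ℝ} (h1 : (11 / 10 * x) ^ 2 ≤ r ^ 2) (h2 : r ^ 2 < x ^ 2 + y ^ 2)
    (h3 : y ^ 2 ≤ x ^ 2 / 100) : False := by
  have h4 := sq_nonneg x
  linarith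

theorem AmbConn_rad_lt (hρ : RadOK R N ρ) (hR' : R ≤ 1 / 8) {k : ℕ} (hk : 1 ≤ k) :
    ρ k ≤ zz k / 16 := by
  have := hρ.le k hk
  linarith

theorem AmbConn_rad0 (hR : 0 < R) (hρ : RadOK R N ρ) (hR' : R ≤ 1 / 8) (hN : N ≠ ⊤) :
    ρ 0 ≤ zz N.toNat / 64 := by
  have h1 := hρ.mid hN
  have h2 := cc_le N N.toNat
  have h3 := cc_nonneg N N.toNat
  have h4 := zz_pos N.toNat
  have h5 : R * cc N N.toNat ≤ 1 := by
    have h6 := mul_le_mul hR' h2 h3 (by norm_num)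
    linarith
  have h6 : R * cc N N.toNat * zz N.toNat ≤ 1 * zz N.toNat :=
    mul_le_mul_of_nonneg_right h5 h4.le
  linarith

/-- High points are outside the disks. -/
theorem AmbConn_high (hR : 0 < R) (hρ : RadOK R N ρ) (hR' : R ≤ 1 / 8) {X Y : ℝ} (hY : 2 ≤ Y) :
    OutDisks N ρ X Y := by
  refine ⟨fun k hk hkN => ?_, fun hN => ?_⟩
  · have h1 := AmbConn_rad_lt hρ hR' hk
    have h2 := AmbConn_F_nonpos N k
    have h3 := zz_le_one k
    have h4 := hρ.pos k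
    exact AmbConn_num1 h1 h3 h4 h2 hY
  · have h1 := AmbConn_rad0 hR hρ hR' hN
    have h2 := AmbConn_F_nonpos N N.toNat
    have h3 := zz_le_one N.toNat
    have h4 := hρ.pos 0
    unfold midY
    exact AmbConn_num1 (by linarith [zz_pos N.toNat]) h3 h4 h2 hY

theorem AmbConn_GG_zero (hN : 1 ≤ N) : GG N 0 ≤ 1 / 20 := by
  have h1 := GG_mono N hN (X := 0) (X' := zz 1) le_rfl (zz_pos 1).le
  have h2 := GG_vertex (N := N) (k := 1) le_rfl (by simpa using hN)
  have h3 := AmbConn_F_nonpos N 1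
  linarith

/-- The middle of the middle edge is not above the polygon. -/
theorem AmbConn_mid_le (hN : 1 ≤ N) (hNt : N ≠ ⊤) (X : ℝ) : midY N ≤ GG N X := by
  obtain ⟨n, rfl⟩ : ∃ n : ℕ, N = n := ⟨N.toNat, (ENat.natCast_toNat hNt).symm⟩
  have hn : 1 ≤ n := by exact_mod_cast hN
  unfold midY
  have e : ((n : ℕ∞)).toNat = n := rfl
  rw [e]
  rcases le_total |X| (zz n) with h | h
  · rw [GG_mid hn h]
  · rw [← GG_abs _ X, ← GG_vertex (N := (n : ℕ∞)) hn le_rfl]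
    exact GG_mono _ hN (zz_pos n).le h

/-- The point is below a disk. -/
def AmbConn_Bad (N : ℕ∞) (ρ : ℕ → ℝ) (X Y : ℝ) (k : ℕ) : Prop :=
  1 ≤ k ∧ (k : ℕ∞) ≤ N ∧ |(|X| - zz k)| ≤ ρ k ∧ Y < FF N (zz k)

/-- From a point which is not below a disk we may go upwards. -/
theorem AmbConn_up (hN : 1 ≤ N) {X Y Y' : ℝ} (hW : AmbConn_W N ρ X Y)
    (hpos : ∀ k, 0 < ρ k) (hb : ∀ k, ¬ AmbConn_Bad N ρ X Y k) (h : Y ≤ Y') :
    AmbConn_W N ρ X Y' := by
  refine ⟨lt_of_lt_of_le hW.1 h, fun k hk hkN => ?_, fun hNt => ?_⟩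
  · have h1 := hW.2.1 k hk hkN
    by_cases h2 : |(|X| - zz k)| ≤ ρ k
    · have h3 : FF N (zz k) ≤ Y := by
        by_contra h4
        exact hb k ⟨hk, hkN, h2, not_le.1 h4⟩
      exact AmbConn_num2 h1 h3 h
    · have h3 := not_le.1 h2
      have h4 := AmbConn_num3 (b := Y' - FF N (zz k)) (hpos k).le h3
      rw [sq_abs] at h4
      exact h4
  · have h1 := hW.2.2 hNt
    have h2 := AmbConn_mid_le hN hNt X
    have h3 := hW.1
    exact AmbConn_num2 h1 (by linarith) h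

/-- From a point which is not below a disk we reach `(0, 10)`. -/
theorem AmbConn_good (hR : 0 < R) (hR' : R ≤ 1 / 8) (hN : 1 ≤ N) (hρ : RadOK R N ρ) {X Y : ℝ}
    (hW : AmbConn_W N ρ X Y) (hb : ∀ k, ¬ AmbConn_Bad N ρ X Y k) :
    Relation.ReflTransGen (AmbConn_PSeg N ρ) (X, Y) (0, 10) := by
  obtain ⟨Z, hZ⟩ : ∃ Z, Z = max Y 10 := ⟨_, rfl⟩
  have hZ1 : Y ≤ Z := by rw [hZ]; exact le_max_left _ _
  have hZ2 : 10 ≤ Z := by rw [hZ]; exact le_max_right _ _
  have h1 : AmbConn_PSeg N ρ (X, Y) (X, Z) := by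
    intro s t hs ht hst
    simp only
    have e1 : s * X + t * X = X := by rw [← add_mul, hst, one_mul]
    rw [e1]
    refine AmbConn_up hN hW hρ.pos hb ?_
    have e2 : s = 1 - t := by linarith
    have e3 := mul_le_mul_of_nonneg_left hZ1 ht
    rw [e2]
    linarith
  have h2 : AmbConn_PSeg N ρ (X, Z) (0, 10) := by
    intro s t hs ht hst
    simp only
    have hY10 : 10 ≤ s * Z + t * 10 := by
      have e2 : s = 1 - t := by linarith
      rw [e2] at hs ⊢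
      have e3 := mul_le_mul_of_nonneg_left hZ2 hs
      linarith
    refine ⟨?_, AmbConn_high hR hρ hR' (by linarith)⟩
    have h3 := (GG_convex N hN).2 (Set.mem_univ X) (Set.mem_univ 0) hs ht hst
    simp only [smul_eq_mul] at h3
    have h4 : GG N X < Z := lt_of_lt_of_le hW.1 hZ1
    have h5 : GG N 0 < 10 := by
      have := AmbConn_GG_zero hN
      linarith
    rcases hs.eq_or_lt with h6 | h6
    · rw [← h6] at h3 hst ⊢
      have e2 : t = 1 := by linarith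
      rw [e2] at h3 ⊢
      linarith
    · have h7 := mul_lt_mul_of_pos_left h4 h6
      have h8 := mul_le_mul_of_nonneg_left h5.le ht
      linarith
  exact (Relation.ReflTransGen.single h1).tail h2

theorem AmbConn_zz_ne {k l : ℕ} (h : k ≠ l) : zz l ≤ zz k / 2 ∨ 2 * zz k ≤ zz l := by
  rcases lt_or_gt_of_ne h with h1 | h1
  · left
    have h2 := zz_anti (show k + 1 ≤ l by omega)
    rw [zz_succ] at h2
    exact h2
  · right
    have h2 := zz_anti (show l + 1 ≤ k by omega)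
    rw [zz_succ] at h2
    linarith

/-- From a point below a disk we move away from the center. -/
theorem AmbConn_bad (hR : 0 < R) (hR' : R ≤ 1 / 8) (hN : 1 ≤ N) (hρ : RadOK R N ρ) {X Y : ℝ}
    (hW : AmbConn_W N ρ X Y) {k : ℕ} (hb : AmbConn_Bad N ρ X Y k) :
    ∃ X' Y', AmbConn_PSeg N ρ (X, Y) (X', Y') ∧ ∀ l, ¬ AmbConn_Bad N ρ X' Y' l := by
  obtain ⟨hk, hkN, h1, h2⟩ := hb
  have hz := zz_pos k
  have hr := AmbConn_rad_lt hρ hR' hk
  have hrp := hρ.pos k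
  -- the sign of `X`
  obtain ⟨σ, hσ, hX⟩ : ∃ σ : ℝ, (σ = 1 ∨ σ = -1) ∧ X = σ * |X| := by
    rcases le_total 0 X with h | h
    · exact ⟨1, Or.inl rfl, by rw [abs_of_nonneg h, one_mul]⟩
    · exact ⟨-1, Or.inr rfl, by rw [abs_of_nonpos h]; ring⟩
  obtain ⟨x, hx⟩ : ∃ x, x = |X| - zz k := ⟨_, rfl⟩
  obtain ⟨y, hy⟩ : ∃ y, y = Y - FF N (zz k) := ⟨_, rfl⟩
  have hXx : |X| = zz k + x := by rw [hx]; ring
  have hYy : Y = FF N (zz k) + y := by rw [hy]; ring
  rw [← hx] at h1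
  have hy0 : y < 0 := by rw [hy]; linarith
  have hG : GG N |X| < Y := by
    rw [GG_abs]
    exact hW.1
  -- `x < 0`
  have hx0 : x < 0 := by
    by_contra hcon
    have h3 := GG_mono N hN hz.le (show zz k ≤ |X| by rw [hXx]; linarith)
    rw [GG_vertex hk hkN] at h3
    linarith
  have hx1 : -(zz k / 16) ≤ x := by
    have := (abs_le.1 h1).1
    linarith
  have hGl : ∀ t : ℝ, 1 ≤ t → t ≤ 11 / 10 →
      GG N (zz k + t * x) = FF N (zz k) + aa N k * (t * x) := by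
    intro t ht ht'
    have hm : 11 / 10 * x ≤ t * x := mul_le_mul_of_nonpos_right ht' hx0.le
    have hm' : t * x ≤ 1 * x := mul_le_mul_of_nonpos_right ht hx0.le
    rw [GG_left hk hkN (by linarith) (by linarith)]
    ring
  have ha := hGl 1 le_rfl (by norm_num)
  rw [one_mul] at ha
  have ha1 : aa N k * x < y := by
    rw [hXx, ha, hYy] at hG
    linarith
  have hak := aa_nonneg N k
  have hak' := aa_le N k
  have hyx : y ^ 2 ≤ x ^ 2 / 100 := AmbConn_num4 hx0 hy0 hak' ha1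
  have hout := hW.2.1 k hk hkN
  rw [← hx, ← hy] at hout
  -- points of the ray
  have hpt : ∀ t : ℝ, 1 ≤ t → t ≤ 11 / 10 →
      AmbConn_W N ρ (σ * (zz k + t * x)) (FF N (zz k) + t * y) := by
    intro t ht ht'
    have hm : 11 / 10 * x ≤ t * x := mul_le_mul_of_nonpos_right ht' hx0.le
    have hp : 0 ≤ zz k + t * x := by linarith
    have habs : |σ * (zz k + t * x)| = zz k + t * x := by
      rcases hσ with rfl | rfl
      · rw [one_mul, abs_of_nonneg hp]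
      · rw [neg_one_mul, abs_neg, abs_of_nonneg hp]
    refine ⟨?_, fun l hl hlN => ?_, fun hNt => ?_⟩
    · rw [← GG_abs, habs, hGl t ht ht']
      have h3 := mul_lt_mul_of_pos_left ha1 (show 0 < t by linarith)
      linarith
    · rw [habs]
      have e1 : zz k + t * x - zz k = t * x := by ring
      have e2 : FF N (zz k) + t * y - FF N (zz k) = t * y := by ring
      have ht1 : 1 ≤ t ^ 2 := one_le_pow₀ ht
      by_cases hkl : k = l
      · subst hkl
        rw [e1, e2]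
        exact AmbConn_num5 ht1 hout
      · have h3 : (zz k + t * x - zz k) ^ 2 + (FF N (zz k) + t * y - FF N (zz k)) ^ 2 ≤
            (zz k / 8) ^ 2 := by
          rw [e1, e2]
          exact AmbConn_num6 (by linarith) ht' hx0 hx1 hyx
        have h4 := vertex_disjoint (N := N) hkl h3
        refine lt_of_le_of_lt ?_ h4
        have h5 := AmbConn_rad_lt hρ hR' hl
        have h6 := hρ.pos l
        have h7 := zz_pos l
        exact pow_le_pow_left₀ h6.le (by linarith) 2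
    · have h3 := AmbConn_rad0 hR hρ hR' hNt
      have h4 := hρ.pos 0
      have h5 : zz N.toNat ≤ zz k := by
        refine zz_anti ?_
        rw [← ENat.natCast_toNat hNt] at hkN
        exact_mod_cast hkN
      have h6 : 7 / 8 * zz k ≤ zz k + t * x := by linarith
      have h7 : (σ * (zz k + t * x)) ^ 2 = (zz k + t * x) ^ 2 := by
        rw [← sq_abs, habs]
      rw [h7]
      have h8 : ρ 0 < zz k + t * x := by linarith
      exact AmbConn_num3 h4.le h8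
  refine ⟨σ * (zz k + 11 / 10 * x), FF N (zz k) + 11 / 10 * y, ?_, ?_⟩
  · intro s t hs ht hst
    simp only
    have e1 : s * X + t * (σ * (zz k + 11 / 10 * x)) =
        σ * (zz k + (1 + t / 10) * x) := by
      have e3 : s = 1 - t := by linarith
      rw [hX, hXx, e3]
      ring
    have e2 : s * Y + t * (FF N (zz k) + 11 / 10 * y) =
        FF N (zz k) + (1 + t / 10) * y := by
      have e3 : s = 1 - t := by linarith
      rw [hYy, e3]
      ring
    rw [e1, e2]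
    exact hpt _ (by linarith) (by linarith)
  · rintro l ⟨hl, hlN, h3, h4⟩
    have hp : 0 ≤ zz k + 11 / 10 * x := by linarith
    have habs : |σ * (zz k + 11 / 10 * x)| = zz k + 11 / 10 * x := by
      rcases hσ with rfl | rfl
      · rw [one_mul, abs_of_nonneg hp]
      · rw [neg_one_mul, abs_neg, abs_of_nonneg hp]
    rw [habs] at h3
    by_cases hkl : k = l
    · subst hkl
      have e1 : zz k + 11 / 10 * x - zz k = 11 / 10 * x := by ring
      rw [e1] at h3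
      have h5 : (11 / 10 * x) ^ 2 ≤ ρ k ^ 2 := by
        rw [← sq_abs (11 / 10 * x)]
        exact pow_le_pow_left₀ (abs_nonneg _) h3 2
      exact AmbConn_num7 h5 hout hyx
    · have h5 := AmbConn_rad_lt hρ hR' hl
      have h6 := abs_le.1 h3
      have h7 := zz_pos l
      rcases AmbConn_zz_ne hkl with h8 | h8
      · linarith [h6.2]
      · linarith [h6.1]

theorem AmbConn_reach (hR : 0 < R) (hR' : R ≤ 1 / 8) (hN : 1 ≤ N) (hρ : RadOK R N ρ) {X Y : ℝ}
    (hW : AmbConn_W N ρ X Y) :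
    Relation.ReflTransGen (AmbConn_PSeg N ρ) (X, Y) (0, 10) := by
  by_cases hb : ∃ k, AmbConn_Bad N ρ X Y k
  · obtain ⟨k, hk⟩ := hb
    obtain ⟨X', Y', h1, h2⟩ := AmbConn_bad hR hR' hN hρ hW hk
    have hW' : AmbConn_W N ρ X' Y' := by
      have := h1 0 1 le_rfl zero_le_one (by norm_num)
      simpa using this
    exact Relation.ReflTransGen.head h1 (AmbConn_good hR hR' hN hρ hW' h2)
  · exact AmbConn_good hR hR' hN hρ hW fun k hk => hb ⟨k, hk⟩

/-- The fixed direction. -/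
def AmbConn_xi : Fin 3 → ℝ := ![1, 0, 0]

theorem AmbConn_xi_unit : AmbConn_xi 0 ^ 2 + AmbConn_xi 1 ^ 2 + AmbConn_xi 2 ^ 2 = 1 := by
  simp [AmbConn_xi]

/-- A point of a patch with `n3 ≠ 0` is joined to the base point. -/
theorem AmbConn_base {A : AmbPar} {i : ℕ} {a : E4} (ha : a ∈ VA A.N A.ρ i) (h0 : n3 a ≠ 0) :
    Relation.ReflTransGen (ambP A).Seg (TauPt.mk (repA A.R A.N i a))
      (AmbConn_pt A.R A.N 0 10 AmbConn_xi) := by
  have hW : AmbConn_W A.N A.ρ (pX A.N i a) (pY A.N i a) :=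
    ⟨mem_VC_of_n3 ha.1 ha.2.1 h0, ha.2.2⟩
  have hξ := (mk4_eta h0).2
  have e : TauPt.mk (repA A.R A.N i a) = AmbConn_pt A.R A.N (pX A.N i a) (pY A.N i a)
      (fun k : Fin 3 => a k.succ / n3 a) := rfl
  have hξ' : (fun k : Fin 3 => a k.succ / n3 a) 0 ^ 2 + (fun k : Fin 3 => a k.succ / n3 a) 1 ^ 2 +
      (fun k : Fin 3 => a k.succ / n3 a) 2 ^ 2 = 1 := hξ
  rw [e]
  have h1 := AmbConn_chain (A := A) (AmbConn_reach A.R_pos A.R_le A.one_le A.rad hW)
    (ξ := fun k : Fin 3 => a k.succ / n3 a) hξ'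
  refine h1.trans ?_
  refine AmbConn_turn ⟨?_, AmbConn_high A.R_pos A.rad A.R_le (by norm_num)⟩ hξ' AmbConn_xi_unit
  have := AmbConn_GG_zero A.one_le
  show GG A.N 0 < 10
  linarith

/-- A point of a patch is joined to the base point. -/
theorem AmbConn_base' {A : AmbPar} {i : ℕ} {a : E4} (ha : a ∈ VA A.N A.ρ i) :
    Relation.ReflTransGen (ambP A).Seg (TauPt.mk (repA A.R A.N i a))
      (AmbConn_pt A.R A.N 0 10 AmbConn_xi) := by
  by_cases h0 : n3 a = 0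
  · obtain ⟨r, hr, hball⟩ := Metric.isOpen_iff.1 (isOpen_VA A.one_le A.rad i) a ha
    have hb : a + (r / 2) • bv 1 ∈ Metric.ball a r := by
      rw [mem_ball_iff_norm]
      have e : a + (r / 2) • bv 1 - a = (r / 2) • bv 1 := by abel
      rw [e, norm_smul]
      unfold bv
      rw [PiLp.norm_single, norm_one, mul_one, Real.norm_eq_abs,
        abs_of_pos (by positivity)]
      linarith
    have hseg : segment ℝ a (a + (r / 2) • bv 1) ⊆ VA A.N A.ρ i :=
      ((convex_ball a r).segment_subset (Metric.mem_ball_self hr) hb).trans hball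
    have hn : n3 (a + (r / 2) • bv 1) ≠ 0 := by
      intro h
      have h1 := (n3_eq_zero.1 h).1
      have h2 := (n3_eq_zero.1 h0).1
      have e : (a + (r / 2) • bv 1 : E4) 1 = a 1 + r / 2 := by
        simp [bv]
      rw [e, h2] at h1
      linarith
    refine Relation.ReflTransGen.head ⟨i, a, a + (r / 2) • bv 1, hseg, rfl, rfl⟩ ?_
    exact AmbConn_base (hball hb) hn
  · exact AmbConn_base ha h0

end

theorem amb_conn (A : AmbPar) : (ambP A).Conn := by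
  intro i j a ha c hc
  exact (AmbConn_base' ha).trans ((ambP A).seg_symm (AmbConn_base' hc))

/-- There are points. -/
theorem amb_nonempty (A : AmbPar) : ∃ a, a ∈ VA A.N A.ρ 0 ∧ pX A.N 0 a = 0 ∧ pY A.N 0 a = 10 := by
  have hW : AmbConn_W A.N A.ρ 0 10 := by
    refine ⟨?_, AmbConn_high A.R_pos A.rad A.R_le (by norm_num)⟩
    have := AmbConn_GG_zero A.one_le
    show GG A.N 0 < 10
    linarith
  have hs := sc_pos (AmbConn_zero_le A.N) hW.1
  exact ⟨_, AmbConn_mem hW AmbConn_xi_unit, pX_mk4 A.N 0 hs.le AmbConn_xi_unit,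
    pY_mk4 A.N 0 hs.le AmbConn_xi_unit⟩

end Pool.Agent.W_MP_654ec6
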