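import Pool.Agent.W_MP_654ec6.F.Collar

/-!
# Part F: gluing a family of blocks to the ambient space
-/

open scoped ContDiff Topology
open Filter Real

namespace Pool.Agent.W_MP_654ec6

/-- The blocks `Q k` with the patch `d k` which contains the collar; the conditions are required
for `1 ≤ k ≤ N` only. -/
structure BlkFam (K : Core) (A : AmbPar) where
  Q : ℕ → PreP
  d : ∀ k, (Q k).ι
  r : ∀ k, (Q k).Pt → ℝ
  B : ℕ → BlkD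
  coll : ∀ k : ℕ, 1 ≤ k → (k : ℕ∞) ≤ A.N → CollOK K A k (B k)
  V_d : ∀ k : ℕ, 1 ≤ k → (k : ℕ∞) ≤ A.N → (Q k).V (d k) =
    {u | K.t0 / 2 < ‖u‖ ∧ (B k).s * (‖u‖ - (B k).tstar) < 2 * A.ρ k}
  g_d : ∀ k : ℕ, 1 ≤ k → (k : ℕ∞) ≤ A.N → (Q k).g (d k) = smulMet ((B k).s ^ 2) (gD K (B k))
  r_cont : ∀ k : ℕ, 1 ≤ k → (k : ℕ∞) ≤ A.N → ∀ j, ∀ q ∈ (Q k).V j,
    ContinuousAt (fun x => r k ((Q k).ψ j x)) q
  cover : ∀ k : ℕ, 1 ≤ k → (k : ℕ∞) ≤ A.N → ∀ j, ∀ q ∈ (Q k).V j, 0 < r k ((Q k).ψ j q) →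
    ∃ u ∈ (Q k).V (d k), (Q k).ψ (d k) u = (Q k).ψ j q
  r_pos : ∀ k : ℕ, 1 ≤ k → (k : ℕ∞) ≤ A.N → ∀ u ∈ (Q k).V (d k),
    (0 < r k ((Q k).ψ (d k) u) ↔ A.ρ k < (B k).s * (‖u‖ - (B k).tstar))
  r_eq : ∀ k : ℕ, 1 ≤ k → (k : ℕ∞) ≤ A.N → ∀ u ∈ (Q k).V (d k),
    0 < r k ((Q k).ψ (d k) u) → r k ((Q k).ψ (d k) u) = (B k).s * (‖u‖ - (B k).tstar) - A.ρ k
  inj_d : ∀ k : ℕ, 1 ≤ k → (k : ℕ∞) ≤ A.N → ∀ u ∈ (Q k).V (d k), ∀ u' ∈ (Q k).V (d k),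
    (Q k).ψ (d k) u = (Q k).ψ (d k) u' → u = u'

namespace BlkFam

variable {K : Core} {A : AmbPar} (F : BlkFam K A)

/-- The disjoint union of the blocks. -/
def S : PreP := PreP.sigma fun k : ℕ => (F.Q k).restr (1 ≤ k ∧ (k : ℕ∞) ≤ A.N)

theorem mem_coll {k : ℕ} (hk : 1 ≤ k) (hkN : (k : ℕ∞) ≤ A.N) {u : E4} (hu : u ∈ (F.Q k).V (F.d k))
    (h : 0 < F.r k ((F.Q k).ψ (F.d k) u)) : ‖u‖ ∈ collT (A.ρ k) (F.B k) := by
  have h1 := (F.r_pos k hk hkN u hu).1 h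
  rw [F.V_d k hk hkN] at hu
  exact ⟨h1, hu.2⟩

/-- The gluing data. -/
noncomputable def glueData : PreP.GlueData (ambP A) F.S where
  rQ := fun p => F.r p.1 p.2
  D := {i | i.2 = F.d i.1}
  E := fun i u => collE A i.1 (F.B i.1) u
  K := ℕ
  κ := fun i => i.1
  rP := rAmb A
  rQ_cont := fun j q hq => F.r_cont j.1 hq.1.1 hq.1.2 j.2 q hq.2
  cover := by
    rintro ⟨k, j⟩ q hq h
    obtain ⟨u, hu, hu2⟩ := F.cover k hq.1.1 hq.1.2 j q hq.2 h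
    exact ⟨⟨k, F.d k⟩, rfl, u, ⟨hq.1, hu⟩, congrArg (Sigma.mk k) hu2⟩
  E_iff := by
    rintro ⟨k, d⟩ hd u hu ⟨k', d'⟩ hd' u' hu' h h'
    obtain rfl : d = F.d k := hd
    obtain rfl : d' = F.d k' := hd'
    constructor
    · intro hE
      obtain ⟨e1, e2⟩ := collE_inj (F.coll k hu.1.1 hu.1.2) (F.coll k' hu'.1.1 hu'.1.2)
        (fun e => by rw [e]) (F.mem_coll hu.1.1 hu.1.2 hu.2 h)
        (F.mem_coll hu'.1.1 hu'.1.2 hu'.2 h') hE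
      subst e1
      subst e2
      rfl
    · intro hE
      have e1 : k = k' := congrArg Sigma.fst hE
      subst e1
      have e2 : (F.Q k).ψ (F.d k) u = (F.Q k).ψ (F.d k) u' := eq_of_heq (Sigma.mk.inj hE).2
      rw [F.inj_d k hu.1.1 hu.1.2 u hu.2 u' hu'.2 e2]
  etale := by
    rintro ⟨k, d⟩ hd u hu h
    obtain rfl : d = F.d k := hd
    obtain ⟨j, θ, h1, h2, h3⟩ := (F.coll k hu.1.1 hu.1.2).etale
      (F.mem_coll hu.1.1 hu.1.2 hu.2 h)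
    refine ⟨j, θ, h1, ?_, h3⟩
    have h4 : (F.S).g ⟨k, F.d k⟩ = smulMet ((F.B k).s ^ 2) (gD K (F.B k)) := F.g_d k hu.1.1 hu.1.2
    rw [h4]
    exact h2
  κ_eq := fun i j a _ b _ h => congrArg (fun p : (Σ k : ℕ, (F.Q k).Pt) => p.1) h
  rP_cont := fun k j a _ => rAmb_cont A k j a
  rP_pos := fun k j a ha => rAmb_pos A k j a ha
  rP_E := by
    rintro ⟨k, d⟩ hd u hu h
    obtain rfl : d = F.d k := hd
    have h1 := (F.coll k hu.1.1 hu.1.2).rAmb_collE (F.mem_coll hu.1.1 hu.1.2 hu.2 h)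
    have h2 := F.r_eq k hu.1.1 hu.1.2 u hu.2 h
    change rAmb A k (collE A k (F.B k) u) = F.r k ((F.Q k).ψ (F.d k) u)
    rw [h1, h2]
    rfl

/-- The ambient space with all blocks. -/
noncomputable def P1 : PreP := PreP.glue (ambP A) F.S F.glueData

end BlkFam

end Pool.Agent.W_MP_654ec6
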