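import Pool.Agent.W_MP_654ec6.D.BlockDef
import Pool.Agent.W_MP_654ec6.E.CoreFun
import Pool.Agent.W_MP_654ec6.E.CoreZ
import Pool.Agent.W_MP_654ec6.E.Flat
import Pool.Agent.W_MP_654ec6.L.Link

/-!
# Part F: definitions of the metrics, representatives and block data
-/

open scoped ContDiff Topology
open Filter Real

namespace Pool.Agent.W_MP_654ec6

/-- The fixed data of the cores. -/
structure Core where
  t0 : ℝ
  T0 : ℝ
  gT : ℝ
  ν : ℝ
  g : ℝ → ℝ
  ξ : ℝ → ℝ
  A0 : ℝ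
  v : ℝ → ℝ
  isCore : CoreFun t0 T0 gT ν g ξ
  A0_pos : 0 < A0
  A0_lt : A0 < sin (t0 / 2) / 2
  v_smooth : ContDiff ℝ ∞ v
  v_zero : ∀ A ≤ A0, v A = 0
  v_end : ∀ A ≥ sin (t0 / 2) / 2, v A = A ^ 2
  v_nonneg : ∀ A, 0 ≤ v A
  v_deriv : ∀ A, 0 ≤ deriv v A
  v_deriv2 : ∀ A, 0 ≤ deriv (deriv v) A
  v_bound : ∀ A > 0, A * deriv v A ≤ 2 * (max A (sin (t0 / 2) / 2)) ^ 2 ∧
    v A ≤ (max A (sin (t0 / 2) / 2)) ^ 2

/-- A second primitive of the smooth step. -/
theorem fdefs_Q : ∃ P Q : ℝ → ℝ, ContDiff ℝ ∞ Q ∧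
    (∀ x, HasDerivAt P (smoothTransition x) x) ∧ (∀ x, HasDerivAt Q (P x) x) ∧
    ContDiff ℝ ∞ P ∧
    (∀ x ≤ 0, P x = 0) ∧ (∀ x, 0 ≤ P x) ∧ (∀ x, 1 ≤ x → P x = P 1 + (x - 1)) ∧ P 1 ≤ 1 ∧
    (∀ x ≤ 0, Q x = 0) ∧ (∀ x, 0 ≤ Q x) ∧ Q 1 ≤ 1 ∧
    (∀ x, 1 ≤ x → Q x = Q 1 + P 1 * (x - 1) + (x - 1) ^ 2 / 2) := by
  obtain ⟨P, hPs, hPd, hP0, hPnn, hPle, hP1⟩ := block_Phi
  have hc : Continuous P := hPs.continuous
  have hd : ∀ x, HasDerivAt (fun x => ∫ u in (0 : ℝ)..x, P u) (P x) x := fun x =>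
    (hc.integral_hasStrictDerivAt 0 x).hasDerivAt
  have h11 : P 1 ≤ 1 := hPle 1 zero_le_one
  refine ⟨P, fun x => ∫ u in (0 : ℝ)..x, P u, block_smooth_infty hd hPs, hPd, hd, hPs, hP0, hPnn,
    hP1, h11, ?_, ?_, ?_, ?_⟩
  · intro x hx
    have h : ∫ u in (0 : ℝ)..x, P u = ∫ _u in (0 : ℝ)..x, (0 : ℝ) := by
      refine intervalIntegral.integral_congr fun u hu => ?_
      rw [Set.uIcc_of_ge hx] at hu
      exact hP0 u hu.2
    change ∫ u in (0 : ℝ)..x, P u = 0
    rw [h]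
    simp
  · intro x
    rcases le_total 0 x with hx | hx
    · exact intervalIntegral.integral_nonneg hx fun u _ => hPnn u
    · have h : ∫ u in (0 : ℝ)..x, P u = ∫ _u in (0 : ℝ)..x, (0 : ℝ) := by
        refine intervalIntegral.integral_congr fun u hu => ?_
        rw [Set.uIcc_of_ge hx] at hu
        exact hP0 u hu.2
      change 0 ≤ ∫ u in (0 : ℝ)..x, P u
      rw [h]
      simp
  · have h : ∫ u in (0 : ℝ)..1, P u ≤ ∫ _u in (0 : ℝ)..1, (1 : ℝ) :=
      intervalIntegral.integral_mono_on zero_le_one (hc.intervalIntegrable _ _)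
        (continuous_const.intervalIntegrable _ _) fun u hu => (hPle u hu.1).trans hu.2
    simpa using h
  · intro x hx
    have h1 : ∫ u in (1 : ℝ)..x, P u = ∫ u in (1 : ℝ)..x, (P 1 + (u - 1)) := by
      refine intervalIntegral.integral_congr fun u hu => ?_
      rw [Set.uIcc_of_le hx] at hu
      exact hP1 u hu.1
    have h2 := intervalIntegral.integral_add_adjacent_intervals
      (hc.intervalIntegrable (μ := MeasureTheory.volume) 0 1)
      (hc.intervalIntegrable (μ := MeasureTheory.volume) 1 x)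
    have h3 : ∫ u in (1 : ℝ)..x, (P 1 + (u - 1)) = P 1 * (x - 1) + (x - 1) ^ 2 / 2 := by
      have h4 : ∀ u ∈ Set.uIcc 1 x,
          HasDerivAt (fun u => P 1 * (u - 1) + (u - 1) ^ 2 / 2) (P 1 + (u - 1)) u := by
        intro u _
        have h5 : HasDerivAt (fun u : ℝ => u - 1) 1 u := (hasDerivAt_id u).sub_const 1
        have h6 := (h5.const_mul (P 1)).add ((h5.pow 2).div_const 2)
        refine h6.congr_deriv ?_
        simp
      rw [intervalIntegral.integral_eq_sub_of_hasDerivAt h4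
        ((continuous_const.add (continuous_id.sub continuous_const)).intervalIntegrable _ _)]
      simp
    change ∫ u in (0 : ℝ)..x, P u = (∫ u in (0 : ℝ)..1, P u) + P 1 * (x - 1) + (x - 1) ^ 2 / 2
    rw [← h2, h1, h3]
    ring

/-- A smooth convex function which is `0` on `(-∞, 1/16]` and `A²` on `[1, ∞)`. -/
theorem fdefs_v1 : ∃ v v' : ℝ → ℝ, ContDiff ℝ ∞ v ∧ (∀ A, HasDerivAt v (v' A) A) ∧
    Monotone v' ∧ (∀ A ≤ 1 / 16, v A = 0) ∧ (∀ A ≤ 1 / 16, v' A = 0) ∧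
    (∀ A ≥ 1, v A = A ^ 2) ∧ (∀ A ≥ 1, v' A = 2 * A) := by
  obtain ⟨P, Q, hQs, hPd, hQd, hPs, hP0, hPnn, hP1, hP1', hQ0, hQnn, hQ1', hQ1⟩ := fdefs_Q
  have hp := hPnn 1
  have hq := hQnn 1
  -- constants
  obtain ⟨L, hL⟩ : ∃ L : ℝ, L = 1 / 2 + (1 - P 1) / 4 := ⟨_, rfl⟩
  have hLpos : 0 < L := by rw [hL]; linarith
  obtain ⟨r, hr⟩ : ∃ r : ℝ, r = (9 / 16 + Q 1 / 8 - 3 / 8 * P 1) / (2 * L) := ⟨_, rfl⟩
  have hr1 : r * (2 * L) = 9 / 16 + Q 1 / 8 - 3 / 8 * P 1 := by
    rw [hr]; field_simp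
  have hr2 : 1 / 8 ≤ r := by
    rw [hr, le_div_iff₀ (by positivity)]
    rw [hL]; linarith
  have hr3 : r ≤ 11 / 16 := by
    rw [hr, div_le_iff₀ (by positivity)]
    rw [hL]; linarith
  obtain ⟨a, ha⟩ : ∃ a : ℝ, a = r - (1 - P 1) / 16 := ⟨_, rfl⟩
  have ha1 : 1 / 16 ≤ a := by rw [ha]; linarith
  have ha2 : a + 1 / 16 ≤ 1 := by rw [ha]; linarith
  have hPmono : Monotone P := by
    refine monotone_of_deriv_nonneg (fun x => (hPd x).differentiableAt) fun x => ?_
    rw [(hPd x).deriv]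
    exact smoothTransition.nonneg x
  refine ⟨fun A => 2 * (L * (1 / 16) * P ((A - a) * 16) + 1 / 16 * Q ((A - 1 / 2) * 4)),
    fun A => 2 * (L * smoothTransition ((A - a) * 16) + 1 / 4 * P ((A - 1 / 2) * 4)),
    ?_, ?_, ?_, ?_, ?_, ?_, ?_⟩
  · have e1 : ContDiff ℝ ∞ fun A : ℝ => (A - a) * 16 := by fun_prop
    have e2 : ContDiff ℝ ∞ fun A : ℝ => (A - 1 / 2) * 4 := by fun_prop
    exact contDiff_const.mul ((contDiff_const.mul (hPs.comp e1)).add
      (contDiff_const.mul (hQs.comp e2)))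
  · intro A
    have e1 : HasDerivAt (fun A : ℝ => (A - a) * 16) 16 A := by
      simpa using ((hasDerivAt_id A).sub_const a).mul_const 16
    have e2 : HasDerivAt (fun A : ℝ => (A - 1 / 2) * 4) 4 A :=
      (((hasDerivAt_id A).sub_const (1 / 2)).mul_const 4).congr_deriv (by norm_num)
    have e3 := ((hPd ((A - a) * 16)).comp A e1).const_mul (L * (1 / 16))
    have e4 := ((hQd ((A - 1 / 2) * 4)).comp A e2).const_mul (1 / 16)
    refine ((e3.add e4).const_mul 2).congr_deriv ?_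
    ring
  · intro A B hAB
    have e1 : smoothTransition ((A - a) * 16) ≤ smoothTransition ((B - a) * 16) :=
      smoothTransition.monotone (by linarith)
    have e2 : P ((A - 1 / 2) * 4) ≤ P ((B - 1 / 2) * 4) := hPmono (by linarith)
    have e3 := mul_le_mul_of_nonneg_left e1 hLpos.le
    simp only
    linarith
  · intro A hA
    simp only
    rw [hP0 _ (by linarith), hQ0 _ (by linarith)]
    ring
  · intro A hA
    simp only
    rw [smoothTransition.zero_of_nonpos (by linarith), hP0 _ (by linarith)]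
    ring
  · intro A hA
    simp only
    rw [hP1 _ (by linarith), hQ1 _ (by linarith)]
    have e : 2 * L * r = 9 / 16 + Q 1 / 8 - 3 / 8 * P 1 := by rw [← hr1]; ring
    have e3 : L * A = A * (1 / 2 + (1 - P 1) / 4) := by rw [hL]; ring
    rw [ha]
    linear_combination (-1) * e + 2 * e3
  · intro A hA
    simp only
    rw [smoothTransition.one_of_one_le (by linarith), hP1 _ (by linarith), hL]
    ring

theorem nonempty_core : Nonempty Core := by
  obtain ⟨t0, T0, gT, ν, g, ξ, hC⟩ := exists_coreFun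
  obtain ⟨v, v', hvs, hvd, hvm, hv0, hv0', hv1, hv1'⟩ := fdefs_v1
  have hsin : 0 < sin (t0 / 2) :=
    sin_pos_of_pos_of_lt_pi (by linarith [hC.t0_pos]) (by linarith [hC.t0_lt, pi_gt_three])
  obtain ⟨B, hB⟩ : ∃ B : ℝ, B = sin (t0 / 2) / 2 := ⟨_, rfl⟩
  have hBpos : 0 < B := by rw [hB]; positivity
  have hd : ∀ A, HasDerivAt (fun A => B ^ 2 * v (A / B)) (B * v' (A / B)) A := by
    intro A
    have e1 : HasDerivAt (fun A : ℝ => A / B) (1 / B) A := (hasDerivAt_id A).div_const B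
    refine (((hvd (A / B)).comp A e1).const_mul (B ^ 2)).congr_deriv ?_
    field_simp
  have hderiv : deriv (fun A => B ^ 2 * v (A / B)) = fun A => B * v' (A / B) :=
    funext fun A => (hd A).deriv
  have hmono' : Monotone fun A => B * v' (A / B) := by
    intro x y hxy
    exact mul_le_mul_of_nonneg_left (hvm (div_le_div_of_nonneg_right hxy hBpos.le)) hBpos.le
  have hv'nn : ∀ A, 0 ≤ v' A := by
    intro A
    rcases le_total A (1 / 16) with h | h
    · rw [hv0' A h]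
    · rw [← hv0' (1 / 16) le_rfl]
      exact hvm h
  have hvmono : Monotone v := by
    refine monotone_of_deriv_nonneg (fun x => (hvd x).differentiableAt) fun x => ?_
    rw [(hvd x).deriv]
    exact hv'nn x
  have hvnn : ∀ A, 0 ≤ v A := by
    intro A
    rcases le_total A (1 / 16) with h | h
    · rw [hv0 A h]
    · rw [← hv0 (1 / 16) le_rfl]
      exact hvmono h
  have hend : ∀ A ≥ B, B ^ 2 * v (A / B) = A ^ 2 := by
    intro A hA
    rw [hv1 (A / B) (by rwa [ge_iff_le, one_le_div hBpos])]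
    field_simp
  have hend' : ∀ A ≥ B, B * v' (A / B) = 2 * A := by
    intro A hA
    rw [hv1' (A / B) (by rwa [ge_iff_le, one_le_div hBpos])]
    field_simp
  refine ⟨⟨t0, T0, gT, ν, g, ξ, B / 16, fun A => B ^ 2 * v (A / B), hC, by positivity,
    by rw [← hB]; linarith, ?_, ?_, ?_, ?_, ?_, ?_, ?_⟩⟩
  · exact contDiff_const.mul (hvs.comp (contDiff_id.div_const B))
  · intro A hA
    rw [hv0 (A / B) (by rw [div_le_iff₀ hBpos]; linarith), mul_zero]
  · rw [← hB]
    exact hend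
  · intro A
    exact mul_nonneg (sq_nonneg B) (hvnn _)
  · intro A
    rw [hderiv]
    exact mul_nonneg hBpos.le (hv'nn _)
  · intro A
    rw [hderiv]
    exact hmono'.deriv_nonneg
  · intro A hA
    rw [← hB, hderiv]
    have hM : B ≤ max A B := le_max_right _ _
    have hM' : A ≤ max A B := le_max_left _ _
    have h1 := hmono' hM'
    simp only at h1 ⊢
    rw [hend' _ hM] at h1
    have h2 : B ^ 2 * v (A / B) ≤ B ^ 2 * v (max A B / B) :=
      mul_le_mul_of_nonneg_left (hvmono (div_le_div_of_nonneg_right hM' hBpos.le)) (sq_nonneg B)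
    rw [hend _ hM] at h2
    refine ⟨?_, h2⟩
    have h3 : 0 ≤ max A B := hBpos.le.trans hM
    calc A * (B * v' (A / B)) ≤ A * (2 * max A B) := mul_le_mul_of_nonneg_left h1 hA.le
      _ ≤ max A B * (2 * max A B) := mul_le_mul_of_nonneg_right hM' (by linarith)
      _ = 2 * max A B ^ 2 := by ring

/-- The slope `R` of the cross-sections. -/
noncomputable def Core.R (K : Core) : ℝ := (12 / 25 * K.ν) ^ 3

/-- The data of a block. -/
structure BlkD where
  η : ℝ → ℝ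
  Φ : ℝ → ℝ
  H : ℝ → ℝ
  l : ℝ → ℝ
  m : ℝ → ℝ
  s : ℝ
  T2 : ℝ
  tstar : ℝ

structure BlkOK (K : Core) (al c ar ρ : ℝ) (B : BlkD) : Prop where
  link : IsLink K.R al c ar B.η B.Φ B.H
  blk : BlockFun K.T0 K.gT K.ν (lRp c K.R) ρ B.s B.T2 B.tstar B.η B.l B.m

open Classical in
/-- The chosen block data. -/
noncomputable def blkD (K : Core) (al c ar ρ : ℝ) : BlkD :=
  if h : ∃ B, BlkOK K al c ar ρ B then Classical.choose h else
    ⟨fun _ => 0, fun _ => 0, fun _ => 0, fun _ => 0, fun _ => 0, 1, 0, 0⟩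

open Classical in
/-- The metric of the patch `D` (before scaling). -/
noncomputable def gD (K : Core) (B : BlkD) : Met := fun u =>
  if ‖u‖ < K.T0 then coreZ K.g K.ξ u else neckZ B.l B.m B.H u

/-- The functions `U, W` of the patch `F`; `a` is the radius of the bolt (`0` if there is none). -/
noncomputable def Core.U (K : Core) (a A : ℝ) : ℝ := 1 - K.v A - ehChi K.A0 A * a ^ 4 / A ^ 4

noncomputable def Core.W (K : Core) (a A : ℝ) : ℝ :=
  (1 - K.v A) / (1 - 3 / 4 * K.v A) - ehChi K.A0 A * a ^ 4 / A ^ 4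

noncomputable def gF (K : Core) (a : ℝ) : Met := u2Z (K.U a) (K.W a)

end Pool.Agent.W_MP_654ec6
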