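import Pool.Agent.W_MP_654ec6.E.Slices
import Pool.Agent.W_MP_654ec6.F.Defs
import Pool.Agent.W_MP_654ec6.F.Host

/-!
# Part F: the points of a block

The host set of a block is `WPt ![1, 2, 1]`: the orbits of `(c z₁, c² z₂, c w)`, `|c| = 1`.
The representatives of the patches D, E, F and all coincidences of these points.
-/

open scoped ContDiff Topology ComplexConjugate
open Filter Real

namespace Pool.Agent.W_MP_654ec6

open Classical in
/-- The modulus of the third coordinate in the patch D. -/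
noncomputable def qt (K : Core) (t : ℝ) : ℝ := if t ≤ K.t0 then sin t else sin K.t0 + (t - K.t0)

noncomputable def repD (K : Core) (u : E4) : ℂ × ℂ × ℂ :=
  (cz1 u / (‖u‖ : ℂ), cz2 u / (‖u‖ : ℂ), ((qt K ‖u‖ : ℝ) : ℂ))

/-- `|w|²`. -/
def sq2 (u : E4) : ℝ := u 2 ^ 2 + u 3 ^ 2

/-- The modulus square of the first complex coordinate. -/
def sq1 (u : E4) : ℝ := u 0 ^ 2 + u 1 ^ 2

noncomputable def repE (u : E4) : ℂ × ℂ × ℂ :=
  (((√(1 - ‖u‖ ^ 2) / √(1 - sq2 u) : ℝ) : ℂ), cz1 u / ((√(1 - sq2 u) : ℝ) : ℂ), cz2 u)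

noncomputable def repF (u : E4) : ℂ × ℂ × ℂ :=
  (cz1 u / ((√(1 - sq2 u) : ℝ) : ℂ), ((√(1 - ‖u‖ ^ 2) / √(1 - sq2 u) : ℝ) : ℂ), cz2 u)

theorem wAct_121 (c : ℂ) (p : ℂ × ℂ × ℂ) :
    wAct ![1, 2, 1] c p = (c * p.1, c ^ 2 * p.2.1, c * p.2.2) := by
  unfold wAct
  simp only [Matrix.cons_val_zero, Matrix.cons_val_one, Matrix.cons_val, zpow_one]
  rfl

/-! ### The function `qt` -/

section qt

variable (K : Core)

theorem Core.sin_t0 : 0 < sin K.t0 ∧ sin K.t0 < 1 / 100 := by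
  have h1 := K.isCore.t0_pos
  have h2 := K.isCore.t0_lt
  exact ⟨sin_pos_of_pos_of_lt_pi h1 (by linarith [pi_gt_three]), (sin_lt h1).trans h2⟩

theorem qt_of_le {t : ℝ} (h : t ≤ K.t0) : qt K t = sin t := by
  unfold qt
  rw [if_pos h]

theorem qt_of_ge {t : ℝ} (h : K.t0 ≤ t) : qt K t = sin K.t0 + (t - K.t0) := by
  unfold qt
  split_ifs with h1
  · rw [le_antisymm h1 h]
    ring
  · rfl

theorem qt_strictMono {s t : ℝ} (hs : 0 < s) (h : s < t) : qt K s < qt K t := by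
  have h1 := K.isCore.t0_pos
  have h2 := K.isCore.t0_lt
  have hp := pi_gt_three
  have key : ∀ s t : ℝ, 0 < s → s < t → t ≤ K.t0 → sin s < sin t := fun s t h3 h4 h5 =>
    sin_lt_sin_of_lt_of_le_pi_div_two (by linarith) (by linarith) h4
  rcases le_total t K.t0 with h3 | h3
  · rw [qt_of_le K h3, qt_of_le K (h.le.trans h3)]
    exact key s t hs h h3
  · rcases le_or_gt K.t0 s with h4 | h4
    · rw [qt_of_ge K h3, qt_of_ge K h4]
      linarith
    · rw [qt_of_ge K h3, qt_of_le K h4.le]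
      have := key s K.t0 hs h4 le_rfl
      linarith

theorem qt_pos {t : ℝ} (ht : 0 < t) : 0 < qt K t := by
  have h1 := K.isCore.t0_pos
  have h2 := K.isCore.t0_lt
  have hp := pi_gt_three
  rcases le_total t K.t0 with h3 | h3
  · rw [qt_of_le K h3]
    exact sin_pos_of_pos_of_lt_pi ht (by linarith)
  · rw [qt_of_ge K h3]
    linarith [K.sin_t0.1]

theorem qt_inj {s t : ℝ} (hs : 0 < s) (ht : 0 < t) (h : qt K s = qt K t) : s = t := by
  rcases lt_trichotomy s t with h1 | h1 | h1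
  · exact absurd h (qt_strictMono K hs h1).ne
  · exact h1
  · exact absurd h.symm (qt_strictMono K ht h1).ne

theorem qt_lt {t : ℝ} (h : qt K t < sin K.t0) : t < K.t0 := by
  by_contra h1
  rw [qt_of_ge K (not_lt.1 h1)] at h
  linarith [not_lt.1 h1]

theorem continuous_qt : Continuous (qt K) := by
  unfold qt
  refine Continuous.if_le continuous_sin (by fun_prop) continuous_id continuous_const ?_
  rintro x rfl
  ring

end qt

/-! ### Elementary properties -/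

/-- `cos t`, `t = arcsin |w|`. -/
noncomputable def sgc (u : E4) : ℝ := √(1 - sq2 u)

theorem sq1_eq (u : E4) : sq1 u = ‖cA u‖ ^ 2 := by
  rw [← Complex.normSq_eq_norm_sq, normSq_cA]
  rfl

theorem sq2_eq (u : E4) : sq2 u = ‖cB u‖ ^ 2 := by
  rw [← Complex.normSq_eq_norm_sq, normSq_cB]
  rfl

theorem sq12 (u : E4) : sq1 u + sq2 u = ‖u‖ ^ 2 := by
  rw [← nsq_eq_norm, nsq_eq_normSq, sq1_eq, sq2_eq, Complex.normSq_eq_norm_sq,
    Complex.normSq_eq_norm_sq]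

theorem sq1_nonneg (u : E4) : 0 ≤ sq1 u := by
  unfold sq1
  positivity

theorem sq2_nonneg (u : E4) : 0 ≤ sq2 u := by
  unfold sq2
  positivity

theorem nB_lt {u : E4} (hu : nsq u < 1) : sq2 u < 1 := by
  have h1 := sq12 u
  rw [← nsq_eq_norm] at h1
  linarith [sq1_nonneg u]

theorem sgc_pos {u : E4} (hu : nsq u < 1) : 0 < sgc u :=
  Real.sqrt_pos.2 (by linarith [nB_lt hu])

theorem sgc_eq (u : E4) : sgc u = Real.cos (arcsin ‖cB u‖) := by
  rw [cos_arcsin, ← sq2_eq]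
  rfl

theorem repD_eq (K : Core) (u : E4) :
    repD K u = (cA u / (‖u‖ : ℂ), cB u / (‖u‖ : ℂ), ((qt K ‖u‖ : ℝ) : ℂ)) := by
  rw [cA_eq, cB_eq]
  rfl

theorem repE_eq (u : E4) : repE u = ((sr u : ℂ) / (sgc u : ℂ), cA u / (sgc u : ℂ), cB u) := by
  unfold repE sr sgc
  rw [nsq_eq_norm, Complex.ofReal_div, cA_eq, cB_eq]

theorem repF_eq (u : E4) : repF u = (cA u / (sgc u : ℂ), (sr u : ℂ) / (sgc u : ℂ), cB u) := by
  unfold repF sr sgc
  rw [nsq_eq_norm, Complex.ofReal_div, cA_eq, cB_eq]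

theorem sgc_congr {u u' : E4} {c : ℂ} (hc : ‖c‖ = 1) (h : cB u' = c * cB u) :
    sgc u' = sgc u := by
  unfold sgc
  rw [sq2_eq, sq2_eq, h, norm_mul, hc, one_mul]

theorem unit_pos {c : ℂ} (hc : ‖c‖ = 1) {x y : ℝ} (hx : 0 < x) (hy : 0 < y)
    (h : (y : ℂ) = c * (x : ℂ)) : c = 1 := by
  have h1 := congrArg norm h
  rw [norm_mul, hc, one_mul, Complex.norm_real, Complex.norm_real, Real.norm_of_nonneg hx.le,
    Real.norm_of_nonneg hy.le] at h1
  rw [h1] at h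
  have h2 : (x : ℂ) ≠ 0 := Complex.ofReal_ne_zero.2 hx.ne'
  have h3 : (x : ℂ) * c = (x : ℂ) * 1 := by
    rw [mul_one, mul_comm]
    exact h.symm
  exact mul_left_cancel₀ h2 h3

theorem cAB_ext {u u' : E4} (h1 : cA u = cA u') (h2 : cB u = cB u') : u = u' := by
  rw [← toE_eta u, ← toE_eta u', h1, h2]

theorem unit_phase {c z : ℂ} (hc : ‖c‖ = 1) {x : ℝ} (hx : 0 < x) (h : (x : ℂ) = c * z) :
    z ≠ 0 ∧ c = conj z / (‖z‖ : ℂ) ∧ ‖z‖ = x := by
  have hz : z ≠ 0 := by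
    rintro rfl
    rw [mul_zero] at h
    exact hx.ne' (Complex.ofReal_eq_zero.1 h)
  have h1 := congrArg norm h
  rw [norm_mul, hc, one_mul, Complex.norm_real, Real.norm_of_nonneg hx.le] at h1
  refine ⟨hz, ?_, h1.symm⟩
  refine mul_right_cancel₀ hz ?_
  rw [phase_mul hz, ← h1, h]

theorem norm_phase {z : ℂ} (hz : z ≠ 0) : ‖conj z / (‖z‖ : ℂ)‖ = 1 := by
  have := normSq_phase hz
  rw [Complex.normSq_eq_norm_sq] at this
  exact (pow_eq_one_iff_of_nonneg (norm_nonneg _) two_ne_zero).1 this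

/-! ### Coincidences -/

theorem rep_D_D (K : Core) {u u' : E4} (hu : u ≠ 0) (hu' : u' ≠ 0) :
    WPt.mk ![1, 2, 1] (repD K u) = WPt.mk ![1, 2, 1] (repD K u') ↔ u' = u := by
  constructor
  · intro h
    obtain ⟨c, hc, h1⟩ := WPt.mk_eq.1 h
    rw [wAct_121] at h1
    have e1 := congrArg Prod.fst h1
    have e2 := congrArg (fun p : ℂ × ℂ × ℂ => p.2.1) h1
    have e3 := congrArg (fun p : ℂ × ℂ × ℂ => p.2.2) h1
    simp only [repD_eq] at e1 e2 e3
    have hn := norm_pos_iff.2 hu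
    have hn' := norm_pos_iff.2 hu'
    have hc1 := unit_pos hc (qt_pos K hn) (qt_pos K hn') e3
    rw [hc1] at e1 e2 e3
    rw [one_mul] at e1 e3
    rw [one_pow, one_mul] at e2
    have h2 : (‖u‖ : ℂ) ≠ 0 := Complex.ofReal_ne_zero.2 hn.ne'
    have h3 := qt_inj K hn' hn (Complex.ofReal_injective e3)
    rw [h3] at e1 e2
    exact cAB_ext ((div_left_inj' h2).1 e1) ((div_left_inj' h2).1 e2)
  · rintro rfl
    rfl

theorem rep_E_E {u u' : E4} (hu : nsq u < 1) (hu' : nsq u' < 1) :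
    WPt.mk ![1, 2, 1] (repE u) = WPt.mk ![1, 2, 1] (repE u') ↔ u' = u := by
  constructor
  · intro h
    obtain ⟨c, hc, h1⟩ := WPt.mk_eq.1 h
    rw [wAct_121] at h1
    have e1 := congrArg Prod.fst h1
    have e2 := congrArg (fun p : ℂ × ℂ × ℂ => p.2.1) h1
    have e3 := congrArg (fun p : ℂ × ℂ × ℂ => p.2.2) h1
    simp only [repE_eq] at e1 e2 e3
    have h4 := sgc_congr hc e3
    have h7 : (sgc u : ℂ) ≠ 0 := Complex.ofReal_ne_zero.2 (sgc_pos hu).ne'
    rw [h4, ← mul_div_assoc, div_left_inj' h7] at e1 e2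
    have hc1 := unit_pos hc (sr_pos hu) (sr_pos hu') e1
    rw [hc1] at e2 e3
    rw [one_pow, one_mul] at e2
    rw [one_mul] at e3
    exact cAB_ext e2 e3
  · rintro rfl
    rfl

theorem nB_neg (u : E4) : sgc (-u) = sgc u ∧ sr (-u) = sr u := by
  unfold sgc sr
  have h1 : sq2 (-u) = sq2 u := by rw [sq2_eq, sq2_eq, map_neg cB, norm_neg]
  have h2 : nsq (-u) = nsq u := by rw [nsq_eq_norm, nsq_eq_norm, norm_neg]
  rw [h1, h2]
  exact ⟨rfl, rfl⟩

theorem repF_neg (u : E4) : repF (-u) = wAct ![1, 2, 1] (-1) (repF u) := by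
  obtain ⟨h2, h3⟩ := nB_neg u
  rw [wAct_121, repF_eq, repF_eq, h2, h3, map_neg, map_neg]
  refine Prod.ext ?_ (Prod.ext ?_ ?_)
  · simp only
    ring
  · simp only
    ring
  · simp only
    ring

theorem rep_F_F {u u' : E4} (hu : nsq u < 1) (hu' : nsq u' < 1) :
    WPt.mk ![1, 2, 1] (repF u) = WPt.mk ![1, 2, 1] (repF u') ↔ u' = u ∨ u' = -u := by
  constructor
  · intro h
    obtain ⟨c, hc, h1⟩ := WPt.mk_eq.1 h
    rw [wAct_121] at h1
    have e1 := congrArg Prod.fst h1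
    have e2 := congrArg (fun p : ℂ × ℂ × ℂ => p.2.1) h1
    have e3 := congrArg (fun p : ℂ × ℂ × ℂ => p.2.2) h1
    simp only [repF_eq] at e1 e2 e3
    have h4 := sgc_congr hc e3
    have h7 : (sgc u : ℂ) ≠ 0 := Complex.ofReal_ne_zero.2 (sgc_pos hu).ne'
    rw [h4, ← mul_div_assoc, div_left_inj' h7] at e1 e2
    have hc1 := unit_pos (by rw [norm_pow, hc, one_pow]) (sr_pos hu) (sr_pos hu') e2
    have hc3 : c ^ 2 = 1 ^ 2 := by rw [hc1, one_pow]
    rcases sq_eq_sq_iff_eq_or_eq_neg.1 hc3 with hc2 | hc2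
    · left
      rw [hc2, one_mul] at e1 e3
      exact cAB_ext e1 e3
    · right
      rw [hc2, neg_one_mul] at e1 e3
      exact cAB_ext (by rw [e1, map_neg]) (by rw [e3, map_neg])
  · rintro (rfl | rfl)
    · rfl
    · rw [WPt.mk_eq]
      exact ⟨-1, by simp, repF_neg u⟩

theorem rep_X_D (K : Core) {u y : E4} {a b : ℂ} (hB : ‖cB u‖ < sin K.t0) (hy : y ≠ 0) {c : ℂ}
    (hc : ‖c‖ = 1)
    (h : repD K y = wAct ![1, 2, 1] c (a / (sgc u : ℂ), b / (sgc u : ℂ), cB u)) :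
    cB u ≠ 0 ∧ y = toE
      (((arcsin ‖cB u‖ / Real.cos (arcsin ‖cB u‖) : ℝ) : ℂ) *
        (a * (conj (cB u) / (‖cB u‖ : ℂ))))
      (((arcsin ‖cB u‖ / Real.cos (arcsin ‖cB u‖) : ℝ) : ℂ) *
        (b * (conj (cB u) / (‖cB u‖ : ℂ)) ^ 2)) := by
  rw [wAct_121] at h
  have e1 := congrArg Prod.fst h
  have e2 := congrArg (fun p : ℂ × ℂ × ℂ => p.2.1) h
  have e3 := congrArg (fun p : ℂ × ℂ × ℂ => p.2.2) h
  simp only [repD_eq] at e1 e2 e3
  have hn := norm_pos_iff.2 hy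
  have hnc : (‖y‖ : ℂ) ≠ 0 := Complex.ofReal_ne_zero.2 hn.ne'
  obtain ⟨h1, h2, h3⟩ := unit_phase hc (qt_pos K hn) e3
  have h5 : ‖y‖ < K.t0 := qt_lt K (h3 ▸ hB)
  have h4 : ‖y‖ = arcsin ‖cB u‖ := by
    rw [h3, qt_of_le K h5.le, arcsin_sin]
    · linarith [pi_gt_three]
    · linarith [pi_gt_three, K.isCore.t0_lt]
  refine ⟨h1, ?_⟩
  rw [← h2, ← sgc_eq, ← h4]
  refine cAB_ext ?_ ?_
  · rw [cA_toE]
    rw [div_eq_iff hnc] at e1
    rw [e1, Complex.ofReal_div]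
    ring
  · rw [cB_toE]
    rw [div_eq_iff hnc] at e2
    rw [e2, Complex.ofReal_div]
    ring

theorem rep_X_D' (K : Core) {u : E4} {a b : ℂ} (hu : nsq u < 1) (hB : ‖cB u‖ < sin K.t0)
    (h1 : cB u ≠ 0) (hab : Complex.normSq a + Complex.normSq b = 1 - ‖cB u‖ ^ 2) :
    repD K (toE
      (((arcsin ‖cB u‖ / Real.cos (arcsin ‖cB u‖) : ℝ) : ℂ) *
        (a * (conj (cB u) / (‖cB u‖ : ℂ))))
      (((arcsin ‖cB u‖ / Real.cos (arcsin ‖cB u‖) : ℝ) : ℂ) *
        (b * (conj (cB u) / (‖cB u‖ : ℂ)) ^ 2))) =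
    wAct ![1, 2, 1] (conj (cB u) / (‖cB u‖ : ℂ))
      (a / (sgc u : ℂ), b / (sgc u : ℂ), cB u) := by
  obtain ⟨-, -, h4, h5, h6, h7, -⟩ := slice_t hu h1
  have h8 : (arcsin ‖cB u‖ : ℂ) ≠ 0 := Complex.ofReal_ne_zero.2 h4.ne'
  have h9 : (Real.cos (arcsin ‖cB u‖) : ℂ) ≠ 0 := Complex.ofReal_ne_zero.2 h7.ne'
  have h10 : arcsin ‖cB u‖ ≤ K.t0 := by
    have hp := pi_gt_three
    have h11 := K.isCore.t0_pos
    have h12 := K.isCore.t0_lt
    rw [← arcsin_sin (x := K.t0) (by linarith) (by linarith)]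
    exact monotone_arcsin hB.le
  rw [wAct_121, repD_eq]
  rw [norm_thD hu h1 (by
    rw [Complex.normSq_mul, Complex.normSq_mul, map_pow, normSq_phase h1, one_pow, mul_one,
      mul_one, hab]), cA_toE, cB_toE, sgc_eq, Complex.ofReal_div, qt_of_le K h10, h6]
  refine Prod.ext ?_ (Prod.ext ?_ ?_)
  · simp only
    field_simp
  · simp only
    field_simp
  · exact (phase_mul h1).symm

theorem nsq_ab (u : E4) (hu : nsq u < 1) :
    Complex.normSq (sr u : ℂ) + Complex.normSq (cA u) = 1 - ‖cB u‖ ^ 2 := by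
  rw [Complex.normSq_ofReal, ← pow_two, sr_sq hu, nsq_eq_normSq,
    Complex.normSq_eq_norm_sq (cB u)]
  ring

theorem rep_E_D (K : Core) {u y : E4} (hu : nsq u < 1) (hB : ‖cB u‖ < sin K.t0) (hy : y ≠ 0) :
    WPt.mk ![1, 2, 1] (repE u) = WPt.mk ![1, 2, 1] (repD K y) ↔ cB u ≠ 0 ∧ y = thED u := by
  rw [repE_eq]
  constructor
  · intro h
    obtain ⟨c, hc, h1⟩ := WPt.mk_eq.1 h
    exact rep_X_D K hB hy hc h1
  · rintro ⟨h1, rfl⟩
    rw [WPt.mk_eq]
    exact ⟨conj (cB u) / (‖cB u‖ : ℂ), norm_phase h1, rep_X_D' K hu hB h1 (nsq_ab u hu)⟩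

theorem rep_F_D (K : Core) {u y : E4} (hu : nsq u < 1) (hB : ‖cB u‖ < sin K.t0) (hy : y ≠ 0) :
    WPt.mk ![1, 2, 1] (repF u) = WPt.mk ![1, 2, 1] (repD K y) ↔ cB u ≠ 0 ∧ y = thFD u := by
  rw [repF_eq]
  constructor
  · intro h
    obtain ⟨c, hc, h1⟩ := WPt.mk_eq.1 h
    exact rep_X_D K hB hy hc h1
  · rintro ⟨h1, rfl⟩
    rw [WPt.mk_eq]
    exact ⟨conj (cB u) / (‖cB u‖ : ℂ), norm_phase h1,
      rep_X_D' K hu hB h1 (by rw [add_comm, nsq_ab u hu])⟩

theorem norm_cB_thFE {u : E4} (h1 : cA u ≠ 0) : ‖cB (thFE u)‖ = ‖cB u‖ := by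
  unfold thFE
  rw [cB_toE, norm_mul, norm_phase h1, mul_one]

theorem norm_cA_thFE {u : E4} (hu : nsq u < 1) (h1 : cA u ≠ 0) :
    ‖cA (thFE u)‖ ^ 2 = 1 - ‖u‖ ^ 2 := by
  unfold thFE
  rw [cA_toE, norm_mul, norm_pow, norm_phase h1, one_pow, mul_one, Complex.norm_real,
    Real.norm_of_nonneg (sr_pos hu).le, sr_sq hu, nsq_eq_norm]

theorem rep_F_E {u u' : E4} (hu : nsq u < 1) (hu' : nsq u' < 1) :
    WPt.mk ![1, 2, 1] (repF u) = WPt.mk ![1, 2, 1] (repE u') ↔ cA u ≠ 0 ∧ u' = thFE u := by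
  constructor
  · intro h
    obtain ⟨c, hc, h1⟩ := WPt.mk_eq.1 h
    rw [wAct_121] at h1
    have e1 := congrArg Prod.fst h1
    have e2 := congrArg (fun p : ℂ × ℂ × ℂ => p.2.1) h1
    have e3 := congrArg (fun p : ℂ × ℂ × ℂ => p.2.2) h1
    simp only [repE_eq, repF_eq] at e1 e2 e3
    have h4 := sgc_congr hc e3
    have h7 : (sgc u : ℂ) ≠ 0 := Complex.ofReal_ne_zero.2 (sgc_pos hu).ne'
    rw [h4, ← mul_div_assoc, div_left_inj' h7] at e1 e2
    obtain ⟨h8, h9, -⟩ := unit_phase hc (sr_pos hu') e1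
    refine ⟨h8, ?_⟩
    unfold thFE
    rw [← h9]
    refine cAB_ext ?_ ?_
    · rw [cA_toE, e2]
      ring
    · rw [cB_toE, e3]
      ring
  · rintro ⟨h1, rfl⟩
    rw [WPt.mk_eq]
    refine ⟨conj (cA u) / (‖cA u‖ : ℂ), norm_phase h1, ?_⟩
    have h4 : sgc (thFE u) = sgc u := by
      unfold sgc
      rw [sq2_eq, sq2_eq, norm_cB_thFE h1]
    have h5 : sr (thFE u) = ‖cA u‖ := by
      unfold sr
      rw [nsq_thFE hu h1, sub_sub_cancel, Real.sqrt_sq (norm_nonneg _)]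
    rw [wAct_121, repE_eq, repF_eq, h4, h5]
    refine Prod.ext ?_ (Prod.ext ?_ ?_)
    · simp only
      rw [← mul_div_assoc, phase_mul h1]
    · simp only
      unfold thFE
      rw [cA_toE]
      ring
    · simp only
      unfold thFE
      rw [cB_toE]
      ring

/-! ### Continuity -/

theorem continuousAt_repD (K : Core) {u : E4} (hu : u ≠ 0) : ContinuousAt (repD K) u := by
  rw [show repD K = fun u => (cA u / (‖u‖ : ℂ), cB u / (‖u‖ : ℂ), ((qt K ‖u‖ : ℝ) : ℂ)) from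
    funext (repD_eq K)]
  have h0 : (‖u‖ : ℂ) ≠ 0 := Complex.ofReal_ne_zero.2 (norm_pos_iff.2 hu).ne'
  have hn : ContinuousAt (fun u : E4 => (‖u‖ : ℂ)) u :=
    (Complex.continuous_ofReal.comp continuous_norm).continuousAt
  have hq : ContinuousAt (fun u : E4 => ((qt K ‖u‖ : ℝ) : ℂ)) u :=
    (Complex.continuous_ofReal.comp ((continuous_qt K).comp continuous_norm)).continuousAt
  exact (cA.continuous.continuousAt.div hn h0).prodMk
    ((cB.continuous.continuousAt.div hn h0).prodMk hq)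

theorem continuous_sgc : Continuous sgc := by
  have h : sgc = fun u => √(1 - ‖cB u‖ ^ 2) := by
    funext u
    rw [← sq2_eq]
    rfl
  rw [h]
  exact (continuous_const.sub ((continuous_norm.comp cB.continuous).pow 2)).sqrt

theorem continuousAt_repE {u : E4} (hu : nsq u < 1) : ContinuousAt repE u := by
  have h : repE = fun u => ((sr u : ℂ) / (sgc u : ℂ), cA u / (sgc u : ℂ), cB u) := funext repE_eq
  rw [h]
  have h0 : (sgc u : ℂ) ≠ 0 := Complex.ofReal_ne_zero.2 (sgc_pos hu).ne'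
  have hs : ContinuousAt (fun u : E4 => (sr u : ℂ)) u :=
    Complex.continuous_ofReal.continuousAt.comp (contDiffAt_sr hu).continuousAt
  have hc : ContinuousAt (fun u : E4 => (sgc u : ℂ)) u :=
    (Complex.continuous_ofReal.comp continuous_sgc).continuousAt
  exact (hs.div hc h0).prodMk ((cA.continuous.continuousAt.div hc h0).prodMk
    cB.continuous.continuousAt)

theorem continuousAt_repF {u : E4} (hu : nsq u < 1) : ContinuousAt repF u := by
  have h : repF = fun u => (cA u / (sgc u : ℂ), (sr u : ℂ) / (sgc u : ℂ), cB u) := funext repF_eq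
  rw [h]
  have h0 : (sgc u : ℂ) ≠ 0 := Complex.ofReal_ne_zero.2 (sgc_pos hu).ne'
  have hs : ContinuousAt (fun u : E4 => (sr u : ℂ)) u :=
    Complex.continuous_ofReal.continuousAt.comp (contDiffAt_sr hu).continuousAt
  have hc : ContinuousAt (fun u : E4 => (sgc u : ℂ)) u :=
    (Complex.continuous_ofReal.comp continuous_sgc).continuousAt
  exact (cA.continuous.continuousAt.div hc h0).prodMk ((hs.div hc h0).prodMk
    cB.continuous.continuousAt)

end Pool.Agent.W_MP_654ec6
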