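import Pool.Agent.W_MP_654ec6.D.Sph
import Pool.Agent.W_MP_654ec6.E.CoreZRic
import Pool.Agent.W_MP_654ec6.E.SlicesRic
import Pool.Agent.W_MP_654ec6.F.BlkPt
import Pool.Agent.W_MP_654ec6.F.Pre

/-!
# Task F3: the block pre-patchwork (patches D, E, F)

Points: `WPt ![1, 2, 1]`, orbits of `(z₁, z₂, w)`, `|z₁|² + |z₂|² = 1`, under `(c z₁, c² z₂, c w)`, `|c| = 1`.
Patch D (index 0): `u` with `t = ‖u‖`, representative `(z₁, z₂, qt t)`, `z = u/t` (slice `w > 0`).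
Patch E (index 1): `u = (z₂', w)`, representative `(√(1 - ‖u‖²), z₂', ·)/√(1 - |w|²)`, `w` (slice `z₁ > 0`).
Patch F (index 2): `u = (z₁', w)`, representative `(z₁', √(1 - ‖u‖²), ·)/√(1 - |w|²)`, `w` (slice `z₂ > 0`).
`qt t = sin t` for `t ≤ t0` and `sin t0 + (t - t0)` after, strictly increasing and continuous.

Proofs. `blkInj`: if two representatives in D (E, F) are related by `c` then `c = 1` (`c = 1`, `c² = 1`),
and the representative determines `u`; `u ≠ 0` in F, so `-u` is not near `u`.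
`blkTrans`: D-D and E-E: `θ = id`; F-F: `θ = ± id` (`qf_u2Z` is invariant); E-D, F-D, F-E: the
transitions of `E/Slices` (for F near the point the metric is the one of `P(1,2,1)`: if a point of F
is equivalent to a point of D or E then `‖u‖² > A1²`, `A1 = sin (t0/2)/2`; for D: `‖u‖² ≥ |w|²
≥ sin² (t0/2)`; for E: `‖u‖² = 1 - |z₂'|² > A1²`; there `v = A²` and `χ = 0`; in D: `t < t0`
because `|w| < sin t0`, so `gD = coreZ` with `g = cos`, `ξ = 1/sin` near the point). Use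
`trans_of_or`.
`blkSep`: `w_sep` and `continuousAt_blkRep`.
-/

open scoped ContDiff Topology
open Filter Real

namespace Pool.Agent.W_MP_654ec6

/-- The parameters of a block. -/
structure BlkPar where
  K : Core
  al : ℝ
  c : ℝ
  ar : ℝ
  ρ : ℝ
  a : ℝ
  B : BlkD
  ok : BlkOK K al c ar ρ B
  ρ_pos : 0 < ρ
  a_nonneg : 0 ≤ a
  a_lt : a < K.A0 / 2
  a_ric : ∀ A > a, 0 < ehU K.A0 a A ∧ U2OK (ehU K.A0 a) (ehU K.A0 a) (3 * B.s ^ 2) A

def VD (P : BlkPar) : Set E4 := {u | P.K.t0 / 2 < ‖u‖ ∧ P.B.s * (‖u‖ - P.B.tstar) < 2 * P.ρ}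

def VE (P : BlkPar) : Set E4 :=
  {u | ‖u‖ < 1 ∧ sq2 u < sin P.K.t0 ^ 2 ∧ sq1 u < 1 - (sin (P.K.t0 / 2) / 2) ^ 2}

def VF (P : BlkPar) : Set E4 := {u | P.a < ‖u‖ ∧ ‖u‖ < sin P.K.t0}

def blkV (P : BlkPar) : Fin 3 → Set E4 := ![VD P, VE P, VF P]

noncomputable def blkG (P : BlkPar) : Fin 3 → Met := ![gD P.K P.B, gE, gF P.K P.a]

noncomputable def blkRep (P : BlkPar) : Fin 3 → E4 → ℂ × ℂ × ℂ := ![repD P.K, repE, repF]

noncomputable def blkPsi (P : BlkPar) (i : Fin 3) (u : E4) : WPt ![1, 2, 1] :=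
  WPt.mk ![1, 2, 1] (blkRep P i u)

/-! ### Local properties -/

theorem goodMet_of_local {g : Met} {V : Set E4}
    (h : ∀ u ∈ V, ∃ (g' : Met) (V' : Set E4), IsOpen V' ∧ u ∈ V' ∧ GoodMet g' V' ∧ g =ᶠ[𝓝 u] g') :
    GoodMet g V := by
  refine ⟨fun i j u hu => ?_, fun u hu i j => ?_, fun u hu v hv => ?_⟩
  · obtain ⟨g', V', h1, h2, h3, h4⟩ := h u hu
    have h5 : ContDiffAt ℝ ∞ (fun x => g' x i j) u := (h3.smooth i j).contDiffAt (h1.mem_nhds h2)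
    refine (h5.congr_of_eventuallyEq ?_).contDiffWithinAt
    filter_upwards [h4] with x hx
    rw [hx]
  · obtain ⟨g', V', h1, h2, h3, h4⟩ := h u hu
    rw [h4.self_of_nhds]
    exact h3.symm u h2 i j
  · obtain ⟨g', V', h1, h2, h3, h4⟩ := h u hu
    rw [h4.self_of_nhds]
    exact h3.pos u h2 v hv

theorem blk_isoAt_of_eq {g g' : Met} {u : E4} (h : g =ᶠ[𝓝 u] g') : IsoAt g g' id u :=
  isoAt_congr (isoAt_id g u) EventuallyEq.rfl EventuallyEq.rfl h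

theorem ricGE_of_local {g g' : Met} {V : Set E4} {u : E4} {κ : ℝ} (hV : IsOpen V)
    (hg' : GoodMet g' V) (hu : u ∈ V) (h : g =ᶠ[𝓝 u] g') (h' : RicGE g' κ u) : RicGE g κ u := by
  obtain ⟨W, hW, hWo, huW⟩ := mem_nhds_iff.1 h
  have hg : GoodMet g (V ∩ W) := by
    refine goodMet_of_local fun w hw => ⟨g', V, hV, hw.1, hg', ?_⟩
    filter_upwards [hWo.mem_nhds hw.2] with x hx
    exact hW hx
  exact (ricGE_iso (hV.inter hWo) hg hV hg' ⟨hu, huW⟩ hu (blk_isoAt_of_eq h)).2 h'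

theorem blk_ricGE_mono {g : Met} {V : Set E4} {u : E4} {κ κ' : ℝ} (hg : GoodMet g V) (hu : u ∈ V)
    (h : RicGE g κ u) (hκ : κ' ≤ κ) : RicGE g κ' u := by
  intro v
  have h1 := h v
  rcases eq_or_ne v 0 with rfl | hv
  · have h2 : qf (g u) 0 = 0 := by simp [qf]
    rw [h2, mul_zero] at h1 ⊢
    exact h1
  · have h2 := hg.pos u hu v hv
    nlinarith

/-! ### The metric of the patch `D` -/

section gD

variable (P : BlkPar)

theorem gD_core {u : E4} (hu : ‖u‖ < P.K.T0 + 1) : gD P.K P.B =ᶠ[𝓝 u] coreZ P.K.g P.K.ξ := by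
  have h1 : ∀ᶠ w : E4 in 𝓝 u, ‖w‖ < P.K.T0 + 1 :=
    continuous_norm.continuousAt.eventually_lt_const hu
  filter_upwards [h1] with w hw
  unfold gD
  split_ifs with h2
  · rfl
  · have h3 : P.K.T0 ≤ ‖w‖ := not_lt.1 h2
    symm
    apply coreZ_eq_neckZ
    · rw [P.K.isCore.g_end _ (by linarith), P.ok.blk.start_l _ hw.le]
    · exact P.K.isCore.ξ_end _ (by linarith)
    · exact P.ok.blk.start_m _ hw.le

theorem gD_neck {u : E4} (hu : P.K.T0 < ‖u‖) : gD P.K P.B =ᶠ[𝓝 u] neckZ P.B.l P.B.m P.B.H := by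
  have h1 : ∀ᶠ w : E4 in 𝓝 u, P.K.T0 < ‖w‖ :=
    continuous_norm.continuousAt.eventually_const_lt hu
  filter_upwards [h1] with w hw
  unfold gD
  rw [if_neg (by linarith)]

theorem good_core (K : Core) : GoodMet (coreZ K.g K.ξ) {u : E4 | ‖u‖ ∈ Set.Ioi 0} :=
  goodMet_coreZ (fun _ ht => ht)
    (fun t ht => (K.isCore.smooth_g t ht).contDiffAt (Ioi_mem_nhds ht))
    (fun t ht => (K.isCore.smooth_ξ t ht).contDiffAt (Ioi_mem_nhds ht))
    (fun t ht => K.isCore.g_pos t ht)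

theorem ric_core (K : Core) {u : E4} (hu : 0 < ‖u‖) : RicGE (coreZ K.g K.ξ) 0 u :=
  ricGE_coreZ isOpen_Ioi (fun _ ht => ht)
    (fun t ht => (K.isCore.smooth_g t ht).contDiffAt (Ioi_mem_nhds ht))
    (fun t ht => (K.isCore.smooth_ξ t ht).contDiffAt (Ioi_mem_nhds ht))
    (fun t ht => K.isCore.g_pos t ht) (fun t ht => K.isCore.ok t ht) hu

theorem T0_pos : 0 < P.K.T0 := by linarith [P.K.isCore.T0_gt]

theorem good_neck : GoodMet (neckZ P.B.l P.B.m P.B.H) {u : E4 | ‖u‖ ∈ Set.Ioi P.K.T0} :=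
  goodMet_neckZ (fun _ ht => (T0_pos P).trans ht) (fun _ _ => P.ok.blk.smooth_l.contDiffAt)
    (fun _ _ => P.ok.blk.smooth_m.contDiffAt) P.ok.link.smooth_H
    (fun t ht => P.ok.blk.l_pos t (le_of_lt ht))

theorem ric_neck {u : E4} (hu : P.K.T0 < ‖u‖) :
    RicGE (neckZ P.B.l P.B.m P.B.H) (-(3 * P.B.s ^ 2)) u :=
  ricGE_neckZ P.ok.link.eta_H
    (fun x hx => (P.ok.link.linkFun.smooth x hx).contDiffAt (isOpen_Ioo.mem_nhds hx))
    isOpen_Ioi (fun _ ht => (T0_pos P).trans ht) (fun _ _ => P.ok.blk.smooth_l.contDiffAt)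
    (fun _ _ => P.ok.blk.smooth_m.contDiffAt) P.ok.link.smooth_H
    (fun t ht => P.ok.blk.l_pos t (le_of_lt ht)) (fun t ht => P.ok.blk.ok t (le_of_lt ht)) hu

theorem isOpen_norm_Ioi (r : ℝ) : IsOpen {u : E4 | ‖u‖ ∈ Set.Ioi r} :=
  isOpen_Ioi.preimage continuous_norm

theorem good_gD : GoodMet (gD P.K P.B) {u : E4 | 0 < ‖u‖} := by
  refine goodMet_of_local fun u hu => ?_
  rcases lt_or_ge ‖u‖ (P.K.T0 + 1) with h | h
  · exact ⟨_, _, isOpen_norm_Ioi 0, hu, good_core P.K, gD_core P h⟩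
  · have h1 : P.K.T0 < ‖u‖ := by linarith
    exact ⟨_, _, isOpen_norm_Ioi _, h1, good_neck P, gD_neck P h1⟩

theorem ric_gD {u : E4} (hu : 0 < ‖u‖) : RicGE (gD P.K P.B) (-(3 * P.B.s ^ 2)) u := by
  rcases lt_or_ge ‖u‖ (P.K.T0 + 1) with h | h
  · have h1 := blk_ricGE_mono (V := {u : E4 | ‖u‖ ∈ Set.Ioi 0}) (κ' := -(3 * P.B.s ^ 2))
      (good_core P.K) hu (ric_core P.K hu) (by nlinarith [sq_nonneg P.B.s])
    exact ricGE_of_local (isOpen_norm_Ioi 0) (good_core P.K) hu (gD_core P h) h1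
  · have h1 : P.K.T0 < ‖u‖ := by linarith
    exact ricGE_of_local (isOpen_norm_Ioi _) (good_neck P) h1 (gD_neck P h1) (ric_neck P h1)

end gD

/-! ### The metric of the patch `F` -/

theorem blk_U2OK_congr {U U' W W' : ℝ → ℝ} {κ A : ℝ} (hU : U =ᶠ[𝓝 A] U') (hW : W =ᶠ[𝓝 A] W')
    (h : U2OK U' W' κ A) : U2OK U W κ A := by
  have h1 : u2om W =ᶠ[𝓝 A] u2om W' := by
    filter_upwards [hW, hW.eventuallyEq_nhds] with x hx hx'
    unfold u2om
    rw [hx, hx'.deriv_eq]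
  unfold U2OK u2R0 u2R1 u2R3 at h ⊢
  rw [hU.self_of_nhds, hW.self_of_nhds, hU.deriv_eq, h1.self_of_nhds, h1.deriv_eq]
  exact h

theorem blk_U2OK_mono {U W : ℝ → ℝ} {κ κ' A : ℝ} (h : U2OK U W κ A) (hκ : κ ≤ κ') :
    U2OK U W κ' A := ⟨by linarith [h.1], by linarith [h.2.1], by linarith [h.2.2]⟩

section gF

variable (P : BlkPar)

theorem sin_half : 0 < sin (P.K.t0 / 2) ∧ sin (P.K.t0 / 2) < sin P.K.t0 ∧
    P.K.A0 < sin (P.K.t0 / 2) / 2 ∧ P.a < sin (P.K.t0 / 2) / 2 := by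
  have h1 := P.K.isCore.t0_pos
  have h2 := P.K.isCore.t0_lt
  have hp := pi_gt_three
  have h3 := P.K.A0_lt
  have h4 := P.a_lt
  have h5 := P.K.A0_pos
  refine ⟨sin_pos_of_pos_of_lt_pi (by linarith) (by linarith),
    sin_lt_sin_of_lt_of_le_pi_div_two (by linarith) (by linarith) (by linarith), h3, by linarith⟩

/-- The set of radii of the patch `F`. -/
theorem gF_cases {A : ℝ} (hA : P.a < A) (hA' : A < sin P.K.t0) :
    0 < A ∧ ((∀ᶠ x in 𝓝 A, P.K.U P.a x = ehU P.K.A0 P.a x ∧ P.K.W P.a x = ehU P.K.A0 P.a x) ∨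
      ((∀ᶠ x in 𝓝 A, P.K.U P.a x = 1 - P.K.v x ∧
        P.K.W P.a x = (1 - P.K.v x) / (1 - 3 / 4 * P.K.v x)) ∧
        P.K.v A ≤ 1 / 4 ∧ A * deriv P.K.v A ≤ 1 / 2)) := by
  have hA0 := P.K.A0_pos
  have hApos : 0 < A := lt_of_le_of_lt P.a_nonneg hA
  refine ⟨hApos, ?_⟩
  rcases lt_or_ge A P.K.A0 with h | h
  · left
    filter_upwards [Iio_mem_nhds h] with x hx
    have hv : P.K.v x = 0 := P.K.v_zero x (le_of_lt hx)
    unfold Core.U Core.W ehU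
    rw [hv]
    norm_num
  · right
    have h1 : 3 * P.K.A0 / 4 < A := by linarith
    obtain ⟨h2, h3⟩ := P.K.v_bound A hApos
    obtain ⟨s1, s2, s3, s4⟩ := sin_half P
    have s5 := P.K.sin_t0.2
    have h4 : max A (sin (P.K.t0 / 2) / 2) ≤ 1 / 100 := max_le (by linarith) (by linarith)
    have h5 : 0 ≤ max A (sin (P.K.t0 / 2) / 2) := hApos.le.trans (le_max_left _ _)
    have h6 : max A (sin (P.K.t0 / 2) / 2) ^ 2 ≤ (1 / 100) ^ 2 := pow_le_pow_left₀ h5 h4 2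
    refine ⟨?_, by linarith only [s3, s2, s5, hA0, h3, h6], by linarith only [s3, s2, h2, s5, hA0, h6]⟩
    filter_upwards [Ioi_mem_nhds h1] with x hx
    have hx' : 3 * P.K.A0 / 4 < x := hx
    have hχ : ehChi P.K.A0 x = 0 := by
      unfold ehChi
      rw [Real.smoothTransition.one_of_one_le, sub_self]
      rw [le_sub_iff_add_le, le_div_iff₀ hA0]
      linarith only [hx']
    unfold Core.U Core.W
    rw [hχ]
    norm_num

theorem contDiff_ehChi (A₀ : ℝ) : ContDiff ℝ ∞ (ehChi A₀) := by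
  unfold ehChi
  exact contDiff_const.sub (Real.smoothTransition.contDiff.comp (by fun_prop))

theorem smooth_U (K : Core) (a : ℝ) {A : ℝ} (hA : 0 < A) : ContDiffAt ℝ ∞ (K.U a) A := by
  unfold Core.U
  have h1 : ContDiffAt ℝ ∞ (fun A : ℝ => A ^ 4) A := contDiffAt_id.pow 4
  exact (contDiffAt_const.sub K.v_smooth.contDiffAt).sub
    (((contDiff_ehChi _).contDiffAt.mul contDiffAt_const).div h1 (by positivity))

theorem smooth_W (K : Core) (a : ℝ) {A : ℝ} (hA : 0 < A) (hv : 1 - 3 / 4 * K.v A ≠ 0) :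
    ContDiffAt ℝ ∞ (K.W a) A := by
  unfold Core.W
  have h1 : ContDiffAt ℝ ∞ (fun A : ℝ => A ^ 4) A := contDiffAt_id.pow 4
  exact ((contDiffAt_const.sub K.v_smooth.contDiffAt).div
    (contDiffAt_const.sub (contDiffAt_const.mul K.v_smooth.contDiffAt)) hv).sub
    (((contDiff_ehChi _).contDiffAt.mul contDiffAt_const).div h1 (by positivity))

theorem v_le {A : ℝ} (hA : 0 < A) (hA' : A < sin P.K.t0) : P.K.v A ≤ 1 / 4 := by
  obtain ⟨h2, h3⟩ := P.K.v_bound A hA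
  obtain ⟨s1, s2, s3, s4⟩ := sin_half P
  have s5 := P.K.sin_t0.2
  have h4 : max A (sin (P.K.t0 / 2) / 2) ≤ 1 / 100 := max_le (by linarith) (by linarith)
  have h5 : 0 ≤ max A (sin (P.K.t0 / 2) / 2) := hA.le.trans (le_max_left _ _)
  have h6 : max A (sin (P.K.t0 / 2) / 2) ^ 2 ≤ (1 / 100) ^ 2 := pow_le_pow_left₀ h5 h4 2
  linarith only [h6, hA, h3, hA', s5]

theorem UW_pos {A : ℝ} (hA : P.a < A) (hA' : A < sin P.K.t0) :
    0 < P.K.U P.a A ∧ 0 < P.K.W P.a A := by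
  obtain ⟨h0, h | ⟨h, h1, -⟩⟩ := gF_cases P hA hA'
  · obtain ⟨e1, e2⟩ := h.self_of_nhds
    rw [e1, e2]
    exact ⟨(P.a_ric A hA).1, (P.a_ric A hA).1⟩
  · obtain ⟨e1, e2⟩ := h.self_of_nhds
    rw [e1, e2]
    exact ⟨by linarith, div_pos (by linarith) (by linarith)⟩

theorem good_gF : GoodMet (gF P.K P.a) {u : E4 | ‖u‖ ∈ Set.Ioo P.a (sin P.K.t0)} := by
  refine goodMet_u2Z ?_ ?_ ?_ ?_ ?_
  · exact fun A hA => lt_of_le_of_lt P.a_nonneg hA.1
  · exact fun A hA => smooth_U _ _ (lt_of_le_of_lt P.a_nonneg hA.1)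
  · intro A hA
    have h0 : 0 < A := lt_of_le_of_lt P.a_nonneg hA.1
    have := v_le P h0 hA.2
    exact smooth_W _ _ h0 (by linarith)
  · exact fun A hA => (UW_pos P hA.1 hA.2).1
  · exact fun A hA => (UW_pos P hA.1 hA.2).2

theorem ric_gF {u : E4} (hu : ‖u‖ ∈ Set.Ioo P.a (sin P.K.t0)) :
    RicGE (gF P.K P.a) (-(3 * P.B.s ^ 2)) u := by
  refine ricGE_u2Z (T := Set.Ioo P.a (sin P.K.t0)) isOpen_Ioo ?_ ?_ ?_ ?_ ?_ hu ?_
  · exact fun A hA => lt_of_le_of_lt P.a_nonneg hA.1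
  · exact fun A hA => smooth_U _ _ (lt_of_le_of_lt P.a_nonneg hA.1)
  · intro A hA
    have h0 : 0 < A := lt_of_le_of_lt P.a_nonneg hA.1
    have := v_le P h0 hA.2
    exact smooth_W _ _ h0 (by linarith)
  · exact fun A hA => (UW_pos P hA.1 hA.2).1
  · exact fun A hA => (UW_pos P hA.1 hA.2).2
  · obtain ⟨h0, h | ⟨h, h1, h2⟩⟩ := gF_cases P hu.1 hu.2
    · exact blk_U2OK_congr (h.mono fun x hx => hx.1) (h.mono fun x hx => hx.2) (P.a_ric _ hu.1).2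
    · refine blk_U2OK_mono (blk_U2OK_congr (h.mono fun x hx => hx.1) (h.mono fun x hx => hx.2)
        (u2OK_flat h0 P.K.v_smooth (P.K.v_nonneg _) (P.K.v_deriv _) (P.K.v_deriv2 _) h1 h2)) ?_
      positivity

/-- Far from the bolt the metric of the patch `F` is the one of `P(1,2,1)`. -/
theorem gF_eq_gFS {u : E4} (hu : sin (P.K.t0 / 2) / 2 < ‖u‖) (hu1 : ‖u‖ < 1) :
    gF P.K P.a =ᶠ[𝓝 u] gFS := by
  have h1 : ∀ᶠ w : E4 in 𝓝 u, sin (P.K.t0 / 2) / 2 < ‖w‖ :=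
    continuous_norm.continuousAt.eventually_const_lt hu
  have h2 : ∀ᶠ w : E4 in 𝓝 u, ‖w‖ < 1 :=
    continuous_norm.continuousAt.eventually_lt_const hu1
  obtain ⟨s1, s2, s3, s4⟩ := sin_half P
  filter_upwards [h1, h2] with w hw hw1
  have hw0 : w ≠ 0 := norm_pos_iff.1 (by linarith)
  have hχ : ehChi P.K.A0 ‖w‖ = 0 := by
    unfold ehChi
    rw [Real.smoothTransition.one_of_one_le, sub_self]
    rw [le_sub_iff_add_le, le_div_iff₀ P.K.A0_pos]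
    linarith
  have hv := P.K.v_end ‖w‖ hw.le
  refine u2Z_eq_gFS ((nsq_lt_one_iff w).2 hw1) hw0 ?_ ?_
  · unfold Core.U
    rw [hχ, hv]
    norm_num
  · unfold Core.W
    rw [hχ, hv]
    norm_num

end gF

section

variable (P : BlkPar)

theorem cB_le (u : E4) : ‖cB u‖ ≤ ‖u‖ := by
  have h1 := sq12 u
  have h2 := sq1_nonneg u
  rw [sq2_eq] at h1
  exact le_of_sq_le_sq (by linarith) (norm_nonneg _)

theorem mem_VD {u : E4} (hu : u ∈ VD P) : 0 < ‖u‖ ∧ u ≠ 0 := by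
  have h : 0 < ‖u‖ := by
    have h1 := hu.1
    have h2 := P.K.isCore.t0_pos
    linarith
  exact ⟨h, norm_pos_iff.1 h⟩

theorem mem_VE {u : E4} (hu : u ∈ VE P) : nsq u < 1 ∧ ‖cB u‖ < sin P.K.t0 := by
  refine ⟨(nsq_lt_one_iff u).2 hu.1, ?_⟩
  have h := hu.2.1
  rw [sq2_eq] at h
  exact lt_of_pow_lt_pow_left₀ 2 P.K.sin_t0.1.le h

theorem mem_VF {u : E4} (hu : u ∈ VF P) : nsq u < 1 ∧ ‖cB u‖ < sin P.K.t0 ∧ ‖u‖ < 1 := by
  have h1 : ‖u‖ < 1 := by linarith [hu.2, P.K.sin_t0.2]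
  exact ⟨(nsq_lt_one_iff u).2 h1, (cB_le u).trans_lt hu.2, h1⟩

theorem blkIsOpen (i : Fin 3) : IsOpen (blkV P i) := by
  have h2 : Continuous sq2 := by
    have : sq2 = fun u => ‖cB u‖ ^ 2 := funext sq2_eq
    rw [this]
    exact (continuous_norm.comp cB.continuous).pow 2
  have h1 : Continuous sq1 := by
    have : sq1 = fun u => ‖cA u‖ ^ 2 := funext sq1_eq
    rw [this]
    exact (continuous_norm.comp cA.continuous).pow 2
  fin_cases i
  · exact (isOpen_lt continuous_const continuous_norm).inter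
      (isOpen_lt (continuous_const.mul (continuous_norm.sub continuous_const)) continuous_const)
  · exact (isOpen_lt continuous_norm continuous_const).inter
      ((isOpen_lt h2 continuous_const).inter (isOpen_lt h1 continuous_const))
  · exact (isOpen_lt continuous_const continuous_norm).inter
      (isOpen_lt continuous_norm continuous_const)

theorem blk_good_mono {g : Met} {V V' : Set E4} (h : GoodMet g V') (hV : V ⊆ V') : GoodMet g V :=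
  ⟨fun i j => (h.smooth i j).mono hV, fun x hx => h.symm x (hV hx), fun x hx => h.pos x (hV hx)⟩

theorem blkGood (i : Fin 3) : GoodMet (blkG P i) (blkV P i) := by
  fin_cases i
  · exact blk_good_mono (good_gD P) fun u hu => (mem_VD P hu).1
  · exact blk_good_mono goodMet_gE fun u hu => (mem_VE P hu).1
  · exact blk_good_mono (good_gF P) fun u hu => hu

theorem continuousAt_blkRep (i : Fin 3) {u : E4} (hu : u ∈ blkV P i) :
    ContinuousAt (blkRep P i) u := by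
  fin_cases i
  · exact continuousAt_repD P.K (mem_VD P hu).2
  · exact continuousAt_repE (mem_VE P hu).1
  · exact continuousAt_repF (mem_VF P hu).1

/-- The patch D is injective. -/
theorem blkInj_D {u u' : E4} (hu : u ∈ VD P) (hu' : u' ∈ VD P)
    (h : blkPsi P 0 u = blkPsi P 0 u') : u = u' :=
  ((rep_D_D P.K (mem_VD P hu).2 (mem_VD P hu').2).1 h).symm

theorem blkInj_E {u u' : E4} (hu : u ∈ VE P) (hu' : u' ∈ VE P)
    (h : blkPsi P 1 u = blkPsi P 1 u') : u = u' :=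
  ((rep_E_E (mem_VE P hu).1 (mem_VE P hu').1).1 h).symm

theorem blkPsi_F_iff {u u' : E4} (hu : u ∈ VF P) (hu' : u' ∈ VF P) :
    blkPsi P 2 u = blkPsi P 2 u' ↔ u' = u ∨ u' = -u :=
  rep_F_F (mem_VF P hu).1 (mem_VF P hu').1

theorem blkInj (i : Fin 3) (a : E4) (ha : a ∈ blkV P i) :
    ∃ U ∈ 𝓝 a, Set.InjOn (blkPsi P i) U := by
  have hV := (blkIsOpen P i).mem_nhds ha
  fin_cases i
  · exact ⟨_, hV, fun x hx y hy h => blkInj_D P hx hy h⟩
  · exact ⟨_, hV, fun x hx y hy h => blkInj_E P hx hy h⟩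
  · have h0 : 0 < ‖a‖ := lt_of_le_of_lt P.a_nonneg ha.1
    refine ⟨VF P ∩ Metric.ball a ‖a‖, inter_mem hV (Metric.ball_mem_nhds a h0), ?_⟩
    intro x hx y hy h
    rcases (blkPsi_F_iff P hx.1 hy.1).1 h with h1 | h1
    · exact h1.symm
    · exfalso
      have h2 := hx.2
      have h3 := hy.2
      rw [mem_ball_iff_norm] at h2 h3
      have h4 : ‖(x - a) + (y - a)‖ = 2 * ‖a‖ := by
        rw [h1]
        have : (x - a) + (-x - a) = (-2 : ℝ) • a := by module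
        rw [this, norm_smul]
        norm_num
      have h5 := norm_add_le (x - a) (y - a)
      linarith

theorem blk_id (i : Fin 3) {a b : E4} (h : b = a) :
    ∃ θ : E4 → E4, θ a = b ∧ IsoAt (blkG P i) (blkG P i) θ a ∧
      ∀ᶠ x in 𝓝 a, blkPsi P i (θ x) = blkPsi P i x :=
  ⟨id, h.symm, isoAt_id _ _, Eventually.of_forall fun _ => rfl⟩

theorem blk_neg {a b : E4} (ha : a ∈ VF P) (h : b = -a) :
    ∃ θ : E4 → E4, θ a = b ∧ IsoAt (gF P.K P.a) (gF P.K P.a) θ a ∧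
      ∀ᶠ x in 𝓝 a, blkPsi P 2 (θ x) = blkPsi P 2 x := by
  refine ⟨fun u => -u, h.symm, isoAt_neg_u2Z _ _ a, ?_⟩
  filter_upwards [(blkIsOpen P 2).mem_nhds ha] with x hx
  have hx' : -x ∈ VF P := by
    refine ⟨?_, ?_⟩
    · rw [norm_neg]
      exact hx.1
    · rw [norm_neg]
      exact hx.2
  exact (blkPsi_F_iff P hx' hx).2 (Or.inr (neg_neg x).symm)

theorem arcsin_lt_t0 {x : ℝ} (hx : x < sin P.K.t0) : arcsin x < P.K.t0 := by
  have h1 := P.K.isCore.t0_pos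
  have h2 := P.K.isCore.t0_lt
  have hp := pi_gt_three
  rw [arcsin_lt_iff_lt_sin' ⟨by linarith, by linarith⟩]
  exact hx

theorem blk_core_cond : (∀ t ∈ Set.Ioo 0 P.K.t0, 0 < t ∧ t < π / 2) ∧
    (∀ t ∈ Set.Ioo 0 P.K.t0, P.K.g t = Real.cos t) ∧
    (∀ t ∈ Set.Ioo 0 P.K.t0, P.K.ξ t = 1 / Real.sin t) := by
  have h2 := P.K.isCore.t0_lt
  have hp := pi_gt_three
  exact ⟨fun t ht => ⟨ht.1, by linarith [ht.2]⟩, fun t ht => P.K.isCore.g_start t ⟨ht.1, ht.2.le⟩,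
    fun t ht => P.K.isCore.ξ_start t ⟨ht.1, ht.2.le⟩⟩

theorem thED_ne {x : E4} (h1 : nsq x < 1) (h2 : cB x ≠ 0) : thED x ≠ 0 := by
  rw [← norm_pos_iff, norm_thED h1 h2]
  exact (slice_t h1 h2).2.2.1

theorem thFD_ne {x : E4} (h1 : nsq x < 1) (h2 : cB x ≠ 0) : thFD x ≠ 0 := by
  rw [← norm_pos_iff, norm_thFD h1 h2]
  exact (slice_t h1 h2).2.2.1

theorem blk_ED {a b : E4} (ha : a ∈ VE P) (hb : b ∈ VD P) (hab : blkPsi P 1 a = blkPsi P 0 b) :
    ∃ θ : E4 → E4, θ a = b ∧ IsoAt gE (gD P.K P.B) θ a ∧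
      ∀ᶠ x in 𝓝 a, blkPsi P 0 (θ x) = blkPsi P 1 x := by
  obtain ⟨h1, h2⟩ := mem_VE P ha
  obtain ⟨h3, h4⟩ := (rep_E_D P.K h1 h2 (mem_VD P hb).2).1 hab
  have h5 := norm_thED h1 h3
  have h6 := arcsin_lt_t0 P h2
  obtain ⟨c1, c2, c3⟩ := blk_core_cond P
  refine ⟨thED, h4.symm, ?_, ?_⟩
  · refine isoAt_congr (isoAt_thED (T := Set.Ioo 0 P.K.t0) isOpen_Ioo c1 c2 c3 h1 h3
      ⟨(slice_t h1 h3).2.2.1, h6⟩) EventuallyEq.rfl EventuallyEq.rfl (gD_core P ?_).symm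
    rw [h5]
    linarith [P.K.isCore.T0_gt, P.K.isCore.t0_lt]
  · have hev : ∀ᶠ x in 𝓝 a, cB x ≠ 0 := cB.continuous.continuousAt.eventually_ne h3
    filter_upwards [(blkIsOpen P 1).mem_nhds ha, hev] with x hx hx0
    obtain ⟨x1, x2⟩ := mem_VE P hx
    exact ((rep_E_D P.K x1 x2 (thED_ne x1 hx0)).2 ⟨hx0, rfl⟩).symm

theorem blk_FD {a b : E4} (ha : a ∈ VF P) (hb : b ∈ VD P) (hab : blkPsi P 2 a = blkPsi P 0 b) :
    ∃ θ : E4 → E4, θ a = b ∧ IsoAt (gF P.K P.a) (gD P.K P.B) θ a ∧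
      ∀ᶠ x in 𝓝 a, blkPsi P 0 (θ x) = blkPsi P 2 x := by
  obtain ⟨h1, h2, h7⟩ := mem_VF P ha
  obtain ⟨h3, h4⟩ := (rep_F_D P.K h1 h2 (mem_VD P hb).2).1 hab
  have h5 := norm_thFD h1 h3
  have h6 := arcsin_lt_t0 P h2
  obtain ⟨c1, c2, c3⟩ := blk_core_cond P
  obtain ⟨s1, s2, s3, s4⟩ := sin_half P
  have h8 : sin (P.K.t0 / 2) < ‖cB a‖ := by
    have h9 := hb.1
    have h10 := (slice_t h1 h3).2.2.2.2.1
    rw [h4, h5] at h9
    rw [← h10]
    have hp := pi_gt_three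
    have := P.K.isCore.t0_pos
    have := P.K.isCore.t0_lt
    exact sin_lt_sin_of_lt_of_le_pi_div_two (by linarith) (by linarith) h9
  have h9 : sin (P.K.t0 / 2) / 2 < ‖a‖ := by linarith [cB_le a]
  refine ⟨thFD, h4.symm, ?_, ?_⟩
  · refine isoAt_congr (isoAt_thFD (T := Set.Ioo 0 P.K.t0) isOpen_Ioo c1 c2 c3 h1 h3
      ⟨(slice_t h1 h3).2.2.1, h6⟩) (gF_eq_gFS P h9 h7).symm EventuallyEq.rfl (gD_core P ?_).symm
    rw [h5]
    linarith [P.K.isCore.T0_gt, P.K.isCore.t0_lt]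
  · have hev : ∀ᶠ x in 𝓝 a, cB x ≠ 0 := cB.continuous.continuousAt.eventually_ne h3
    filter_upwards [(blkIsOpen P 2).mem_nhds ha, hev] with x hx hx0
    obtain ⟨x1, x2, -⟩ := mem_VF P hx
    exact ((rep_F_D P.K x1 x2 (thFD_ne x1 hx0)).2 ⟨hx0, rfl⟩).symm

theorem blk_FE {a b : E4} (ha : a ∈ VF P) (hb : b ∈ VE P) (hab : blkPsi P 2 a = blkPsi P 1 b) :
    ∃ θ : E4 → E4, θ a = b ∧ IsoAt (gF P.K P.a) gE θ a ∧
      ∀ᶠ x in 𝓝 a, blkPsi P 1 (θ x) = blkPsi P 2 x := by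
  obtain ⟨h1, h2, h7⟩ := mem_VF P ha
  obtain ⟨g1, g2⟩ := mem_VE P hb
  obtain ⟨h3, h4⟩ := (rep_F_E h1 g1).1 hab
  obtain ⟨s1, s2, s3, s4⟩ := sin_half P
  have h9 : sin (P.K.t0 / 2) / 2 < ‖a‖ := by
    have h10 := hb.2.2
    rw [sq1_eq, h4, norm_cA_thFE h1 h3] at h10
    exact lt_of_pow_lt_pow_left₀ 2 (norm_nonneg _) (by linarith)
  refine ⟨thFE, h4.symm, ?_, ?_⟩
  · exact isoAt_congr (isoAt_thFE h1 h3) (gF_eq_gFS P h9 h7).symm EventuallyEq.rfl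
      EventuallyEq.rfl
  · have hev : ∀ᶠ x in 𝓝 a, cA x ≠ 0 := cA.continuous.continuousAt.eventually_ne h3
    filter_upwards [(blkIsOpen P 2).mem_nhds ha, hev] with x hx hx0
    obtain ⟨x1, -, -⟩ := mem_VF P hx
    refine ((rep_F_E x1 ?_).2 ⟨hx0, rfl⟩).symm
    rw [nsq_thFE x1 hx0]
    have := norm_pos_iff.2 hx0
    have : 0 < ‖cA x‖ ^ 2 := by positivity
    linarith

theorem blkTrans (i j : Fin 3) (a : E4) (ha : a ∈ blkV P i) (b : E4) (hb : b ∈ blkV P j)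
    (hab : blkPsi P i a = blkPsi P j b) :
    ∃ θ : E4 → E4, θ a = b ∧ IsoAt (blkG P i) (blkG P j) θ a ∧
      ∀ᶠ x in 𝓝 a, blkPsi P j (θ x) = blkPsi P i x := by
  refine trans_of_or (blkIsOpen P) (blkGood P) ?_ i j a ha b hb hab
  intro i j a ha b hb hab
  fin_cases i <;> fin_cases j
  · exact Or.inl (blk_id P 0 (blkInj_D P ha hb hab).symm)
  · exact Or.inr (blk_ED P hb ha hab.symm)
  · exact Or.inr (blk_FD P hb ha hab.symm)
  · exact Or.inl (blk_ED P ha hb hab)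
  · exact Or.inl (blk_id P 1 (blkInj_E P ha hb hab).symm)
  · exact Or.inr (blk_FE P hb ha hab.symm)
  · exact Or.inl (blk_FD P ha hb hab)
  · exact Or.inl (blk_FE P ha hb hab)
  · rcases (blkPsi_F_iff P ha hb).1 hab with h | h
    · exact Or.inl (blk_id P 2 h)
    · exact Or.inl (blk_neg P ha h)

theorem blkSep (i j : Fin 3) (a : E4) (ha : a ∈ blkV P i) (b : E4) (hb : b ∈ blkV P j)
    (hab : blkPsi P i a ≠ blkPsi P j b) :
    ∀ᶠ q in 𝓝 (a, b), blkPsi P i q.1 ≠ blkPsi P j q.2 :=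
  w_sep (continuousAt_blkRep P i ha) (continuousAt_blkRep P j hb) hab

/-- `Ric ≥ -3 s²`: D: `ricGE_coreZ` or `ricGE_neckZ`; E: 0; F: `u2OK_flat` where `A > 3 A0/4`, `a_ric`
where `A < A0`. -/
theorem blkRic (i : Fin 3) {u : E4} (hu : u ∈ blkV P i) :
    RicGE (blkG P i) (-(3 * P.B.s ^ 2)) u := by
  fin_cases i
  · exact ric_gD P (mem_VD P hu).1
  · exact blk_ricGE_mono goodMet_gE (mem_VE P hu).1 (ricGE_gE (mem_VE P hu).1)
      (by nlinarith [sq_nonneg P.B.s])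
  · exact ric_gF P hu

end

/-- The block pre-patchwork (not yet scaled by `s²`). -/
noncomputable def blkP (P : BlkPar) : PreP where
  ι := Fin 3
  V := blkV P
  g := blkG P
  Pt := WPt ![1, 2, 1]
  ψ := blkPsi P
  isOpen_V := blkIsOpen P
  good := blkGood P
  inj := blkInj P
  trans := blkTrans P
  sep := blkSep P

/-- `|w|` on the orbits. -/
noncomputable def wabs (m : Fin 3 → ℤ) : WPt m → ℝ :=
  WPt.lift (fun p => ‖p.2.2‖) fun c p hc => by simp [wAct, hc]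

/-- The collar coordinate of a block. -/
noncomputable def rBlk (P : BlkPar) (p : WPt ![1, 2, 1]) : ℝ :=
  P.B.s * (wabs _ p - sin P.K.t0 + P.K.t0 - P.B.tstar) - P.ρ

theorem wabs_D (P : BlkPar) {u : E4} (hu : 0 < ‖u‖) :
    wabs ![1, 2, 1] (blkPsi P 0 u) = qt P.K ‖u‖ := by
  change ‖((qt P.K ‖u‖ : ℝ) : ℂ)‖ = _
  rw [Complex.norm_real, Real.norm_of_nonneg (qt_pos P.K hu).le]

theorem wabs_EF (P : BlkPar) {i : Fin 3} (hi : i ≠ 0) (u : E4) :
    wabs ![1, 2, 1] (blkPsi P i u) = ‖cB u‖ := by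
  rw [cB_eq]
  fin_cases i
  · exact absurd rfl hi
  · rfl
  · rfl

theorem rBlk_D (P : BlkPar) {u : E4} (hu : u ∈ VD P) (h : P.K.t0 ≤ ‖u‖) :
    rBlk P (blkPsi P 0 u) = P.B.s * (‖u‖ - P.B.tstar) - P.ρ := by
  unfold rBlk
  rw [wabs_D P (mem_VD P hu).1, qt_of_ge P.K h]
  ring

/-- In the patch D the collar coordinate is positive iff the radius is `> ρ`. -/
theorem rBlk_pos_D (P : BlkPar) {u : E4} (hu : u ∈ VD P) :
    0 < rBlk P (blkPsi P 0 u) ↔ P.ρ < P.B.s * (‖u‖ - P.B.tstar) := by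
  have hs := P.ok.blk.s_pos
  have h1 := P.ok.blk.size1
  have h2 := P.ok.blk.T2_gt
  have h3 := P.K.isCore.T0_gt
  have h4 := P.K.isCore.t0_lt
  have hρ := P.ρ_pos
  have key : ∀ t : ℝ, t ≤ P.K.t0 → P.B.s * (t - P.B.tstar) ≤ P.ρ / 2 := fun t ht =>
    (mul_le_mul_of_nonneg_left (by linarith) hs.le).trans h1
  rcases le_or_gt P.K.t0 ‖u‖ with h | h
  · rw [rBlk_D P hu h, sub_pos]
  · constructor
    · intro h5
      exfalso
      unfold rBlk at h5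
      rw [wabs_D P (mem_VD P hu).1] at h5
      have h6 := qt_strictMono P.K (mem_VD P hu).1 h
      rw [qt_of_le P.K le_rfl] at h6
      have h7 := key (qt P.K ‖u‖ - sin P.K.t0 + P.K.t0) (by linarith)
      linarith
    · intro h5
      have := key ‖u‖ h.le
      linarith

/-- In the patches E and F the collar coordinate is negative. -/
theorem rBlk_EF (P : BlkPar) {i : Fin 3} (hi : i ≠ 0) {u : E4} (hu : u ∈ blkV P i) :
    rBlk P (blkPsi P i u) < 0 := by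
  have hs := P.ok.blk.s_pos
  have h1 := P.ok.blk.size1
  have h2 := P.ok.blk.T2_gt
  have h3 := P.K.isCore.T0_gt
  have h4 := P.K.isCore.t0_lt
  have hρ := P.ρ_pos
  have h5 : ‖cB u‖ < sin P.K.t0 := by
    fin_cases i
    · exact absurd rfl hi
    · exact (mem_VE P hu).2
    · exact (mem_VF P hu).2.1
  unfold rBlk
  rw [wabs_EF P hi]
  have h6 : P.B.s * (‖cB u‖ - sin P.K.t0 + P.K.t0 - P.B.tstar) ≤ P.ρ / 2 :=
    (mul_le_mul_of_nonneg_left (by linarith) hs.le).trans h1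
  linarith

/-- The square of the distance `A` from the `z₂`-axis point, in `P(1,2,1)`. -/
noncomputable def aSq : WPt ![1, 2, 1] → ℝ :=
  WPt.lift (fun p => 1 - max 0 (1 - ‖p.2.2‖ ^ 2) * ‖p.2.1‖ ^ 2) fun c p hc => by
    simp [wAct, hc]

theorem aSq_F (P : BlkPar) {u : E4} (hu : u ∈ VF P) : aSq (blkPsi P 2 u) = ‖u‖ ^ 2 := by
  obtain ⟨h1, -, -⟩ := mem_VF P hu
  have h2 := nB_lt h1
  have h3 := sgc_pos h1
  have h4 : blkPsi P 2 u = WPt.mk ![1, 2, 1] (repF u) := rfl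
  rw [h4, repF_eq]
  change 1 - max 0 (1 - ‖cB u‖ ^ 2) * ‖(sr u : ℂ) / (sgc u : ℂ)‖ ^ 2 = _
  rw [← sq2_eq, max_eq_right (by linarith), norm_div, Complex.norm_real, Complex.norm_real,
    Real.norm_of_nonneg h3.le, Real.norm_of_nonneg (sr_pos h1).le, div_pow, sr_sq h1]
  unfold sgc
  rw [Real.sq_sqrt (by linarith), nsq_eq_norm]
  have h5 : 1 - sq2 u ≠ 0 := by linarith
  field_simp
  ring

theorem aSq_E (P : BlkPar) {u : E4} (hu : u ∈ VE P) : aSq (blkPsi P 1 u) = 1 - sq1 u := by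
  obtain ⟨h1, -⟩ := mem_VE P hu
  have h2 := nB_lt h1
  have h3 := sgc_pos h1
  have h4 : blkPsi P 1 u = WPt.mk ![1, 2, 1] (repE u) := rfl
  rw [h4, repE_eq]
  change 1 - max 0 (1 - ‖cB u‖ ^ 2) * ‖cA u / (sgc u : ℂ)‖ ^ 2 = _
  rw [← sq2_eq, max_eq_right (by linarith), norm_div, Complex.norm_real,
    Real.norm_of_nonneg h3.le, div_pow, ← sq1_eq]
  unfold sgc
  rw [Real.sq_sqrt (by linarith)]
  have h5 : 1 - sq2 u ≠ 0 := by linarith
  field_simp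

theorem aSq_D (P : BlkPar) {u : E4} (hu : u ∈ VD P) : aSq (blkPsi P 0 u) =
    1 - max 0 (1 - qt P.K ‖u‖ ^ 2) * (sq2 u / ‖u‖ ^ 2) := by
  change 1 - max 0 (1 - ‖((qt P.K ‖u‖ : ℝ) : ℂ)‖ ^ 2) * ‖cz2 u / (‖u‖ : ℂ)‖ ^ 2 = _
  rw [← cB_eq, Complex.norm_real, norm_div, Complex.norm_real, norm_norm, div_pow, ← sq2_eq,
    Real.norm_of_nonneg (qt_pos P.K (mem_VD P hu).1).le]

theorem aSq_gt (P : BlkPar) {i : Fin 3} {u : E4} (hu : u ∈ blkV P i) :
    P.a ^ 2 < aSq (blkPsi P i u) := by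
  obtain ⟨s1, s2, s3, s4⟩ := sin_half P
  have s5 := P.K.sin_t0.2
  have ha := P.a_nonneg
  fin_cases i
  · change P.a ^ 2 < aSq (blkPsi P 0 u)
    rw [aSq_D P hu]
    obtain ⟨h1, -⟩ := mem_VD P hu
    have h2 : sq2 u / ‖u‖ ^ 2 ≤ 1 := by
      rw [div_le_one (by positivity), ← sq12]
      linarith [sq1_nonneg u]
    have h3 : 0 ≤ sq2 u / ‖u‖ ^ 2 := div_nonneg (sq2_nonneg u) (by positivity)
    have h4 : sin (P.K.t0 / 2) < qt P.K ‖u‖ := by
      have h5 := qt_strictMono P.K (by linarith [P.K.isCore.t0_pos]) hu.1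
      rwa [qt_of_le P.K (by linarith [P.K.isCore.t0_pos])] at h5
    have h5 : max 0 (1 - qt P.K ‖u‖ ^ 2) ≤ 1 - sin (P.K.t0 / 2) ^ 2 :=
      max_le (by nlinarith only [s2, s5, s1]) (by nlinarith only [h4, s2, s5, s1])
    have h6 : 0 ≤ max 0 (1 - qt P.K ‖u‖ ^ 2) := le_max_left _ _
    have h7 : max 0 (1 - qt P.K ‖u‖ ^ 2) * (sq2 u / ‖u‖ ^ 2) ≤ 1 - sin (P.K.t0 / 2) ^ 2 := by
      nlinarith only [s2, h2, s5, h6, h5, s1]
    nlinarith only [h7, s4, s1, ha]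
  · change P.a ^ 2 < aSq (blkPsi P 1 u)
    rw [aSq_E P hu]
    have h1 := hu.2.2
    nlinarith
  · change P.a ^ 2 < aSq (blkPsi P 2 u)
    rw [aSq_F P hu]
    exact pow_lt_pow_left₀ hu.1 ha (by norm_num)

/-- In the collar `aSq = 1` (there `|w| ≥ 1`). -/
theorem aSq_collar (P : BlkPar) {i : Fin 3} {u : E4} (hu : u ∈ blkV P i)
    (h : 0 < rBlk P (blkPsi P i u)) : aSq (blkPsi P i u) = 1 := by
  rcases eq_or_ne i 0 with rfl | hi
  · have h1 := (rBlk_pos_D P hu).1 h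
    have h2 := P.ok.blk.size1
    have hs := P.ok.blk.s_pos
    have h3 := P.ok.blk.T2_gt
    have h4 := P.K.isCore.T0_gt
    have h5 := P.K.isCore.t0_lt
    have h6 : P.B.T2 < ‖u‖ := by
      by_contra h7
      have h8 : P.B.s * (‖u‖ - P.B.tstar) ≤ P.B.s * (P.B.T2 - P.B.tstar) :=
        mul_le_mul_of_nonneg_left (by linarith [not_lt.1 h7]) hs.le
      linarith [P.ρ_pos]
    rw [aSq_D P hu, qt_of_ge P.K (by linarith), max_eq_left, zero_mul, sub_zero]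
    have h7 := P.K.sin_t0.1
    nlinarith only [h3, h5, h7, h4, h6]
  · exact absurd h (not_lt.2 (rBlk_EF P hi hu).le)

end Pool.Agent.W_MP_654ec6
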