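import Pool.Agent.W_MP_654ec6.E.Bolt
import Pool.Agent.W_MP_654ec6.F.Host
import Pool.Agent.W_MP_654ec6.F.Pre

/-!
# Part F: the Eguchi-Hanson pre-patchwork

Patches: the annulus `F = {a < |u| < r}` with the `U(2)`-metric `u2Z U W`, where
`U = W = 1 - a⁴/A⁴` for `A < b`, and (if `0 < a`) the two charts `B1, B2` of the bolt, with the metric
`gB a`. The host is `ℂ³` modulo the circle acting with the weights `1, 1, -2`; the representatives
are `(z₁, z₂, √(A⁴ - a⁴))` in `F` and `(q v, q, ζ)`, `(q, q v, ζ)` in `B1, B2`, with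
`q = A / √(1 + |v|²)`. If `a = 0` only the patch `F` (a punctured ball modulo `± 1`) is left.
-/

open scoped ContDiff Topology ComplexConjugate
open Filter Real

namespace Pool.Agent.W_MP_654ec6

/-- The data of an Eguchi-Hanson pre-patchwork. -/
structure EHDat where
  a : ℝ
  b : ℝ
  r : ℝ
  U : ℝ → ℝ
  W : ℝ → ℝ
  a_nonneg : 0 ≤ a
  a_lt : a < b
  b_le : b ≤ r
  U_smooth : ∀ A ∈ Set.Ioo a r, ContDiffAt ℝ ∞ U A
  W_smooth : ∀ A ∈ Set.Ioo a r, ContDiffAt ℝ ∞ W A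
  U_pos : ∀ A ∈ Set.Ioo a r, 0 < U A
  W_pos : ∀ A ∈ Set.Ioo a r, 0 < W A
  U_eq : 0 < a → ∀ A ∈ Set.Ioo a b, U A = 1 - a ^ 4 / A ^ 4
  W_eq : 0 < a → ∀ A ∈ Set.Ioo a b, W A = 1 - a ^ 4 / A ^ 4

/-- The indices of the patches. -/
inductive EHI
  | F
  | B1
  | B2

/-- The domains. -/
def ehV (E : EHDat) : EHI → Set E4
  | EHI.F => {u | ‖u‖ ∈ Set.Ioo E.a E.r}
  | EHI.B1 => {u | 0 < E.a ∧ bA2 E.a u < E.b ^ 2}
  | EHI.B2 => {u | 0 < E.a ∧ bA2 E.a u < E.b ^ 2}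

/-- The metrics. -/
noncomputable def ehg (E : EHDat) : EHI → Met
  | EHI.F => u2Z E.U E.W
  | EHI.B1 => gB E.a
  | EHI.B2 => gB E.a

/-- `A / √(1 + |v|²)` -/
noncomputable def bQ (a : ℝ) (u : E4) : ℝ := √(bA2 a u / bD u)

/-- The representatives. -/
noncomputable def ehs (a : ℝ) : EHI → E4 → ℂ × ℂ × ℂ
  | EHI.F => fun u => (cA u, cB u, ((yB a u : ℝ) : ℂ))
  | EHI.B1 => fun u => (((bQ a u : ℝ) : ℂ) * cA u, ((bQ a u : ℝ) : ℂ), cB u)
  | EHI.B2 => fun u => (((bQ a u : ℝ) : ℂ), ((bQ a u : ℝ) : ℂ) * cA u, cB u)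

/-- The weights. -/
def ehm : Fin 3 → ℤ := ![1, 1, -2]

section alg

variable {a : ℝ} {u y y' : E4}

theorem eh_mk_eq {p q : ℂ × ℂ × ℂ} : WPt.mk ehm p = WPt.mk ehm q ↔
    ∃ c : ℂ, ‖c‖ = 1 ∧ q.1 = c * p.1 ∧ q.2.1 = c * p.2.1 ∧ q.2.2 = conj c ^ 2 * p.2.2 := by
  rw [WPt.mk_eq]
  constructor
  · rintro ⟨c, hc, rfl⟩
    refine ⟨c, hc, ?_, ?_, ?_⟩
    · simp [wAct, ehm]
    · simp [wAct, ehm]
    · simp only [wAct, ehm]
      rw [← Complex.inv_eq_conj hc]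
      simp [zpow_neg]
  · rintro ⟨c, hc, h1, h2, h3⟩
    refine ⟨c, hc, Prod.ext ?_ (Prod.ext ?_ ?_)⟩
    · simp [wAct, ehm, h1]
    · simp [wAct, ehm, h2]
    · simp only [wAct, ehm]
      rw [h3, ← Complex.inv_eq_conj hc]
      simp [zpow_neg]

theorem eh_y_pos (ha : 0 ≤ a) (hu : a < ‖u‖) : 0 < yB a u := by
  have h1 : 0 < nsq u ^ 2 - a ^ 4 := by
    rw [nsq_eq_norm]
    have : a ^ 4 < ‖u‖ ^ 4 := pow_lt_pow_left₀ hu ha (by norm_num)
    nlinarith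
  exact Real.sqrt_pos.2 h1

theorem eh_y_sq (ha : 0 ≤ a) (hu : a < ‖u‖) : yB a u ^ 2 = nsq u ^ 2 - a ^ 4 := by
  have h1 : 0 < nsq u ^ 2 - a ^ 4 := by
    rw [nsq_eq_norm]
    have : a ^ 4 < ‖u‖ ^ 4 := pow_lt_pow_left₀ hu ha (by norm_num)
    nlinarith
  exact Real.sq_sqrt h1.le

theorem eh_ext {u v : E4} (h1 : cA u = cA v) (h2 : cB u = cB v) : u = v := by
  rw [← toE_eta u, ← toE_eta v, h1, h2]

theorem bQ_pos (ha : 0 < a) (u : E4) : 0 < bQ a u :=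
  Real.sqrt_pos.2 (div_pos (bA2_pos ha u) (bD_pos u))

theorem bQ_sq (ha : 0 < a) (u : E4) : bQ a u ^ 2 * bD u = bA2 a u := by
  unfold bQ
  rw [Real.sq_sqrt (div_pos (bA2_pos ha u) (bD_pos u)).le, div_mul_cancel₀ _ (bD_pos u).ne']

theorem bD_eq (u : E4) : bD u = 1 + ‖cA u‖ ^ 2 := by
  rw [← Complex.normSq_eq_norm_sq, normSq_cA]
  unfold bD
  ring

theorem bA2_eq (a : ℝ) (u : E4) : bA2 a u = √(a ^ 4 + ‖cB u‖ ^ 2) := by
  rw [← Complex.normSq_eq_norm_sq, normSq_cB]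
  rfl

theorem norm_sq_cAB (u : E4) : ‖u‖ ^ 2 = ‖cA u‖ ^ 2 + ‖cB u‖ ^ 2 := by
  rw [← nsq_eq_norm, nsq_eq_normSq, Complex.normSq_eq_norm_sq, Complex.normSq_eq_norm_sq]

/-- A unit complex number which is a nonnegative multiple of a positive number. -/
theorem eh_unit_real {c : ℂ} {x y : ℝ} (hc : ‖c‖ = 1) (hx : 0 < x) (hy : 0 ≤ y)
    (h : (y : ℂ) = c * x) : c = 1 ∧ y = x := by
  have h1 : ‖(y : ℂ)‖ = ‖c * x‖ := by rw [h]
  rw [norm_mul, hc, one_mul, Complex.norm_real, Complex.norm_real, Real.norm_of_nonneg hy,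
    Real.norm_of_nonneg hx.le] at h1
  have hx' : (x : ℂ) ≠ 0 := Complex.ofReal_ne_zero.2 hx.ne'
  refine ⟨?_, h1⟩
  rw [h1] at h
  exact (mul_right_cancel₀ hx' (by rw [one_mul]; exact h)).symm

theorem eh_FF (ha : 0 ≤ a) {u u' : E4} (hu : a < ‖u‖)
    (h : WPt.mk ehm (ehs a EHI.F u) = WPt.mk ehm (ehs a EHI.F u')) : u' = u ∨ u' = -u := by
  obtain ⟨c, hc, h1, h2, h3⟩ := eh_mk_eq.1 h
  simp only [ehs] at h1 h2 h3
  have hy := eh_y_pos ha hu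
  have h4 := (eh_unit_real (c := conj c ^ 2) (by rw [norm_pow, Complex.norm_conj, hc, one_pow])
    hy (Real.sqrt_nonneg _) h3).1
  have h5 : conj c = 1 ∨ conj c = -1 := by
    have : (conj c - 1) * (conj c + 1) = 0 := by linear_combination h4
    rcases mul_eq_zero.1 this with h | h
    · left; linear_combination h
    · right; linear_combination h
  rcases h5 with h5 | h5
  · have h6 : c = 1 := by
      rw [← Complex.conj_conj c, h5, map_one]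
    left
    exact eh_ext (by rw [h1, h6, one_mul]) (by rw [h2, h6, one_mul])
  · have h6 : c = -1 := by
      rw [← Complex.conj_conj c, h5, map_neg, map_one]
    right
    refine eh_ext ?_ ?_
    · rw [h1, h6, map_neg]
      ring
    · rw [h2, h6, map_neg]
      ring

theorem eh_alg1 {p a b : ℂ} (hb : b ≠ 0) : p * b * (a / b) = p * a := by
  field_simp

theorem eh_alg2 {p q b : ℂ} (hb : b ≠ 0) : q * (p * b) * (1 / b) = p * q := by
  field_simp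

/-- The image of a point of `F` in the first bolt chart. -/
theorem eh_bQ_thB (ha : 0 < a) (hu : a < ‖u‖) (h0 : cB u ≠ 0) :
    bA2 a (thB a u) = ‖u‖ ^ 2 ∧ bQ a (thB a u) = ‖cB u‖ ∧ cA (thB a u) = cA u / cB u ∧
      cB (thB a u) = (yB a u : ℂ) * (conj (conj (cB u) / (‖cB u‖ : ℂ))) ^ 2 := by
  have hn : 0 < ‖cB u‖ := norm_pos_iff.2 h0
  have e1 : cA (thB a u) = cA u / cB u := cA_toE _ _
  have e2 : cB (thB a u) = (yB a u : ℂ) * (conj (conj (cB u) / (‖cB u‖ : ℂ))) ^ 2 := cB_toE _ _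
  have e3 : ‖cB (thB a u)‖ = yB a u := by
    rw [e2, norm_mul, norm_pow, Complex.norm_conj, norm_div, Complex.norm_conj,
      Complex.norm_real, Complex.norm_real, Real.norm_of_nonneg (eh_y_pos ha.le hu).le,
      Real.norm_of_nonneg hn.le, div_self hn.ne', one_pow, mul_one]
  have e4 : bA2 a (thB a u) = ‖u‖ ^ 2 := by
    rw [bA2_eq, e3, eh_y_sq ha.le hu, nsq_eq_norm]
    rw [show a ^ 4 + ((‖u‖ ^ 2) ^ 2 - a ^ 4) = (‖u‖ ^ 2) ^ 2 by ring]
    exact Real.sqrt_sq (by positivity)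
  refine ⟨e4, ?_, e1, e2⟩
  unfold bQ
  have e5 : bA2 a (thB a u) / bD (thB a u) = ‖cB u‖ ^ 2 := by
    rw [e4, bD_eq, e1, norm_div, norm_sq_cAB]
    field_simp
    ring
  rw [e5]
  exact Real.sqrt_sq hn.le

theorem eh_FB' (ha : 0 < a) (hu : a < ‖u‖) (h0 : cB u ≠ 0) :
    WPt.mk ehm (ehs a EHI.B1 (thB a u)) = WPt.mk ehm (ehs a EHI.F u) := by
  obtain ⟨e1, e2, e3, e4⟩ := eh_bQ_thB ha hu h0
  have hn : 0 < ‖cB u‖ := norm_pos_iff.2 h0
  have hn' : (‖cB u‖ : ℂ) ≠ 0 := Complex.ofReal_ne_zero.2 hn.ne'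
  symm
  rw [eh_mk_eq]
  refine ⟨conj (cB u) / (‖cB u‖ : ℂ), ?_, ?_, ?_, ?_⟩
  · rw [norm_div, Complex.norm_conj, Complex.norm_real, Real.norm_of_nonneg hn.le,
      div_self hn.ne']
  · simp only [ehs]
    rw [e2, e3]
    have h1 := phase_mul h0
    have h2 : (‖cB u‖ : ℂ) * (cA u / cB u) =
        (conj (cB u) / (‖cB u‖ : ℂ) * cB u) * (cA u / cB u) := by rw [h1]
    rw [h2]
    exact eh_alg1 h0
  · simp only [ehs]
    rw [e2, phase_mul h0]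
  · simp only [ehs]
    rw [e4]
    ring

theorem eh_FB (ha : 0 < a) (hu : a < ‖u‖)
    (h : WPt.mk ehm (ehs a EHI.F u) = WPt.mk ehm (ehs a EHI.B1 y)) :
    cB u ≠ 0 ∧ y = thB a u ∧ bA2 a y = ‖u‖ ^ 2 := by
  obtain ⟨c, hc, h1, h2, h3⟩ := eh_mk_eq.1 h
  simp only [ehs] at h1 h2 h3
  have hq := bQ_pos ha y
  have hq' : ((bQ a y : ℝ) : ℂ) ≠ 0 := Complex.ofReal_ne_zero.2 hq.ne'
  have hB : cB u ≠ 0 := by
    intro h0
    rw [h0, mul_zero] at h2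
    exact hq' h2
  have hn : 0 < ‖cB u‖ := norm_pos_iff.2 hB
  have hn' : (‖cB u‖ : ℂ) ≠ 0 := Complex.ofReal_ne_zero.2 hn.ne'
  have hq2 : bQ a y = ‖cB u‖ := by
    have h4 : ‖((bQ a y : ℝ) : ℂ)‖ = ‖c * cB u‖ := by rw [h2]
    rwa [norm_mul, hc, one_mul, Complex.norm_real, Real.norm_of_nonneg hq.le] at h4
  have hcc : c = conj (cB u) / (‖cB u‖ : ℂ) := by
    have h5 := phase_mul hB
    rw [hq2] at h2
    exact mul_right_cancel₀ hB (by rw [← h2, h5])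
  have hyy : y = thB a u := by
    obtain ⟨e1, e2, e3, e4⟩ := eh_bQ_thB ha hu hB
    refine eh_ext ?_ ?_
    · rw [e3]
      refine mul_left_cancel₀ hq' ?_
      rw [h1, h2]
      field_simp
    · rw [e4, h3, hcc]
      ring
  exact ⟨hB, hyy, by rw [hyy]; exact (eh_bQ_thB ha hu hB).1⟩

theorem eh_BB (ha : 0 < a) (h : WPt.mk ehm (ehs a EHI.B1 y) = WPt.mk ehm (ehs a EHI.B1 y')) :
    y' = y := by
  obtain ⟨c, hc, h1, h2, h3⟩ := eh_mk_eq.1 h
  simp only [ehs] at h1 h2 h3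
  obtain ⟨h4, h5⟩ := eh_unit_real hc (bQ_pos ha y) (bQ_pos ha y').le h2
  have hq' : ((bQ a y : ℝ) : ℂ) ≠ 0 := Complex.ofReal_ne_zero.2 (bQ_pos ha y).ne'
  refine eh_ext ?_ ?_
  · rw [h4, h5, one_mul] at h1
    exact mul_left_cancel₀ hq' h1
  · rw [h3, h4, map_one, one_pow, one_mul]

theorem eh_bQ_thBB (ha : 0 < a) (h0 : cA y ≠ 0) :
    bA2 a (thBB y) = bA2 a y ∧ bQ a (thBB y) = bQ a y * ‖cA y‖ ∧ cA (thBB y) = 1 / cA y ∧
      cB (thBB y) = cB y * (conj (conj (cA y) / (‖cA y‖ : ℂ))) ^ 2 := by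
  have hn : 0 < ‖cA y‖ := norm_pos_iff.2 h0
  have e1 : cA (thBB y) = 1 / cA y := cA_toE _ _
  have e2 : cB (thBB y) = cB y * (conj (conj (cA y) / (‖cA y‖ : ℂ))) ^ 2 := cB_toE _ _
  have e3 : ‖cB (thBB y)‖ = ‖cB y‖ := by
    rw [e2, norm_mul, norm_pow, Complex.norm_conj, norm_div, Complex.norm_conj,
      Complex.norm_real, Real.norm_of_nonneg hn.le, div_self hn.ne', one_pow, mul_one]
  have e4 : bA2 a (thBB y) = bA2 a y := by rw [bA2_eq, bA2_eq, e3]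
  refine ⟨e4, ?_, e1, e2⟩
  have e5 : bA2 a (thBB y) / bD (thBB y) = (bQ a y * ‖cA y‖) ^ 2 := by
    rw [e4, ← bQ_sq ha y, bD_eq, bD_eq, e1, norm_div, norm_one]
    field_simp
    ring
  unfold bQ at e5 ⊢
  rw [e5]
  exact Real.sqrt_sq (by positivity)

theorem eh_BB2' (ha : 0 < a) (h0 : cA y ≠ 0) :
    WPt.mk ehm (ehs a EHI.B2 (thBB y)) = WPt.mk ehm (ehs a EHI.B1 y) := by
  obtain ⟨e1, e2, e3, e4⟩ := eh_bQ_thBB ha h0
  have hn : 0 < ‖cA y‖ := norm_pos_iff.2 h0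
  have hn' : (‖cA y‖ : ℂ) ≠ 0 := Complex.ofReal_ne_zero.2 hn.ne'
  symm
  rw [eh_mk_eq]
  have h1 := phase_mul h0
  refine ⟨conj (cA y) / (‖cA y‖ : ℂ), ?_, ?_, ?_, ?_⟩
  · rw [norm_div, Complex.norm_conj, Complex.norm_real, Real.norm_of_nonneg hn.le,
      div_self hn.ne']
  · simp only [ehs]
    rw [e2]
    push_cast
    linear_combination (-(bQ a y : ℂ)) * h1
  · simp only [ehs]
    rw [e2, e3]
    push_cast
    have h2 : (bQ a y : ℂ) * (‖cA y‖ : ℂ) * (1 / cA y) =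
        (bQ a y : ℂ) * (conj (cA y) / (‖cA y‖ : ℂ) * cA y) * (1 / cA y) := by rw [h1]
    rw [h2]
    exact eh_alg2 h0
  · simp only [ehs]
    rw [e4]
    ring

theorem eh_BB2 (ha : 0 < a) (h : WPt.mk ehm (ehs a EHI.B1 y) = WPt.mk ehm (ehs a EHI.B2 y')) :
    cA y ≠ 0 ∧ y' = thBB y := by
  obtain ⟨c, hc, h1, h2, h3⟩ := eh_mk_eq.1 h
  simp only [ehs] at h1 h2 h3
  have hq := bQ_pos ha y
  have hq' : ((bQ a y : ℝ) : ℂ) ≠ 0 := Complex.ofReal_ne_zero.2 hq.ne'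
  have hp := bQ_pos ha y'
  have hp' : ((bQ a y' : ℝ) : ℂ) ≠ 0 := Complex.ofReal_ne_zero.2 hp.ne'
  have hA : cA y ≠ 0 := by
    intro h0
    rw [h0, mul_zero, mul_zero] at h1
    exact hp' h1
  obtain ⟨e1, e2, e3, e4⟩ := eh_bQ_thBB ha hA
  have hn : 0 < ‖cA y‖ := norm_pos_iff.2 hA
  have hq2 : bQ a y' = bQ a y * ‖cA y‖ := by
    have h4 : ‖((bQ a y' : ℝ) : ℂ)‖ = ‖c * (((bQ a y : ℝ) : ℂ) * cA y)‖ := by rw [h1]
    rwa [norm_mul, norm_mul, hc, one_mul, Complex.norm_real, Complex.norm_real,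
      Real.norm_of_nonneg hq.le, Real.norm_of_nonneg hp.le] at h4
  have hcc : c = conj (cA y) / (‖cA y‖ : ℂ) := by
    have h5 := phase_mul hA
    rw [hq2] at h1
    push_cast at h1
    refine mul_right_cancel₀ hA (mul_left_cancel₀ hq' ?_)
    rw [h5, h1]
    ring
  refine ⟨hA, eh_ext ?_ ?_⟩
  · rw [e3]
    refine mul_left_cancel₀ hp' ?_
    rw [h2, h1]
    field_simp
  · rw [e4, h3, hcc]
    ring

theorem eh_swap {p q : ℂ × ℂ × ℂ} :
    WPt.mk ehm (p.2.1, p.1, p.2.2) = WPt.mk ehm (q.2.1, q.1, q.2.2) ↔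
      WPt.mk ehm p = WPt.mk ehm q := by
  rw [eh_mk_eq, eh_mk_eq]
  constructor
  · rintro ⟨c, h1, h2, h3, h4⟩
    exact ⟨c, h1, h3, h2, h4⟩
  · rintro ⟨c, h1, h2, h3, h4⟩
    exact ⟨c, h1, h3, h2, h4⟩

theorem ehs_swapE (a : ℝ) (u : E4) : ehs a EHI.F (swapE u) =
    ((ehs a EHI.F u).2.1, (ehs a EHI.F u).1, (ehs a EHI.F u).2.2) := by
  simp only [ehs]
  rw [cA_swapE, cB_swapE, yB_swapE]

theorem ehs_B2 (a : ℝ) (u : E4) : ehs a EHI.B2 u =
    ((ehs a EHI.B1 u).2.1, (ehs a EHI.B1 u).1, (ehs a EHI.B1 u).2.2) := rfl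

theorem ehs_F_B2 (a : ℝ) (u y : E4) :
    WPt.mk ehm (ehs a EHI.F u) = WPt.mk ehm (ehs a EHI.B2 y) ↔
      WPt.mk ehm (ehs a EHI.F (swapE u)) = WPt.mk ehm (ehs a EHI.B1 y) := by
  rw [ehs_B2]
  have h1 : ehs a EHI.F u = ((ehs a EHI.F (swapE u)).2.1, (ehs a EHI.F (swapE u)).1,
      (ehs a EHI.F (swapE u)).2.2) := by
    rw [ehs_swapE]
  rw [h1]
  exact eh_swap

theorem eh_FB2' (ha : 0 < a) (hu : a < ‖u‖) (h0 : cA u ≠ 0) :
    WPt.mk ehm (ehs a EHI.B2 (thB2 a u)) = WPt.mk ehm (ehs a EHI.F u) := by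
  symm
  rw [ehs_F_B2]
  exact (eh_FB' ha (by rwa [norm_swapE]) (by rwa [cB_swapE])).symm

theorem eh_FB2 (ha : 0 < a) (hu : a < ‖u‖)
    (h : WPt.mk ehm (ehs a EHI.F u) = WPt.mk ehm (ehs a EHI.B2 y)) :
    cA u ≠ 0 ∧ y = thB2 a u ∧ bA2 a y = ‖u‖ ^ 2 := by
  rw [ehs_F_B2] at h
  obtain ⟨h1, h2, h3⟩ := eh_FB ha (by rwa [norm_swapE]) h
  rw [cB_swapE] at h1
  rw [norm_swapE] at h3
  exact ⟨h1, h2, h3⟩

theorem eh_B2B2 (ha : 0 < a) (h : WPt.mk ehm (ehs a EHI.B2 y) = WPt.mk ehm (ehs a EHI.B2 y')) :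
    y' = y := by
  rw [ehs_B2, ehs_B2, eh_swap] at h
  exact eh_BB ha h

theorem continuous_bA2 (a : ℝ) : Continuous (bA2 a) := by
  unfold bA2
  fun_prop

theorem continuous_bD : Continuous bD := by
  unfold bD
  fun_prop

theorem continuous_bQ (a : ℝ) : Continuous (bQ a) := by
  unfold bQ
  exact ((continuous_bA2 a).div continuous_bD fun u => (bD_pos u).ne').sqrt

theorem continuous_yB (a : ℝ) : Continuous (yB a) := by
  unfold yB
  exact ((contDiff_nsq.continuous.pow 2).sub continuous_const).sqrt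

theorem continuous_ehs (a : ℝ) (i : EHI) : Continuous (ehs a i) := by
  have h1 : Continuous fun u : E4 => ((bQ a u : ℝ) : ℂ) :=
    Complex.continuous_ofReal.comp (continuous_bQ a)
  have h2 : Continuous fun u : E4 => ((yB a u : ℝ) : ℂ) :=
    Complex.continuous_ofReal.comp (continuous_yB a)
  cases i
  · exact cA.continuous.prodMk (cB.continuous.prodMk h2)
  · exact (h1.mul cA.continuous).prodMk (h1.prodMk cB.continuous)
  · exact h1.prodMk ((h1.mul cA.continuous).prodMk cB.continuous)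

end alg

theorem isOpen_ehV (E : EHDat) (i : EHI) : IsOpen (ehV E i) := by
  have h : IsOpen {u | 0 < E.a ∧ bA2 E.a u < E.b ^ 2} := by
    by_cases ha : 0 < E.a
    · simp only [ha, true_and]
      exact isOpen_lt (continuous_bA2 E.a) continuous_const
    · simp only [ha, false_and]
      exact isOpen_empty
  cases i
  · exact isOpen_Ioo.preimage continuous_norm
  · exact h
  · exact h

theorem good_ehV (E : EHDat) (i : EHI) : GoodMet (ehg E i) (ehV E i) := by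
  have h : GoodMet (gB E.a) {u | 0 < E.a ∧ bA2 E.a u < E.b ^ 2} := by
    by_cases ha : 0 < E.a
    · have h0 := goodMet_gB ha
      exact ⟨fun i j => (h0.smooth i j).mono (Set.subset_univ _),
        fun x _ => h0.symm x (Set.mem_univ _), fun x _ => h0.pos x (Set.mem_univ _)⟩
    · have he : {u : E4 | 0 < E.a ∧ bA2 E.a u < E.b ^ 2} = ∅ := by
        ext u
        exact ⟨fun h => absurd h.1 ha, fun h => absurd h (Set.notMem_empty u)⟩
      rw [he]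
      exact ⟨fun i k => contDiffOn_empty, fun x hx => absurd hx (Set.notMem_empty x),
        fun x hx => absurd hx (Set.notMem_empty x)⟩
  cases i
  · exact goodMet_u2Z (fun A hA => E.a_nonneg.trans_lt hA.1) E.U_smooth E.W_smooth E.U_pos E.W_pos
  · exact h
  · exact h

theorem inj_eh (E : EHDat) (i : EHI) (u : E4) (hu : u ∈ ehV E i) :
    ∃ U ∈ 𝓝 u, Set.InjOn (fun v => WPt.mk ehm (ehs E.a i v)) U := by
  cases i
  · refine ⟨Metric.ball u ‖u‖ ∩ ehV E EHI.F, Filter.inter_mem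
      (Metric.ball_mem_nhds u (E.a_nonneg.trans_lt hu.1)) ((isOpen_ehV E EHI.F).mem_nhds hu), ?_⟩
    intro x hx y hy hxy
    rcases eh_FF E.a_nonneg hx.2.1 hxy with h | h
    · exact h.symm
    · exfalso
      have h1 : dist x u < ‖u‖ := hx.1
      have h2 : dist y u < ‖u‖ := hy.1
      rw [h, dist_eq_norm] at h2
      rw [dist_eq_norm] at h1
      have h3 : ‖(x - u) + (-x - u)‖ ≤ ‖x - u‖ + ‖-x - u‖ := norm_add_le _ _
      have h4 : (x - u) + (-x - u) = (-2 : ℝ) • u := by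
        rw [neg_smul, two_smul]
        abel
      rw [h4, norm_smul, norm_neg, Real.norm_of_nonneg (by norm_num : (0 : ℝ) ≤ 2)] at h3
      linarith
  · exact ⟨Set.univ, Filter.univ_mem, fun x _ y _ hxy => (eh_BB hu.1 hxy).symm⟩
  · exact ⟨Set.univ, Filter.univ_mem, fun x _ y _ hxy => (eh_B2B2 hu.1 hxy).symm⟩

theorem eh_id {g : Met} {ψ : E4 → WPt ehm} (u : E4) : ∃ θ : E4 → E4, θ u = u ∧ IsoAt g g θ u ∧
    ∀ᶠ x in 𝓝 u, ψ (θ x) = ψ x := by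
  refine ⟨fun y => y, rfl, ⟨contDiffAt_id, Eventually.of_forall fun y v => ?_⟩,
    Eventually.of_forall fun x => rfl⟩
  have : fderiv ℝ (fun y : E4 => y) y v = v := by
    rw [fderiv_fun_id]
    rfl
  rw [this]

theorem trans_eh (E : EHDat) (i j : EHI) (u : E4) (hu : u ∈ ehV E i) (v : E4) (hv : v ∈ ehV E j)
    (h : WPt.mk ehm (ehs E.a i u) = WPt.mk ehm (ehs E.a j v)) :
    ∃ θ : E4 → E4, θ u = v ∧ IsoAt (ehg E i) (ehg E j) θ u ∧
      ∀ᶠ x in 𝓝 u, WPt.mk ehm (ehs E.a j (θ x)) = WPt.mk ehm (ehs E.a i x) := by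
  -- from `F` to `B1`
  have hlt : ∀ u v : E4, u ∈ ehV E EHI.F → bA2 E.a v < E.b ^ 2 → bA2 E.a v = ‖u‖ ^ 2 →
      ‖u‖ ∈ Set.Ioo E.a E.b := by
    intro u v hu hv h
    rw [h] at hv
    exact ⟨hu.1, lt_of_pow_lt_pow_left₀ 2 (E.a_nonneg.trans E.a_lt.le) hv⟩
  have hev : ∀ u : E4, u ∈ ehV E EHI.F → ∀ᶠ x : E4 in 𝓝 u, E.a < ‖x‖ := fun u hu =>
    continuous_norm.continuousAt.eventually (lt_mem_nhds hu.1)
  have k1 : ∀ u ∈ ehV E EHI.F, ∀ v ∈ ehV E EHI.B1,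
      WPt.mk ehm (ehs E.a EHI.F u) = WPt.mk ehm (ehs E.a EHI.B1 v) →
      ∃ θ : E4 → E4, θ u = v ∧ IsoAt (ehg E EHI.F) (ehg E EHI.B1) θ u ∧
      ∀ᶠ x in 𝓝 u, WPt.mk ehm (ehs E.a EHI.B1 (θ x)) = WPt.mk ehm (ehs E.a EHI.F x) := by
    intro u hu v hv h
    obtain ⟨h1, h2, h3⟩ := eh_FB hv.1 hu.1 h
    refine ⟨thB E.a, h2.symm, isoAt_thB hv.1 isOpen_Ioo (fun A hA => hA.1) (E.U_eq hv.1)
      (E.W_eq hv.1) (hlt u v hu hv.2 h3) h1, ?_⟩
    filter_upwards [hev u hu, cB.continuous.continuousAt.eventually_ne h1] with x x1 x2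
    exact eh_FB' hv.1 x1 x2
  have k2 : ∀ u ∈ ehV E EHI.F, ∀ v ∈ ehV E EHI.B2,
      WPt.mk ehm (ehs E.a EHI.F u) = WPt.mk ehm (ehs E.a EHI.B2 v) →
      ∃ θ : E4 → E4, θ u = v ∧ IsoAt (ehg E EHI.F) (ehg E EHI.B2) θ u ∧
      ∀ᶠ x in 𝓝 u, WPt.mk ehm (ehs E.a EHI.B2 (θ x)) = WPt.mk ehm (ehs E.a EHI.F x) := by
    intro u hu v hv h
    obtain ⟨h1, h2, h3⟩ := eh_FB2 hv.1 hu.1 h
    refine ⟨thB2 E.a, h2.symm, isoAt_thB2 hv.1 isOpen_Ioo (fun A hA => hA.1) (E.U_eq hv.1)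
      (E.W_eq hv.1) (hlt u v hu hv.2 h3) h1, ?_⟩
    filter_upwards [hev u hu, cA.continuous.continuousAt.eventually_ne h1] with x x1 x2
    exact eh_FB2' hv.1 x1 x2
  have k3 : ∀ u ∈ ehV E EHI.B1, ∀ v ∈ ehV E EHI.B2,
      WPt.mk ehm (ehs E.a EHI.B1 u) = WPt.mk ehm (ehs E.a EHI.B2 v) →
      ∃ θ : E4 → E4, θ u = v ∧ IsoAt (ehg E EHI.B1) (ehg E EHI.B2) θ u ∧
      ∀ᶠ x in 𝓝 u, WPt.mk ehm (ehs E.a EHI.B2 (θ x)) = WPt.mk ehm (ehs E.a EHI.B1 x) := by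
    intro u hu v hv h
    obtain ⟨h1, h2⟩ := eh_BB2 hv.1 h
    refine ⟨thBB, h2.symm, isoAt_thBB hv.1 h1, ?_⟩
    filter_upwards [cA.continuous.continuousAt.eventually_ne h1] with x x1
    exact eh_BB2' hv.1 x1
  refine trans_of_or (ψ := fun i u => WPt.mk ehm (ehs E.a i u)) (isOpen_ehV E) (good_ehV E) ?_ i j
    u hu v hv h
  intro i j u hu v hv h
  cases i <;> cases j
  · left
    rcases eh_FF E.a_nonneg hu.1 h with rfl | rfl
    · exact eh_id (g := ehg E EHI.F) (ψ := fun x => WPt.mk ehm (ehs E.a EHI.F x)) v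
    · refine ⟨fun y => -y, rfl, isoAt_neg_u2Z _ _ u, Eventually.of_forall fun x => ?_⟩
      rw [eq_comm, eh_mk_eq]
      refine ⟨-1, by simp, ?_, ?_, ?_⟩
      · simp [ehs]
      · simp [ehs]
      · simp only [ehs]
        have : yB E.a (-x) = yB E.a x := by
          unfold yB
          rw [nsq_neg']
        rw [this]
        simp
  · left
    exact k1 u hu v hv h
  · left
    exact k2 u hu v hv h
  · right
    exact k1 v hv u hu h.symm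
  · left
    have := eh_BB hv.1 h
    subst this
    exact eh_id (g := ehg E EHI.B1) (ψ := fun x => WPt.mk ehm (ehs E.a EHI.B1 x)) v
  · left
    exact k3 u hu v hv h
  · right
    exact k2 v hv u hu h.symm
  · right
    exact k3 v hv u hu h.symm
  · left
    have := eh_B2B2 hv.1 h
    subst this
    exact eh_id (g := ehg E EHI.B2) (ψ := fun x => WPt.mk ehm (ehs E.a EHI.B2 x)) v

/-- The Eguchi-Hanson pre-patchwork. -/
noncomputable def ehP (E : EHDat) : PreP where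
  ι := EHI
  V := ehV E
  g := ehg E
  Pt := WPt ehm
  ψ := fun i u => WPt.mk ehm (ehs E.a i u)
  isOpen_V := isOpen_ehV E
  good := good_ehV E
  inj := inj_eh E
  trans := trans_eh E
  sep := fun i j _ _ _ _ h => w_sep (continuous_ehs E.a i).continuousAt
    (continuous_ehs E.a j).continuousAt h

/-- The radius `A`. -/
noncomputable def ehR : WPt ehm → ℝ :=
  WPt.lift (fun p => √(‖p.1‖ ^ 2 + ‖p.2.1‖ ^ 2)) (by
    intro c p hc
    simp [wAct, ehm, hc])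

theorem ehR_mk (p : ℂ × ℂ × ℂ) : ehR (WPt.mk ehm p) = √(‖p.1‖ ^ 2 + ‖p.2.1‖ ^ 2) := rfl

theorem ehR_F (a : ℝ) (u : E4) : ehR (WPt.mk ehm (ehs a EHI.F u)) = ‖u‖ := by
  rw [ehR_mk]
  simp only [ehs]
  rw [← norm_sq_cAB, Real.sqrt_sq (norm_nonneg u)]

theorem ehR_B1 {a : ℝ} (ha : 0 < a) (u : E4) :
    ehR (WPt.mk ehm (ehs a EHI.B1 u)) = √(bA2 a u) := by
  rw [ehR_mk]
  simp only [ehs]
  rw [norm_mul, Complex.norm_real, Real.norm_of_nonneg (bQ_pos ha u).le, ← bQ_sq ha u, bD_eq]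
  congr 1
  ring

theorem ehR_B2 {a : ℝ} (ha : 0 < a) (u : E4) :
    ehR (WPt.mk ehm (ehs a EHI.B2 u)) = √(bA2 a u) := by
  rw [ehR_mk]
  simp only [ehs]
  rw [norm_mul, Complex.norm_real, Real.norm_of_nonneg (bQ_pos ha u).le, ← bQ_sq ha u, bD_eq]
  congr 1
  ring

theorem continuous_ehR (a : ℝ) (i : EHI) :
    Continuous fun u => ehR (WPt.mk ehm (ehs a i u)) := by
  have h := continuous_ehs a i
  have h1 : (fun u => ehR (WPt.mk ehm (ehs a i u))) =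
      fun u => √(‖(ehs a i u).1‖ ^ 2 + ‖(ehs a i u).2.1‖ ^ 2) := rfl
  rw [h1]
  exact (((continuous_fst.comp h).norm.pow 2).add
    ((continuous_fst.comp (continuous_snd.comp h)).norm.pow 2)).sqrt

/-- In the charts of the bolt the radius is less than `b`. -/
theorem ehR_lt (E : EHDat) {i : EHI} {u : E4} (hu : u ∈ ehV E i) (h : E.b ≤ ehR (WPt.mk ehm
    (ehs E.a i u))) : i = EHI.F := by
  have hb : 0 < E.b := E.a_nonneg.trans_lt E.a_lt
  cases i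
  · rfl
  · exfalso
    rw [ehR_B1 hu.1] at h
    have := Real.sqrt_lt_sqrt (bA2_pos hu.1 u).le hu.2
    rw [Real.sqrt_sq hb.le] at this
    linarith
  · exfalso
    rw [ehR_B2 hu.1] at h
    have := Real.sqrt_lt_sqrt (bA2_pos hu.1 u).le hu.2
    rw [Real.sqrt_sq hb.le] at this
    linarith

theorem eh_FF_iff (E : EHDat) {u u' : E4} (hu : u ∈ ehV E EHI.F) :
    WPt.mk ehm (ehs E.a EHI.F u) = WPt.mk ehm (ehs E.a EHI.F u') ↔ u' = u ∨ u' = -u := by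
  constructor
  · exact eh_FF E.a_nonneg hu.1
  · rintro (rfl | rfl)
    · rfl
    · rw [eh_mk_eq]
      refine ⟨-1, by simp, ?_, ?_, ?_⟩
      · simp [ehs]
      · simp [ehs]
      · simp only [ehs]
        have : yB E.a (-u) = yB E.a u := by
          unfold yB
          rw [nsq_neg']
        rw [this]
        simp

theorem eh_lt_norm {a : ℝ} (ha : 0 < a) {q : E4} (h : a < √(bA2 a q)) : cB q ≠ 0 := by
  intro h0
  rw [bA2_eq, h0, norm_zero] at h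
  have h1 : √(a ^ 4 + 0 ^ 2) = a ^ 2 := by
    rw [show a ^ 4 + 0 ^ 2 = (a ^ 2) ^ 2 by ring]
    exact Real.sqrt_sq (by positivity)
  rw [h1, Real.sqrt_sq ha.le] at h
  exact lt_irrefl _ h

/-- Outside the bolt every point is in the annulus patch. -/
theorem eh_exists_F (E : EHDat) {j : EHI} {q : E4} (hq : q ∈ ehV E j)
    (h : E.a < ehR (WPt.mk ehm (ehs E.a j q))) : ∃ u ∈ ehV E EHI.F,
      WPt.mk ehm (ehs E.a EHI.F u) = WPt.mk ehm (ehs E.a j q) := by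
  have hb : 0 < E.b := E.a_nonneg.trans_lt E.a_lt
  have key : ∀ q : E4, q ∈ ehV E EHI.B1 → E.a < √(bA2 E.a q) → ∃ u ∈ ehV E EHI.F,
      WPt.mk ehm (ehs E.a EHI.F u) = WPt.mk ehm (ehs E.a EHI.B1 q) := by
    intro q hq h
    obtain ⟨u, hu1, hu2, hu3⟩ := exists_thB hq.1 (eh_lt_norm hq.1 h)
    obtain ⟨e1, -⟩ := eh_bQ_thB hq.1 hu1 hu2
    refine ⟨u, ⟨hu1, ?_⟩, ?_⟩
    · have h1 : ‖u‖ ^ 2 < E.b ^ 2 := by
        rw [← e1, hu3]
        exact hq.2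
      exact (lt_of_pow_lt_pow_left₀ 2 hb.le h1).trans_le E.b_le
    · rw [← hu3]
      exact (eh_FB' hq.1 hu1 hu2).symm
  cases j
  · exact ⟨q, hq, rfl⟩
  · rw [ehR_B1 hq.1] at h
    exact key q hq h
  · rw [ehR_B2 hq.1] at h
    obtain ⟨u, hu, hu2⟩ := key q hq h
    refine ⟨swapE u, ?_, ?_⟩
    · show ‖swapE u‖ ∈ Set.Ioo E.a E.r
      rw [norm_swapE]
      exact hu
    · rw [ehs_swapE, ehs_B2]
      exact eh_swap.2 hu2

theorem ricGE_mono {g : Met} {V : Set E4} (hg : GoodMet g V) {x : E4} (hx : x ∈ V) {κ κ' : ℝ}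
    (h : RicGE g κ x) (hκ : κ' ≤ κ) : RicGE g κ' x := by
  intro v
  refine le_trans (mul_le_mul_of_nonneg_right hκ ?_) (h v)
  by_cases hv : v = 0
  · subst hv
    unfold qf
    simp
  · exact (hg.pos x hx v hv).le

open Classical in
/-- Gluing of the Eguchi-Hanson space (if `c` holds) to a space which contains the annulus
`r0 < |u| < r` modulo `± 1`; `a ≤ r0`. -/
noncomputable def ehGlue (P : PreP) (E : EHDat) (c : Prop) (r0 : ℝ) (hr0 : E.a ≤ r0)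
    (e : E4 → P.Pt) (rP : P.Pt → ℝ)
    (he : c → ∀ u u' : E4, ‖u‖ ∈ Set.Ioo r0 E.r → ‖u'‖ ∈ Set.Ioo r0 E.r →
      (e u = e u' ↔ u' = u ∨ u' = -u))
    (het : c → ∀ u : E4, ‖u‖ ∈ Set.Ioo r0 E.r → ∃ (i : P.ι) (θ : E4 → E4), θ u ∈ P.V i ∧
      IsoAt (u2Z E.U E.W) (P.g i) θ u ∧ ∀ᶠ x in 𝓝 u, P.ψ i (θ x) = e x)
    (hc : c → ∀ i, ∀ a ∈ P.V i, ContinuousAt (fun x => rP (P.ψ i x)) a)
    (hp : c → ∀ i, ∀ a ∈ P.V i, 0 < rP (P.ψ i a))
    (hE : c → ∀ u : E4, ‖u‖ ∈ Set.Ioo r0 E.r → rP (e u) = ‖u‖ - r0) :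
    PreP.GlueData P ((ehP E).restr c) where
  rQ := fun p : WPt ehm => ehR p - r0
  D := {EHI.F}
  E := fun _ => e
  K := Unit
  κ := fun _ => ()
  rP := fun _ => if c then rP else fun _ => 1
  rQ_cont := fun j q _ => ((continuous_ehR E.a j).sub continuous_const).continuousAt
  cover := by
    intro j q hq h
    have h2 : 0 < ehR (WPt.mk ehm (ehs E.a j q)) - r0 := h
    obtain ⟨u, hu, hu2⟩ := eh_exists_F E (j := j) (q := q) hq.2 (by linarith)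
    exact ⟨EHI.F, rfl, u, ⟨hq.1, hu⟩, hu2⟩
  E_iff := by
    rintro d rfl u hu d' rfl u' hu' h h'
    have h1 : 0 < ehR (WPt.mk ehm (ehs E.a EHI.F u)) - r0 := h
    have h2 : 0 < ehR (WPt.mk ehm (ehs E.a EHI.F u')) - r0 := h'
    rw [ehR_F] at h1 h2
    exact (he hu.1 u u' ⟨by linarith, hu.2.2⟩ ⟨by linarith, hu'.2.2⟩).trans
      (eh_FF_iff E hu.2).symm
  etale := by
    rintro d rfl u hu h
    have h1 : 0 < ehR (WPt.mk ehm (ehs E.a EHI.F u)) - r0 := h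
    rw [ehR_F] at h1
    exact het hu.1 u ⟨by linarith, hu.2.2⟩
  κ_eq := fun _ _ _ _ _ _ _ => rfl
  rP_cont := by
    intro _ i a ha
    by_cases h : c
    · simp only [if_pos h]
      exact hc h i a ha
    · simp only [if_neg h]
      exact continuousAt_const
  rP_pos := by
    intro _ i a ha
    by_cases h : c
    · simp only [if_pos h]
      exact hp h i a ha
    · simp only [if_neg h]
      exact one_pos
  rP_E := by
    rintro d rfl u hu h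
    have h1 : 0 < ehR (WPt.mk ehm (ehs E.a EHI.F u)) - r0 := h
    rw [ehR_F] at h1
    have h2 : ehR (WPt.mk ehm (ehs E.a EHI.F u)) - r0 = ‖u‖ - r0 := by rw [ehR_F]
    simp only [if_pos hu.1]
    exact (hE hu.1 u ⟨by linarith, hu.2.2⟩).trans h2.symm

end Pool.Agent.W_MP_654ec6
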