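import Pool.Agent.W_MP_654ec6.E.U2ZRic
import Pool.Agent.W_MP_654ec6.F.Defs
import Pool.Agent.W_MP_654ec6.F.EH

/-!
# Part F: the functions `U, W` of the cores and of the middle point

`Core.U K a`, `Core.W K a`: equal to `ehU A0 a` for `A ≤ A0` (where `v = 0`) and to
`1 - v`, `(1 - v)/(1 - 3 v/4)` for `A ≥ 3 A0/4` (where `χ = 0`).
-/

open scoped ContDiff Topology
open Filter Real

namespace Pool.Agent.W_MP_654ec6

theorem ehChi_zero {A₀ A : ℝ} (hA₀ : 0 < A₀) (h : 3 / 4 * A₀ ≤ A) : ehChi A₀ A = 0 := by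
  unfold ehChi
  rw [Real.smoothTransition.one_of_one_le, sub_self]
  rw [le_sub_iff_add_le, le_div_iff₀ hA₀]
  linarith

theorem ehChi_one {A₀ A : ℝ} (hA₀ : 0 < A₀) (h : A ≤ A₀ / 2) : ehChi A₀ A = 1 := by
  unfold ehChi
  rw [Real.smoothTransition.zero_of_nonpos, sub_zero]
  rw [sub_nonpos, div_le_iff₀ hA₀]
  linarith

theorem contDiffAt_ehU {A₀ a A : ℝ} (hA : 0 < A) : ContDiffAt ℝ ∞ (ehU A₀ a) A := by
  unfold ehU
  exact contDiffAt_const.sub ((((flat_chi_contDiff A₀).contDiffAt).mul contDiffAt_const).div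
    (contDiffAt_id.pow 4) (pow_ne_zero 4 hA.ne'))

/-- The curvature condition depends only on the germs. -/
theorem u2OK_congr {U W U' W' : ℝ → ℝ} {κ A : ℝ} (hU : U' =ᶠ[𝓝 A] U) (hW : W' =ᶠ[𝓝 A] W)
    (h : U2OK U W κ A) : U2OK U' W' κ A := by
  have h1 : deriv U' A = deriv U A := hU.deriv_eq
  have h2 : u2om W' =ᶠ[𝓝 A] u2om W := by
    filter_upwards [hW, hW.deriv] with x hx hx'
    unfold u2om
    rw [hx, hx']
  have h3 : deriv (u2om W') A = deriv (u2om W) A := h2.deriv_eq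
  have h4 := h2.eq_of_nhds
  have h5 := hU.eq_of_nhds
  have h6 := hW.eq_of_nhds
  unfold U2OK u2R0 u2R1 u2R3 at h ⊢
  rw [h1, h3, h4, h5, h6]
  exact h

theorem u2OK_mono {U W : ℝ → ℝ} {κ κ' A : ℝ} (h : U2OK U W κ A) (hκ : κ ≤ κ') :
    U2OK U W κ' A := by
  obtain ⟨h1, h2, h3⟩ := h
  exact ⟨by linarith, by linarith, by linarith⟩

namespace Core

variable (K : Core) {a A : ℝ}

theorem sin_pos : 0 < sin K.t0 :=
  sin_pos_of_pos_of_lt_pi K.isCore.t0_pos (by linarith [K.isCore.t0_lt, pi_gt_three])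

theorem sin_lt : sin K.t0 < 1 / 100 :=
  lt_of_lt_of_le (Real.sin_lt K.isCore.t0_pos) K.isCore.t0_lt.le

theorem sin_half_pos : 0 < sin (K.t0 / 2) / 2 := by
  have h1 := K.isCore.t0_pos
  have h2 := K.isCore.t0_lt
  have : 0 < sin (K.t0 / 2) :=
    sin_pos_of_pos_of_lt_pi (by linarith) (by linarith [pi_gt_three])
  linarith

theorem sin_half_lt : sin (K.t0 / 2) / 2 < sin K.t0 := by
  have h1 := K.isCore.t0_pos
  have h2 := K.isCore.t0_lt
  have h3 : sin (K.t0 / 2) ≤ sin K.t0 := by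
    apply Real.sin_le_sin_of_le_of_le_pi_div_two <;> linarith [pi_gt_three]
  have h4 := K.sin_half_pos
  linarith

theorem v_le (h0 : 0 < A) (h : A < sin K.t0) : K.v A ≤ 1 / 4 ∧ A * deriv K.v A ≤ 1 / 2 := by
  obtain ⟨h1, h2⟩ := K.v_bound A h0
  have h3 : max A (sin (K.t0 / 2) / 2) ≤ 1 / 100 :=
    max_le (by linarith [K.sin_lt]) (by linarith [K.sin_half_lt, K.sin_lt])
  have h4 : 0 < max A (sin (K.t0 / 2) / 2) := lt_max_of_lt_left h0
  have h5 : max A (sin (K.t0 / 2) / 2) ^ 2 ≤ (1 / 100) ^ 2 := pow_le_pow_left₀ h4.le h3 2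
  constructor
  · linarith
  · linarith

theorem U_of_le (a : ℝ) (h : A ≤ K.A0) : K.U a A = ehU K.A0 a A := by
  unfold Core.U ehU
  rw [K.v_zero A h]
  ring

theorem W_of_le (a : ℝ) (h : A ≤ K.A0) : K.W a A = ehU K.A0 a A := by
  unfold Core.W ehU
  rw [K.v_zero A h]
  ring

theorem U_of_ge (a : ℝ) (h : 3 / 4 * K.A0 ≤ A) : K.U a A = 1 - K.v A := by
  unfold Core.U
  rw [ehChi_zero K.A0_pos h]
  ring

theorem W_of_ge (a : ℝ) (h : 3 / 4 * K.A0 ≤ A) :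
    K.W a A = (1 - K.v A) / (1 - 3 / 4 * K.v A) := by
  unfold Core.W
  rw [ehChi_zero K.A0_pos h]
  ring

theorem U_end (a : ℝ) (h : sin (K.t0 / 2) / 2 ≤ A) : K.U a A = 1 - A ^ 2 := by
  rw [K.U_of_ge a (by linarith [K.A0_lt, K.A0_pos]), K.v_end A h]

theorem W_end (a : ℝ) (h : sin (K.t0 / 2) / 2 ≤ A) :
    K.W a A = (1 - A ^ 2) / (1 - 3 / 4 * A ^ 2) := by
  rw [K.W_of_ge a (by linarith [K.A0_lt, K.A0_pos]), K.v_end A h]

theorem U_start (a : ℝ) (h : A ≤ K.A0 / 2) : K.U a A = 1 - a ^ 4 / A ^ 4 := by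
  rw [K.U_of_le a (by linarith [K.A0_pos]), ehU, ehChi_one K.A0_pos h, one_mul]

theorem W_start (a : ℝ) (h : A ≤ K.A0 / 2) : K.W a A = 1 - a ^ 4 / A ^ 4 := by
  rw [K.W_of_le a (by linarith [K.A0_pos]), ehU, ehChi_one K.A0_pos h, one_mul]

theorem U_smooth (h0 : 0 < A) : ContDiffAt ℝ ∞ (K.U a) A := by
  unfold Core.U
  exact (contDiffAt_const.sub K.v_smooth.contDiffAt).sub
    ((((flat_chi_contDiff K.A0).contDiffAt).mul contDiffAt_const).div
      (contDiffAt_id.pow 4) (pow_ne_zero 4 h0.ne'))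

theorem W_smooth (h0 : 0 < A) (h : A < sin K.t0) : ContDiffAt ℝ ∞ (K.W a) A := by
  unfold Core.W
  have h1 : 1 - 3 / 4 * K.v A ≠ 0 := by linarith [(K.v_le h0 h).1]
  exact ((contDiffAt_const.sub K.v_smooth.contDiffAt).div
    (contDiffAt_const.sub (contDiffAt_const.mul K.v_smooth.contDiffAt)) h1).sub
    ((((flat_chi_contDiff K.A0).contDiffAt).mul contDiffAt_const).div
      (contDiffAt_id.pow 4) (pow_ne_zero 4 h0.ne'))

theorem U_pos (h0 : 0 < A) (h : A < sin K.t0) (hr : 0 < ehU K.A0 a A) : 0 < K.U a A := by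
  rcases le_or_gt A K.A0 with h1 | h1
  · rw [K.U_of_le a h1]
    exact hr
  · rw [K.U_of_ge a (by linarith [K.A0_pos])]
    linarith [(K.v_le h0 h).1]

theorem W_pos (h0 : 0 < A) (h : A < sin K.t0) (hr : 0 < ehU K.A0 a A) : 0 < K.W a A := by
  rcases le_or_gt A K.A0 with h1 | h1
  · rw [K.W_of_le a h1]
    exact hr
  · rw [K.W_of_ge a (by linarith [K.A0_pos])]
    have h2 := (K.v_le h0 h).1
    exact div_pos (by linarith) (by linarith)

/-- The curvature condition of the patch F. -/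
theorem u2OK_core (h0 : 0 < A) (h : A < sin K.t0) {κ : ℝ} (hκ : 0 ≤ κ)
    (hr : U2OK (ehU K.A0 a) (ehU K.A0 a) κ A) : U2OK (K.U a) (K.W a) κ A := by
  have hA0 := K.A0_pos
  rcases lt_or_ge A K.A0 with h1 | h1
  · refine u2OK_congr ?_ ?_ hr
    · filter_upwards [gt_mem_nhds h1] with x hx
      exact K.U_of_le a (le_of_lt hx)
    · filter_upwards [gt_mem_nhds h1] with x hx
      exact K.W_of_le a (le_of_lt hx)
  · have h2 : 3 / 4 * K.A0 < A := by linarith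
    refine u2OK_congr (U := fun A => 1 - K.v A)
      (W := fun A => (1 - K.v A) / (1 - 3 / 4 * K.v A)) ?_ ?_ (u2OK_mono (u2OK_flat h0 K.v_smooth
        (K.v_nonneg A) (K.v_deriv A) (K.v_deriv2 A) (K.v_le h0 h).1 (K.v_le h0 h).2) hκ)
    · filter_upwards [lt_mem_nhds h2] with x hx
      exact K.U_of_ge a (le_of_lt hx)
    · filter_upwards [lt_mem_nhds h2] with x hx
      exact K.W_of_ge a (le_of_lt hx)

theorem goodMet_gF (ha : 0 ≤ a) (hr : ∀ A > a, 0 < ehU K.A0 a A) :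
    GoodMet (gF K a) {u | ‖u‖ ∈ Set.Ioo a (sin K.t0)} :=
  goodMet_u2Z (fun _ hA => ha.trans_lt hA.1) (fun _ hA => K.U_smooth (ha.trans_lt hA.1))
    (fun _ hA => K.W_smooth (ha.trans_lt hA.1) hA.2)
    (fun _ hA => K.U_pos (ha.trans_lt hA.1) hA.2 (hr _ hA.1))
    (fun _ hA => K.W_pos (ha.trans_lt hA.1) hA.2 (hr _ hA.1))

/-- The Ricci curvature in the patch F. -/
theorem ricGE_gF (ha : 0 ≤ a) {κ : ℝ} (hκ : 0 ≤ κ)
    (hr : ∀ A > a, 0 < ehU K.A0 a A ∧ U2OK (ehU K.A0 a) (ehU K.A0 a) κ A) {u : E4}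
    (hu : ‖u‖ ∈ Set.Ioo a (sin K.t0)) : RicGE (gF K a) (-κ) u :=
  ricGE_u2Z isOpen_Ioo (fun _ hA => ha.trans_lt hA.1) (fun _ hA => K.U_smooth (ha.trans_lt hA.1))
    (fun _ hA => K.W_smooth (ha.trans_lt hA.1) hA.2)
    (fun _ hA => K.U_pos (ha.trans_lt hA.1) hA.2 (hr _ hA.1).1)
    (fun _ hA => K.W_pos (ha.trans_lt hA.1) hA.2 (hr _ hA.1).1) hu
    (K.u2OK_core (ha.trans_lt hu.1) hu.2 hκ (hr _ hu.1).2)

/-- The Eguchi-Hanson data of the core. -/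
noncomputable def eh (a : ℝ) (ha : 0 ≤ a) (ha' : a < K.A0 / 2)
    (hr : ∀ A > a, 0 < ehU K.A0 a A) : EHDat where
  a := a
  b := K.A0 / 2
  r := sin K.t0
  U := K.U a
  W := K.W a
  a_nonneg := ha
  a_lt := ha'
  b_le := by linarith [K.A0_lt, K.A0_pos, K.sin_half_lt]
  U_smooth := fun _ hA => K.U_smooth (ha.trans_lt hA.1)
  W_smooth := fun _ hA => K.W_smooth (ha.trans_lt hA.1) hA.2
  U_pos := fun _ hA => K.U_pos (ha.trans_lt hA.1) hA.2 (hr _ hA.1)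
  W_pos := fun _ hA => K.W_pos (ha.trans_lt hA.1) hA.2 (hr _ hA.1)
  U_eq := fun _ _ hA => K.U_start a hA.2.le
  W_eq := fun _ _ hA => K.W_start a hA.2.le

end Core

/-- For `a = 0` the function `ehU` is constant. -/
theorem ehU_zero (A₀ A : ℝ) : ehU A₀ 0 A = 1 := by
  unfold ehU
  simp

theorem ehU_flat {A₀ A : ℝ} (a : ℝ) (hA₀ : 0 < A₀) (h : 3 / 4 * A₀ ≤ A) : ehU A₀ a A = 1 := by
  unfold ehU
  rw [ehChi_zero hA₀ h]
  simp

/-- The curvature condition for `a = 0`. -/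
theorem u2OK_zero (A₀ : ℝ) {κ A : ℝ} (_hA : 0 < A) (hκ : 0 ≤ κ) :
    0 < ehU A₀ 0 A ∧ U2OK (ehU A₀ 0) (ehU A₀ 0) κ A := by
  have h1 : ehU A₀ 0 = fun _ => 1 := funext (ehU_zero A₀)
  rw [h1]
  refine ⟨one_pos, ?_⟩
  have h2 : u2om (fun _ => (1 : ℝ)) = fun _ => 0 := by
    funext x
    unfold u2om
    simp
  unfold U2OK u2R0 u2R1 u2R3
  rw [h2]
  simp only [deriv_const]
  refine ⟨?_, ?_, ?_⟩
  · simp only [zero_div, zero_mul, mul_zero, neg_zero, sub_zero]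
    norm_num
    exact hκ
  · ring_nf
    exact hκ
  · ring_nf
    exact hκ

/-- The Eguchi-Hanson data of the middle point. -/
noncomputable def midEH (ρ a : ℝ) (ha : 0 ≤ a) (ha' : a < ρ / 2)
    (hr : ∀ A > a, 0 < ehU ρ a A) : EHDat where
  a := a
  b := ρ / 2
  r := 2 * ρ
  U := ehU ρ a
  W := ehU ρ a
  a_nonneg := ha
  a_lt := ha'
  b_le := by linarith
  U_smooth := fun _ hA => contDiffAt_ehU (ha.trans_lt hA.1)
  W_smooth := fun _ hA => contDiffAt_ehU (ha.trans_lt hA.1)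
  U_pos := fun _ hA => hr _ hA.1
  W_pos := fun _ hA => hr _ hA.1
  U_eq := fun _ A hA => by
    have hρ : 0 < ρ := by linarith
    rw [ehU, ehChi_one hρ hA.2.le, one_mul]
  W_eq := fun _ A hA => by
    have hρ : 0 < ρ := by linarith
    rw [ehU, ehChi_one hρ hA.2.le, one_mul]

/-- The metric `u2Z` is flat where `U = W = 1`. -/
theorem u2Z_flat {U W : ℝ → ℝ} {u : E4} (hU : U ‖u‖ = 1) (hW : W ‖u‖ = 1) :
    u2Z U W u = 1 := by
  unfold u2Z u2Met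
  ext i j
  simp only [Matrix.of_apply, Matrix.one_apply, sqrt_nsq]
  rw [hU, hW]
  simp

end Pool.Agent.W_MP_654ec6
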