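import Pool.Agent.W_MP_654ec6.E.BoltRic
import Pool.Agent.W_MP_654ec6.F.EH

/-!
# The Ricci curvature of the Eguchi-Hanson blocks
-/

open scoped ContDiff Topology ComplexConjugate
open Filter Real

namespace Pool.Agent.W_MP_654ec6

/-- The Ricci curvature of the patches. -/
theorem ehRic (E : EHDat) {κ : ℝ} (hκ : 0 ≤ κ) (h : ∀ A ∈ Set.Ioo E.a E.r, U2OK E.U E.W κ A)
    (i : EHI) {u : E4} (hu : u ∈ ehV E i) : RicGE (ehg E i) (-κ) u := by
  cases i
  · exact ricGE_u2Z isOpen_Ioo (fun A hA => E.a_nonneg.trans_lt hA.1) E.U_smooth E.W_smooth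
      E.U_pos E.W_pos hu (h _ hu)
  · exact ricGE_mono (goodMet_gB hu.1) (Set.mem_univ u) (ricGE_gB hu.1 u) (by linarith)
  · exact ricGE_mono (goodMet_gB hu.1) (Set.mem_univ u) (ricGE_gB hu.1 u) (by linarith)

end Pool.Agent.W_MP_654ec6
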