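import Pool.Agent.W_MP_654ec6.F.Pre

/-!
# Part F: functions on glued spaces, and labels
-/

open scoped ContDiff Topology
open Filter

namespace Pool.Agent.W_MP_654ec6

namespace PreP

theorem elim_glueMap {P Q : PreP} (G : GlueData P Q) {α : Type} {fP : P.Pt → α} {fQ : Q.Pt → α}
    (hE : ∀ d ∈ G.D, ∀ u ∈ Q.V d, 0 < G.rQ (Q.ψ d u) → fP (G.E d u) = fQ (Q.ψ d u)) {j : Q.ι}
    {b : E4} (hb : b ∈ Q.V j) : Sum.elim fP fQ (glueMap G (Q.ψ j b)) = fQ (Q.ψ j b) := by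
  by_cases h : 0 < G.rQ (Q.ψ j b)
  · obtain ⟨d, hd, u, hu, e1, h1, e2⟩ := Pre_glueMap_pos G hb h
    rw [e2, Sum.elim_inl, hE d hd u hu h1, e1]
  · rw [glueMap_of_le G (not_lt.1 h), Sum.elim_inr]

/-- A function on the glued space is continuous along the patches if both parts are and they
agree on the collar. -/
theorem glue_cont {P Q : PreP} (G : GlueData P Q) {fP : P.Pt → ℝ} {fQ : Q.Pt → ℝ}
    (hP : ∀ i, ∀ a ∈ P.V i, ContinuousAt (fun x => fP (P.ψ i x)) a)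
    (hQ : ∀ j, ∀ a ∈ Q.V j, ContinuousAt (fun x => fQ (Q.ψ j x)) a)
    (hE : ∀ d ∈ G.D, ∀ u ∈ Q.V d, 0 < G.rQ (Q.ψ d u) → fP (G.E d u) = fQ (Q.ψ d u))
    (i : (glue P Q G).ι) (a : E4) (ha : a ∈ (glue P Q G).V i) :
    ContinuousAt (fun x => Sum.elim fP fQ ((glue P Q G).ψ i x)) a := by
  rcases i with i | j
  · exact hP i a ha
  · have h1 : (fun x => Sum.elim fP fQ ((glue P Q G).ψ (Sum.inr j) x)) =ᶠ[𝓝 a]
        fun x => fQ (Q.ψ j x) := by
      filter_upwards [(Q.isOpen_V j).mem_nhds ha] with x hx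
      exact elim_glueMap G hE hx
    exact (hQ j a ha).congr h1.symm

/-- Positivity of a function on the glued space. -/
theorem glue_pos {P Q : PreP} (G : GlueData P Q) {fP : P.Pt → ℝ} {fQ : Q.Pt → ℝ}
    (hP : ∀ i, ∀ a ∈ P.V i, 0 < fP (P.ψ i a)) (hQ : ∀ j, ∀ a ∈ Q.V j, 0 < fQ (Q.ψ j a))
    (hE : ∀ d ∈ G.D, ∀ u ∈ Q.V d, 0 < G.rQ (Q.ψ d u) → fP (G.E d u) = fQ (Q.ψ d u))
    (i : (glue P Q G).ι) (a : E4) (ha : a ∈ (glue P Q G).V i) :
    0 < Sum.elim fP fQ ((glue P Q G).ψ i a) := by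
  rcases i with i | j
  · exact hP i a ha
  · have h1 : Sum.elim fP fQ ((glue P Q G).ψ (Sum.inr j) a) = fQ (Q.ψ j a) :=
      elim_glueMap G hE ha
    rw [h1]
    exact hQ j a ha

/-- Two labels of `P` represent the same point of the glued space iff they do in `P`. -/
theorem glue_inl_iff {P Q : PreP} (G : GlueData P Q) {i j : P.ι} {a b : E4} :
    (glue P Q G).ψ (Sum.inl i) a = (glue P Q G).ψ (Sum.inl j) b ↔ P.ψ i a = P.ψ j b :=
  ⟨fun h => Sum.inl_injective h, fun h => congrArg Sum.inl h⟩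

/-- Two labels of `Q` represent the same point of the glued space iff they do in `Q`. -/
theorem glue_inr_iff {P Q : PreP} (G : GlueData P Q) {i j : Q.ι} {a b : E4} (ha : a ∈ Q.V i)
    (hb : b ∈ Q.V j) :
    (glue P Q G).ψ (Sum.inr i) a = (glue P Q G).ψ (Sum.inr j) b ↔ Q.ψ i a = Q.ψ j b :=
  glueMap_inj G ha hb

/-- A label of `P` and a label of `Q` represent the same point of the glued space iff the latter
is in the collar and is mapped to the former. -/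
theorem glue_inl_inr_iff {P Q : PreP} (G : GlueData P Q) {i : P.ι} {j : Q.ι} {a b : E4}
    (hb : b ∈ Q.V j) :
    (glue P Q G).ψ (Sum.inl i) a = (glue P Q G).ψ (Sum.inr j) b ↔ 0 < G.rQ (Q.ψ j b) ∧
      ∃ d ∈ G.D, ∃ u ∈ Q.V d, Q.ψ d u = Q.ψ j b ∧ G.E d u = P.ψ i a := by
  constructor
  · intro h
    have h : Sum.inl (P.ψ i a) = glueMap G (Q.ψ j b) := h
    by_cases h0 : 0 < G.rQ (Q.ψ j b)
    · obtain ⟨d, hd, u, hu, e1, h1, e2⟩ := Pre_glueMap_pos G hb h0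
      rw [e2] at h
      exact ⟨h0, d, hd, u, hu, e1, (Sum.inl_injective h).symm⟩
    · rw [glueMap_of_le G (not_lt.1 h0)] at h
      cases h
  · rintro ⟨h0, d, hd, u, hu, e1, e2⟩
    change Sum.inl (P.ψ i a) = glueMap G (Q.ψ j b)
    rw [← e1] at h0 ⊢
    rw [glueMap_of_pos G hd hu h0, e2]

end PreP

end Pool.Agent.W_MP_654ec6
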