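import Mathlib
import Pool.Agent.W_MP_654ec6.F.GlueFun
import Pool.Agent.W_MP_654ec6.F.Blk
import Pool.Agent.W_MP_654ec6.F.EHRic
import Pool.Agent.W_MP_654ec6.F.CoreEH
import Pool.Agent.W_MP_654ec6.F.AmbGlue
import Pool.Agent.W_MP_654ec6.F.Conn

/-!
# Part F: the blocks with their bolts

`fblk P c`: the block `blkP P` with the Eguchi-Hanson space glued to the patch F (if `c` holds),
scaled by `s²`. `blkR P`: the collar function. `blkFam`: the family of the blocks.
-/

open scoped ContDiff Topology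
open Filter Real

namespace Pool.Agent.W_MP_654ec6

/-- The Eguchi-Hanson data of a block. -/
noncomputable def blkEH (P : BlkPar) : EHDat :=
  P.K.eh P.a P.a_nonneg P.a_lt fun A hA => (P.a_ric A hA).1

section

variable (P : BlkPar)

theorem continuousAt_aSq (i : Fin 3) {u : E4} (hu : u ∈ blkV P i) :
    ContinuousAt (fun x => aSq (blkPsi P i x)) u := by
  have h := continuousAt_blkRep P i hu
  have h1 : Continuous fun p : ℂ × ℂ × ℂ => 1 - max 0 (1 - ‖p.2.2‖ ^ 2) * ‖p.2.1‖ ^ 2 := by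
    fun_prop
  exact ContinuousAt.comp (g := fun p : ℂ × ℂ × ℂ => 1 - max 0 (1 - ‖p.2.2‖ ^ 2) * ‖p.2.1‖ ^ 2)
    (f := blkRep P i) h1.continuousAt h

theorem continuousAt_rBlk (i : Fin 3) {u : E4} (hu : u ∈ blkV P i) :
    ContinuousAt (fun x => rBlk P (blkPsi P i x)) u := by
  have h := continuousAt_blkRep P i hu
  have h1 : Continuous fun p : ℂ × ℂ × ℂ =>
      P.B.s * (‖p.2.2‖ - sin P.K.t0 + P.K.t0 - P.B.tstar) - P.ρ := by
    fun_prop
  exact ContinuousAt.comp (g := fun p : ℂ × ℂ × ℂ =>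
    P.B.s * (‖p.2.2‖ - sin P.K.t0 + P.K.t0 - P.B.tstar) - P.ρ) (f := blkRep P i)
    h1.continuousAt h

theorem mem_VF_of {u : E4} (hu : ‖u‖ ∈ Set.Ioo P.a (blkEH P).r) : u ∈ blkV P 2 := hu

/-- The gluing data of the bolt of a block. -/
noncomputable def blkGlue (c : Prop) : PreP.GlueData (blkP P) ((ehP (blkEH P)).restr c) :=
  ehGlue (blkP P) (blkEH P) c P.a le_rfl (fun u => blkPsi P 2 u) (fun p => √(aSq p) - P.a)
    (fun _ _ _ hu hu' => blkPsi_F_iff P hu hu')
    (fun _ u hu => ⟨(2 : Fin 3), fun y => y, hu, Amb_isoAt_id (gF P.K P.a) u,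
      Eventually.of_forall fun _ => rfl⟩)
    (fun _ i _ ha => (continuousAt_aSq P i ha).sqrt.sub continuousAt_const)
    (fun _ i u hu => by
      have h1 := aSq_gt P (i := i) hu
      have h2 : P.a < √(aSq (blkPsi P i u)) := Real.lt_sqrt_of_sq_lt h1
      exact sub_pos.2 h2)
    (fun _ u hu => by
      rw [aSq_F P hu, Real.sqrt_sq (norm_nonneg u)])

/-- The value of the collar function away from the neck. -/
noncomputable def blkLo : ℝ := P.B.s * (P.K.t0 - P.B.tstar) - P.ρ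

theorem blkLo_neg : blkLo P < 0 := by
  have hs := P.ok.blk.s_pos
  have h1 := P.ok.blk.size1
  have h2 := P.ok.blk.T2_gt
  have h3 := P.K.isCore.T0_gt
  have h4 := P.K.isCore.t0_lt
  have h5 := P.ρ_pos
  have h6 : P.B.s * (P.K.t0 - P.B.tstar) < P.B.s * (P.B.T2 - P.B.tstar) :=
    mul_lt_mul_of_pos_left (by linarith) hs
  unfold blkLo
  linarith

theorem rBlk_F {u : E4} (hu : u ∈ VF P) : rBlk P (blkPsi P 2 u) < blkLo P := by
  have hs := P.ok.blk.s_pos
  have h1 : wabs ![1, 2, 1] (blkPsi P 2 u) = ‖cB u‖ := wabs_EF P (i := 2) (by decide) u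
  unfold rBlk blkLo
  rw [h1]
  have h2 : ‖cB u‖ ≤ ‖u‖ := by
    have := norm_sq_cAB u
    nlinarith [sq_nonneg ‖cA u‖, norm_nonneg (cB u), norm_nonneg u]
  have h3 : ‖u‖ < sin P.K.t0 := hu.2
  have h6 : P.B.s * (‖cB u‖ - sin P.K.t0 + P.K.t0 - P.B.tstar) < P.B.s * (P.K.t0 - P.B.tstar) :=
    mul_lt_mul_of_pos_left (by linarith) hs
  linarith

/-- The collar function of the block with its bolt. -/
noncomputable def blkR : (blkP P).Pt ⊕ WPt ehm → ℝ :=
  Sum.elim (fun p => max (rBlk P p) (blkLo P)) (fun _ => blkLo P)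

theorem blkR_match (c : Prop) (d : EHI) (hd : d ∈ (blkGlue P c).D) (u : E4)
    (hu : u ∈ ((ehP (blkEH P)).restr c).V d) :
    (fun p => max (rBlk P p) (blkLo P)) ((blkGlue P c).E d u) = blkLo P := by
  have hd' : d = EHI.F := hd
  subst hd'
  exact max_eq_right (rBlk_F P (mem_VF_of P hu.2)).le

end

/-- The index of the patch D. -/
def iD : Fin 3 ⊕ EHI := Sum.inl 0

/-- The block with its bolt. -/
noncomputable def fblk (P : BlkPar) (c : Prop) : PreP :=
  (PreP.glue (blkP P) ((ehP (blkEH P)).restr c) (blkGlue P c)).smul (P.B.s ^ 2)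
    (pow_pos P.ok.blk.s_pos 2)

section

variable (P : BlkPar) (c : Prop)

theorem blkR_cont (j : (fblk P c).ι) (q : E4) (hq : q ∈ (fblk P c).V j) :
    ContinuousAt (fun x => blkR P ((fblk P c).ψ j x)) q :=
  PreP.glue_cont (blkGlue P c) (fP := fun p => max (rBlk P p) (blkLo P)) (fQ := fun _ => blkLo P)
    (fun i _ ha => (continuousAt_rBlk P i ha).max continuousAt_const)
    (fun _ _ _ => continuousAt_const) (fun d hd u hu _ => blkR_match P c d hd u hu) j q hq

theorem blkR_inl (i : Fin 3) (u : E4) :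
    blkR P ((fblk P c).ψ (Sum.inl i) u) = max (rBlk P (blkPsi P i u)) (blkLo P) := rfl

theorem blkR_inr (j : EHI) {u : E4} (hu : u ∈ (fblk P c).V (Sum.inr j)) :
    blkR P ((fblk P c).ψ (Sum.inr j) u) = blkLo P :=
  PreP.elim_glueMap (blkGlue P c) (fP := fun p => max (rBlk P p) (blkLo P))
    (fQ := fun _ => blkLo P) (fun d hd u hu _ => blkR_match P c d hd u hu) hu

theorem blkR_pos_iff (i : Fin 3) (u : E4) :
    0 < blkR P ((fblk P c).ψ (Sum.inl i) u) ↔ 0 < rBlk P (blkPsi P i u) := by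
  rw [blkR_inl]
  constructor
  · intro h
    rcases lt_max_iff.1 h with h | h
    · exact h
    · exact absurd h (not_lt.2 (blkLo_neg P).le)
  · intro h
    exact lt_max_of_lt_left h

theorem blkR_cover (j : (fblk P c).ι) (q : E4) (hq : q ∈ (fblk P c).V j)
    (h : 0 < blkR P ((fblk P c).ψ j q)) :
    ∃ u ∈ (fblk P c).V iD, (fblk P c).ψ iD u = (fblk P c).ψ j q := by
  rcases j with i | j
  · rw [blkR_pos_iff] at h
    rcases eq_or_ne (α := Fin 3) i 0 with hi | hi
    · subst hi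
      exact ⟨q, hq, rfl⟩
    · exact absurd h (not_lt.2 (rBlk_EF P hi hq).le)
  · rw [blkR_inr P c j hq] at h
    exact absurd h (not_lt.2 (blkLo_neg P).le)

theorem t0_le_of_collar {u : E4} (h : P.ρ < P.B.s * (‖u‖ - P.B.tstar)) : P.K.t0 ≤ ‖u‖ := by
  have hs := P.ok.blk.s_pos
  have h1 := P.ok.blk.size1
  have h2 := P.ok.blk.T2_gt
  have h3 := P.K.isCore.T0_gt
  have h4 := P.K.isCore.t0_lt
  have h5 := P.ρ_pos
  by_contra h6
  have h7 : P.B.s * (‖u‖ - P.B.tstar) ≤ P.B.s * (P.B.T2 - P.B.tstar) :=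
    mul_le_mul_of_nonneg_left (by linarith [not_le.1 h6]) hs.le
  linarith

theorem blkR_pos {u : E4} (hu : u ∈ (fblk P c).V iD) :
    0 < blkR P ((fblk P c).ψ iD u) ↔ P.ρ < P.B.s * (‖u‖ - P.B.tstar) := by
  exact (blkR_pos_iff P c 0 u).trans (rBlk_pos_D P hu)

theorem blkR_eq {u : E4} (hu : u ∈ (fblk P c).V iD)
    (h : 0 < blkR P ((fblk P c).ψ iD u)) :
    blkR P ((fblk P c).ψ iD u) = P.B.s * (‖u‖ - P.B.tstar) - P.ρ := by
  have h1 := (blkR_pos P c hu).1 h
  have h2 := rBlk_D P hu (t0_le_of_collar P h1)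
  have h3 : blkR P ((fblk P c).ψ iD u) = max (rBlk P (blkPsi P 0 u)) (blkLo P) := rfl
  rw [h3, h2]
  refine max_eq_left ?_
  have := blkLo_neg P
  linarith

theorem fblk_inj {u u' : E4} (hu : u ∈ (fblk P c).V iD)
    (hu' : u' ∈ (fblk P c).V iD)
    (h : (fblk P c).ψ iD u = (fblk P c).ψ iD u') : u = u' :=
  blkInj_D P hu hu' (Sum.inl_injective h)

/-- `Ric ≥ -3` in the block. -/
theorem fblk_ric (j : (fblk P c).ι) {u : E4} (hu : u ∈ (fblk P c).V j) :
    RicGE ((fblk P c).g j) (-3) u := by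
  have hs : 0 < P.B.s ^ 2 := pow_pos P.ok.blk.s_pos 2
  have h3 : -(3 * P.B.s ^ 2) / P.B.s ^ 2 = -3 := by
    rw [neg_div, mul_div_assoc, div_self hs.ne', mul_one]
  rcases j with i | j
  · have h1 := ricGE_smul hs (blkRic P i hu)
    rw [h3] at h1
    exact h1
  · have h2 : RicGE (ehg (blkEH P) j) (-(3 * P.B.s ^ 2)) u :=
      ehRic (blkEH P) (by positivity) (fun A hA =>
        P.K.u2OK_core (P.a_nonneg.trans_lt hA.1) hA.2 (by positivity) (P.a_ric A hA.1).2) j hu.2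
    have h1 := ricGE_smul hs h2
    rw [h3] at h1
    exact h1

end

/-- The family of the blocks of an ambient space. -/
noncomputable def blkFam (K : Core) (A : AmbPar) (c : Prop) (P : ℕ → BlkPar)
    (hK : ∀ k, (P k).K = K) (hρ : ∀ k, (P k).ρ = A.ρ k)
    (hc : ∀ k : ℕ, 1 ≤ k → (k : ℕ∞) ≤ A.N → CollOK K A k (P k).B) : BlkFam K A where
  Q := fun k => fblk (P k) c
  d := fun _ => iD
  r := fun k => blkR (P k)
  B := fun k => (P k).B
  coll := hc
  V_d := fun k _ _ => by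
    rw [← hK k, ← hρ k]
    rfl
  g_d := fun k _ _ => by
    rw [← hK k]
    rfl
  r_cont := fun k _ _ => blkR_cont (P k) c
  cover := fun k _ _ => blkR_cover (P k) c
  r_pos := fun k _ _ u hu => by
    rw [← hρ k]
    exact blkR_pos (P k) c hu
  r_eq := fun k _ _ u hu h => by
    rw [← hρ k]
    exact blkR_eq (P k) c hu h
  inj_d := fun k _ _ _ hu _ hu' h => fblk_inj (P k) c hu hu' h

end Pool.Agent.W_MP_654ec6
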