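import Pool.Agent.W_MP_654ec6.F.Blk
import Pool.Agent.W_MP_654ec6.F.Conn

/-!
# Task F8: in a block one reaches the collar

D: the points with `t0/2 < ‖u‖`, `s (‖u‖ - tstar) < 2 ρ` form an annulus: move radially until
`s (‖u‖ - tstar) = 3 ρ/2` (a segment in `VD`), where `rBlk > 0` (`rBlk_pos_D`).
E: `VE` is convex; move to `(0, w*)`, `w*` real with `sin (t0/2) < w* < sin t0`: this is the point
`u = arcsin w* · (1, 0, 0, 0)` of D (both representatives are `(1, 0, w*)`, as `qt t = sin t`).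
F: the annulus `a < ‖u‖ < sin t0` of `ℝ⁴` is path connected (radially to the sphere of radius `w*`,
which is path connected: `isPathConnected_sphere`): join `u` to `(0, w*)`, the point
`arcsin w* · (0, 0, 1, 0)` of D; `seg_of_joined`.
-/

open scoped ContDiff Topology
open Filter Real

namespace Pool.Agent.W_MP_654ec6

theorem BlkReach_seg {u : E4} {t x : E4} {R : ℝ} (hu : u ≠ 0) (hR : 0 < R)
    (ht : t = (R / ‖u‖) • u) (hx : x ∈ segment ℝ u t) :
    min ‖u‖ R ≤ ‖x‖ ∧ ‖x‖ ≤ max ‖u‖ R := by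
  have hu0 : 0 < ‖u‖ := norm_pos_iff.2 hu
  rw [segment_eq_image] at hx
  obtain ⟨θ, ⟨h0, h1⟩, rfl⟩ := hx
  have e : (1 - θ) • u + θ • t = ((1 - θ) + θ * (R / ‖u‖)) • u := by
    rw [ht, smul_smul, ← add_smul]
  have hc : 0 ≤ (1 - θ) + θ * (R / ‖u‖) := by
    have : 0 ≤ θ * (R / ‖u‖) := by positivity
    linarith
  have en : ‖(1 - θ) • u + θ • t‖ = (1 - θ) * ‖u‖ + θ * R := by
    rw [e, norm_smul, Real.norm_of_nonneg hc, add_mul, mul_assoc, div_mul_cancel₀ _ hu0.ne']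
  simp only [en]
  have m1 := min_le_left ‖u‖ R
  have m2 := min_le_right ‖u‖ R
  have M1 := le_max_left ‖u‖ R
  have M2 := le_max_right ‖u‖ R
  constructor
  · nlinarith only [m2, m1, h1, h0]
  · nlinarith only [M2, h1, h0, M1]

/-- The annulus in `ℝ⁴` is path connected. -/
theorem joined_annulus {r R : ℝ} (hr : 0 ≤ r) {u v : E4} (hu : r < ‖u‖ ∧ ‖u‖ < R)
    (hv : r < ‖v‖ ∧ ‖v‖ < R) : JoinedIn {u : E4 | r < ‖u‖ ∧ ‖u‖ < R} u v := by
  have hu0 : 0 < ‖u‖ := lt_of_le_of_lt hr hu.1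
  have hv0 : 0 < ‖v‖ := lt_of_le_of_lt hr hv.1
  have h1 : JoinedIn {u : E4 | r < ‖u‖ ∧ ‖u‖ < R} u ((‖v‖ / ‖u‖) • u) := by
    refine JoinedIn.of_segment_subset fun x hx => ?_
    obtain ⟨h1, h2⟩ := BlkReach_seg (norm_pos_iff.1 hu0) hv0 rfl hx
    exact ⟨lt_of_lt_of_le (lt_min hu.1 hv.1) h1, lt_of_le_of_lt h2 (max_lt hu.2 hv.2)⟩
  have h2 : IsPathConnected (Metric.sphere (0 : E4) ‖v‖) := by
    refine isPathConnected_sphere ?_ 0 (norm_nonneg v)
    rw [← Module.finrank_eq_rank, finrank_euclideanSpace_fin]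
    norm_num
  have h3 : JoinedIn (Metric.sphere (0 : E4) ‖v‖) ((‖v‖ / ‖u‖) • u) v := by
    refine h2.joinedIn _ ?_ _ ?_
    · rw [mem_sphere_zero_iff_norm, norm_smul, Real.norm_of_nonneg (by positivity),
        div_mul_cancel₀ _ hu0.ne']
    · rw [mem_sphere_zero_iff_norm]
  refine h1.trans (h3.mono ?_)
  intro x hx
  rw [mem_sphere_zero_iff_norm] at hx
  show r < ‖x‖ ∧ ‖x‖ < R
  rw [hx]
  exact hv

/-- In the patch D one reaches the collar. -/
theorem BlkReach_D (P : BlkPar) {u : E4} (hu : u ∈ VD P) :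
    ∃ c ∈ VD P, 0 < rBlk P (blkPsi P 0 c) ∧ (blkP P).Seg (blkPsi P 0 u) (blkPsi P 0 c) := by
  have hs := P.ok.blk.s_pos
  have hρ := P.ρ_pos
  have ht0 := P.K.isCore.t0_pos
  have ht1 := P.K.isCore.t0_lt
  have hT0 := P.K.isCore.T0_gt
  have hT2 := P.ok.blk.T2_gt
  have h1 := P.ok.blk.size1
  obtain ⟨R, hR⟩ : ∃ R : ℝ, R = P.B.tstar + 3 * P.ρ / (2 * P.B.s) := ⟨_, rfl⟩
  have hRs : P.B.s * (R - P.B.tstar) = 3 * P.ρ / 2 := by
    rw [hR]
    field_simp
    ring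
  have hRT : P.B.T2 < R := by
    by_contra hcon
    have h2 : P.B.s * (R - P.B.tstar) ≤ P.B.s * (P.B.T2 - P.B.tstar) :=
      mul_le_mul_of_nonneg_left (by linarith [not_lt.1 hcon]) hs.le
    linarith
  have hR0 : 0 < R := by linarith
  have hu0 : 0 < ‖u‖ := lt_trans (by linarith) hu.1
  have hnorm : ‖(R / ‖u‖) • u‖ = R := by
    rw [norm_smul, Real.norm_of_nonneg (by positivity), div_mul_cancel₀ _ hu0.ne']
  have hseg : segment ℝ u ((R / ‖u‖) • u) ⊆ VD P := by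
    intro x hx
    obtain ⟨h3, h4⟩ := BlkReach_seg (norm_pos_iff.1 hu0) hR0 rfl hx
    refine ⟨lt_of_lt_of_le (lt_min hu.1 (by linarith)) h3, ?_⟩
    rcases le_total ‖u‖ R with h | h
    · rw [max_eq_right h] at h4
      have h5 : P.B.s * (‖x‖ - P.B.tstar) ≤ P.B.s * (R - P.B.tstar) :=
        mul_le_mul_of_nonneg_left (by linarith) hs.le
      linarith
    · rw [max_eq_left h] at h4
      have h5 : P.B.s * (‖x‖ - P.B.tstar) ≤ P.B.s * (‖u‖ - P.B.tstar) :=
        mul_le_mul_of_nonneg_left (by linarith) hs.le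
      exact lt_of_le_of_lt h5 hu.2
  have hmem : (R / ‖u‖) • u ∈ VD P := hseg (right_mem_segment ℝ _ _)
  refine ⟨(R / ‖u‖) • u, hmem, ?_, (0 : Fin 3), u, (R / ‖u‖) • u, hseg, rfl, rfl⟩
  rw [rBlk_pos_D P hmem, hnorm, hRs]
  linarith

/-- The point of D on the axis `i`. -/
theorem BlkReach_mem (P : BlkPar) {u : E4} (hu : ‖u‖ = 3 / 4 * P.K.t0) : u ∈ VD P := by
  have hs := P.ok.blk.s_pos
  have hρ := P.ρ_pos
  have ht0 := P.K.isCore.t0_pos
  have ht1 := P.K.isCore.t0_lt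
  have hT0 := P.K.isCore.T0_gt
  have hT2 := P.ok.blk.T2_gt
  have h1 := P.ok.blk.size1
  refine ⟨by rw [hu]; linarith, ?_⟩
  rw [hu]
  have h2 : P.B.s * (3 / 4 * P.K.t0 - P.B.tstar) ≤ P.B.s * (P.B.T2 - P.B.tstar) :=
    mul_le_mul_of_nonneg_left (by linarith) hs.le
  linarith

/-- The axis point. -/
noncomputable def BlkReach_ax (i : Fin 4) (r : ℝ) : E4 := EuclideanSpace.single i r

theorem BlkReach_norm (i : Fin 4) {r : ℝ} (hr : 0 ≤ r) : ‖BlkReach_ax i r‖ = r := by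
  rw [BlkReach_ax, PiLp.norm_single, Real.norm_of_nonneg hr]

theorem blk_reach (P : BlkPar) : (blkP P).Reach (rBlk P) := by
  have ht0 := P.K.isCore.t0_pos
  have ht1 := P.K.isCore.t0_lt
  have hpi := pi_gt_three
  obtain ⟨t, ht⟩ : ∃ t : ℝ, t = 3 / 4 * P.K.t0 := ⟨_, rfl⟩
  have htpos : 0 < t := by rw [ht]; linarith
  obtain ⟨w, hw⟩ : ∃ w : ℝ, w = sin t := ⟨_, rfl⟩
  have hw0 : 0 < w := by
    rw [hw]
    exact sin_pos_of_pos_of_lt_pi htpos (by rw [ht]; linarith)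
  have hwt0 : w < sin P.K.t0 := by
    rw [hw]
    exact sin_lt_sin_of_lt_of_le_pi_div_two (by linarith) (by linarith) (by rw [ht]; linarith)
  have hwh : sin (P.K.t0 / 2) < w := by
    rw [hw]
    exact sin_lt_sin_of_lt_of_le_pi_div_two (by linarith) (by rw [ht]; linarith)
      (by rw [ht]; linarith)
  have hw1 : w < 1 := lt_of_lt_of_le hwt0 (sin_le_one _)
  have hsh : 0 < sin (P.K.t0 / 2) :=
    sin_pos_of_pos_of_lt_pi (by linarith) (by linarith)
  have hsh1 : sin (P.K.t0 / 2) ≤ 1 := sin_le_one _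
  -- the axis points of D
  have hDm : ∀ i, BlkReach_ax i t ∈ VD P := fun i =>
    BlkReach_mem P (by rw [BlkReach_norm i htpos.le, ht])
  have hqt : qt P.K t = w := by
    rw [qt, if_pos (by rw [ht]; linarith), hw]
  have hn0 : ‖BlkReach_ax 0 t‖ = t := BlkReach_norm 0 htpos.le
  have hn2 : ‖BlkReach_ax 2 t‖ = t := BlkReach_norm 2 htpos.le
  have hnw : ‖BlkReach_ax 2 w‖ = w := BlkReach_norm 2 hw0.le
  have htC : (t : ℂ) ≠ 0 := Complex.ofReal_ne_zero.2 htpos.ne'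
  have hsq : sq2 (BlkReach_ax 2 w) = w ^ 2 := by
    simp [sq2, BlkReach_ax]
  have hsq1 : sq1 (BlkReach_ax 2 w) = 0 := by
    simp [sq1, BlkReach_ax]
  have hroot : √(1 - w ^ 2) ≠ 0 := (Real.sqrt_pos.2 (by nlinarith only [hw0, hw1])).ne'
  have hrE : repE (BlkReach_ax 2 w) = (1, 0, (w : ℂ)) := by
    have c1 : cz1 (BlkReach_ax 2 w) = 0 := by
      apply Complex.ext <;> simp [cz1, BlkReach_ax]
    have c2 : cz2 (BlkReach_ax 2 w) = (w : ℂ) := by
      apply Complex.ext <;> simp [cz2, BlkReach_ax]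
    rw [repE, hsq, hnw, c1, c2, div_self hroot, zero_div, Complex.ofReal_one]
  have hrF : repF (BlkReach_ax 2 w) = (0, 1, (w : ℂ)) := by
    have c1 : cz1 (BlkReach_ax 2 w) = 0 := by
      apply Complex.ext <;> simp [cz1, BlkReach_ax]
    have c2 : cz2 (BlkReach_ax 2 w) = (w : ℂ) := by
      apply Complex.ext <;> simp [cz2, BlkReach_ax]
    rw [repF, hsq, hnw, c1, c2, div_self hroot, zero_div, Complex.ofReal_one]
  have hrD0 : repD P.K (BlkReach_ax 0 t) = (1, 0, (w : ℂ)) := by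
    have c1 : cz1 (BlkReach_ax 0 t) = (t : ℂ) := by
      apply Complex.ext <;> simp [cz1, BlkReach_ax]
    have c2 : cz2 (BlkReach_ax 0 t) = 0 := by
      apply Complex.ext <;> simp [cz2, BlkReach_ax]
    rw [repD, hn0, c1, c2, hqt, div_self htC, zero_div]
  have hrD2 : repD P.K (BlkReach_ax 2 t) = (0, 1, (w : ℂ)) := by
    have c1 : cz1 (BlkReach_ax 2 t) = 0 := by
      apply Complex.ext <;> simp [cz1, BlkReach_ax]
    have c2 : cz2 (BlkReach_ax 2 t) = (t : ℂ) := by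
      apply Complex.ext <;> simp [cz2, BlkReach_ax]
    rw [repD, hn2, c1, c2, hqt, div_self htC, zero_div]
  have hE : blkPsi P 1 (BlkReach_ax 2 w) = blkPsi P 0 (BlkReach_ax 0 t) := by
    show WPt.mk ![1, 2, 1] (repE (BlkReach_ax 2 w)) =
      WPt.mk ![1, 2, 1] (repD P.K (BlkReach_ax 0 t))
    rw [hrE, hrD0]
  have hF : blkPsi P 2 (BlkReach_ax 2 w) = blkPsi P 0 (BlkReach_ax 2 t) := by
    show WPt.mk ![1, 2, 1] (repF (BlkReach_ax 2 w)) =
      WPt.mk ![1, 2, 1] (repD P.K (BlkReach_ax 2 t))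
    rw [hrF, hrD2]
  -- membership
  have hwE : BlkReach_ax 2 w ∈ VE P := by
    refine ⟨by rw [hnw]; exact hw1, ?_, ?_⟩
    · rw [hsq]
      exact pow_lt_pow_left₀ hwt0 hw0.le two_ne_zero
    · rw [hsq1]
      nlinarith only [hw0, hwh, hsh, htpos, ht, ht1, hw1]
  have hconvE : Convex ℝ (VE P) := by
    have k1 : Convex ℝ {u : E4 | ‖u‖ < 1} := by
      have := convex_ball (0 : E4) 1
      have e : Metric.ball (0 : E4) 1 = {u : E4 | ‖u‖ < 1} := by
        ext x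
        simp
      rwa [e] at this
    have ksq : ∀ (i j : Fin 4) (c : ℝ), Convex ℝ {u : E4 | u i ^ 2 + u j ^ 2 < c} := by
      intro i j c x hx y hy a b ha hb hab
      have hx' : x i ^ 2 + x j ^ 2 < c := hx
      have hy' : y i ^ 2 + y j ^ 2 < c := hy
      show (a • x + b • y) i ^ 2 + (a • x + b • y) j ^ 2 < c
      have e : ∀ k, (a • x + b • y) k = a * x k + b * y k := fun k => by simp
      rw [e i, e j]
      have hb' : b = 1 - a := by linarith
      subst hb'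
      have key : ∀ p q : ℝ, (a * p + (1 - a) * q) ^ 2 ≤ a * p ^ 2 + (1 - a) * q ^ 2 := by
        intro p q
        nlinarith only [mul_nonneg (mul_nonneg ha hb) (sq_nonneg (p - q))]
      have q1 := key (x i) (y i)
      have q2 := key (x j) (y j)
      rcases ha.eq_or_lt with h | h
      · rw [← h] at q1 q2 ⊢
        nlinarith only [hy']
      · nlinarith only [q2, hy', hx', hb, h, q1]
    have e : VE P = {u : E4 | ‖u‖ < 1} ∩ ({u : E4 | u 2 ^ 2 + u 3 ^ 2 < sin P.K.t0 ^ 2} ∩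
        {u : E4 | u 0 ^ 2 + u 1 ^ 2 < 1 - (sin (P.K.t0 / 2) / 2) ^ 2}) := rfl
    rw [e]
    exact k1.inter ((ksq 2 3 _).inter (ksq 0 1 _))
  have haw : P.a < w := by
    have := P.a_lt
    have := P.K.A0_lt
    have := P.K.A0_pos
    linarith
  obtain ⟨c0, hc0, hc0', hc0''⟩ := BlkReach_D P (hDm 0)
  obtain ⟨c2, hc2, hc2', hc2''⟩ := BlkReach_D P (hDm 2)
  have key : ∀ i : Fin 3, ∀ a ∈ blkV P i, ∃ j : Fin 3, ∃ c ∈ blkV P j,
      0 < rBlk P (blkPsi P j c) ∧
      Relation.ReflTransGen (blkP P).Seg (blkPsi P i a) (blkPsi P j c) := by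
    intro i
    match i with
    | 0 =>
      intro a ha
      obtain ⟨c, hc, hc', hc''⟩ := BlkReach_D P (u := a) ha
      exact ⟨0, c, hc, hc', Relation.ReflTransGen.single hc''⟩
    | 1 =>
      intro a ha
      refine ⟨0, c0, hc0, hc0', ?_⟩
      refine Relation.ReflTransGen.head (b := blkPsi P 0 (BlkReach_ax 0 t)) ?_
        (Relation.ReflTransGen.single hc0'')
      exact ⟨(1 : Fin 3), a, BlkReach_ax 2 w, hconvE.segment_subset ha hwE, rfl, hE⟩
    | 2 =>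
      intro a ha
      refine ⟨0, c2, hc2, hc2', ?_⟩
      have h1 : JoinedIn (VF P) a (BlkReach_ax 2 w) := by
        refine joined_annulus P.a_nonneg ha ?_
        rw [hnw]
        exact ⟨haw, hwt0⟩
      have h2 : Relation.ReflTransGen (blkP P).Seg (blkPsi P 2 a)
          (blkPsi P 2 (BlkReach_ax 2 w)) :=
        PreP.seg_of_joined (blkP P) (i := (2 : Fin 3)) h1
      refine h2.trans ?_
      rw [hF]
      exact Relation.ReflTransGen.single hc2''
  exact key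

end Pool.Agent.W_MP_654ec6
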