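import Pool.Agent.W_MP_654ec6.C.Coord
import Pool.Agent.W_MP_654ec6.D.NeckZ
import Pool.Agent.W_MP_654ec6.L.Link

/-!
# Derivatives along lines, and the angle `phZ` as a function of `z = sin x`

In the cone part of the neck (`m = 1`, `l(t) = R' (t - t_*)`) the point `u` with `|u| = t`,
`u = t (sin x, cos x ξ)`, is the ambient point over `(X, Y) = x_k + r (cos Φ(x), sin Φ(x))`,
`r = s (t - t_*)`, with the direction `ξ`.
-/

open scoped ContDiff Topology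
open Filter Set Real

namespace Pool.Agent.W_MP_654ec6

/-! ## Derivatives along lines -/

theorem fderiv_line {f : E4 → ℝ} {u : E4} (hf : DifferentiableAt ℝ f u) (v : E4) {d : ℝ}
    (h : HasDerivAt (fun τ : ℝ => f (u + τ • v)) d 0) : fderiv ℝ f u v = d := by
  have hc : HasDerivAt (fun τ : ℝ => u + τ • v) v 0 := by
    have := ((hasDerivAt_id (0 : ℝ)).smul_const v).const_add u
    simpa using this
  have hf' : HasFDerivAt f (fderiv ℝ f u) (u + (0 : ℝ) • v) := by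
    rw [zero_smul, add_zero]
    exact hf.hasFDerivAt
  exact (hf'.comp_hasDerivAt 0 hc).unique h

/-- The coordinate functions along a line. -/
theorem hasDerivAt_line (u v : E4) (i : Fin 4) :
    HasDerivAt (fun τ : ℝ => (u + τ • v) i) (v i) 0 := by
  have := ((hasDerivAt_id (0 : ℝ)).mul_const (v i)).const_add (u i)
  simpa using this

/-- The euclidean inner product. -/
noncomputable def dot (u v : E4) : ℝ := u 0 * v 0 + u 1 * v 1 + u 2 * v 2 + u 3 * v 3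

/-- The inner product of the last three coordinates. -/
noncomputable def dot3 (u v : E4) : ℝ := u 1 * v 1 + u 2 * v 2 + u 3 * v 3

theorem norm_eq_sqrt (u : E4) : ‖u‖ = √(u 0 ^ 2 + u 1 ^ 2 + u 2 ^ 2 + u 3 ^ 2) := by
  rw [← norm_sq_E4, Real.sqrt_sq (norm_nonneg _)]

theorem hasDerivAt_norm_line {u : E4} (hu : u ≠ 0) (v : E4) :
    HasDerivAt (fun τ : ℝ => ‖u + τ • v‖) (dot u v / ‖u‖) 0 := by
  have h0 : 0 < ‖u‖ := norm_pos_iff.2 hu
  have h1 : HasDerivAt (fun τ : ℝ => (u + τ • v) 0 ^ 2 + (u + τ • v) 1 ^ 2 + (u + τ • v) 2 ^ 2 +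
      (u + τ • v) 3 ^ 2) (2 * dot u v) 0 := by
    refine (((((hasDerivAt_line u v 0).pow 2).add ((hasDerivAt_line u v 1).pow 2)).add
      ((hasDerivAt_line u v 2).pow 2)).add ((hasDerivAt_line u v 3).pow 2)).congr_deriv ?_
    simp only [dot, zero_smul, add_zero]
    push_cast
    ring
  have h2 : (u + (0 : ℝ) • v) 0 ^ 2 + (u + (0 : ℝ) • v) 1 ^ 2 + (u + (0 : ℝ) • v) 2 ^ 2 +
      (u + (0 : ℝ) • v) 3 ^ 2 = ‖u‖ ^ 2 := by
    rw [zero_smul, add_zero, norm_sq_E4]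
  have h3 := h1.sqrt (by rw [h2]; positivity)
  rw [h2, Real.sqrt_sq h0.le] at h3
  have h4 : (fun τ : ℝ => ‖u + τ • v‖) = fun τ : ℝ => √((u + τ • v) 0 ^ 2 + (u + τ • v) 1 ^ 2 +
      (u + τ • v) 2 ^ 2 + (u + τ • v) 3 ^ 2) := funext fun τ => norm_eq_sqrt _
  rw [h4]
  refine h3.congr_deriv ?_
  field_simp

theorem hasDerivAt_n3_line {u : E4} (hu : n3 u ≠ 0) (v : E4) :
    HasDerivAt (fun τ : ℝ => n3 (u + τ • v)) (dot3 u v / n3 u) 0 := by
  have h0 : 0 < n3 u := lt_of_le_of_ne (n3_nonneg u) (Ne.symm hu)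
  have h1 : HasDerivAt (fun τ : ℝ => (u + τ • v) 1 ^ 2 + (u + τ • v) 2 ^ 2 +
      (u + τ • v) 3 ^ 2) (2 * dot3 u v) 0 := by
    refine ((((hasDerivAt_line u v 1).pow 2).add
      ((hasDerivAt_line u v 2).pow 2)).add ((hasDerivAt_line u v 3).pow 2)).congr_deriv ?_
    simp only [dot3, zero_smul, add_zero]
    push_cast
    ring
  have h2 : (u + (0 : ℝ) • v) 1 ^ 2 + (u + (0 : ℝ) • v) 2 ^ 2 +
      (u + (0 : ℝ) • v) 3 ^ 2 = n3 u ^ 2 := by
    rw [zero_smul, add_zero, n3_sq]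
  have h3 := h1.sqrt (by rw [h2]; positivity)
  rw [h2, Real.sqrt_sq h0.le] at h3
  refine h3.congr_deriv ?_
  field_simp

theorem hasDerivAt_uz_line {u : E4} (hu : u ≠ 0) (v : E4) :
    HasDerivAt (fun τ : ℝ => (u + τ • v) 0 / ‖u + τ • v‖)
      ((v 0 * ‖u‖ ^ 2 - u 0 * dot u v) / ‖u‖ ^ 3) 0 := by
  have h0 : ‖u‖ ≠ 0 := norm_ne_zero_iff.2 hu
  have h1 := (hasDerivAt_line u v 0).div (hasDerivAt_norm_line hu v)
    (by rw [zero_smul, add_zero]; exact h0)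
  refine h1.congr_deriv ?_
  rw [zero_smul, add_zero]
  field_simp

theorem hasDerivAt_xi_line {u : E4} (hu : n3 u ≠ 0) (v : E4) (i : Fin 4) :
    HasDerivAt (fun τ : ℝ => (u + τ • v) i / n3 (u + τ • v))
      ((v i * n3 u ^ 2 - u i * dot3 u v) / n3 u ^ 3) 0 := by
  have h1 := (hasDerivAt_line u v i).div (hasDerivAt_n3_line hu v)
    (by rw [zero_smul, add_zero]; exact hu)
  refine h1.congr_deriv ?_
  rw [zero_smul, add_zero]
  field_simp

/-! ## The angle as a function of `z = sin x` -/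

/-- The angle as a function of `z = sin x`, extended to the poles. -/
noncomputable def phZ (Φ : ℝ → ℝ) (φr φl z : ℝ) : ℝ :=
  if z ≤ -1 then φr else if 1 ≤ z then φl else Φ (arcsin z)

theorem phZ_of_lt (Φ : ℝ → ℝ) (φr φl : ℝ) {z : ℝ} (h : |z| < 1) :
    phZ Φ φr φl z = Φ (arcsin z) := by
  have h1 := abs_lt.1 h
  unfold phZ
  rw [if_neg (not_le.2 h1.1), if_neg (not_le.2 h1.2)]

theorem arcsin_mem_Lat {z : ℝ} (hz : |z| < 1) : arcsin z ∈ Lat := by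
  rw [abs_lt] at hz
  exact ⟨neg_pi_div_two_lt_arcsin.2 hz.1, arcsin_lt_pi_div_two.2 hz.2⟩

section link

variable {R al c ar : ℝ} {η Φ H : ℝ → ℝ} (h : IsLink R al c ar η Φ H)

include h

theorem hasDerivAt_phZ (φr φl : ℝ) {z : ℝ} (hz : |z| < 1) :
    HasDerivAt (phZ Φ φr φl) (lRp c R * Real.exp (η (arcsin z)) / √(1 - z ^ 2)) z := by
  have hz' := abs_lt.1 hz
  have h1 : phZ Φ φr φl =ᶠ[𝓝 z] fun w => Φ (arcsin w) := by
    have h2 : IsOpen {w : ℝ | |w| < 1} := isOpen_lt continuous_abs continuous_const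
    filter_upwards [h2.mem_nhds hz] with w hw
    exact phZ_of_lt Φ φr φl hw
  have h3 := (h.hasDerivAt_Φ _ (arcsin_mem_Lat hz)).comp z (hasDerivAt_arcsin hz'.1.ne' hz'.2.ne)
  refine (h3.congr_of_eventuallyEq h1).congr_deriv ?_
  ring

theorem contDiffAt_phZ (φr φl : ℝ) {z : ℝ} (hz : |z| < 1) :
    ContDiffAt ℝ ∞ (phZ Φ φr φl) z := by
  have hz' := abs_lt.1 hz
  have h1 : phZ Φ φr φl =ᶠ[𝓝 z] Φ ∘ arcsin := by
    have h2 : IsOpen {w : ℝ | |w| < 1} := isOpen_lt continuous_abs continuous_const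
    filter_upwards [h2.mem_nhds hz] with w hw
    exact phZ_of_lt Φ φr φl hw
  refine ContDiffAt.congr_of_eventuallyEq ?_ h1
  exact (h.smooth_Φ.contDiffAt (isOpen_Ioo.mem_nhds (arcsin_mem_Lat hz))).comp z
    (contDiffAt_arcsin hz'.1.ne' hz'.2.ne)

theorem linkf_phZ (φr φl : ℝ) {z : ℝ} (hz : |z| < 1) :
    linkf R al c ar (phZ Φ φr φl z) = lRp c R * √(1 - z ^ 2) := by
  rw [phZ_of_lt Φ φr φl hz, h.linkf_Φ _ (arcsin_mem_Lat hz), cos_arcsin]

theorem phZ_mem (φr φl : ℝ) {z : ℝ} (hz : |z| < 1) :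
    phZ Φ φr φl z ∈ Ioo (arctan ar) (π + arctan al) := by
  rw [phZ_of_lt Φ φr φl hz]
  exact h.maps _ (arcsin_mem_Lat hz)

theorem phZ_right (φl : ℝ) : ∃ z1 : ℝ, -1 < z1 ∧ z1 < 0 ∧ ∀ z, -1 ≤ z → z < z1 →
    sin (phZ Φ (arctan ar) φl z - arctan ar) = lRp c R * √(1 - z ^ 2) ∧
    cos (phZ Φ (arctan ar) φl z - arctan ar) = √(1 - lRp c R ^ 2 * (1 - z ^ 2)) := by
  obtain ⟨x0, h0, h1, h2⟩ := h.pole_r
  have hpi := pi_gt_three
  have hs0 : 0 < sin x0 := sin_pos_of_pos_of_lt_pi h0 (by linarith)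
  have hs1 : sin x0 < 1 := by
    rw [← sin_pi_div_two]
    exact sin_lt_sin_of_lt_of_le_pi_div_two (by linarith) le_rfl h1
  refine ⟨-sin x0, by linarith, by linarith, fun z hz1 hz2 => ?_⟩
  rcases eq_or_lt_of_le hz1 with h3 | h3
  · rw [← h3]
    unfold phZ
    rw [if_pos le_rfl, sub_self, sin_zero, cos_zero]
    norm_num
  · have hz : |z| < 1 := abs_lt.2 ⟨h3, by linarith⟩
    have hx := arcsin_mem_Lat hz
    have hx0 : arcsin z < -x0 := by
      rw [arcsin_lt_iff_lt_sin ⟨h3.le, by linarith⟩ ⟨by linarith, by linarith⟩, sin_neg]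
      exact hz2
    obtain ⟨h4, h5⟩ := h2 _ hx hx0
    rw [phZ_of_lt Φ _ φl hz, ← cos_arcsin, ← h5]
    refine ⟨rfl, ?_⟩
    rw [eq_comm, Real.sqrt_eq_iff_mul_self_eq]
    · have h6 := sin_sq_add_cos_sq (Φ (arcsin z) - arctan ar)
      have h7 : lRp c R ^ 2 * (1 - z ^ 2) = sin (Φ (arcsin z) - arctan ar) ^ 2 := by
        rw [h5, cos_arcsin, mul_pow, Real.sq_sqrt]
        nlinarith [abs_lt.1 hz]
      rw [h7]
      nlinarith
    · have h7 : lRp c R ^ 2 * (1 - z ^ 2) = sin (Φ (arcsin z) - arctan ar) ^ 2 := by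
        rw [h5, cos_arcsin, mul_pow, Real.sq_sqrt]
        nlinarith [abs_lt.1 hz]
      rw [h7]
      nlinarith [sin_sq_add_cos_sq (Φ (arcsin z) - arctan ar),
        sq_nonneg (cos (Φ (arcsin z) - arctan ar))]
    · exact (cos_pos_of_mem_Ioo ⟨by linarith [h4.1], h4.2⟩).le

theorem phZ_left (φr : ℝ) : ∃ z1 : ℝ, 0 < z1 ∧ z1 < 1 ∧ ∀ z, z1 < z → z ≤ 1 →
    sin (π + arctan al - phZ Φ φr (π + arctan al) z) = lRp c R * √(1 - z ^ 2) ∧
    cos (π + arctan al - phZ Φ φr (π + arctan al) z) = √(1 - lRp c R ^ 2 * (1 - z ^ 2)) := by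
  obtain ⟨x0, h0, h1, h2⟩ := h.pole_l
  have hpi := pi_gt_three
  have hs0 : 0 < sin x0 := sin_pos_of_pos_of_lt_pi h0 (by linarith)
  have hs1 : sin x0 < 1 := by
    rw [← sin_pi_div_two]
    exact sin_lt_sin_of_lt_of_le_pi_div_two (by linarith) le_rfl h1
  refine ⟨sin x0, by linarith, by linarith, fun z hz1 hz2 => ?_⟩
  rcases eq_or_lt_of_le hz2 with h3 | h3
  · rw [h3]
    unfold phZ
    rw [if_neg (by norm_num), if_pos le_rfl, sub_self, sin_zero, cos_zero]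
    norm_num
  · have hz : |z| < 1 := abs_lt.2 ⟨by linarith, h3⟩
    have hx := arcsin_mem_Lat hz
    have hx0 : x0 < arcsin z := by
      rw [lt_arcsin_iff_sin_lt ⟨by linarith, by linarith⟩ ⟨by linarith, h3.le⟩]
      exact hz1
    obtain ⟨h4, h5⟩ := h2 _ hx hx0
    rw [phZ_of_lt Φ φr _ hz, ← cos_arcsin, ← h5]
    have h7 : lRp c R ^ 2 * (1 - z ^ 2) = sin (π + arctan al - Φ (arcsin z)) ^ 2 := by
      rw [h5, cos_arcsin, mul_pow, Real.sq_sqrt]
      nlinarith [abs_lt.1 hz]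
    refine ⟨rfl, ?_⟩
    rw [eq_comm, Real.sqrt_eq_iff_mul_self_eq]
    · have h6 := sin_sq_add_cos_sq (π + arctan al - Φ (arcsin z))
      rw [h7]
      nlinarith
    · rw [h7]
      nlinarith [sin_sq_add_cos_sq (π + arctan al - Φ (arcsin z)),
        sq_nonneg (cos (π + arctan al - Φ (arcsin z)))]
    · exact (cos_pos_of_mem_Ioo ⟨by linarith [h4.1], h4.2⟩).le

end link

end Pool.Agent.W_MP_654ec6
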