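import Pool.Agent.W_MP_654ec6.A.IsoDense
import Pool.Agent.W_MP_654ec6.A.Scale
import Pool.Agent.W_MP_654ec6.C.MetC
import Pool.Agent.W_MP_654ec6.C.Vertex
import Pool.Agent.W_MP_654ec6.F.PhZ

/-!
# The transition from the cone part of the neck patch `D_k` to the ambient patches `C_j`

In the cone part of the neck (`m = 1`, `l(t) = R' (t - t_*)`) the point `u` with `|u| = t`,
`u = t (sin x, cos x ξ)`, is the ambient point over `(X, Y) = x_k + r (cos Φ(x), sin Φ(x))`,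
`r = s (t - t_*)`, with the direction `ξ`.
-/

open scoped ContDiff Topology
open Filter Set Real

namespace Pool.Agent.W_MP_654ec6

/-- The angle `Φ(x)` of the point `u = |u| (sin x, cos x ξ)` at the vertex `k`. -/
noncomputable def uph (N : ℕ∞) (k : ℕ) (Φ : ℝ → ℝ) (u : E4) : ℝ :=
  phZ Φ (arctan (aa N (k - 1))) (π + arctan (aa N k)) (u 0 / ‖u‖)

/-- The radius `r = s (t - t_*)`. -/
noncomputable def urad (s ts : ℝ) (u : E4) : ℝ := s * (‖u‖ - ts)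

/-- The abscissa of the ambient point represented by `u`. -/
noncomputable def qX (N : ℕ∞) (k : ℕ) (Φ : ℝ → ℝ) (s ts : ℝ) (u : E4) : ℝ :=
  zz k + urad s ts u * cos (uph N k Φ u)

/-- The ordinate of the ambient point represented by `u`. -/
noncomputable def qY (N : ℕ∞) (k : ℕ) (Φ : ℝ → ℝ) (s ts : ℝ) (u : E4) : ℝ :=
  FF N (zz k) + urad s ts u * sin (uph N k Φ u)

/-- The transition from the patch `D_k` to the patch `C_j`. -/
noncomputable def thDC (N : ℕ∞) (k j : ℕ) (Φ : ℝ → ℝ) (s ts : ℝ) (u : E4) : E4 :=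
  mk4 (lc N j (qX N k Φ s ts u) (qY N k Φ s ts u)) (sc N j (qX N k Φ s ts u) (qY N k Φ s ts u))
    ![u 1 / n3 u, u 2 / n3 u, u 3 / n3 u]

/-- The data of the transition: `T` is an open set of times of the cone part. -/
structure DCData (R : ℝ) (N : ℕ∞) (k : ℕ) (η Φ H : ℝ → ℝ) (s ts : ℝ) (T : Set ℝ)
    (l m : ℝ → ℝ) : Prop where
  hR : 0 < R
  hR' : R ≤ 1 / 9
  hk : 1 ≤ k
  hkN : (k : ℕ∞) ≤ N
  link : IsLink R (aa N k) (cc N k) (aa N (k - 1)) η Φ H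
  s_pos : 0 < s
  isOpen_T : IsOpen T
  T_pos : ∀ t ∈ T, 0 < t
  T_r : ∀ t ∈ T, 0 < s * (t - ts) ∧ s * (t - ts) ≤ zz k / 8
  l_eq : ∀ t ∈ T, l t = lRp (cc N k) R * (t - ts)
  m_eq : ∀ t ∈ T, m t = 1

theorem abs_uz_lt {u : E4} (hu : n3 u ≠ 0) : |u 0 / ‖u‖| < 1 := by
  have h3 := n3_sq u
  have h4 := norm_sq_E4 u
  have h5 : 0 < n3 u ^ 2 := by positivity
  have h6 : 0 < ‖u‖ := by
    refine lt_of_le_of_ne (norm_nonneg _) fun h => ?_
    rw [← h] at h4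
    nlinarith only [sq_nonneg (u 0), sq_nonneg (u 1), sq_nonneg (u 2), sq_nonneg (u 3), h3, h5, h4]
  rw [abs_div, abs_of_pos h6, div_lt_one h6]
  exact abs_lt_of_sq_lt_sq (by nlinarith) h6.le

theorem ne_zero_of_n3 {u : E4} (hu : n3 u ≠ 0) : u ≠ 0 := by
  rintro rfl
  exact hu (n3_eq_zero.2 ⟨rfl, rfl, rfl⟩)

theorem one_sub_uz {u : E4} (hu : u ≠ 0) : 1 - (u 0 / ‖u‖) ^ 2 = n3 u ^ 2 / ‖u‖ ^ 2 := by
  have h6 : 0 < ‖u‖ := norm_pos_iff.2 hu
  rw [div_pow, n3_sq]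
  have h4 := norm_sq_E4 u
  field_simp
  linarith

theorem sqrt_one_sub_uz {u : E4} (hu : u ≠ 0) : √(1 - (u 0 / ‖u‖) ^ 2) = n3 u / ‖u‖ := by
  rw [one_sub_uz hu, ← div_pow, Real.sqrt_sq (div_nonneg (n3_nonneg u) (norm_nonneg u))]

theorem xi_unit {u : E4} (hu : n3 u ≠ 0) :
    (![u 1 / n3 u, u 2 / n3 u, u 3 / n3 u] : Fin 3 → ℝ) 0 ^ 2 +
      (![u 1 / n3 u, u 2 / n3 u, u 3 / n3 u] : Fin 3 → ℝ) 1 ^ 2 +
      (![u 1 / n3 u, u 2 / n3 u, u 3 / n3 u] : Fin 3 → ℝ) 2 ^ 2 = 1 := (mk4_eta hu).2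

theorem dc_alg {t n u0 u1 u2 u3 v0 v1 v2 v3 P A s r Rp d E β Q c sn : ℝ} (ht : 0 < t)
    (hn : 0 < n) (hn2 : n ^ 2 = u1 ^ 2 + u2 ^ 2 + u3 ^ 2)
    (ht2 : t ^ 2 = u0 ^ 2 + u1 ^ 2 + u2 ^ 2 + u3 ^ 2)
    (hP : P = u0 * v0 + u1 * v1 + u2 * v2 + u3 * v3) (hA : A = u1 * v1 + u2 * v2 + u3 * v3)
    (hcs : sn ^ 2 + c ^ 2 = 1) (hβ : n ^ 2 / t ^ 2 * β = E ^ 2 - 1) (hr : r = s * d)
    (hQ : Q = Rp * E / (n / t) * ((v0 * t ^ 2 - u0 * P) / t ^ 3)) :
    (s * (P / t) * c - r * (sn * Q)) ^ 2 + (s * (P / t) * sn + r * (c * Q)) ^ 2 +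
      (r * (Rp * (n / t))) ^ 2 * (((v1 * n ^ 2 - u1 * A) / n ^ 3) ^ 2 +
        ((v2 * n ^ 2 - u2 * A) / n ^ 3) ^ 2 + ((v3 * n ^ 2 - u3 * A) / n ^ 3) ^ 2) =
    s ^ 2 * ((Rp * d / t) ^ 2 * (v0 ^ 2 + v1 ^ 2 + v2 ^ 2 + v3 ^ 2) +
      (1 - (Rp * d / t) ^ 2) * ((u0 * v0 + u1 * v1 + u2 * v2 + u3 * v3) ^ 2 / t ^ 2) +
      (Rp * d) ^ 2 * β *
        (v0 / t - u0 * (u0 * v0 + u1 * v1 + u2 * v2 + u3 * v3) / t ^ 3) ^ 2) := by
  rw [← hP]
  obtain ⟨W, hW⟩ : ∃ W, W = v1 ^ 2 + v2 ^ 2 + v3 ^ 2 := ⟨_, rfl⟩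
  obtain ⟨D, hD⟩ : ∃ D, D = (v0 * t ^ 2 - u0 * P) / t ^ 3 := ⟨_, rfl⟩
  have e1 : v0 / t - u0 * P / t ^ 3 = D := by
    rw [hD]
    field_simp
  have e2 : v0 ^ 2 + v1 ^ 2 + v2 ^ 2 + v3 ^ 2 = v0 ^ 2 + W := by rw [hW]; ring
  have e3 : ((v1 * n ^ 2 - u1 * A) / n ^ 3) ^ 2 + ((v2 * n ^ 2 - u2 * A) / n ^ 3) ^ 2 +
      ((v3 * n ^ 2 - u3 * A) / n ^ 3) ^ 2 = (n ^ 2 * W - A ^ 2) / n ^ 4 := by
    have e4 : (v1 * n ^ 2 - u1 * A) ^ 2 + (v2 * n ^ 2 - u2 * A) ^ 2 + (v3 * n ^ 2 - u3 * A) ^ 2 =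
        n ^ 2 * (n ^ 2 * W - A ^ 2) := by
      rw [hW]
      linear_combination (2 * n ^ 2 * A) * hA - A ^ 2 * hn2
    rw [div_pow, div_pow, div_pow, ← add_div, ← add_div, e4]
    field_simp
  have hn' : n ^ 2 = t ^ 2 - u0 ^ 2 := by rw [hn2, ht2]; ring
  have hA' : A = P - u0 * v0 := by rw [hA, hP]; ring
  have key0 : (v0 * t ^ 2 - u0 * P) ^ 2 - t ^ 2 * A ^ 2 - n ^ 2 * t ^ 2 * v0 ^ 2 +
      n ^ 2 * P ^ 2 = 0 := by
    rw [hA']
    linear_combination (P ^ 2 - t ^ 2 * v0 ^ 2) * hn'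
  have key : t ^ 2 / n ^ 2 * D ^ 2 + (n ^ 2 * W - A ^ 2) / (n ^ 2 * t ^ 2) -
      (v0 ^ 2 + W) / t ^ 2 + P ^ 2 / t ^ 4 = 0 := by
    rw [hD]
    field_simp
    linear_combination key0
  have hβ' : β = (E ^ 2 - 1) * (t ^ 2 / n ^ 2) := by
    rw [← hβ]
    field_simp
  have hQ' : Q = Rp * E * (t / n) * D := by
    rw [hQ, hD]
    field_simp
  rw [e1, e2, e3, hβ', hQ', hr]
  have e5 : (s * d * (Rp * (n / t))) ^ 2 * ((n ^ 2 * W - A ^ 2) / n ^ 4) =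
      (s * d * Rp) ^ 2 * ((n ^ 2 * W - A ^ 2) / (n ^ 2 * t ^ 2)) := by
    field_simp
  rw [e5]
  linear_combination (s ^ 2 * (P / t) ^ 2 + (s * d) ^ 2 * (Rp * E * (t / n) * D) ^ 2) * hcs +
    (s * d * Rp) ^ 2 * key

namespace DCData

variable {R : ℝ} {N : ℕ∞} {k j : ℕ} {η Φ H : ℝ → ℝ} {s ts : ℝ} {T : Set ℝ} {l m : ℝ → ℝ}
  (h : DCData R N k η Φ H s ts T l m)

include h

theorem ne_zero {u : E4} (hu : ‖u‖ ∈ T) : u ≠ 0 := norm_pos_iff.1 (h.T_pos _ hu)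

theorem GG_lt {u : E4} (hu : ‖u‖ ∈ T) (h3 : n3 u ≠ 0) :
    GG N (qX N k Φ s ts u) < qY N k Φ s ts u := by
  have h1 := h.T_r _ hu
  have h2 : uph N k Φ u ∈ Ioo (arctan (aa N (k - 1))) (π + arctan (aa N k)) :=
    phZ_mem h.link (arctan (aa N (k - 1))) (π + arctan (aa N k)) (abs_uz_lt h3)
  have hpi := pi_gt_three
  obtain ⟨h4, h5, h6, h7⟩ := vertex_slopes h.hk h.hkN
  have h8 : arctan (aa N k) < π / 2 := arctan_lt_pi_div_two _
  have h9 : 0 ≤ arctan (aa N (k - 1)) := arctan_nonneg.2 (by linarith)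
  exact (vertex_mem h.hk h.hkN (r := urad s ts u) (φ := uph N k Φ u) h1.1 h1.2
    (by linarith [h2.1]) (by linarith [h2.2])).2 h2

theorem sc_pos' {u : E4} (hj : (j : ℕ∞) ≤ N) (hu : ‖u‖ ∈ T) (h3 : n3 u ≠ 0) :
    0 < sc N j (qX N k Φ s ts u) (qY N k Φ s ts u) := sc_pos hj (h.GG_lt hu h3)

theorem pX_thDC {u : E4} (hj : (j : ℕ∞) ≤ N) (hu : ‖u‖ ∈ T) (h3 : n3 u ≠ 0) :
    pX N j (thDC N k j Φ s ts u) = qX N k Φ s ts u :=
  pX_mk4 N j (h.sc_pos' hj hu h3).le (xi_unit h3)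

theorem pY_thDC {u : E4} (hj : (j : ℕ∞) ≤ N) (hu : ‖u‖ ∈ T) (h3 : n3 u ≠ 0) :
    pY N j (thDC N k j Φ s ts u) = qY N k Φ s ts u :=
  pY_mk4 N j (h.sc_pos' hj hu h3).le (xi_unit h3)

theorem n3_thDC {u : E4} (hj : (j : ℕ∞) ≤ N) (hu : ‖u‖ ∈ T) (h3 : n3 u ≠ 0) :
    n3 (thDC N k j Φ s ts u) = sc N j (qX N k Φ s ts u) (qY N k Φ s ts u) :=
  n3_mk4 _ (h.sc_pos' hj hu h3).le (xi_unit h3)

theorem xi_thDC {u : E4} (hj : (j : ℕ∞) ≤ N) (hu : ‖u‖ ∈ T) (h3 : n3 u ≠ 0) (i : Fin 3) :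
    thDC N k j Φ s ts u i.succ / n3 (thDC N k j Φ s ts u) = u i.succ / n3 u := by
  rw [h.n3_thDC hj hu h3]
  have h1 := (h.sc_pos' hj hu h3).ne'
  unfold thDC mk4
  fin_cases i
  · change sc N j _ _ * (u 1 / n3 u) / sc N j _ _ = u 1 / n3 u
    field_simp
  · change sc N j _ _ * (u 2 / n3 u) / sc N j _ _ = u 2 / n3 u
    field_simp
  · change sc N j _ _ * (u 3 / n3 u) / sc N j _ _ = u 3 / n3 u
    field_simp

theorem thDC_mem {u : E4} (hj : (j : ℕ∞) ≤ N) (hu : ‖u‖ ∈ T) (h3 : n3 u ≠ 0) :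
    thDC N k j Φ s ts u ∈ VC N j := by
  left
  rw [h.pX_thDC hj hu h3, h.pY_thDC hj hu h3]
  exact h.GG_lt hu h3

theorem contDiffAt_uph {u : E4} (h3 : n3 u ≠ 0) : ContDiffAt ℝ ∞ (uph N k Φ) u := by
  have h0 : u ≠ 0 := ne_zero_of_n3 h3
  have hz : ContDiffAt ℝ ∞ (fun u : E4 => u 0 / ‖u‖) u :=
    (contDiffAt_coord 0 u).div (contDiffAt_nrm h0) (norm_ne_zero_iff.2 h0)
  exact (contDiffAt_phZ h.link _ _ (abs_uz_lt h3)).comp u hz

theorem contDiffAt_urad {u : E4} (hu : ‖u‖ ∈ T) : ContDiffAt ℝ ∞ (urad s ts) u :=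
  contDiffAt_const.mul ((contDiffAt_nrm (h.ne_zero hu)).sub contDiffAt_const)

theorem contDiffAt_qX {u : E4} (hu : ‖u‖ ∈ T) (h3 : n3 u ≠ 0) :
    ContDiffAt ℝ ∞ (qX N k Φ s ts) u :=
  contDiffAt_const.add ((h.contDiffAt_urad hu).mul (h.contDiffAt_uph h3).cos)

theorem contDiffAt_qY {u : E4} (hu : ‖u‖ ∈ T) (h3 : n3 u ≠ 0) :
    ContDiffAt ℝ ∞ (qY N k Φ s ts) u :=
  contDiffAt_const.add ((h.contDiffAt_urad hu).mul (h.contDiffAt_uph h3).sin)

theorem contDiffAt_thDC {u : E4} (hu : ‖u‖ ∈ T) (h3 : n3 u ≠ 0) :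
    ContDiffAt ℝ ∞ (thDC N k j Φ s ts) u := by
  have hX := h.contDiffAt_qX hu h3
  have hY := h.contDiffAt_qY hu h3
  have hn := contDiffAt_n3 h3
  have hl : ContDiffAt ℝ ∞ (fun u => lc N j (qX N k Φ s ts u) (qY N k Φ s ts u)) u :=
    ((hX.sub contDiffAt_const).add (contDiffAt_const.mul (hY.sub contDiffAt_const))).div_const _
  have hs : ContDiffAt ℝ ∞ (fun u => sc N j (qX N k Φ s ts u) (qY N k Φ s ts u)) u :=
    ((hY.sub contDiffAt_const).sub (contDiffAt_const.mul (hX.sub contDiffAt_const))).div_const _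
  rw [contDiffAt_euclidean]
  intro i
  fin_cases i
  · exact hl
  · exact hs.mul ((contDiffAt_coord 1 u).div hn h3)
  · exact hs.mul ((contDiffAt_coord 2 u).div hn h3)
  · exact hs.mul ((contDiffAt_coord 3 u).div hn h3)

theorem bb_q {u : E4} (hu : ‖u‖ ∈ T) (h3 : n3 u ≠ 0) :
    bb R N (qX N k Φ s ts u) (qY N k Φ s ts u) =
      urad s ts u * (lRp (cc N k) R * (n3 u / ‖u‖)) := by
  have h1 := h.T_r _ hu
  have h2 := phZ_mem h.link (arctan (aa N (k - 1))) (π + arctan (aa N k)) (abs_uz_lt h3)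
  have h4 := bb_vertex h.hR (by linarith [h.hR']) h.hk h.hkN (r := urad s ts u)
    (φ := uph N k Φ u) h1.1 h1.2 h2.1.le h2.2.le
  have h5 := linkf_phZ h.link (arctan (aa N (k - 1))) (π + arctan (aa N k)) (abs_uz_lt h3)
  rw [sqrt_one_sub_uz (ne_zero_of_n3 h3)] at h5
  unfold qX qY
  rw [h4]
  unfold uph
  rw [h5]

/-- The metrics agree at the points off the axis. -/
theorem qf_thDC {u : E4} (hj : (j : ℕ∞) ≤ N) (hu : ‖u‖ ∈ T) (h3 : n3 u ≠ 0) (v : E4) :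
    qf (gC R N j (thDC N k j Φ s ts u)) (fderiv ℝ (thDC N k j Φ s ts) u v) =
      qf (smulMet (s ^ 2) (neckZ l m H) u) v := by
  have h0 : u ≠ 0 := h.ne_zero hu
  have ht : 0 < ‖u‖ := norm_pos_iff.2 h0
  have hn : 0 < n3 u := lt_of_le_of_ne (n3_nonneg u) (Ne.symm h3)
  have hz := abs_uz_lt h3
  have hd : DifferentiableAt ℝ (thDC N k j Φ s ts) u :=
    (h.contDiffAt_thDC hu h3).differentiableAt (by simp)
  have hcn : ContinuousAt n3 u := continuous_n3.continuousAt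
  have hev : ∀ᶠ w : E4 in 𝓝 u, ‖w‖ ∈ T ∧ n3 w ≠ 0 :=
    (continuous_norm.continuousAt.eventually (h.isOpen_T.mem_nhds hu)).and
      (hcn.eventually (isOpen_ne.mem_nhds h3))
  rw [qf_gC_comp R N j hd (by rw [h.n3_thDC hj hu h3]; exact (h.sc_pos' hj hu h3).ne'),
    h.pX_thDC hj hu h3, h.pY_thDC hj hu h3, h.bb_q hu h3]
  have e1 : (fun y => pX N j (thDC N k j Φ s ts y)) =ᶠ[𝓝 u] qX N k Φ s ts :=
    hev.mono fun w hw => h.pX_thDC hj hw.1 hw.2
  have e2 : (fun y => pY N j (thDC N k j Φ s ts y)) =ᶠ[𝓝 u] qY N k Φ s ts :=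
    hev.mono fun w hw => h.pY_thDC hj hw.1 hw.2
  have e3 : (fun y => thDC N k j Φ s ts y 1 / n3 (thDC N k j Φ s ts y)) =ᶠ[𝓝 u]
      fun y => y 1 / n3 y := hev.mono fun w hw => h.xi_thDC hj hw.1 hw.2 0
  have e4 : (fun y => thDC N k j Φ s ts y 2 / n3 (thDC N k j Φ s ts y)) =ᶠ[𝓝 u]
      fun y => y 2 / n3 y := hev.mono fun w hw => h.xi_thDC hj hw.1 hw.2 1
  have e5 : (fun y => thDC N k j Φ s ts y 3 / n3 (thDC N k j Φ s ts y)) =ᶠ[𝓝 u]
      fun y => y 3 / n3 y := hev.mono fun w hw => h.xi_thDC hj hw.1 hw.2 2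
  rw [e1.fderiv_eq, e2.fderiv_eq, e3.fderiv_eq, e4.fderiv_eq, e5.fderiv_eq]
  have hdx (i : Fin 4) : DifferentiableAt ℝ (fun y : E4 => y i / n3 y) u :=
    ((contDiffAt_coord i u).div (contDiffAt_n3 h3) h3).differentiableAt (by simp)
  rw [fderiv_line (hdx 1) v (hasDerivAt_xi_line h3 v 1),
    fderiv_line (hdx 2) v (hasDerivAt_xi_line h3 v 2),
    fderiv_line (hdx 3) v (hasDerivAt_xi_line h3 v 3)]
  -- derivatives of the radius and of the angle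
  have hr : HasDerivAt (fun τ : ℝ => urad s ts (u + τ • v)) (s * (dot u v / ‖u‖)) 0 :=
    ((hasDerivAt_norm_line h0 v).sub_const ts).const_mul s
  have hp : HasDerivAt (fun τ : ℝ => uph N k Φ (u + τ • v))
      (lRp (cc N k) R * Real.exp (η (arcsin (u 0 / ‖u‖))) / √(1 - (u 0 / ‖u‖) ^ 2) *
        ((v 0 * ‖u‖ ^ 2 - u 0 * dot u v) / ‖u‖ ^ 3)) 0 := by
    have h4 := hasDerivAt_phZ h.link (arctan (aa N (k - 1))) (π + arctan (aa N k)) hz
    have h5 := hasDerivAt_uz_line h0 v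
    have h6 : (fun τ : ℝ => (u + τ • v) 0 / ‖u + τ • v‖) 0 = u 0 / ‖u‖ := by
      simp only [zero_smul, add_zero]
    rw [← h6] at h4
    have h7 := h4.comp (0 : ℝ) h5
    rw [h6] at h7
    exact h7
  obtain ⟨E, hE⟩ : ∃ E, E = Real.exp (η (arcsin (u 0 / ‖u‖))) := ⟨_, rfl⟩
  rw [← hE, sqrt_one_sub_uz h0] at hp
  obtain ⟨Q, hQ⟩ : ∃ Q, Q = lRp (cc N k) R * E / (n3 u / ‖u‖) *
        ((v 0 * ‖u‖ ^ 2 - u 0 * dot u v) / ‖u‖ ^ 3) := ⟨_, rfl⟩
  rw [← hQ] at hp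
  have hz0 : u + (0 : ℝ) • v = u := by rw [zero_smul, add_zero]
  have hX : HasDerivAt (fun τ : ℝ => qX N k Φ s ts (u + τ • v))
      (s * (dot u v / ‖u‖) * cos (uph N k Φ u) - urad s ts u * (sin (uph N k Φ u) * Q)) 0 := by
    refine ((hr.mul hp.cos).const_add (zz k)).congr_deriv ?_
    rw [hz0]
    ring
  have hY : HasDerivAt (fun τ : ℝ => qY N k Φ s ts (u + τ • v))
      (s * (dot u v / ‖u‖) * sin (uph N k Φ u) + urad s ts u * (cos (uph N k Φ u) * Q)) 0 := by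
    refine ((hr.mul hp.sin).const_add (FF N (zz k))).congr_deriv ?_
    rw [hz0]
  rw [fderiv_line ((h.contDiffAt_qX hu h3).differentiableAt (by simp)) v hX,
    fderiv_line ((h.contDiffAt_qY hu h3).differentiableAt (by simp)) v hY, qf_smulMet, qf_neckZ,
    h.l_eq _ hu, h.m_eq _ hu]
  have hβ : n3 u ^ 2 / ‖u‖ ^ 2 * nBeta 1 (H (u 0 / ‖u‖)) (u 0 / ‖u‖) = E ^ 2 - 1 := by
    rw [← one_sub_uz h0, nBeta_mul, hE, ← Real.exp_nat_mul, h.link.eta_H _ (arcsin_mem_Lat hz),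
      sin_arcsin (abs_lt.1 hz).1.le (abs_lt.1 hz).2.le, cos_arcsin,
      Real.sq_sqrt (by nlinarith only [abs_lt.1 hz])]
    congr 2
    push_cast
    ring
  exact dc_alg ht hn (n3_sq u) (norm_sq_E4 u) rfl rfl (sin_sq_add_cos_sq _) hβ rfl hQ

theorem isoAt_thDC {u : E4} (hj : (j : ℕ∞) ≤ N) (hu : ‖u‖ ∈ T) (h3 : n3 u ≠ 0) :
    IsoAt (smulMet (s ^ 2) (neckZ l m H)) (gC R N j) (thDC N k j Φ s ts) u := by
  refine ⟨h.contDiffAt_thDC hu h3, ?_⟩
  have hev : ∀ᶠ w : E4 in 𝓝 u, ‖w‖ ∈ T ∧ n3 w ≠ 0 :=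
    (continuous_norm.continuousAt.eventually (h.isOpen_T.mem_nhds hu)).and
      (continuous_n3.continuousAt.eventually (isOpen_ne.mem_nhds h3))
  filter_upwards [hev] with w hw v
  exact h.qf_thDC hj hw.1 hw.2 v

/-! ### The poles -/

theorem goodMet_T : GoodMet (smulMet (s ^ 2) (neckZ l m H)) {u : E4 | ‖u‖ ∈ T} := by
  have hl : ∀ t ∈ T, ContDiffAt ℝ ∞ l t := fun t ht => by
    have h1 : l =ᶠ[𝓝 t] fun t => lRp (cc N k) R * (t - ts) := by
      filter_upwards [h.isOpen_T.mem_nhds ht] with x hx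
      exact h.l_eq x hx
    exact ContDiffAt.congr_of_eventuallyEq
      (contDiffAt_const.mul (contDiffAt_id.sub contDiffAt_const)) h1
  have hm : ∀ t ∈ T, ContDiffAt ℝ ∞ m t := fun t ht => by
    have h1 : m =ᶠ[𝓝 t] fun _ => 1 := by
      filter_upwards [h.isOpen_T.mem_nhds ht] with x hx
      exact h.m_eq x hx
    exact ContDiffAt.congr_of_eventuallyEq contDiffAt_const h1
  have hlp : ∀ t ∈ T, 0 < l t := fun t ht => by
    rw [h.l_eq t ht]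
    exact mul_pos h.link.linkFun.Rp_pos (pos_of_mul_pos_right (h.T_r t ht).1 h.s_pos.le)
  exact goodMet_smul (goodMet_neckZ h.T_pos hl hm h.link.smooth_H hlp) (pow_pos h.s_pos 2)

theorem urad_pos {u : E4} (hu : ‖u‖ ∈ T) : 0 < urad s ts u := (h.T_r _ hu).1

theorem urad_le {u : E4} (hu : ‖u‖ ∈ T) : urad s ts u ≤ zz k / 8 := (h.T_r _ hu).2

end DCData

theorem lc_add (N : ℕ∞) (j : ℕ) (X Y A B : ℝ) :
    lc N j (X + A) (Y + B) = lc N j X Y + (A + aa N j * B) / oj N j := by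
  unfold lc
  ring

theorem sc_add (N : ℕ∞) (j : ℕ) (X Y A B : ℝ) :
    sc N j (X + A) (Y + B) = sc N j X Y + (B - aa N j * A) / oj N j := by
  unfold sc
  ring

theorem cos_sub_arctan (N : ℕ∞) (j : ℕ) (φ : ℝ) :
    (cos φ + aa N j * sin φ) / oj N j = cos (φ - arctan (aa N j)) := by
  unfold oj
  rw [cos_sub, cos_arctan, sin_arctan]
  have h : 0 < √(1 + aa N j ^ 2) := Real.sqrt_pos.2 (by positivity)
  field_simp

theorem sin_sub_arctan (N : ℕ∞) (j : ℕ) (φ : ℝ) :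
    (sin φ - aa N j * cos φ) / oj N j = sin (φ - arctan (aa N j)) := by
  unfold oj
  exact lE_eq (aa N j) φ

/-- The explicit form of the transition near a pole. -/
noncomputable def thP (ε c0 Rp s ts : ℝ) (w : E4) : E4 :=
  WithLp.toLp 2 ![c0 + ε * (urad s ts w * √(1 - Rp ^ 2 * (1 - (w 0 / ‖w‖) ^ 2))),
    urad s ts w * Rp * (w 1 / ‖w‖), urad s ts w * Rp * (w 2 / ‖w‖),
    urad s ts w * Rp * (w 3 / ‖w‖)]

/-- A side of the vertex `k`: the edge `j` adjacent to it and a set `Z` of values of `z = u₀/|u|`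
containing the pole. -/
structure DCSide (R : ℝ) (N : ℕ∞) (k j : ℕ) (Φ : ℝ → ℝ) (ε : ℝ) (Z : Set ℝ) : Prop where
  hj : (j : ℕ∞) ≤ N
  isOpen_Z : IsOpen Z
  eps : ε = 1 ∨ ε = -1
  sc_zero : sc N j (zz k) (FF N (zz k)) = 0
  edge : ∀ r, 0 < r → r ≤ zz k / 8 → opEdge N j (zz k + r * (ε / oj N j))
  ang : ∀ z ∈ Z, |z| ≤ 1 →
    sin (phZ Φ (arctan (aa N (k - 1))) (π + arctan (aa N k)) z - arctan (aa N j)) =
      lRp (cc N k) R * √(1 - z ^ 2) ∧
    cos (phZ Φ (arctan (aa N (k - 1))) (π + arctan (aa N k)) z - arctan (aa N j)) =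
      ε * √(1 - lRp (cc N k) R ^ 2 * (1 - z ^ 2))

namespace DCData

variable {R : ℝ} {N : ℕ∞} {k j : ℕ} {η Φ H : ℝ → ℝ} {s ts : ℝ} {T : Set ℝ} {l m : ℝ → ℝ}
  (h : DCData R N k η Φ H s ts T l m)

include h

theorem k_sub_lt : ((k - 1 : ℕ) : ℕ∞) < N := by
  have h1 := h.hk
  refine lt_of_lt_of_le ?_ h.hkN
  exact_mod_cast (show k - 1 < k by omega)

theorem k_sub_add : k - 1 + 1 = k := Nat.sub_add_cancel h.hk

theorem side_right : ∃ Z : Set ℝ, DCSide R N k (k - 1) Φ 1 Z ∧ -1 ∈ Z := by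
  obtain ⟨z1, h1, h2, h3⟩ := phZ_right h.link (π + arctan (aa N k))
  have hlt := h.k_sub_lt
  have hk1 := h.k_sub_add
  have hz := zz_pos k
  refine ⟨Iio z1, ⟨hlt.le, isOpen_Iio, Or.inl rfl, ?_, ?_, ?_⟩, h1⟩
  · rw [sc_eq]
    have h4 := line_at_left hlt
    rw [hk1] at h4
    rw [h4, sub_self, zero_div]
  · intro r hr hr'
    have ho := one_le_oj N (k - 1)
    have h4 : 0 < r * (1 / oj N (k - 1)) := mul_pos hr (div_pos one_pos (by linarith))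
    have h5 : r * (1 / oj N (k - 1)) ≤ r := by
      have : 1 / oj N (k - 1) ≤ 1 := by
        rw [div_le_one (by linarith)]
        exact ho
      nlinarith
    refine ⟨hlt.le, fun _ => ?_, fun h6 => absurd hlt h6, ?_⟩
    · rw [hk1]
      linarith
    · rcases Nat.eq_zero_or_pos (k - 1) with h6 | h6
      · exact Or.inl h6
      · right
        have h7 := zz_succ (k - 1)
        rw [hk1] at h7
        linarith
  · intro z hz hz1
    obtain ⟨h4, h5⟩ := h3 z (abs_le.1 hz1).1 hz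
    exact ⟨h4, by rw [h5, one_mul]⟩

theorem side_left : ∃ Z : Set ℝ, DCSide R N k k Φ (-1) Z ∧ 1 ∈ Z := by
  obtain ⟨z1, h1, h2, h3⟩ := phZ_left h.link (arctan (aa N (k - 1)))
  have hz := zz_pos k
  refine ⟨Ioi z1, ⟨h.hkN, isOpen_Ioi, Or.inr rfl, ?_, ?_, ?_⟩, h2⟩
  · rw [sc_eq, line_at_right h.hk h.hkN, sub_self, zero_div]
  · intro r hr hr'
    have ho := one_le_oj N k
    have h4 : 0 < r * (1 / oj N k) := mul_pos hr (div_pos one_pos (by linarith))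
    have h5 : r * (1 / oj N k) ≤ r := by
      have : 1 / oj N k ≤ 1 := by
        rw [div_le_one (by linarith)]
        exact ho
      nlinarith
    have h6 : r * (-1 / oj N k) = -(r * (1 / oj N k)) := by ring
    rw [h6]
    refine ⟨h.hkN, fun _ => ?_, fun _ => by linarith, Or.inr (by linarith)⟩
    rw [zz_succ]
    linarith
  · intro z hz hz1
    obtain ⟨h4, h5⟩ := h3 z hz (abs_le.1 hz1).2
    obtain ⟨φ, hφ⟩ : ∃ φ, φ = phZ Φ (arctan (aa N (k - 1))) (π + arctan (aa N k)) z := ⟨_, rfl⟩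
    rw [← hφ] at h4 h5 ⊢
    have h6 : φ - arctan (aa N k) = π - (π + arctan (aa N k) - φ) := by ring
    rw [h6, sin_pi_sub, cos_pi_sub, h4, h5]
    exact ⟨rfl, by ring⟩

end DCData

theorem abs_uz_le (u : E4) : |u 0 / ‖u‖| ≤ 1 := by
  rcases eq_or_ne u 0 with rfl | hu
  · simp
  have h6 : 0 < ‖u‖ := norm_pos_iff.2 hu
  rw [abs_div, abs_of_pos h6, div_le_one h6]
  have h4 := norm_sq_E4 u
  exact abs_le_of_sq_le_sq (by nlinarith [sq_nonneg (u 1), sq_nonneg (u 2), sq_nonneg (u 3)])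
    h6.le

namespace DCData

variable {R : ℝ} {N : ℕ∞} {k j : ℕ} {η Φ H : ℝ → ℝ} {s ts : ℝ} {T : Set ℝ} {l m : ℝ → ℝ}
  (h : DCData R N k η Φ H s ts T l m) {ε : ℝ} {Z : Set ℝ} (hs : DCSide R N k j Φ ε Z)

include h hs

theorem side_lc {w : E4} (hz : w 0 / ‖w‖ ∈ Z) :
    lc N j (qX N k Φ s ts w) (qY N k Φ s ts w) = lc N j (zz k) (FF N (zz k)) +
      ε * (urad s ts w * √(1 - lRp (cc N k) R ^ 2 * (1 - (w 0 / ‖w‖) ^ 2))) := by
  have h1 := (hs.ang _ hz (abs_uz_le w)).2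
  unfold qX qY
  rw [lc_add]
  have h2 : (urad s ts w * cos (uph N k Φ w) + aa N j * (urad s ts w * sin (uph N k Φ w))) /
      oj N j = urad s ts w * ((cos (uph N k Φ w) + aa N j * sin (uph N k Φ w)) / oj N j) := by
    ring
  rw [h2, cos_sub_arctan]
  unfold uph
  rw [h1]
  ring

theorem side_sc {w : E4} (hw : w ≠ 0) (hz : w 0 / ‖w‖ ∈ Z) :
    sc N j (qX N k Φ s ts w) (qY N k Φ s ts w) =
      urad s ts w * (lRp (cc N k) R * (n3 w / ‖w‖)) := by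
  have h1 := (hs.ang _ hz (abs_uz_le w)).1
  rw [sqrt_one_sub_uz hw] at h1
  unfold qX qY
  rw [sc_add, hs.sc_zero, zero_add]
  have h2 : (urad s ts w * sin (uph N k Φ w) - aa N j * (urad s ts w * cos (uph N k Φ w))) /
      oj N j = urad s ts w * ((sin (uph N k Φ w) - aa N j * cos (uph N k Φ w)) / oj N j) := by
    ring
  rw [h2, sin_sub_arctan]
  unfold uph
  rw [h1]

theorem side_eq {w : E4} (hw : w ≠ 0) (hz : w 0 / ‖w‖ ∈ Z) :
    thDC N k j Φ s ts w =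
      thP ε (lc N j (zz k) (FF N (zz k))) (lRp (cc N k) R) s ts w := by
  have h6 : 0 < ‖w‖ := norm_pos_iff.2 hw
  unfold thDC mk4 thP
  rw [h.side_lc hs hz, h.side_sc hs hw hz]
  have key : ∀ i : Fin 4, i ≠ 0 → urad s ts w * (lRp (cc N k) R * (n3 w / ‖w‖)) * (w i / n3 w) =
      urad s ts w * lRp (cc N k) R * (w i / ‖w‖) := by
    intro i hi
    rcases eq_or_ne (n3 w) 0 with h3 | h3
    · obtain ⟨e1, e2, e3⟩ := n3_eq_zero.1 h3
      have : w i = 0 := by fin_cases i <;> simp_all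
      rw [this]
      ring
    · field_simp
  ext i
  fin_cases i
  · rfl
  · exact key 1 (by decide)
  · exact key 2 (by decide)
  · exact key 3 (by decide)

theorem contDiffAt_thP {w : E4} (hw : ‖w‖ ∈ T) (c0 : ℝ) :
    ContDiffAt ℝ ∞ (thP ε c0 (lRp (cc N k) R) s ts) w := by
  have h0 := h.ne_zero hw
  have hn := contDiffAt_nrm h0
  have hn0 : ‖w‖ ≠ 0 := norm_ne_zero_iff.2 h0
  have hr := h.contDiffAt_urad hw
  have hc (i : Fin 4) : ContDiffAt ℝ ∞ (fun w : E4 => w i / ‖w‖) w :=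
    (contDiffAt_coord i w).div hn hn0
  have hq : ContDiffAt ℝ ∞
      (fun w : E4 => 1 - lRp (cc N k) R ^ 2 * (1 - (w 0 / ‖w‖) ^ 2)) w :=
    contDiffAt_const.sub (contDiffAt_const.mul (contDiffAt_const.sub ((hc 0).pow 2)))
  have hq0 : 1 - lRp (cc N k) R ^ 2 * (1 - (w 0 / ‖w‖) ^ 2) ≠ 0 :=
    (poleH_den h.link.linkFun.Rp_pos h.link.linkFun.Rp_lt).ne'
  rw [contDiffAt_euclidean]
  intro i
  fin_cases i
  · exact contDiffAt_const.add (contDiffAt_const.mul (hr.mul (hq.sqrt hq0)))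
  · exact (hr.mul contDiffAt_const).mul (hc 1)
  · exact (hr.mul contDiffAt_const).mul (hc 2)
  · exact (hr.mul contDiffAt_const).mul (hc 3)

theorem side_cos {w : E4} (hz : w 0 / ‖w‖ ∈ Z) (h3 : n3 w = 0) (hw : w ≠ 0) :
    cos (uph N k Φ w) = ε / oj N j := by
  obtain ⟨h1, h2⟩ := hs.ang _ hz (abs_uz_le w)
  rw [sqrt_one_sub_uz hw, h3, zero_div, mul_zero] at h1
  rw [one_sub_uz hw, h3] at h2
  have h4 : (1 : ℝ) - lRp (cc N k) R ^ 2 * (0 ^ 2 / ‖w‖ ^ 2) = 1 := by ring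
  rw [h4, Real.sqrt_one, mul_one] at h2
  have h5 : uph N k Φ w = (uph N k Φ w - arctan (aa N j)) + arctan (aa N j) := by ring
  rw [h5, cos_add]
  unfold uph
  rw [h1, h2, cos_arctan]
  unfold oj
  ring

end DCData

theorem mk4_zero (l : ℝ) (ξ ξ' : Fin 3 → ℝ) : mk4 l 0 ξ = mk4 l 0 ξ' := by
  unfold mk4
  simp only [zero_mul]

theorem pX_mk4_zero (N : ℕ∞) (j : ℕ) {X Y : ℝ} (hs : sc N j X Y = 0) (ξ : Fin 3 → ℝ) :
    pX N j (mk4 (lc N j X Y) (sc N j X Y) ξ) = X := by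
  have h1 : mk4 (lc N j X Y) (sc N j X Y) ξ = mk4 (lc N j X Y) (sc N j X Y) ![1, 0, 0] := by
    rw [hs]
    exact mk4_zero _ _ _
  rw [h1]
  exact pX_mk4 N j hs.ge (by simp)

theorem pY_mk4_zero (N : ℕ∞) (j : ℕ) {X Y : ℝ} (hs : sc N j X Y = 0) (ξ : Fin 3 → ℝ) :
    pY N j (mk4 (lc N j X Y) (sc N j X Y) ξ) = Y := by
  have h1 : mk4 (lc N j X Y) (sc N j X Y) ξ = mk4 (lc N j X Y) (sc N j X Y) ![1, 0, 0] := by
    rw [hs]
    exact mk4_zero _ _ _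
  rw [h1]
  exact pY_mk4 N j hs.ge (by simp)

theorem n3_mk4_zero (l : ℝ) (ξ : Fin 3 → ℝ) : n3 (mk4 l 0 ξ) = 0 := by
  rw [n3_eq_zero]
  unfold mk4
  refine ⟨?_, ?_, ?_⟩
  · change (0 : ℝ) * ξ 0 = 0
    ring
  · change (0 : ℝ) * ξ 1 = 0
    ring
  · change (0 : ℝ) * ξ 2 = 0
    ring

/-- The point `a` of the patch `C_j` is the point represented by `u`. -/
structure DCLabel (N : ℕ∞) (k j : ℕ) (Φ : ℝ → ℝ) (s ts : ℝ) (u a : E4) : Prop where
  mem : a ∈ VC N j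
  pX_eq : pX N j a = qX N k Φ s ts u
  pY_eq : pY N j a = qY N k Φ s ts u
  n3_iff : n3 a = 0 ↔ n3 u = 0
  xi_eq : ∀ i : Fin 3, a i.succ / n3 a = u i.succ / n3 u

namespace DCData

variable {R : ℝ} {N : ℕ∞} {k j : ℕ} {η Φ H : ℝ → ℝ} {s ts : ℝ} {T : Set ℝ} {l m : ℝ → ℝ}
  (h : DCData R N k η Φ H s ts T l m) {ε : ℝ} {Z : Set ℝ}

include h

theorem label_thDC {u : E4} (hj : (j : ℕ∞) ≤ N) (hu : ‖u‖ ∈ T) (h3 : n3 u ≠ 0) :
    DCLabel N k j Φ s ts u (thDC N k j Φ s ts u) where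
  mem := h.thDC_mem hj hu h3
  pX_eq := h.pX_thDC hj hu h3
  pY_eq := h.pY_thDC hj hu h3
  n3_iff := by
    rw [h.n3_thDC hj hu h3]
    exact ⟨fun h1 => absurd h1 (h.sc_pos' hj hu h3).ne', fun h1 => absurd h1 h3⟩
  xi_eq := h.xi_thDC hj hu h3

theorem label_side (hs : DCSide R N k j Φ ε Z) {w : E4} (hw : ‖w‖ ∈ T) (hz : w 0 / ‖w‖ ∈ Z) :
    DCLabel N k j Φ s ts w (thDC N k j Φ s ts w) := by
  rcases ne_or_eq (n3 w) 0 with h3 | h3
  · exact h.label_thDC hs.hj hw h3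
  have h0 := h.ne_zero hw
  have hsc : sc N j (qX N k Φ s ts w) (qY N k Φ s ts w) = 0 := by
    rw [h.side_sc hs h0 hz, h3]
    ring
  have hn : n3 (thDC N k j Φ s ts w) = 0 := by
    unfold thDC
    rw [hsc]
    exact n3_mk4_zero _ _
  have hX : pX N j (thDC N k j Φ s ts w) = qX N k Φ s ts w := pX_mk4_zero N j hsc _
  refine ⟨Or.inr ⟨hn, ?_⟩, hX, pY_mk4_zero N j hsc _, ⟨fun _ => h3, fun _ => hn⟩, fun i => ?_⟩
  · rw [hX]
    unfold qX
    rw [h.side_cos hs hz h3 h0]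
    exact hs.edge _ (h.urad_pos hw) (h.urad_le hw)
  · rw [hn, h3, div_zero, div_zero]

theorem isoAt_side (hs : DCSide R N k j Φ ε Z) {w : E4} (hw : ‖w‖ ∈ T) (hz : w 0 / ‖w‖ ∈ Z) :
    IsoAt (smulMet (s ^ 2) (neckZ l m H)) (gC R N j) (thDC N k j Φ s ts) w := by
  have hR' := h.hR'
  have hN : 1 ≤ N := le_trans (by exact_mod_cast h.hk) h.hkN
  have hV : IsOpen {w : E4 | ‖w‖ ∈ T ∧ w 0 / ‖w‖ ∈ Z} := by
    rw [isOpen_iff_mem_nhds]
    rintro w ⟨h1, h2⟩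
    have h0 := h.ne_zero h1
    have hc : ContinuousAt (fun w : E4 => w 0 / ‖w‖) w :=
      ((contDiffAt_coord 0 w).div (contDiffAt_nrm h0) (norm_ne_zero_iff.2 h0)).continuousAt
    exact (continuous_norm.continuousAt.eventually (h.isOpen_T.mem_nhds h1)).and
      (hc.eventually (hs.isOpen_Z.mem_nhds h2))
  have hgT := h.goodMet_T
  have hg : GoodMet (smulMet (s ^ 2) (neckZ l m H)) {w : E4 | ‖w‖ ∈ T ∧ w 0 / ‖w‖ ∈ Z} :=
    ⟨fun i j => (hgT.smooth i j).mono fun w hw => hw.1, fun x hx => hgT.symm x hx.1,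
      fun x hx => hgT.pos x hx.1⟩
  have hg' := goodMet_gC h.hR (by linarith) hN hs.hj (R := R)
  refine isoAt_of_dense (D := {w : E4 | (‖w‖ ∈ T ∧ w 0 / ‖w‖ ∈ Z) ∧ n3 w ≠ 0}) hV hg hg' ?_ ?_
    (fun w hw => hw.1) ?_ ?_ w ⟨hw, hz⟩
  · intro w hw
    have h1 : thDC N k j Φ s ts =ᶠ[𝓝 w]
        thP ε (lc N j (zz k) (FF N (zz k))) (lRp (cc N k) R) s ts := by
      filter_upwards [hV.mem_nhds hw] with v hv
      exact h.side_eq hs (h.ne_zero hv.1) hv.2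
    exact ((h.contDiffAt_thP hs hw.1 _).congr_of_eventuallyEq h1).contDiffWithinAt
  · intro w hw
    exact (h.label_side hs hw.1 hw.2).mem
  · intro w hw
    rcases ne_or_eq (n3 w) 0 with h3 | h3
    · exact subset_closure ⟨hw, h3⟩
    · have h1 : Tendsto (fun e : ℝ => w + e • bv 1) (𝓝[≠] 0) (𝓝 w) := by
        have : Tendsto (fun e : ℝ => w + e • bv 1) (𝓝 0) (𝓝 (w + (0 : ℝ) • bv 1)) :=
          (continuous_const.add (continuous_id.smul continuous_const)).continuousAt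
        rw [zero_smul, add_zero] at this
        exact this.mono_left nhdsWithin_le_nhds
      refine mem_closure_of_tendsto h1 ?_
      filter_upwards [h1.eventually (hV.mem_nhds hw), self_mem_nhdsWithin] with e he1 he2
      refine ⟨he1, fun h4 => he2 ?_⟩
      have h5 := (n3_eq_zero.1 h4).1
      have h6 := (n3_eq_zero.1 h3).1
      have h7 : (w + e • bv 1) 1 = e := by simp [bv, h6]
      rw [h7] at h5
      exact h5
  · intro w hw v
    exact h.qf_thDC hs.hj hw.1.1 hw.2 v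

/-- **The transition**: near every point of the cone part the neck is isometric to the ambient
space. -/
theorem etale {u : E4} (hu : ‖u‖ ∈ T) : ∃ j : ℕ, (j : ℕ∞) ≤ N ∧
    IsoAt (smulMet (s ^ 2) (neckZ l m H)) (gC R N j) (thDC N k j Φ s ts) u ∧
    ∀ᶠ w in 𝓝 u, DCLabel N k j Φ s ts w (thDC N k j Φ s ts w) := by
  have h0 := h.ne_zero hu
  have hT : ∀ᶠ w : E4 in 𝓝 u, ‖w‖ ∈ T :=
    continuous_norm.continuousAt.eventually (h.isOpen_T.mem_nhds hu)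
  have hc : ContinuousAt (fun w : E4 => w 0 / ‖w‖) u :=
    ((contDiffAt_coord 0 u).div (contDiffAt_nrm h0) (norm_ne_zero_iff.2 h0)).continuousAt
  rcases ne_or_eq (n3 u) 0 with h3 | h3
  · refine ⟨k, h.hkN, h.isoAt_thDC h.hkN hu h3, ?_⟩
    filter_upwards [hT, continuous_n3.continuousAt.eventually (isOpen_ne.mem_nhds h3)] with w h1 h2
    exact h.label_thDC h.hkN h1 h2
  · have h4 : u 0 / ‖u‖ = 1 ∨ u 0 / ‖u‖ = -1 := by
      have h5 := one_sub_uz h0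
      rw [h3] at h5
      have h6 : (u 0 / ‖u‖ - 1) * (u 0 / ‖u‖ + 1) = 0 := by
        have : (0 : ℝ) ^ 2 / ‖u‖ ^ 2 = 0 := by ring
        rw [this] at h5
        linarith
      rcases mul_eq_zero.1 h6 with h7 | h7
      · left
        linarith
      · right
        linarith
    rcases h4 with h4 | h4
    · obtain ⟨Z, hs, hZ⟩ := h.side_left
      rw [← h4] at hZ
      refine ⟨k, hs.hj, h.isoAt_side hs hu hZ, ?_⟩
      filter_upwards [hT, hc.eventually (hs.isOpen_Z.mem_nhds hZ)] with w h5 h6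
      exact h.label_side hs h5 h6
    · obtain ⟨Z, hs, hZ⟩ := h.side_right
      rw [← h4] at hZ
      refine ⟨k - 1, hs.hj, h.isoAt_side hs hu hZ, ?_⟩
      filter_upwards [hT, hc.eventually (hs.isOpen_Z.mem_nhds hZ)] with w h5 h6
      exact h.label_side hs h5 h6

theorem link_lt : arctan (aa N (k - 1)) < π + arctan (aa N k) := by
  have h8 : arctan (aa N (k - 1)) < π / 2 := arctan_lt_pi_div_two _
  have h9 : 0 ≤ arctan (aa N k) := arctan_nonneg.2 (aa_nonneg N k)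
  linarith [pi_gt_three]

/-! ### Injectivity -/

omit h in
theorem phZ_strictMono {al c ar : ℝ} (hl : IsLink R al c ar η Φ H)
    (hlt : arctan ar < π + arctan al) :
    StrictMonoOn (phZ Φ (arctan ar) (π + arctan al)) (Icc (-1) 1) := by
  intro z hz w hw hzw
  have h1 : ∀ x : ℝ, |x| < 1 → phZ Φ (arctan ar) (π + arctan al) x ∈
      Ioo (arctan ar) (π + arctan al) := fun x hx => phZ_mem hl _ _ hx
  have hm1 : phZ Φ (arctan ar) (π + arctan al) (-1) = arctan ar := by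
    unfold phZ
    rw [if_pos le_rfl]
  have hp1 : phZ Φ (arctan ar) (π + arctan al) 1 = π + arctan al := by
    unfold phZ
    rw [if_neg (by norm_num), if_pos le_rfl]
  rcases eq_or_lt_of_le hz.1 with h2 | h2
  · rcases eq_or_lt_of_le hw.2 with h3 | h3
    · rw [← h2, h3, hm1, hp1]
      exact hlt
    · rw [← h2, hm1]
      exact (h1 w (abs_lt.2 ⟨by linarith, h3⟩)).1
  · rcases eq_or_lt_of_le hw.2 with h3 | h3
    · rw [h3, hp1]
      exact (h1 z (abs_lt.2 ⟨h2, by linarith⟩)).2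
    · have hz' : |z| < 1 := abs_lt.2 ⟨h2, by linarith⟩
      have hw' : |w| < 1 := abs_lt.2 ⟨by linarith, h3⟩
      rw [phZ_of_lt _ _ _ hz', phZ_of_lt _ _ _ hw']
      exact hl.strictMono (arcsin_mem_Lat hz') (arcsin_mem_Lat hw')
        (strictMonoOn_arcsin hz hw hzw)

theorem angle_range (u : E4) :
    uph N k Φ u ∈ Icc (arctan (aa N (k - 1))) (π + arctan (aa N k)) := by
  have hm := (phZ_strictMono h.link h.link_lt).monotoneOn
  have hz := abs_le.1 (abs_uz_le u)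
  have h1 := hm (a := -1) ⟨le_rfl, by norm_num⟩ ⟨hz.1, hz.2⟩ hz.1
  have h2 := hm (b := 1) ⟨hz.1, hz.2⟩ ⟨by norm_num, le_rfl⟩ hz.2
  have hm1 : phZ Φ (arctan (aa N (k - 1))) (π + arctan (aa N k)) (-1) =
      arctan (aa N (k - 1)) := by
    unfold phZ
    rw [if_pos le_rfl]
  have hp1 : phZ Φ (arctan (aa N (k - 1))) (π + arctan (aa N k)) 1 = π + arctan (aa N k) := by
    unfold phZ
    rw [if_neg (by norm_num), if_pos le_rfl]
  rw [hm1] at h1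
  rw [hp1] at h2
  exact ⟨h1, h2⟩

/-- The radius is the distance to the vertex. -/
theorem dist_vertex (u : E4) :
    (qX N k Φ s ts u - zz k) ^ 2 + (qY N k Φ s ts u - FF N (zz k)) ^ 2 = urad s ts u ^ 2 := by
  unfold qX qY
  linear_combination (urad s ts u ^ 2) * sin_sq_add_cos_sq (uph N k Φ u)

theorem injective {u u' : E4} (hu : ‖u‖ ∈ T) (hu' : ‖u'‖ ∈ T)
    (hX : qX N k Φ s ts u = qX N k Φ s ts u') (hY : qY N k Φ s ts u = qY N k Φ s ts u')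
    (hξ : ∀ i : Fin 3, u i.succ / n3 u = u' i.succ / n3 u') : u = u' := by
  have hr := h.urad_pos hu
  have hr' := h.urad_pos hu'
  have h1 : urad s ts u = urad s ts u' := by
    have h2 := h.dist_vertex u
    rw [hX, hY, h.dist_vertex u'] at h2
    exact ((sq_eq_sq₀ hr'.le hr.le).1 h2).symm
  have hn : ‖u‖ = ‖u'‖ := by
    unfold urad at h1
    have := mul_left_cancel₀ h.s_pos.ne' h1
    linarith
  have hc : cos (uph N k Φ u) = cos (uph N k Φ u') := by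
    unfold qX at hX
    rw [h1] at hX
    exact mul_left_cancel₀ hr'.ne' (by linarith)
  have hsn : sin (uph N k Φ u) = sin (uph N k Φ u') := by
    unfold qY at hY
    rw [h1] at hY
    exact mul_left_cancel₀ hr'.ne' (by linarith)
  have hφ : uph N k Φ u = uph N k Φ u' := by
    have h2 := h.angle_range u
    have h3 := h.angle_range u'
    have h4 : arctan (aa N k) < π / 2 := arctan_lt_pi_div_two _
    have h5 : 0 ≤ arctan (aa N (k - 1)) := arctan_nonneg.2 (aa_nonneg N _)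
    have hpi := pi_gt_three
    have h6 : cos (uph N k Φ u - uph N k Φ u') = 1 := by
      rw [cos_sub, hc, hsn]
      nlinarith only [sin_sq_add_cos_sq (uph N k Φ u')]
    have h7 := (cos_eq_one_iff_of_lt_of_lt (by linarith [h2.1, h3.2]) (by linarith [h2.2, h3.1])).1 h6
    linarith
  have hz : u 0 / ‖u‖ = u' 0 / ‖u'‖ := by
    have h2 := abs_le.1 (abs_uz_le u)
    have h3 := abs_le.1 (abs_uz_le u')
    exact (phZ_strictMono h.link h.link_lt).injOn ⟨h2.1, h2.2⟩ ⟨h3.1, h3.2⟩ hφ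
  have h0 : 0 < ‖u'‖ := h.T_pos _ hu'
  have hu0 : u 0 = u' 0 := by
    rw [hn] at hz
    field_simp at hz
    exact hz
  have hn3 : n3 u = n3 u' := by
    have h2 : n3 u ^ 2 = n3 u' ^ 2 := by
      have e1 := n3_sq u
      have e2 := n3_sq u'
      have e3 := norm_sq_E4 u
      have e4 := norm_sq_E4 u'
      rw [hn] at e3
      rw [hu0] at e3
      linarith
    exact (sq_eq_sq₀ (n3_nonneg _) (n3_nonneg _)).1 h2
  have hi : ∀ i : Fin 3, u i.succ = u' i.succ := by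
    intro i
    rcases ne_or_eq (n3 u') 0 with h3 | h3
    · have h4 := hξ i
      rw [hn3] at h4
      field_simp at h4
      exact h4
    · have h4 := n3_eq_zero.1 h3
      have h5 := n3_eq_zero.1 (hn3.trans h3)
      fin_cases i
      · exact h5.1.trans h4.1.symm
      · exact h5.2.1.trans h4.2.1.symm
      · exact h5.2.2.trans h4.2.2.symm
  ext i
  refine Fin.cases hu0 (fun i => hi i) i

/-! ### Surjectivity -/

theorem surj_generic {a : E4} (hj : (j : ℕ∞) ≤ N) (ha : a ∈ VC N j) (h3 : n3 a ≠ 0) {t : ℝ}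
    (ht : t ∈ T) (hr : (pX N j a - zz k) ^ 2 + (pY N j a - FF N (zz k)) ^ 2 =
      (s * (t - ts)) ^ 2) : ∃ u : E4, ‖u‖ = t ∧ DCLabel N k j Φ s ts u a := by
  have hG := mem_VC_of_n3 hj ha h3
  obtain ⟨hT1, hT2⟩ := h.T_r t ht
  have ht0 := h.T_pos t ht
  obtain ⟨φ, h1, h2, hX, hY⟩ := vertex_polar h.hk h.hkN hT1 hT2 hr hG
  obtain ⟨x, hx, hφ⟩ := h.link.surj φ ⟨h1, h2⟩
  have hc : 0 < cos x := cos_pos_of_mem_Ioo hx
  have hξ := (mk4_eta h3).2
  obtain ⟨u, hu⟩ : ∃ u : E4, u = WithLp.toLp 2 ![t * sin x, t * cos x * (a 1 / n3 a),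
    t * cos x * (a 2 / n3 a), t * cos x * (a 3 / n3 a)] := ⟨_, rfl⟩
  have e0 : u 0 = t * sin x := by rw [hu]; rfl
  have e1 : u 1 = t * cos x * (a 1 / n3 a) := by rw [hu]; rfl
  have e2 : u 2 = t * cos x * (a 2 / n3 a) := by rw [hu]; rfl
  have e3 : u 3 = t * cos x * (a 3 / n3 a) := by rw [hu]; rfl
  have hn3 : n3 u = t * cos x := by
    have h4 : n3 u ^ 2 = (t * cos x) ^ 2 := by
      rw [n3_sq, e1, e2, e3]
      linear_combination (t * cos x) ^ 2 * hξ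
    exact (sq_eq_sq₀ (n3_nonneg _) (mul_pos ht0 hc).le).1 h4
  have hn : ‖u‖ = t := by
    have h4 : ‖u‖ ^ 2 = t ^ 2 := by
      have h5 := n3_sq u
      rw [norm_sq_E4, e0]
      rw [hn3] at h5
      linear_combination (-1 : ℝ) * h5 + t ^ 2 * sin_sq_add_cos_sq x
    exact (sq_eq_sq₀ (norm_nonneg _) ht0.le).1 h4
  have hz : u 0 / ‖u‖ = sin x := by
    rw [hn, e0]
    field_simp
  have hph : uph N k Φ u = φ := by
    unfold uph
    rw [hz, phZ_of_lt, arcsin_sin hx.1.le hx.2.le, hφ]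
    rw [abs_lt]
    constructor <;> nlinarith only [sin_sq_add_cos_sq x, hc]
  have hne : n3 u ≠ 0 := by
    rw [hn3]
    positivity
  refine ⟨u, hn, ha, ?_, ?_, ⟨fun h4 => absurd h4 h3, fun h4 => absurd h4 hne⟩, ?_⟩
  · unfold qX urad
    rw [hph, hn, hX]
  · unfold qY urad
    rw [hph, hn, hY]
  · intro i
    rw [hn3]
    fin_cases i
    · change a 1 / n3 a = u 1 / _
      rw [e1]
      field_simp
    · change a 2 / n3 a = u 2 / _
      rw [e2]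
      field_simp
    · change a 3 / n3 a = u 3 / _
      rw [e3]
      field_simp

theorem edge_near {X : ℝ} (hX : opEdge N j X) (h1 : 7 / 8 * zz k ≤ X) (h2 : X ≤ 9 / 8 * zz k) :
    (j = k - 1 ∧ zz k < X) ∨ (j = k ∧ X < zz k) := by
  have hlt := h.k_sub_lt
  have hk1 := h.k_sub_add
  have hk := h.hk
  have hz := zz_pos k
  have habs : |X| = X := abs_of_pos (by linarith)
  have hA : zz k ≤ X → k - 1 = j := fun h3 => by
    refine opEdge_unique hX ⟨hlt.le, fun _ => by rw [hk1, habs]; exact h3, ?_⟩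
    rcases Nat.eq_zero_or_pos (k - 1) with h6 | h6
    · exact Or.inl h6
    · right
      have h7 := zz_succ (k - 1)
      rw [hk1] at h7
      rw [habs]
      linarith
  have hB : X ≤ zz k → k = j := fun h3 => by
    refine opEdge_unique hX ⟨h.hkN, fun _ => ?_, ?_⟩
    · rw [zz_succ, habs]
      linarith
    · right
      rw [habs]
      exact h3
  rcases lt_trichotomy X (zz k) with h3 | h3 | h3
  · exact Or.inr ⟨(hB h3.le).symm, h3⟩
  · have h4 := hA h3.ge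
    have h5 := hB h3.le
    omega
  · exact Or.inl ⟨(hA h3.le).symm, h3⟩

theorem surj_pole {a : E4} (hj : (j : ℕ∞) ≤ N) (ha : a ∈ VC N j) (h3 : n3 a = 0) {t : ℝ}
    (ht : t ∈ T) (hr : (pX N j a - zz k) ^ 2 + (pY N j a - FF N (zz k)) ^ 2 =
      (s * (t - ts)) ^ 2) : ∃ u : E4, ‖u‖ = t ∧ DCLabel N k j Φ s ts u a := by
  obtain ⟨hT1, hT2⟩ := h.T_r t ht
  have ht0 := h.T_pos t ht
  have hz := zz_pos k
  have hop : opEdge N j (pX N j a) := by
    rcases ha with h4 | h4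
    · exact absurd h3 (n3_pos hj h4).ne'
    · exact h4.2
  obtain ⟨X, hX⟩ : ∃ X, X = pX N j a := ⟨_, rfl⟩
  obtain ⟨r, hrr⟩ : ∃ r, r = s * (t - ts) := ⟨_, rfl⟩
  rw [← hX] at hop hr
  rw [← hrr] at hT1 hT2 hr
  have habs := abs_le_of_sq_le_sq (show (X - zz k) ^ 2 ≤ r ^ 2 by
    nlinarith only [sq_nonneg (pY N j a - FF N (zz k)), hr]) hT1.le
  have hab2 := abs_le.1 habs
  have hside := h.edge_near hop (by linarith [hab2.1]) (by linarith [hab2.2])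
  -- the line `j` passes through the vertex
  have hline : line N j (zz k) = FF N (zz k) := by
    rcases hside with ⟨h4, _⟩ | ⟨h4, _⟩
    · have h5 := line_at_left h.k_sub_lt
      rw [h.k_sub_add] at h5
      rw [h4, h5]
    · rw [h4]
      exact line_at_right h.hk h.hkN
  have hY : pY N j a - FF N (zz k) = aa N j * (X - zz k) := by
    rw [pY_of_n3_zero N j h3, ← hX, ← line_sub, hline]
  have ho := one_le_oj N j
  have ho2 := oj_sq N j
  have hXr : ((X - zz k) * oj N j) ^ 2 = r ^ 2 := by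
    rw [hY] at hr
    rw [mul_pow, ho2]
    linarith
  obtain ⟨ε, hε, hε2, hXε⟩ : ∃ ε : ℝ, (ε = 1 ∨ ε = -1) ∧
      ((ε = 1 ∧ j = k - 1) ∨ (ε = -1 ∧ j = k)) ∧ X - zz k = r * (ε / oj N j) := by
    rcases hside with ⟨h4, h5⟩ | ⟨h4, h5⟩
    · refine ⟨1, Or.inl rfl, Or.inl ⟨rfl, h4⟩, ?_⟩
      have h6 : (X - zz k) * oj N j = r :=
        (sq_eq_sq₀ (mul_nonneg (by linarith) (by linarith)) hT1.le).1 hXr
      rw [← h6]
      field_simp
    · refine ⟨-1, Or.inr rfl, Or.inr ⟨rfl, h4⟩, ?_⟩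
      have h6 : -(X - zz k) * oj N j = r := by
        refine (sq_eq_sq₀ (mul_nonneg (by linarith) (by linarith)) hT1.le).1 ?_
        rw [← hXr]
        ring
      rw [← h6]
      field_simp
  have hε3 : ε ^ 2 = 1 := by rcases hε with rfl | rfl <;> norm_num
  obtain ⟨u, hu⟩ : ∃ u : E4, u = WithLp.toLp 2 ![-ε * t, 0, 0, 0] := ⟨_, rfl⟩
  have e0 : u 0 = -ε * t := by rw [hu]; rfl
  have e1 : u 1 = 0 := by rw [hu]; rfl
  have e2 : u 2 = 0 := by rw [hu]; rfl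
  have e3 : u 3 = 0 := by rw [hu]; rfl
  have hn3 : n3 u = 0 := n3_eq_zero.2 ⟨e1, e2, e3⟩
  have hn : ‖u‖ = t := by
    have h4 : ‖u‖ ^ 2 = t ^ 2 := by
      rw [norm_sq_E4, e0, e1, e2, e3]
      linear_combination t ^ 2 * hε3
    exact (sq_eq_sq₀ (norm_nonneg _) ht0.le).1 h4
  have huz : u 0 / ‖u‖ = -ε := by
    rw [hn, e0]
    field_simp
  -- the angle
  have hcs : cos (uph N k Φ u) = ε / oj N j ∧ sin (uph N k Φ u) = ε * aa N j / oj N j := by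
    unfold uph oj
    rw [huz]
    rcases hε2 with ⟨rfl, h4⟩ | ⟨rfl, h4⟩
    · have h5 : phZ Φ (arctan (aa N (k - 1))) (π + arctan (aa N k)) (-1) =
          arctan (aa N (k - 1)) := by
        unfold phZ
        rw [if_pos le_rfl]
      rw [h5, h4, cos_arctan, sin_arctan]
      exact ⟨rfl, by ring⟩
    · have h5 : phZ Φ (arctan (aa N (k - 1))) (π + arctan (aa N k)) (- -1) =
          π + arctan (aa N k) := by
        unfold phZ
        rw [if_neg (by norm_num), if_pos (by norm_num)]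
      rw [h5, h4, add_comm π, cos_add_pi, sin_add_pi, cos_arctan, sin_arctan]
      exact ⟨by ring, by ring⟩
  refine ⟨u, hn, ha, ?_, ?_, ⟨fun _ => hn3, fun _ => h3⟩, fun i => ?_⟩
  · unfold qX urad
    rw [hcs.1, hn, ← hrr, ← hX]
    linarith
  · unfold qY urad
    rw [hcs.2, hn, ← hrr]
    have h6 : pY N j a = FF N (zz k) + aa N j * (X - zz k) := by linarith
    rw [h6, hXε]
    ring
  · rw [h3, hn3, div_zero, div_zero]

/-- **Surjectivity**: every ambient point at the distance `s (t - t_*)` of the vertex is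
represented by a point `u` with `‖u‖ = t`. -/
theorem surjective {a : E4} (hj : (j : ℕ∞) ≤ N) (ha : a ∈ VC N j) {t : ℝ}
    (ht : t ∈ T) (hr : (pX N j a - zz k) ^ 2 + (pY N j a - FF N (zz k)) ^ 2 =
      (s * (t - ts)) ^ 2) : ∃ u : E4, ‖u‖ = t ∧ DCLabel N k j Φ s ts u a := by
  rcases ne_or_eq (n3 a) 0 with h3 | h3
  · exact h.surj_generic hj ha h3 ht hr
  · exact h.surj_pole hj ha h3 ht hr

end DCData

end Pool.Agent.W_MP_654ec6
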