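import Pool.Agent.W_MP_654ec6.F.Amb
import Pool.Agent.W_MP_654ec6.F.Defs
import Pool.Agent.W_MP_654ec6.F.TransDC

/-!
# Part F: the collar between a block and the ambient space

For the block `k` the collar consists of the points `u` of the patch `D` with
`ρ k < s (‖u‖ - t_*) < 2 ρ k`; `collE` maps it to the ambient space.
-/

open scoped ContDiff Topology
open Filter Real

namespace Pool.Agent.W_MP_654ec6

/-- The times of the collar. -/
def collT (ρ : ℝ) (B : BlkD) : Set ℝ :=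
  {t | ρ < B.s * (t - B.tstar) ∧ B.s * (t - B.tstar) < 2 * ρ}

theorem isOpen_collT (ρ : ℝ) (B : BlkD) : IsOpen (collT ρ B) := by
  have hc : Continuous fun t : ℝ => B.s * (t - B.tstar) := by fun_prop
  exact (isOpen_lt continuous_const hc).inter (isOpen_lt hc continuous_const)

theorem Core.R_pos (K : Core) : 0 < K.R := by
  unfold Core.R
  have := K.isCore.nu_pos
  positivity

theorem Core.R_le (K : Core) : K.R ≤ 1 / 9 := by
  unfold Core.R
  have h1 := K.isCore.nu_pos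
  have h2 := K.isCore.nu_lt
  have h3 : (12 / 25 * K.ν) ^ 3 ≤ (12 / 25 : ℝ) ^ 3 := by
    apply pow_le_pow_left₀ (by positivity)
    nlinarith
  linarith [show (12 / 25 : ℝ) ^ 3 ≤ 1 / 9 by norm_num]

/-- The radius of a point of the collar, seen from the block. -/
noncomputable def brad (B : BlkD) (u : E4) : ℝ := urad B.s B.tstar u

/-- The map from the collar to the ambient space. -/
noncomputable def collE (A : AmbPar) (k : ℕ) (B : BlkD) (u : E4) : TauPt :=
  TauPt.mk (qX A.N k B.Φ B.s B.tstar u, qY A.N k B.Φ B.s B.tstar u, fun i : Fin 3 =>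
    bb A.R A.N (qX A.N k B.Φ B.s B.tstar u) (qY A.N k B.Φ B.s B.tstar u) * (u i.succ / n3 u))

section

variable {K : Core} {A : AmbPar} {k : ℕ} {B : BlkD}

/-- The block `k` of the ambient space `A`. -/
structure CollOK (K : Core) (A : AmbPar) (k : ℕ) (B : BlkD) : Prop where
  hR : A.R = K.R
  hk : 1 ≤ k
  hkN : (k : ℕ∞) ≤ A.N
  blk : BlkOK K (aa A.N k) (cc A.N k) (aa A.N (k - 1)) (A.ρ k) B

theorem CollOK.lt_T2 (h : CollOK K A k B) {t : ℝ} (ht : A.ρ k < B.s * (t - B.tstar)) :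
    B.T2 < t := by
  have h1 := h.blk.blk.size1
  have h2 := h.blk.blk.s_pos
  have h3 := A.rad.pos k
  by_contra h4
  have h5 : B.s * (t - B.tstar) ≤ B.s * (B.T2 - B.tstar) :=
    mul_le_mul_of_nonneg_left (by linarith [not_lt.1 h4]) h2.le
  linarith

theorem CollOK.dc (h : CollOK K A k B) :
    DCData A.R A.N k B.η B.Φ B.H B.s B.tstar (collT (A.ρ k) B) B.l B.m where
  hR := A.R_pos
  hR' := by rw [h.hR]; exact K.R_le
  hk := h.hk
  hkN := h.hkN
  link := by rw [h.hR]; exact h.blk.link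
  s_pos := h.blk.blk.s_pos
  isOpen_T := isOpen_collT _ _
  T_pos := fun t ht => by
    have h1 := h.lt_T2 ht.1
    have h2 := h.blk.blk.T2_gt
    have h3 := K.isCore.T0_gt
    linarith
  T_r := fun t ht => ⟨(A.rad.pos k).trans ht.1, ht.2.le.trans (A.rad.le k h.hk)⟩
  l_eq := fun t ht => by
    rw [h.blk.blk.end_l t (h.lt_T2 ht.1).le, h.hR]
  m_eq := fun t ht => h.blk.blk.end_m t (h.lt_T2 ht.1).le

theorem collE_of_label {j : ℕ} {u a : E4} (h : DCLabel A.N k j B.Φ B.s B.tstar u a) :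
    TauPt.mk (repA A.R A.N j a) = collE A k B u := by
  unfold repA collE
  rw [h.pX_eq, h.pY_eq]
  congr 3
  funext i
  rw [h.xi_eq i]

theorem CollOK.brad_mem (_h : CollOK K A k B) {u : E4} (hu : ‖u‖ ∈ collT (A.ρ k) B) :
    A.ρ k < brad B u ∧ brad B u < 2 * A.ρ k := hu

theorem CollOK.near (h : CollOK K A k B) {u : E4} (hu : ‖u‖ ∈ collT (A.ρ k) B) :
    (qX A.N k B.Φ B.s B.tstar u - zz k) ^ 2 + (qY A.N k B.Φ B.s B.tstar u - FF A.N (zz k)) ^ 2 ≤
      (zz k / 8) ^ 2 := by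
  rw [h.dc.dist_vertex u]
  exact pow_le_pow_left₀ (h.dc.urad_pos hu).le (h.dc.urad_le hu) 2

theorem CollOK.qX_ge (h : CollOK K A k B) {u : E4} (hu : ‖u‖ ∈ collT (A.ρ k) B) :
    7 / 8 * zz k ≤ qX A.N k B.Φ B.s B.tstar u := by
  have h1 := h.near hu
  have hz := zz_pos k
  have h2 : (qX A.N k B.Φ B.s B.tstar u - zz k) ^ 2 ≤ (zz k / 8) ^ 2 := by
    nlinarith [sq_nonneg (qY A.N k B.Φ B.s B.tstar u - FF A.N (zz k))]
  have h3 := (abs_le.1 (abs_le_of_sq_le_sq h2 (by positivity))).1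
  linarith

theorem CollOK.qX_pos (h : CollOK K A k B) {u : E4} (hu : ‖u‖ ∈ collT (A.ρ k) B) :
    0 < qX A.N k B.Φ B.s B.tstar u := by
  have := h.qX_ge hu
  have := zz_pos k
  linarith

theorem CollOK.out (h : CollOK K A k B) {u : E4} (hu : ‖u‖ ∈ collT (A.ρ k) B) :
    OutDisks A.N A.ρ (qX A.N k B.Φ B.s B.tstar u) (qY A.N k B.Φ B.s B.tstar u) := by
  have hX := h.qX_pos hu
  refine ⟨fun l hl hlN => ?_, fun hN => ?_⟩
  · rw [abs_of_pos hX]
    rcases eq_or_ne k l with rfl | hkl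
    · rw [h.dc.dist_vertex u]
      exact pow_lt_pow_left₀ (h.brad_mem hu).1 (A.rad.pos k).le (by norm_num)
    · refine lt_of_le_of_lt ?_ (vertex_disjoint hkl (h.near hu))
      have h1 := A.rad.le l hl
      have h2 := A.rad.pos l
      exact pow_le_pow_left₀ h2.le (by linarith) 2
  · have h1 := A.rad.mid hN
    have h2 := A.rad.pos 0
    have h3 := h.qX_ge hu
    have hz := zz_pos k
    have hz2 : zz A.N.toNat ≤ zz k := by
      apply zz_anti
      have h4 := h.hkN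
      obtain ⟨n, hn⟩ := ENat.ne_top_iff_exists.1 hN
      rw [← hn] at h4 ⊢
      simpa using h4
    have hz3 := zz_pos A.N.toNat
    have hc := cc_le A.N A.N.toNat
    have hc0 := cc_nonneg A.N A.N.toNat
    have hR1 := A.R_le
    have hR0 := A.R_pos
    have h5 : A.R * cc A.N A.N.toNat * zz A.N.toNat ≤ zz A.N.toNat := by
      have : A.R * cc A.N A.N.toNat ≤ 1 := by nlinarith
      nlinarith
    have h6 : A.ρ 0 < qX A.N k B.Φ B.s B.tstar u := by linarith
    have h7 : A.ρ 0 ^ 2 < qX A.N k B.Φ B.s B.tstar u ^ 2 :=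
      pow_lt_pow_left₀ h6 h2.le (by norm_num)
    nlinarith [sq_nonneg (qY A.N k B.Φ B.s B.tstar u - midY A.N)]

/-- Near a point of the collar the metric of the patch `D` is the neck metric. -/
theorem CollOK.gD_eq (h : CollOK K A k B) {u : E4} (hu : ‖u‖ ∈ collT (A.ρ k) B) :
    gD K B =ᶠ[𝓝 u] neckZ B.l B.m B.H := by
  have h1 : ∀ᶠ w : E4 in 𝓝 u, ‖w‖ ∈ collT (A.ρ k) B :=
    continuous_norm.continuousAt.eventually ((isOpen_collT _ _).mem_nhds hu)
  filter_upwards [h1] with w hw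
  have h2 := h.lt_T2 hw.1
  have h3 := h.blk.blk.T2_gt
  unfold gD
  rw [if_neg (by linarith)]

theorem CollOK.etale (h : CollOK K A k B) {u : E4} (hu : ‖u‖ ∈ collT (A.ρ k) B) :
    ∃ (j : ℕ) (θ : E4 → E4), θ u ∈ VA A.N A.ρ j ∧
      IsoAt (smulMet (B.s ^ 2) (gD K B)) (gC A.R A.N j) θ u ∧
      ∀ᶠ x in 𝓝 u, TauPt.mk (repA A.R A.N j (θ x)) = collE A k B x := by
  obtain ⟨j, hj, h1, h2⟩ := h.dc.etale hu
  refine ⟨j, _, ?_, isoAt_congr h1 ?_ EventuallyEq.rfl EventuallyEq.rfl, ?_⟩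
  · have h3 := h2.self_of_nhds
    refine ⟨hj, h3.mem, ?_⟩
    rw [h3.pX_eq, h3.pY_eq]
    exact h.out hu
  · filter_upwards [h.gD_eq hu] with w hw
    unfold smulMet
    rw [hw]
  · filter_upwards [h2] with w hw
    exact collE_of_label hw

/-- The fibre radius on the collar, poles included. -/
theorem CollOK.bb_eq (h : CollOK K A k B) {u : E4} (hu : ‖u‖ ∈ collT (A.ρ k) B) :
    bb A.R A.N (qX A.N k B.Φ B.s B.tstar u) (qY A.N k B.Φ B.s B.tstar u) =
      brad B u * (lRp (cc A.N k) A.R * (n3 u / ‖u‖)) := by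
  rcases ne_or_eq (n3 u) 0 with h3 | h3
  · exact h.dc.bb_q hu h3
  · -- a pole
    obtain ⟨j, hj, _, h2⟩ := h.dc.etale hu
    have h4 := h2.self_of_nhds
    have h5 : n3 (thDC A.N k j B.Φ B.s B.tstar u) = 0 := h4.n3_iff.2 h3
    have h6 := pY_of_n3_zero A.N j h5
    have h7 : opEdge A.N j (pX A.N j (thDC A.N k j B.Φ B.s B.tstar u)) := by
      rcases h4.mem with h8 | h8
      · exact absurd h5 (n3_pos hj h8).ne'
      · exact h8.2
    rw [← GG_eq_of_opEdge h7, h4.pX_eq, h4.pY_eq] at h6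
    rw [h6, bb_bdry, h3]
    ring

theorem CollOK.bb_pos' (h : CollOK K A k B) {u : E4} (hu : ‖u‖ ∈ collT (A.ρ k) B)
    (h3 : n3 u ≠ 0) :
    0 < bb A.R A.N (qX A.N k B.Φ B.s B.tstar u) (qY A.N k B.Φ B.s B.tstar u) :=
  bb_pos A.R_pos A.one_le (h.dc.GG_lt hu h3)

/-- The map `collE` is injective on the union of the collars. -/
theorem collE_inj {k' : ℕ} {B' : BlkD} (h : CollOK K A k B) (h' : CollOK K A k' B')
    (hBB : k = k' → B = B') {u u' : E4} (hu : ‖u‖ ∈ collT (A.ρ k) B)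
    (hu' : ‖u'‖ ∈ collT (A.ρ k') B') (hE : collE A k B u = collE A k' B' u') :
    k = k' ∧ u = u' := by
  have hX := h.qX_pos hu
  have hX' := h'.qX_pos hu'
  unfold collE at hE
  rw [TauPt.mk_eq] at hE
  rcases hE with hE | hE
  · have e1 := congrArg Prod.fst hE
    have e2 := congrArg (fun p : ℝ × ℝ × (Fin 3 → ℝ) => p.2.1) hE
    have e3 := congrArg (fun p : ℝ × ℝ × (Fin 3 → ℝ) => p.2.2) hE
    simp only at e1 e2 e3
    have hkk : k = k' := by
      by_contra hne
      have h1 := vertex_disjoint hne (h.near hu)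
      rw [← e1, ← e2] at h1
      exact absurd (h'.near hu') (not_le.2 h1)
    have hB := hBB hkk
    subst hkk
    subst hB
    refine ⟨rfl, h.dc.injective hu hu' e1.symm e2.symm ?_⟩
    have hb := h.bb_eq hu
    have hb' := h.bb_eq hu'
    rw [e1, e2] at e3
    intro i
    have e4 := congrFun e3 i
    rcases ne_or_eq (n3 u) 0 with h3 | h3
    · exact (mul_left_cancel₀ (h.bb_pos' hu h3).ne' e4).symm
    · rcases ne_or_eq (n3 u') 0 with h4 | h4
      · have h5 := h.bb_pos' hu' h4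
        rw [e1, e2, hb, h3] at h5
        norm_num at h5
      · rw [h3, h4, div_zero, div_zero]
  · have e1 := congrArg Prod.fst hE
    simp only at e1
    linarith

/-- The distance to the (pair of) vertices `± x_k` minus `ρ k`. -/
noncomputable def rVert (A : AmbPar) (k : ℕ) (X Y : ℝ) : ℝ :=
  √((|X| - zz k) ^ 2 + (Y - FF A.N (zz k)) ^ 2) - A.ρ k

open Classical in
/-- The collar function of the ambient space. -/
noncomputable def rAmb (A : AmbPar) (k : ℕ) : TauPt → ℝ :=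
  tauFun (fun X Y => if 1 ≤ k ∧ (k : ℕ∞) ≤ A.N then rVert A k X Y else 1)
    (fun X Y => by simp only [rVert, abs_neg])

theorem rAmb_repA (A : AmbPar) (k j : ℕ) (u : E4) [Decidable (1 ≤ k ∧ (k : ℕ∞) ≤ A.N)] :
    rAmb A k (TauPt.mk (repA A.R A.N j u)) =
      if 1 ≤ k ∧ (k : ℕ∞) ≤ A.N then rVert A k (pX A.N j u) (pY A.N j u) else 1 := by
  unfold rAmb
  rw [tauFun_repA]
  split_ifs <;> rfl

theorem continuous_rVert (A : AmbPar) (k : ℕ) : Continuous fun q : ℝ × ℝ => rVert A k q.1 q.2 := by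
  unfold rVert
  fun_prop

theorem rAmb_cont (A : AmbPar) (k j : ℕ) (a : E4) :
    ContinuousAt (fun x => rAmb A k (TauPt.mk (repA A.R A.N j x))) a := by
  classical
  have h1 : (fun x => rAmb A k (TauPt.mk (repA A.R A.N j x))) = fun x =>
      if 1 ≤ k ∧ (k : ℕ∞) ≤ A.N then rVert A k (pX A.N j x) (pY A.N j x) else 1 :=
    funext fun x => rAmb_repA A k j x
  rw [h1]
  split_ifs
  · exact ((continuous_rVert A k).comp ((continuous_pX A.N j).prodMk
      (continuous_pY A.N j))).continuousAt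
  · exact continuousAt_const

theorem rAmb_pos (A : AmbPar) (k j : ℕ) (a : E4) (ha : a ∈ VA A.N A.ρ j) :
    0 < rAmb A k (TauPt.mk (repA A.R A.N j a)) := by
  classical
  rw [rAmb_repA]
  split_ifs with hk
  · have h1 := ha.2.2.1 k hk.1 hk.2
    unfold rVert
    have h2 := A.rad.pos k
    have h3 : A.ρ k < √((|pX A.N j a| - zz k) ^ 2 + (pY A.N j a - FF A.N (zz k)) ^ 2) :=
      Real.lt_sqrt_of_sq_lt h1
    linarith
  · exact one_pos

theorem CollOK.rAmb_collE (h : CollOK K A k B) {u : E4} (hu : ‖u‖ ∈ collT (A.ρ k) B) :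
    rAmb A k (collE A k B u) = brad B u - A.ρ k := by
  classical
  obtain ⟨j, _, _, h2⟩ := h.dc.etale hu
  have h3 := h2.self_of_nhds
  rw [← collE_of_label h3, rAmb_repA, if_pos ⟨h.hk, h.hkN⟩, h3.pX_eq, h3.pY_eq]
  unfold rVert
  rw [abs_of_pos (h.qX_pos hu), h.dc.dist_vertex u, Real.sqrt_sq (h.dc.urad_pos hu).le]
  rfl

/-- A point of a patch has a representative with nonnegative abscissa. -/
theorem exists_pX_nonneg (A : AmbPar) {j : ℕ} {a : E4} (hj : (j : ℕ∞) ≤ A.N) (ha : a ∈ VC A.N j) :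
    ∃ a' : E4, a' ∈ VC A.N j ∧ 0 ≤ pX A.N j a' ∧ |pX A.N j a| = pX A.N j a' ∧
      pY A.N j a' = pY A.N j a ∧
      TauPt.mk (repA A.R A.N j a') = TauPt.mk (repA A.R A.N j a) := by
  by_cases hX : 0 ≤ pX A.N j a
  · exact ⟨a, ha, hX, abs_of_nonneg hX, rfl, rfl⟩
  · have hX' := not_le.1 hX
    by_cases h3 : n3 a = 0
    · -- the middle edge
      have hE := Amb_edge hj ha h3
      have hnlt : ¬ (j : ℕ∞) < A.N := by
        intro hlt
        have h1 := hE.2.1 hlt
        have h2 := zz_pos (j + 1)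
        linarith
      have hNj : A.N = (j : ℕ∞) := le_antisymm (not_lt.1 hnlt) hj
      have hj1 : 1 ≤ j := by
        have := A.one_le
        rw [hNj] at this
        exact_mod_cast this
      obtain ⟨m1, m2, m3⟩ := mid_neg hj1 a
      rw [hNj] at ha hX' ⊢
      refine ⟨-a, m3 ha, by rw [m1]; linarith, by rw [m1]; exact abs_of_neg hX', m2, ?_⟩
      refine Amb_mk (Or.inr rfl) (by rw [m1, neg_one_mul]) m2 fun k => ?_
      have e : (-a) k.succ = -(a k.succ) := rfl
      rw [e, n3_neg]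
      ring
    · have hG := mem_VC_of_n3 hj ha h3
      obtain ⟨c1, c2, -, c4, c5⟩ := thC_coord A.one_le hj hj (Or.inr rfl : (-1 : ℝ) = 1 ∨ _) hG
      refine ⟨thC A.N j j (-1) a, c4, by rw [c1]; linarith, ?_, c2, Amb_mk (Or.inr rfl) c1 c2 c5⟩
      rw [c1, abs_of_neg hX']
      ring

/-- Every point of the ambient space near the vertices `± x_k` is a point of the collar. -/
theorem CollOK.surj (h : CollOK K A k B) {j : ℕ} {a : E4} (ha : a ∈ VA A.N A.ρ j)
    (hr : rAmb A k (TauPt.mk (repA A.R A.N j a)) < A.ρ k) :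
    ∃ u : E4, ‖u‖ ∈ collT (A.ρ k) B ∧
      collE A k B u = TauPt.mk (repA A.R A.N j a) := by
  classical
  have hpos := rAmb_pos A k j a ha
  rw [rAmb_repA, if_pos ⟨h.hk, h.hkN⟩] at hr hpos
  obtain ⟨a', h1, h2, h3, h4, h5⟩ := exists_pX_nonneg A ha.1 ha.2.1
  unfold rVert at hr hpos
  rw [h3, ← h4] at hr hpos
  set D := √((pX A.N j a' - zz k) ^ 2 + (pY A.N j a' - FF A.N (zz k)) ^ 2) with hD
  have hs := h.blk.blk.s_pos
  set t := B.tstar + D / B.s with ht
  have hst : B.s * (t - B.tstar) = D := by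
    rw [ht]
    field_simp
    ring
  have htT : t ∈ collT (A.ρ k) B := by
    constructor
    · rw [hst]; linarith
    · rw [hst]; linarith
  obtain ⟨u, hu, hL⟩ := h.dc.surjective (t := t) ha.1 h1 htT (by
    rw [hst, hD, Real.sq_sqrt (by positivity)])
  refine ⟨u, by rw [hu]; exact htT, ?_⟩
  rw [← collE_of_label hL, h5]

end

end Pool.Agent.W_MP_654ec6
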