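import Pool.Agent.W_MP_654ec6.F.Pre

/-!
# Part F: sets of points covered by finitely many compact sets

`P.Cov S`: the set `S` of points is covered by the images of finitely many compact sets contained
in the domains of the patches.
-/

open scoped ContDiff Topology
open Filter

namespace Pool.Agent.W_MP_654ec6

namespace PreP

/-- `S` is covered by the images of finitely many compact sets in the patches. -/
def Cov (P : PreP) (S : Set P.Pt) : Prop :=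
  ∃ t : Set (P.ι × Set E4), t.Finite ∧ (∀ x ∈ t, IsCompact x.2 ∧ x.2 ⊆ P.V x.1) ∧
    ∀ p ∈ S, ∃ x ∈ t, ∃ a ∈ x.2, P.ψ x.1 a = p

/-- `p` is a point of a patch. -/
def IsPt (P : PreP) (p : P.Pt) : Prop := ∃ i, ∃ a ∈ P.V i, P.ψ i a = p

theorem Cov_empty (P : PreP) : P.Cov ∅ :=
  ⟨∅, Set.finite_empty, fun _ h => absurd h (Set.notMem_empty _),
    fun _ h => absurd h (Set.notMem_empty _)⟩

theorem Cov_mono {P : PreP} {S T : Set P.Pt} (h : P.Cov T) (hS : S ⊆ T) : P.Cov S := by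
  obtain ⟨t, h1, h2, h3⟩ := h
  exact ⟨t, h1, h2, fun p hp => h3 p (hS hp)⟩

theorem Cov_union {P : PreP} {S T : Set P.Pt} (hS : P.Cov S) (hT : P.Cov T) : P.Cov (S ∪ T) := by
  obtain ⟨s, h1, h2, h3⟩ := hS
  obtain ⟨t, k1, k2, k3⟩ := hT
  refine ⟨s ∪ t, h1.union k1, ?_, ?_⟩
  · rintro x (hx | hx)
    · exact h2 x hx
    · exact k2 x hx
  · rintro p (hp | hp)
    · obtain ⟨x, hx, h⟩ := h3 p hp
      exact ⟨x, Or.inl hx, h⟩
    · obtain ⟨x, hx, h⟩ := k3 p hp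
      exact ⟨x, Or.inr hx, h⟩

theorem Cov_image {P : PreP} {i : P.ι} {C : Set E4} (hC : IsCompact C) (hV : C ⊆ P.V i) :
    P.Cov (P.ψ i '' C) := by
  refine ⟨{(i, C)}, Set.finite_singleton _, ?_, ?_⟩
  · rintro x rfl
    exact ⟨hC, hV⟩
  · rintro p ⟨a, ha, rfl⟩
    exact ⟨(i, C), rfl, a, ha, rfl⟩

theorem Cov_biUnion {P : PreP} {K : Type} (s : Finset K) {S : K → Set P.Pt}
    (h : ∀ k ∈ s, P.Cov (S k)) : P.Cov (⋃ k ∈ s, S k) := by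
  classical
  induction s using Finset.induction_on with
  | empty =>
    have e : (⋃ k ∈ (∅ : Finset K), S k) = ∅ := by simp
    rw [e]
    exact Cov_empty P
  | insert a s ha ih =>
    rw [Finset.set_biUnion_insert]
    exact Cov_union (h a (Finset.mem_insert_self a s))
      (ih fun k hk => h k (Finset.mem_insert_of_mem hk))

theorem Cov_restr {P : PreP} {S : Set P.Pt} (h : P.Cov S) {c : Prop} (hc : c) :
    (P.restr c).Cov S := by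
  obtain ⟨t, h1, h2, h3⟩ := h
  exact ⟨t, h1, fun x hx => ⟨(h2 x hx).1, fun a ha => ⟨hc, (h2 x hx).2 ha⟩⟩, h3⟩

theorem Cov_smul {P : PreP} {S : Set P.Pt} (h : P.Cov S) {c : ℝ} (hc : 0 < c) :
    (P.smul c hc).Cov S := h

theorem Cov_sigma {K : Type} {Q : K → PreP} (k : K) {S : Set (Q k).Pt} (h : (Q k).Cov S) :
    (sigma Q).Cov ((fun q => (⟨k, q⟩ : Σ k, (Q k).Pt)) '' S) := by
  obtain ⟨t, h1, h2, h3⟩ := h
  refine ⟨(fun x : (Q k).ι × Set E4 => ((⟨k, x.1⟩ : Σ k, (Q k).ι), x.2)) '' t, h1.image _, ?_, ?_⟩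
  · rintro _ ⟨x, hx, rfl⟩
    exact h2 x hx
  · rintro _ ⟨q, hq, rfl⟩
    obtain ⟨x, hx, a, ha, e⟩ := h3 q hq
    exact ⟨_, ⟨x, hx, rfl⟩, a, ha, congrArg (Sigma.mk k) e⟩

theorem Cov_inl {P Q : PreP} (G : GlueData P Q) {S : Set P.Pt} (h : P.Cov S) :
    (glue P Q G).Cov (Sum.inl '' S) := by
  obtain ⟨t, h1, h2, h3⟩ := h
  refine ⟨(fun x : P.ι × Set E4 => ((Sum.inl x.1 : P.ι ⊕ Q.ι), x.2)) '' t, h1.image _, ?_, ?_⟩
  · rintro _ ⟨x, hx, rfl⟩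
    exact h2 x hx
  · rintro _ ⟨q, hq, rfl⟩
    obtain ⟨x, hx, a, ha, e⟩ := h3 q hq
    exact ⟨_, ⟨x, hx, rfl⟩, a, ha, congrArg Sum.inl e⟩

theorem Cov_inr {P Q : PreP} (G : GlueData P Q) {S : Set Q.Pt} (h : Q.Cov S) :
    (glue P Q G).Cov (glueMap G '' S) := by
  obtain ⟨t, h1, h2, h3⟩ := h
  refine ⟨(fun x : Q.ι × Set E4 => ((Sum.inr x.1 : P.ι ⊕ Q.ι), x.2)) '' t, h1.image _, ?_, ?_⟩
  · rintro _ ⟨x, hx, rfl⟩
    exact h2 x hx
  · rintro _ ⟨q, hq, rfl⟩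
    obtain ⟨x, hx, a, ha, e⟩ := h3 q hq
    exact ⟨_, ⟨x, hx, rfl⟩, a, ha, congrArg (glueMap G) e⟩

theorem Cov_glue {P Q : PreP} (G : GlueData P Q) {S : Set P.Pt} {T : Set Q.Pt} (hS : P.Cov S)
    (hT : Q.Cov T) {U : Set (P.Pt ⊕ Q.Pt)} (hU : U ⊆ Sum.inl '' S ∪ glueMap G '' T) :
    (glue P Q G).Cov U :=
  Cov_mono (Cov_union (Cov_inl G hS) (Cov_inr G hT)) hU

/-- A point of a glued space is a point of `P` or a point of `Q` outside the collar. -/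
theorem isPt_glue {P Q : PreP} (G : GlueData P Q) {p : P.Pt ⊕ Q.Pt} (h : (glue P Q G).IsPt p) :
    (∃ p1, P.IsPt p1 ∧ p = Sum.inl p1) ∨ ∃ q, Q.IsPt q ∧ G.rQ q ≤ 0 ∧ p = glueMap G q := by
  obtain ⟨i, a, ha, rfl⟩ := h
  rcases i with i | j
  · exact Or.inl ⟨P.ψ i a, ⟨i, a, ha, rfl⟩, rfl⟩
  · have ha' : a ∈ Q.V j := ha
    by_cases h0 : 0 < G.rQ (Q.ψ j a)
    · left
      obtain ⟨d, hd, u, hu, e1, h1, e2⟩ := Pre_glueMap_pos G ha' h0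
      obtain ⟨i, θ, m1, -, m3⟩ := G.etale d hd u hu h1
      refine ⟨G.E d u, ⟨i, θ u, m1, m3.self_of_nhds⟩, ?_⟩
      exact e2
    · exact Or.inr ⟨Q.ψ j a, ⟨j, a, ha', rfl⟩, not_lt.1 h0, rfl⟩

theorem isPt_restr {P : PreP} {c : Prop} {p : P.Pt} (h : (P.restr c).IsPt p) : c ∧ P.IsPt p := by
  obtain ⟨i, a, ha, e⟩ := h
  exact ⟨ha.1, i, a, ha.2, e⟩

theorem isPt_sigma {K : Type} {Q : K → PreP} {p : Σ k, (Q k).Pt} (h : (sigma Q).IsPt p) :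
    (Q p.1).IsPt p.2 := by
  obtain ⟨i, a, ha, rfl⟩ := h
  exact ⟨i.2, a, ha, rfl⟩

/-- The form of the covering which is used in the completeness criterion. -/
theorem Cov_toPatchwork (P : PreP) (b : P.CPt)
    (conn : ∀ i j, ∀ a ∈ P.V i, ∀ c ∈ P.V j, Relation.ReflTransGen P.Seg (P.ψ i a) (P.ψ j c))
    {S : Set P.Pt} (h : P.Cov S) : ∃ (s : Finset P.ι) (C : P.ι → Set E4),
      (∀ i ∈ s, IsCompact (C i) ∧ C i ⊆ (P.toPatchwork b conn).V i) ∧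
      ∀ p : (P.toPatchwork b conn).Pt, p.1 ∈ S →
        ∃ i ∈ s, ∃ a ∈ C i, (P.toPatchwork b conn).ψ i a = p := by
  classical
  obtain ⟨t, h1, h2, h3⟩ := h
  refine ⟨h1.toFinset.image Prod.fst, fun i => ⋃ x ∈ {x | x ∈ t ∧ x.1 = i}, x.2, ?_, ?_⟩
  · intro i _
    refine ⟨(h1.subset fun x hx => hx.1).isCompact_biUnion fun x hx => (h2 x hx.1).1, ?_⟩
    intro a ha
    obtain ⟨x, hx, hax⟩ := Set.mem_iUnion₂.1 ha
    have h4 := (h2 x hx.1).2 hax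
    rw [hx.2] at h4
    exact h4
  · intro p hp
    obtain ⟨x, hx, a, ha, e⟩ := h3 p.1 hp
    refine ⟨x.1, Finset.mem_image_of_mem _ (h1.mem_toFinset.2 hx), a,
      Set.mem_iUnion₂.2 ⟨x, ⟨hx, rfl⟩, ha⟩, ?_⟩
    apply Subtype.ext
    have h5 : (P.cpsi b x.1 a).1 = P.ψ x.1 a := Pre_cpsi_val P b ((h2 x hx).2 ha)
    exact h5.trans e

end PreP

end Pool.Agent.W_MP_654ec6
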