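import Pool.Agent.W_MP_654ec6.F.Collar
import Pool.Agent.W_MP_654ec6.F.Cov

/-!
# Part F: the ambient space is compact below a given height, outside the disks
-/

open scoped ContDiff Topology
open Filter Real

namespace Pool.Agent.W_MP_654ec6

/-- Labels with nonnegative abscissa in the edge of the patch. -/
theorem CovAmb_relabel (A : AmbPar) (hN : A.N ≠ ⊤) {j : ℕ} {u : E4} (hj : (j : ℕ∞) ≤ A.N)
    (hu : u ∈ VC A.N j) : ∃ (i : ℕ) (v : E4), inEdge A.N i |pX A.N i v| ∧ v ∈ VC A.N i ∧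
      0 ≤ pX A.N i v ∧ |pX A.N j u| = pX A.N i v ∧ pY A.N i v = pY A.N j u ∧
      TauPt.mk (repA A.R A.N i v) = TauPt.mk (repA A.R A.N j u) := by
  obtain ⟨u', h1, h2, h3, h4, h5⟩ := exists_pX_nonneg A hj hu
  by_cases h0 : n3 u' = 0
  · exact ⟨j, u', inEdge_of_opEdge (Amb_edge hj h1 h0), h1, h2, h3, h4, h5⟩
  · obtain ⟨i, hi⟩ := exists_inEdge (N := A.N) h2 (Or.inr hN)
    obtain ⟨c1, c2, -, c4, c5⟩ := thC_coord A.one_le hj hi.1
      (Or.inl rfl : (1 : ℝ) = 1 ∨ (1 : ℝ) = -1) (mem_VC_of_n3 hj h1 h0)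
    have c1' := c1
    rw [one_mul] at c1'
    refine ⟨i, thC A.N j i 1 u', ?_, c4, ?_, ?_, ?_, ?_⟩
    · rw [c1', abs_of_nonneg h2]
      exact hi
    · rw [c1']
      exact h2
    · rw [c1']
      exact h3
    · rw [c2]
      exact h4
    · exact (Amb_mk (Or.inl rfl) c1 c2 c5).trans h5

/-- Outside of the slightly larger disks. -/
def ambOut (A : AmbPar) (X Y : ℝ) : Prop :=
  (∀ k : ℕ, 1 ≤ k → (k : ℕ∞) ≤ A.N →
    (5 / 4 * A.ρ k) ^ 2 ≤ (|X| - zz k) ^ 2 + (Y - FF A.N (zz k)) ^ 2) ∧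
    (5 / 4 * A.ρ 0) ^ 2 ≤ X ^ 2 + (Y - midY A.N) ^ 2

/-- The compact set of the patch `i`. -/
def ambC (A : AmbPar) (R : ℝ) (i : ℕ) : Set E4 :=
  {u | 0 ≤ pX A.N i u ∧ inEdge A.N i |pX A.N i u| ∧ GG A.N (pX A.N i u) ≤ pY A.N i u ∧
    pY A.N i u ≤ R ∧ ambOut A (pX A.N i u) (pY A.N i u)}

theorem CovAmb_norm (N : ℕ∞) (j : ℕ) (u : E4) :
    ‖u‖ ^ 2 = (pX N j u - OX N j) ^ 2 + (pY N j u - OY N j) ^ 2 := by
  have h := lc_sc_dist N j (pX N j u) (pY N j u) (OX N j) (OY N j)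
  have e1 : lc N j (OX N j) (OY N j) = 0 := by
    unfold lc
    simp
  have e2 : sc N j (OX N j) (OY N j) = 0 := by
    unfold sc
    simp
  rw [lc_p, sc_p, e1, e2, sub_zero, sub_zero, n3_sq] at h
  rw [← h, EuclideanSpace.norm_sq_eq, Fin.sum_univ_four]
  simp only [Real.norm_eq_abs, sq_abs]
  ring

theorem CovAmb_closed_inEdge (N : ℕ∞) (i : ℕ) : IsClosed {X : ℝ | inEdge N i |X|} := by
  have h1 : IsClosed {X : ℝ | (i : ℕ∞) < N → zz (i + 1) ≤ |X|} := by
    by_cases h : (i : ℕ∞) < N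
    · simp only [h, true_imp_iff]
      exact isClosed_le continuous_const continuous_abs
    · simp only [h, false_imp_iff]
      exact isClosed_const
  have h2 : IsClosed {X : ℝ | i = 0 ∨ |X| ≤ zz i} := by
    by_cases h : i = 0
    · simp only [h, true_or]
      exact isClosed_const
    · simp only [h, false_or]
      exact isClosed_le continuous_abs continuous_const
  have h0 : IsClosed {_X : ℝ | (i : ℕ∞) ≤ N} := isClosed_const
  exact h0.inter (h1.inter h2)

theorem CovAmb_closed_out (A : AmbPar) : IsClosed {p : ℝ × ℝ | ambOut A p.1 p.2} := by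
  have h1 : IsClosed {p : ℝ × ℝ | ∀ k : ℕ, 1 ≤ k → (k : ℕ∞) ≤ A.N →
      (5 / 4 * A.ρ k) ^ 2 ≤ (|p.1| - zz k) ^ 2 + (p.2 - FF A.N (zz k)) ^ 2} := by
    simp only [Set.ofPred_forall]
    refine isClosed_iInter fun k => isClosed_iInter fun _ => isClosed_iInter fun _ => ?_
    exact isClosed_le continuous_const (by fun_prop)
  have h2 : IsClosed {p : ℝ × ℝ | (5 / 4 * A.ρ 0) ^ 2 ≤ p.1 ^ 2 + (p.2 - midY A.N) ^ 2} :=
    isClosed_le continuous_const (by fun_prop)
  exact h1.inter h2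

theorem ambC_compact (A : AmbPar) (R : ℝ) (i : ℕ) : IsCompact (ambC A R i) := by
  have hX := continuous_pX A.N i
  have hY := continuous_pY A.N i
  have hcl : IsClosed (ambC A R i) := by
    refine (isClosed_le continuous_const hX).inter
      (((CovAmb_closed_inEdge A.N i).preimage hX).inter
      ((isClosed_le ((GG_continuous A.N A.one_le).comp hX) hY).inter
      ((isClosed_le hY continuous_const).inter
      ((CovAmb_closed_out A).preimage (hX.prodMk hY)))))
  have h0 : 0 < aa A.N 0 := by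
    have h1 : ((0 : ℕ) : ℕ∞) < A.N := by
      have := A.one_le
      exact lt_of_lt_of_le (by norm_num) this
    exact (cc_nonneg _ _).trans_lt (lt_aa h1)
  obtain ⟨B, hB⟩ : ∃ B : ℝ, B = max 1 (zz (vert A.N 0) +
    (R - FF A.N (zz (vert A.N 0))) / aa A.N 0) := ⟨_, rfl⟩
  refine IsCompact.of_isClosed_subset (isCompact_closedBall (0 : E4)
    (B + |OX A.N i| + (|R| + |GG A.N 0|) + |OY A.N i|)) hcl ?_
  rintro u ⟨h1, h2, h3, h4, -⟩
  rw [mem_closedBall_zero_iff]
  have hXB : pX A.N i u ≤ B := by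
    rcases Nat.eq_zero_or_pos i with rfl | hi
    · rw [GG_eq h2, abs_of_nonneg h1] at h3
      unfold line at h3
      rw [hB]
      refine le_max_of_le_right ?_
      have h5 : aa A.N 0 * (pX A.N 0 u - zz (vert A.N 0)) ≤ R - FF A.N (zz (vert A.N 0)) := by
        linarith
      have h6 : pX A.N 0 u - zz (vert A.N 0) ≤ (R - FF A.N (zz (vert A.N 0))) / aa A.N 0 := by
        rw [le_div_iff₀ h0]
        linarith
      linarith
    · rcases h2.2.2 with h5 | h5
      · omega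
      · rw [abs_of_nonneg h1] at h5
        rw [hB]
        exact le_max_of_le_left (h5.trans (zz_le_one i))
  have hY1 : GG A.N 0 ≤ pY A.N i u := (GG_mono A.N A.one_le le_rfl h1).trans h3
  have hYa : |pY A.N i u| ≤ |R| + |GG A.N 0| := by
    rw [abs_le]
    constructor
    · have := neg_abs_le (GG A.N 0)
      have := abs_nonneg R
      linarith
    · have := le_abs_self R
      have := abs_nonneg (GG A.N 0)
      linarith
  have h5 := CovAmb_norm A.N i u
  have h6 : ‖u‖ ≤ |pX A.N i u - OX A.N i| + |pY A.N i u - OY A.N i| := by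
    refine abs_le_of_sq_le_sq' ?_ (by positivity) |>.2
    rw [h5, ← sq_abs (pX A.N i u - OX A.N i), ← sq_abs (pY A.N i u - OY A.N i)]
    nlinarith [abs_nonneg (pX A.N i u - OX A.N i), abs_nonneg (pY A.N i u - OY A.N i)]
  have h7 := abs_sub (pX A.N i u) (OX A.N i)
  have h8 := abs_sub (pY A.N i u) (OY A.N i)
  rw [abs_of_nonneg h1] at h7
  linarith

theorem ambC_subset (A : AmbPar) (R : ℝ) (i : ℕ) : ambC A R i ⊆ (ambP A).V i := by
  rintro u ⟨h1, h2, h3, -, h5, h6⟩
  have hr : ∀ k, A.ρ k ^ 2 < (5 / 4 * A.ρ k) ^ 2 := fun k =>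
    pow_lt_pow_left₀ (by linarith [A.rad.pos k]) (A.rad.pos k).le (by norm_num)
  refine (⟨h2.1, ?_, fun k hk hkN => (hr k).trans_le (h5 k hk hkN),
    fun _ => (hr 0).trans_le h6⟩ : u ∈ VA A.N A.ρ i)
  rcases lt_or_eq_of_le h3 with h | h
  · exact Or.inl h
  · right
    have hl : pY A.N i u = line A.N i (pX A.N i u) := by
      rw [← h, GG_eq h2, abs_of_nonneg h1]
    have hn : n3 u = 0 := by
      rw [← sc_p A.N i u, sc_eq, hl, sub_self, zero_div]
    have h7 : ∀ k : ℕ, 1 ≤ k → (k : ℕ∞) ≤ A.N → pX A.N i u = zz k →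
        pY A.N i u = FF A.N (zz k) → False := by
      intro k hk hkN e1 e2
      have h8 := h5 k hk hkN
      rw [e1, e2, abs_of_pos (zz_pos k), sub_self, sub_self] at h8
      have h9 := A.rad.pos k
      nlinarith
    refine ⟨hn, h2.1, fun hi => ?_, fun _ => ?_, ?_⟩
    · have h8 := h2.2.1 hi
      rw [abs_of_nonneg h1] at h8
      refine lt_of_le_of_ne h8 fun e => ?_
      refine h7 (i + 1) (by omega) (Seq_succ_le_of_lt hi) e.symm ?_
      rw [hl, ← e]
      exact line_at_left hi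
    · have := zz_pos i
      linarith
    · rcases h2.2.2 with h8 | h8
      · exact Or.inl h8
      · rcases Nat.eq_zero_or_pos i with hi | hi
        · exact Or.inl hi
        · right
          rw [abs_of_nonneg h1] at h8
          refine lt_of_le_of_ne h8 fun e => ?_
          refine h7 i hi h2.1 e ?_
          rw [hl, e]
          exact line_at_right hi h2.1

theorem Cov_amb (A : AmbPar) {n : ℕ} (hN : A.N = n) (R : ℝ) :
    (ambP A).Cov {p | ∃ j u, u ∈ VA A.N A.ρ j ∧ TauPt.mk (repA A.R A.N j u) = p ∧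
      pY A.N j u ≤ R ∧ ambOut A (pX A.N j u) (pY A.N j u)} := by
  have h := PreP.Cov_biUnion (P := ambP A) (Finset.range (n + 1))
    (S := fun i => (ambP A).ψ i '' ambC A R i)
    fun i _ => PreP.Cov_image (ambC_compact A R i) (ambC_subset A R i)
  refine PreP.Cov_mono h ?_
  rintro p ⟨j, u, hu, rfl, hR, h1, h2⟩
  have hNt : A.N ≠ ⊤ := by
    rw [hN]
    exact ENat.natCast_ne_top n
  obtain ⟨i, v, k1, k2, k3, k4, k5, k6⟩ := CovAmb_relabel A hNt hu.1 hu.2.1
  have hi : i < n + 1 := by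
    have := k1.1
    rw [hN] at this
    have h3 : i ≤ n := by exact_mod_cast this
    omega
  have k4' : |pX A.N j u| = |pX A.N i v| := by rw [k4, abs_of_nonneg k3]
  refine Set.mem_iUnion₂.2 ⟨i, Finset.mem_range.2 hi, v, ⟨k3, k1, GG_le_pY k1.1 k2, ?_, ?_, ?_⟩,
    k6⟩
  · rw [k5]
    exact hR
  · rw [k5, ← k4']
    exact h1
  · rw [k5, ← sq_abs (pX A.N i v), ← k4', sq_abs]
    exact h2

/-- The collar of the middle point. -/
theorem CovAmb_mid (A : AmbPar) {n : ℕ} (hN : A.N = n) {j : ℕ} {u : E4} (hu : u ∈ VA A.N A.ρ j)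
    (h : pX A.N j u ^ 2 + (pY A.N j u - midY A.N) ^ 2 < (5 / 4 * A.ρ 0) ^ 2) :
    ∃ v : E4, A.ρ 0 < ‖v‖ ∧ ‖v‖ < 5 / 4 * A.ρ 0 ∧
      TauPt.mk (repA A.R A.N n v) = TauPt.mk (repA A.R A.N j u) := by
  have hNt : A.N ≠ ⊤ := by
    rw [hN]
    exact ENat.natCast_ne_top n
  have htn : A.N.toNat = n := by
    rw [hN]
    exact ENat.toNat_natCast n
  obtain ⟨i, v, k1, k2, k3, k4, k5, k6⟩ := CovAmb_relabel A hNt hu.1 hu.2.1
  have k4' : pX A.N j u ^ 2 = pX A.N i v ^ 2 := by rw [← k4, sq_abs]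
  have hout := hu.2.2.2 hNt
  rw [k4', ← k5] at h hout
  have hρ := A.rad.pos 0
  -- the radius is small
  have h5 : 5 / 4 * A.ρ 0 < zz n := by
    have h1 := A.rad.mid hNt
    have hz3 := zz_pos n
    have hc := cc_le A.N n
    have hc0 := cc_nonneg A.N n
    have hR1 := A.R_le
    have hR0 := A.R_pos
    rw [htn] at h1
    have h5 : A.R * cc A.N n * zz n ≤ zz n := by
      have : A.R * cc A.N n ≤ 1 := by nlinarith
      nlinarith
    linarith
  have h6 : pX A.N i v < zz n := by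
    have h7 : pX A.N i v ^ 2 < (5 / 4 * A.ρ 0) ^ 2 := by
      nlinarith [sq_nonneg (pY A.N i v - midY A.N)]
    have h8 : pX A.N i v < 5 / 4 * A.ρ 0 := lt_of_pow_lt_pow_left₀ 2 (by positivity) h7
    linarith
  have hi : i = n := by
    have h7 : (i : ℕ∞) ≤ (n : ℕ∞) := by rw [← hN]; exact k1.1
    have h8 : i ≤ n := by exact_mod_cast h7
    by_contra hne
    have h9 : i < n := lt_of_le_of_ne h8 hne
    have h10 : (i : ℕ∞) < A.N := by rw [hN]; exact_mod_cast h9
    have h11 := k1.2.1 h10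
    rw [abs_of_nonneg k3] at h11
    have h12 := zz_anti (show i + 1 ≤ n from h9)
    linarith
  subst hi
  have h7 := CovAmb_norm A.N i v
  have e1 : OX A.N i = 0 := by
    rw [hN]
    exact transC_mid.2.1
  have e2 : OY A.N i = midY A.N := by
    unfold OY midY
    rw [Line_vert_not (by rw [hN]; exact lt_irrefl _), htn]
  rw [e1, e2, sub_zero] at h7
  rw [← h7] at h hout
  exact ⟨v, lt_of_pow_lt_pow_left₀ 2 (norm_nonneg v) hout,
    lt_of_pow_lt_pow_left₀ 2 (by positivity) h, k6⟩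

end Pool.Agent.W_MP_654ec6
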