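import Pool.Agent.W_MP_654ec6.D.Block
import Pool.Agent.W_MP_654ec6.F.Defs

/-!
# The chosen block data satisfy the conditions
-/

open scoped ContDiff Topology
open Filter Real

namespace Pool.Agent.W_MP_654ec6

theorem exists_blk (K : Core) {al c ar ρ : ℝ} (h0 : 0 ≤ al) (h1 : al < c) (h2 : c < ar)
    (h3 : ar ≤ 1 / 10) (hρ : 0 < ρ) (hρ' : ρ < 1) : ∃ B, BlkOK K al c ar ρ B := by
  have hν := K.isCore.nu_pos
  have hν' := K.isCore.nu_lt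
  have hν3 : 0 < K.ν ^ 3 := by positivity
  have hν3' : K.ν ^ 3 ≤ 1 := pow_le_one₀ hν.le hν'.le
  have hR : K.R = 1728 / 15625 * K.ν ^ 3 := by
    unfold Core.R
    ring
  have hR0 : 0 < K.R := by rw [hR]; positivity
  have hR1 : K.R ≤ 1 / 9 := by rw [hR]; linarith
  obtain ⟨η, Φ, H, hlink⟩ := exists_isLink h0 h1 h2 h3 hR0 hR1
  have hc0 : 0 < c := lt_of_le_of_lt h0 h1
  have hc1 : c < 1 / 10 := lt_of_lt_of_le h2 h3
  have hsq : √(1 + c ^ 2) < 9 / 8 := by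
    rw [Real.sqrt_lt' (by norm_num)]
    nlinarith
  have hRp0 : 0 ≤ lRp c K.R := mul_nonneg hR0.le (Real.sqrt_nonneg _)
  have hRp : lRp c K.R < (6 / 10 * K.ν) ^ 3 := by
    have e1 : lRp c K.R ≤ K.R * (9 / 8) := mul_le_mul_of_nonneg_left hsq.le hR0.le
    have e2 : (6 / 10 * K.ν) ^ 3 = 216 / 1000 * K.ν ^ 3 := by ring
    rw [e2]
    rw [hR] at e1
    rw [hR]
    linarith
  have hRp3 : lRp c K.R ^ (1 / 3 : ℝ) < 6 / 10 * K.ν := by
    have e1 := Real.rpow_lt_rpow hRp0 hRp (by norm_num : (0 : ℝ) < 1 / 3)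
    have e2 : ((6 / 10 * K.ν) ^ 3 : ℝ) ^ (1 / 3 : ℝ) = 6 / 10 * K.ν := by
      rw [← Real.rpow_natCast, ← Real.rpow_mul (by positivity)]
      norm_num
    rwa [e2] at e1
  obtain ⟨s, T2, tstar, l, m, hblk⟩ := exists_blockFun (T0 := K.T0) (gT := K.gT) (ν := K.ν)
    (Rp := lRp c K.R) (ρ := ρ) (η := η) (by linarith [K.isCore.T0_gt]) K.isCore.gT_pos hν hν'
    hlink.linkFun hRp3 hρ hρ'
  exact ⟨⟨η, Φ, H, l, m, s, T2, tstar⟩, hlink, hblk⟩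

theorem blkD_ok (K : Core) {al c ar ρ : ℝ} (h0 : 0 ≤ al) (h1 : al < c) (h2 : c < ar)
    (h3 : ar ≤ 1 / 10) (hρ : 0 < ρ) (hρ' : ρ < 1) : BlkOK K al c ar ρ (blkD K al c ar ρ) := by
  unfold blkD
  rw [dif_pos (exists_blk K h0 h1 h2 h3 hρ hρ')]
  exact Classical.choose_spec (exists_blk K h0 h1 h2 h3 hρ hρ')

end Pool.Agent.W_MP_654ec6
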