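import Pool.Agent.W_MP_654ec6.F.Blk
import Pool.Agent.W_MP_654ec6.F.Collar
import Pool.Agent.W_MP_654ec6.F.DefsEx

/-!
# Task F5: the parameters of the spaces `Sp K N`

`spRad K N k = zz k ^ 2 / 100` for `k ≥ 1`, `spRad K N 0 = R cc N n zz n / 64` for `N = n` finite.
`spAl, spC, spAr`: the slopes at the vertex `k` (dummy values if `k = 0` or `k > N`).
`spA K N k`: the radius of the bolt, `0` if `N = ⊤`, else positive, `≤ zz n` and so small that
`Ric ≥ -3 s²`.
-/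

open scoped ContDiff Topology
open Filter Real

namespace Pool.Agent.W_MP_654ec6

open Classical in
noncomputable def spRad (K : Core) (N : ℕ∞) (k : ℕ) : ℝ :=
  if k = 0 then (if N = ⊤ then 1 / 100 else K.R * cc N N.toNat * zz N.toNat / 64)
  else zz k ^ 2 / 100

theorem Par_toNat_le (N : ℕ∞) : (N.toNat : ℕ∞) ≤ N := ENat.natCast_toNat_le_self N

theorem spRad_pos (K : Core) (N : ℕ∞) (k : ℕ) : 0 < spRad K N k := by
  unfold spRad
  split_ifs with h1 h2
  · norm_num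
  · have e1 := K.R_pos
    have e2 := cc_pos (Par_toNat_le N)
    have e3 := zz_pos N.toNat
    positivity
  · have e1 := zz_pos k
    positivity

theorem spRad_lt (K : Core) (N : ℕ∞) (k : ℕ) : spRad K N k < 1 := by
  unfold spRad
  split_ifs with h1 h2
  · norm_num
  · have e1 := K.R_pos
    have e2 := K.R_le
    have e3 := cc_nonneg N N.toNat
    have e4 := cc_le N N.toNat
    have e5 := zz_pos N.toNat
    have e6 := zz_le_one N.toNat
    have e7 : K.R * cc N N.toNat ≤ 1 := by nlinarith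
    have e8 : 0 ≤ K.R * cc N N.toNat := mul_nonneg e1.le e3
    have e9 : K.R * cc N N.toNat * zz N.toNat ≤ 1 := by nlinarith
    linarith
  · have e1 := zz_pos k
    have e2 := zz_le_one k
    nlinarith

theorem spRad_ok (K : Core) (N : ℕ∞) : RadOK K.R N (spRad K N) := by
  refine ⟨spRad_pos K N, fun k hk => ?_, fun hN => ?_⟩
  · have e0 : spRad K N k = zz k ^ 2 / 100 := by
      unfold spRad
      rw [if_neg (by omega)]
    rw [e0]
    have e1 := zz_pos k
    have e2 := zz_le_one k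
    nlinarith
  · have e0 : spRad K N 0 = K.R * cc N N.toNat * zz N.toNat / 64 := by
      unfold spRad
      rw [if_pos rfl, if_neg hN]
    rw [e0]
    linarith

/-- The ambient parameters. -/
noncomputable def spAmb (K : Core) (N : ℕ∞) (hN : 2 ≤ N) : AmbPar where
  R := K.R
  N := N
  ρ := spRad K N
  R_pos := K.R_pos
  R_le := by have := K.R_le; linarith
  N_ge := hN
  rad := spRad_ok K N

open Classical in
/-- The slopes at the vertex `k`. -/
noncomputable def spSl (N : ℕ∞) (k : ℕ) : ℝ × ℝ × ℝ :=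
  if 1 ≤ k ∧ (k : ℕ∞) ≤ N then (aa N k, cc N k, aa N (k - 1)) else (0, 1 / 20, 1 / 10)

theorem spSl_ok (N : ℕ∞) (k : ℕ) : 0 ≤ (spSl N k).1 ∧ (spSl N k).1 < (spSl N k).2.1 ∧
    (spSl N k).2.1 < (spSl N k).2.2 ∧ (spSl N k).2.2 ≤ 1 / 10 := by
  unfold spSl
  split_ifs with h
  · obtain ⟨h1, h2⟩ := h
    obtain ⟨j, rfl⟩ : ∃ j, k = j + 1 := ⟨k - 1, by omega⟩
    have e : j + 1 - 1 = j := rfl
    simp only [e]
    exact ⟨aa_nonneg N _, aa_lt h2, lt_aa (Seq_lt_of_succ_le h2), aa_le N j⟩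
  · norm_num

/-- The block data of the vertex `k`. -/
noncomputable def spB (K : Core) (N : ℕ∞) (k : ℕ) : BlkD :=
  blkD K (spSl N k).1 (spSl N k).2.1 (spSl N k).2.2 (spRad K N k)

theorem spB_ok (K : Core) (N : ℕ∞) (k : ℕ) :
    BlkOK K (spSl N k).1 (spSl N k).2.1 (spSl N k).2.2 (spRad K N k) (spB K N k) :=
  blkD_ok K (spSl_ok N k).1 (spSl_ok N k).2.1 (spSl_ok N k).2.2.1 (spSl_ok N k).2.2.2
    (spRad_pos K N k) (spRad_lt K N k)

/-- The bolt radius bound for the cut-off radius `A₀` and the curvature bound `κ`. -/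
noncomputable def bolt0 (A₀ κ : ℝ) : ℝ :=
  if h : 0 < A₀ ∧ 0 < κ then Classical.choose (u2OK_eh h.1 h.2) else 1

theorem bolt0_spec {A₀ κ : ℝ} (hA : 0 < A₀) (hκ : 0 < κ) : 0 < bolt0 A₀ κ ∧
    bolt0 A₀ κ < A₀ / 2 ∧ ∀ a : ℝ, 0 < a → a < bolt0 A₀ κ → ∀ A > a,
      0 < ehU A₀ a A ∧ U2OK (ehU A₀ a) (ehU A₀ a) κ A := by
  unfold bolt0
  rw [dif_pos ⟨hA, hκ⟩]
  exact Classical.choose_spec (u2OK_eh hA hκ)

open Classical in
/-- The radius of the bolt of the block `k`. -/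
noncomputable def spA (K : Core) (N : ℕ∞) (k : ℕ) : ℝ :=
  if N = ⊤ then 0 else min (bolt0 K.A0 (3 * (spB K N k).s ^ 2) / 2) (zz N.toNat ^ 6)

theorem spA_top (K : Core) (k : ℕ) : spA K ⊤ k = 0 := by
  unfold spA
  rw [if_pos rfl]

theorem Par_kappa_pos (K : Core) (N : ℕ∞) (k : ℕ) : 0 < 3 * (spB K N k).s ^ 2 := by
  have h := (spB_ok K N k).blk.s_pos
  positivity

theorem spA_pos (K : Core) {N : ℕ∞} (hN : N ≠ ⊤) (k : ℕ) : 0 < spA K N k := by
  unfold spA
  rw [if_neg hN]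
  have h1 := (bolt0_spec K.A0_pos (Par_kappa_pos K N k)).1
  exact lt_min (by linarith) (pow_pos (zz_pos _) 6)

theorem spA_le6 (K : Core) {N : ℕ∞} (hN : N ≠ ⊤) (k : ℕ) : spA K N k ≤ zz N.toNat ^ 6 := by
  unfold spA
  rw [if_neg hN]
  exact min_le_right _ _

theorem spA_le (K : Core) {N : ℕ∞} (hN : N ≠ ⊤) (k : ℕ) : spA K N k ≤ zz N.toNat := by
  refine (spA_le6 K hN k).trans ?_
  have h0 := zz_pos N.toNat
  have h1 : zz N.toNat ≤ 1 := by
    unfold zz
    exact pow_le_one₀ (by norm_num) (by norm_num)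
  calc zz N.toNat ^ 6 = zz N.toNat * zz N.toNat ^ 5 := by ring
    _ ≤ zz N.toNat * 1 := mul_le_mul_of_nonneg_left (pow_le_one₀ h0.le h1) h0.le
    _ = zz N.toNat := mul_one _

theorem spA_nonneg (K : Core) (N : ℕ∞) (k : ℕ) : 0 ≤ spA K N k := by
  rcases eq_or_ne N ⊤ with rfl | hN
  · rw [spA_top]
  · exact (spA_pos K hN k).le

theorem Par_spA_lt_bolt0 (K : Core) {N : ℕ∞} (hN : N ≠ ⊤) (k : ℕ) :
    spA K N k < bolt0 K.A0 (3 * (spB K N k).s ^ 2) := by
  have h1 := (bolt0_spec K.A0_pos (Par_kappa_pos K N k)).1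
  unfold spA
  rw [if_neg hN]
  exact (min_le_left _ _).trans_lt (by linarith)

theorem spA_lt (K : Core) (N : ℕ∞) (k : ℕ) : spA K N k < K.A0 / 2 := by
  rcases eq_or_ne N ⊤ with rfl | hN
  · rw [spA_top]
    exact half_pos K.A0_pos
  · exact (Par_spA_lt_bolt0 K hN k).trans (bolt0_spec K.A0_pos (Par_kappa_pos K N k)).2.1

theorem Par_u2OK_one {κ A : ℝ} (hκ : 0 ≤ κ) (hA : 0 < A) :
    U2OK (fun _ => 1) (fun _ => 1) κ A := by
  have e0 : u2om (fun _ => 1) = fun _ => (0 : ℝ) := by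
    funext x
    unfold u2om
    simp
  have e1 : u2R0 (fun _ => 1) (fun _ => 1) A = 0 := by
    unfold u2R0
    rw [e0]
    simp
  have e2 : u2R1 (fun _ => 1) (fun _ => 1) A = 0 := by
    unfold u2R1
    rw [e0]
    simp
    field_simp
    ring
  have e3 : u2R3 (fun _ => 1) (fun _ => 1) A = 0 := by
    unfold u2R3
    rw [e0]
    simp
    field_simp
    ring
  refine ⟨?_, ?_, ?_⟩
  · rw [e1]; linarith
  · rw [e2]; linarith
  · rw [e3]; linarith

/-- `bolt0_spec`; for `N = ⊤`: `ehU A0 0 = 1`. -/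
theorem spA_ric (K : Core) (N : ℕ∞) (k : ℕ) : ∀ A > spA K N k, 0 < ehU K.A0 (spA K N k) A ∧
    U2OK (ehU K.A0 (spA K N k)) (ehU K.A0 (spA K N k)) (3 * (spB K N k).s ^ 2) A := by
  rcases eq_or_ne N ⊤ with rfl | hN
  · rw [spA_top]
    intro A hA
    have e : ehU K.A0 0 = fun _ => (1 : ℝ) := by
      funext x
      unfold ehU
      simp
    rw [e]
    exact ⟨one_pos, Par_u2OK_one (Par_kappa_pos K ⊤ k).le hA⟩
  · exact (bolt0_spec K.A0_pos (Par_kappa_pos K N k)).2.2 _ (spA_pos K hN k)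
      (Par_spA_lt_bolt0 K hN k)

/-- The parameters of the block `k`. -/
noncomputable def spBlk (K : Core) (N : ℕ∞) (k : ℕ) : BlkPar where
  K := K
  al := (spSl N k).1
  c := (spSl N k).2.1
  ar := (spSl N k).2.2
  ρ := spRad K N k
  a := spA K N k
  B := spB K N k
  ok := spB_ok K N k
  ρ_pos := spRad_pos K N k
  a_nonneg := spA_nonneg K N k
  a_lt := spA_lt K N k
  a_ric := spA_ric K N k

theorem Par_spSl_eq {N : ℕ∞} {k : ℕ} (hk : 1 ≤ k) (hkN : (k : ℕ∞) ≤ N) :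
    spSl N k = (aa N k, cc N k, aa N (k - 1)) := by
  unfold spSl
  rw [if_pos ⟨hk, hkN⟩]

theorem spColl (K : Core) (N : ℕ∞) (hN : 2 ≤ N) {k : ℕ} (hk : 1 ≤ k) (hkN : (k : ℕ∞) ≤ N) :
    CollOK K (spAmb K N hN) k (spB K N k) := by
  refine ⟨rfl, hk, hkN, ?_⟩
  have h := spB_ok K N k
  rw [Par_spSl_eq hk hkN] at h
  exact h

/-- The radius of the bolt at the middle of the middle edge. -/
noncomputable def spX (K : Core) (N : ℕ∞) : ℝ :=
  min (bolt0 (spRad K N 0) 3 / 2) (spRad K N 0 / 4)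

theorem spX_pos (K : Core) (N : ℕ∞) : 0 < spX K N := by
  have h0 := spRad_pos K N 0
  have h1 := (bolt0_spec h0 (by norm_num : (0 : ℝ) < 3)).1
  exact lt_min (by linarith) (by linarith)

theorem spX_lt (K : Core) (N : ℕ∞) : spX K N < spRad K N 0 / 2 := by
  have h0 := spRad_pos K N 0
  exact (min_le_right _ _).trans_lt (by linarith)

theorem spX_ric (K : Core) (N : ℕ∞) : ∀ A > spX K N, 0 < ehU (spRad K N 0) (spX K N) A ∧
    U2OK (ehU (spRad K N 0) (spX K N)) (ehU (spRad K N 0) (spX K N)) 3 A := by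
  have h1 := bolt0_spec (spRad_pos K N 0) (by norm_num : (0 : ℝ) < 3)
  exact h1.2.2 _ (spX_pos K N) ((min_le_left _ _).trans_lt (by linarith [h1.1]))

/-- For `k < n` the data do not depend on `n` (`n = ⊤` included). -/
theorem spB_eq_top (K : Core) {n k : ℕ} (hk : 1 ≤ k) (hkn : k < n) :
    spB K (n : ℕ∞) k = spB K ⊤ k := by
  have h1 : (k : ℕ∞) < (n : ℕ∞) := by exact_mod_cast hkn
  have h2 : ((k - 1 : ℕ) : ℕ∞) < (n : ℕ∞) := by
    have : k - 1 < n := by omega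
    exact_mod_cast this
  have e1 : spSl (n : ℕ∞) k = spSl ⊤ k := by
    rw [Par_spSl_eq hk h1.le, Par_spSl_eq hk le_top, aa_eq_top h1, cc_eq_top h1.le, aa_eq_top h2]
  have e2 : spRad K (n : ℕ∞) k = spRad K ⊤ k := by
    unfold spRad
    rw [if_neg (by omega), if_neg (by omega)]
  unfold spB
  rw [e1, e2]

theorem spRad_eq_top (K : Core) {k : ℕ} (hk : 1 ≤ k) (N : ℕ∞) : spRad K N k = zz k ^ 2 / 100 := by
  unfold spRad
  rw [if_neg (by omega)]

end Pool.Agent.W_MP_654ec6
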