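import Pool.Agent.W_MP_654ec6.F.AmbGlue
import Pool.Agent.W_MP_654ec6.F.BlkReach
import Pool.Agent.W_MP_654ec6.F.EHRic
import Pool.Agent.W_MP_654ec6.F.Par

/-!
# Task F9: the blocks with their bolts, and the ambient space with all blocks

`bP P c`: the block `blkP P` with (if `c` holds) the Eguchi-Hanson space glued in, scaled by `s²`.
The collar function is `bR P c`; outside the patch D and in the bolt it is `-ρ/4`.
Proofs: `rBlk ≤ -ρ/2` in the patches E and F since `|w| < sin t0` and `s (t0 - tstar) ≤ ρ/2`.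
-/

open scoped ContDiff Topology
open Filter Real

namespace Pool.Agent.W_MP_654ec6

theorem Sp1_chi {A₀ A : ℝ} (hA₀ : 0 < A₀) (h : A < A₀ / 2) : ehChi A₀ A = 1 := by
  unfold ehChi
  rw [Real.smoothTransition.zero_of_nonpos, sub_zero]
  rw [sub_nonpos, div_le_iff₀ hA₀]
  linarith

/-- Near the bolt the metric of the patch `F` is the Eguchi-Hanson metric. -/
theorem Sp1_UW_start (P : BlkPar) {A : ℝ} (hA : A < P.K.A0 / 2) :
    P.K.U P.a A = 1 - P.a ^ 4 / A ^ 4 ∧ P.K.W P.a A = 1 - P.a ^ 4 / A ^ 4 := by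
  have h0 := P.K.A0_pos
  have hv : P.K.v A = 0 := P.K.v_zero A (by linarith)
  unfold Core.U Core.W
  rw [hv, Sp1_chi h0 hA]
  constructor
  · ring
  · ring

/-- The curvature condition of the patch `F`. -/
theorem Sp1_U2OK (P : BlkPar) {A : ℝ} (hA : P.a < A) (hA' : A < sin P.K.t0) :
    U2OK (P.K.U P.a) (P.K.W P.a) (3 * P.B.s ^ 2) A := by
  obtain ⟨h0, h | ⟨h, h1, h2⟩⟩ := gF_cases P hA hA'
  · exact blk_U2OK_congr (h.mono fun x hx => hx.1) (h.mono fun x hx => hx.2) (P.a_ric _ hA).2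
  · refine blk_U2OK_mono (blk_U2OK_congr (h.mono fun x hx => hx.1) (h.mono fun x hx => hx.2)
      (u2OK_flat h0 P.K.v_smooth (P.K.v_nonneg _) (P.K.v_deriv _) (P.K.v_deriv2 _) h1 h2)) ?_
    positivity

theorem Sp1_mk_cont {m : Fin 3 → ℤ} {f : WPt m → ℝ}
    (hf : Continuous fun p => f (WPt.mk m p)) {σ : E4 → ℂ × ℂ × ℂ} {u : E4}
    (hσ : ContinuousAt σ u) : ContinuousAt (fun x => f (WPt.mk m (σ x))) u :=
  ContinuousAt.comp (g := fun p => f (WPt.mk m p)) hf.continuousAt hσ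

theorem Sp1_aSq_cont : Continuous fun p => aSq (WPt.mk ![1, 2, 1] p) := by
  have h : (fun p : ℂ × ℂ × ℂ => aSq (WPt.mk ![1, 2, 1] p)) =
      fun p => 1 - max 0 (1 - ‖p.2.2‖ ^ 2) * ‖p.2.1‖ ^ 2 := rfl
  rw [h]
  fun_prop

theorem Sp1_rBlk_cont (P : BlkPar) : Continuous fun p => rBlk P (WPt.mk ![1, 2, 1] p) := by
  have h : (fun p : ℂ × ℂ × ℂ => rBlk P (WPt.mk ![1, 2, 1] p)) =
      fun p => P.B.s * (‖p.2.2‖ - sin P.K.t0 + P.K.t0 - P.B.tstar) - P.ρ := rfl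
  rw [h]
  fun_prop

/-- The Eguchi-Hanson data of a block. -/
noncomputable def blkEHD (P : BlkPar) : EHDat where
  a := P.a
  b := P.K.A0 / 2
  r := sin P.K.t0
  U := P.K.U P.a
  W := P.K.W P.a
  a_nonneg := P.a_nonneg
  a_lt := P.a_lt
  b_le := by
    obtain ⟨h1, h2, h3, h4⟩ := sin_half P
    have h5 := P.K.A0_pos
    linarith
  U_smooth := fun A hA => smooth_U P.K P.a (lt_of_le_of_lt P.a_nonneg hA.1)
  W_smooth := fun A hA => by
    have h0 : 0 < A := lt_of_le_of_lt P.a_nonneg hA.1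
    have := v_le P h0 hA.2
    exact smooth_W P.K P.a h0 (by linarith)
  U_pos := fun A hA => (UW_pos P hA.1 hA.2).1
  W_pos := fun A hA => (UW_pos P hA.1 hA.2).2
  U_eq := fun _ A hA => (Sp1_UW_start P hA.2).1
  W_eq := fun _ A hA => (Sp1_UW_start P hA.2).2

/-- The gluing of the bolt to the block. -/
noncomputable def bGlue (P : BlkPar) (c : Prop) :
    PreP.GlueData (blkP P) ((ehP (blkEHD P)).restr c) :=
  ehGlue (blkP P) (blkEHD P) c P.a le_rfl (fun u => blkPsi P 2 u) (fun p => √(aSq p) - P.a)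
    (fun _ _ _ hu hu' => blkPsi_F_iff P hu hu')
    (fun _ u hu => ⟨(2 : Fin 3), id, hu, isoAt_id _ _, Eventually.of_forall fun _ => rfl⟩)
    (fun _ i _ ha => ((Sp1_mk_cont Sp1_aSq_cont (continuousAt_blkRep P i ha)).sqrt).sub
      continuousAt_const)
    (fun _ _ _ ha => sub_pos.2 (Real.lt_sqrt_of_sq_lt (aSq_gt P ha)))
    (fun _ u hu => by
      change √(aSq (blkPsi P 2 u)) - P.a = ‖u‖ - P.a
      rw [aSq_F P hu, Real.sqrt_sq (norm_nonneg u)])

/-- The block with its bolt, scaled. -/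
noncomputable def bP (P : BlkPar) (c : Prop) : PreP :=
  (PreP.glue (blkP P) ((ehP (blkEHD P)).restr c) (bGlue P c)).smul (P.B.s ^ 2)
    (pow_pos P.ok.blk.s_pos 2)

/-- The collar function of the block with its bolt. -/
noncomputable def bR (P : BlkPar) (c : Prop) : (bP P c).Pt → ℝ :=
  Sum.elim (fun p : WPt ![1, 2, 1] => max (rBlk P p) (-(P.ρ / 4))) (fun _ => -(P.ρ / 4))

theorem rBlk_EF_le (P : BlkPar) {i : Fin 3} (hi : i ≠ 0) {u : E4} (hu : u ∈ blkV P i) :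
    rBlk P (blkPsi P i u) ≤ -(P.ρ / 2) := by
  have hs := P.ok.blk.s_pos
  have h1 := P.ok.blk.size1
  have h2 := P.ok.blk.T2_gt
  have h3 := P.K.isCore.T0_gt
  have h4 := P.K.isCore.t0_lt
  have h5 : ‖cB u‖ < sin P.K.t0 := by
    fin_cases i
    · exact absurd rfl hi
    · exact (mem_VE P hu).2
    · exact (mem_VF P hu).2.1
  unfold rBlk
  rw [wabs_EF P hi]
  have h6 : P.B.s * (‖cB u‖ - sin P.K.t0 + P.K.t0 - P.B.tstar) ≤ P.ρ / 2 :=
    (mul_le_mul_of_nonneg_left (by linarith) hs.le).trans h1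
  linarith

theorem Sp1_bR_inl (P : BlkPar) (c : Prop) (p : WPt ![1, 2, 1]) :
    bR P c (Sum.inl p) = max (rBlk P p) (-(P.ρ / 4)) := rfl

/-- On the patches of the bolt the collar function is constant. -/
theorem Sp1_bR_bolt (P : BlkPar) (c : Prop) (j : EHI) {q : E4}
    (hq : q ∈ ((ehP (blkEHD P)).restr c).V j) :
    bR P c (PreP.glueMap (bGlue P c) (((ehP (blkEHD P)).restr c).ψ j q)) = -(P.ρ / 4) := by
  by_cases h : 0 < (bGlue P c).rQ (((ehP (blkEHD P)).restr c).ψ j q)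
  · obtain ⟨d, hd, u, hu, -, -, e⟩ := PreP.Pre_glueMap_pos (bGlue P c) hq h
    rw [e]
    obtain rfl : d = EHI.F := hd
    have hu' : u ∈ VF P := hu.2
    have h1 : rBlk P (blkPsi P 2 u) ≤ -(P.ρ / 2) := rBlk_EF_le P (i := 2) (by decide) hu'
    have hρ := P.ρ_pos
    change max (rBlk P (blkPsi P 2 u)) (-(P.ρ / 4)) = _
    rw [max_eq_right (by linarith)]
  · rw [PreP.glueMap_of_le (bGlue P c) (not_lt.1 h)]
    rfl

theorem bR_cont (P : BlkPar) (c : Prop) (j : (bP P c).ι) (q : E4) (hq : q ∈ (bP P c).V j) :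
    ContinuousAt (fun x => bR P c ((bP P c).ψ j x)) q := by
  rcases j with i | j
  · exact (Sp1_mk_cont (Sp1_rBlk_cont P) (continuousAt_blkRep P i hq)).max continuousAt_const
  · refine (continuousAt_const (y := -(P.ρ / 4))).congr ?_
    filter_upwards [(((ehP (blkEHD P)).restr c).isOpen_V j).mem_nhds hq] with x hx
    exact (Sp1_bR_bolt P c j hx).symm

theorem Sp1_bR_pos (P : BlkPar) (c : Prop) {p : WPt ![1, 2, 1]} :
    0 < bR P c (Sum.inl p) ↔ 0 < rBlk P p := by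
  have hρ := P.ρ_pos
  rw [Sp1_bR_inl, lt_max_iff]
  constructor
  · rintro (h | h)
    · exact h
    · linarith
  · exact Or.inl

theorem bR_cover (P : BlkPar) (c : Prop) (j : (bP P c).ι) (q : E4) (hq : q ∈ (bP P c).V j)
    (h : 0 < bR P c ((bP P c).ψ j q)) :
    ∃ u ∈ VD P, (bP P c).ψ (Sum.inl (0 : Fin 3)) u = (bP P c).ψ j q := by
  rcases j with i | j
  · have h1 : 0 < rBlk P (blkPsi P i q) := (Sp1_bR_pos P c).1 h
    by_cases hi : i = (0 : Fin 3)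
    · subst hi
      exact ⟨q, hq, rfl⟩
    · exact absurd h1 (not_lt.2 (rBlk_EF P hi hq).le)
  · exfalso
    have h1 := Sp1_bR_bolt P c j hq
    have hρ := P.ρ_pos
    change 0 < bR P c (PreP.glueMap (bGlue P c) (((ehP (blkEHD P)).restr c).ψ j q)) at h
    rw [h1] at h
    linarith

theorem bR_pos_iff (P : BlkPar) (c : Prop) {u : E4} (hu : u ∈ VD P) :
    0 < bR P c ((bP P c).ψ (Sum.inl (0 : Fin 3)) u) ↔ P.ρ < P.B.s * (‖u‖ - P.B.tstar) := by
  exact (Sp1_bR_pos P c (p := blkPsi P 0 u)).trans (rBlk_pos_D P hu)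

theorem bR_eq (P : BlkPar) (c : Prop) {u : E4} (hu : u ∈ VD P)
    (h : 0 < bR P c ((bP P c).ψ (Sum.inl (0 : Fin 3)) u)) :
    bR P c ((bP P c).ψ (Sum.inl (0 : Fin 3)) u) = P.B.s * (‖u‖ - P.B.tstar) - P.ρ := by
  have h0 : 0 < rBlk P (blkPsi P 0 u) := (Sp1_bR_pos P c (p := blkPsi P 0 u)).1 h
  have h1 := (rBlk_pos_D P hu).1 h0
  have h2 := P.ok.blk.size1
  have hs := P.ok.blk.s_pos
  have h3 := P.ok.blk.T2_gt
  have h4 := P.K.isCore.T0_gt
  have h5 := P.K.isCore.t0_lt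
  have hρ := P.ρ_pos
  have h6 : P.B.T2 < ‖u‖ := by
    by_contra h7
    have h8 : P.B.s * (‖u‖ - P.B.tstar) ≤ P.B.s * (P.B.T2 - P.B.tstar) :=
      mul_le_mul_of_nonneg_left (by linarith [not_lt.1 h7]) hs.le
    linarith
  change max (rBlk P (blkPsi P 0 u)) (-(P.ρ / 4)) = _
  rw [max_eq_left (by linarith), rBlk_D P hu (by linarith)]

theorem b_inj_D (P : BlkPar) (c : Prop) {u u' : E4} (hu : u ∈ VD P) (hu' : u' ∈ VD P)
    (h : (bP P c).ψ (Sum.inl (0 : Fin 3)) u = (bP P c).ψ (Sum.inl (0 : Fin 3)) u') : u = u' := by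
  exact blkInj_D P hu hu' (Sum.inl_injective h)

/-- All patches of the block have `Ric ≥ -3`. -/
theorem b_ric (P : BlkPar) (c : Prop) (j : (bP P c).ι) (q : E4) (hq : q ∈ (bP P c).V j) :
    RicGE ((bP P c).g j) (-3) q := by
  have hs := P.ok.blk.s_pos
  have hs2 : 0 < P.B.s ^ 2 := pow_pos hs 2
  have hc : -(3 * P.B.s ^ 2) / P.B.s ^ 2 = -3 := by
    field_simp
  rcases j with i | j
  · have h1 := ricGE_smul hs2 (blkRic P i hq)
    rw [hc] at h1
    exact h1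
  · have h1 := ricGE_smul hs2 (ehRic (blkEHD P) (κ := 3 * P.B.s ^ 2) (by positivity)
      (fun A hA => Sp1_U2OK P hA.1 hA.2) j hq.2)
    rw [hc] at h1
    exact h1

/-- In the Eguchi-Hanson space one reaches the complement of the bolt. -/
theorem Sp1_eh_reach (E : EHDat) : (ehP E).Reach (fun p => ehR p - E.a) := by
  have ha0 := E.a_nonneg
  have hb : 0 < E.b := E.a_nonneg.trans_lt E.a_lt
  -- the radius in the charts of the bolt
  have key1 : ∀ u : E4, 0 < E.a → cB u ≠ 0 → E.a < √(bA2 E.a u) := by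
    intro u ha h
    have hn := norm_pos_iff.2 h
    rw [bA2_eq]
    apply Real.lt_sqrt_of_sq_lt
    apply Real.lt_sqrt_of_sq_lt
    have : 0 < ‖cB u‖ ^ 2 := by positivity
    have e : (E.a ^ 2) ^ 2 = E.a ^ 4 := by ring
    rw [e]
    linarith
  -- a point with `cB ≠ 0` near `u` with `cB u = 0`
  have key2 : ∀ u : E4, 0 < E.a → bA2 E.a u < E.b ^ 2 → cB u = 0 → ∃ v : E4, cB v ≠ 0 ∧
      segment ℝ u v ⊆ {w : E4 | 0 < E.a ∧ bA2 E.a w < E.b ^ 2} := by
    intro u ha hu h0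
    have h1 : bA2 E.a u = E.a ^ 2 := by
      rw [bA2_eq, h0, norm_zero]
      have e : E.a ^ 4 + 0 ^ 2 = (E.a ^ 2) ^ 2 := by ring
      rw [e]
      exact Real.sqrt_sq (sq_nonneg _)
    have hab : E.a ^ 4 < E.b ^ 4 := pow_lt_pow_left₀ E.a_lt ha0 (by norm_num)
    obtain ⟨δ, hδ, hδ2⟩ : ∃ δ : ℝ, 0 < δ ∧ δ ^ 2 < E.b ^ 4 - E.a ^ 4 := by
      have h2 : 0 < E.b ^ 4 - E.a ^ 4 := by linarith
      refine ⟨√(E.b ^ 4 - E.a ^ 4) / 2, by positivity, ?_⟩
      rw [div_pow, Real.sq_sqrt h2.le]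
      linarith
    refine ⟨toE (cA u) (δ : ℂ), ?_, ?_⟩
    · rw [cB_toE]
      exact Complex.ofReal_ne_zero.2 hδ.ne'
    · rintro w ⟨s, t, hs, ht, hst, rfl⟩
      refine ⟨ha, ?_⟩
      have h3 : cB (s • u + t • toE (cA u) (δ : ℂ)) = ((t * δ : ℝ) : ℂ) := by
        rw [map_add, map_smul, map_smul, h0, cB_toE, smul_zero, zero_add]
        rw [Complex.real_smul, Complex.ofReal_mul]
      rw [bA2_eq, h3, Complex.norm_real, Real.norm_of_nonneg (mul_nonneg ht hδ.le)]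
      rw [Real.sqrt_lt' (by positivity)]
      have h4 : t * δ ≤ δ := by nlinarith
      have h5 : (t * δ) ^ 2 ≤ δ ^ 2 := pow_le_pow_left₀ (mul_nonneg ht hδ.le) h4 2
      have e : (E.b ^ 2) ^ 2 = E.b ^ 4 := by ring
      rw [e]
      linarith
  intro i u hu
  cases i
  · refine ⟨EHI.F, u, hu, ?_, Relation.ReflTransGen.refl⟩
    change 0 < ehR (WPt.mk ehm (ehs E.a EHI.F u)) - E.a
    rw [ehR_F]
    exact sub_pos.2 hu.1
  · by_cases h0 : cB u = 0
    · obtain ⟨v, hv, hseg⟩ := key2 u hu.1 hu.2 h0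
      refine ⟨EHI.B1, v, hseg (right_mem_segment ℝ u v), ?_,
        Relation.ReflTransGen.single ⟨EHI.B1, u, v, hseg, rfl, rfl⟩⟩
      change 0 < ehR (WPt.mk ehm (ehs E.a EHI.B1 v)) - E.a
      rw [ehR_B1 hu.1]
      exact sub_pos.2 (key1 v hu.1 hv)
    · refine ⟨EHI.B1, u, hu, ?_, Relation.ReflTransGen.refl⟩
      change 0 < ehR (WPt.mk ehm (ehs E.a EHI.B1 u)) - E.a
      rw [ehR_B1 hu.1]
      exact sub_pos.2 (key1 u hu.1 h0)
  · by_cases h0 : cB u = 0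
    · obtain ⟨v, hv, hseg⟩ := key2 u hu.1 hu.2 h0
      refine ⟨EHI.B2, v, hseg (right_mem_segment ℝ u v), ?_,
        Relation.ReflTransGen.single ⟨EHI.B2, u, v, hseg, rfl, rfl⟩⟩
      change 0 < ehR (WPt.mk ehm (ehs E.a EHI.B2 v)) - E.a
      rw [ehR_B2 hu.1]
      exact sub_pos.2 (key1 v hu.1 hv)
    · refine ⟨EHI.B2, u, hu, ?_, Relation.ReflTransGen.refl⟩
      change 0 < ehR (WPt.mk ehm (ehs E.a EHI.B2 u)) - E.a
      rw [ehR_B2 hu.1]
      exact sub_pos.2 (key1 u hu.1 h0)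

theorem b_reach (P : BlkPar) (c : Prop) : (bP P c).Reach (bR P c) := by
  have hP : (blkP P).Reach (fun p => max (rBlk P p) (-(P.ρ / 4))) := by
    intro i a ha
    obtain ⟨j, d, hd, h0, h1⟩ := blk_reach P i a ha
    exact ⟨j, d, hd, lt_max_of_lt_left h0, h1⟩
  have hQ : ((ehP (blkEHD P)).restr c).Reach (bGlue P c).rQ :=
    PreP.reach_restr (Sp1_eh_reach (blkEHD P)) c
  have h : (PreP.glue (blkP P) ((ehP (blkEHD P)).restr c) (bGlue P c)).Reach (bR P c) :=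
    PreP.reach_glue (bGlue P c) (fQ := fun _ => -(P.ρ / 4)) hP hQ
  exact PreP.reach_smul h (pow_pos P.ok.blk.s_pos 2)

/-- The family of the blocks. -/
noncomputable def spFam (K : Core) (N : ℕ∞) (hN : 2 ≤ N) : BlkFam K (spAmb K N hN) where
  Q := fun k => bP (spBlk K N k) (N ≠ ⊤)
  d := fun _ => Sum.inl (0 : Fin 3)
  r := fun k => bR (spBlk K N k) (N ≠ ⊤)
  B := fun k => spB K N k
  coll := fun _ hk hkN => spColl K N hN hk hkN
  V_d := fun _ _ _ => rfl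
  g_d := fun _ _ _ => rfl
  r_cont := fun k _ _ => bR_cont (spBlk K N k) (N ≠ ⊤)
  cover := fun k _ _ => bR_cover (spBlk K N k) (N ≠ ⊤)
  r_pos := fun k _ _ _ hu => bR_pos_iff (spBlk K N k) (N ≠ ⊤) hu
  r_eq := fun k _ _ _ hu => bR_eq (spBlk K N k) (N ≠ ⊤) hu
  inj_d := fun k _ _ _ hu _ hu' => b_inj_D (spBlk K N k) (N ≠ ⊤) hu hu'

/-- The ambient space with all blocks. -/
noncomputable def spP1 (K : Core) (N : ℕ∞) (hN : 2 ≤ N) : PreP := (spFam K N hN).P1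

end Pool.Agent.W_MP_654ec6
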