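import Pool.Agent.W_MP_654ec6.F.CovEH
import Pool.Agent.W_MP_654ec6.F.Sp1

/-!
# Part F: a block is compact up to its collar
-/

open scoped ContDiff Topology ComplexConjugate
open Filter Real

namespace Pool.Agent.W_MP_654ec6

/-! ### Labels of a point of a block -/

theorem CovBlk_D (K : Core) {z1 z2 w : ℂ} (h : ‖z1‖ ^ 2 + ‖z2‖ ^ 2 = 1) (hw : w ≠ 0) {t : ℝ}
    (ht : 0 < t) (hq : qt K t = ‖w‖) :
    ∃ u : E4, ‖u‖ = t ∧ WPt.mk ![1, 2, 1] (repD K u) = WPt.mk ![1, 2, 1] (z1, z2, w) := by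
  have hc := norm_phase hw
  have hph := phase_mul hw
  obtain ⟨c, hcd⟩ : ∃ c : ℂ, c = conj w / (‖w‖ : ℂ) := ⟨_, rfl⟩
  rw [← hcd] at hc hph
  obtain ⟨u, hu⟩ : ∃ u : E4, u = toE ((t : ℂ) * (c * z1)) ((t : ℂ) * (c ^ 2 * z2)) := ⟨_, rfl⟩
  have hA : cA u = (t : ℂ) * (c * z1) := by rw [hu, cA_toE]
  have hB : cB u = (t : ℂ) * (c ^ 2 * z2) := by rw [hu, cB_toE]
  have ht' : (t : ℂ) ≠ 0 := Complex.ofReal_ne_zero.2 ht.ne'
  have hn : ‖u‖ = t := by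
    have e := norm_sq_cAB u
    rw [hA, hB, norm_mul, norm_mul, norm_mul, norm_mul, norm_pow, hc, one_pow, one_mul, one_mul,
      Complex.norm_real, Real.norm_of_nonneg ht.le] at e
    have e2 : ‖u‖ ^ 2 = t ^ 2 := by rw [e]; linear_combination t ^ 2 * h
    exact (pow_left_inj₀ (norm_nonneg _) ht.le two_ne_zero).1 e2
  refine ⟨u, hn, ?_⟩
  symm
  rw [WPt.mk_eq]
  refine ⟨c, hc, ?_⟩
  rw [wAct_121, repD_eq, hA, hB, hn, hq]
  refine Prod.ext ?_ (Prod.ext ?_ ?_)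
  · exact mul_div_cancel_left₀ _ ht'
  · exact mul_div_cancel_left₀ _ ht'
  · exact hph.symm

theorem CovBlk_E {z1 z2 w : ℂ} (h : ‖z1‖ ^ 2 + ‖z2‖ ^ 2 = 1) (hw : ‖w‖ < 1) (h1 : z1 ≠ 0) :
    ∃ u : E4, sq2 u = ‖w‖ ^ 2 ∧ sq1 u = (1 - ‖w‖ ^ 2) * ‖z2‖ ^ 2 ∧
      WPt.mk ![1, 2, 1] (repE u) = WPt.mk ![1, 2, 1] (z1, z2, w) := by
  have hc := norm_phase h1
  have hph := phase_mul h1
  obtain ⟨c, hcd⟩ : ∃ c : ℂ, c = conj z1 / (‖z1‖ : ℂ) := ⟨_, rfl⟩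
  rw [← hcd] at hc hph
  have hw2 : 0 < 1 - ‖w‖ ^ 2 := by nlinarith [norm_nonneg w]
  obtain ⟨S, hS⟩ : ∃ S : ℝ, S = √(1 - ‖w‖ ^ 2) := ⟨_, rfl⟩
  have hS0 : 0 < S := by rw [hS]; exact Real.sqrt_pos.2 hw2
  have hS2 : S ^ 2 = 1 - ‖w‖ ^ 2 := by rw [hS]; exact Real.sq_sqrt hw2.le
  have hS' : (S : ℂ) ≠ 0 := Complex.ofReal_ne_zero.2 hS0.ne'
  obtain ⟨u, hu⟩ : ∃ u : E4, u = toE ((S : ℂ) * (c ^ 2 * z2)) (c * w) := ⟨_, rfl⟩
  have hA : cA u = (S : ℂ) * (c ^ 2 * z2) := by rw [hu, cA_toE]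
  have hB : cB u = c * w := by rw [hu, cB_toE]
  have e2 : sq2 u = ‖w‖ ^ 2 := by rw [sq2_eq, hB, norm_mul, hc, one_mul]
  have e1 : sq1 u = (1 - ‖w‖ ^ 2) * ‖z2‖ ^ 2 := by
    rw [sq1_eq, hA, norm_mul, norm_mul, norm_pow, hc, one_pow, one_mul, Complex.norm_real,
      Real.norm_of_nonneg hS0.le, mul_pow, hS2]
  refine ⟨u, e2, e1, ?_⟩
  have e3 : sgc u = S := by
    unfold sgc
    rw [e2, hS]
  have e4 : sr u = S * ‖z1‖ := by
    unfold sr
    rw [nsq_eq_norm, ← sq12, e1, e2]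
    have e5 : 1 - ((1 - ‖w‖ ^ 2) * ‖z2‖ ^ 2 + ‖w‖ ^ 2) = (S * ‖z1‖) ^ 2 := by
      rw [mul_pow, hS2]
      linear_combination (-(1 - ‖w‖ ^ 2)) * h
    rw [e5]
    exact Real.sqrt_sq (mul_nonneg hS0.le (norm_nonneg _))
  symm
  rw [WPt.mk_eq]
  refine ⟨c, hc, ?_⟩
  rw [wAct_121, repE_eq, hA, hB, e3, e4, Complex.ofReal_mul]
  refine Prod.ext ?_ (Prod.ext ?_ ?_)
  · exact (mul_div_cancel_left₀ _ hS').trans hph.symm
  · exact mul_div_cancel_left₀ _ hS'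
  · rfl

theorem CovBlk_F {z1 z2 w : ℂ} (h : ‖z1‖ ^ 2 + ‖z2‖ ^ 2 = 1) (hw : ‖w‖ < 1) (h2 : z2 ≠ 0) :
    ∃ u : E4, ‖u‖ ^ 2 = 1 - (1 - ‖w‖ ^ 2) * ‖z2‖ ^ 2 ∧
      WPt.mk ![1, 2, 1] (repF u) = WPt.mk ![1, 2, 1] (z1, z2, w) := by
  obtain ⟨c, hc2⟩ := IsAlgClosed.exists_pow_nat_eq (conj z2 / (‖z2‖ : ℂ)) (n := 2) (by norm_num)
  have hc : ‖c‖ = 1 := by
    have e := congrArg norm hc2
    rw [norm_phase h2, norm_pow] at e
    exact (pow_eq_one_iff_of_nonneg (norm_nonneg _) two_ne_zero).1 e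
  have hph := phase_mul h2
  rw [← hc2] at hph
  have hw2 : 0 < 1 - ‖w‖ ^ 2 := by nlinarith [norm_nonneg w]
  obtain ⟨S, hS⟩ : ∃ S : ℝ, S = √(1 - ‖w‖ ^ 2) := ⟨_, rfl⟩
  have hS0 : 0 < S := by rw [hS]; exact Real.sqrt_pos.2 hw2
  have hS2 : S ^ 2 = 1 - ‖w‖ ^ 2 := by rw [hS]; exact Real.sq_sqrt hw2.le
  have hS' : (S : ℂ) ≠ 0 := Complex.ofReal_ne_zero.2 hS0.ne'
  obtain ⟨u, hu⟩ : ∃ u : E4, u = toE ((S : ℂ) * (c * z1)) (c * w) := ⟨_, rfl⟩
  have hA : cA u = (S : ℂ) * (c * z1) := by rw [hu, cA_toE]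
  have hB : cB u = c * w := by rw [hu, cB_toE]
  have e2 : sq2 u = ‖w‖ ^ 2 := by rw [sq2_eq, hB, norm_mul, hc, one_mul]
  have e1 : sq1 u = (1 - ‖w‖ ^ 2) * ‖z1‖ ^ 2 := by
    rw [sq1_eq, hA, norm_mul, norm_mul, hc, one_mul, Complex.norm_real,
      Real.norm_of_nonneg hS0.le, mul_pow, hS2]
  have e0 : ‖u‖ ^ 2 = 1 - (1 - ‖w‖ ^ 2) * ‖z2‖ ^ 2 := by
    rw [← sq12, e1, e2]
    linear_combination (1 - ‖w‖ ^ 2) * h
  refine ⟨u, e0, ?_⟩
  have e3 : sgc u = S := by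
    unfold sgc
    rw [e2, hS]
  have e4 : sr u = S * ‖z2‖ := by
    unfold sr
    rw [nsq_eq_norm, e0]
    have e5 : 1 - (1 - (1 - ‖w‖ ^ 2) * ‖z2‖ ^ 2) = (S * ‖z2‖) ^ 2 := by
      rw [mul_pow, hS2]
      ring
    rw [e5]
    exact Real.sqrt_sq (mul_nonneg hS0.le (norm_nonneg _))
  symm
  rw [WPt.mk_eq]
  refine ⟨c, hc, ?_⟩
  rw [wAct_121, repF_eq, hA, hB, e3, e4, Complex.ofReal_mul]
  refine Prod.ext ?_ (Prod.ext ?_ ?_)
  · exact mul_div_cancel_left₀ _ hS'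
  · exact (mul_div_cancel_left₀ _ hS').trans hph.symm
  · rfl

/-- Normalised representatives. -/
theorem CovBlk_rep (P : BlkPar) {i : Fin 3} {u : E4} (hu : u ∈ blkV P i) :
    ∃ z1 z2 w : ℂ, ‖z1‖ ^ 2 + ‖z2‖ ^ 2 = 1 ∧ blkPsi P i u = WPt.mk ![1, 2, 1] (z1, z2, w) := by
  have key : ∀ {v : E4}, nsq v < 1 → sr v ^ 2 + ‖cA v‖ ^ 2 = sgc v ^ 2 ∧ 0 < sgc v := by
    intro v hv
    refine ⟨?_, sgc_pos hv⟩
    rw [sr_sq hv, nsq_eq_norm, ← sq12, ← sq1_eq]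
    unfold sgc
    rw [Real.sq_sqrt (by linarith [nB_lt hv])]
    ring
  fin_cases i
  · obtain ⟨h1, -⟩ := mem_VD P hu
    refine ⟨cA u / (‖u‖ : ℂ), cB u / (‖u‖ : ℂ), ((qt P.K ‖u‖ : ℝ) : ℂ), ?_, ?_⟩
    · rw [norm_div, norm_div, Complex.norm_real, norm_norm, div_pow, div_pow, ← add_div,
        ← norm_sq_cAB]
      exact div_self (by positivity)
    · rw [← repD_eq]
      rfl
  · obtain ⟨h1, -⟩ := mem_VE P hu
    obtain ⟨h2, h3⟩ := key h1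
    refine ⟨(sr u : ℂ) / (sgc u : ℂ), cA u / (sgc u : ℂ), cB u, ?_, ?_⟩
    · rw [norm_div, norm_div, Complex.norm_real, Complex.norm_real,
        Real.norm_of_nonneg h3.le, Real.norm_of_nonneg (sr_pos h1).le, div_pow, div_pow,
        ← add_div, h2]
      exact div_self (by positivity)
    · rw [← repE_eq]
      rfl
  · obtain ⟨h1, -⟩ := mem_VF P hu
    obtain ⟨h2, h3⟩ := key h1
    refine ⟨cA u / (sgc u : ℂ), (sr u : ℂ) / (sgc u : ℂ), cB u, ?_, ?_⟩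
    · rw [norm_div, norm_div, Complex.norm_real, Complex.norm_real,
        Real.norm_of_nonneg h3.le, Real.norm_of_nonneg (sr_pos h1).le, div_pow, div_pow,
        ← add_div, add_comm, h2]
      exact div_self (by positivity)
    · rw [← repF_eq]
      rfl

/-- Every value of `|w|` is attained by `qt`. -/
theorem CovBlk_qt (K : Core) {x : ℝ} (hx : 0 < x) : ∃ t, 0 < t ∧ qt K t = x := by
  have h1 := K.isCore.t0_pos
  have h2 := K.isCore.t0_lt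
  have hp := pi_gt_three
  rcases le_or_gt x (sin K.t0) with h | h
  · refine ⟨arcsin x, arcsin_pos.2 hx, ?_⟩
    have h3 : arcsin x ≤ K.t0 := by
      rw [← arcsin_sin (x := K.t0) (by linarith) (by linarith)]
      exact monotone_arcsin h
    rw [qt_of_le K h3, sin_arcsin (by linarith) (by linarith [K.sin_t0.2])]
  · refine ⟨K.t0 + (x - sin K.t0), by linarith, ?_⟩
    rw [qt_of_ge K (by linarith)]
    ring

/-! ### The compact sets -/

theorem CovBlk_cont : Continuous sq1 ∧ Continuous sq2 := by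
  constructor
  · have : sq1 = fun u => ‖cA u‖ ^ 2 := funext sq1_eq
    rw [this]
    exact (continuous_norm.comp cA.continuous).pow 2
  · have : sq2 = fun u => ‖cB u‖ ^ 2 := funext sq2_eq
    rw [this]
    exact (continuous_norm.comp cB.continuous).pow 2

theorem Cov_blk (P : BlkPar) (ha : 0 < P.a) (c : Prop) (hc : c) :
    (bP P c).Cov {q | (bP P c).IsPt q ∧ bR P c q ≤ P.ρ / 4} := by
  have t0p := P.K.isCore.t0_pos
  have t0l := P.K.isCore.t0_lt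
  have hpi := pi_gt_three
  have hsin : ∀ x y : ℝ, 0 ≤ x → x < y → y ≤ P.K.t0 → sin x < sin y := fun x y h1 h2 h3 =>
    sin_lt_sin_of_lt_of_le_pi_div_two (by linarith) (by linarith) h2
  obtain ⟨s1, s2, s3, s4⟩ := sin_half P
  obtain ⟨s5, s6⟩ := P.K.sin_t0
  have hA0 := P.K.A0_pos
  obtain ⟨s7, hs7⟩ : ∃ s7, s7 = sin (7 / 8 * P.K.t0) := ⟨_, rfl⟩
  obtain ⟨s9, hs9⟩ : ∃ s9, s9 = sin (9 / 10 * P.K.t0) := ⟨_, rfl⟩
  have h7 : sin (P.K.t0 / 2) < s7 := by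
    rw [hs7]; exact hsin _ _ (by linarith) (by linarith) (by linarith)
  have h79 : s7 < s9 := by
    rw [hs7, hs9]; exact hsin _ _ (by linarith) (by linarith) (by linarith)
  have h9 : s9 < sin P.K.t0 := by
    rw [hs9]; exact hsin _ _ (by linarith) (by linarith) (by linarith)
  have hs := P.ok.blk.s_pos
  have hsz := P.ok.blk.size1
  have hT2 := P.ok.blk.T2_gt
  have hT0 := P.K.isCore.T0_gt
  have hρ := P.ρ_pos
  -- the compact sets
  have hCD : IsCompact {u : E4 | 3 / 4 * P.K.t0 ≤ ‖u‖ ∧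
      P.B.s * (‖u‖ - P.B.tstar) ≤ 5 / 4 * P.ρ} := by
    refine IsCompact.of_isClosed_subset (isCompact_closedBall (0 : E4)
      (P.B.tstar + 5 / 4 * P.ρ / P.B.s)) ((isClosed_le continuous_const continuous_norm).inter
        (isClosed_le (continuous_const.mul (continuous_norm.sub continuous_const))
          continuous_const)) ?_
    rintro u ⟨-, h⟩
    rw [mem_closedBall_zero_iff]
    have h2 : ‖u‖ - P.B.tstar ≤ 5 / 4 * P.ρ / P.B.s := by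
      rw [le_div_iff₀ hs]
      linarith
    linarith
  have hVD : {u : E4 | 3 / 4 * P.K.t0 ≤ ‖u‖ ∧ P.B.s * (‖u‖ - P.B.tstar) ≤ 5 / 4 * P.ρ} ⊆
      (blkP P).V (0 : Fin 3) := fun u hu =>
    (⟨by linarith [hu.1], by linarith [hu.2]⟩ : u ∈ VD P)
  have hCE : IsCompact {u : E4 | sq2 u ≤ s7 ^ 2 ∧ sq1 u ≤ 1 - s9 ^ 2} := by
    refine IsCompact.of_isClosed_subset (isCompact_closedBall (0 : E4) 1)
      ((isClosed_le CovBlk_cont.2 continuous_const).inter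
        (isClosed_le CovBlk_cont.1 continuous_const)) ?_
    rintro u ⟨h1, h2⟩
    rw [mem_closedBall_zero_iff]
    have h3 := sq12 u
    have h4 : s7 ^ 2 < s9 ^ 2 := pow_lt_pow_left₀ h79 (by linarith) (by norm_num)
    exact (sq_le_one_iff₀ (norm_nonneg u)).1 (by linarith)
  have hVE : {u : E4 | sq2 u ≤ s7 ^ 2 ∧ sq1 u ≤ 1 - s9 ^ 2} ⊆ (blkP P).V (1 : Fin 3) := by
    rintro u ⟨h1, h2⟩
    have h3 := sq12 u
    have h4 : s7 ^ 2 < s9 ^ 2 := pow_lt_pow_left₀ h79 (by linarith) (by norm_num)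
    have h5 : s9 ^ 2 < sin P.K.t0 ^ 2 := pow_lt_pow_left₀ h9 (by linarith) (by norm_num)
    have h6 : (sin (P.K.t0 / 2) / 2) ^ 2 < s9 ^ 2 :=
      pow_lt_pow_left₀ (by linarith) (by linarith) (by norm_num)
    exact (⟨(sq_lt_one_iff₀ (norm_nonneg u)).1 (by linarith), by linarith, by linarith⟩ :
      u ∈ VE P)
  have hCF : IsCompact {u : E4 | P.K.A0 / 2 ≤ ‖u‖ ∧ ‖u‖ ≤ s9} := by
    refine IsCompact.of_isClosed_subset (isCompact_closedBall (0 : E4) s9)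
      ((isClosed_le continuous_const continuous_norm).inter
        (isClosed_le continuous_norm continuous_const)) ?_
    rintro u ⟨-, h⟩
    rw [mem_closedBall_zero_iff]
    exact h
  have hVF : {u : E4 | P.K.A0 / 2 ≤ ‖u‖ ∧ ‖u‖ ≤ s9} ⊆ (blkP P).V (2 : Fin 3) := fun u hu =>
    (⟨P.a_lt.trans_le hu.1, hu.2.trans_lt h9⟩ : u ∈ VF P)
  have hEH : (blkEHD P).b < (blkEHD P).r := by
    change P.K.A0 / 2 < sin P.K.t0
    linarith
  have hcov2 := PreP.Cov_restr (Cov_eh (blkEHD P) ha hEH) hc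
  have hcov1 := PreP.Cov_union (PreP.Cov_image hCD hVD)
    (PreP.Cov_union (PreP.Cov_image hCE hVE) (PreP.Cov_image hCF hVF))
  refine PreP.Cov_smul (PreP.Cov_glue (bGlue P c) hcov1 hcov2 ?_) _
  rintro q ⟨hq, hr⟩
  rcases PreP.isPt_glue (bGlue P c) hq with ⟨p1, ⟨i, u, hu, rfl⟩, rfl⟩ | ⟨q', hq', h0, rfl⟩
  · -- a point of the block
    have hr1 : rBlk P (blkPsi P i u) ≤ P.ρ / 4 := (le_max_left _ _).trans hr
    have hgt := aSq_gt P (i := i) hu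
    obtain ⟨z1, z2, w, hz, e⟩ := CovBlk_rep P (i := i) hu
    have e0 : (blkP P).ψ i u = WPt.mk ![1, 2, 1] (z1, z2, w) := e
    rw [e] at hr1 hgt
    rw [e0]
    rcases le_or_gt s7 ‖w‖ with hw | hw
    · -- patch D
      left
      have hw0 : w ≠ 0 := norm_pos_iff.1 (by linarith)
      obtain ⟨t, ht, hqt⟩ := CovBlk_qt P.K (x := ‖w‖) (by linarith)
      obtain ⟨v, hv, e2⟩ := CovBlk_D P.K hz hw0 ht hqt
      refine ⟨_, Or.inl ⟨v, ⟨?_, ?_⟩, e2⟩, rfl⟩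
      · rw [hv]
        by_contra h1
        have h2 : qt P.K t < qt P.K (7 / 8 * P.K.t0) :=
          qt_strictMono P.K ht (by linarith [not_le.1 h1])
        rw [qt_of_le P.K (by linarith : 7 / 8 * P.K.t0 ≤ P.K.t0), ← hs7] at h2
        linarith
      · rw [hv]
        rcases le_or_gt t P.K.t0 with h1 | h1
        · have h2 : P.B.s * (t - P.B.tstar) ≤ P.B.s * (P.B.T2 - P.B.tstar) :=
            mul_le_mul_of_nonneg_left (by linarith) hs.le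
          linarith
        · have h2 : rBlk P (WPt.mk ![1, 2, 1] (z1, z2, w)) =
              P.B.s * (‖w‖ - sin P.K.t0 + P.K.t0 - P.B.tstar) - P.ρ := rfl
          rw [h2, ← hqt, qt_of_ge P.K h1.le] at hr1
          have h3 : sin P.K.t0 + (t - P.K.t0) - sin P.K.t0 + P.K.t0 - P.B.tstar =
              t - P.B.tstar := by ring
          rw [h3] at hr1
          linarith
    · have hw1 : ‖w‖ < 1 := by linarith
      have hw2 : 0 < 1 - ‖w‖ ^ 2 := by nlinarith [norm_nonneg w]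
      have h2 : aSq (WPt.mk ![1, 2, 1] (z1, z2, w)) =
          1 - max 0 (1 - ‖w‖ ^ 2) * ‖z2‖ ^ 2 := rfl
      rw [h2, max_eq_right hw2.le] at hgt
      have hw7 : ‖w‖ ^ 2 < s7 ^ 2 := pow_lt_pow_left₀ hw (norm_nonneg w) (by norm_num)
      have h79' : s7 ^ 2 < s9 ^ 2 := pow_lt_pow_left₀ h79 (by linarith) (by norm_num)
      rcases le_or_gt (s9 ^ 2) (1 - (1 - ‖w‖ ^ 2) * ‖z2‖ ^ 2) with h3 | h3
      · -- patch E
        left
        have hz1 : z1 ≠ 0 := by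
          rintro rfl
          rw [norm_zero] at hz
          have hz2 : ‖z2‖ ^ 2 = 1 := by linarith
          rw [hz2] at h3
          linarith
        obtain ⟨v, k1, k2, k3⟩ := CovBlk_E hz hw1 hz1
        refine ⟨_, Or.inr (Or.inl ⟨v, ⟨?_, ?_⟩, k3⟩), rfl⟩
        · rw [k1]
          exact hw7.le
        · rw [k2]
          linarith
      · -- patch F
        have hz2 : z2 ≠ 0 := by
          rintro rfl
          rw [norm_zero] at h3
          nlinarith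
        obtain ⟨v, k1, k2⟩ := CovBlk_F hz hw1 hz2
        rw [← k1] at h3 hgt
        have h4 : ‖v‖ < s9 := lt_of_pow_lt_pow_left₀ 2 (by linarith) h3
        have h5 : P.a < ‖v‖ := lt_of_pow_lt_pow_left₀ 2 (norm_nonneg v) hgt
        rcases le_or_gt (P.K.A0 / 2) ‖v‖ with h6 | h6
        · left
          exact ⟨_, Or.inr (Or.inr ⟨v, ⟨h6, h4.le⟩, k2⟩), rfl⟩
        · right
          have hv : v ∈ ehV (blkEHD P) EHI.F := ⟨h5, h4.trans h9⟩
          refine ⟨(ehP (blkEHD P)).ψ EHI.F v, ⟨⟨EHI.F, v, hv, rfl⟩, ?_⟩, ?_⟩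
          · have h7 : ehR ((ehP (blkEHD P)).ψ EHI.F v) = ‖v‖ := ehR_F P.a v
            rw [h7]
            exact h6.le
          · have h7 : 0 < (bGlue P c).rQ (((ehP (blkEHD P)).restr c).ψ EHI.F v) := by
              change 0 < ehR (WPt.mk ehm (ehs P.a EHI.F v)) - P.a
              rw [ehR_F]
              linarith
            have h8 := PreP.glueMap_of_pos (bGlue P c) (d := EHI.F) rfl (u := v) ⟨hc, hv⟩ h7
            have h9 : (bGlue P c).E EHI.F v = WPt.mk ![1, 2, 1] (z1, z2, w) := k2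
            rw [h9] at h8
            exact h8
  · -- a point near the bolt
    right
    refine ⟨q', ⟨(PreP.isPt_restr hq').2, ?_⟩, rfl⟩
    have h1 : ehR q' - P.a ≤ 0 := h0
    have h2 : (blkEHD P).b = P.K.A0 / 2 := rfl
    have h3 := P.a_lt
    rw [h2]
    linarith

end Pool.Agent.W_MP_654ec6
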