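import Pool.Agent.W_MP_654ec6.F.Conn
import Pool.Agent.W_MP_654ec6.F.EH

/-!
# Part F: connectedness and compact exhaustion of the Eguchi-Hanson pre-patchwork
-/

open scoped ContDiff Topology
open Filter Real

namespace Pool.Agent.W_MP_654ec6

theorem bA2_lt_iff {a b : ℝ} (_ha : 0 < a) (hb : 0 < b) (u : E4) :
    bA2 a u < b ^ 2 ↔ a ^ 4 + ‖cB u‖ ^ 2 < b ^ 4 := by
  rw [bA2_eq, Real.sqrt_lt' (by positivity)]
  have h1 : (b ^ 2) ^ 2 = b ^ 4 := by ring
  rw [h1]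

theorem bA2_le_iff {a b : ℝ} (hb : 0 < b) (u : E4) :
    bA2 a u ≤ b ^ 2 ↔ a ^ 4 + ‖cB u‖ ^ 2 ≤ b ^ 4 := by
  rw [bA2_eq, Real.sqrt_le_left (by positivity)]
  have h1 : (b ^ 2) ^ 2 = b ^ 4 := by ring
  rw [h1]

/-- The domains of the bolt charts are convex. -/
theorem convex_bolt (E : EHDat) : Convex ℝ {u | 0 < E.a ∧ bA2 E.a u < E.b ^ 2} := by
  by_cases ha : 0 < E.a
  · have hb : 0 < E.b := ha.trans E.a_lt
    have h1 : {u | 0 < E.a ∧ bA2 E.a u < E.b ^ 2} =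
        (cB : E4 → ℂ) ⁻¹' Metric.ball 0 (√(E.b ^ 4 - E.a ^ 4)) := by
      ext u
      have h2 : 0 ≤ E.b ^ 4 - E.a ^ 4 := by
        have := pow_lt_pow_left₀ E.a_lt ha.le (n := 4) (by norm_num)
        linarith
      constructor
      · rintro ⟨-, h3⟩
        rw [bA2_lt_iff ha hb] at h3
        rw [Set.mem_preimage, mem_ball_zero_iff]
        exact Real.lt_sqrt_of_sq_lt (by linarith)
      · intro h3
        rw [Set.mem_preimage, mem_ball_zero_iff, Real.lt_sqrt (norm_nonneg _)] at h3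
        exact ⟨ha, (bA2_lt_iff ha hb u).2 (by linarith)⟩
    rw [h1]
    exact (convex_ball _ _).is_linear_preimage cB.toLinearMap.isLinear
  · have h1 : {u | 0 < E.a ∧ bA2 E.a u < E.b ^ 2} = ∅ := by
      ext u
      exact ⟨fun h => absurd h.1 ha, fun h => absurd h (Set.notMem_empty u)⟩
    rw [h1]
    exact convex_empty

/-- A radial segment of the annulus. -/
theorem segment_annulus {a r : ℝ} {u : E4} (hu : ‖u‖ ∈ Set.Ioo a r) {c : ℝ} (hc : 1 ≤ c)
    (h : c * ‖u‖ < r) : segment ℝ u (c • u) ⊆ {u : E4 | ‖u‖ ∈ Set.Ioo a r} := by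
  rw [segment_eq_image']
  rintro _ ⟨t, ht, rfl⟩
  have h1 : u + t • (c • u - u) = (1 + t * (c - 1)) • u := by
    rw [add_smul, one_smul, mul_smul, sub_smul, one_smul]
  have h2 : 0 ≤ t * (c - 1) := mul_nonneg ht.1 (by linarith)
  have h3 : t * (c - 1) ≤ c - 1 := by nlinarith [ht.2]
  have h4 : ‖u + t • (c • u - u)‖ = (1 + t * (c - 1)) * ‖u‖ := by
    rw [h1, norm_smul, Real.norm_of_nonneg (by linarith)]
  show ‖u + t • (c • u - u)‖ ∈ Set.Ioo a r
  rw [h4]
  have h5 := norm_nonneg u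
  constructor
  · nlinarith [hu.1]
  · nlinarith

/-- From every point of the bolt charts one reaches the annulus. -/
theorem eh_toF (E : EHDat) {i : EHI} {u : E4} (hu : u ∈ ehV E i) :
    ∃ v ∈ ehV E EHI.F, Relation.ReflTransGen (ehP E).Seg ((ehP E).ψ i u) ((ehP E).ψ EHI.F v) := by
  have key : ∀ u : E4, u ∈ {u | 0 < E.a ∧ bA2 E.a u < E.b ^ 2} →
      ∃ y, y ∈ {u | 0 < E.a ∧ bA2 E.a u < E.b ^ 2} ∧ E.a < √(bA2 E.a y) ∧
        segment ℝ u y ⊆ {u | 0 < E.a ∧ bA2 E.a u < E.b ^ 2} := by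
    intro u hu
    have ha : 0 < E.a := hu.1
    have hb : 0 < E.b := ha.trans E.a_lt
    have h2 : 0 < E.b ^ 4 - E.a ^ 4 := by
      have := pow_lt_pow_left₀ E.a_lt ha.le (n := 4) (by norm_num)
      linarith
    have h3 : ‖cB (toE (cA u) ((√((E.b ^ 4 - E.a ^ 4) / 2) : ℝ) : ℂ))‖ ^ 2 =
        (E.b ^ 4 - E.a ^ 4) / 2 := by
      rw [cB_toE, Complex.norm_real, Real.norm_of_nonneg (Real.sqrt_nonneg _),
        Real.sq_sqrt (by linarith)]
    have h4 : toE (cA u) ((√((E.b ^ 4 - E.a ^ 4) / 2) : ℝ) : ℂ) ∈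
        {u | 0 < E.a ∧ bA2 E.a u < E.b ^ 2} := by
      refine ⟨ha, (bA2_lt_iff ha hb _).2 ?_⟩
      rw [h3]
      linarith
    refine ⟨_, h4, ?_, (convex_bolt E).segment_subset hu h4⟩
    refine Real.lt_sqrt_of_sq_lt ?_
    rw [bA2_eq, h3]
    refine Real.lt_sqrt_of_sq_lt ?_
    nlinarith
  cases i
  · exact ⟨u, hu, Relation.ReflTransGen.refl⟩
  · obtain ⟨y, h1, h2, h3⟩ := key u hu
    have h4 : E.a < ehR (WPt.mk ehm (ehs E.a EHI.B1 y)) := by
      rw [ehR_B1 h1.1]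
      exact h2
    obtain ⟨v, hv, hv2⟩ := eh_exists_F E (j := EHI.B1) h1 h4
    refine ⟨v, hv, Relation.ReflTransGen.single ⟨EHI.B1, u, y, h3, rfl, ?_⟩⟩
    exact hv2.symm
  · obtain ⟨y, h1, h2, h3⟩ := key u hu
    have h4 : E.a < ehR (WPt.mk ehm (ehs E.a EHI.B2 y)) := by
      rw [ehR_B2 h1.1]
      exact h2
    obtain ⟨v, hv, hv2⟩ := eh_exists_F E (j := EHI.B2) h1 h4
    refine ⟨v, hv, Relation.ReflTransGen.single ⟨EHI.B2, u, y, h3, rfl, ?_⟩⟩
    exact hv2.symm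

/-- From every point of the Eguchi-Hanson space one reaches the collar. -/
theorem ehReach (E : EHDat) {r0 : ℝ} (h0 : r0 < E.r) :
    (ehP E).Reach (fun p : WPt ehm => ehR p - r0) := by
  intro i u hu
  obtain ⟨v, hv, hch⟩ := eh_toF E hu
  have hv0 : 0 < ‖v‖ := E.a_nonneg.trans_lt hv.1
  have h1 : max r0 ‖v‖ < E.r := max_lt h0 hv.2
  obtain ⟨c, hc⟩ : ∃ c : ℝ, c = (max r0 ‖v‖ + E.r) / 2 / ‖v‖ := ⟨_, rfl⟩
  have hcv : c * ‖v‖ = (max r0 ‖v‖ + E.r) / 2 := by
    rw [hc]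
    field_simp
  have h2 := le_max_left r0 ‖v‖
  have h3 := le_max_right r0 ‖v‖
  have hc1 : 1 ≤ c := by
    rw [hc, le_div_iff₀ hv0]
    linarith
  have hcr : c * ‖v‖ < E.r := by rw [hcv]; linarith
  have hn : ‖c • v‖ = c * ‖v‖ := by
    rw [norm_smul, Real.norm_of_nonneg (by linarith)]
  have hseg := segment_annulus hv hc1 hcr
  have hmem : c • v ∈ ehV E EHI.F := hseg (right_mem_segment ℝ _ _)
  refine ⟨EHI.F, c • v, hmem, ?_, hch.tail ⟨EHI.F, v, c • v, hseg, rfl, rfl⟩⟩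
  have h4 : ehR ((ehP E).ψ EHI.F (c • v)) = ‖c • v‖ := ehR_F E.a (c • v)
  show 0 < ehR ((ehP E).ψ EHI.F (c • v)) - r0
  rw [h4, hn, hcv]
  linarith

theorem ehReach_restr (E : EHDat) (c : Prop) {r0 : ℝ} (h0 : r0 < E.r) :
    ((ehP E).restr c).Reach (fun p : WPt ehm => ehR p - r0) :=
  PreP.reach_restr (ehReach E h0) c

/-- The compact subsets of the patches. -/
def ehC (E : EHDat) (r1 : ℝ) : EHI → Set E4
  | EHI.F => {u | (E.a + E.b) / 2 ≤ ‖u‖ ∧ ‖u‖ ≤ r1}
  | EHI.B1 => {u | ‖cA u‖ ≤ 1 ∧ bA2 E.a u ≤ ((E.a + E.b) / 2) ^ 2}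
  | EHI.B2 => {u | ‖cA u‖ ≤ 1 ∧ bA2 E.a u ≤ ((E.a + E.b) / 2) ^ 2}

theorem ehC_sub (E : EHDat) (ha : 0 < E.a) {r1 : ℝ} (h1 : r1 < E.r) (i : EHI) :
    ehC E r1 i ⊆ ehV E i := by
  have hab := E.a_lt
  have h2 : ((E.a + E.b) / 2) ^ 2 < E.b ^ 2 :=
    pow_lt_pow_left₀ (by linarith) (by linarith) (by norm_num)
  cases i
  · intro u hu
    exact ⟨lt_of_lt_of_le (by linarith) hu.1, hu.2.trans_lt h1⟩
  · intro u hu
    exact ⟨ha, hu.2.trans_lt h2⟩
  · intro u hu
    exact ⟨ha, hu.2.trans_lt h2⟩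

theorem isCompact_ehC (E : EHDat) (r1 : ℝ) (i : EHI) : IsCompact (ehC E r1 i) := by
  have key : IsCompact {u | ‖cA u‖ ≤ 1 ∧ bA2 E.a u ≤ ((E.a + E.b) / 2) ^ 2} := by
    have hc : 0 < (E.a + E.b) / 2 := by linarith [E.a_nonneg, E.a_lt]
    refine Metric.isCompact_of_isClosed_isBounded ?_ ?_
    · exact (isClosed_le cA.continuous.norm continuous_const).inter
        (isClosed_le (continuous_bA2 E.a) continuous_const)
    · refine (Metric.isBounded_closedBall (x := (0 : E4))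
        (r := 1 + ((E.a + E.b) / 2) ^ 2)).subset ?_
      intro u hu
      have h2 := (bA2_le_iff hc u).1 hu.2
      have h3 : ‖cB u‖ ≤ ((E.a + E.b) / 2) ^ 2 := by
        have h4 : 0 ≤ E.a ^ 4 := by
          have := E.a_nonneg
          positivity
        refine le_of_sq_le_sq ?_ (by positivity)
        have h5 : (((E.a + E.b) / 2) ^ 2) ^ 2 = ((E.a + E.b) / 2) ^ 4 := by ring
        rw [h5]
        linarith
      rw [Metric.mem_closedBall, dist_zero_right]
      refine le_of_sq_le_sq ?_ (by positivity)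
      rw [norm_sq_cAB]
      have h6 := hu.1
      have h7 := norm_nonneg (cA u)
      have h8 := norm_nonneg (cB u)
      nlinarith
  cases i
  · refine Metric.isCompact_of_isClosed_isBounded ?_ ?_
    · exact (isClosed_le continuous_const continuous_norm).inter
        (isClosed_le continuous_norm continuous_const)
    · refine (Metric.isBounded_closedBall (x := (0 : E4)) (r := r1)).subset ?_
      intro u hu
      rw [Metric.mem_closedBall, dist_zero_right]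
      exact hu.2
  · exact key
  · exact key

/-- Every point with `A ≤ r1` is in the image of one of the compact sets. -/
theorem ehC_cover (E : EHDat) (ha : 0 < E.a) {r1 : ℝ} {i : EHI} {u : E4} (hu : u ∈ ehV E i)
    (h : ehR (WPt.mk ehm (ehs E.a i u)) ≤ r1) :
    ∃ j, ∃ v ∈ ehC E r1 j, WPt.mk ehm (ehs E.a j v) = WPt.mk ehm (ehs E.a i u) := by
  have hab := E.a_lt
  have hb : 0 < E.b := ha.trans hab
  have hc : 0 < (E.a + E.b) / 2 := by linarith
  -- points of the annulus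
  have kF : ∀ u : E4, u ∈ ehV E EHI.F → ‖u‖ ≤ r1 →
      ∃ j, ∃ v ∈ ehC E r1 j, WPt.mk ehm (ehs E.a j v) = WPt.mk ehm (ehs E.a EHI.F u) := by
    intro u hu h
    by_cases h1 : (E.a + E.b) / 2 ≤ ‖u‖
    · exact ⟨EHI.F, u, ⟨h1, h⟩, rfl⟩
    · have h1' := not_le.1 h1
      have hu0 : 0 < ‖u‖ := ha.trans hu.1
      have hs := norm_sq_cAB u
      have h2 : ‖u‖ ^ 2 ≤ ((E.a + E.b) / 2) ^ 2 := pow_le_pow_left₀ hu0.le h1'.le 2
      rcases le_total ‖cA u‖ ‖cB u‖ with h3 | h3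
      · have h4 : cB u ≠ 0 := by
          intro h0
          rw [h0, norm_zero] at h3 hs
          have h5 : ‖cA u‖ = 0 := le_antisymm h3 (norm_nonneg _)
          rw [h5] at hs
          have h6 : 0 < ‖u‖ ^ 2 := by positivity
          linarith
        have h5 : 0 < ‖cB u‖ := norm_pos_iff.2 h4
        obtain ⟨e1, -, e3, -⟩ := eh_bQ_thB ha hu.1 h4
        refine ⟨EHI.B1, thB E.a u, ⟨?_, ?_⟩, eh_FB' ha hu.1 h4⟩
        · rw [e3, norm_div]
          exact div_le_one_of_le₀ h3 h5.le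
        · rw [e1]
          exact h2
      · have h4 : cA u ≠ 0 := by
          intro h0
          rw [h0, norm_zero] at h3 hs
          have h5 : ‖cB u‖ = 0 := le_antisymm h3 (norm_nonneg _)
          rw [h5] at hs
          have h6 : 0 < ‖u‖ ^ 2 := by positivity
          linarith
        have h5 : 0 < ‖cA u‖ := norm_pos_iff.2 h4
        have hus : E.a < ‖swapE u‖ := by rw [norm_swapE]; exact hu.1
        have h4' : cB (swapE u) ≠ 0 := by rwa [cB_swapE]
        obtain ⟨e1, -, e3, -⟩ := eh_bQ_thB ha hus h4'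
        refine ⟨EHI.B2, thB2 E.a u, ⟨?_, ?_⟩, eh_FB2' ha hu.1 h4⟩
        · unfold thB2
          rw [e3, norm_div, cA_swapE, cB_swapE]
          exact div_le_one_of_le₀ h3 h5.le
        · unfold thB2
          rw [e1, norm_swapE]
          exact h2
  -- points of the bolt charts
  by_cases h1 : E.a < ehR (WPt.mk ehm (ehs E.a i u))
  · obtain ⟨v, hv, hv2⟩ := eh_exists_F E hu h1
    have h2 : ‖v‖ ≤ r1 := by
      rw [← ehR_F E.a v, hv2]
      exact h
    obtain ⟨j, w, hw, hw2⟩ := kF v hv h2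
    exact ⟨j, w, hw, hw2.trans hv2⟩
  · have h1' := not_lt.1 h1
    have hsm : ∀ u : E4, √(bA2 E.a u) ≤ E.a → bA2 E.a u ≤ ((E.a + E.b) / 2) ^ 2 := by
      intro u hu
      rw [Real.sqrt_le_left ha.le] at hu
      refine hu.trans (pow_le_pow_left₀ ha.le (by linarith) 2)
    cases i
    · exfalso
      rw [ehR_F] at h1'
      exact absurd hu.1 (not_lt.2 h1')
    · rw [ehR_B1 ha] at h1'
      rcases le_total ‖cA u‖ 1 with h3 | h3
      · exact ⟨EHI.B1, u, ⟨h3, hsm u h1'⟩, rfl⟩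
      · have h4 : cA u ≠ 0 := by
          intro h0
          rw [h0, norm_zero] at h3
          linarith
        obtain ⟨e1, -, e3, -⟩ := eh_bQ_thBB ha h4
        refine ⟨EHI.B2, thBB u, ⟨?_, ?_⟩, eh_BB2' ha h4⟩
        · rw [e3, norm_div, norm_one]
          exact div_le_one_of_le₀ h3 (by linarith)
        · rw [e1]
          exact hsm u h1'
    · rw [ehR_B2 ha] at h1'
      rcases le_total ‖cA u‖ 1 with h3 | h3
      · exact ⟨EHI.B2, u, ⟨h3, hsm u h1'⟩, rfl⟩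
      · have h4 : cA u ≠ 0 := by
          intro h0
          rw [h0, norm_zero] at h3
          linarith
        obtain ⟨e1, -, e3, -⟩ := eh_bQ_thBB ha h4
        refine ⟨EHI.B1, thBB u, ⟨?_, ?_⟩, ?_⟩
        · rw [e3, norm_div, norm_one]
          exact div_le_one_of_le₀ h3 (by linarith)
        · rw [e1]
          exact hsm u h1'
        · -- swap of `eh_BB2'`
          have h5 := eh_BB2' (y := u) ha h4
          rw [ehs_B2] at h5 ⊢
          exact eh_swap.1 h5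

end Pool.Agent.W_MP_654ec6
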