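import Pool.Agent.W_MP_654ec6.F.Amb
import Pool.Agent.W_MP_654ec6.F.CoreEH

/-!
# Part F: the ambient space near the middle of the middle edge (`N = n` finite)
-/

open scoped ContDiff Topology
open Filter Real

namespace Pool.Agent.W_MP_654ec6

section

variable {R : ℝ} {ρ : ℕ → ℝ} {n : ℕ} {u v : E4}

theorem Mid_norm (u : E4) : ‖u‖ ^ 2 = u 0 ^ 2 + n3 u ^ 2 := by
  rw [norm_sq_E4, n3_sq]
  ring

theorem Mid_pX (u : E4) : pX (n : ℕ∞) n u = u 0 := by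
  obtain ⟨h1, h2, h3⟩ := transC_mid (n := n)
  unfold pX
  rw [h1, h2, h3]
  ring

theorem Mid_pY (u : E4) : pY (n : ℕ∞) n u = midY (n : ℕ∞) + n3 u := by
  obtain ⟨h1, h2, h3⟩ := transC_mid (n := n)
  have h4 : vert (n : ℕ∞) n = n := by
    unfold vert
    rw [if_neg (lt_irrefl _)]
  unfold pY OY midY
  rw [h1, h3, h4]
  have : (n : ℕ∞).toNat = n := rfl
  rw [this]
  ring

/-- The distance to the middle point. -/
theorem Mid_dist (u : E4) :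
    pX (n : ℕ∞) n u ^ 2 + (pY (n : ℕ∞) n u - midY (n : ℕ∞)) ^ 2 = ‖u‖ ^ 2 := by
  rw [Mid_pX, Mid_pY, Mid_norm]
  ring

theorem Mid_bound (hρ : RadOK R (n : ℕ∞) ρ) : 2 * ρ 0 ≤ R * cc n n * zz n / 32 :=
  hρ.mid (ENat.natCast_ne_top n)

theorem Mid_flat (hR : 0 < R) (hR' : R ≤ 1 / 8) (hn : 1 ≤ n) (hρ : RadOK R (n : ℕ∞) ρ)
    (hu : ‖u‖ ≤ 2 * ρ 0) : u ∈ VC (n : ℕ∞) n ∧ gC R (n : ℕ∞) n u = 1 := by
  have h1 := Mid_bound hρ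
  refine gC_mid hR hR' hn ?_
  rw [← Mid_norm]
  exact pow_le_pow_left₀ (norm_nonneg u) (hu.trans h1) 2

theorem Mid_flat' (hR : 0 < R) (hR' : R ≤ 1 / 8) (hn : 1 ≤ n) (hρ : RadOK R (n : ℕ∞) ρ)
    (hu : ‖u‖ < 2 * ρ 0) : ∀ᶠ w in 𝓝 u, w ∈ VC (n : ℕ∞) n ∧ gC R (n : ℕ∞) n w = 1 := by
  have h1 : ∀ᶠ w : E4 in 𝓝 u, ‖w‖ < 2 * ρ 0 :=
    continuous_norm.continuousAt.eventually (gt_mem_nhds hu)
  filter_upwards [h1] with w hw
  exact Mid_flat hR hR' hn hρ (le_of_lt hw)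

/-- `2 ρ 0 ≤ zz n / 32`. -/
theorem Mid_small (hR : 0 < R) (hR' : R ≤ 1 / 8) (hρ : RadOK R (n : ℕ∞) ρ) :
    2 * ρ 0 ≤ zz n / 32 := by
  have h1 := Mid_bound hρ
  have hz := zz_pos n
  have hc := cc_le (n : ℕ∞) n
  have hc0 := cc_nonneg (n : ℕ∞) n
  have h2 : R * cc (n : ℕ∞) n ≤ 1 := by nlinarith
  have h3 : R * cc (n : ℕ∞) n * zz n ≤ 1 * zz n := mul_le_mul_of_nonneg_right h2 hz.le
  linarith

theorem Mid_mem (hR : 0 < R) (hR' : R ≤ 1 / 8) (hn : 1 ≤ n) (hρ : RadOK R (n : ℕ∞) ρ)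
    (hu : ρ 0 < ‖u‖) (hu' : ‖u‖ < 2 * ρ 0) : u ∈ VA (n : ℕ∞) ρ n := by
  refine ⟨le_rfl, (Mid_flat hR hR' hn hρ hu'.le).1, fun k hk hkN => ?_, fun _ => ?_⟩
  · have h1 := hρ.le k hk
    have h2 := hρ.pos k
    have h3 := Mid_small hR hR' hρ
    have hz := zz_pos k
    have hz2 : zz n ≤ zz k := zz_anti (by exact_mod_cast hkN)
    have h4 : |pX (n : ℕ∞) n u| ≤ ‖u‖ := by
      rw [Mid_pX]
      refine abs_le_of_sq_le_sq ?_ (norm_nonneg u)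
      rw [Mid_norm]
      nlinarith [sq_nonneg (n3 u)]
    have h5 : |pX (n : ℕ∞) n u| ≤ zz k / 32 := by linarith
    have h6 : ρ k ≤ zz k / 16 := by linarith
    have h7 : 31 / 32 * zz k ≤ zz k - |pX (n : ℕ∞) n u| := by linarith
    have h8 : (31 / 32 * zz k) ^ 2 ≤ (zz k - |pX (n : ℕ∞) n u|) ^ 2 :=
      pow_le_pow_left₀ (by positivity) h7 2
    have h9 : ρ k ^ 2 ≤ (zz k / 16) ^ 2 := pow_le_pow_left₀ h2.le h6 2
    have h10 : 0 < zz k ^ 2 := by positivity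
    nlinarith [sq_nonneg (pY (n : ℕ∞) n u - FF (n : ℕ∞) (zz k))]
  · rw [Mid_dist]
    exact pow_lt_pow_left₀ hu (hρ.pos 0).le (by norm_num)

theorem Mid_repA_neg (u : E4) (hn : 1 ≤ n) : repA R (n : ℕ∞) n (-u) =
    (-(repA R (n : ℕ∞) n u).1, (repA R (n : ℕ∞) n u).2.1, -(repA R (n : ℕ∞) n u).2.2) := by
  obtain ⟨m1, m2, -⟩ := mid_neg hn u
  unfold repA
  rw [m1, m2, bb_neg]
  refine Prod.ext rfl (Prod.ext rfl ?_)
  funext k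
  show bb R (n : ℕ∞) (pX (n : ℕ∞) n u) (pY (n : ℕ∞) n u) * ((-u) k.succ / n3 (-u)) =
    -(bb R (n : ℕ∞) (pX (n : ℕ∞) n u) (pY (n : ℕ∞) n u) * (u k.succ / n3 u))
  have e : (-u) k.succ = -(u k.succ) := rfl
  rw [e, n3_neg]
  ring

theorem Mid_iff (hR : 0 < R) (hR' : R ≤ 1 / 8) (hn : 1 ≤ n) (hu : u ∈ VC (n : ℕ∞) n)
    (hv : v ∈ VC (n : ℕ∞) n) :
    TauPt.mk (repA R (n : ℕ∞) n u) = TauPt.mk (repA R (n : ℕ∞) n v) ↔ v = u ∨ v = -u := by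
  have hn1 : (1 : ℕ∞) ≤ (n : ℕ∞) := by exact_mod_cast hn
  have hu' : -u ∈ VC (n : ℕ∞) n := (mid_neg hn u).2.2 hu
  rw [TauPt.mk_eq]
  constructor
  · rintro (h | h)
    · left
      exact repA_inj hR hR' hn1 le_rfl hv hu h
    · right
      rw [← Mid_repA_neg u hn] at h
      exact repA_inj hR hR' hn1 le_rfl hv hu' h
  · rintro (rfl | rfl)
    · left
      rfl
    · right
      exact Mid_repA_neg u hn

/-- Local isometry between the annulus of the Eguchi-Hanson space and the ambient space. -/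
theorem Mid_isoAt (hR : 0 < R) (hR' : R ≤ 1 / 8) (hn : 1 ≤ n) (hρ : RadOK R (n : ℕ∞) ρ)
    {a : ℝ} (hu : ρ 0 < ‖u‖) (hu' : ‖u‖ < 2 * ρ 0) :
    IsoAt (u2Z (ehU (ρ 0) a) (ehU (ρ 0) a)) (gC R (n : ℕ∞) n) (fun y => y) u := by
  have hρ0 := hρ.pos 0
  have h1 : ∀ᶠ w : E4 in 𝓝 u, ρ 0 < ‖w‖ :=
    continuous_norm.continuousAt.eventually (lt_mem_nhds hu)
  refine isoAt_congr (Amb_isoAt_id 1 u) ?_ EventuallyEq.rfl ?_
  · filter_upwards [h1] with w hw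
    have h2 : ehU (ρ 0) a ‖w‖ = 1 := ehU_flat a hρ0 (by linarith)
    exact (u2Z_flat h2 h2).symm
  · show (1 : Met) =ᶠ[𝓝 u] gC R (n : ℕ∞) n
    filter_upwards [Mid_flat' hR hR' hn hρ hu'] with w hw
    exact hw.2.symm

end

end Pool.Agent.W_MP_654ec6
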