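import Pool.Agent.W_MP_654ec6.C.RicC
import Pool.Agent.W_MP_654ec6.F.AmbConn
import Pool.Agent.W_MP_654ec6.F.EHConn
import Pool.Agent.W_MP_654ec6.F.GlueFun
import Pool.Agent.W_MP_654ec6.F.MidFacts
import Pool.Agent.W_MP_654ec6.F.Sp1

/-!
# Task F10: the spaces `spP K N`

`midGlue`: the Eguchi-Hanson space at the middle of the middle edge (`N = n` finite). The collar is
`ρ 0 < ‖u‖ < 2 ρ 0` in the patch `n` of the ambient space, where the metric is flat (`gC_mid`) and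
`τ = -1` (`mid_neg`). `midF` is the collar function of the ambient space, constant `= ρ 0` at
distance `≥ 2 ρ 0`, in particular on the collars of the blocks (`CollOK.near`: `|X| ≥ 7/8 zz k ≥ 7/8 zz n`,
`2 ρ 0 ≤ R zz n/32`), so `Sum.elim midF (const ρ 0)` is continuous on `spP1` (`PreP.glue_cont`).
-/

open scoped ContDiff Topology
open Filter Real

namespace Pool.Agent.W_MP_654ec6

/-- The Eguchi-Hanson data at the middle of the middle edge. -/
noncomputable def midEHD (K : Core) (N : ℕ∞) : EHDat where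
  a := spX K N
  b := spRad K N 0 / 2
  r := 2 * spRad K N 0
  U := ehU (spRad K N 0) (spX K N)
  W := ehU (spRad K N 0) (spX K N)
  a_nonneg := (spX_pos K N).le
  a_lt := spX_lt K N
  b_le := by
    have := spRad_pos K N 0
    linarith
  U_smooth := fun _ hA => contDiffAt_ehU ((spX_pos K N).trans hA.1)
  W_smooth := fun _ hA => contDiffAt_ehU ((spX_pos K N).trans hA.1)
  U_pos := fun A hA => (spX_ric K N A hA.1).1
  W_pos := fun A hA => (spX_ric K N A hA.1).1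
  U_eq := fun _ A hA => by
    unfold ehU
    rw [ehChi_one (spRad_pos K N 0) hA.2.le, one_mul]
  W_eq := fun _ A hA => by
    unfold ehU
    rw [ehChi_one (spRad_pos K N 0) hA.2.le, one_mul]

/-- The collar function at the middle point. -/
noncomputable def midF (K : Core) (N : ℕ∞) : TauPt → ℝ :=
  tauFun (fun X Y => min (√(X ^ 2 + (Y - midY N) ^ 2)) (2 * spRad K N 0) - spRad K N 0)
    (fun X Y => by simp only [neg_sq])

noncomputable def midR (K : Core) (N : ℕ∞) (hN : 2 ≤ N) : (spP1 K N hN).Pt → ℝ :=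
  Sum.elim (midF K N) (fun _ => spRad K N 0)

theorem Sp2_R (K : Core) : K.R ≤ 1 / 8 := by
  have := K.R_le
  linarith

theorem Sp2_n {n : ℕ} (hN : 2 ≤ (n : ℕ∞)) : 1 ≤ n := by
  have h : 2 ≤ n := by exact_mod_cast hN
  omega

theorem Sp2_he (K : Core) (N : ℕ∞) (hN : 2 ≤ N) (hNt : N ≠ ⊤) (u u' : E4)
    (hu : ‖u‖ ∈ Set.Ioo (spRad K N 0) (midEHD K N).r)
    (hu' : ‖u'‖ ∈ Set.Ioo (spRad K N 0) (midEHD K N).r) :
    (spP1 K N hN).ψ (Sum.inl N.toNat) u = (spP1 K N hN).ψ (Sum.inl N.toNat) u' ↔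
      u' = u ∨ u' = -u := by
  obtain ⟨n, rfl⟩ := ENat.ne_top_iff_exists.1 hNt
  have h1 := Mid_flat K.R_pos (Sp2_R K) (Sp2_n hN) (spRad_ok K n) (le_of_lt hu.2)
  have h2 := Mid_flat K.R_pos (Sp2_R K) (Sp2_n hN) (spRad_ok K n) (le_of_lt hu'.2)
  rw [← Mid_iff K.R_pos (Sp2_R K) (Sp2_n hN) h1.1 h2.1]
  exact ⟨fun h => Sum.inl_injective h, fun h => congrArg Sum.inl h⟩

theorem Sp2_het (K : Core) (N : ℕ∞) (hN : 2 ≤ N) (hNt : N ≠ ⊤) (u : E4)
    (hu : ‖u‖ ∈ Set.Ioo (spRad K N 0) (midEHD K N).r) :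
    ∃ (i : (spP1 K N hN).ι) (θ : E4 → E4), θ u ∈ (spP1 K N hN).V i ∧
      IsoAt (u2Z (midEHD K N).U (midEHD K N).W) ((spP1 K N hN).g i) θ u ∧
      ∀ᶠ x in 𝓝 u, (spP1 K N hN).ψ i (θ x) = (spP1 K N hN).ψ (Sum.inl N.toNat) x := by
  obtain ⟨n, rfl⟩ := ENat.ne_top_iff_exists.1 hNt
  refine ⟨Sum.inl n, fun y => y, ?_, ?_, Eventually.of_forall fun x => rfl⟩
  · exact Mid_mem K.R_pos (Sp2_R K) (Sp2_n hN) (spRad_ok K n) hu.1 hu.2
  · exact Mid_isoAt K.R_pos (Sp2_R K) (Sp2_n hN) (spRad_ok K n) hu.1 hu.2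

/-- Away from the middle point the collar function is constant. -/
theorem Sp2_midF_far (K : Core) (N : ℕ∞) {X Y : ℝ} {v : Fin 3 → ℝ}
    (h : 2 * spRad K N 0 ≤ |X|) : midF K N (TauPt.mk (X, Y, v)) = spRad K N 0 := by
  have h0 := spRad_pos K N 0
  have h1 : midF K N (TauPt.mk (X, Y, v)) =
      min (√(X ^ 2 + (Y - midY N) ^ 2)) (2 * spRad K N 0) - spRad K N 0 := rfl
  have h2 : 2 * spRad K N 0 ≤ √(X ^ 2 + (Y - midY N) ^ 2) := by
    refine Real.le_sqrt_of_sq_le ?_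
    have h3 : (2 * spRad K N 0) ^ 2 ≤ |X| ^ 2 := pow_le_pow_left₀ (by linarith) h 2
    rw [sq_abs] at h3
    nlinarith [sq_nonneg (Y - midY N)]
  rw [h1, min_eq_right h2]
  ring

/-- The collar function on the collars of the blocks. -/
theorem Sp2_hE (K : Core) (N : ℕ∞) (hN : 2 ≤ N) (hNt : N ≠ ⊤) (d : (spFam K N hN).S.ι)
    (hd : d ∈ (spFam K N hN).glueData.D) (u : E4) (hu : u ∈ (spFam K N hN).S.V d)
    (h : 0 < (spFam K N hN).glueData.rQ ((spFam K N hN).S.ψ d u)) :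
    midF K N ((spFam K N hN).glueData.E d u) = spRad K N 0 := by
  obtain ⟨k, d⟩ := d
  obtain rfl : d = (spFam K N hN).d k := hd
  obtain ⟨n, rfl⟩ := ENat.ne_top_iff_exists.1 hNt
  have hC := (spFam K n hN).coll k hu.1.1 hu.1.2
  have h1 := hC.qX_ge ((spFam K n hN).mem_coll hu.1.1 hu.1.2 hu.2 h)
  have h2 := Mid_small K.R_pos (Sp2_R K) (spRad_ok K n)
  have hz := zz_pos k
  have hkn : (k : ℕ∞) ≤ (n : ℕ∞) := hu.1.2
  have hz2 : zz n ≤ zz k := zz_anti (by exact_mod_cast hkn)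
  refine Sp2_midF_far K n ?_
  rw [abs_of_nonneg (by linarith)]
  linarith

theorem Sp2_hc (K : Core) (N : ℕ∞) (hN : 2 ≤ N) (hNt : N ≠ ⊤) (i : (spP1 K N hN).ι) (a : E4)
    (ha : a ∈ (spP1 K N hN).V i) :
    ContinuousAt (fun x => midR K N hN ((spP1 K N hN).ψ i x)) a := by
  refine PreP.glue_cont (spFam K N hN).glueData (fP := midF K N) (fQ := fun _ => spRad K N 0)
    ?_ (fun _ _ _ => continuousAt_const) (Sp2_hE K N hN hNt) i a ha
  intro j a _
  have hc : Continuous fun x : E4 =>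
      min (√(pX N j x ^ 2 + (pY N j x - midY N) ^ 2)) (2 * spRad K N 0) - spRad K N 0 :=
    (((Amb_cont' N j (midY N)).sqrt).min continuous_const).sub continuous_const
  exact hc.continuousAt

theorem Sp2_hp (K : Core) (N : ℕ∞) (hN : 2 ≤ N) (hNt : N ≠ ⊤) (i : (spP1 K N hN).ι) (a : E4)
    (ha : a ∈ (spP1 K N hN).V i) : 0 < midR K N hN ((spP1 K N hN).ψ i a) := by
  have h0 := spRad_pos K N 0
  refine PreP.glue_pos (spFam K N hN).glueData (fP := midF K N) (fQ := fun _ => spRad K N 0)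
    ?_ (fun _ _ _ => h0) (Sp2_hE K N hN hNt) i a ha
  intro j a ha
  have h1 := ha.2.2.2 hNt
  have h2 : spRad K N 0 < √(pX N j a ^ 2 + (pY N j a - midY N) ^ 2) := Real.lt_sqrt_of_sq_lt h1
  have h3 : 0 < min (√(pX N j a ^ 2 + (pY N j a - midY N) ^ 2)) (2 * spRad K N 0) -
      spRad K N 0 := sub_pos.2 (lt_min h2 (by linarith))
  exact h3

theorem Sp2_hE' (K : Core) (N : ℕ∞) (hN : 2 ≤ N) (hNt : N ≠ ⊤) (u : E4)
    (hu : ‖u‖ ∈ Set.Ioo (spRad K N 0) (midEHD K N).r) :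
    midR K N hN ((spP1 K N hN).ψ (Sum.inl N.toNat) u) = ‖u‖ - spRad K N 0 := by
  obtain ⟨n, rfl⟩ := ENat.ne_top_iff_exists.1 hNt
  have h1 : midR K n hN ((spP1 K n hN).ψ (Sum.inl n) u) =
      min (√(pX n n u ^ 2 + (pY n n u - midY n) ^ 2)) (2 * spRad K n 0) - spRad K n 0 := rfl
  have h2 : ‖u‖ < 2 * spRad K n 0 := hu.2
  have h3 : midR K n hN ((spP1 K n hN).ψ (Sum.inl (n : ℕ∞).toNat) u) =
      midR K n hN ((spP1 K n hN).ψ (Sum.inl n) u) := rfl
  rw [h3, h1, Mid_dist, Real.sqrt_sq (norm_nonneg u), min_eq_left h2.le]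

noncomputable def midGlue (K : Core) (N : ℕ∞) (hN : 2 ≤ N) :
    PreP.GlueData (spP1 K N hN) ((ehP (midEHD K N)).restr (N ≠ ⊤)) :=
  ehGlue (spP1 K N hN) (midEHD K N) (N ≠ ⊤) (spRad K N 0)
    (by have h1 := spX_lt K N; have h2 := spRad_pos K N 0; change spX K N ≤ _; linarith)
    (fun u => (spP1 K N hN).ψ (Sum.inl N.toNat) u) (midR K N hN)
    (Sp2_he K N hN) (Sp2_het K N hN) (Sp2_hc K N hN) (Sp2_hp K N hN) (Sp2_hE' K N hN)

/-- The pre-patchwork `Sp(N)`. -/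
noncomputable def spP (K : Core) (N : ℕ∞) (hN : 2 ≤ N) : PreP :=
  PreP.glue (spP1 K N hN) ((ehP (midEHD K N)).restr (N ≠ ⊤)) (midGlue K N hN)

theorem Sp2_conn1 (K : Core) (N : ℕ∞) (hN : 2 ≤ N) : (spP1 K N hN).Conn := by
  refine PreP.glue_conn (spFam K N hN).glueData (amb_conn (spAmb K N hN)) ?_
  exact PreP.reach_sigma
    (Q := fun k : ℕ => ((spFam K N hN).Q k).restr (1 ≤ k ∧ (k : ℕ∞) ≤ (spAmb K N hN).N))
    (r := fun k => (spFam K N hN).r k)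
    (fun k => PreP.reach_restr (b_reach (spBlk K N k) (N ≠ ⊤)) _)

theorem spP_conn (K : Core) (N : ℕ∞) (hN : 2 ≤ N) : (spP K N hN).Conn := by
  refine PreP.glue_conn (midGlue K N hN) (Sp2_conn1 K N hN) ?_
  have h0 := spRad_pos K N 0
  have h : spRad K N 0 < (midEHD K N).r := by
    change spRad K N 0 < 2 * spRad K N 0
    linarith
  exact PreP.reach_restr (ehReach (midEHD K N) h) (N ≠ ⊤)

theorem spP_ric (K : Core) (N : ℕ∞) (hN : 2 ≤ N) (i : (spP K N hN).ι) (a : E4)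
    (ha : a ∈ (spP K N hN).V i) : RicGE ((spP K N hN).g i) (-3) a := by
  rcases i with (j | ⟨k, j⟩) | j
  · have h1 : a ∈ VA N (spRad K N) j := ha
    have hN1 : 1 ≤ N := le_trans (by norm_num) hN
    exact ricGE_mono (goodMet_gC K.R_pos (Sp2_R K) hN1 h1.1) h1.2.1
      (ricGE_gC K.R_pos (Sp2_R K) hN1 h1.1 a h1.2.1) (by norm_num)
  · exact b_ric (spBlk K N k) (N ≠ ⊤) j a ha.2
  · exact ehRic (midEHD K N) (κ := 3) (by norm_num) (fun A hA => (spX_ric K N A hA.1).2) j ha.2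

/-- The index of the ambient patch `j`. -/
def ixC (K : Core) (N : ℕ∞) (hN : 2 ≤ N) (j : ℕ) : (spP K N hN).ι := Sum.inl (Sum.inl j)

/-- The index of the patch `i` (0: D, 1: E, 2: F) of the block `k`. -/
def ixB (K : Core) (N : ℕ∞) (hN : 2 ≤ N) (k : ℕ) (i : Fin 3) : (spP K N hN).ι :=
  Sum.inl (Sum.inr ⟨k, Sum.inl i⟩)

/-- The index of the patch `i` of the Eguchi-Hanson space of the block `k`. -/
def ixE (K : Core) (N : ℕ∞) (hN : 2 ≤ N) (k : ℕ) (i : EHI) : (spP K N hN).ι :=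
  Sum.inl (Sum.inr ⟨k, Sum.inr i⟩)

/-- The index of the patch `i` of the Eguchi-Hanson space at the middle point. -/
def ixX (K : Core) (N : ℕ∞) (hN : 2 ≤ N) (i : EHI) : (spP K N hN).ι := Sum.inr i

theorem ix_cases (K : Core) (N : ℕ∞) (hN : 2 ≤ N) (i : (spP K N hN).ι) :
    (∃ j, i = ixC K N hN j) ∨ (∃ k j, i = ixB K N hN k j) ∨ (∃ k j, i = ixE K N hN k j) ∨
      ∃ j, i = ixX K N hN j := by
  rcases i with (j | ⟨k, (j | j)⟩) | j
  · exact Or.inl ⟨j, rfl⟩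
  · exact Or.inr (Or.inl ⟨k, j, rfl⟩)
  · exact Or.inr (Or.inr (Or.inl ⟨k, j, rfl⟩))
  · exact Or.inr (Or.inr (Or.inr ⟨j, rfl⟩))

/-- A point of the ambient patch `0` over `(0, 10)` (`amb_nonempty`). -/
noncomputable def spPt (K : Core) (N : ℕ∞) (hN : 2 ≤ N) : E4 :=
  Classical.choose (amb_nonempty (spAmb K N hN))

noncomputable def spBase (K : Core) (N : ℕ∞) (hN : 2 ≤ N) : (spP K N hN).CPt :=
  ⟨(spP K N hN).ψ (ixC K N hN 0) (spPt K N hN), ixC K N hN 0, spPt K N hN,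
    (Classical.choose_spec (amb_nonempty (spAmb K N hN))).1, rfl⟩

/-- The patchwork `Sp(N)`. -/
noncomputable def sp (K : Core) (N : ℕ∞) (hN : 2 ≤ N) : Patchwork :=
  (spP K N hN).toPatchwork (spBase K N hN) (spP_conn K N hN)

/-- `Sp(n)` is complete: see `F/Complete`. -/
theorem sp_ric (K : Core) (N : ℕ∞) (hN : 2 ≤ N) (i : (sp K N hN).ι) (a : E4)
    (ha : a ∈ (sp K N hN).V i) : RicGE ((sp K N hN).g i) (-3) a :=
  spP_ric K N hN i a ha

end Pool.Agent.W_MP_654ec6
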