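import Pool.Agent.W_MP_654ec6.B.LipBasic
import Pool.Agent.W_MP_654ec6.F.Sp2

/-!
# Task F11: the height function

`spY` is `max 0 (Y - 1)` on the ambient part and `0` on the blocks. It is infinitesimally
1-Lipschitz: in the ambient patches `dX² + dY² ≤ qf (gC ..)` (`qf_gC`: `v0² + (y·w/|y|)²` is the square of the
velocity of `(l, s)`, and `(X, Y)` differs by a rotation; at points with `n3 u = 0`: there `gC = 1` near
`u`, and `|s(u') - s(u'')| ≤ |y' - y''|`). Precisely for `q₁, q₂` near `a`: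
`|pY q₁ - pY q₂| ≤ (1 + ε) √(qf (gC a) (q₁ - q₂))` because at `n3 a ≠ 0` the function `pY` is `C¹` with
`|d pY(a) v| ≤ √(qf (gC a) v)`, and at `n3 a = 0`,
`|pY q₁ - pY q₂| ≤ √((l₁ - l₂)² + (s₁ - s₂)²) ≤ ‖q₁ - q₂‖`.
On the patches of the blocks and of the middle point the function is `0`: for points of the
collars `Y ≤ 1` (`CollOK.near`, `FF ≤ 0` on `[0,1]`, `zz k/8 ≤ 1`), so `Sum.elim` of the parts is given by
`PreP.elim_glueMap` (applied three times).
-/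

open scoped ContDiff Topology
open Filter Real

namespace Pool.Agent.W_MP_654ec6

/-- `max 0 (Y - 1)` on the ambient part. -/
noncomputable def ambY : TauPt → ℝ := tauFun (fun _ Y => max 0 (Y - 1)) (fun _ _ => rfl)

noncomputable def spY0 (K : Core) (N : ℕ∞) (hN : 2 ≤ N) : (spP K N hN).Pt → ℝ :=
  Sum.elim (Sum.elim ambY (fun _ => 0)) (fun _ => 0)

/-- The height function. -/
noncomputable def spY (K : Core) (N : ℕ∞) (hN : 2 ≤ N) (p : (sp K N hN).Pt) : ℝ :=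
  spY0 K N hN p.1

/-- `pY` is `1`-Lipschitz in the coordinates `(l, s)`. -/
theorem height_pY_sub (N : ℕ∞) (j : ℕ) (u w : E4) :
    |pY N j u - pY N j w| ≤ √((u 0 - w 0) ^ 2 + (n3 u - n3 w) ^ 2) := by
  have ho := Coord_oj_pos N j
  have ho2 : oj N j ^ 2 = 1 + aa N j ^ 2 := Real.sq_sqrt (by positivity)
  have e : pY N j u - pY N j w = (aa N j * (u 0 - w 0) + (n3 u - n3 w)) / oj N j := by
    unfold pY
    field_simp
    ring
  refine Real.abs_le_sqrt ?_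
  rw [e, div_pow, ho2, div_le_iff₀ (by positivity)]
  nlinarith [sq_nonneg (aa N j * (n3 u - n3 w) - (u 0 - w 0))]

theorem height_n3_sub (u w : E4) :
    (n3 u - n3 w) ^ 2 ≤ (u 1 - w 1) ^ 2 + (u 2 - w 2) ^ 2 + (u 3 - w 3) ^ 2 := by
  have h1 := n3_sq u
  have h2 := n3_sq w
  have h3 := n3_nonneg u
  have h4 := n3_nonneg w
  have h5 : u 1 * w 1 + u 2 * w 2 + u 3 * w 3 ≤ n3 u * n3 w := by
    refine le_of_sq_le_sq ?_ (mul_nonneg h3 h4)
    rw [mul_pow, h1, h2]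
    exact MetC_cs (u 1) (u 2) (u 3) (w 1) (w 2) (w 3)
  nlinarith

theorem height_strict {a : E4} (h : n3 a ≠ 0) :
    ∃ L : E4 →L[ℝ] ℝ, HasStrictFDerivAt n3 L a ∧
      ∀ v : E4, L v = (a 1 * v 1 + a 2 * v 2 + a 3 * v 3) / n3 a := by
  have hp : ∀ i : Fin 4, HasStrictFDerivAt (fun u : E4 => u i)
      (EuclideanSpace.proj i : E4 →L[ℝ] ℝ) a := fun i =>
    (EuclideanSpace.proj i : E4 →L[ℝ] ℝ).hasStrictFDerivAt
  have h1 := (((hp 1).pow 2).add ((hp 2).pow 2)).add ((hp 3).pow 2)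
  have h2 := h1.sqrt (Coord_sum_ne h)
  refine ⟨_, h2, fun v => ?_⟩
  have e : √(a 1 ^ 2 + a 2 ^ 2 + a 3 ^ 2) = n3 a := rfl
  simp only [Pi.add_apply]
  rw [e]
  simp
  field_simp

theorem height_tri (x y r : ℝ) : √(x ^ 2 + (y + r) ^ 2) ≤ √(x ^ 2 + y ^ 2) + |r| := by
  have h1 := Real.sqrt_nonneg (x ^ 2 + y ^ 2)
  have h2 : √(x ^ 2 + y ^ 2) ^ 2 = x ^ 2 + y ^ 2 := Real.sq_sqrt (by positivity)
  have h3 : |y| ≤ √(x ^ 2 + y ^ 2) := Real.abs_le_sqrt (by nlinarith [sq_nonneg x])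
  refine Real.sqrt_le_iff.2 ⟨by positivity, ?_⟩
  have h4 : y * r ≤ |y| * |r| := by rw [← abs_mul]; exact le_abs_self _
  have h5 : |y| * |r| ≤ √(x ^ 2 + y ^ 2) * |r| := mul_le_mul_of_nonneg_right h3 (abs_nonneg r)
  nlinarith [sq_abs r]

/-- The infinitesimal Lipschitz condition of `(l, s)`. -/
theorem height_near {R : ℝ} {N : ℕ∞} {j : ℕ} {V : Set E4} (hg : GoodMet (gC R N j) V) {a : E4}
    (ha : a ∈ V) {ε : ℝ} (hε : 0 < ε) : ∀ᶠ q in 𝓝 (a, a),
      √((q.1 0 - q.2 0) ^ 2 + (n3 q.1 - n3 q.2) ^ 2) ≤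
        (1 + ε) * √(qf (gC R N j a) (q.1 - q.2)) := by
  by_cases h0 : n3 a = 0
  · refine Eventually.of_forall fun q => ?_
    have h1 : √((q.1 0 - q.2 0) ^ 2 + (n3 q.1 - n3 q.2) ^ 2) ≤
        √(qf (gC R N j a) (q.1 - q.2)) := by
      refine Real.sqrt_le_sqrt ?_
      rw [qf_gC_zero R N j h0]
      have := height_n3_sub q.1 q.2
      simp only [PiLp.sub_apply]
      linarith
    have h2 := Real.sqrt_nonneg (qf (gC R N j a) (q.1 - q.2))
    nlinarith
  · obtain ⟨L, hL, hLv⟩ := height_strict h0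
    obtain ⟨c, _, hc, _, hcb⟩ := qf_norm hg ha
    have hlo := (hasStrictFDerivAt_iff_isLittleO.1 hL).def (show 0 < ε * c by positivity)
    filter_upwards [hlo] with q hq
    have hq1 : |n3 q.1 - n3 q.2 - L (q.1 - q.2)| ≤ ε * c * ‖q.1 - q.2‖ := hq
    have h1 := height_tri (q.1 0 - q.2 0) (L (q.1 - q.2)) (n3 q.1 - n3 q.2 - L (q.1 - q.2))
    rw [show L (q.1 - q.2) + (n3 q.1 - n3 q.2 - L (q.1 - q.2)) = n3 q.1 - n3 q.2 by ring] at h1
    have h2 : √((q.1 0 - q.2 0) ^ 2 + (L (q.1 - q.2)) ^ 2) ≤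
        √(qf (gC R N j a) (q.1 - q.2)) := by
      refine Real.sqrt_le_sqrt ?_
      rw [qf_gC R N j h0, hLv]
      have h3 := MetC_cs' h0 (q.1 - q.2)
      have h4 : 0 ≤ (bb R N (pX N j a) (pY N j a) / n3 a) ^ 2 := sq_nonneg _
      have h5 := mul_nonneg h4 (sub_nonneg.2 h3)
      have h6 : (q.1 - q.2) 0 = q.1 0 - q.2 0 := rfl
      rw [h6]
      linarith
    have h3 := (hcb (q.1 - q.2)).1
    have h4 : ε * c * ‖q.1 - q.2‖ ≤ ε * √(qf (gC R N j a) (q.1 - q.2)) := by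
      rw [mul_assoc]
      exact mul_le_mul_of_nonneg_left h3 hε.le
    linarith

theorem height_psi (K : Core) (N : ℕ∞) (hN : 2 ≤ N) (i : (spP K N hN).ι) {a : E4}
    (ha : a ∈ (spP K N hN).V i) :
    spY K N hN ((sp K N hN).ψ i a) = spY0 K N hN ((spP K N hN).ψ i a) :=
  congrArg (spY0 K N hN) (PreP.Pre_cpsi_val (spP K N hN) (spBase K N hN) ha)

theorem height_psi_C (K : Core) (N : ℕ∞) (hN : 2 ≤ N) (j : ℕ) (a : E4) :
    spY0 K N hN ((spP K N hN).ψ (ixC K N hN j) a) = max 0 (pY N j a - 1) := rfl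

theorem height_FF (N : ℕ∞) (k : ℕ) : FF N (zz k) ≤ 0 := by
  have h1 := FF_mono N (zz_pos k).le (zz_le_one k)
  have h2 : FF N 1 = 0 := by
    unfold FF
    rw [intervalIntegral.integral_same]
  rw [h2] at h1
  exact h1

theorem height_collar (K : Core) (N : ℕ∞) (hN : 2 ≤ N) {k : ℕ} (hk : 1 ≤ k)
    (hkN : (k : ℕ∞) ≤ N) {u : E4} (hu : ‖u‖ ∈ collT (spRad K N k) (spB K N k)) :
    ambY (collE (spAmb K N hN) k (spB K N k) u) = 0 := by
  have h1 : (qX N k (spB K N k).Φ (spB K N k).s (spB K N k).tstar u - zz k) ^ 2 +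
      (qY N k (spB K N k).Φ (spB K N k).s (spB K N k).tstar u - FF N (zz k)) ^ 2 ≤
        (zz k / 8) ^ 2 := (spColl K N hN hk hkN).near hu
  have h2 : ambY (collE (spAmb K N hN) k (spB K N k) u) =
    max 0 (qY N k (spB K N k).Φ (spB K N k).s (spB K N k).tstar u - 1) := rfl
  rw [h2]
  refine max_eq_left ?_
  have h3 : (qY N k (spB K N k).Φ (spB K N k).s (spB K N k).tstar u - FF N (zz k)) ^ 2 ≤
      (zz k / 8) ^ 2 := by
    refine le_trans ?_ h1
    have := sq_nonneg (qX N k (spB K N k).Φ (spB K N k).s (spB K N k).tstar u - zz k)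
    linarith
  have h4 := (abs_le.1 (abs_le_of_sq_le_sq h3 (by have := zz_pos k; positivity))).2
  have h5 := height_FF N k
  have h6 := zz_le_one k
  linarith

theorem height_S (K : Core) (N : ℕ∞) (hN : 2 ≤ N) (i : (spFam K N hN).S.ι) {a : E4}
    (ha : a ∈ (spFam K N hN).S.V i) :
    Sum.elim ambY (fun _ => 0) (PreP.glueMap (spFam K N hN).glueData
      ((spFam K N hN).S.ψ i a)) = 0 := by
  refine PreP.elim_glueMap (spFam K N hN).glueData (fP := ambY) (fQ := fun _ => (0 : ℝ)) ?_ ha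
  rintro ⟨k, d⟩ hd u hu h
  obtain rfl : d = (spFam K N hN).d k := hd
  exact height_collar K N hN hu.1.1 hu.1.2 ((spFam K N hN).mem_coll hu.1.1 hu.1.2 hu.2 h)

theorem height_X (K : Core) (N : ℕ∞) (hN : 2 ≤ N) (i : EHI) {a : E4}
    (ha : a ∈ ((ehP (midEHD K N)).restr (N ≠ ⊤)).V i) :
    Sum.elim (Sum.elim ambY (fun _ => 0)) (fun _ => 0) (PreP.glueMap (midGlue K N hN)
      (((ehP (midEHD K N)).restr (N ≠ ⊤)).ψ i a)) = 0 := by
  refine PreP.elim_glueMap (midGlue K N hN) (fP := Sum.elim ambY (fun _ => 0))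
    (fQ := fun _ => (0 : ℝ)) ?_ ha
  rintro d hd u hu h
  obtain rfl : d = EHI.F := hd
  change max 0 (pY N N.toNat u - 1) = 0
  refine max_eq_left ?_
  have hNt : N ≠ ⊤ := hu.1
  have hr : ‖u‖ < 2 * spRad K N 0 := hu.2.2
  have hmid : 2 * spRad K N 0 ≤ K.R * cc N N.toNat * zz N.toNat / 32 := (spRad_ok K N).mid hNt
  have hR := K.R_le
  have hR0 := K.R_pos
  have hc : cc N N.toNat ≤ 1 / 10 := cc_le N N.toNat
  have hz := zz_le_one N.toNat
  have hz0 := zz_pos N.toNat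
  have hc0 : 0 ≤ cc N N.toNat := by
    unfold cc
    split_ifs <;> positivity
  have h1 : K.R * cc N N.toNat * zz N.toNat ≤ 1 := by
    have h2 : K.R * cc N N.toNat ≤ 1 := by nlinarith
    have h3 : 0 ≤ K.R * cc N N.toNat := by positivity
    nlinarith
  have hlt : ¬ (N.toNat : ℕ∞) < N := by
    rw [ENat.natCast_toNat hNt]
    exact lt_irrefl _
  have ha0 : aa N N.toNat = 0 := aa_of_not_lt hlt
  have hoj : oj N N.toNat = 1 := by
    unfold oj
    rw [ha0]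
    simp
  have hOY : OY N N.toNat ≤ 0 := height_FF N _
  have hn3 : n3 u ≤ ‖u‖ := by
    rw [EuclideanSpace.norm_eq]
    unfold n3
    refine Real.sqrt_le_sqrt ?_
    rw [Fin.sum_univ_four]
    simp only [Real.norm_eq_abs, sq_abs]
    nlinarith [sq_nonneg (u 0)]
  unfold pY
  rw [ha0, hoj]
  linarith

theorem spY_C (K : Core) (N : ℕ∞) (hN : 2 ≤ N) (j : ℕ) {a : E4}
    (ha : a ∈ (spP K N hN).V (ixC K N hN j)) :
    spY K N hN ((sp K N hN).ψ (ixC K N hN j) a) = max 0 (pY N j a - 1) :=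
  (height_psi K N hN _ ha).trans (height_psi_C K N hN j a)

theorem spY_zero (K : Core) (N : ℕ∞) (hN : 2 ≤ N) (i : (spP K N hN).ι)
    (hi : ∀ j, i ≠ ixC K N hN j) {a : E4} (ha : a ∈ (spP K N hN).V i) :
    spY K N hN ((sp K N hN).ψ i a) = 0 := by
  rw [height_psi K N hN i ha]
  rcases i with (j | i) | i
  · exact absurd rfl (hi j)
  · exact height_S K N hN i ha
  · exact height_X K N hN i ha

theorem spY_lip (K : Core) (N : ℕ∞) (hN : 2 ≤ N) : (sp K N hN).Lip 1 (spY K N hN) := by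
  intro i a ha ε hε
  have hev : ∀ᶠ q in 𝓝 (a, a), q.1 ∈ (spP K N hN).V i ∧ q.2 ∈ (spP K N hN).V i :=
    Patchwork.lipBasic_prod (((spP K N hN).isOpen_V i).mem_nhds ha)
  by_cases hi : ∃ j, i = ixC K N hN j
  · obtain ⟨j, rfl⟩ := hi
    have hg : GoodMet (gC K.R N j) ((spP K N hN).V (ixC K N hN j)) :=
      (spP K N hN).good (ixC K N hN j)
    filter_upwards [hev, height_near hg ha hε] with q hq hq2
    rw [spY_C K N hN j hq.1, spY_C K N hN j hq.2]
    have h1 := abs_max_sub_max_le_max 0 (pY N j q.1 - 1) 0 (pY N j q.2 - 1)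
    rw [sub_self, abs_zero, max_eq_right
      (abs_nonneg (pY N j q.1 - 1 - (pY N j q.2 - 1)))] at h1
    have h2 := height_pY_sub N j q.1 q.2
    rw [show pY N j q.1 - 1 - (pY N j q.2 - 1) = pY N j q.1 - pY N j q.2 by ring] at h1
    exact h1.trans (h2.trans hq2)
  · push Not at hi
    filter_upwards [hev] with q hq
    rw [spY_zero K N hN i hi hq.1, spY_zero K N hN i hi hq.2, sub_self, abs_zero]
    exact mul_nonneg (by linarith) (Real.sqrt_nonneg _)

end Pool.Agent.W_MP_654ec6
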