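import Pool.Agent.W_MP_654ec6.B.Bridge
import Pool.Agent.W_MP_654ec6.B.Complete
import Pool.Agent.W_MP_654ec6.F.CovAmb
import Pool.Agent.W_MP_654ec6.F.CovBlk
import Pool.Agent.W_MP_654ec6.F.Height

/-!
# Task F12: `Sp(n)` is complete for finite `n`

Apply `Patchwork.complete_of_compact` with `ρ = spY` (`lip_le` gives `|spY p - spY q| ≤ dist p q`) and the
following finite list of compact sets, for a given bound `R` of `spY`.
(C_j), `j ≤ n`: the set of the `u` with `inEdge n j |pX u|`, (`pX u ≥ 0` if `j < n`),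
`GG (pX u) ≤ pY u ≤ |R| + 2`, and outside the OPEN disks of radius `5/4 ρ k` around the vertices and the
middle point. It is closed and bounded (`(pX, pY)` is bounded because `GG` grows linearly, and
`(u 0, n3 u)` is obtained from `(pX, pY)` by `lc, sc`), and contained in `VA`: if `GG < pY` clear;
if `GG = pY` then `n3 u = sc = 0` and `|pX u|` is in the closed edge `j`, not a vertex (outside the
disks), so in the open edge.
(D_k), `1 ≤ k ≤ n`: `3 t0/4 ≤ ‖u‖`, `s (‖u‖ - tstar) ≤ 3 ρ/2`. (E_k): `|w|² ≤ sin² (7 t0/8)`,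
`|z₂|² ≤ 1 - sin² (9 t0/10)`, `‖u‖² ≤ 1 - (sin² (9 t0/10) - sin² (7 t0/8))`. (F_k):
`(a + A0/2)/2 ≤ ‖u‖ ≤ sin (9 t0/10)`. (EH of the block): F: nothing (same as F_k);
B1, B2: `|v| ≤ 1` and `bA2 a u ≤ ((a + A0/2)/2)²`. (EH of the middle point): F:
`(a + ρ 0/2)/2 ≤ ‖u‖ ≤ 3/2 ρ 0`, B1, B2: `|v| ≤ 1`, `bA2 a u ≤ ((a + ρ 0/2)/2)²`.
Covering. A point of the ambient part with label `(j, u)`: replace it by a label with `pX ≥ 0`
(`exists_pX_nonneg` in `F/Collar`), choose `i` with `inEdge n i (pX)` (`exists_inEdge`) and the label in the patch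
`i` (`thC`, or `mk4 (lc ..) (sc ..) ξ`) - if it is inside one of the disks of radius `5/4 ρ k` it is in
the collar of the block `k` (`CollOK.surj`), i.e. in (D_k), or of the middle point (F). A point of a
block: let `t` be defined by `|w|` (`wabs`): if `t ≥ 7 t0/8` it is in D (every orbit with `w ≠ 0` is;
`t = ‖u‖`) with `‖u‖ ≥ 7 t0/8`, and either in (D_k) or `s (‖u‖ - tstar) > 3/2 ρ`, then it is an ambient
point in the collar, at distance `> 3/2 ρ k` from the vertex, treated before. If `t < 7 t0/8`: let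
`A² = aSq`; if `A > sin (9 t0/10)` then `|Z₁|² = A² - |w|² ≥ sin² (9 t0/10) - sin² (7 t0/8) > 0` and the point is
in (E_k); if `A ≤ sin (9 t0/10)` it is in F, and in (F_k) if `A ≥ (a + A0/2)/2`, otherwise in the EH
patch F with `A < (a + A0/2)/2`. A point of an EH patch with `A < (a + b)/2` (`b = A0/2`) is in (B1) or
(B2) according to `|z₁| ≤ |z₂|` or not (`thB`, `thB2`; for a point of B1 with `|v| > 1` use `thBB`).
(Every point with `A ≥ (a + b)/2` of the EH space is in its patch F = the patch F of the block.)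
-/

open scoped ContDiff Topology
open Filter Real

namespace Pool.Agent.W_MP_654ec6

theorem Complete_cov (K : Core) (n : ℕ) (hn : 2 ≤ (n : ℕ∞)) (R : ℝ) :
    (spP K (n : ℕ∞) hn).Cov {p | (spP K (n : ℕ∞) hn).IsPt p ∧ spY0 K (n : ℕ∞) hn p ≤ R} := by
  have hnt : (n : ℕ∞) ≠ ⊤ := ENat.natCast_ne_top n
  have htn : (n : ℕ∞).toNat = n := ENat.toNat_natCast n
  have hρ0 := spRad_pos K (n : ℕ∞) 0
  -- the three compact pieces
  have c0 := Cov_amb (spAmb K (n : ℕ∞) hn) (n := n) rfl (R + 1)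
  have c1 : (spFam K (n : ℕ∞) hn).S.Cov (⋃ k ∈ Finset.Icc 1 n,
      (fun q => (⟨k, q⟩ : Σ k, ((spFam K (n : ℕ∞) hn).Q k).Pt)) ''
        {q | ((spFam K (n : ℕ∞) hn).Q k).IsPt q ∧ (spFam K (n : ℕ∞) hn).r k q ≤
          spRad K (n : ℕ∞) k / 4}) := by
    refine PreP.Cov_biUnion _ fun k hk => PreP.Cov_sigma k (PreP.Cov_restr ?_ ?_)
    · exact Cov_blk (spBlk K (n : ℕ∞) k) (spA_pos K hnt k) _ hnt
    · rw [Finset.mem_Icc] at hk
      refine ⟨hk.1, ?_⟩
      change (k : ℕ∞) ≤ (n : ℕ∞)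
      exact_mod_cast hk.2
  have c2 : ((ehP (midEHD K (n : ℕ∞))).restr ((n : ℕ∞) ≠ ⊤)).Cov
      {q | (ehP (midEHD K (n : ℕ∞))).IsPt q ∧ ehR q ≤ 5 / 4 * spRad K (n : ℕ∞) 0} := by
    refine PreP.Cov_restr (Cov_eh (midEHD K (n : ℕ∞)) (spX_pos K (n : ℕ∞)) ?_) hnt
    change 5 / 4 * spRad K (n : ℕ∞) 0 < 2 * spRad K (n : ℕ∞) 0
    linarith
  have c3 := PreP.Cov_glue (spFam K (n : ℕ∞) hn).glueData c0 c1 (Set.Subset.refl _)
  refine PreP.Cov_glue (midGlue K (n : ℕ∞) hn) c3 c2 ?_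
  have hkn : ∀ k : ℕ, (k : ℕ∞) ≤ (spAmb K (n : ℕ∞) hn).N → k ≤ n := by
    intro k hk
    have hk' : (k : ℕ∞) ≤ (n : ℕ∞) := hk
    exact_mod_cast hk'
  rintro p ⟨hp, hR⟩
  rcases PreP.isPt_glue (midGlue K (n : ℕ∞) hn) hp with ⟨p1, hp1, rfl⟩ | ⟨q, hq, h0, rfl⟩
  · rcases PreP.isPt_glue (spFam K (n : ℕ∞) hn).glueData hp1 with
      ⟨p0, ⟨j, u, hu, rfl⟩, rfl⟩ | ⟨q, hq, h0, rfl⟩
    · -- a point of the ambient space
      have hY0 : max 0 (pY (n : ℕ∞) j u - 1) ≤ R := hR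
      change ℕ at j
      have hu : u ∈ VA (n : ℕ∞) (spAmb K (n : ℕ∞) hn).ρ j := hu
      have hY : max 0 (pY (n : ℕ∞) j u - 1) ≤ R := hR
      have hY1 : pY (n : ℕ∞) j u ≤ R + 1 := by linarith [(le_max_right _ _).trans hY]
      by_cases hm : pX (n : ℕ∞) j u ^ 2 + (pY (n : ℕ∞) j u - midY (n : ℕ∞)) ^ 2 <
          (5 / 4 * spRad K (n : ℕ∞) 0) ^ 2
      · -- near the middle point
        right
        obtain ⟨v, v1, v2, v3⟩ := CovAmb_mid (spAmb K (n : ℕ∞) hn) (n := n) rfl hu hm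
        have v1 : spRad K (n : ℕ∞) 0 < ‖v‖ := v1
        have v2 : ‖v‖ < 5 / 4 * spRad K (n : ℕ∞) 0 := v2
        have hv : v ∈ ehV (midEHD K (n : ℕ∞)) EHI.F := by
          refine ⟨?_, ?_⟩
          · change spX K (n : ℕ∞) < ‖v‖
            linarith [spX_lt K (n : ℕ∞)]
          · change ‖v‖ < 2 * spRad K (n : ℕ∞) 0
            linarith
        refine ⟨(ehP (midEHD K (n : ℕ∞))).ψ EHI.F v, ⟨⟨EHI.F, v, hv, rfl⟩, ?_⟩, ?_⟩
        · have h7 : ehR ((ehP (midEHD K (n : ℕ∞))).ψ EHI.F v) = ‖v‖ := ehR_F _ v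
          rw [h7]
          exact v2.le
        · have h7 : 0 < (midGlue K (n : ℕ∞) hn).rQ
              (((ehP (midEHD K (n : ℕ∞))).restr ((n : ℕ∞) ≠ ⊤)).ψ EHI.F v) := by
            change 0 < ehR (WPt.mk ehm (ehs (midEHD K (n : ℕ∞)).a EHI.F v)) - spRad K (n : ℕ∞) 0
            rw [ehR_F]
            linarith
          have h8 := PreP.glueMap_of_pos (midGlue K (n : ℕ∞) hn) (d := EHI.F) rfl (u := v)
            ⟨hnt, hv⟩ h7
          have h9 : (midGlue K (n : ℕ∞) hn).E EHI.F v =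
              Sum.inl (TauPt.mk (repA (spAmb K (n : ℕ∞) hn).R (n : ℕ∞) (n : ℕ∞).toNat v)) := rfl
          rw [h9, htn] at h8
          refine h8.trans ?_
          exact congrArg (fun x => Sum.inl (Sum.inl x)) v3
      · by_cases hk : ∃ k : ℕ, 1 ≤ k ∧ (k : ℕ∞) ≤ (n : ℕ∞) ∧
            (|pX (n : ℕ∞) j u| - zz k) ^ 2 + (pY (n : ℕ∞) j u - FF (n : ℕ∞) (zz k)) ^ 2 <
              (5 / 4 * spRad K (n : ℕ∞) k) ^ 2
        · -- near a vertex
          left
          obtain ⟨k, hk1, hkN, hk2⟩ := hk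
          have hρk := spRad_pos K (n : ℕ∞) k
          have hC := (spFam K (n : ℕ∞) hn).coll k hk1 hkN
          have hr1 : rAmb (spAmb K (n : ℕ∞) hn) k (TauPt.mk (repA (spAmb K (n : ℕ∞) hn).R
              (spAmb K (n : ℕ∞) hn).N j u)) < 1 / 4 * spRad K (n : ℕ∞) k := by
            classical
            rw [rAmb_repA, if_pos ⟨hk1, hkN⟩]
            unfold rVert
            have h1 : √((|pX (n : ℕ∞) j u| - zz k) ^ 2 +
                (pY (n : ℕ∞) j u - FF (n : ℕ∞) (zz k)) ^ 2) < 5 / 4 * spRad K (n : ℕ∞) k := by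
              rw [Real.sqrt_lt' (by linarith)]
              exact hk2
            change √((|pX (n : ℕ∞) j u| - zz k) ^ 2 +
                (pY (n : ℕ∞) j u - FF (n : ℕ∞) (zz k)) ^ 2) - spRad K (n : ℕ∞) k < _
            linarith
          have hr2 : rAmb (spAmb K (n : ℕ∞) hn) k (TauPt.mk (repA (spAmb K (n : ℕ∞) hn).R
              (spAmb K (n : ℕ∞) hn).N j u)) < (spAmb K (n : ℕ∞) hn).ρ k := by
            change _ < spRad K (n : ℕ∞) k
            linarith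
          obtain ⟨v, v1, v2⟩ := hC.surj hu hr2
          have v3 := hC.rAmb_collE v1
          rw [v2] at v3
          have v4 : spRad K (n : ℕ∞) k < (spB K (n : ℕ∞) k).s * (‖v‖ - (spB K (n : ℕ∞) k).tstar) :=
            v1.1
          have v5 : (spB K (n : ℕ∞) k).s * (‖v‖ - (spB K (n : ℕ∞) k).tstar) <
            2 * spRad K (n : ℕ∞) k := v1.2
          have v6 : v ∈ VD (spBlk K (n : ℕ∞) k) := by
            refine ⟨?_, v5⟩
            have h1 := hC.lt_T2 v4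
            have h2 := hC.blk.blk.T2_gt
            have h3 := K.isCore.T0_gt
            have h4 := K.isCore.t0_lt
            change K.t0 / 2 < ‖v‖
            linarith
          have v7 := (bR_pos_iff (spBlk K (n : ℕ∞) k) ((n : ℕ∞) ≠ ⊤) v6).2 v4
          have v8 := bR_eq (spBlk K (n : ℕ∞) k) ((n : ℕ∞) ≠ ⊤) v6 v7
          have v9 : rAmb (spAmb K (n : ℕ∞) hn) k (TauPt.mk (repA (spAmb K (n : ℕ∞) hn).R
              (spAmb K (n : ℕ∞) hn).N j u)) = (spB K (n : ℕ∞) k).s *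
                (‖v‖ - (spB K (n : ℕ∞) k).tstar) - spRad K (n : ℕ∞) k := v3
          have v10 : bR (spBlk K (n : ℕ∞) k) ((n : ℕ∞) ≠ ⊤) ((bP (spBlk K (n : ℕ∞) k)
              ((n : ℕ∞) ≠ ⊤)).ψ (Sum.inl (0 : Fin 3)) v) ≤ spRad K (n : ℕ∞) k / 4 := by
            rw [v8]
            change (spB K (n : ℕ∞) k).s * (‖v‖ - (spB K (n : ℕ∞) k).tstar) -
              spRad K (n : ℕ∞) k ≤ _
            linarith
          refine ⟨_, Or.inr ⟨⟨k, (bP (spBlk K (n : ℕ∞) k) ((n : ℕ∞) ≠ ⊤)).ψ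
            (Sum.inl (0 : Fin 3)) v⟩, Set.mem_iUnion₂.2 ⟨k, ?_, _, ⟨⟨Sum.inl (0 : Fin 3), v, v6,
              rfl⟩, ?_⟩, rfl⟩, ?_⟩, rfl⟩
          · rw [Finset.mem_Icc]
            exact ⟨hk1, by exact_mod_cast hkN⟩
          · exact v10
          · have h8 := PreP.glueMap_of_pos (spFam K (n : ℕ∞) hn).glueData
              (d := ⟨k, Sum.inl (0 : Fin 3)⟩) rfl (u := v) ⟨⟨hk1, hkN⟩, v6⟩ v7
            refine h8.trans ?_
            exact congrArg Sum.inl v2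
        · left
          refine ⟨_, Or.inl ⟨_, ⟨j, u, hu, rfl, hY1, ?_, not_lt.1 hm⟩, rfl⟩, rfl⟩
          intro k hk1 hkN
          by_contra h1
          exact hk ⟨k, hk1, hkN, not_le.1 h1⟩
    · -- a point of a block
      left
      obtain ⟨k, q⟩ := q
      have h1 := PreP.isPt_sigma hq
      obtain ⟨h2, h3⟩ := PreP.isPt_restr h1
      have hρk := spRad_pos K (n : ℕ∞) k
      refine ⟨_, Or.inr ⟨⟨k, q⟩, Set.mem_iUnion₂.2 ⟨k, ?_, q, ⟨h3, ?_⟩, rfl⟩, rfl⟩, rfl⟩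
      · rw [Finset.mem_Icc]
        exact ⟨h2.1, hkn k h2.2⟩
      · have h4 : (spFam K (n : ℕ∞) hn).r k q ≤ 0 := h0
        linarith
  · -- a point near the middle bolt
    right
    refine ⟨q, ⟨(PreP.isPt_restr hq).2, ?_⟩, rfl⟩
    have h1 : ehR q - spRad K (n : ℕ∞) 0 ≤ 0 := h0
    linarith

theorem sp_complete (K : Core) (n : ℕ) (hn : 2 ≤ (n : ℕ∞)) :
    CompleteSpace (sp K (n : ℕ∞) hn).Pt := by
  refine Patchwork.complete_of_compact (sp K (n : ℕ∞) hn) (spY K (n : ℕ∞) hn) 1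
    (fun p q => Patchwork.lip_le _ zero_le_one (spY_lip K (n : ℕ∞) hn) p q) fun R => ?_
  obtain ⟨s, C, h1, h2⟩ := PreP.Cov_toPatchwork (spP K (n : ℕ∞) hn) (spBase K (n : ℕ∞) hn)
    (spP_conn K (n : ℕ∞) hn) (Complete_cov K n hn R)
  exact ⟨s, C, h1, fun p hp => h2 p ⟨p.2, hp⟩⟩

theorem sp_ricci (K : Core) (n : ℕ) (hn : 2 ≤ (n : ℕ∞)) :
    IsCompleteRicciGE (sp K (n : ℕ∞) hn).Pt (-3) :=
  (sp K (n : ℕ∞) hn).isCompleteRicciGE (sp_complete K n hn) (sp_ric K n hn)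

end Pool.Agent.W_MP_654ec6
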