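import Pool.Agent.W_MP_654ec6.F.Cov
import Pool.Agent.W_MP_654ec6.F.EH

/-!
# Part F: the Eguchi-Hanson space is compact up to its outer boundary
-/

open scoped ContDiff Topology ComplexConjugate
open Filter Real

namespace Pool.Agent.W_MP_654ec6

theorem CovEH_compact {a m : ℝ} : IsCompact {u : E4 | ‖cA u‖ ≤ 1 ∧ bA2 a u ≤ m ^ 2} := by
  have h1 : IsClosed {u : E4 | ‖cA u‖ ≤ 1 ∧ bA2 a u ≤ m ^ 2} :=
    (isClosed_le (continuous_norm.comp cA.continuous) continuous_const).inter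
      (isClosed_le (continuous_bA2 a) continuous_const)
  refine IsCompact.of_isClosed_subset (isCompact_closedBall (0 : E4) (1 + m ^ 2)) h1 ?_
  rintro u ⟨h2, h3⟩
  rw [mem_closedBall_zero_iff]
  have h4 := norm_sq_cAB u
  rw [bA2_eq] at h3
  have h5 : ‖cB u‖ ≤ m ^ 2 := by
    have e : ‖cB u‖ = √(‖cB u‖ ^ 2) := (Real.sqrt_sq (norm_nonneg _)).symm
    rw [e]
    refine (Real.sqrt_le_sqrt ?_).trans h3
    have : 0 ≤ a ^ 4 := by positivity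
    linarith
  have h6 : 0 ≤ ‖cA u‖ := norm_nonneg _
  have h7 : 0 ≤ ‖cB u‖ := norm_nonneg _
  refine abs_le_of_sq_le_sq' ?_ (by positivity) |>.2
  rw [h4]
  nlinarith

theorem Cov_eh (E : EHDat) (ha : 0 < E.a) {r1 : ℝ} (hr : r1 < E.r) :
    (ehP E).Cov {q | (ehP E).IsPt q ∧ ehR q ≤ r1} := by
  have hab := E.a_lt
  have hbr := E.b_le
  obtain ⟨m, hm⟩ : ∃ m : ℝ, m = (E.a + E.b) / 2 := ⟨_, rfl⟩
  have hm1 : E.a < m := by rw [hm]; linarith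
  have hm2 : m < E.b := by rw [hm]; linarith
  have hm0 : 0 < m := ha.trans hm1
  have hmb : m ^ 2 < E.b ^ 2 := pow_lt_pow_left₀ hm2 hm0.le (by norm_num)
  have hCF : IsCompact {u : E4 | m ≤ ‖u‖ ∧ ‖u‖ ≤ r1} := by
    refine IsCompact.of_isClosed_subset (isCompact_closedBall (0 : E4) r1)
      ((isClosed_le continuous_const continuous_norm).inter
        (isClosed_le continuous_norm continuous_const)) ?_
    rintro u ⟨-, h⟩
    rw [mem_closedBall_zero_iff]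
    exact h
  have hVF : {u : E4 | m ≤ ‖u‖ ∧ ‖u‖ ≤ r1} ⊆ (ehP E).V EHI.F := fun u hu =>
    ⟨hm1.trans_le hu.1, hu.2.trans_lt hr⟩
  have hVB : {u : E4 | ‖cA u‖ ≤ 1 ∧ bA2 E.a u ≤ m ^ 2} ⊆ (ehP E).V EHI.B1 := fun u hu =>
    ⟨ha, hu.2.trans_lt hmb⟩
  have hVB2 : {u : E4 | ‖cA u‖ ≤ 1 ∧ bA2 E.a u ≤ m ^ 2} ⊆ (ehP E).V EHI.B2 := fun u hu =>
    ⟨ha, hu.2.trans_lt hmb⟩
  refine PreP.Cov_mono (PreP.Cov_union (PreP.Cov_image hCF hVF)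
    (PreP.Cov_union (PreP.Cov_image CovEH_compact hVB) (PreP.Cov_image CovEH_compact hVB2))) ?_
  have hn : ∀ u : E4, 1 < ‖cA u‖ → cA u ≠ 0 ∧ ‖(1 : ℂ) / cA u‖ ≤ 1 := by
    intro u hu
    refine ⟨norm_pos_iff.1 (one_pos.trans hu), ?_⟩
    rw [norm_div, norm_one, div_le_one (one_pos.trans hu)]
    exact hu.le
  -- points of the charts of the bolt
  have L1 : ∀ u : E4, bA2 E.a u ≤ m ^ 2 → WPt.mk ehm (ehs E.a EHI.B1 u) ∈
      ((ehP E).ψ EHI.B1 '' {u : E4 | ‖cA u‖ ≤ 1 ∧ bA2 E.a u ≤ m ^ 2}) ∪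
      ((ehP E).ψ EHI.B2 '' {u : E4 | ‖cA u‖ ≤ 1 ∧ bA2 E.a u ≤ m ^ 2}) := by
    intro u hu
    rcases le_or_gt ‖cA u‖ 1 with h | h
    · exact Or.inl ⟨u, ⟨h, hu⟩, rfl⟩
    · obtain ⟨h1, h2⟩ := hn u h
      obtain ⟨e1, -, e3, -⟩ := eh_bQ_thBB ha h1
      refine Or.inr ⟨thBB u, ⟨?_, ?_⟩, eh_BB2' ha h1⟩
      · rw [e3]
        exact h2
      · rw [e1]
        exact hu
  have L2 : ∀ u : E4, bA2 E.a u ≤ m ^ 2 → WPt.mk ehm (ehs E.a EHI.B2 u) ∈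
      ((ehP E).ψ EHI.B1 '' {u : E4 | ‖cA u‖ ≤ 1 ∧ bA2 E.a u ≤ m ^ 2}) ∪
      ((ehP E).ψ EHI.B2 '' {u : E4 | ‖cA u‖ ≤ 1 ∧ bA2 E.a u ≤ m ^ 2}) := by
    intro u hu
    rcases le_or_gt ‖cA u‖ 1 with h | h
    · exact Or.inr ⟨u, ⟨h, hu⟩, rfl⟩
    · obtain ⟨h1, h2⟩ := hn u h
      obtain ⟨e1, -, e3, -⟩ := eh_bQ_thBB ha h1
      refine Or.inl ⟨thBB u, ⟨?_, ?_⟩, ?_⟩
      · rw [e3]
        exact h2
      · rw [e1]
        exact hu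
      · exact (eh_swap (p := ehs E.a EHI.B1 (thBB u)) (q := ehs E.a EHI.B2 u)).1
          (eh_BB2' ha h1)
  have L3 : ∀ u ∈ ehV E EHI.F, ‖u‖ ≤ r1 → WPt.mk ehm (ehs E.a EHI.F u) ∈
      ((ehP E).ψ EHI.F '' {u : E4 | m ≤ ‖u‖ ∧ ‖u‖ ≤ r1}) ∪
      (((ehP E).ψ EHI.B1 '' {u : E4 | ‖cA u‖ ≤ 1 ∧ bA2 E.a u ≤ m ^ 2}) ∪
      ((ehP E).ψ EHI.B2 '' {u : E4 | ‖cA u‖ ≤ 1 ∧ bA2 E.a u ≤ m ^ 2})) := by
    intro u hu h
    rcases le_or_gt m ‖u‖ with h1 | h1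
    · exact Or.inl ⟨u, ⟨h1, h⟩, rfl⟩
    · right
      have h2 : ‖u‖ ^ 2 ≤ m ^ 2 := pow_le_pow_left₀ (norm_nonneg u) h1.le 2
      by_cases h3 : cB u = 0
      · have h4 : cA u ≠ 0 := by
          intro h4
          have h5 := norm_sq_cAB u
          rw [h3, h4, norm_zero] at h5
          have h6 : 0 < ‖u‖ := ha.trans hu.1
          nlinarith
        rw [← eh_FB2' ha hu.1 h4]
        apply L2
        obtain ⟨e1, -⟩ := eh_bQ_thB (u := swapE u) ha (by rw [norm_swapE]; exact hu.1)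
          (by rw [cB_swapE]; exact h4)
        rw [norm_swapE] at e1
        exact e1.le.trans h2
      · rw [← eh_FB' ha hu.1 h3]
        apply L1
        rw [(eh_bQ_thB ha hu.1 h3).1]
        exact h2
  rintro q ⟨⟨i, u, hu, rfl⟩, hq⟩
  have hu : u ∈ ehV E i := hu
  have hq : ehR (WPt.mk ehm (ehs E.a i u)) ≤ r1 := hq
  by_cases h0 : E.a < ehR (WPt.mk ehm (ehs E.a i u))
  · obtain ⟨u', hu', e⟩ := eh_exists_F E hu h0
    have e' : (ehP E).ψ i u = WPt.mk ehm (ehs E.a EHI.F u') := e.symm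
    rw [e']
    refine L3 u' hu' ?_
    rw [← ehR_F E.a u', e]
    exact hq
  · have h1 := not_lt.1 h0
    right
    have h2 : ∀ v : E4, √(bA2 E.a v) ≤ E.a → bA2 E.a v ≤ m ^ 2 := by
      intro v hv
      have h3 := (Real.sqrt_le_left ha.le).1 hv
      have h4 : E.a ^ 2 ≤ m ^ 2 := pow_le_pow_left₀ ha.le hm1.le 2
      linarith
    cases i
    · rw [ehR_F] at h1
      exact absurd hu.1 (not_lt.2 h1)
    · rw [ehR_B1 ha] at h1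
      exact L1 u (h2 u h1)
    · rw [ehR_B2 ha] at h1
      exact L2 u (h2 u h1)

end Pool.Agent.W_MP_654ec6
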