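import Pool.Agent.W_MP_654ec6.B.LipIff
import Pool.Agent.W_MP_654ec6.F.Sp2

/-!
# Task F13: the diameter of the blocks

`UB K N k`: all points of the block `k` (with its bolt and its collar). Distances are bounded by the
lengths of curves in patches (`dist_path`, `dist_segment` of `B/LipIff`; metrics of the block are
scaled by `s²`; `s T2 ≤ ρ` (`size2`), `s (T2 - tstar) ≤ ρ/2`, `t0 < T0 < T2`).
D: a radial segment from `u` to `u'' = (t/‖u‖) u` has length `s |t - ‖u‖|` (`qf (gD ..) (radial unit) = 1`); all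
`‖u‖` are `≤ tstar + 2 ρ/s`, so this is `≤ 3 ρ` (`s tstar ≤ s T2 ≤ ρ`). On the sphere of radius `t` with
`s (t - tstar) = ρ` (there `l(t) = Rp (t - tstar)`, `m = 1`) a curve `u(τ) = t z(τ)` has squared speed
`s² l² (|z'|² + nBeta z₀'²) ≤ s² l² |z'|² max(1, e^{2 η}) ≤ s² l² |z'|²/Rp² = ρ² |z'|²`
(`z₀'² ≤ (1 - z₀²) |z'|²`, `nBeta_mul`, `η ≤ log (1/Rp)`), so two points of this sphere have distance
`≤ π ρ` (great circles). So D has diameter `≤ 3 ρ + 3 ρ + π ρ ≤ 10 ρ`.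
E: from `u = (z₂', w)` move along `t ↦ (cos t z₂, sin t ŵ)`, `t` from `arcsin |w|` to `3 t0/4`, `z₂ = z₂'/√(1 - |w|²)`,
`ŵ = w/|w|` (or `1`): unit speed for `gE`, length `≤ s t0 ≤ ρ`, ends in D.
F: radially from `u` to `‖u‖ = sin (9 t0/10)`: speed `1/√U`, `U = K.U a ≥ (3/4)(1 - a/A)` hence length
`≤ s ∫_a^{sin t0} 2 √(A/(A - a)) dA ≤ 4 s sin t0 ≤ 4 s t0 ≤ 4 ρ`, ends in E or D. (If `a = 0` no root is needed.)
Bolt charts: from `(v, ζ)` radially in `ζ` to the annulus: with `ζ = y ŷ`, `A⁴ = a⁴ + y²` the squared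
speed is `dy²/(4 A²) = dA²/(1 - a⁴/A⁴)`, the same estimate.
The constant is generous.
-/

open scoped ContDiff Topology
open Filter Real

namespace Pool.Agent.W_MP_654ec6

/-- The points of the block `k`. -/
def UB (K : Core) (N : ℕ∞) (hN : 2 ≤ N) (k : ℕ) : Set (sp K N hN).Pt :=
  {p | (∃ j, ∃ a ∈ (sp K N hN).V (ixB K N hN k j), (sp K N hN).ψ (ixB K N hN k j) a = p) ∨
    ∃ j, ∃ a ∈ (sp K N hN).V (ixE K N hN k j), (sp K N hN).ψ (ixE K N hN k j) a = p}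


/-! ### Radial vectors -/

theorem Diam_nsq_smul (r : ℝ) (u : E4) : nsq (r • u) = r ^ 2 * ‖u‖ ^ 2 := by
  rw [← nsq_eq_norm]
  unfold nsq
  simp only [PiLp.smul_apply, smul_eq_mul]
  ring

theorem Diam_dotu_smul (r : ℝ) (u : E4) : dotu u (r • u) = r * ‖u‖ ^ 2 := by
  rw [← nsq_eq_norm]
  unfold nsq dotu
  simp only [PiLp.smul_apply, smul_eq_mul]
  ring

theorem Diam_dotj_smul (r : ℝ) (u : E4) : dotj u (r • u) = 0 := by
  unfold dotj
  simp only [PiLp.smul_apply, smul_eq_mul]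
  ring

theorem Diam_kdot_smul (r : ℝ) (u : E4) : kdot u (r • u) = 0 := by
  unfold kdot
  simp only [PiLp.smul_apply, smul_eq_mul]
  ring

theorem Diam_qf_coreZ (g ξ : ℝ → ℝ) {u : E4} (hu : 0 < ‖u‖) (r : ℝ) :
    qf (coreZ g ξ u) (r • u) = r ^ 2 * ‖u‖ ^ 2 := by
  rw [qf_coreZ, Diam_nsq_smul, Diam_dotu_smul, Diam_kdot_smul]
  field_simp
  ring

theorem Diam_qf_neckZ (l m H : ℝ → ℝ) {u : E4} (hu : 0 < ‖u‖) (r : ℝ) :
    qf (neckZ l m H u) (r • u) = r ^ 2 * ‖u‖ ^ 2 := by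
  have h1 : (r • u) 0 ^ 2 + (r • u) 1 ^ 2 + (r • u) 2 ^ 2 + (r • u) 3 ^ 2 = r ^ 2 * ‖u‖ ^ 2 :=
    Diam_nsq_smul r u
  have h2 : u 0 * (r • u) 0 + u 1 * (r • u) 1 + u 2 * (r • u) 2 + u 3 * (r • u) 3 =
      r * ‖u‖ ^ 2 := Diam_dotu_smul r u
  have h3 : (r • u) 0 = r * u 0 := rfl
  rw [qf_neckZ, h1, h2, h3]
  have h4 : r * u 0 / ‖u‖ - u 0 * (r * ‖u‖ ^ 2) / ‖u‖ ^ 3 = 0 := by
    field_simp
    ring
  rw [h4]
  field_simp
  ring

theorem Diam_qf_gD (K : Core) (B : BlkD) {u : E4} (hu : 0 < ‖u‖) (r : ℝ) :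
    qf (gD K B u) (r • u) = r ^ 2 * ‖u‖ ^ 2 := by
  unfold gD
  split_ifs with h
  · exact Diam_qf_coreZ _ _ hu r
  · exact Diam_qf_neckZ _ _ _ hu r

theorem Diam_qf_u2Z (U W : ℝ → ℝ) {u : E4} (hu : 0 < ‖u‖) (r : ℝ) :
    qf (u2Z U W u) (r • u) = r ^ 2 * ‖u‖ ^ 2 / U ‖u‖ := by
  rw [qf_u2Z, Diam_nsq_smul, Diam_dotu_smul, Diam_dotj_smul]
  rcases eq_or_ne (U ‖u‖) 0 with h | h
  · rw [h]
    field_simp
    ring
  · field_simp
    ring

/-! ### The parameters of a block -/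

/-- The radius of the sphere in the collar. -/
noncomputable def Diam_t (P : BlkPar) : ℝ := P.B.tstar + P.ρ / P.B.s

theorem Diam_par (P : BlkPar) : 0 < P.B.s ∧ P.B.s * (Diam_t P - P.B.tstar) = P.ρ ∧
    P.B.T2 < Diam_t P ∧ P.B.s * Diam_t P ≤ 2 * P.ρ ∧ 4 * P.B.s ≤ P.ρ ∧ P.K.T0 < Diam_t P ∧
    P.K.t0 / 2 < Diam_t P := by
  have hs := P.ok.blk.s_pos
  have h1 := P.ok.blk.size1
  have h2 := P.ok.blk.size2
  have h3 := P.ok.blk.T2_gt
  have h4 := P.K.isCore.T0_gt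
  have h5 := P.K.isCore.t0_lt
  have hρ := P.ρ_pos
  have hR := P.ok.link.linkFun.Rp_pos
  have h6 : P.B.tstar < P.B.T2 := by
    have h7 := P.ok.blk.l_pos P.B.T2 (by linarith)
    rw [P.ok.blk.end_l P.B.T2 le_rfl] at h7
    have := (mul_pos_iff_of_pos_left hR).1 h7
    linarith
  have e1 : P.B.s * (Diam_t P - P.B.tstar) = P.ρ := by
    unfold Diam_t
    field_simp
    ring
  have e2 : P.B.T2 < Diam_t P := by
    by_contra h7
    have h8 : P.B.s * (Diam_t P - P.B.tstar) ≤ P.B.s * (P.B.T2 - P.B.tstar) :=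
      mul_le_mul_of_nonneg_left (by linarith [not_lt.1 h7]) hs.le
    linarith
  have e3 : P.B.s * P.B.tstar ≤ P.B.s * P.B.T2 := mul_le_mul_of_nonneg_left h6.le hs.le
  have e4 : P.B.s * 4 ≤ P.B.s * P.B.T2 := mul_le_mul_of_nonneg_left (by linarith) hs.le
  refine ⟨hs, e1, e2, ?_, by linarith, by linarith, by linarith⟩
  have : P.B.s * Diam_t P = P.ρ + P.B.s * P.B.tstar := by linarith [mul_sub P.B.s (Diam_t P) P.B.tstar]
  linarith

/-! ### The patch D -/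

theorem Diam_convex {x y m θ : ℝ} (hx : m < x) (hy : m < y) (h0 : 0 ≤ θ) (h1 : θ ≤ 1) :
    m < x + θ * (y - x) := by
  rcases le_total x y with h | h
  · have := mul_nonneg h0 (sub_nonneg.2 h)
    linarith
  · have : θ * (x - y) ≤ 1 * (x - y) := mul_le_mul_of_nonneg_right h1 (sub_nonneg.2 h)
    linarith

theorem Diam_D_radial (P : BlkPar) (Q : Patchwork) {i : Q.ι} (hV : VD P ⊆ Q.V i)
    (hg : Q.g i = smulMet (P.B.s ^ 2) (gD P.K P.B)) {u : E4} (hu : u ∈ VD P) :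
    ‖(Diam_t P / ‖u‖) • u‖ = Diam_t P ∧
      dist (Q.ψ i u) (Q.ψ i ((Diam_t P / ‖u‖) • u)) ≤ 2 * P.ρ := by
  obtain ⟨hs, e1, e2, e3, e4, e5, e6⟩ := Diam_par P
  have hρ := P.ρ_pos
  have ht0 := P.K.isCore.t0_pos
  have hu0 : 0 < ‖u‖ := (mem_VD P hu).1
  obtain ⟨hu1, hu2⟩ := hu
  obtain ⟨T, hT⟩ : ∃ T, T = Diam_t P := ⟨_, rfl⟩
  rw [← hT] at e1 e2 e3 e5 e6 ⊢
  have hTp : 0 < T := by linarith
  have hn : ‖(T / ‖u‖) • u‖ = T := by
    rw [norm_smul, Real.norm_of_nonneg (by positivity)]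
    field_simp
  refine ⟨hn, Q.dist_segment (by positivity) ?_ ?_⟩
  · intro c hc
    rw [segment_eq_image'] at hc
    obtain ⟨θ, hθ, rfl⟩ := hc
    beta_reduce
    apply hV
    have h1 : u + θ • ((T / ‖u‖) • u - u) = (1 + θ * (T / ‖u‖ - 1)) • u := by module
    have h2 : 0 ≤ 1 + θ * (T / ‖u‖ - 1) := by
      have h3 : 0 < T / ‖u‖ := by positivity
      linarith [mul_nonneg hθ.1 h3.le, hθ.2]
    have h3 : ‖u + θ • ((T / ‖u‖) • u - u)‖ = ‖u‖ + θ * (T - ‖u‖) := by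
      rw [h1, norm_smul, Real.norm_of_nonneg h2]
      field_simp
    refine ⟨?_, ?_⟩
    · rw [h3]
      exact Diam_convex hu1 e6 hθ.1 hθ.2
    · rw [h3]
      have h4 : P.B.s * (‖u‖ + θ * (T - ‖u‖) - P.B.tstar) =
          (1 - θ) * (P.B.s * (‖u‖ - P.B.tstar)) + θ * (P.B.s * (T - P.B.tstar)) := by ring
      rw [h4, e1]
      rcases eq_or_lt_of_le hθ.1 with h5 | h5
      · rw [← h5]
        linarith
      · linarith [mul_nonneg (sub_nonneg.2 hθ.2) (sub_nonneg.2 hu2.le), mul_pos h5 hρ]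
  · intro c hc
    rw [segment_eq_image'] at hc
    obtain ⟨θ, hθ, rfl⟩ := hc
    beta_reduce
    have h1 : u + θ • ((T / ‖u‖) • u - u) = (1 + θ * (T / ‖u‖ - 1)) • u := by module
    have h2 : 0 < 1 + θ * (T / ‖u‖ - 1) := by
      have h3 : 0 < T / ‖u‖ := by positivity
      rcases eq_or_lt_of_le hθ.2 with h5 | h5
      · rw [h5]
        linarith
      · linarith [mul_nonneg hθ.1 h3.le]
    have h6 : (T / ‖u‖) • u - u = ((T / ‖u‖ - 1) / (1 + θ * (T / ‖u‖ - 1))) •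
        ((1 + θ * (T / ‖u‖ - 1)) • u) := by
      rw [smul_smul, div_mul_cancel₀ _ h2.ne']
      module
    have h7 : 0 < ‖(1 + θ * (T / ‖u‖ - 1)) • u‖ := by
      rw [norm_smul, Real.norm_of_nonneg h2.le]
      positivity
    rw [hg, qf_smulMet, h1, h6, Diam_qf_gD _ _ h7, norm_smul, Real.norm_of_nonneg h2.le]
    have h8 : P.B.s ^ 2 * (((T / ‖u‖ - 1) / (1 + θ * (T / ‖u‖ - 1))) ^ 2 *
        ((1 + θ * (T / ‖u‖ - 1)) * ‖u‖) ^ 2) = (P.B.s * (T - ‖u‖)) ^ 2 := by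
      have h9 : (T / ‖u‖ - 1) / (1 + θ * (T / ‖u‖ - 1)) * ((1 + θ * (T / ‖u‖ - 1)) * ‖u‖) =
          T - ‖u‖ := by
        rw [← mul_assoc, div_mul_cancel₀ _ h2.ne']
        field_simp
      rw [← mul_pow, h9]
      ring
    rw [h8, Real.sqrt_sq_eq_abs, abs_le]
    have h9 : 0 ≤ P.B.s * ‖u‖ := by positivity
    have h10 : P.B.s * (T - P.B.tstar) = P.B.s * T - P.B.s * P.B.tstar := by ring
    have h11 : P.B.s * (‖u‖ - P.B.tstar) = P.B.s * ‖u‖ - P.B.s * P.B.tstar := by ring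
    have h12 : P.B.s * (T - ‖u‖) = P.B.s * T - P.B.s * ‖u‖ := by ring
    constructor <;> linarith only [hs, hu2, e4, e1, h9, e3]

/-- The bound of the metric on a sphere of the collar. -/
theorem Diam_qf_sphere (P : BlkPar) {u v : E4} (hu : ‖u‖ = Diam_t P) (hv : dotu u v = 0) :
    P.B.s ^ 2 * qf (gD P.K P.B u) v ≤ P.ρ ^ 2 * (nsq v / Diam_t P ^ 2) := by
  obtain ⟨hs, e1, e2, e3, e4, e5, e6⟩ := Diam_par P
  have ht0 := P.K.isCore.t0_pos
  have hρ := P.ρ_pos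
  have hR := P.ok.link.linkFun.Rp_pos
  have hR1 := P.ok.link.linkFun.Rp_lt
  have hl := P.ok.blk.end_l (Diam_t P) e2.le
  have hm := P.ok.blk.end_m (Diam_t P) e2.le
  have hcs := zForm_cs (u 0) (u 1) (u 2) (u 3) (v 0) (v 1) (v 2) (v 3)
  have hns := norm_sq_E4 u
  unfold gD
  rw [if_neg (by rw [hu]; linarith), qf_neckZ]
  have hdot : u 0 * v 0 + u 1 * v 1 + u 2 * v 2 + u 3 * v 3 = 0 := hv
  have hn : v 0 ^ 2 + v 1 ^ 2 + v 2 ^ 2 + v 3 ^ 2 = nsq v := rfl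
  rw [hdot, hn, hu, hl, hm]
  rw [hdot, hn, ← hns, hu] at hcs
  rw [hu] at hns
  obtain ⟨T, hT⟩ : ∃ T, T = Diam_t P := ⟨_, rfl⟩
  rw [← hT] at e1 e2 e3 e5 e6 hcs hns ⊢
  have hTp : 0 < T := by linarith
  obtain ⟨z, hz⟩ : ∃ z, z = u 0 / T := ⟨_, rfl⟩
  have hu0 : u 0 = z * T := by rw [hz]; field_simp
  have hz1 : z ^ 2 ≤ 1 := by
    have h1 : (z * T) ^ 2 ≤ T ^ 2 := by
      rw [← hu0, hns]
      linarith [sq_nonneg (u 1), sq_nonneg (u 2), sq_nonneg (u 3)]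
    rw [mul_pow] at h1
    have : 0 < T ^ 2 := by positivity
    exact le_of_mul_le_mul_right (by linarith) this
  have h1 : v 0 ^ 2 ≤ (1 - z ^ 2) * nsq v := by
    have h2 : u 1 ^ 2 + u 2 ^ 2 + u 3 ^ 2 = T ^ 2 * (1 - z ^ 2) := by
      have : u 0 ^ 2 = z ^ 2 * T ^ 2 := by rw [hu0]; ring
      linarith
    rw [h2] at hcs
    have h3 : T ^ 4 * v 0 ^ 2 ≤ T ^ 4 * ((1 - z ^ 2) * nsq v) := by
      calc T ^ 4 * v 0 ^ 2 = (v 0 * T ^ 2 - u 0 * 0) ^ 2 := by ring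
        _ ≤ T ^ 2 * (1 - z ^ 2) * (T ^ 2 * nsq v - 0 ^ 2) := hcs
        _ = T ^ 4 * ((1 - z ^ 2) * nsq v) := by ring
    exact le_of_mul_le_mul_left h3 (by positivity)
  rw [← hz]
  obtain ⟨R, hRdef⟩ : ∃ R, R = lRp P.c P.K.R := ⟨_, rfl⟩
  rw [← hRdef] at hR hR1 ⊢
  obtain ⟨β, hβ⟩ : ∃ β, β = nBeta 1 (P.B.H z) z := ⟨_, rfl⟩
  have hβ1 : R ^ 2 * (1 + (1 - z ^ 2) * β) ≤ 1 := by
    rw [hβ, nBeta_mul]
    have h2 : 1 + (Real.exp (2 * 1 * ((1 - z ^ 2) * P.B.H z)) - 1) =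
        Real.exp ((1 - z ^ 2) * P.B.H z) ^ 2 := by
      rw [← Real.exp_nat_mul]
      push_cast
      ring_nf
    rw [h2, ← mul_pow]
    have h3 : R * Real.exp ((1 - z ^ 2) * P.B.H z) ≤ 1 := by
      rcases eq_or_lt_of_le hz1 with h4 | h4
      · rw [h4]
        simp
        linarith
      · have h56 := abs_lt.1 ((sq_lt_one_iff_abs_lt_one z).1 h4)
        have h5 : -1 < z := h56.1
        have h6 : z < 1 := h56.2
        have hx : arcsin z ∈ Lat := ⟨neg_pi_div_two_lt_arcsin.2 h5, arcsin_lt_pi_div_two.2 h6⟩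
        have h7 := P.ok.link.eta_H _ hx
        have h8 := P.ok.link.linkFun.upper _ hx
        rw [h7, sin_arcsin h5.le h6.le, cos_arcsin, Real.sq_sqrt (by linarith), ← hRdef] at h8
        have h9 := Real.exp_le_exp.2 h8
        rw [Real.exp_log (by positivity)] at h9
        calc R * Real.exp ((1 - z ^ 2) * P.B.H z) ≤ R * (1 / R) :=
              mul_le_mul_of_nonneg_left h9 hR.le
          _ = 1 := by field_simp
    have h10 : 0 ≤ R * Real.exp ((1 - z ^ 2) * P.B.H z) := by positivity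
    exact pow_le_one₀ h10 h3
  rw [← hβ]
  have hnv := nsq_nonneg v
  have h2 : P.B.s ^ 2 * ((R * (T - P.B.tstar) / T) ^ 2 * nsq v +
      (1 - (R * (T - P.B.tstar) / T) ^ 2) * (0 ^ 2 / T ^ 2) +
      (R * (T - P.B.tstar)) ^ 2 * β * (v 0 / T - u 0 * 0 / T ^ 3) ^ 2) =
      (P.B.s * (T - P.B.tstar)) ^ 2 * (R ^ 2 * (nsq v + β * v 0 ^ 2)) / T ^ 2 := by
    field_simp
    ring
  rw [h2, e1]
  have h3 : R ^ 2 * (nsq v + β * v 0 ^ 2) ≤ nsq v := by
    rcases le_or_gt 0 β with hb | hb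
    · have h4 : β * v 0 ^ 2 ≤ β * ((1 - z ^ 2) * nsq v) := mul_le_mul_of_nonneg_left h1 hb
      have h5 := mul_le_mul_of_nonneg_right hβ1 hnv
      have h6 : R ^ 2 * (β * v 0 ^ 2) ≤ R ^ 2 * (β * ((1 - z ^ 2) * nsq v)) :=
        mul_le_mul_of_nonneg_left h4 (sq_nonneg R)
      linarith only [h6, h5]
    · have h4 : β * v 0 ^ 2 ≤ 0 := mul_nonpos_of_nonpos_of_nonneg hb.le (sq_nonneg _)
      have h5 : R ^ 2 ≤ 1 := pow_le_one₀ hR.le (by linarith only [hR1, hR])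
      linarith only [mul_nonneg (sq_nonneg R) (neg_nonneg.2 h4), mul_nonneg hnv (sub_nonneg.2 h5)]
  rw [mul_div_assoc]
  exact mul_le_mul_of_nonneg_left (div_le_div_of_nonneg_right h3 (by positivity)) (sq_nonneg _)

/-- A curve `cos (f τ) p + sin (f τ) q`. -/
theorem Diam_curve (p q : E4) (α β : ℝ) (τ : ℝ) :
    HasDerivAt (fun τ : ℝ => Real.cos (α + β * τ) • p + Real.sin (α + β * τ) • q)
      ((-(Real.sin (α + β * τ) * β)) • p + (Real.cos (α + β * τ) * β) • q) τ := by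
  have h1 : HasDerivAt (fun τ : ℝ => α + β * τ) β τ := by
    simpa using ((hasDerivAt_id τ).const_mul β).const_add α
  have h2 := (h1.cos.smul_const p).add (h1.sin.smul_const q)
  refine h2.congr_deriv ?_
  rw [neg_mul]

/-- Two points of the sphere joined by an arc of a great circle. -/
theorem Diam_arc (P : BlkPar) (Q : Patchwork) {i : Q.ι} (hV : VD P ⊆ Q.V i)
    (hg : Q.g i = smulMet (P.B.s ^ 2) (gD P.K P.B)) {a c : E4} (ha : ‖a‖ = Diam_t P)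
    (hc : ‖c‖ = Diam_t P) (hac : dotu a c = 0) {θ : ℝ} (h0 : 0 ≤ θ) (h1 : θ ≤ π) :
    dist (Q.ψ i a) (Q.ψ i (Real.cos θ • a + Real.sin θ • c)) ≤ 4 * P.ρ := by
  obtain ⟨hs, e1, e2, e3, e4, e5, e6⟩ := Diam_par P
  have hρ := P.ρ_pos
  have ht0 := P.K.isCore.t0_pos
  have hTp : 0 < Diam_t P := by linarith
  have ha2 : nsq a = Diam_t P ^ 2 := by rw [nsq_eq_norm, ha]
  have hc2 : nsq c = Diam_t P ^ 2 := by rw [nsq_eq_norm, hc]
  have hns : ∀ x y : ℝ, nsq (x • a + y • c) = (x ^ 2 + y ^ 2) * Diam_t P ^ 2 := by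
    intro x y
    have : nsq (x • a + y • c) = x ^ 2 * nsq a + y ^ 2 * nsq c + 2 * x * y * dotu a c := by
      unfold nsq dotu
      simp only [PiLp.add_apply, PiLp.smul_apply, smul_eq_mul]
      ring
    rw [this, ha2, hc2, hac]
    ring
  have hdt : ∀ x y x' y' : ℝ, dotu (x • a + y • c) (x' • a + y' • c) =
      (x * x' + y * y') * Diam_t P ^ 2 := by
    intro x y x' y'
    have : dotu (x • a + y • c) (x' • a + y' • c) = x * x' * nsq a + y * y' * nsq c +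
        (x * y' + y * x') * dotu a c := by
      unfold nsq dotu
      simp only [PiLp.add_apply, PiLp.smul_apply, smul_eq_mul]
      ring
    rw [this, ha2, hc2, hac]
    ring
  have hnorm : ∀ t : ℝ, ‖Real.cos t • a + Real.sin t • c‖ = Diam_t P := by
    intro t
    have h2 : ‖Real.cos t • a + Real.sin t • c‖ ^ 2 = Diam_t P ^ 2 := by
      rw [← nsq_eq_norm, hns, Real.cos_sq_add_sin_sq, one_mul]
    exact (sq_eq_sq₀ (norm_nonneg _) hTp.le).1 h2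
  have key := Q.dist_path (i := i) (L := 4 * P.ρ) (by positivity)
    (γ := fun τ : ℝ => Real.cos (0 + θ * τ) • a + Real.sin (0 + θ * τ) • c)
    (γ' := fun τ : ℝ => (-(Real.sin (0 + θ * τ) * θ)) • a + (Real.cos (0 + θ * τ) * θ) • c)
    (fun τ _ => hV (by
      refine ⟨?_, ?_⟩
      · rw [hnorm]
        exact e6
      · rw [hnorm, e1]
        linarith))
    (fun τ _ => (Diam_curve a c 0 θ τ).hasDerivWithinAt)
    (fun τ _ => by
      rw [hg, qf_smulMet]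
      refine Real.sqrt_le_iff.2 ⟨by positivity, ?_⟩
      refine (Diam_qf_sphere P (hnorm _) ?_).trans ?_
      · rw [hdt]
        ring
      · rw [hns]
        have h2 : ((-(Real.sin (0 + θ * τ) * θ)) ^ 2 + (Real.cos (0 + θ * τ) * θ) ^ 2) *
            Diam_t P ^ 2 / Diam_t P ^ 2 = θ ^ 2 := by
          have h3 := Real.sin_sq_add_cos_sq (0 + θ * τ)
          rw [mul_div_assoc, div_self (by positivity), mul_one]
          linear_combination θ ^ 2 * h3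
        rw [h2, mul_pow, mul_comm]
        refine mul_le_mul_of_nonneg_right ?_ (sq_nonneg _)
        exact pow_le_pow_left₀ h0 (h1.trans pi_le_four) 2)
  simp only [mul_zero, mul_one, zero_add, Real.cos_zero, Real.sin_zero, one_smul, zero_smul,
    add_zero] at key
  exact key

theorem Diam_exists_arc {T : ℝ} (hT : 0 < T) {a b : E4} (ha : ‖a‖ = T) (hb : ‖b‖ = T) :
    ∃ (c : E4) (θ : ℝ), ‖c‖ = T ∧ dotu a c = 0 ∧ 0 ≤ θ ∧ θ ≤ π ∧
      b = Real.cos θ • a + Real.sin θ • c := by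
  have ha2 : nsq a = T ^ 2 := by rw [nsq_eq_norm, ha]
  have hb2 : nsq b = T ^ 2 := by rw [nsq_eq_norm, hb]
  obtain ⟨x, hx⟩ : ∃ x, x = dotu a b / T ^ 2 := ⟨_, rfl⟩
  have hx' : dotu a b = x * T ^ 2 := by rw [hx]; field_simp
  obtain ⟨e, he⟩ : ∃ e, e = b - x • a := ⟨_, rfl⟩
  have hbe : b = x • a + e := by rw [he]; abel
  have hae : dotu a e = 0 := by
    have : dotu a e = dotu a b - x * nsq a := by
      rw [he]
      unfold dotu nsq
      simp only [PiLp.sub_apply, PiLp.smul_apply, smul_eq_mul]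
      ring
    rw [this, hx', ha2]
    ring
  have hee : nsq e = (1 - x ^ 2) * T ^ 2 := by
    have : nsq e = nsq b - 2 * x * dotu a b + x ^ 2 * nsq a := by
      rw [he]
      unfold dotu nsq
      simp only [PiLp.sub_apply, PiLp.smul_apply, smul_eq_mul]
      ring
    rw [this, hx', ha2, hb2]
    ring
  have hx1 : 0 ≤ 1 - x ^ 2 := by
    by_contra h
    have h1 := nsq_nonneg e
    rw [hee] at h1
    have : 0 < T ^ 2 := by positivity
    exact absurd (mul_neg_of_neg_of_pos (not_le.1 h) this) (not_lt.2 h1)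
  have hxm : -1 ≤ x ∧ x ≤ 1 := abs_le.1 (by
    rw [← sq_le_one_iff_abs_le_one]
    linarith)
  rcases eq_or_ne e 0 with h | h
  · -- `b = ± a`
    have h1 : x ^ 2 = 1 := by
      have h2 : nsq e = 0 := by rw [h]; unfold nsq; simp
      rw [hee] at h2
      have : 0 < T ^ 2 := by positivity
      rcases mul_eq_zero.1 h2 with h3 | h3
      · linarith
      · exact absurd h3 this.ne'
    refine ⟨WithLp.toLp 2 ![-a 1, a 0, -a 3, a 2], arccos x, ?_, ?_, arccos_nonneg _,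
      arccos_le_pi _, ?_⟩
    · have h2 : ‖(WithLp.toLp 2 ![-a 1, a 0, -a 3, a 2] : E4)‖ ^ 2 = T ^ 2 := by
        rw [← nsq_eq_norm, ← ha2]
        unfold nsq
        simp
        ring
      exact (sq_eq_sq₀ (norm_nonneg _) hT.le).1 h2
    · unfold dotu
      simp
      ring
    · rw [cos_arccos hxm.1 hxm.2, sin_arccos, h1, sub_self, Real.sqrt_zero, zero_smul, add_zero,
        hbe, h, add_zero]
  · have h1 : 0 < ‖e‖ := norm_pos_iff.2 h
    have h2 : ‖e‖ ^ 2 = (1 - x ^ 2) * T ^ 2 := by rw [← nsq_eq_norm, hee]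
    have h3 : √(1 - x ^ 2) = ‖e‖ / T := by
      rw [Real.sqrt_eq_iff_mul_self_eq hx1 (by positivity)]
      field_simp
      linarith
    refine ⟨(T / ‖e‖) • e, arccos x, ?_, ?_, arccos_nonneg _, arccos_le_pi _, ?_⟩
    · rw [norm_smul, Real.norm_of_nonneg (by positivity)]
      field_simp
    · have : dotu a ((T / ‖e‖) • e) = (T / ‖e‖) * dotu a e := by
        unfold dotu
        simp only [PiLp.smul_apply, smul_eq_mul]
        ring
      rw [this, hae, mul_zero]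
    · rw [cos_arccos hxm.1 hxm.2, sin_arccos, h3, smul_smul]
      have h4 : ‖e‖ / T * (T / ‖e‖) = 1 := by field_simp
      rw [h4, one_smul]
      exact hbe

theorem Diam_sphere (P : BlkPar) (Q : Patchwork) {i : Q.ι} (hV : VD P ⊆ Q.V i)
    (hg : Q.g i = smulMet (P.B.s ^ 2) (gD P.K P.B)) {a b : E4} (ha : ‖a‖ = Diam_t P)
    (hb : ‖b‖ = Diam_t P) : dist (Q.ψ i a) (Q.ψ i b) ≤ 4 * P.ρ := by
  obtain ⟨hs, e1, e2, e3, e4, e5, e6⟩ := Diam_par P
  have ht0 := P.K.isCore.t0_pos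
  obtain ⟨c, θ, h1, h2, h3, h4, rfl⟩ := Diam_exists_arc (T := Diam_t P) (by linarith) ha hb
  exact Diam_arc P Q hV hg ha h1 h2 h3 h4

/-! ### The patch E -/

theorem Diam_E_VD (P : BlkPar) {e : E4} (he : e ∈ VE P) (h : sin (P.K.t0 / 2) < ‖cB e‖) :
    thED e ∈ VD P ∧ blkPsi P 0 (thED e) = blkPsi P 1 e := by
  obtain ⟨h1, h2⟩ := mem_VE P he
  obtain ⟨s1, s2, s3, s4⟩ := sin_half P
  have h3 : cB e ≠ 0 := norm_pos_iff.1 (s1.trans h)
  have h4 := norm_thED h1 h3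
  obtain ⟨k1, k2, k3, k4, k5, k6, k7⟩ := slice_t h1 h3
  have ht := P.K.isCore.t0_lt
  have ht' := P.K.isCore.t0_pos
  have hp := pi_gt_three
  have h5 : P.K.t0 / 2 < arcsin ‖cB e‖ := by
    rw [lt_arcsin_iff_sin_lt' ⟨by linarith, by linarith⟩]
    exact h
  have h6 := arcsin_lt_t0 P h2
  refine ⟨⟨by rw [h4]; exact h5, ?_⟩, ?_⟩
  · rw [h4]
    have hs := P.ok.blk.s_pos
    have h7 := P.ok.blk.size1
    have h8 := P.ok.blk.T2_gt
    have h9 := P.K.isCore.T0_gt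
    have hρ := P.ρ_pos
    have h10 : P.B.s * (arcsin ‖cB e‖ - P.B.tstar) ≤ P.B.s * (P.B.T2 - P.B.tstar) :=
      mul_le_mul_of_nonneg_left (by linarith) hs.le
    linarith only [hρ, h7, h10]
  · exact ((rep_E_D P.K h1 h2 (thED_ne h1 h3)).2 ⟨h3, rfl⟩).symm

theorem Diam_E (P : BlkPar) (Q : Patchwork) {i : Q.ι} (hV : VE P ⊆ Q.V i)
    (hg : Q.g i = smulMet (P.B.s ^ 2) gE) {u : E4} (hu : u ∈ VE P) :
    ∃ e ∈ VE P, sin (P.K.t0 / 2) < ‖cB e‖ ∧ dist (Q.ψ i u) (Q.ψ i e) ≤ P.ρ := by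
  have hρ := P.ρ_pos
  have hs := P.ok.blk.s_pos
  rcases lt_or_ge (sin (P.K.t0 / 2)) ‖cB u‖ with hlt | hge
  · exact ⟨u, hu, hlt, by rw [dist_self]; exact hρ.le⟩
  have ht := P.K.isCore.t0_lt
  have ht' := P.K.isCore.t0_pos
  have hp := pi_gt_three
  obtain ⟨s1, s2, s3, s4⟩ := sin_half P
  obtain ⟨-, -, -, -, hρs, -, -⟩ := Diam_par P
  obtain ⟨h1, h2⟩ := mem_VE P hu
  have hn := norm_sq_cAB u
  rw [← nsq_eq_norm] at hn
  -- the angle `t1`
  obtain ⟨t1, ht1⟩ : ∃ t1, t1 = arcsin ‖cB u‖ := ⟨_, rfl⟩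
  have hB1 : ‖cB u‖ ≤ 1 := hge.trans (sin_le_one _)
  have hsin : sin t1 = ‖cB u‖ := by
    rw [ht1]
    exact sin_arcsin (by linarith only [norm_nonneg (cB u), ht, ht']) hB1
  have ht10 : 0 ≤ t1 := by
    rw [ht1]
    exact arcsin_nonneg.2 (norm_nonneg _)
  have ht12 : t1 ≤ P.K.t0 / 2 := by
    rw [ht1, arcsin_le_iff_le_sin' ⟨by linarith only [ht, ht', hp], by linarith⟩]
    exact hge
  have hcos : 0 < cos t1 := cos_pos_of_mem_Ioo ⟨by linarith, by linarith only [ht, ht', hp, ht12]⟩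
  have hcs := sin_sq_add_cos_sq t1
  -- the vectors `p`, `q`
  obtain ⟨A, hA⟩ : ∃ A : ℂ, A = cA u / (cos t1 : ℂ) := ⟨_, rfl⟩
  obtain ⟨w, hw, hwu⟩ : ∃ w : ℂ, ‖w‖ = 1 ∧ cB u = (sin t1 : ℂ) * w := by
    rcases eq_or_ne (cB u) 0 with h | h
    · refine ⟨1, by simp, ?_⟩
      have : sin t1 = 0 := by rw [hsin, h, norm_zero]
      rw [this, h]
      simp
    · have h3 : ‖cB u‖ ≠ 0 := norm_ne_zero_iff.2 h
      refine ⟨cB u / (‖cB u‖ : ℂ), ?_, ?_⟩
      · rw [norm_div, Complex.norm_real, norm_norm, div_self h3]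
      · rw [hsin]
        have h4 : (‖cB u‖ : ℂ) ≠ 0 := Complex.ofReal_ne_zero.2 h3
        field_simp
  have hcA : cA u = (cos t1 : ℂ) * A := by
    have : (cos t1 : ℂ) ≠ 0 := Complex.ofReal_ne_zero.2 hcos.ne'
    rw [hA]
    field_simp
  have hAn : ‖cA u‖ = cos t1 * ‖A‖ := by
    rw [hcA, norm_mul, Complex.norm_real, Real.norm_of_nonneg hcos.le]
  have hA1 : ‖A‖ ^ 2 < 1 := by
    rw [hAn, ← hsin] at hn
    have h3 : cos t1 ^ 2 * ‖A‖ ^ 2 < cos t1 ^ 2 := by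
      have : nsq u = cos t1 ^ 2 * ‖A‖ ^ 2 + sin t1 ^ 2 := by rw [hn]; ring
      linarith
    have h4 : 0 < cos t1 ^ 2 := by positivity
    exact lt_of_mul_lt_mul_left (by linarith) h4.le
  obtain ⟨p, hp'⟩ : ∃ p : E4, p = toE A 0 := ⟨_, rfl⟩
  obtain ⟨q, hq'⟩ : ∃ q : E4, q = toE 0 w := ⟨_, rfl⟩
  have hpA : cA p = A := by rw [hp', cA_toE]
  have hpB : cB p = 0 := by rw [hp', cB_toE]
  have hqA : cA q = 0 := by rw [hq', cA_toE]
  have hqB : cB q = w := by rw [hq', cB_toE]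
  have gA : ∀ x y : ℝ, cA (x • p + y • q) = (x : ℂ) * A := by
    intro x y
    rw [map_add, map_smul, map_smul, hpA, hqA, smul_zero, add_zero, Complex.real_smul]
  have gB' : ∀ x y : ℝ, cB (x • p + y • q) = (y : ℂ) * w := by
    intro x y
    rw [map_add, map_smul, map_smul, hpB, hqB, smul_zero, zero_add, Complex.real_smul]
  have hu0 : u = cos t1 • p + sin t1 • q := by
    refine eh_ext ?_ ?_
    · rw [gA, hcA]
    · rw [gB', hwu]
  have hAs : A.re ^ 2 + A.im ^ 2 = ‖A‖ ^ 2 := by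
    rw [← Complex.normSq_eq_norm_sq, Complex.normSq_apply]
    ring
  have hws : w.re ^ 2 + w.im ^ 2 = 1 := by
    have : Complex.normSq w = 1 := by rw [Complex.normSq_eq_norm_sq, hw]; norm_num
    rw [Complex.normSq_apply] at this
    linarith only [this]
  have p0 : ∀ x y : ℝ, (x • p + y • q) 0 = x * A.re ∧ (x • p + y • q) 1 = x * A.im ∧
      (x • p + y • q) 2 = y * w.re ∧ (x • p + y • q) 3 = y * w.im := by
    intro x y
    rw [hp', hq']
    simp [toE]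
  have hmem : ∀ t ∈ Set.Icc t1 (3 * P.K.t0 / 4), (cos t • p + sin t • q) ∈ VE P ∧
      ‖cB (cos t • p + sin t • q)‖ = sin t := by
    intro t htm
    have hct : 0 < cos t := cos_pos_of_mem_Ioo ⟨by linarith [htm.1], by linarith [htm.2]⟩
    have hst : 0 ≤ sin t := sin_nonneg_of_nonneg_of_le_pi (by linarith [htm.1])
      (by linarith [htm.2])
    have hct1 : cos t ≤ cos t1 := cos_le_cos_of_nonneg_of_le_pi ht10 (by linarith [htm.2]) htm.1
    have hcst := sin_sq_add_cos_sq t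
    have m1 : ‖cB (cos t • p + sin t • q)‖ = sin t := by
      rw [gB', norm_mul, Complex.norm_real, Real.norm_of_nonneg hst, hw, mul_one]
    have m2 : ‖cA (cos t • p + sin t • q)‖ = cos t * ‖A‖ := by
      rw [gA, norm_mul, Complex.norm_real, Real.norm_of_nonneg hct.le]
    refine ⟨⟨?_, ?_, ?_⟩, m1⟩
    · have h3 : ‖cos t • p + sin t • q‖ ^ 2 < 1 := by
        rw [norm_sq_cAB, m1, m2]
        have : 0 < cos t ^ 2 := by positivity
        linarith [mul_pos this (sub_pos.2 hA1)]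
      exact lt_of_pow_lt_pow_left₀ 2 zero_le_one (by rw [one_pow]; exact h3)
    · rw [sq2_eq, m1]
      exact pow_lt_pow_left₀ (sin_lt_sin_of_lt_of_le_pi_div_two (by linarith [htm.1])
        (by linarith) (by linarith [htm.2])) hst (by norm_num)
    · have h3 := hu.2.2
      rw [sq1_eq, hAn] at h3
      rw [sq1_eq, m2]
      refine lt_of_le_of_lt ?_ h3
      exact pow_le_pow_left₀ (by positivity) (mul_le_mul_of_nonneg_right hct1 (norm_nonneg _)) 2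
  obtain ⟨β, hβ⟩ : ∃ β, β = 3 * P.K.t0 / 4 - t1 := ⟨_, rfl⟩
  have hβ0 : 0 ≤ β := by rw [hβ]; linarith
  have hβ1 : β ≤ 1 := by rw [hβ]; linarith
  have hrange : ∀ τ ∈ Set.Icc (0 : ℝ) 1, t1 + β * τ ∈ Set.Icc t1 (3 * P.K.t0 / 4) := by
    intro τ hτ
    constructor
    · linarith [mul_nonneg hβ0 hτ.1]
    · have : β * τ ≤ β * 1 := mul_le_mul_of_nonneg_left hτ.2 hβ0
      linarith
  have key := Q.dist_path (i := i) (L := P.ρ) hρ.le
    (γ := fun τ : ℝ => Real.cos (t1 + β * τ) • p + Real.sin (t1 + β * τ) • q)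
    (γ' := fun τ : ℝ => (-(Real.sin (t1 + β * τ) * β)) • p + (Real.cos (t1 + β * τ) * β) • q)
    (fun τ hτ => hV (hmem _ (hrange τ hτ)).1)
    (fun τ _ => (Diam_curve p q t1 β τ).hasDerivWithinAt)
    (fun τ hτ => by
      rw [hg, qf_smulMet, qf_gE]
      obtain ⟨t, htt⟩ : ∃ t, t = t1 + β * τ := ⟨_, rfl⟩
      have htm := hrange τ hτ
      rw [← htt] at htm ⊢
      obtain ⟨k0, k1, k2, k3⟩ := p0 (cos t) (sin t)
      obtain ⟨l0, l1, l2, l3⟩ := p0 (-(sin t * β)) (cos t * β)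
      have hct : 0 < cos t := cos_pos_of_mem_Ioo ⟨by linarith [htm.1], by linarith [htm.2]⟩
      have hcst := sin_sq_add_cos_sq t
      have n1 : nsq ((-(sin t * β)) • p + (cos t * β) • q) =
          β ^ 2 * (sin t ^ 2 * ‖A‖ ^ 2 + cos t ^ 2) := by
        unfold nsq
        rw [l0, l1, l2, l3]
        linear_combination (sin t ^ 2 * β ^ 2) * hAs + (cos t ^ 2 * β ^ 2) * hws
      have n2 : nsq (cos t • p + sin t • q) = cos t ^ 2 * ‖A‖ ^ 2 + sin t ^ 2 := by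
        unfold nsq
        rw [k0, k1, k2, k3]
        linear_combination (cos t ^ 2) * hAs + (sin t ^ 2) * hws
      have n3 : dotu (cos t • p + sin t • q) ((-(sin t * β)) • p + (cos t * β) • q) =
          β * (sin t * cos t * (1 - ‖A‖ ^ 2)) := by
        unfold dotu
        rw [k0, k1, k2, k3, l0, l1, l2, l3]
        linear_combination (-(sin t * cos t * β)) * hAs + (sin t * cos t * β) * hws
      have n4 : kEdot (cos t • p + sin t • q) ((-(sin t * β)) • p + (cos t * β) • q) = 0 := by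
        unfold kEdot
        rw [k0, k1, k2, k3, l0, l1, l2, l3]
        ring
      rw [n1, n2, n3, n4]
      have h3 : 1 - (cos t ^ 2 * ‖A‖ ^ 2 + sin t ^ 2) = cos t ^ 2 * (1 - ‖A‖ ^ 2) := by
        linear_combination (-1) * hcst
      have h4 : 0 < 1 - ‖A‖ ^ 2 := by linarith
      rw [h3]
      have h5 : β ^ 2 * (sin t ^ 2 * ‖A‖ ^ 2 + cos t ^ 2) +
          (β * (sin t * cos t * (1 - ‖A‖ ^ 2))) ^ 2 / (cos t ^ 2 * (1 - ‖A‖ ^ 2)) -
          0 ^ 2 / (1 + 3 * ((cos t • p + sin t • q) 0 ^ 2 + (cos t • p + sin t • q) 1 ^ 2)) =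
          β ^ 2 := by
        have h6 : (β * (sin t * cos t * (1 - ‖A‖ ^ 2))) ^ 2 / (cos t ^ 2 * (1 - ‖A‖ ^ 2)) =
            β ^ 2 * (sin t ^ 2 * (1 - ‖A‖ ^ 2)) := by
          field_simp
        rw [h6]
        simp only [ne_eq, OfNat.ofNat_ne_zero, not_false_eq_true, zero_pow, zero_div, sub_zero]
        linear_combination β ^ 2 * hcst
      rw [h5, ← mul_pow, Real.sqrt_sq (by positivity)]
      linarith [mul_le_mul_of_nonneg_left hβ1 hs.le])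
  simp only [mul_zero, mul_one, add_zero] at key
  rw [← hu0] at key
  have hend : t1 + β = 3 * P.K.t0 / 4 := by rw [hβ]; ring
  rw [hend] at key
  obtain ⟨m1, m2⟩ := hmem (3 * P.K.t0 / 4) ⟨by linarith, le_rfl⟩
  refine ⟨_, m1, ?_, key⟩
  rw [m2]
  exact sin_lt_sin_of_lt_of_le_pi_div_two (by linarith) (by linarith) (by linarith)

/-! ### The patch F -/

theorem Diam_F_mem (P : BlkPar) {e : E4} (he : e ∈ VF P) (h : sin (P.K.t0 / 2) < ‖e‖) :
    (thFE e ∈ VE P ∧ blkPsi P 1 (thFE e) = blkPsi P 2 e) ∨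
      (thFD e ∈ VD P ∧ blkPsi P 0 (thFD e) = blkPsi P 2 e) := by
  obtain ⟨h1, h2, h7⟩ := mem_VF P he
  obtain ⟨s1, s2, s3, s4⟩ := sin_half P
  have hn := norm_sq_cAB e
  rcases eq_or_ne (cA e) 0 with h0 | h0
  · right
    have hB : ‖cB e‖ = ‖e‖ := by
      rw [h0, norm_zero] at hn
      have : ‖cB e‖ ^ 2 = ‖e‖ ^ 2 := by rw [hn]; ring
      exact (sq_eq_sq₀ (norm_nonneg _) (norm_nonneg _)).1 this
    have hlt : sin (P.K.t0 / 2) < ‖cB e‖ := by rw [hB]; exact h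
    have h3 : cB e ≠ 0 := norm_pos_iff.1 (s1.trans hlt)
    have h4 := norm_thFD h1 h3
    have ht := P.K.isCore.t0_lt
    have ht' := P.K.isCore.t0_pos
    have hp := pi_gt_three
    have h5 : P.K.t0 / 2 < arcsin ‖cB e‖ := by
      rw [lt_arcsin_iff_sin_lt' ⟨by linarith only [hp, ht', ht], by linarith only [hp, ht', ht]⟩]
      exact hlt
    have h6 := arcsin_lt_t0 P h2
    refine ⟨⟨by rw [h4]; exact h5, ?_⟩, ?_⟩
    · rw [h4]
      have hs := P.ok.blk.s_pos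
      have h7 := P.ok.blk.size1
      have h8 := P.ok.blk.T2_gt
      have h9 := P.K.isCore.T0_gt
      have hρ := P.ρ_pos
      have h10 : P.B.s * (arcsin ‖cB e‖ - P.B.tstar) ≤ P.B.s * (P.B.T2 - P.B.tstar) :=
        mul_le_mul_of_nonneg_left (by linarith only [h8, ht, h5, h6, h9]) hs.le
      linarith only [h10, hρ, h7]
    · exact ((rep_F_D P.K h1 h2 (thFD_ne h1 h3)).2 ⟨h3, rfl⟩).symm
  · left
    have hA : 0 < ‖cA e‖ := norm_pos_iff.2 h0
    have h3 : nsq (thFE e) < 1 := by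
      rw [nsq_thFE h1 h0]
      have : 0 < ‖cA e‖ ^ 2 := by positivity
      linarith
    refine ⟨⟨(nsq_lt_one_iff _).1 h3, ?_, ?_⟩, ?_⟩
    · rw [sq2_eq, norm_cB_thFE h0]
      exact pow_lt_pow_left₀ h2 (norm_nonneg _) (by norm_num)
    · have h4 : ‖thFE e‖ ^ 2 = 1 - ‖cA e‖ ^ 2 := by rw [← nsq_eq_norm, nsq_thFE h1 h0]
      rw [norm_sq_cAB, norm_cB_thFE h0] at h4
      rw [sq1_eq]
      have h5 : (sin (P.K.t0 / 2) / 2) ^ 2 < ‖e‖ ^ 2 :=
        pow_lt_pow_left₀ (by linarith) (by positivity) (by norm_num)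
      linarith only [h5, hn, h4]
    · exact ((rep_F_E h1 h3).2 ⟨h0, rfl⟩).symm

/-- Lower bound of the radial coefficient. -/
theorem Diam_U (P : BlkPar) {A : ℝ} (h1 : P.a < A) (h2 : A < sin P.K.t0) :
    3 / 4 * ((A - P.a) / A) ≤ P.K.U P.a A := by
  have ha := P.a_nonneg
  have hA : 0 < A := lt_of_le_of_lt ha h1
  have h3 : (A - P.a) / A ≤ 1 := by rw [div_le_one hA]; linarith
  have h3' : 0 ≤ (A - P.a) / A := div_nonneg (by linarith) hA.le
  obtain ⟨-, h | ⟨h, h4, -⟩⟩ := gF_cases P h1 h2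
  · rw [h.self_of_nhds.1]
    unfold ehU ehChi
    have h5 := Real.smoothTransition.nonneg (4 * A / P.K.A0 - 2)
    have h6 : P.a ^ 4 / A ^ 4 ≤ P.a / A := by
      have h7 : P.a / A ≤ 1 := by rw [div_le_one hA]; exact h1.le
      have h8 : 0 ≤ P.a / A := by positivity
      rw [← div_pow]
      calc (P.a / A) ^ 4 ≤ (P.a / A) ^ 1 := pow_le_pow_of_le_one h8 h7 (by norm_num)
        _ = P.a / A := pow_one _
    have h7 : (1 - Real.smoothTransition (4 * A / P.K.A0 - 2)) * P.a ^ 4 / A ^ 4 ≤ P.a / A := by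
      rw [mul_div_assoc]
      have h8 : 0 ≤ P.a ^ 4 / A ^ 4 := by positivity
      linarith [mul_nonneg h5 h8]
    have h8 : (A - P.a) / A = 1 - P.a / A := by field_simp
    rw [h8] at h3' ⊢
    linarith only [h3', h7]
  · rw [h.self_of_nhds.1]
    linarith

theorem Diam_curveF (v : E4) (a x β : ℝ) (τ : ℝ) :
    HasDerivAt (fun τ : ℝ => (a + (x + β * τ) ^ 2) • v) ((2 * (x + β * τ) * β) • v) τ := by
  have h1 : HasDerivAt (fun τ : ℝ => x + β * τ) β τ := by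
    simpa using ((hasDerivAt_id τ).const_mul β).const_add x
  have h2 := ((h1.pow 2).const_add a).smul_const v
  refine h2.congr_deriv ?_
  norm_num

theorem Diam_F (P : BlkPar) (Q : Patchwork) {i : Q.ι} (hV : VF P ⊆ Q.V i)
    (hg : Q.g i = smulMet (P.B.s ^ 2) (gF P.K P.a)) {u : E4} (hu : u ∈ VF P) :
    ∃ e ∈ VF P, sin (P.K.t0 / 2) < ‖e‖ ∧ dist (Q.ψ i u) (Q.ψ i e) ≤ P.ρ := by
  have hρ := P.ρ_pos
  have hs := P.ok.blk.s_pos
  rcases lt_or_ge (sin (P.K.t0 / 2)) ‖u‖ with hlt | hge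
  · exact ⟨u, hu, hlt, by rw [dist_self]; exact hρ.le⟩
  have ht := P.K.isCore.t0_lt
  have ht' := P.K.isCore.t0_pos
  have hp := pi_gt_three
  have ha := P.a_nonneg
  obtain ⟨s1, s2, s3, s4⟩ := sin_half P
  have s5 := P.K.sin_t0.2
  obtain ⟨-, -, -, -, hρs, -, -⟩ := Diam_par P
  have hn : 0 < ‖u‖ := lt_of_le_of_lt ha hu.1
  obtain ⟨R, hR⟩ : ∃ R, R = sin (3 * P.K.t0 / 4) := ⟨_, rfl⟩
  have hR1 : sin (P.K.t0 / 2) < R := by
    rw [hR]
    exact sin_lt_sin_of_lt_of_le_pi_div_two (by linarith) (by linarith only [hp, s1, ht, s5, s2]) (by linarith)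
  have hR2 : R < sin P.K.t0 := by
    rw [hR]
    exact sin_lt_sin_of_lt_of_le_pi_div_two (by linarith) (by linarith) (by linarith)
  obtain ⟨x1, hx1⟩ : ∃ x, x = √(‖u‖ - P.a) := ⟨_, rfl⟩
  obtain ⟨x2, hx2⟩ : ∃ x, x = √(R - P.a) := ⟨_, rfl⟩
  have e1 : x1 ^ 2 = ‖u‖ - P.a := by rw [hx1]; exact Real.sq_sqrt (by linarith [hu.1])
  have e2 : x2 ^ 2 = R - P.a := by rw [hx2]; exact Real.sq_sqrt (by linarith [hu.1])
  have p1 : 0 < x1 := by rw [hx1]; exact Real.sqrt_pos.2 (by linarith [hu.1])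
  have p2 : x1 < x2 := by
    rw [hx1, hx2]
    exact Real.sqrt_lt_sqrt (by linarith [hu.1]) (by linarith)
  have p3 : x2 ≤ 1 := (sq_le_one_iff₀ (by linarith)).1 (by linarith)
  obtain ⟨β, hβ⟩ : ∃ β, β = x2 - x1 := ⟨_, rfl⟩
  have hβ0 : 0 ≤ β := by rw [hβ]; linarith
  have hβ1 : β ≤ 1 := by rw [hβ]; linarith
  obtain ⟨v, hv⟩ : ∃ v : E4, v = ‖u‖⁻¹ • u := ⟨_, rfl⟩
  have hvn : ‖v‖ = 1 := by
    rw [hv, norm_smul, norm_inv, norm_norm, inv_mul_cancel₀ hn.ne']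
  have hx : ∀ τ ∈ Set.Icc (0 : ℝ) 1, x1 ≤ x1 + β * τ ∧ x1 + β * τ ≤ x2 := by
    intro τ hτ
    constructor
    · linarith [mul_nonneg hβ0 hτ.1]
    · have : β * τ ≤ β * 1 := mul_le_mul_of_nonneg_left hτ.2 hβ0
      linarith
  have hnorm : ∀ x : ℝ, ‖(P.a + x ^ 2) • v‖ = P.a + x ^ 2 := by
    intro x
    rw [norm_smul, hvn, mul_one, Real.norm_of_nonneg (by positivity)]
  have hmem : ∀ x : ℝ, x1 ≤ x → x ≤ x2 → P.a < P.a + x ^ 2 ∧ P.a + x ^ 2 < sin P.K.t0 := by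
    intro x h1 h2
    have h3 : 0 < x := by linarith
    have h4 : 0 < x ^ 2 := by positivity
    have h5 : x ^ 2 ≤ x2 ^ 2 := pow_le_pow_left₀ h3.le h2 2
    constructor <;> linarith
  have key := Q.dist_path (i := i) (L := P.ρ) hρ.le
    (γ := fun τ : ℝ => (P.a + (x1 + β * τ) ^ 2) • v)
    (γ' := fun τ : ℝ => (2 * (x1 + β * τ) * β) • v)
    (fun τ hτ => hV (by
      obtain ⟨h1, h2⟩ := hmem _ (hx τ hτ).1 (hx τ hτ).2
      exact ⟨by rw [hnorm]; exact h1, by rw [hnorm]; exact h2⟩))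
    (fun τ _ => (Diam_curveF v P.a x1 β τ).hasDerivWithinAt)
    (fun τ hτ => by
      obtain ⟨x, hxx⟩ : ∃ x, x = x1 + β * τ := ⟨_, rfl⟩
      obtain ⟨k1, k2⟩ := hx τ hτ
      rw [← hxx] at k1 k2 ⊢
      obtain ⟨h1, h2⟩ := hmem x k1 k2
      have hU := Diam_U P h1 h2
      have hUp := (UW_pos P h1 h2).1
      obtain ⟨A, hA⟩ : ∃ A, A = P.a + x ^ 2 := ⟨_, rfl⟩
      have hA' := hnorm x
      rw [← hA] at h1 h2 hU hUp hA' ⊢
      have hA0 : 0 < A := lt_of_le_of_lt ha h1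
      have hx0 : 0 < x := by linarith
      have h3 : (2 * x * β) • v = (2 * x * β / A) • (A • v) := by
        rw [smul_smul, div_mul_cancel₀ _ hA0.ne']
      rw [hg, qf_smulMet, h3]
      unfold gF
      rw [Diam_qf_u2Z _ _ (by rw [hA']; exact hA0), hA']
      have h4 : (2 * x * β / A) ^ 2 * A ^ 2 = 4 * x ^ 2 * β ^ 2 := by
        field_simp
        ring
      rw [h4]
      have h5 : A - P.a = x ^ 2 := by rw [hA]; ring
      rw [h5] at hU
      have h6 : 4 * x ^ 2 * β ^ 2 / P.K.U P.a A ≤ 1 := by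
        rw [div_le_one hUp]
        have h7 : 3 / 4 * (x ^ 2 / A) = 3 / (4 * A) * x ^ 2 := by
          field_simp
        have h8 : 4 * β ^ 2 ≤ 3 / (4 * A) := by
          rw [le_div_iff₀ (by positivity)]
          have h9 : β ^ 2 ≤ 1 := pow_le_one₀ hβ0 hβ1
          linarith [mul_le_mul_of_nonneg_right h9 hA0.le]
        have h9 : 0 < x ^ 2 := by positivity
        calc 4 * x ^ 2 * β ^ 2 = 4 * β ^ 2 * x ^ 2 := by ring
          _ ≤ 3 / (4 * A) * x ^ 2 := mul_le_mul_of_nonneg_right h8 h9.le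
          _ = 3 / 4 * (x ^ 2 / A) := h7.symm
          _ ≤ _ := hU
      refine Real.sqrt_le_iff.2 ⟨hρ.le, ?_⟩
      have h7 : P.B.s ^ 2 * (4 * x ^ 2 * β ^ 2 / P.K.U P.a A) ≤ P.B.s ^ 2 * 1 :=
        mul_le_mul_of_nonneg_left h6 (sq_nonneg _)
      linarith only [pow_le_pow_left₀ hs.le (show P.B.s ≤ P.ρ by linarith) 2, hρs, h7])
  simp only [mul_zero, mul_one, add_zero] at key
  have hend : x1 + β = x2 := by rw [hβ]; ring
  have hstart : (P.a + x1 ^ 2) • v = u := by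
    rw [e1, hv, smul_smul]
    have : (P.a + (‖u‖ - P.a)) * ‖u‖⁻¹ = 1 := by
      rw [add_sub_cancel, mul_inv_cancel₀ hn.ne']
    rw [this, one_smul]
  rw [hstart, hend] at key
  refine ⟨(P.a + x2 ^ 2) • v, ?_, ?_, key⟩
  · obtain ⟨h1, h2⟩ := hmem x2 p2.le le_rfl
    exact ⟨by rw [hnorm]; exact h1, by rw [hnorm]; exact h2⟩
  · rw [hnorm, e2]
    linarith

/-! ### The charts of the bolt -/

theorem Diam_B {a b s : ℝ} (ha : 0 < a) (hab : a < b) (hs : 0 < s) (Q : Patchwork) {i : Q.ι}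
    (hV : {u | bA2 a u < b ^ 2} ⊆ Q.V i) (hg : Q.g i = smulMet (s ^ 2) (gB a)) {u : E4}
    (hu : bA2 a u < b ^ 2) :
    ∃ e, bA2 a e < b ^ 2 ∧ a < √(bA2 a e) ∧ dist (Q.ψ i u) (Q.ψ i e) ≤ s := by
  have key : ∀ e : E4, cB e ≠ 0 → a < √(bA2 a e) := by
    intro e he
    have h1 : 0 < ‖cB e‖ := norm_pos_iff.2 he
    rw [bA2_eq]
    refine Real.lt_sqrt_of_sq_lt ?_
    refine Real.lt_sqrt_of_sq_lt ?_
    have : 0 < ‖cB e‖ ^ 2 := by positivity
    linarith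
  rcases eq_or_ne (cB u) 0 with h0 | h0
  · have hb : 0 < b := ha.trans hab
    have hab4 : a ^ 4 < b ^ 4 := pow_lt_pow_left₀ hab ha.le (by norm_num)
    obtain ⟨d, hd0, hda, hdb⟩ : ∃ d : ℝ, 0 < d ∧ d ≤ a ∧ a ^ 4 + d ^ 2 < b ^ 4 := by
      refine ⟨min a (√((b ^ 4 - a ^ 4) / 2)), lt_min ha (Real.sqrt_pos.2 (by linarith)),
        min_le_left _ _, ?_⟩
      have h1 : min a (√((b ^ 4 - a ^ 4) / 2)) ^ 2 ≤ √((b ^ 4 - a ^ 4) / 2) ^ 2 :=
        pow_le_pow_left₀ (le_min ha.le (Real.sqrt_nonneg _)) (min_le_right _ _) 2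
      rw [Real.sq_sqrt (by linarith)] at h1
      linarith
    have hu23 : u 2 = 0 ∧ u 3 = 0 := by
      constructor
      · rw [← cB_re, h0, Complex.zero_re]
      · rw [← cB_im, h0, Complex.zero_im]
    obtain ⟨w, hw⟩ : ∃ w : E4, w = WithLp.toLp 2 ![0, 0, d, 0] := ⟨_, rfl⟩
    have w0 : w 0 = 0 ∧ w 1 = 0 ∧ w 2 = d ∧ w 3 = 0 := by
      rw [hw]
      exact ⟨rfl, rfl, rfl, rfl⟩
    have hbA : ∀ θ : ℝ, bA2 a (u + θ • w) = √(a ^ 4 + (θ * d) ^ 2) := by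
      intro θ
      unfold bA2
      congr 2
      simp only [PiLp.add_apply, PiLp.smul_apply, smul_eq_mul]
      rw [hu23.1, hu23.2, w0.2.2.1, w0.2.2.2]
      ring
    have hlt : ∀ θ ∈ Set.Icc (0 : ℝ) 1, bA2 a (u + θ • w) < b ^ 2 := by
      intro θ hθ
      rw [hbA, Real.sqrt_lt' (by positivity)]
      have h1 : (θ * d) ^ 2 ≤ d ^ 2 := by
        rw [mul_pow]
        have : θ ^ 2 ≤ 1 := pow_le_one₀ hθ.1 hθ.2
        linarith [mul_le_mul_of_nonneg_right this (sq_nonneg d)]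
      calc a ^ 4 + (θ * d) ^ 2 ≤ a ^ 4 + d ^ 2 := by linarith
        _ < b ^ 4 := hdb
        _ = (b ^ 2) ^ 2 := by ring
    have h1 : u + w ∈ {u | bA2 a u < b ^ 2} := by
      have := hlt 1 ⟨zero_le_one, le_rfl⟩
      rw [one_smul] at this
      exact this
    refine ⟨u + w, h1, key _ ?_, Q.dist_segment hs.le ?_ ?_⟩
    · intro h
      have h2 : (cB (u + w)).re = d := by
        rw [cB_re]
        simp only [PiLp.add_apply]
        rw [hu23.1, w0.2.2.1, zero_add]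
      rw [h, Complex.zero_re] at h2
      linarith
    · intro c hc
      rw [segment_eq_image'] at hc
      obtain ⟨θ, hθ, rfl⟩ := hc
      beta_reduce
      apply hV
      have := hlt θ hθ
      simpa using this
    · intro c hc
      rw [segment_eq_image'] at hc
      obtain ⟨θ, hθ, rfl⟩ := hc
      beta_reduce
      rw [add_sub_cancel_left, hg, qf_smulMet]
      have h2 : a ^ 2 ≤ bA2 a (u + θ • w) := by
        rw [hbA]
        refine Real.le_sqrt_of_sq_le ?_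
        linarith [sq_nonneg (θ * d)]
      have h3 : qf (gB a (u + θ • w)) w ≤ 1 := by
        obtain ⟨q0, q1, q2, q3⟩ := w0
        have h4 : qf (gB a (u + θ • w)) w = d ^ 2 / (4 * bA2 a (u + θ • w)) := by
          rw [qf_gB, q0, q1, q2, q3]
          ring
        have h5 := bA2_pos ha (u + θ • w)
        rw [h4, div_le_one (by positivity)]
        linarith [pow_le_pow_left₀ hd0.le hda 2, sq_nonneg a]
      refine Real.sqrt_le_iff.2 ⟨hs.le, ?_⟩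
      linarith [mul_le_mul_of_nonneg_left h3 (sq_nonneg s)]
  · exact ⟨u, hu, key u h0, by rw [dist_self]; exact hs.le⟩

/-! ### The block in the space -/

section

variable (K : Core) (N : ℕ∞) (hN : 2 ≤ N) {k : ℕ}

theorem Diam_V_B (j : Fin 3) : (sp K N hN).V (ixB K N hN k j) =
    {u | (1 ≤ k ∧ (k : ℕ∞) ≤ N) ∧ u ∈ blkV (spBlk K N k) j} := rfl

theorem Diam_g_B (j : Fin 3) : (sp K N hN).g (ixB K N hN k j) =
    smulMet ((spBlk K N k).B.s ^ 2) (blkG (spBlk K N k) j) := rfl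

theorem Diam_V_E (j : EHI) : (sp K N hN).V (ixE K N hN k j) =
    {u | (1 ≤ k ∧ (k : ℕ∞) ≤ N) ∧ (N ≠ ⊤ ∧ u ∈ ehV (blkEHD (spBlk K N k)) j)} := rfl

theorem Diam_g_E (j : EHI) : (sp K N hN).g (ixE K N hN k j) =
    smulMet ((spBlk K N k).B.s ^ 2) (ehg (blkEHD (spBlk K N k)) j) := rfl

theorem Diam_psi {i j : (spP K N hN).ι} {a b : E4} (ha : a ∈ (sp K N hN).V i)
    (hb : b ∈ (sp K N hN).V j) (h : (spP K N hN).ψ i a = (spP K N hN).ψ j b) :
    (sp K N hN).ψ i a = (sp K N hN).ψ j b :=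
  (PreP.Pre_cpsi_iff (spP K N hN) (spBase K N hN) ha hb).2 h

/-- The map from the points of the block with its bolt. -/
noncomputable def Diam_inc (k : ℕ) (p : (bP (spBlk K N k) (N ≠ ⊤)).Pt) : (spP K N hN).Pt :=
  Sum.inl (PreP.glueMap (spFam K N hN).glueData (⟨k, p⟩ : Σ k : ℕ, ((spFam K N hN).Q k).Pt))

theorem Diam_psi_B (j : Fin 3) (a : E4) : (spP K N hN).ψ (ixB K N hN k j) a =
    Diam_inc K N hN k (Sum.inl (blkPsi (spBlk K N k) j a)) := rfl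

theorem Diam_psi_E (j : EHI) (a : E4) : (spP K N hN).ψ (ixE K N hN k j) a =
    Diam_inc K N hN k (PreP.glueMap (bGlue (spBlk K N k) (N ≠ ⊤))
      ((ehP (blkEHD (spBlk K N k))).ψ j a)) := rfl

theorem Diam_BB {i j : Fin 3} {a b : E4} (ha : a ∈ (sp K N hN).V (ixB K N hN k i))
    (hb : b ∈ (sp K N hN).V (ixB K N hN k j))
    (h : blkPsi (spBlk K N k) i a = blkPsi (spBlk K N k) j b) :
    (sp K N hN).ψ (ixB K N hN k i) a = (sp K N hN).ψ (ixB K N hN k j) b := by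
  refine Diam_psi K N hN ha hb ?_
  rw [Diam_psi_B, Diam_psi_B, h]

theorem Diam_EE {i j : EHI} {a b : E4} (ha : a ∈ (sp K N hN).V (ixE K N hN k i))
    (hb : b ∈ (sp K N hN).V (ixE K N hN k j))
    (h : (ehP (blkEHD (spBlk K N k))).ψ i a = (ehP (blkEHD (spBlk K N k))).ψ j b) :
    (sp K N hN).ψ (ixE K N hN k i) a = (sp K N hN).ψ (ixE K N hN k j) b := by
  refine Diam_psi K N hN ha hb ?_
  rw [Diam_psi_E, Diam_psi_E, h]

theorem Diam_EF {a : E4} (ha : a ∈ (sp K N hN).V (ixE K N hN k EHI.F)) :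
    a ∈ (sp K N hN).V (ixB K N hN k 2) ∧
      (sp K N hN).ψ (ixE K N hN k EHI.F) a = (sp K N hN).ψ (ixB K N hN k 2) a := by
  have ha' := ha
  rw [Diam_V_E] at ha'
  obtain ⟨h1, h2, h3⟩ := ha'
  have h4 : a ∈ (sp K N hN).V (ixB K N hN k 2) := ⟨h1, h3.1, h3.2⟩
  refine ⟨h4, Diam_psi K N hN ha h4 ?_⟩
  rw [Diam_psi_E, Diam_psi_B]
  congr 1
  have h5 : 0 < (bGlue (spBlk K N k) (N ≠ ⊤)).rQ ((ehP (blkEHD (spBlk K N k))).ψ EHI.F a) := by
    have h6 : ehR (WPt.mk ehm (ehs (spBlk K N k).a EHI.F a)) = ‖a‖ := ehR_F _ _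
    change 0 < ehR (WPt.mk ehm (ehs (spBlk K N k).a EHI.F a)) - (spBlk K N k).a
    rw [h6]
    have h7 : (spBlk K N k).a < ‖a‖ := h3.1
    linarith
  exact PreP.glueMap_of_pos (bGlue (spBlk K N k) (N ≠ ⊤)) (d := EHI.F) rfl (u := a) ⟨h2, h3⟩ h5

/-- Every point of the patches D, E, F is near the sphere. -/
theorem Diam_reach_B (hk : 1 ≤ k) (hkN : (k : ℕ∞) ≤ N) (j : Fin 3) {a : E4}
    (ha : a ∈ (sp K N hN).V (ixB K N hN k j)) : ∃ b : E4, ‖b‖ = Diam_t (spBlk K N k) ∧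
      dist ((sp K N hN).ψ (ixB K N hN k j) a) ((sp K N hN).ψ (ixB K N hN k 0) b) ≤
        4 * spRad K N k := by
  have hρ : (spBlk K N k).ρ = spRad K N k := rfl
  have hρ0 := spRad_pos K N k
  have hVD : VD (spBlk K N k) ⊆ (sp K N hN).V (ixB K N hN k 0) := fun u hu => ⟨⟨hk, hkN⟩, hu⟩
  have hVE : VE (spBlk K N k) ⊆ (sp K N hN).V (ixB K N hN k 1) := fun u hu => ⟨⟨hk, hkN⟩, hu⟩
  have hVF : VF (spBlk K N k) ⊆ (sp K N hN).V (ixB K N hN k 2) := fun u hu => ⟨⟨hk, hkN⟩, hu⟩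
  have hD : ∀ u ∈ VD (spBlk K N k), ∃ b : E4, ‖b‖ = Diam_t (spBlk K N k) ∧
      dist ((sp K N hN).ψ (ixB K N hN k 0) u) ((sp K N hN).ψ (ixB K N hN k 0) b) ≤
        2 * spRad K N k := by
    intro u hu
    obtain ⟨h1, h2⟩ := Diam_D_radial (spBlk K N k) (sp K N hN) hVD (Diam_g_B K N hN 0) hu
    exact ⟨_, h1, h2⟩
  have hE : ∀ u ∈ VE (spBlk K N k), ∃ b : E4, ‖b‖ = Diam_t (spBlk K N k) ∧
      dist ((sp K N hN).ψ (ixB K N hN k 1) u) ((sp K N hN).ψ (ixB K N hN k 0) b) ≤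
        3 * spRad K N k := by
    intro u hu
    obtain ⟨e, h1, h2, h3⟩ := Diam_E (spBlk K N k) (sp K N hN) hVE (Diam_g_B K N hN 1) hu
    obtain ⟨h4, h5⟩ := Diam_E_VD (spBlk K N k) h1 h2
    obtain ⟨b, h6, h7⟩ := hD _ h4
    have h8 := Diam_BB K N hN (hVD h4) (hVE h1) h5
    rw [h8] at h7
    refine ⟨b, h6, (dist_triangle _ ((sp K N hN).ψ (ixB K N hN k 1) e) _).trans ?_⟩
    rw [hρ] at h3
    linarith
  have hF : ∀ u ∈ VF (spBlk K N k), ∃ b : E4, ‖b‖ = Diam_t (spBlk K N k) ∧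
      dist ((sp K N hN).ψ (ixB K N hN k 2) u) ((sp K N hN).ψ (ixB K N hN k 0) b) ≤
        4 * spRad K N k := by
    intro u hu
    obtain ⟨e, h1, h2, h3⟩ := Diam_F (spBlk K N k) (sp K N hN) hVF (Diam_g_B K N hN 2) hu
    rw [hρ] at h3
    rcases Diam_F_mem (spBlk K N k) h1 h2 with ⟨h4, h5⟩ | ⟨h4, h5⟩
    · obtain ⟨b, h6, h7⟩ := hE _ h4
      have h8 := Diam_BB K N hN (hVE h4) (hVF h1) h5
      rw [h8] at h7
      exact ⟨b, h6, (dist_triangle _ ((sp K N hN).ψ (ixB K N hN k 2) e) _).trans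
        (by linarith)⟩
    · obtain ⟨b, h6, h7⟩ := hD _ h4
      have h8 := Diam_BB K N hN (hVD h4) (hVF h1) h5
      rw [h8] at h7
      exact ⟨b, h6, (dist_triangle _ ((sp K N hN).ψ (ixB K N hN k 2) e) _).trans
        (by linarith)⟩
  fin_cases j
  · obtain ⟨b, h1, h2⟩ := hD a ha.2
    exact ⟨b, h1, h2.trans (by linarith)⟩
  · obtain ⟨b, h1, h2⟩ := hE a ha.2
    exact ⟨b, h1, h2.trans (by linarith)⟩
  · exact hF a ha.2

theorem Diam_reach (hk : 1 ≤ k) (hkN : (k : ℕ∞) ≤ N) {p : (sp K N hN).Pt}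
    (hp : p ∈ UB K N hN k) : ∃ b : E4, ‖b‖ = Diam_t (spBlk K N k) ∧
      dist p ((sp K N hN).ψ (ixB K N hN k 0) b) ≤ 5 * spRad K N k := by
  have hρ0 := spRad_pos K N k
  have hρ : (spBlk K N k).ρ = spRad K N k := rfl
  obtain ⟨hs, -, -, -, hρs, -, -⟩ := Diam_par (spBlk K N k)
  rw [hρ] at hρs
  have hF : ∀ u ∈ (sp K N hN).V (ixE K N hN k EHI.F), ∃ b : E4,
      ‖b‖ = Diam_t (spBlk K N k) ∧
      dist ((sp K N hN).ψ (ixE K N hN k EHI.F) u) ((sp K N hN).ψ (ixB K N hN k 0) b) ≤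
        4 * spRad K N k := by
    intro u hu
    obtain ⟨h1, h2⟩ := Diam_EF K N hN hu
    rw [h2]
    exact Diam_reach_B K N hN hk hkN 2 h1
  have hB : ∀ (j : EHI), (∀ u, u ∈ ehV (blkEHD (spBlk K N k)) j ↔
      0 < (spBlk K N k).a ∧ bA2 (spBlk K N k).a u < ((spBlk K N k).K.A0 / 2) ^ 2) →
      (sp K N hN).g (ixE K N hN k j) = smulMet ((spBlk K N k).B.s ^ 2) (gB (spBlk K N k).a) →
      (∀ u, 0 < (spBlk K N k).a → ehR (WPt.mk ehm (ehs (spBlk K N k).a j u)) =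
        √(bA2 (spBlk K N k).a u)) →
      ∀ u ∈ (sp K N hN).V (ixE K N hN k j), ∃ b : E4, ‖b‖ = Diam_t (spBlk K N k) ∧
      dist ((sp K N hN).ψ (ixE K N hN k j) u) ((sp K N hN).ψ (ixB K N hN k 0) b) ≤
        5 * spRad K N k := by
    intro j hj hgj hRj u hu
    obtain ⟨h1, h2, h3⟩ := hu
    have h4 := (hj u).1 h3
    obtain ⟨e, h5, h6, h7⟩ := Diam_B h4.1 (spBlk K N k).a_lt hs (sp K N hN)
      (i := ixE K N hN k j) (fun u hu => ⟨h1, h2, (hj u).2 ⟨h4.1, hu⟩⟩) hgj h4.2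
    have h8 : e ∈ ehV (blkEHD (spBlk K N k)) j := (hj e).2 ⟨h4.1, h5⟩
    obtain ⟨f, h9, h10⟩ := eh_exists_F (blkEHD (spBlk K N k)) h8 (by
      have : ehR (WPt.mk ehm (ehs (spBlk K N k).a j e)) = √(bA2 (spBlk K N k).a e) :=
        hRj e h4.1
      change (spBlk K N k).a < ehR (WPt.mk ehm (ehs (spBlk K N k).a j e))
      rw [this]
      exact h6)
    have h11 : f ∈ (sp K N hN).V (ixE K N hN k EHI.F) := ⟨h1, h2, h9⟩
    have h12 : e ∈ (sp K N hN).V (ixE K N hN k j) := ⟨h1, h2, h8⟩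
    have h13 := Diam_EE K N hN h11 h12 h10
    obtain ⟨b, h14, h15⟩ := hF f h11
    rw [h13] at h15
    exact ⟨b, h14, (dist_triangle _ ((sp K N hN).ψ (ixE K N hN k j) e) _).trans
      (by linarith)⟩
  rcases hp with ⟨j, a, ha, rfl⟩ | ⟨j, a, ha, rfl⟩
  · obtain ⟨b, h1, h2⟩ := Diam_reach_B K N hN hk hkN j ha
    exact ⟨b, h1, h2.trans (by linarith)⟩
  · cases j
    · obtain ⟨b, h1, h2⟩ := hF a ha
      exact ⟨b, h1, h2.trans (by linarith)⟩
    · exact hB EHI.B1 (fun _ => Iff.rfl) rfl (fun u h => ehR_B1 h u) a ha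
    · exact hB EHI.B2 (fun _ => Iff.rfl) rfl (fun u h => ehR_B2 h u) a ha

end

theorem isOpen_UB (K : Core) (N : ℕ∞) (hN : 2 ≤ N) (k : ℕ) : IsOpen (UB K N hN k) := by
  rw [isOpen_iff_mem_nhds]
  rintro p (⟨j, a, ha, rfl⟩ | ⟨j, a, ha, rfl⟩)
  · have h1 := (sp K N hN).image_mem_nhds ha (((sp K N hN).isOpen_V _).mem_nhds ha)
    refine mem_of_superset h1 ?_
    rintro _ ⟨b, hb, rfl⟩
    exact Or.inl ⟨j, b, hb, rfl⟩
  · have h1 := (sp K N hN).image_mem_nhds ha (((sp K N hN).isOpen_V _).mem_nhds ha)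
    refine mem_of_superset h1 ?_
    rintro _ ⟨b, hb, rfl⟩
    exact Or.inr ⟨j, b, hb, rfl⟩

theorem UB_diam (K : Core) (N : ℕ∞) (hN : 2 ≤ N) {k : ℕ} (hk : 1 ≤ k) (hkN : (k : ℕ∞) ≤ N)
    {p q : (sp K N hN).Pt} (hp : p ∈ UB K N hN k) (hq : q ∈ UB K N hN k) :
    dist p q ≤ 30 * spRad K N k := by
  have hρ0 := spRad_pos K N k
  obtain ⟨b, h1, h2⟩ := Diam_reach K N hN hk hkN hp
  obtain ⟨c, h3, h4⟩ := Diam_reach K N hN hk hkN hq
  have hVD : VD (spBlk K N k) ⊆ (sp K N hN).V (ixB K N hN k 0) := fun u hu => ⟨⟨hk, hkN⟩, hu⟩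
  have h5 : dist ((sp K N hN).ψ (ixB K N hN k 0) b) ((sp K N hN).ψ (ixB K N hN k 0) c) ≤
      4 * spRad K N k :=
    Diam_sphere (spBlk K N k) (sp K N hN) hVD (Diam_g_B K N hN 0) h1 h3
  rw [dist_comm] at h4
  have h6 := dist_triangle4 p ((sp K N hN).ψ (ixB K N hN k 0) b)
    ((sp K N hN).ψ (ixB K N hN k 0) c) q
  linarith

end Pool.Agent.W_MP_654ec6
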