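import Pool.Agent.W_MP_654ec6.B.LipIff
import Pool.Agent.W_MP_654ec6.F.EH

/-!
# Distances in the Eguchi-Hanson charts

Let a patchwork contain the patches of an Eguchi-Hanson space, scaled by `c`. A point of radius
`A < b` has distance at most `c (A + 3 a)` from the centre of the chart `B1`: the curve `(v, t² ζ)` of the
chart has speed at most `A`, and the bolt `ζ = 0` has the metric `a² |dv|²/(1 + |v|²)²`. In the patch `F`
the radial segments from radius `A` to radius `A'` have length at most `2 c |A - A'|` where `U ≥ 1/4`.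
-/

open scoped ContDiff Topology ComplexConjugate
open Filter Real

namespace Pool.Agent.W_MP_654ec6

/-- The patchwork contains the Eguchi-Hanson space, scaled by `c`. -/
structure EHIn (P : Patchwork) (E : EHDat) (idx : EHI → P.ι) (c : ℝ) : Prop where
  c_nonneg : 0 ≤ c
  hV : ∀ j, ehV E j ⊆ P.V (idx j)
  hg : ∀ j, ∀ x v : E4, √(qf (P.g (idx j) x) v) = c * √(qf (ehg E j x) v)
  hψ : ∀ i j, ∀ u ∈ ehV E i, ∀ v ∈ ehV E j,
    WPt.mk ehm (ehs E.a i u) = WPt.mk ehm (ehs E.a j v) → P.ψ (idx i) u = P.ψ (idx j) v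

namespace EHIn

variable {P : Patchwork} {E : EHDat} {idx : EHI → P.ι} {c : ℝ}

theorem sepEH_bA2_toE (a : ℝ) (v w : ℂ) : bA2 a (toE v w) = √(a ^ 4 + ‖w‖ ^ 2) := by
  rw [bA2_eq, cB_toE]

/-- In a bolt chart: the curve `(v, t² ζ)`. -/
theorem dist_zeta (h : EHIn P E idx c) (ha : 0 < E.a) {j : EHI} (hj : ehV E j =
    {u | 0 < E.a ∧ bA2 E.a u < E.b ^ 2}) (hg : ehg E j = gB E.a) {u : E4} (hu : u ∈ ehV E j) :
    dist (P.ψ (idx j) (toE (cA u) 0)) (P.ψ (idx j) u) ≤ c * √(bA2 E.a u) := by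
  have hL : 0 ≤ c * √(bA2 E.a u) := mul_nonneg h.c_nonneg (Real.sqrt_nonneg _)
  have key := P.dist_path hL (i := idx j)
    (γ := fun t => toE (cA u) (((t ^ 2 : ℝ) : ℂ) * cB u))
    (γ' := fun t => toE 0 (((2 * t : ℝ) : ℂ) * cB u)) ?_ ?_ ?_
  · have e0 : toE (cA u) ((((0 : ℝ) ^ 2 : ℝ) : ℂ) * cB u) = toE (cA u) 0 := by simp
    have e1 : toE (cA u) ((((1 : ℝ) ^ 2 : ℝ) : ℂ) * cB u) = u := by simp [toE_eta]
    simp only [e0, e1] at key
    exact key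
  · intro t ht
    apply h.hV
    rw [hj] at hu ⊢
    refine ⟨ha, ?_⟩
    refine lt_of_le_of_lt ?_ hu.2
    rw [sepEH_bA2_toE, bA2_eq]
    apply Real.sqrt_le_sqrt
    have h1 : ‖((t ^ 2 : ℝ) : ℂ) * cB u‖ = t ^ 2 * ‖cB u‖ := by
      rw [norm_mul, Complex.norm_real, Real.norm_eq_abs, abs_of_nonneg (sq_nonneg t)]
    rw [h1]
    have h2 : t ^ 2 ≤ 1 := by nlinarith [ht.1, ht.2]
    have h3 : t ^ 2 * ‖cB u‖ ≤ ‖cB u‖ := by nlinarith [norm_nonneg (cB u)]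
    have h4 : 0 ≤ t ^ 2 * ‖cB u‖ := by positivity
    nlinarith [norm_nonneg (cB u)]
  · intro t ht
    have h1 : HasDerivAt (fun t : ℝ => t ^ 2) (2 * t) t := by
      simpa using hasDerivAt_pow 2 t
    apply HasDerivAt.hasDerivWithinAt
    have h2 : HasDerivAt (fun t : ℝ => toE (cA u) 0 + (t ^ 2) • toE 0 (cB u))
        ((2 * t) • toE 0 (cB u)) t := (h1.smul_const (toE 0 (cB u))).const_add _
    have e1 : ∀ s : ℝ, toE (cA u) (((s ^ 2 : ℝ) : ℂ) * cB u) =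
        toE (cA u) 0 + (s ^ 2) • toE 0 (cB u) := by
      intro s
      ext i
      fin_cases i <;> simp [toE] <;> simp [← Complex.ofReal_pow]
    have e2 : toE 0 (((2 * t : ℝ) : ℂ) * cB u) = (2 * t) • toE 0 (cB u) := by
      ext i
      fin_cases i <;> simp [toE]
    simp only [e1, e2]
    exact h2
  · intro t ht
    rw [h.hg, hg]
    apply mul_le_mul_of_nonneg_left _ h.c_nonneg
    apply Real.sqrt_le_sqrt
    rw [qf_gB', cA_toE, cB_toE, cA_toE, cB_toE]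
    simp only [mul_zero, Complex.zero_im, zero_div, Complex.ofReal_zero, zero_mul, add_zero,
      map_zero]
    rw [Complex.normSq_mul, Complex.normSq_ofReal, sepEH_bA2_toE]
    have h1 : ‖((t ^ 2 : ℝ) : ℂ) * cB u‖ = t ^ 2 * ‖cB u‖ := by
      rw [norm_mul, Complex.norm_real, Real.norm_eq_abs, abs_of_nonneg (sq_nonneg t)]
    rw [h1, bA2_eq]
    have ha4 : 0 < E.a ^ 4 := by positivity
    have h5 : 0 < √(E.a ^ 4 + (t ^ 2 * ‖cB u‖) ^ 2) := Real.sqrt_pos.2 (by positivity)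
    rw [div_le_iff₀ (by positivity), ← Complex.sq_norm]
    have h2 : t ^ 2 * ‖cB u‖ ≤ √(E.a ^ 4 + (t ^ 2 * ‖cB u‖) ^ 2) :=
      Real.le_sqrt_of_sq_le (by linarith)
    have h3 : ‖cB u‖ ≤ √(E.a ^ 4 + ‖cB u‖ ^ 2) := Real.le_sqrt_of_sq_le (by linarith)
    have h4 := mul_le_mul h3 h2 (by positivity) (Real.sqrt_nonneg _)
    nlinarith

/-- In a bolt chart, on the bolt, `|v| ≤ 1`. -/
theorem dist_bolt (h : EHIn P E idx c) (ha : 0 < E.a) {j : EHI} (hj : ehV E j =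
    {u | 0 < E.a ∧ bA2 E.a u < E.b ^ 2}) (hg : ehg E j = gB E.a) {v : ℂ} (hv : ‖v‖ ≤ 1) :
    dist (P.ψ (idx j) (toE v 0)) (P.ψ (idx j) (toE 0 0)) ≤ c * E.a := by
  have hL : 0 ≤ c * E.a := mul_nonneg h.c_nonneg ha.le
  have hseg : ∀ x ∈ segment ℝ (toE v 0) (toE 0 0), ∃ w : ℂ, x = toE w 0 := by
    intro x hx
    rw [segment_eq_image'] at hx
    obtain ⟨s, hs, rfl⟩ := hx
    refine ⟨v - s * v, ?_⟩
    ext i
    fin_cases i <;> simp [toE] <;> ring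
  have hb : ∀ w : ℂ, bA2 E.a (toE w 0) = E.a ^ 2 := by
    intro w
    rw [sepEH_bA2_toE, norm_zero]
    have : E.a ^ 4 + 0 ^ 2 = (E.a ^ 2) ^ 2 := by ring
    rw [this, Real.sqrt_sq (by positivity)]
  refine P.dist_segment hL ?_ ?_
  · intro x hx
    obtain ⟨w, rfl⟩ := hseg x hx
    apply h.hV
    rw [hj]
    refine ⟨ha, ?_⟩
    rw [hb]
    have := E.a_lt
    have h2 := E.a_nonneg
    nlinarith
  · intro x hx
    obtain ⟨w, rfl⟩ := hseg x hx
    rw [h.hg, hg]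
    apply mul_le_mul_of_nonneg_left _ h.c_nonneg
    rw [Real.sqrt_le_left ha.le, qf_gB', cA_toE, cB_toE, hb]
    have e1 : cA (toE 0 0 - toE v 0) = -v := by rw [map_sub, cA_toE, cA_toE, zero_sub]
    have e2 : cB (toE 0 0 - toE v 0) = 0 := by rw [map_sub, cB_toE, cB_toE, sub_zero]
    rw [e1, e2]
    simp only [mul_zero, add_zero, map_zero, zero_div, zero_add]
    rw [Complex.normSq_neg, ← Complex.sq_norm]
    have h1 := bD_pos (toE w 0)
    have h2 : 1 ≤ bD (toE w 0) := by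
      rw [bD_eq]
      nlinarith [norm_nonneg (cA (toE w 0))]
    have h3 : ‖v‖ ^ 2 ≤ bD (toE w 0) ^ 2 := by nlinarith [norm_nonneg v]
    rw [div_mul_eq_mul_div, div_le_iff₀ (by positivity)]
    exact mul_le_mul_of_nonneg_left h3 (by positivity)

theorem hj1 : ehV E EHI.B1 = {u | 0 < E.a ∧ bA2 E.a u < E.b ^ 2} := rfl
theorem hj2 : ehV E EHI.B2 = {u | 0 < E.a ∧ bA2 E.a u < E.b ^ 2} := rfl

theorem sepEH_thBB (v : ℂ) : thBB (toE v 0) = toE (1 / v) 0 := by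
  unfold thBB
  rw [cA_toE, cB_toE, zero_mul]

theorem sepEH_bolt_mem (ha : 0 < E.a) (w : ℂ) :
    0 < E.a ∧ bA2 E.a (toE w 0) < E.b ^ 2 := by
  refine ⟨ha, ?_⟩
  rw [sepEH_bA2_toE, norm_zero]
  have : E.a ^ 4 + 0 ^ 2 = (E.a ^ 2) ^ 2 := by ring
  rw [this, Real.sqrt_sq (by positivity)]
  have := E.a_lt
  have h2 := E.a_nonneg
  nlinarith

/-- The two centres of the bolt. -/
theorem dist_centres (h : EHIn P E idx c) (ha : 0 < E.a) :
    dist (P.ψ (idx EHI.B2) (toE 0 0)) (P.ψ (idx EHI.B1) (toE 0 0)) ≤ 2 * (c * E.a) := by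
  have h1 := h.dist_bolt ha hj1 rfl (v := 1) (by simp)
  have h2 := h.dist_bolt ha hj2 rfl (v := 1) (by simp)
  have h3 : P.ψ (idx EHI.B2) (toE 1 0) = P.ψ (idx EHI.B1) (toE 1 0) := by
    apply h.hψ _ _ _ (sepEH_bolt_mem ha 1) _ (sepEH_bolt_mem ha 1)
    have h4 := eh_BB2' (a := E.a) (y := toE 1 0) ha (by rw [cA_toE]; exact one_ne_zero)
    rw [sepEH_thBB, div_one] at h4
    exact h4
  calc dist (P.ψ (idx EHI.B2) (toE 0 0)) (P.ψ (idx EHI.B1) (toE 0 0))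
      ≤ dist (P.ψ (idx EHI.B2) (toE 0 0)) (P.ψ (idx EHI.B2) (toE 1 0)) +
        dist (P.ψ (idx EHI.B2) (toE 1 0)) (P.ψ (idx EHI.B1) (toE 0 0)) := dist_triangle _ _ _
    _ ≤ c * E.a + c * E.a := by
        apply add_le_add
        · rw [dist_comm]; exact h2
        · rw [h3]; exact h1
    _ = 2 * (c * E.a) := by ring

/-- A point of the bolt. -/
theorem dist_bolt1 (h : EHIn P E idx c) (ha : 0 < E.a) (v : ℂ) :
    dist (P.ψ (idx EHI.B1) (toE v 0)) (P.ψ (idx EHI.B1) (toE 0 0)) ≤ 3 * (c * E.a) := by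
  have hc := mul_nonneg h.c_nonneg ha.le
  rcases le_or_gt ‖v‖ 1 with hv | hv
  · have := h.dist_bolt ha hj1 rfl hv
    linarith
  · have hv0 : v ≠ 0 := by
      rintro rfl
      simp at hv
      linarith
    have h3 : P.ψ (idx EHI.B2) (toE (1 / v) 0) = P.ψ (idx EHI.B1) (toE v 0) := by
      apply h.hψ _ _ _ (sepEH_bolt_mem ha _) _ (sepEH_bolt_mem ha _)
      have h4 := eh_BB2' (a := E.a) (y := toE v 0) ha (by rw [cA_toE]; exact hv0)
      rwa [sepEH_thBB] at h4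
    have h5 : ‖1 / v‖ ≤ 1 := by
      rw [norm_div, norm_one]
      exact (div_le_one (by linarith)).2 hv.le
    have h6 := h.dist_bolt ha hj2 rfl h5
    have h7 := h.dist_centres ha
    rw [← h3]
    calc dist (P.ψ (idx EHI.B2) (toE (1 / v) 0)) (P.ψ (idx EHI.B1) (toE 0 0))
        ≤ dist (P.ψ (idx EHI.B2) (toE (1 / v) 0)) (P.ψ (idx EHI.B2) (toE 0 0)) +
          dist (P.ψ (idx EHI.B2) (toE 0 0)) (P.ψ (idx EHI.B1) (toE 0 0)) := dist_triangle _ _ _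
      _ ≤ 3 * (c * E.a) := by linarith

theorem dist_bolt2 (h : EHIn P E idx c) (ha : 0 < E.a) (v : ℂ) :
    dist (P.ψ (idx EHI.B2) (toE v 0)) (P.ψ (idx EHI.B1) (toE 0 0)) ≤ 3 * (c * E.a) := by
  have hc := mul_nonneg h.c_nonneg ha.le
  rcases le_or_gt ‖v‖ 1 with hv | hv
  · have h6 := h.dist_bolt ha hj2 rfl hv
    have h7 := h.dist_centres ha
    calc dist (P.ψ (idx EHI.B2) (toE v 0)) (P.ψ (idx EHI.B1) (toE 0 0))
        ≤ dist (P.ψ (idx EHI.B2) (toE v 0)) (P.ψ (idx EHI.B2) (toE 0 0)) +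
          dist (P.ψ (idx EHI.B2) (toE 0 0)) (P.ψ (idx EHI.B1) (toE 0 0)) := dist_triangle _ _ _
      _ ≤ 3 * (c * E.a) := by linarith
  · have hv0 : v ≠ 0 := by
      rintro rfl
      simp at hv
      linarith
    have hv1 : (1 : ℂ) / v ≠ 0 := one_div_ne_zero hv0
    have h3 : P.ψ (idx EHI.B2) (toE v 0) = P.ψ (idx EHI.B1) (toE (1 / v) 0) := by
      apply h.hψ _ _ _ (sepEH_bolt_mem ha _) _ (sepEH_bolt_mem ha _)
      have h4 := eh_BB2' (a := E.a) (y := toE (1 / v) 0) ha (by rw [cA_toE]; exact hv1)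
      rwa [sepEH_thBB, one_div_one_div] at h4
    have h5 : ‖1 / v‖ ≤ 1 := by
      rw [norm_div, norm_one]
      exact (div_le_one (by linarith)).2 hv.le
    have h6 := h.dist_bolt ha hj1 rfl h5
    rw [h3]
    linarith

/-- A point of radius `A < b`. -/
theorem dist_centre (h : EHIn P E idx c) (ha : 0 < E.a) {j : EHI} {u : E4} (hu : u ∈ ehV E j)
    (hA : ehR (WPt.mk ehm (ehs E.a j u)) < E.b) :
    dist (P.ψ (idx j) u) (P.ψ (idx EHI.B1) (toE 0 0)) ≤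
      c * (ehR (WPt.mk ehm (ehs E.a j u)) + 3 * E.a) := by
  have hB1 : ∀ y : E4, bA2 E.a y < E.b ^ 2 → dist (P.ψ (idx EHI.B1) y)
      (P.ψ (idx EHI.B1) (toE 0 0)) ≤ c * (√(bA2 E.a y) + 3 * E.a) := by
    intro y hy
    have h1 := h.dist_zeta ha hj1 rfl (u := y) ⟨ha, hy⟩
    have h2 := h.dist_bolt1 ha (cA y)
    rw [dist_comm] at h1
    have h3 := dist_triangle (P.ψ (idx EHI.B1) y) (P.ψ (idx EHI.B1) (toE (cA y) 0))
      (P.ψ (idx EHI.B1) (toE 0 0))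
    linarith
  have hB2 : ∀ y : E4, bA2 E.a y < E.b ^ 2 → dist (P.ψ (idx EHI.B2) y)
      (P.ψ (idx EHI.B1) (toE 0 0)) ≤ c * (√(bA2 E.a y) + 3 * E.a) := by
    intro y hy
    have h1 := h.dist_zeta ha hj2 rfl (u := y) ⟨ha, hy⟩
    have h2 := h.dist_bolt2 ha (cA y)
    rw [dist_comm] at h1
    have h3 := dist_triangle (P.ψ (idx EHI.B2) y) (P.ψ (idx EHI.B2) (toE (cA y) 0))
      (P.ψ (idx EHI.B1) (toE 0 0))
    linarith
  cases j with
  | F =>
    rw [ehR_F] at hA ⊢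
    have hu' : E.a < ‖u‖ := hu.1
    have hnn := norm_nonneg u
    have hb2 : ‖u‖ ^ 2 < E.b ^ 2 := by nlinarith
    by_cases h0 : cB u = 0
    · have h1 : cA u ≠ 0 := by
        intro h1
        have h2 := norm_sq_cAB u
        rw [h0, h1, norm_zero] at h2
        have h3 : ‖u‖ ^ 2 = 0 := by rw [h2]; norm_num
        nlinarith [E.a_nonneg]
      have e1 : WPt.mk ehm (ehs E.a EHI.F u) = WPt.mk ehm (ehs E.a EHI.B2 (thB2 E.a u)) :=
        (eh_FB2' ha hu' h1).symm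
      have e2 : bA2 E.a (thB2 E.a u) = ‖u‖ ^ 2 := (eh_FB2 ha hu' e1).2.2
      have e3 : bA2 E.a (thB2 E.a u) < E.b ^ 2 := by rw [e2]; exact hb2
      have e4 : P.ψ (idx EHI.F) u = P.ψ (idx EHI.B2) (thB2 E.a u) :=
        h.hψ _ _ _ hu _ ⟨ha, e3⟩ e1
      have e5 := hB2 _ e3
      rw [e2, Real.sqrt_sq hnn] at e5
      rw [e4]
      exact e5
    · have e1 : WPt.mk ehm (ehs E.a EHI.F u) = WPt.mk ehm (ehs E.a EHI.B1 (thB E.a u)) :=
        (eh_FB' ha hu' h0).symm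
      have e2 : bA2 E.a (thB E.a u) = ‖u‖ ^ 2 := (eh_FB ha hu' e1).2.2
      have e3 : bA2 E.a (thB E.a u) < E.b ^ 2 := by rw [e2]; exact hb2
      have e4 : P.ψ (idx EHI.F) u = P.ψ (idx EHI.B1) (thB E.a u) :=
        h.hψ _ _ _ hu _ ⟨ha, e3⟩ e1
      have e5 := hB1 _ e3
      rw [e2, Real.sqrt_sq hnn] at e5
      rw [e4]
      exact e5
  | B1 =>
    rw [ehR_B1 ha]
    exact hB1 u hu.2
  | B2 =>
    rw [ehR_B2 ha]
    exact hB2 u hu.2

/-- Two points of radii `A, A' < b`. -/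
theorem dist_two (h : EHIn P E idx c) (ha : 0 < E.a) {i j : EHI} {u v : E4} (hu : u ∈ ehV E i)
    (hv : v ∈ ehV E j) (hA : ehR (WPt.mk ehm (ehs E.a i u)) < E.b)
    (hA' : ehR (WPt.mk ehm (ehs E.a j v)) < E.b) :
    dist (P.ψ (idx i) u) (P.ψ (idx j) v) ≤
      c * (ehR (WPt.mk ehm (ehs E.a i u)) + ehR (WPt.mk ehm (ehs E.a j v)) + 6 * E.a) := by
  have h1 := h.dist_centre ha hu hA
  have h2 := h.dist_centre ha hv hA'
  rw [dist_comm] at h2
  have h3 := dist_triangle (P.ψ (idx i) u) (P.ψ (idx EHI.B1) (toE 0 0)) (P.ψ (idx j) v)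
  nlinarith

/-- Radial segments in the patch `F`. -/
theorem dist_radial (h : EHIn P E idx c) {u : E4} (hu : u ∈ ehV E EHI.F) {t : ℝ} (ht : E.a < t)
    (htu : t ≤ ‖u‖) (hU : ∀ A ∈ Set.Icc t ‖u‖, 1 / 4 ≤ E.U A) :
    dist (P.ψ (idx EHI.F) u) (P.ψ (idx EHI.F) ((t / ‖u‖) • u)) ≤ 2 * c * (‖u‖ - t) := by
  have ht0 : 0 < t := lt_of_le_of_lt E.a_nonneg ht
  have hu0 : 0 < ‖u‖ := lt_of_lt_of_le ht0 htu
  have hL : 0 ≤ 2 * c * (‖u‖ - t) := by
    have := h.c_nonneg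
    have h2 : 0 ≤ ‖u‖ - t := by linarith
    positivity
  have hdir : (t / ‖u‖) • u - u = (-((‖u‖ - t) / ‖u‖)) • u := by
    have : (t / ‖u‖) • u - u = (t / ‖u‖ - 1) • u := by rw [sub_smul, one_smul]
    rw [this]
    congr 1
    field_simp
    ring
  have hseg : ∀ x ∈ segment ℝ u ((t / ‖u‖) • u), ∃ s : ℝ, x = s • u ∧ s * ‖u‖ ∈ Set.Icc t ‖u‖ := by
    intro x hx
    rw [segment_eq_image'] at hx
    obtain ⟨θ, hθ, rfl⟩ := hx
    refine ⟨1 - θ * ((‖u‖ - t) / ‖u‖), ?_, ?_⟩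
    · simp only [hdir]
      module
    · have e1 : (1 - θ * ((‖u‖ - t) / ‖u‖)) * ‖u‖ = ‖u‖ - θ * (‖u‖ - t) := by
        field_simp
      rw [e1]
      constructor
      · nlinarith [hθ.1, hθ.2]
      · nlinarith [hθ.1, hθ.2]
  refine P.dist_segment hL ?_ ?_
  · intro x hx
    obtain ⟨s, rfl, hs⟩ := hseg x hx
    apply h.hV
    have hs0 : 0 < s := by
      by_contra hneg
      have := hs.1
      nlinarith
    have e1 : ‖s • u‖ = s * ‖u‖ := by rw [norm_smul, Real.norm_eq_abs, abs_of_pos hs0]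
    change ‖s • u‖ ∈ Set.Ioo E.a E.r
    rw [e1]
    exact ⟨lt_of_lt_of_le ht hs.1, lt_of_le_of_lt hs.2 hu.2⟩
  · intro x hx
    obtain ⟨s, rfl, hs⟩ := hseg x hx
    have hs0 : 0 < s := by
      by_contra hneg
      have := hs.1
      nlinarith
    have e1 : ‖s • u‖ = s * ‖u‖ := by rw [norm_smul, Real.norm_eq_abs, abs_of_pos hs0]
    rw [h.hg, hdir, sqrt_qf_smul, abs_neg, abs_of_nonneg (div_nonneg (by linarith) hu0.le)]
    have hq : √(qf (ehg E EHI.F (s • u)) u) ≤ 2 * ‖u‖ := by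
      rw [Real.sqrt_le_left (by positivity)]
      change qf (u2Z E.U E.W (s • u)) u ≤ _
      rw [qf_u2Z, e1]
      have hd : dotu (s • u) u = s * ‖u‖ ^ 2 := by
        rw [norm_sq_E4]
        simp [dotu]
        ring
      have hj : dotj (s • u) u = 0 := by
        simp [dotj]
        ring
      rw [hd, hj, nsq_eq_norm]
      have hUs := hU _ hs
      have hUp : 0 < E.U (s * ‖u‖) := by linarith
      have e2 : ‖u‖ ^ 2 + (1 / E.U (s * ‖u‖) - 1) / (s * ‖u‖) ^ 2 * (s * ‖u‖ ^ 2) ^ 2 +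
          (E.W (s * ‖u‖) - 1) / (s * ‖u‖) ^ 2 * 0 ^ 2 = 1 / E.U (s * ‖u‖) * ‖u‖ ^ 2 := by
        field_simp
        ring
      rw [e2]
      have e3 : 1 / E.U (s * ‖u‖) ≤ 4 := by
        rw [div_le_iff₀ hUp]
        linarith
      nlinarith [sq_nonneg ‖u‖]
    have hc := h.c_nonneg
    have hf : 0 ≤ (‖u‖ - t) / ‖u‖ := div_nonneg (by linarith) hu0.le
    calc c * ((‖u‖ - t) / ‖u‖ * √(qf (ehg E EHI.F (s • u)) u))
        ≤ c * ((‖u‖ - t) / ‖u‖ * (2 * ‖u‖)) := by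
          apply mul_le_mul_of_nonneg_left _ hc
          exact mul_le_mul_of_nonneg_left hq hf
      _ = 2 * c * (‖u‖ - t) := by
          field_simp

end EHIn

end Pool.Agent.W_MP_654ec6
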