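import Pool.Agent.W_MP_654ec6.B.LipBasic
import Pool.Agent.W_MP_654ec6.C.MetC
import Pool.Agent.W_MP_654ec6.F.Defs

/-!
# Infinitesimal Lipschitz estimates for the separation functions

`sep_norm`: the norm is infinitesimally 1-Lipschitz for a metric with `⟨u, v⟩² ≤ ‖u‖² qf (g u) v`; this
holds for the metrics of the patches D and F. `sep_XY`: the map `(X, Y)` is infinitesimally 1-Lipschitz
in the ambient patches. Both use the midpoint `m` of the two points: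
`‖p‖ - ‖q‖ = 2 ⟨m, p - q⟩/(‖p‖ + ‖q‖)`.
-/

open scoped ContDiff Topology
open Filter Real

namespace Pool.Agent.W_MP_654ec6

theorem sep_dotu_add (u v w : E4) : dotu (u + v) w = dotu u w + dotu v w := by
  simp [dotu]; ring

theorem sep_mid_tendsto (a : E4) :
    Tendsto (fun q : E4 × E4 => (1 / 2 : ℝ) • (q.1 + q.2)) (𝓝 (a, a)) (𝓝 a) := by
  have h : Continuous fun q : E4 × E4 => (1 / 2 : ℝ) • (q.1 + q.2) := by fun_prop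
  have h2 := h.tendsto (a, a)
  have h3 : (1 / 2 : ℝ) • ((a, a).1 + (a, a).2) = a := by
    change (1 / 2 : ℝ) • (a + a) = a
    module
  rwa [h3] at h2

theorem sep_norm {g : Met} {V : Set E4} (hV : IsOpen V) (hg : GoodMet g V)
    (h : ∀ u ∈ V, u ≠ 0 ∧ ∀ v : E4, dotu u v ^ 2 ≤ ‖u‖ ^ 2 * qf (g u) v) {a : E4} (ha : a ∈ V)
    {ε : ℝ} (hε : 0 < ε) :
    ∀ᶠ q in 𝓝 (a, a), |‖q.1‖ - ‖q.2‖| ≤ (1 + ε) * √(qf (g a) (q.1 - q.2)) := by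
  have h1 := (sep_mid_tendsto a).eventually (qf_cont hV hg ha hε)
  have h2 := (sep_mid_tendsto a).eventually (hV.mem_nhds ha)
  filter_upwards [h1, h2] with q h1 h2
  obtain ⟨m0, hm⟩ := h _ h2
  refine le_trans ?_ (h1 (q.1 - q.2)).1
  have hm' := hm (q.1 - q.2)
  set m : E4 := (1 / 2 : ℝ) • (q.1 + q.2) with hmdef
  have hmn : 0 < ‖m‖ := norm_pos_iff.2 m0
  apply Real.le_sqrt_of_sq_le
  have e1 : ‖q.1‖ ^ 2 - ‖q.2‖ ^ 2 = 2 * dotu m (q.1 - q.2) := by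
    rw [norm_sq_E4, norm_sq_E4, hmdef]
    simp [dotu]
    ring
  have e2 : 2 * ‖m‖ ≤ ‖q.1‖ + ‖q.2‖ := by
    rw [hmdef, norm_smul]
    have := norm_add_le q.1 q.2
    norm_num
    linarith
  have e3 : (‖q.1‖ - ‖q.2‖) * (‖q.1‖ + ‖q.2‖) = 2 * dotu m (q.1 - q.2) := by
    rw [← e1]; ring
  rw [sq_abs]
  have e4 : (‖q.1‖ - ‖q.2‖) ^ 2 * (2 * ‖m‖) ^ 2 ≤ (2 * dotu m (q.1 - q.2)) ^ 2 := by
    rw [← e3, mul_pow (‖q.1‖ - ‖q.2‖)]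
    apply mul_le_mul_of_nonneg_left _ (sq_nonneg _)
    exact pow_le_pow_left₀ (by positivity) e2 2
  have e5 : (‖q.1‖ - ‖q.2‖) ^ 2 * ‖m‖ ^ 2 ≤ qf (g m) (q.1 - q.2) * ‖m‖ ^ 2 := by nlinarith
  exact le_of_mul_le_mul_right e5 (by positivity)

theorem sep_cs3 (a b c x y z : ℝ) :
    (a * x + b * y + c * z) ^ 2 ≤ (a ^ 2 + b ^ 2 + c ^ 2) * (x ^ 2 + y ^ 2 + z ^ 2) := by
  nlinarith [sq_nonneg (a * y - b * x), sq_nonneg (a * z - c * x), sq_nonneg (b * z - c * y)]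

/-- The pointwise estimate for the `(X, Y)` coordinates. -/
theorem sep_XY_pt (R : ℝ) (N : ℕ∞) (j : ℕ) (p q : E4) :
    (pX N j p - pX N j q) ^ 2 + (pY N j p - pY N j q) ^ 2 ≤
      qf (gC R N j ((1 / 2 : ℝ) • (p + q))) (p - q) := by
  have ho := Coord_oj_pos N j
  have ho2 := oj_sq N j
  have e1 : (pX N j p - pX N j q) ^ 2 + (pY N j p - pY N j q) ^ 2 =
      (p 0 - q 0) ^ 2 + (n3 p - n3 q) ^ 2 := by
    unfold pX pY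
    have : (OX N j + (p 0 - aa N j * n3 p) / oj N j - (OX N j + (q 0 - aa N j * n3 q) / oj N j)) ^ 2
        + (OY N j + (aa N j * p 0 + n3 p) / oj N j - (OY N j + (aa N j * q 0 + n3 q) / oj N j)) ^ 2
        = (1 + aa N j ^ 2) * ((p 0 - q 0) ^ 2 + (n3 p - n3 q) ^ 2) / oj N j ^ 2 := by
      field_simp
      ring
    rw [this, ← ho2]
    field_simp
  rw [e1]
  set m : E4 := (1 / 2 : ℝ) • (p + q) with hm
  have hp := n3_nonneg p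
  have hq := n3_nonneg q
  have hp2 := n3_sq p
  have hq2 := n3_sq q
  have m1 : m 1 = (p 1 + q 1) / 2 := by simp [hm]; ring
  have m2 : m 2 = (p 2 + q 2) / 2 := by simp [hm]; ring
  have m3 : m 3 = (p 3 + q 3) / 2 := by simp [hm]; ring
  have s0 : (p - q) 0 = p 0 - q 0 := rfl
  have s1 : (p - q) 1 = p 1 - q 1 := rfl
  have s2 : (p - q) 2 = p 2 - q 2 := rfl
  have s3 : (p - q) 3 = p 3 - q 3 := rfl
  by_cases h0 : n3 m = 0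
  · rw [qf_gC_zero R N j h0, s0, s1, s2, s3]
    obtain ⟨z1, z2, z3⟩ := n3_eq_zero.1 h0
    have y1 : q 1 = -p 1 := by rw [m1] at z1; linarith
    have y2 : q 2 = -p 2 := by rw [m2] at z2; linarith
    have y3 : q 3 = -p 3 := by rw [m3] at z3; linarith
    have : n3 q = n3 p := by
      unfold n3
      rw [y1, y2, y3]
      congr 1
      ring
    rw [this]
    nlinarith [sq_nonneg (p 1 - q 1), sq_nonneg (p 2 - q 2), sq_nonneg (p 3 - q 3)]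
  · have hm0 : 0 < n3 m := lt_of_le_of_ne (n3_nonneg m) (Ne.symm h0)
    rw [qf_gC R N j h0, s0, s1, s2, s3]
    have hmsq := n3_sq m
    set D := m 1 * (p 1 - q 1) + m 2 * (p 2 - q 2) + m 3 * (p 3 - q 3) with hD
    have e2 : (n3 p - n3 q) * (n3 p + n3 q) = 2 * D := by
      have : (n3 p - n3 q) * (n3 p + n3 q) = n3 p ^ 2 - n3 q ^ 2 := by ring
      rw [this, hp2, hq2, hD, m1, m2, m3]
      ring
    have e3 : 2 * n3 m ≤ n3 p + n3 q := by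
      have h4 : (2 * n3 m) ^ 2 ≤ (n3 p + n3 q) ^ 2 := by
        have h5 : (p 1 * q 1 + p 2 * q 2 + p 3 * q 3) ≤ n3 p * n3 q := by
          refine (abs_le_of_sq_le_sq' ?_ (mul_nonneg hp hq)).2
          rw [mul_pow, hp2, hq2]
          exact sep_cs3 _ _ _ _ _ _
        have h6 : (2 * n3 m) ^ 2 = n3 p ^ 2 + n3 q ^ 2 +
            2 * (p 1 * q 1 + p 2 * q 2 + p 3 * q 3) := by
          rw [mul_pow, hmsq, hp2, hq2, m1, m2, m3]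
          ring
        rw [h6]
        linarith [add_sq (n3 p) (n3 q)]
      exact (abs_le_of_sq_le_sq' h4 (by linarith)).2
    have e4 : (n3 p - n3 q) ^ 2 ≤ (D / n3 m) ^ 2 := by
      rw [div_pow, le_div_iff₀ (by positivity)]
      have e5 : (n3 p - n3 q) ^ 2 * (2 * n3 m) ^ 2 ≤ (2 * D) ^ 2 := by
        rw [← e2, mul_pow (n3 p - n3 q)]
        apply mul_le_mul_of_nonneg_left _ (sq_nonneg _)
        exact pow_le_pow_left₀ (by positivity) e3 2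
      linarith [mul_pow 2 (n3 m) 2, mul_pow 2 D 2, show (n3 p - n3 q) ^ 2 * (2 * n3 m) ^ 2 =
        4 * ((n3 p - n3 q) ^ 2 * n3 m ^ 2) by ring]
    have e6 : (D / n3 m) ^ 2 ≤ (p 1 - q 1) ^ 2 + (p 2 - q 2) ^ 2 + (p 3 - q 3) ^ 2 := by
      rw [div_pow, div_le_iff₀ (by positivity), hmsq, hD,
        mul_comm (_ + _ + _) (m 1 ^ 2 + m 2 ^ 2 + m 3 ^ 2)]
      exact sep_cs3 _ _ _ _ _ _
    have e7 : 0 ≤ (bb R N (pX N j m) (pY N j m) / n3 m) ^ 2 *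
        ((p 1 - q 1) ^ 2 + (p 2 - q 2) ^ 2 + (p 3 - q 3) ^ 2 - (D / n3 m) ^ 2) :=
      mul_nonneg (sq_nonneg _) (by linarith)
    linarith

/-- The map `(X, Y)` is infinitesimally 1-Lipschitz in the ambient patches. -/
theorem sep_XY {R : ℝ} {N : ℕ∞} {j : ℕ} {V : Set E4} (hV : IsOpen V)
    (hg : GoodMet (gC R N j) V) {a : E4} (ha : a ∈ V) {ε : ℝ} (hε : 0 < ε) :
    ∀ᶠ q in 𝓝 (a, a), √((pX N j q.1 - pX N j q.2) ^ 2 + (pY N j q.1 - pY N j q.2) ^ 2) ≤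
      (1 + ε) * √(qf (gC R N j a) (q.1 - q.2)) := by
  filter_upwards [(sep_mid_tendsto a).eventually (qf_cont hV hg ha hε)] with q h1
  exact le_trans (Real.sqrt_le_sqrt (sep_XY_pt R N j q.1 q.2)) (h1 (q.1 - q.2)).1

/-- The radial estimate for the core metric. -/
theorem sep_coreZ (g ξ : ℝ → ℝ) {u : E4} (hu : u ≠ 0) (v : E4) :
    dotu u v ^ 2 ≤ ‖u‖ ^ 2 * qf (coreZ g ξ u) v := by
  have h0 := nsq_pos' hu
  have hD := core_D_pos g ξ u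
  have hcs := kdot_cs u v
  have hell := ellZ_nonneg u
  rw [qf_coreZ]
  have hk : kapZ g ξ u * ellZ u ≤ 1 := by
    unfold kapZ
    rw [div_mul_eq_mul_div, div_le_one hD]
    linarith
  have hk0 : 0 ≤ kapZ g ξ u := by
    unfold kapZ
    positivity
  have hE : (u 0 ^ 2 + u 1 ^ 2 + 4 * (u 2 ^ 2 + u 3 ^ 2)) = ellZ u * ‖u‖ ^ 2 := by
    unfold ellZ
    field_simp
  rw [hE] at hcs
  have hcs2 : kdot u v ^ 2 ≤ ellZ u * (‖u‖ ^ 2 * nsq v - dotu u v ^ 2) := by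
    have : kdot u v ^ 2 * ‖u‖ ^ 2 ≤ ellZ u * (‖u‖ ^ 2 * nsq v - dotu u v ^ 2) * ‖u‖ ^ 2 := by
      nlinarith
    exact le_of_mul_le_mul_right this h0
  have hC : 0 ≤ ‖u‖ ^ 2 * nsq v - dotu u v ^ 2 := by
    have := dot_le u v
    rw [nsq_eq_norm u] at this
    nlinarith [sq_nonneg (dotj u v)]
  have h5 : kapZ g ξ u * kdot u v ^ 2 ≤ ‖u‖ ^ 2 * nsq v - dotu u v ^ 2 := by
    calc kapZ g ξ u * kdot u v ^ 2 ≤ kapZ g ξ u * (ellZ u * (‖u‖ ^ 2 * nsq v - dotu u v ^ 2)) :=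
          mul_le_mul_of_nonneg_left hcs2 hk0
      _ = (kapZ g ξ u * ellZ u) * (‖u‖ ^ 2 * nsq v - dotu u v ^ 2) := by ring
      _ ≤ 1 * (‖u‖ ^ 2 * nsq v - dotu u v ^ 2) := mul_le_mul_of_nonneg_right hk hC
      _ = _ := one_mul _
  have e : ‖u‖ ^ 2 * ((g ‖u‖ / ‖u‖) ^ 2 * nsq v + (1 - (g ‖u‖ / ‖u‖) ^ 2) *
      (dotu u v ^ 2 / ‖u‖ ^ 2) - g ‖u‖ ^ 2 * kapZ g ξ u * (kdot u v ^ 2 / ‖u‖ ^ 4)) =
      dotu u v ^ 2 + (g ‖u‖ / ‖u‖) ^ 2 * ((‖u‖ ^ 2 * nsq v - dotu u v ^ 2) -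
        kapZ g ξ u * kdot u v ^ 2) := by
    have hn : ‖u‖ ≠ 0 := norm_ne_zero_iff.2 hu
    field_simp
    ring
  rw [e]
  have : 0 ≤ (g ‖u‖ / ‖u‖) ^ 2 * ((‖u‖ ^ 2 * nsq v - dotu u v ^ 2) -
        kapZ g ξ u * kdot u v ^ 2) := mul_nonneg (sq_nonneg _) (by linarith)
  linarith

/-- The radial estimate for the neck metric. -/
theorem sep_neckZ (l m H : ℝ → ℝ) {u : E4} (hu : u ≠ 0) (v : E4) :
    dotu u v ^ 2 ≤ ‖u‖ ^ 2 * qf (neckZ l m H u) v := by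
  have h0 := nsq_pos' hu
  have hn : ‖u‖ ≠ 0 := norm_ne_zero_iff.2 hu
  have hnp : 0 < ‖u‖ := norm_pos_iff.2 hu
  rw [qf_neckZ]
  have hnsq : v 0 ^ 2 + v 1 ^ 2 + v 2 ^ 2 + v 3 ^ 2 = nsq v := rfl
  have hdot : u 0 * v 0 + u 1 * v 1 + u 2 * v 2 + u 3 * v 3 = dotu u v := rfl
  rw [hnsq, hdot]
  set z := u 0 / ‖u‖ with hz
  set β := nBeta (m ‖u‖) (H z) z with hβ
  have hC : 0 ≤ ‖u‖ ^ 2 * nsq v - dotu u v ^ 2 := by
    have := dot_le u v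
    rw [nsq_eq_norm u] at this
    nlinarith [sq_nonneg (dotj u v)]
  have hcs := zForm_cs (u 0) (u 1) (u 2) (u 3) (v 0) (v 1) (v 2) (v 3)
  rw [← norm_sq_E4 u, hnsq, hdot] at hcs
  set F := v 0 / ‖u‖ - u 0 * dotu u v / ‖u‖ ^ 3 with hF
  have hF2 : F ^ 2 * ‖u‖ ^ 6 = (v 0 * ‖u‖ ^ 2 - u 0 * dotu u v) ^ 2 := by
    rw [hF]
    field_simp
  have hz2 : (1 - z ^ 2) * ‖u‖ ^ 2 = u 1 ^ 2 + u 2 ^ 2 + u 3 ^ 2 := by
    have h := norm_sq_E4 u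
    rw [hz]
    field_simp
    rw [h]
    ring
  have hF3 : F ^ 2 * ‖u‖ ^ 4 ≤ (1 - z ^ 2) * (‖u‖ ^ 2 * nsq v - dotu u v ^ 2) := by
    have h1 : F ^ 2 * ‖u‖ ^ 4 * ‖u‖ ^ 2 ≤
        (1 - z ^ 2) * (‖u‖ ^ 2 * nsq v - dotu u v ^ 2) * ‖u‖ ^ 2 := by
      calc F ^ 2 * ‖u‖ ^ 4 * ‖u‖ ^ 2 = F ^ 2 * ‖u‖ ^ 6 := by ring
        _ = (v 0 * ‖u‖ ^ 2 - u 0 * dotu u v) ^ 2 := hF2
        _ ≤ (u 1 ^ 2 + u 2 ^ 2 + u 3 ^ 2) * (‖u‖ ^ 2 * nsq v - dotu u v ^ 2) := hcs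
        _ = (1 - z ^ 2) * (‖u‖ ^ 2 * nsq v - dotu u v ^ 2) * ‖u‖ ^ 2 := by rw [← hz2]; ring
    exact le_of_mul_le_mul_right h1 h0
  have hz1 : 0 ≤ 1 - z ^ 2 := by
    have h1 : 0 ≤ (1 - z ^ 2) * ‖u‖ ^ 2 := by rw [hz2]; positivity
    by_contra hneg
    push Not at hneg
    nlinarith
  have hβ1 : -1 ≤ (1 - z ^ 2) * β := by
    rw [hβ, nBeta_mul]
    have := Real.exp_pos (2 * m ‖u‖ * ((1 - z ^ 2) * H z))
    linarith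
  have key : -(‖u‖ ^ 2 * nsq v - dotu u v ^ 2) ≤ β * (F ^ 2 * ‖u‖ ^ 4) := by
    rcases le_or_gt 0 β with hb | hb
    · have : 0 ≤ β * (F ^ 2 * ‖u‖ ^ 4) := by positivity
      linarith
    · have h1 : β * ((1 - z ^ 2) * (‖u‖ ^ 2 * nsq v - dotu u v ^ 2)) ≤
          β * (F ^ 2 * ‖u‖ ^ 4) := mul_le_mul_of_nonpos_left hF3 hb.le
      have h2 : -1 * (‖u‖ ^ 2 * nsq v - dotu u v ^ 2) ≤
          (1 - z ^ 2) * β * (‖u‖ ^ 2 * nsq v - dotu u v ^ 2) :=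
        mul_le_mul_of_nonneg_right hβ1 hC
      nlinarith
  have e : ‖u‖ ^ 2 * ((l ‖u‖ / ‖u‖) ^ 2 * nsq v + (1 - (l ‖u‖ / ‖u‖) ^ 2) *
      (dotu u v ^ 2 / ‖u‖ ^ 2) + l ‖u‖ ^ 2 * β * F ^ 2) =
      dotu u v ^ 2 + (l ‖u‖ / ‖u‖) ^ 2 * ((‖u‖ ^ 2 * nsq v - dotu u v ^ 2) +
        β * (F ^ 2 * ‖u‖ ^ 4)) := by
    field_simp
    ring
  rw [e]
  have : 0 ≤ (l ‖u‖ / ‖u‖) ^ 2 * ((‖u‖ ^ 2 * nsq v - dotu u v ^ 2) +
        β * (F ^ 2 * ‖u‖ ^ 4)) := mul_nonneg (sq_nonneg _) (by linarith)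
  linarith

/-- The radial estimate in the patch D. -/
theorem sep_gD (K : Core) (B : BlkD) {u : E4} (hu : u ≠ 0) (v : E4) :
    dotu u v ^ 2 ≤ ‖u‖ ^ 2 * qf (gD K B u) v := by
  unfold gD
  split_ifs
  · exact sep_coreZ _ _ hu v
  · exact sep_neckZ _ _ _ hu v

/-- The radial estimate for the `U(2)`-metrics. -/
theorem sep_u2Z {U W : ℝ → ℝ} {u : E4} (hu : u ≠ 0) (hU : 0 < U ‖u‖) (hU1 : U ‖u‖ ≤ 1)
    (hW : 0 ≤ W ‖u‖) (v : E4) : dotu u v ^ 2 ≤ ‖u‖ ^ 2 * qf (u2Z U W u) v := by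
  have h0 := nsq_pos' hu
  rw [qf_u2Z]
  have h1 := dot_le u v
  rw [nsq_eq_norm u] at h1
  have h2 : 1 ≤ 1 / U ‖u‖ := by rw [le_div_iff₀ hU]; linarith
  have e : ‖u‖ ^ 2 * (nsq v + (1 / U ‖u‖ - 1) / ‖u‖ ^ 2 * dotu u v ^ 2 +
      (W ‖u‖ - 1) / ‖u‖ ^ 2 * dotj u v ^ 2) = ‖u‖ ^ 2 * nsq v +
      (1 / U ‖u‖ - 1) * dotu u v ^ 2 + (W ‖u‖ - 1) * dotj u v ^ 2 := by
    have hn : ‖u‖ ≠ 0 := norm_ne_zero_iff.2 hu
    field_simp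
  rw [e]
  have h3 : 0 ≤ (1 / U ‖u‖ - 1) * dotu u v ^ 2 := mul_nonneg (by linarith) (sq_nonneg _)
  have h4 : 0 ≤ W ‖u‖ * dotj u v ^ 2 := mul_nonneg hW (sq_nonneg _)
  nlinarith

end Pool.Agent.W_MP_654ec6
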