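import Pool.Agent.W_MP_654ec6.F.Sp2

/-!
# Part F: the labels of the spaces `Sp(N)`

Domains and metrics of the patches, equality of points, and functions on `Sp(N)` given by functions
on the ambient space, on the blocks and on the bolts.
-/

open scoped ContDiff Topology
open Filter Real

namespace Pool.Agent.W_MP_654ec6

section

variable (K : Core) (N : ℕ∞) (hN : 2 ≤ N)

/-! ### Domains and metrics -/

theorem spV_C (j : ℕ) : (spP K N hN).V (ixC K N hN j) = VA N (spRad K N) j := rfl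

theorem spV_B (k : ℕ) (i : Fin 3) : (spP K N hN).V (ixB K N hN k i) =
    {a | (1 ≤ k ∧ (k : ℕ∞) ≤ N) ∧ a ∈ blkV (spBlk K N k) i} := rfl

theorem spV_E (k : ℕ) (i : EHI) : (spP K N hN).V (ixE K N hN k i) =
    {a | (1 ≤ k ∧ (k : ℕ∞) ≤ N) ∧ N ≠ ⊤ ∧ a ∈ ehV (blkEHD (spBlk K N k)) i} := rfl

theorem spV_X (i : EHI) : (spP K N hN).V (ixX K N hN i) =
    {a | N ≠ ⊤ ∧ a ∈ ehV (midEHD K N) i} := rfl

theorem spg_C (j : ℕ) : (spP K N hN).g (ixC K N hN j) = gC K.R N j := rfl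

theorem spg_B (k : ℕ) (i : Fin 3) : (spP K N hN).g (ixB K N hN k i) =
    smulMet ((spB K N k).s ^ 2) (blkG (spBlk K N k) i) := rfl

theorem spg_E (k : ℕ) (i : EHI) : (spP K N hN).g (ixE K N hN k i) =
    smulMet ((spB K N k).s ^ 2) (ehg (blkEHD (spBlk K N k)) i) := rfl

theorem spg_X (i : EHI) : (spP K N hN).g (ixX K N hN i) = ehg (midEHD K N) i := rfl

/-! ### Equality of points -/

/-- Two points of the ambient patches. -/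
theorem spEq_CC {i j : ℕ} {a b : E4} :
    (spP K N hN).ψ (ixC K N hN i) a = (spP K N hN).ψ (ixC K N hN j) b ↔
      TauPt.mk (repA K.R N i a) = TauPt.mk (repA K.R N j b) :=
  (PreP.glue_inl_iff (midGlue K N hN)).trans (PreP.glue_inl_iff (spFam K N hN).glueData)

/-- Two points of blocks. -/
theorem spEq_QQ {k l : ℕ} (i : (bP (spBlk K N k) (N ≠ ⊤)).ι) (j : (bP (spBlk K N l) (N ≠ ⊤)).ι)
    {a b : E4} (hk : 1 ≤ k ∧ (k : ℕ∞) ≤ N) (hl : 1 ≤ l ∧ (l : ℕ∞) ≤ N)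
    (ha : a ∈ (bP (spBlk K N k) (N ≠ ⊤)).V i) (hb : b ∈ (bP (spBlk K N l) (N ≠ ⊤)).V j) :
    (spP K N hN).ψ (Sum.inl (Sum.inr ⟨k, i⟩)) a = (spP K N hN).ψ (Sum.inl (Sum.inr ⟨l, j⟩)) b ↔
      (⟨k, (bP (spBlk K N k) (N ≠ ⊤)).ψ i a⟩ : Σ k, (bP (spBlk K N k) (N ≠ ⊤)).Pt) =
        ⟨l, (bP (spBlk K N l) (N ≠ ⊤)).ψ j b⟩ :=
  (PreP.glue_inl_iff (midGlue K N hN)).trans
    (PreP.glue_inr_iff (spFam K N hN).glueData (i := ⟨k, i⟩) (j := ⟨l, j⟩) ⟨hk, ha⟩ ⟨hl, hb⟩)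

/-- Two points of the patches `D, E, F` of a block. -/
theorem spEq_BB {k : ℕ} {i j : Fin 3} {a b : E4} (hk : 1 ≤ k ∧ (k : ℕ∞) ≤ N)
    (ha : a ∈ blkV (spBlk K N k) i) (hb : b ∈ blkV (spBlk K N k) j) :
    (spP K N hN).ψ (ixB K N hN k i) a = (spP K N hN).ψ (ixB K N hN k j) b ↔
      blkPsi (spBlk K N k) i a = blkPsi (spBlk K N k) j b := by
  refine (spEq_QQ K N hN (k := k) (l := k) (Sum.inl i) (Sum.inl j) hk hk ha hb).trans ?_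
  constructor
  · intro h
    exact (PreP.glue_inl_iff (bGlue (spBlk K N k) (N ≠ ⊤))).1 (eq_of_heq (Sigma.mk.inj h).2)
  · intro h
    exact congrArg (Sigma.mk k) ((PreP.glue_inl_iff (bGlue (spBlk K N k) (N ≠ ⊤))).2 h)

/-- Points of different blocks. -/
theorem spEq_QQ_ne {k l : ℕ} (i : (bP (spBlk K N k) (N ≠ ⊤)).ι)
    (j : (bP (spBlk K N l) (N ≠ ⊤)).ι) {a b : E4} (hk : 1 ≤ k ∧ (k : ℕ∞) ≤ N)
    (hl : 1 ≤ l ∧ (l : ℕ∞) ≤ N) (ha : a ∈ (bP (spBlk K N k) (N ≠ ⊤)).V i)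
    (hb : b ∈ (bP (spBlk K N l) (N ≠ ⊤)).V j) (hkl : k ≠ l) :
    (spP K N hN).ψ (Sum.inl (Sum.inr ⟨k, i⟩)) a ≠ (spP K N hN).ψ (Sum.inl (Sum.inr ⟨l, j⟩)) b := by
  intro h
  exact hkl (congrArg Sigma.fst ((spEq_QQ K N hN i j hk hl ha hb).1 h))

theorem spEq_BB_ne {k l : ℕ} {i j : Fin 3} {a b : E4} (hk : 1 ≤ k ∧ (k : ℕ∞) ≤ N)
    (hl : 1 ≤ l ∧ (l : ℕ∞) ≤ N) (ha : a ∈ blkV (spBlk K N k) i)
    (hb : b ∈ blkV (spBlk K N l) j) (hkl : k ≠ l) :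
    (spP K N hN).ψ (ixB K N hN k i) a ≠ (spP K N hN).ψ (ixB K N hN l j) b :=
  spEq_QQ_ne K N hN (Sum.inl i) (Sum.inl j) hk hl ha hb hkl

/-- A point of an ambient patch and a point of a block. -/
theorem spEq_CQ {j k : ℕ} (i : (bP (spBlk K N k) (N ≠ ⊤)).ι) {a b : E4}
    (hk : 1 ≤ k ∧ (k : ℕ∞) ≤ N) (hb : b ∈ (bP (spBlk K N k) (N ≠ ⊤)).V i) :
    (spP K N hN).ψ (ixC K N hN j) a = (spP K N hN).ψ (Sum.inl (Sum.inr ⟨k, i⟩)) b ↔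
      ∃ u ∈ VD (spBlk K N k), spRad K N k < (spB K N k).s * (‖u‖ - (spB K N k).tstar) ∧
        (bP (spBlk K N k) (N ≠ ⊤)).ψ (Sum.inl (0 : Fin 3)) u =
          (bP (spBlk K N k) (N ≠ ⊤)).ψ i b ∧
        collE (spAmb K N hN) k (spB K N k) u = TauPt.mk (repA K.R N j a) := by
  refine (PreP.glue_inl_iff (midGlue K N hN)).trans ?_
  refine (PreP.glue_inl_inr_iff (spFam K N hN).glueData (i := j) (j := ⟨k, i⟩) (a := a) (b := b)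
    ⟨hk, hb⟩).trans ?_
  constructor
  · rintro ⟨h0, ⟨k', d⟩, hd, u, hu, h1, h2⟩
    have e1 : k' = k := congrArg Sigma.fst h1
    subst e1
    obtain rfl : d = (Sum.inl (0 : Fin 3)) := hd
    have e2 : (bP (spBlk K N k') (N ≠ ⊤)).ψ (Sum.inl (0 : Fin 3)) u =
        (bP (spBlk K N k') (N ≠ ⊤)).ψ i b := eq_of_heq (Sigma.mk.inj h1).2
    have h0' : 0 < bR (spBlk K N k') (N ≠ ⊤)
        ((bP (spBlk K N k') (N ≠ ⊤)).ψ (Sum.inl (0 : Fin 3)) u) := by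
      rw [e2]
      exact h0
    exact ⟨u, hu.2, (bR_pos_iff (spBlk K N k') (N ≠ ⊤) hu.2).1 h0', e2, h2⟩
  · rintro ⟨u, hu, h0, h1, h2⟩
    have h0' : 0 < bR (spBlk K N k) (N ≠ ⊤)
        ((bP (spBlk K N k) (N ≠ ⊤)).ψ (Sum.inl (0 : Fin 3)) u) :=
      (bR_pos_iff (spBlk K N k) (N ≠ ⊤) hu).2 h0
    refine ⟨?_, ⟨k, Sum.inl (0 : Fin 3)⟩, rfl, u, ⟨hk, hu⟩, congrArg (Sigma.mk k) h1, h2⟩
    change 0 < bR (spBlk K N k) (N ≠ ⊤) ((bP (spBlk K N k) (N ≠ ⊤)).ψ i b)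
    rw [← h1]
    exact h0'

/-- A point of an ambient patch and a point of the patch `D` of a block. -/
theorem spEq_CD {j k : ℕ} {a b : E4} (hk : 1 ≤ k ∧ (k : ℕ∞) ≤ N) (hb : b ∈ VD (spBlk K N k)) :
    (spP K N hN).ψ (ixC K N hN j) a = (spP K N hN).ψ (ixB K N hN k 0) b ↔
      spRad K N k < (spB K N k).s * (‖b‖ - (spB K N k).tstar) ∧
        collE (spAmb K N hN) k (spB K N k) b = TauPt.mk (repA K.R N j a) := by
  refine (spEq_CQ K N hN (Sum.inl (0 : Fin 3)) hk hb).trans ?_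
  constructor
  · rintro ⟨u, hu, h0, h1, h2⟩
    have h3 := b_inj_D (spBlk K N k) (N ≠ ⊤) hu hb h1
    subst h3
    exact ⟨h0, h2⟩
  · rintro ⟨h0, h2⟩
    exact ⟨b, hb, h0, rfl, h2⟩

/-- A point of an ambient patch and a point of the patches `E, F` of a block are different. -/
theorem spEq_CB_ne {j k : ℕ} {i : Fin 3} (hi : i ≠ 0) {a b : E4} (hk : 1 ≤ k ∧ (k : ℕ∞) ≤ N)
    (hb : b ∈ blkV (spBlk K N k) i) :
    (spP K N hN).ψ (ixC K N hN j) a ≠ (spP K N hN).ψ (ixB K N hN k i) b := by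
  intro h
  obtain ⟨u, hu, h0, h1, -⟩ := (spEq_CQ K N hN (Sum.inl i) hk hb).1 h
  have h2 : blkPsi (spBlk K N k) 0 u = blkPsi (spBlk K N k) i b :=
    (PreP.glue_inl_iff (bGlue (spBlk K N k) (N ≠ ⊤))).1 h1
  have h3 := (rBlk_pos_D (spBlk K N k) hu).2 h0
  rw [h2] at h3
  exact absurd h3 (not_lt.2 (rBlk_EF (spBlk K N k) hi hb).le)

/-! ### Functions -/

/-- The function on `Sp(N)` with given parts. -/
noncomputable def spFun (fC : TauPt → ℝ) (fB : ℕ → WPt ![1, 2, 1] → ℝ) (fE : ℕ → WPt ehm → ℝ)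
    (fX : WPt ehm → ℝ) : (spP K N hN).Pt → ℝ :=
  Sum.elim (Sum.elim fC
    (fun p : Σ k : ℕ, (bP (spBlk K N k) (N ≠ ⊤)).Pt =>
      (Sum.elim (fB p.1) (fE p.1) : (bP (spBlk K N p.1) (N ≠ ⊤)).Pt → ℝ) p.2)) fX

/-- The compatibility conditions. -/
structure SpFunOK (fC : TauPt → ℝ) (fB : ℕ → WPt ![1, 2, 1] → ℝ) (fE : ℕ → WPt ehm → ℝ)
    (fX : WPt ehm → ℝ) : Prop where
  cb : ∀ k : ℕ, 1 ≤ k → (k : ℕ∞) ≤ N → ∀ u ∈ VD (spBlk K N k),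
    spRad K N k < (spB K N k).s * (‖u‖ - (spB K N k).tstar) →
    fC (collE (spAmb K N hN) k (spB K N k) u) = fB k (blkPsi (spBlk K N k) 0 u)
  be : N ≠ ⊤ → ∀ k : ℕ, 1 ≤ k → (k : ℕ∞) ≤ N → ∀ u ∈ VF (spBlk K N k),
    fB k (blkPsi (spBlk K N k) 2 u) = fE k (WPt.mk ehm (ehs (spA K N k) EHI.F u))
  cx : N ≠ ⊤ → ∀ u : E4, spRad K N 0 < ‖u‖ → ‖u‖ < 2 * spRad K N 0 →
    fC (TauPt.mk (repA K.R N N.toNat u)) = fX (WPt.mk ehm (ehs (spX K N) EHI.F u))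

variable {fC : TauPt → ℝ} {fB : ℕ → WPt ![1, 2, 1] → ℝ} {fE : ℕ → WPt ehm → ℝ}
  {fX : WPt ehm → ℝ}

theorem SpFunOK.cb' (h : SpFunOK K N hN fC fB fE fX) (d : (spFam K N hN).S.ι)
    (hd : d ∈ (spFam K N hN).glueData.D) (u : E4) (hu : u ∈ (spFam K N hN).S.V d)
    (h0 : 0 < (spFam K N hN).glueData.rQ ((spFam K N hN).S.ψ d u)) :
    fC ((spFam K N hN).glueData.E d u) =
      (fun p : Σ k : ℕ, (bP (spBlk K N k) (N ≠ ⊤)).Pt =>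
        (Sum.elim (fB p.1) (fE p.1) : (bP (spBlk K N p.1) (N ≠ ⊤)).Pt → ℝ) p.2)
        ((spFam K N hN).S.ψ d u) := by
  obtain ⟨k, d⟩ := d
  obtain rfl : d = (Sum.inl (0 : Fin 3)) := hd
  exact h.cb k hu.1.1 hu.1.2 u hu.2 ((bR_pos_iff (spBlk K N k) (N ≠ ⊤) hu.2).1 h0)

theorem SpFunOK.be' (h : SpFunOK K N hN fC fB fE fX) {k : ℕ} (hk : 1 ≤ k) (hkN : (k : ℕ∞) ≤ N)
    (d : ((ehP (blkEHD (spBlk K N k))).restr (N ≠ ⊤)).ι)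
    (hd : d ∈ (bGlue (spBlk K N k) (N ≠ ⊤)).D) (u : E4)
    (hu : u ∈ ((ehP (blkEHD (spBlk K N k))).restr (N ≠ ⊤)).V d)
    (_h0 : 0 < (bGlue (spBlk K N k) (N ≠ ⊤)).rQ
      (((ehP (blkEHD (spBlk K N k))).restr (N ≠ ⊤)).ψ d u)) :
    fB k ((bGlue (spBlk K N k) (N ≠ ⊤)).E d u) =
      fE k (((ehP (blkEHD (spBlk K N k))).restr (N ≠ ⊤)).ψ d u) := by
  obtain rfl : d = EHI.F := hd
  exact h.be hu.1 k hk hkN u hu.2

theorem SpFunOK.cx' (h : SpFunOK K N hN fC fB fE fX)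
    (d : ((ehP (midEHD K N)).restr (N ≠ ⊤)).ι) (hd : d ∈ (midGlue K N hN).D) (u : E4)
    (hu : u ∈ ((ehP (midEHD K N)).restr (N ≠ ⊤)).V d)
    (h0 : 0 < (midGlue K N hN).rQ (((ehP (midEHD K N)).restr (N ≠ ⊤)).ψ d u)) :
    (Sum.elim fC (fun p : Σ k : ℕ, (bP (spBlk K N k) (N ≠ ⊤)).Pt =>
      (Sum.elim (fB p.1) (fE p.1) : (bP (spBlk K N p.1) (N ≠ ⊤)).Pt → ℝ) p.2))
        ((midGlue K N hN).E d u) = fX (((ehP (midEHD K N)).restr (N ≠ ⊤)).ψ d u) := by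
  obtain rfl : d = EHI.F := hd
  have h1 : 0 < ehR (WPt.mk ehm (ehs (spX K N) EHI.F u)) - spRad K N 0 := h0
  rw [ehR_F] at h1
  exact h.cx hu.1 u (by linarith) hu.2.2

/-- The value at a point of an ambient patch. -/
theorem spFun_C (j : ℕ) (a : E4) : spFun K N hN fC fB fE fX ((spP K N hN).ψ (ixC K N hN j) a) =
    fC (TauPt.mk (repA K.R N j a)) := rfl

/-- The value at a point of a block. -/
theorem spFun_Q (h : SpFunOK K N hN fC fB fE fX) {k : ℕ} (hk : 1 ≤ k ∧ (k : ℕ∞) ≤ N)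
    (i : (bP (spBlk K N k) (N ≠ ⊤)).ι) {a : E4} (ha : a ∈ (bP (spBlk K N k) (N ≠ ⊤)).V i) :
    spFun K N hN fC fB fE fX ((spP K N hN).ψ (Sum.inl (Sum.inr ⟨k, i⟩)) a) =
      (Sum.elim (fB k) (fE k) : (bP (spBlk K N k) (N ≠ ⊤)).Pt → ℝ)
        ((bP (spBlk K N k) (N ≠ ⊤)).ψ i a) :=
  PreP.elim_glueMap (spFam K N hN).glueData (SpFunOK.cb' K N hN h) (j := ⟨k, i⟩) ⟨hk, ha⟩

theorem spFun_B (h : SpFunOK K N hN fC fB fE fX) {k : ℕ} (hk : 1 ≤ k ∧ (k : ℕ∞) ≤ N)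
    {i : Fin 3} {a : E4} (ha : a ∈ blkV (spBlk K N k) i) :
    spFun K N hN fC fB fE fX ((spP K N hN).ψ (ixB K N hN k i) a) =
      fB k (blkPsi (spBlk K N k) i a) :=
  spFun_Q K N hN h hk (Sum.inl i) ha

theorem spFun_E (h : SpFunOK K N hN fC fB fE fX) {k : ℕ} (hk : 1 ≤ k ∧ (k : ℕ∞) ≤ N)
    (hN' : N ≠ ⊤) {i : EHI} {a : E4} (ha : a ∈ ehV (blkEHD (spBlk K N k)) i) :
    spFun K N hN fC fB fE fX ((spP K N hN).ψ (ixE K N hN k i) a) =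
      fE k (WPt.mk ehm (ehs (spA K N k) i a)) :=
  (spFun_Q K N hN h hk (Sum.inr i) ⟨hN', ha⟩).trans
    (PreP.elim_glueMap (bGlue (spBlk K N k) (N ≠ ⊤)) (SpFunOK.be' K N hN h hk.1 hk.2)
      (j := i) ⟨hN', ha⟩)

theorem spFun_X (h : SpFunOK K N hN fC fB fE fX) (hN' : N ≠ ⊤) {i : EHI} {a : E4}
    (ha : a ∈ ehV (midEHD K N) i) :
    spFun K N hN fC fB fE fX ((spP K N hN).ψ (ixX K N hN i) a) =
      fX (WPt.mk ehm (ehs (spX K N) i a)) :=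
  PreP.elim_glueMap (midGlue K N hN) (SpFunOK.cx' K N hN h) (j := i) ⟨hN', ha⟩

/-- Continuity of functions on `Sp(N)` along the patches. -/
theorem spFun_cont (h : SpFunOK K N hN fC fB fE fX)
    (hC : ∀ j, ∀ a ∈ VA N (spRad K N) j,
      ContinuousAt (fun x => fC (TauPt.mk (repA K.R N j x))) a)
    (hB : ∀ k : ℕ, 1 ≤ k → (k : ℕ∞) ≤ N → ∀ i, ∀ a ∈ blkV (spBlk K N k) i,
      ContinuousAt (fun x => fB k (blkPsi (spBlk K N k) i x)) a)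
    (hE : N ≠ ⊤ → ∀ k : ℕ, 1 ≤ k → (k : ℕ∞) ≤ N → ∀ i, ∀ a ∈ ehV (blkEHD (spBlk K N k)) i,
      ContinuousAt (fun x => fE k (WPt.mk ehm (ehs (spA K N k) i x))) a)
    (hX : N ≠ ⊤ → ∀ i, ∀ a ∈ ehV (midEHD K N) i,
      ContinuousAt (fun x => fX (WPt.mk ehm (ehs (spX K N) i x))) a)
    (i : (spP K N hN).ι) (a : E4) (ha : a ∈ (spP K N hN).V i) :
    ContinuousAt (fun x => spFun K N hN fC fB fE fX ((spP K N hN).ψ i x)) a := by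
  refine PreP.glue_cont (midGlue K N hN) ?_ ?_ (SpFunOK.cx' K N hN h) i a ha
  · refine PreP.glue_cont (spFam K N hN).glueData ?_ ?_ (SpFunOK.cb' K N hN h)
    · exact hC
    · rintro ⟨k, i⟩ a ha
      exact PreP.glue_cont (bGlue (spBlk K N k) (N ≠ ⊤)) (hB k ha.1.1 ha.1.2)
        (fun i a ha' => hE ha'.1 k ha.1.1 ha.1.2 i a ha'.2)
        (SpFunOK.be' K N hN h ha.1.1 ha.1.2) i a ha.2
  · exact fun i a ha => hX ha.1 i a ha.2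

/-- Positivity. -/
theorem spFun_pos (h : SpFunOK K N hN fC fB fE fX)
    (hC : ∀ j, ∀ a ∈ VA N (spRad K N) j, 0 < fC (TauPt.mk (repA K.R N j a)))
    (hB : ∀ k : ℕ, 1 ≤ k → (k : ℕ∞) ≤ N → ∀ i, ∀ a ∈ blkV (spBlk K N k) i,
      0 < fB k (blkPsi (spBlk K N k) i a))
    (hE : N ≠ ⊤ → ∀ k : ℕ, 1 ≤ k → (k : ℕ∞) ≤ N → ∀ i, ∀ a ∈ ehV (blkEHD (spBlk K N k)) i,
      0 < fE k (WPt.mk ehm (ehs (spA K N k) i a)))
    (hX : N ≠ ⊤ → ∀ i, ∀ a ∈ ehV (midEHD K N) i, 0 < fX (WPt.mk ehm (ehs (spX K N) i a)))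
    (i : (spP K N hN).ι) (a : E4) (ha : a ∈ (spP K N hN).V i) :
    0 < spFun K N hN fC fB fE fX ((spP K N hN).ψ i a) := by
  refine PreP.glue_pos (midGlue K N hN) ?_ ?_ (SpFunOK.cx' K N hN h) i a ha
  · refine PreP.glue_pos (spFam K N hN).glueData ?_ ?_ (SpFunOK.cb' K N hN h)
    · exact hC
    · rintro ⟨k, i⟩ a ha
      exact PreP.glue_pos (bGlue (spBlk K N k) (N ≠ ⊤)) (hB k ha.1.1 ha.1.2)
        (fun i a ha' => hE ha'.1 k ha.1.1 ha.1.2 i a ha'.2)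
        (SpFunOK.be' K N hN h ha.1.1 ha.1.2) i a ha.2
  · exact fun i a ha => hX ha.1 i a ha.2

end

end Pool.Agent.W_MP_654ec6
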