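import Pool.Agent.W_MP_654ec6.F.Diam
import Pool.Agent.W_MP_654ec6.F.SepEH
import Pool.Agent.W_MP_654ec6.F.SepLip
import Pool.Agent.W_MP_654ec6.F.SpLab

/-!
# Task F14: separation of the blocks, and the diameter of the bolts and of the middle block

`blk_sep`: the function `f = min ρ (max 0 (ρ - r))`, where `r` is the collar function of the block `k`
(`rAmb k` on the ambient part, `bR` on the block, and `f = 0` on all other blocks and on the middle
block), is infinitesimally 1-Lipschitz: on the patch D the collar function is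
`s (‖u‖ - tstar) - ρ` where it is positive, and `|d‖u‖(v)| ≤ √(qf (gD ..) v)`; on the ambient patches
`rAmb k` is the distance from the vertices `± x_k` (minus `ρ`), and `dX² + dY² ≤ qf (gC ..)` (as in
`F/Height`). It is `ρ` on the core and `0` outside `UB k`. So `ρ ≤ dist`.
`mid_sep`: the same with `midR`, `ehR - ρ 0`.
`bolt_diam`, `mid_diam`: `F/SepEH` (every point of radius `A < b` has distance at most `s (A + 3 a)` from
the centre of a bolt chart) and, for the middle block, radial segments in the patch F.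
-/

open scoped ContDiff Topology
open Filter Real

namespace Pool.Agent.W_MP_654ec6

/-- The points of the middle block. -/
def UX (K : Core) (N : ℕ∞) (hN : 2 ≤ N) : Set (sp K N hN).Pt :=
  {p | ∃ j, ∃ a ∈ (sp K N hN).V (ixX K N hN j), (sp K N hN).ψ (ixX K N hN j) a = p}

theorem isOpen_UX (K : Core) (N : ℕ∞) (hN : 2 ≤ N) : IsOpen (UX K N hN) := by
  rw [isOpen_iff_mem_nhds]
  rintro p ⟨j, a, ha, rfl⟩
  have h1 := (sp K N hN).image_mem_nhds (i := ixX K N hN j) ha
    (((sp K N hN).isOpen_V (ixX K N hN j)).mem_nhds ha)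
  refine mem_of_superset h1 ?_
  rintro q ⟨b, hb, rfl⟩
  exact ⟨j, b, hb, rfl⟩

/-! ### The profile -/

/-- The profile of the separation functions. -/
noncomputable def sepH (ρ x : ℝ) : ℝ := min ρ (max 0 (ρ - x))

theorem sepH_nonpos {ρ x : ℝ} (hρ : 0 ≤ ρ) (hx : x ≤ 0) : sepH ρ x = ρ := by
  unfold sepH
  rw [max_eq_right (by linarith), min_eq_left (by linarith)]

theorem sepH_ge {ρ x : ℝ} (hρ : 0 ≤ ρ) (hx : ρ ≤ x) : sepH ρ x = 0 := by
  unfold sepH
  rw [max_eq_left (by linarith), min_eq_right hρ]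

theorem sepH_lip (ρ x y : ℝ) : |sepH ρ x - sepH ρ y| ≤ |x - y| := by
  have h1 := le_abs_self (x - y)
  have h2 := neg_abs_le (x - y)
  unfold sepH
  simp only [min_def, max_def]
  split_ifs <;> rw [abs_le] <;> constructor <;> linarith

theorem sep_planar_le (a b c d : ℝ) :
    √(a ^ 2 + b ^ 2) ≤ √(c ^ 2 + d ^ 2) + √((a - c) ^ 2 + (b - d) ^ 2) := by
  apply Real.sqrt_le_iff.2
  refine ⟨by positivity, ?_⟩
  have h1 := Real.sq_sqrt (show 0 ≤ c ^ 2 + d ^ 2 by positivity)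
  have h2 := Real.sq_sqrt (show 0 ≤ (a - c) ^ 2 + (b - d) ^ 2 by positivity)
  have h3 : c * (a - c) + d * (b - d) ≤ √(c ^ 2 + d ^ 2) * √((a - c) ^ 2 + (b - d) ^ 2) := by
    rw [← Real.sqrt_mul (by positivity)]
    apply Real.le_sqrt_of_sq_le
    nlinarith [sq_nonneg (c * (b - d) - d * (a - c))]
  nlinarith

theorem sep_planar (a b c d : ℝ) :
    |√(a ^ 2 + b ^ 2) - √(c ^ 2 + d ^ 2)| ≤ √((a - c) ^ 2 + (b - d) ^ 2) := by
  have h1 := sep_planar_le a b c d
  have h2 := sep_planar_le c d a b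
  have h3 : (c - a) ^ 2 + (d - b) ^ 2 = (a - c) ^ 2 + (b - d) ^ 2 := by ring
  rw [h3] at h2
  rw [abs_le]
  constructor <;> linarith

theorem sep_rVert (A : AmbPar) (k : ℕ) (X Y X' Y' : ℝ) :
    |rVert A k X Y - rVert A k X' Y'| ≤ √((X - X') ^ 2 + (Y - Y') ^ 2) := by
  unfold rVert
  have h1 := sep_planar (|X| - zz k) (Y - FF A.N (zz k)) (|X'| - zz k) (Y' - FF A.N (zz k))
  have h2 : √((|X| - zz k - (|X'| - zz k)) ^ 2 +
      (Y - FF A.N (zz k) - (Y' - FF A.N (zz k))) ^ 2) ≤ √((X - X') ^ 2 + (Y - Y') ^ 2) := by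
    apply Real.sqrt_le_sqrt
    have h3 : (|X| - |X'|) ^ 2 ≤ (X - X') ^ 2 := by
      rw [← sq_abs (|X| - |X'|), ← sq_abs (X - X')]
      exact pow_le_pow_left₀ (abs_nonneg _) (abs_abs_sub_abs_le X X') 2
    have e1 : |X| - zz k - (|X'| - zz k) = |X| - |X'| := by ring
    have e2 : Y - FF A.N (zz k) - (Y' - FF A.N (zz k)) = Y - Y' := by ring
    rw [e1, e2]
    linarith
  have h4 : √((|X| - zz k) ^ 2 + (Y - FF A.N (zz k)) ^ 2) - A.ρ k -
      (√((|X'| - zz k) ^ 2 + (Y' - FF A.N (zz k)) ^ 2) - A.ρ k) =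
      √((|X| - zz k) ^ 2 + (Y - FF A.N (zz k)) ^ 2) -
        √((|X'| - zz k) ^ 2 + (Y' - FF A.N (zz k)) ^ 2) := by ring
  rw [h4]
  exact h1.trans h2

/-! ### Lipschitz functions on `Sp(N)` -/

section

variable (K : Core) (N : ℕ∞) (hN : 2 ≤ N)

theorem sep_one_le {N : ℕ∞} (hN : 2 ≤ N) : 1 ≤ N := le_trans (by norm_num) hN

theorem sep_val (i : (sp K N hN).ι) {x : E4} (hx : x ∈ (sp K N hN).V i) :
    ((sp K N hN).ψ i x).1 = (spP K N hN).ψ i x :=
  PreP.Pre_cpsi_val (spP K N hN) (spBase K N hN) hx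

theorem sep_amb {F : ℝ → ℝ → ℝ}
    (hF : ∀ X Y X' Y', |F X Y - F X' Y'| ≤ √((X - X') ^ 2 + (Y - Y') ^ 2)) (hN : 2 ≤ N) {j : ℕ}
    {a : E4} (ha : a ∈ VA N (spRad K N) j) {ε : ℝ} (hε : 0 < ε) :
    ∀ᶠ q in 𝓝 (a, a), |F (pX N j q.1) (pY N j q.1) - F (pX N j q.2) (pY N j q.2)| ≤
      (1 + ε) * √(qf (gC K.R N j a) (q.1 - q.2)) := by
  have hR := K.R_le
  filter_upwards [sep_XY (isOpen_VA (sep_one_le hN) (spRad_ok K N) j)
    (good_VA K.R_pos (by linarith) (sep_one_le hN) j) ha hε] with q hq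
  exact (hF _ _ _ _).trans hq

theorem sep_const {F : E4 → ℝ} {c : ℝ} {V : Set E4} (hV : IsOpen V) (hF : ∀ x ∈ V, F x = c)
    {a : E4} (ha : a ∈ V) {ε : ℝ} (hε : 0 < ε) (M : Matrix (Fin 4) (Fin 4) ℝ) :
    ∀ᶠ q in 𝓝 (a, a), |F q.1 - F q.2| ≤ (1 + ε) * √(qf M (q.1 - q.2)) := by
  filter_upwards [Patchwork.lipBasic_prod (hV.mem_nhds ha)] with q hq
  rw [hF q.1 hq.1, hF q.2 hq.2, sub_self, abs_zero]
  positivity

variable {fC : TauPt → ℝ} {fB : ℕ → WPt ![1, 2, 1] → ℝ} {fE : ℕ → WPt ehm → ℝ}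
  {fX : WPt ehm → ℝ}

theorem sep_spFun_lip (h : SpFunOK K N hN fC fB fE fX)
    (hC : ∀ j, ∀ a ∈ VA N (spRad K N) j, ∀ ε > (0 : ℝ), ∀ᶠ q in 𝓝 (a, a),
      |fC (TauPt.mk (repA K.R N j q.1)) - fC (TauPt.mk (repA K.R N j q.2))| ≤
        (1 + ε) * √(qf (gC K.R N j a) (q.1 - q.2)))
    (hB : ∀ k : ℕ, 1 ≤ k ∧ (k : ℕ∞) ≤ N → ∀ i, ∀ a ∈ blkV (spBlk K N k) i, ∀ ε > (0 : ℝ),
      ∀ᶠ q in 𝓝 (a, a), |fB k (blkPsi (spBlk K N k) i q.1) - fB k (blkPsi (spBlk K N k) i q.2)| ≤
        (1 + ε) * √(qf (smulMet ((spB K N k).s ^ 2) (blkG (spBlk K N k) i) a) (q.1 - q.2)))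
    (hE : N ≠ ⊤ → ∀ k : ℕ, 1 ≤ k ∧ (k : ℕ∞) ≤ N → ∀ i, ∀ a ∈ ehV (blkEHD (spBlk K N k)) i,
      ∀ ε > (0 : ℝ), ∀ᶠ q in 𝓝 (a, a), |fE k (WPt.mk ehm (ehs (spA K N k) i q.1)) -
        fE k (WPt.mk ehm (ehs (spA K N k) i q.2))| ≤
        (1 + ε) * √(qf (smulMet ((spB K N k).s ^ 2) (ehg (blkEHD (spBlk K N k)) i) a)
          (q.1 - q.2)))
    (hX : N ≠ ⊤ → ∀ i, ∀ a ∈ ehV (midEHD K N) i, ∀ ε > (0 : ℝ),
      ∀ᶠ q in 𝓝 (a, a), |fX (WPt.mk ehm (ehs (spX K N) i q.1)) -
        fX (WPt.mk ehm (ehs (spX K N) i q.2))| ≤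
        (1 + ε) * √(qf (ehg (midEHD K N) i a) (q.1 - q.2))) :
    (sp K N hN).Lip 1 (fun p => spFun K N hN fC fB fE fX p.1) := by
  intro i a ha ε hε
  have hV : ∀ᶠ q in 𝓝 (a, a), q.1 ∈ (spP K N hN).V i ∧ q.2 ∈ (spP K N hN).V i :=
    Patchwork.lipBasic_prod (((spP K N hN).isOpen_V i).mem_nhds ha)
  have hv : ∀ x ∈ (spP K N hN).V i, ((sp K N hN).ψ i x).1 = (spP K N hN).ψ i x := fun x hx =>
    sep_val K N hN i hx
  rcases ix_cases K N hN i with ⟨j, rfl⟩ | ⟨k, j, rfl⟩ | ⟨k, j, rfl⟩ | ⟨j, rfl⟩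
  · filter_upwards [hV, hC j a ha ε hε] with q h1 h2
    rw [hv _ h1.1, hv _ h1.2]
    exact h2
  · filter_upwards [hV, hB k ha.1 j a ha.2 ε hε] with q h1 h2
    rw [hv _ h1.1, hv _ h1.2, spFun_B K N hN h h1.1.1 h1.1.2, spFun_B K N hN h h1.2.1 h1.2.2]
    exact h2
  · filter_upwards [hV, hE ha.2.1 k ha.1 j a ha.2.2 ε hε] with q h1 h2
    rw [hv _ h1.1, hv _ h1.2, spFun_E K N hN h h1.1.1 h1.1.2.1 h1.1.2.2,
      spFun_E K N hN h h1.2.1 h1.2.2.1 h1.2.2.2]
    exact h2
  · filter_upwards [hV, hX ha.1 j a ha.2 ε hε] with q h1 h2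
    rw [hv _ h1.1, hv _ h1.2, spFun_X K N hN h h1.1.1 h1.1.2, spFun_X K N hN h h1.2.1 h1.2.2]
    exact h2

end

/-! ### The separation function of a block -/

theorem sepH_D (P : BlkPar) {u : E4} (hu : u ∈ VD P) :
    sepH P.ρ (rBlk P (blkPsi P 0 u)) = sepH P.ρ (P.B.s * (‖u‖ - P.B.tstar) - P.ρ) := by
  have hρ := P.ρ_pos
  by_cases h : P.ρ < P.B.s * (‖u‖ - P.B.tstar)
  · have ht : P.K.t0 ≤ ‖u‖ := by
      have hs := P.ok.blk.s_pos
      have h1 := P.ok.blk.size1
      have h2 := P.ok.blk.T2_gt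
      have h3 := P.K.isCore.T0_gt
      have h4 := P.K.isCore.t0_lt
      by_contra h6
      have h7 : P.B.s * (‖u‖ - P.B.tstar) ≤ P.B.s * (P.B.T2 - P.B.tstar) :=
        mul_le_mul_of_nonneg_left (by linarith [not_le.1 h6]) hs.le
      linarith
    rw [rBlk_D P hu ht]
  · have h1 : rBlk P (blkPsi P 0 u) ≤ 0 := not_lt.1 fun h2 => h ((rBlk_pos_D P hu).1 h2)
    rw [sepH_nonpos hρ.le h1, sepH_nonpos hρ.le (by linarith [not_lt.1 h])]

section

variable (K : Core) (N : ℕ∞) (hN : 2 ≤ N)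

theorem sep_rVert_ge {k : ℕ} (hk : 1 ≤ k) {X Y : ℝ} (h : zz k / 8 ≤ |(|X| - zz k)|) :
    spRad K N k ≤ rVert (spAmb K N hN) k X Y := by
  have h1 : 2 * spRad K N k ≤ zz k / 8 := (spRad_ok K N).le k hk
  have h2 : |(|X| - zz k)| ≤ √((|X| - zz k) ^ 2 + (Y - FF N (zz k)) ^ 2) := by
    apply Real.abs_le_sqrt
    nlinarith [sq_nonneg (Y - FF N (zz k))]
  change spRad K N k ≤ √((|X| - zz k) ^ 2 + (Y - FF N (zz k)) ^ 2) - spRad K N k
  linarith

theorem sep_rAmb {k : ℕ} (hk : 1 ≤ k) (hkN : (k : ℕ∞) ≤ N) (X Y : ℝ) (w : Fin 3 → ℝ) :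
    rAmb (spAmb K N hN) k (TauPt.mk (X, Y, w)) = rVert (spAmb K N hN) k X Y := by
  classical
  have h : rAmb (spAmb K N hN) k (TauPt.mk (X, Y, w)) =
      if 1 ≤ k ∧ (k : ℕ∞) ≤ N then rVert (spAmb K N hN) k X Y else 1 := by
    unfold rAmb tauFun
    change (if 1 ≤ k ∧ (k : ℕ∞) ≤ (spAmb K N hN).N then rVert (spAmb K N hN) k X Y else 1) = _
    congr
  rw [h, if_pos ⟨hk, hkN⟩]

/-- The radius of the middle block is much smaller than the abscissas of the vertices. -/
theorem sep_mid_small {k : ℕ} (hN' : N ≠ ⊤) (hkN : (k : ℕ∞) ≤ N) :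
    2 * spRad K N 0 ≤ zz k / 32 := by
  obtain ⟨n, rfl⟩ := ENat.ne_top_iff_exists.1 hN'
  have h1 := Mid_small K.R_pos (by have := K.R_le; linarith) (spRad_ok K (n : ℕ∞))
  have hkn : k ≤ n := by exact_mod_cast hkN
  have h2 := zz_anti hkn
  linarith

/-- The distance from the middle point of a point of the middle patch. -/
theorem sep_mid_dist (hN' : N ≠ ⊤) (u : E4) :
    pX N N.toNat u ^ 2 + (pY N N.toNat u - midY N) ^ 2 = ‖u‖ ^ 2 := by
  obtain ⟨n, rfl⟩ := ENat.ne_top_iff_exists.1 hN'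
  exact Mid_dist u

theorem sep_mid_X (hN' : N ≠ ⊤) (u : E4) : |pX N N.toNat u| ≤ ‖u‖ := by
  have h := sep_mid_dist N hN' u
  apply abs_le_of_sq_le_sq _ (norm_nonneg u)
  rw [← h]
  nlinarith [sq_nonneg (pY N N.toNat u - midY N)]

/-- The parts of the separation function of the block `κ`. -/
noncomputable def sepC (κ : ℕ) : TauPt → ℝ :=
  fun p => sepH (spRad K N κ) (rAmb (spAmb K N hN) κ p)

noncomputable def sepB (κ : ℕ) : ℕ → WPt ![1, 2, 1] → ℝ :=
  fun l p => if l = κ then sepH (spRad K N κ) (rBlk (spBlk K N κ) p) else 0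

noncomputable def sepE (κ : ℕ) : ℕ → WPt ehm → ℝ :=
  fun l _ => if l = κ then spRad K N κ else 0

theorem sep_blk_ok {κ : ℕ} (hk : 1 ≤ κ) (hkN : (κ : ℕ∞) ≤ N) :
    SpFunOK K N hN (sepC K N hN κ) (sepB K N κ) (sepE K N κ) (fun _ => 0) where
  cb := by
    intro l hl hlN u hu h0
    have hco := spColl K N hN hl hlN
    have hu' : ‖u‖ ∈ collT ((spAmb K N hN).ρ l) (spB K N l) := ⟨h0, hu.2⟩
    have hρ := spRad_pos K N κ
    unfold sepC sepB
    by_cases hlk : l = κ
    · subst hlk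
      rw [if_pos rfl, hco.rAmb_collE hu']
      exact (sepH_D (spBlk K N l) hu).symm
    · rw [if_neg hlk]
      apply sepH_ge hρ.le
      unfold collE
      rw [sep_rAmb K N hN hk hkN]
      apply sep_rVert_ge K N hN hk
      have h1 := hco.near hu'
      have hz := zz_pos l
      have hzk := zz_pos κ
      have h2 : |qX (spAmb K N hN).N l (spB K N l).Φ (spB K N l).s (spB K N l).tstar u - zz l| ≤
          zz l / 8 := by
        apply abs_le_of_sq_le_sq _ (by positivity)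
        nlinarith [sq_nonneg (qY (spAmb K N hN).N l (spB K N l).Φ (spB K N l).s
          (spB K N l).tstar u - FF (spAmb K N hN).N (zz l))]
      have h3 := abs_le.1 h2
      have h4 : 0 ≤ qX (spAmb K N hN).N l (spB K N l).Φ (spB K N l).s (spB K N l).tstar u := by
        linarith
      rw [abs_of_nonneg h4]
      rcases lt_or_gt_of_ne hlk with h5 | h5
      · have h6 : zz κ ≤ zz l / 2 := by
          rw [← zz_succ]
          exact zz_anti h5
        rw [abs_of_nonneg (by linarith)]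
        linarith
      · have h6 : zz l ≤ zz κ / 2 := by
          rw [← zz_succ]
          exact zz_anti h5
        rw [abs_of_nonpos (by linarith)]
        linarith
  be := by
    intro _ l hl hlN u hu
    unfold sepB sepE
    by_cases hlk : l = κ
    · subst hlk
      rw [if_pos rfl, if_pos rfl]
      exact sepH_nonpos (spRad_pos K N l).le
        (rBlk_EF (spBlk K N l) (i := 2) (by decide) hu).le
    · rw [if_neg hlk, if_neg hlk]
  cx := by
    intro hN' u hu hu'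
    unfold sepC
    apply sepH_ge (spRad_pos K N κ).le
    unfold repA
    rw [sep_rAmb K N hN hk hkN]
    apply sep_rVert_ge K N hN hk
    have h1 := sep_mid_small K N hN' hkN
    have h2 := sep_mid_X N hN' u
    have h3 := zz_pos κ
    rw [abs_of_nonpos (by linarith)]
    linarith

theorem sep_blk_lip {κ : ℕ} (hk : 1 ≤ κ) (hkN : (κ : ℕ∞) ≤ N) : (sp K N hN).Lip 1
    (fun p => spFun K N hN (sepC K N hN κ) (sepB K N κ) (sepE K N κ) (fun _ => 0) p.1) := by
  refine sep_spFun_lip K N hN (sep_blk_ok K N hN hk hkN) ?_ ?_ ?_ ?_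
  · intro j a ha ε hε
    have h1 := sep_amb K N (F := fun X Y => sepH (spRad K N κ) (rVert (spAmb K N hN) κ X Y))
      (fun X Y X' Y' => (sepH_lip _ _ _).trans (sep_rVert _ _ _ _ _ _)) hN ha hε
    filter_upwards [h1] with q hq
    unfold sepC repA
    rw [sep_rAmb K N hN hk hkN, sep_rAmb K N hN hk hkN]
    exact hq
  · intro l hl i a ha ε hε
    have hVo := blkIsOpen (spBlk K N l) i
    by_cases hlk : l = κ
    · subst hlk
      by_cases hi : i = 0
      · subst hi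
        have hs := (spBlk K N l).ok.blk.s_pos
        have h1 := sep_norm hVo (blkGood (spBlk K N l) 0)
          (fun u hu => ⟨(mem_VD (spBlk K N l) hu).2, fun v =>
            sep_gD (spBlk K N l).K (spBlk K N l).B (mem_VD (spBlk K N l) hu).2 v⟩) ha hε
        filter_upwards [h1, Patchwork.lipBasic_prod (hVo.mem_nhds ha)] with q h1 h2
        unfold sepB
        rw [if_pos rfl]
        have e1 : sepH (spRad K N l) (rBlk (spBlk K N l) (blkPsi (spBlk K N l) 0 q.1)) =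
            sepH (spRad K N l) ((spB K N l).s * (‖q.1‖ - (spB K N l).tstar) - spRad K N l) :=
          sepH_D (spBlk K N l) h2.1
        have e2 : sepH (spRad K N l) (rBlk (spBlk K N l) (blkPsi (spBlk K N l) 0 q.2)) =
            sepH (spRad K N l) ((spB K N l).s * (‖q.2‖ - (spB K N l).tstar) - spRad K N l) :=
          sepH_D (spBlk K N l) h2.2
        simp only [e1, e2]
        refine (sepH_lip _ _ _).trans ?_
        have hs' : 0 < (spB K N l).s := hs
        have e3 : (spB K N l).s * (‖q.1‖ - (spB K N l).tstar) - spRad K N l -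
            ((spB K N l).s * (‖q.2‖ - (spB K N l).tstar) - spRad K N l) =
            (spB K N l).s * (‖q.1‖ - ‖q.2‖) := by ring
        rw [e3, abs_mul, abs_of_pos hs', qf_smulMet, Real.sqrt_mul (sq_nonneg _),
          Real.sqrt_sq hs'.le]
        calc (spB K N l).s * |‖q.1‖ - ‖q.2‖| ≤ (spB K N l).s *
              ((1 + ε) * √(qf (blkG (spBlk K N l) 0 a) (q.1 - q.2))) :=
              mul_le_mul_of_nonneg_left h1 hs'.le
          _ = _ := by ring
      · refine sep_const (F := fun x => sepB K N l l (blkPsi (spBlk K N l) i x)) hVo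
          (c := spRad K N l) (fun x hx => ?_) ha hε _
        unfold sepB
        rw [if_pos rfl]
        exact sepH_nonpos (spRad_pos K N l).le (rBlk_EF (spBlk K N l) hi hx).le
    · refine sep_const (F := fun x => sepB K N κ l (blkPsi (spBlk K N l) i x)) hVo
        (c := 0) (fun x _ => ?_) ha hε _
      unfold sepB
      rw [if_neg hlk]
  · intro _ l hl i a ha ε hε
    exact sep_const (F := fun x => sepE K N κ l (WPt.mk ehm (ehs (spA K N l) i x)))
      (isOpen_ehV (blkEHD (spBlk K N l)) i)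
      (c := if l = κ then spRad K N κ else 0) (fun x _ => rfl) ha hε _
  · intro _ i a ha ε hε
    exact sep_const (isOpen_ehV (midEHD K N) i) (F := fun _ => 0) (fun x _ => rfl) ha hε _

end

/-- A point of the core (not in the ambient part) of the block `k` has distance `≥ ρ k` from all
points outside the block `k`. -/
theorem blk_sep (K : Core) (N : ℕ∞) (hN : 2 ≤ N) {k : ℕ} (hk : 1 ≤ k) (hkN : (k : ℕ∞) ≤ N)
    {p q : (sp K N hN).Pt} (hp : p ∈ UB K N hN k)
    (hp' : ∀ x : TauPt, p.1 ≠ (Sum.inl (Sum.inl x) : (spP K N hN).Pt))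
    (hq : q ∉ UB K N hN k) : spRad K N k ≤ dist p q := by
  have hok := sep_blk_ok K N hN hk hkN
  have hlip := (sp K N hN).lip_le zero_le_one (sep_blk_lip K N hN hk hkN) p q
  have hρ := spRad_pos K N k
  have hv : ∀ (i : (sp K N hN).ι), ∀ x ∈ (sp K N hN).V i,
      ((sp K N hN).ψ i x).1 = (spP K N hN).ψ i x := fun i x hx => sep_val K N hN i hx
  have h1 : spFun K N hN (sepC K N hN k) (sepB K N k) (sepE K N k) (fun _ => 0) p.1 =
      spRad K N k := by
    rcases hp with ⟨j, a, ha, rfl⟩ | ⟨j, a, ha, rfl⟩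
    · rw [hv _ a ha, spFun_B K N hN hok ha.1 ha.2]
      unfold sepB
      rw [if_pos rfl]
      apply sepH_nonpos hρ.le
      by_cases hj : j = 0
      · subst hj
        by_contra h2
        have h3 := (rBlk_pos_D (spBlk K N k) ha.2).1 (not_le.1 h2)
        have hco := spColl K N hN hk hkN
        have hu' : ‖a‖ ∈ collT ((spAmb K N hN).ρ k) (spB K N k) := ⟨h3, ha.2.2⟩
        obtain ⟨j, θ, h4, -, h5⟩ := hco.etale hu'
        have h6 : TauPt.mk (repA K.R N j (θ a)) = collE (spAmb K N hN) k (spB K N k) a :=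
          h5.self_of_nhds
        have h7 := (spEq_CD K N hN (j := j) (a := θ a) ⟨hk, hkN⟩ ha.2).2 ⟨h3, h6.symm⟩
        apply hp' (TauPt.mk (repA K.R N j (θ a)))
        rw [hv _ a ha]
        exact h7.symm
      · exact (rBlk_EF (spBlk K N k) hj ha.2).le
    · rw [hv _ a ha, spFun_E K N hN hok ha.1 ha.2.1 ha.2.2]
      unfold sepE
      rw [if_pos rfl]
  have h2 : spFun K N hN (sepC K N hN k) (sepB K N k) (sepE K N k) (fun _ => 0) q.1 = 0 := by
    obtain ⟨i, a, ha, rfl⟩ := (sp K N hN).cover q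
    rcases ix_cases K N hN i with ⟨j, rfl⟩ | ⟨l, j, rfl⟩ | ⟨l, j, rfl⟩ | ⟨j, rfl⟩
    · rw [hv _ a ha, spFun_C K N hN]
      unfold sepC
      apply sepH_ge hρ.le
      by_contra h3
      apply hq
      have hco := spColl K N hN hk hkN
      obtain ⟨u, hu, h4⟩ := hco.surj (j := j) (a := a) ha (not_le.1 h3)
      have hu' : u ∈ VD (spBlk K N k) := by
        refine ⟨?_, hu.2⟩
        have h5 := hco.lt_T2 hu.1
        have h6 := hco.blk.blk.T2_gt
        have h7 := K.isCore.T0_gt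
        have h8 := K.isCore.t0_lt
        change K.t0 / 2 < ‖u‖
        linarith
      have hu'' : u ∈ (spP K N hN).V (ixB K N hN k 0) := ⟨⟨hk, hkN⟩, hu'⟩
      refine Or.inl ⟨0, u, hu'', ?_⟩
      apply Subtype.ext
      rw [hv (ixB K N hN k 0) u hu'', hv _ a ha]
      exact ((spEq_CD K N hN ⟨hk, hkN⟩ hu').2 ⟨hu.1, h4⟩).symm
    · rw [hv _ a ha, spFun_B K N hN hok ha.1 ha.2]
      unfold sepB
      by_cases hl : l = k
      · subst hl
        exact absurd (Or.inl ⟨j, a, ha, rfl⟩) hq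
      · rw [if_neg hl]
    · rw [hv _ a ha, spFun_E K N hN hok ha.1 ha.2.1 ha.2.2]
      unfold sepE
      by_cases hl : l = k
      · subst hl
        exact absurd (Or.inr ⟨j, a, ha, rfl⟩) hq
      · rw [if_neg hl]
    · rw [hv _ a ha, spFun_X K N hN hok ha.1 ha.2]
  simp only [h1, h2, sub_zero, one_mul] at hlip
  rwa [abs_of_pos hρ] at hlip

/-! ### The separation function of the middle block -/

section

variable (K : Core) (N : ℕ∞) (hN : 2 ≤ N)

noncomputable def sepM : TauPt → ℝ := fun p => sepH (spRad K N 0) (midF K N p)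

noncomputable def sepMX : WPt ehm → ℝ := fun p => sepH (spRad K N 0) (ehR p - spRad K N 0)

theorem sep_midF (X Y : ℝ) (w : Fin 3 → ℝ) : midF K N (TauPt.mk (X, Y, w)) =
    min (√(X ^ 2 + (Y - midY N) ^ 2)) (2 * spRad K N 0) - spRad K N 0 := rfl

theorem sep_mid_ok (hN' : N ≠ ⊤) :
    SpFunOK K N hN (sepM K N) (fun _ _ => 0) (fun _ _ => 0) (sepMX K N) where
  cb := by
    intro l hl hlN u hu h0
    have hco := spColl K N hN hl hlN
    have hu' : ‖u‖ ∈ collT ((spAmb K N hN).ρ l) (spB K N l) := ⟨h0, hu.2⟩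
    have hρ := spRad_pos K N 0
    unfold sepM
    apply sepH_ge hρ.le
    unfold collE
    rw [sep_midF]
    have h1 := hco.qX_ge hu'
    have h2 := sep_mid_small K N hN' hlN
    have h3 := zz_pos l
    have h4 : 2 * spRad K N 0 ≤
        √(qX (spAmb K N hN).N l (spB K N l).Φ (spB K N l).s (spB K N l).tstar u ^ 2 +
          (qY (spAmb K N hN).N l (spB K N l).Φ (spB K N l).s (spB K N l).tstar u - midY N) ^ 2) := by
      apply Real.le_sqrt_of_sq_le
      have h5 : (2 * spRad K N 0) ^ 2 ≤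
          qX (spAmb K N hN).N l (spB K N l).Φ (spB K N l).s (spB K N l).tstar u ^ 2 :=
        pow_le_pow_left₀ (by linarith) (by linarith) 2
      nlinarith [sq_nonneg (qY (spAmb K N hN).N l (spB K N l).Φ (spB K N l).s
        (spB K N l).tstar u - midY N)]
    rw [min_eq_right h4]
    linarith
  be := by
    intro _ l hl hlN u hu
    rfl
  cx := by
    intro _ u hu hu'
    unfold sepM sepMX repA
    rw [sep_midF, sep_mid_dist N hN' u, Real.sqrt_sq (norm_nonneg u), min_eq_left hu'.le, ehR_F]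

theorem sep_chi (A₀ A : ℝ) : 0 ≤ ehChi A₀ A := by
  unfold ehChi
  have := Real.smoothTransition.le_one (4 * A / A₀ - 2)
  linarith

theorem sep_chi_le (A₀ A : ℝ) : ehChi A₀ A ≤ 1 := by
  unfold ehChi
  have := Real.smoothTransition.nonneg (4 * A / A₀ - 2)
  linarith

theorem sep_mid_lip (hN' : N ≠ ⊤) : (sp K N hN).Lip 1
    (fun p => spFun K N hN (sepM K N) (fun _ _ => 0) (fun _ _ => 0) (sepMX K N) p.1) := by
  have hρ := spRad_pos K N 0
  refine sep_spFun_lip K N hN (sep_mid_ok K N hN hN') ?_ ?_ ?_ ?_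
  · intro j a ha ε hε
    have h1 := sep_amb K N (F := fun X Y => sepH (spRad K N 0)
      (min (√(X ^ 2 + (Y - midY N) ^ 2)) (2 * spRad K N 0) - spRad K N 0))
      (fun X Y X' Y' => by
        refine (sepH_lip _ _ _).trans ?_
        have h1 := sep_planar X (Y - midY N) X' (Y' - midY N)
        have h2 : Y - midY N - (Y' - midY N) = Y - Y' := by ring
        rw [h2] at h1
        refine le_trans ?_ h1
        have h3 := abs_min_sub_min_le_max (√(X ^ 2 + (Y - midY N) ^ 2)) (2 * spRad K N 0)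
          (√(X' ^ 2 + (Y' - midY N) ^ 2)) (2 * spRad K N 0)
        rw [sub_self, abs_zero, max_eq_left (abs_nonneg _)] at h3
        rw [sub_sub_sub_cancel_right]
        exact h3) hN ha hε
    filter_upwards [h1] with q hq
    unfold sepM repA
    rw [sep_midF, sep_midF]
    exact hq
  · intro l hl i a ha ε hε
    exact sep_const (blkIsOpen (spBlk K N l) i) (F := fun _ => 0) (fun x _ => rfl) ha hε _
  · intro _ l hl i a ha ε hε
    exact sep_const (isOpen_ehV (blkEHD (spBlk K N l)) i) (F := fun _ => 0) (fun x _ => rfl)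
      ha hε _
  · intro _ i a ha ε hε
    have hVo := isOpen_ehV (midEHD K N) i
    have hX0 := spX_pos K N
    have hXl := spX_lt K N
    have hB : ∀ x : E4, bA2 (spX K N) x < (spRad K N 0 / 2) ^ 2 →
        √(bA2 (spX K N) x) - spRad K N 0 ≤ 0 := by
      intro x hx
      have h1 : √(bA2 (spX K N) x) ≤ spRad K N 0 / 2 :=
        Real.sqrt_le_iff.2 ⟨by positivity, hx.le⟩
      linarith
    cases i with
    | F =>
      have h1 := sep_norm hVo (good_ehV (midEHD K N) EHI.F) (fun u hu => by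
        have hu0 : 0 < ‖u‖ := lt_trans hX0 hu.1
        refine ⟨norm_pos_iff.1 hu0, fun v => ?_⟩
        have hU := (midEHD K N).U_pos ‖u‖ hu
        refine sep_u2Z (norm_pos_iff.1 hu0) hU ?_ ((midEHD K N).W_pos ‖u‖ hu).le v
        change 1 - ehChi (spRad K N 0) ‖u‖ * spX K N ^ 4 / ‖u‖ ^ 4 ≤ 1
        have h2 : 0 ≤ ehChi (spRad K N 0) ‖u‖ * spX K N ^ 4 / ‖u‖ ^ 4 :=
          div_nonneg (mul_nonneg (sep_chi _ _) (by positivity)) (by positivity)
        linarith) ha hε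
      filter_upwards [h1] with q h1
      unfold sepMX
      rw [ehR_F, ehR_F]
      refine (sepH_lip _ _ _).trans ?_
      rw [sub_sub_sub_cancel_right]
      exact h1
    | B1 =>
      refine sep_const (F := fun x => sepMX K N (WPt.mk ehm (ehs (spX K N) EHI.B1 x))) hVo
        (c := spRad K N 0) (fun x hx => ?_) ha hε _
      unfold sepMX
      rw [ehR_B1 hX0]
      exact sepH_nonpos hρ.le (hB x hx.2)
    | B2 =>
      refine sep_const (F := fun x => sepMX K N (WPt.mk ehm (ehs (spX K N) EHI.B2 x))) hVo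
        (c := spRad K N 0) (fun x hx => ?_) ha hε _
      unfold sepMX
      rw [ehR_B2 hX0]
      exact sepH_nonpos hρ.le (hB x hx.2)

/-- An ambient point near the middle point is a point of the annulus of the middle block. -/
theorem sep_mid_surj (hN : 2 ≤ N) (hN' : N ≠ ⊤) {j : ℕ} {a : E4} (ha : a ∈ VA N (spRad K N) j)
    (h : √(pX N j a ^ 2 + (pY N j a - midY N) ^ 2) < 2 * spRad K N 0) :
    ∃ u : E4, spRad K N 0 < ‖u‖ ∧ ‖u‖ < 2 * spRad K N 0 ∧
      TauPt.mk (repA K.R N N.toNat u) = TauPt.mk (repA K.R N j a) := by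
  have hρ := spRad_pos K N 0
  have hj : (j : ℕ∞) ≤ N := ha.1
  have hnN : ((N.toNat : ℕ) : ℕ∞) ≤ N := Par_toNat_le N
  have hout := ha.2.2.2 hN'
  have key : ∀ u : E4, ‖u‖ ^ 2 = pX N j a ^ 2 + (pY N j a - midY N) ^ 2 →
      spRad K N 0 < ‖u‖ ∧ ‖u‖ < 2 * spRad K N 0 := by
    intro u hu
    constructor
    · rw [← hu] at hout
      exact lt_of_pow_lt_pow_left₀ 2 (norm_nonneg u) hout
    · rw [← hu, Real.sqrt_sq (norm_nonneg u)] at h
      exact h
  by_cases h3 : n3 a = 0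
  · -- on the middle edge
    have hE := Amb_edge hj ha.2.1 h3
    have hX : |pX N j a| < 2 * spRad K N 0 := by
      refine lt_of_le_of_lt ?_ h
      apply Real.abs_le_sqrt
      nlinarith [sq_nonneg (pY N j a - midY N)]
    have hnlt : ¬ (j : ℕ∞) < N := by
      intro hlt
      have h1 := hE.2.1 hlt
      have h2 := sep_mid_small K N (k := j + 1) hN' (Seq_succ_le_of_lt hlt)
      have h3 := zz_pos (j + 1)
      have h4 := le_abs_self (pX N j a)
      linarith
    have hNj : N = (j : ℕ∞) := le_antisymm (not_lt.1 hnlt) hj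
    have hNj' : N.toNat = j := by rw [hNj]; rfl
    refine ⟨a, ?_⟩
    have h5 := sep_mid_dist N hN' a
    rw [hNj'] at h5 ⊢
    exact ⟨(key a h5.symm).1, (key a h5.symm).2, rfl⟩
  · have hG := mem_VC_of_n3 hj ha.2.1 h3
    obtain ⟨c1, c2, -, c4, c5⟩ := thC_coord (sep_one_le hN) hj hnN (Or.inl rfl : (1 : ℝ) = 1 ∨ _) hG
    have h5 := sep_mid_dist N hN' (thC N j N.toNat 1 a)
    rw [c1, c2, one_mul] at h5
    exact ⟨thC N j N.toNat 1 a, (key _ h5.symm).1, (key _ h5.symm).2, Amb_mk (Or.inl rfl) c1 c2 c5⟩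

end

theorem mid_sep (K : Core) (N : ℕ∞) (hN : 2 ≤ N) (hN' : N ≠ ⊤)
    {p q : (sp K N hN).Pt} (hp : p ∈ UX K N hN)
    (hp' : ∀ x : TauPt, p.1 ≠ (Sum.inl (Sum.inl x) : (spP K N hN).Pt))
    (hq : q ∉ UX K N hN) : spRad K N 0 ≤ dist p q := by
  have hok := sep_mid_ok K N hN hN'
  have hlip := (sp K N hN).lip_le zero_le_one (sep_mid_lip K N hN hN') p q
  have hρ := spRad_pos K N 0
  have hv : ∀ (i : (sp K N hN).ι), ∀ x ∈ (sp K N hN).V i,
      ((sp K N hN).ψ i x).1 = (spP K N hN).ψ i x := fun i x hx => sep_val K N hN i hx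
  have h1 : spFun K N hN (sepM K N) (fun _ _ => 0) (fun _ _ => 0) (sepMX K N) p.1 =
      spRad K N 0 := by
    obtain ⟨j, a, ha, rfl⟩ := hp
    rw [hv _ a ha, spFun_X K N hN hok ha.1 ha.2]
    unfold sepMX
    apply sepH_nonpos hρ.le
    by_contra h2
    have h3 : 0 < (midGlue K N hN).rQ (((ehP (midEHD K N)).restr (N ≠ ⊤)).ψ j a) := not_le.1 h2
    obtain ⟨d, hd, u, hu, -, -, h4⟩ := PreP.Pre_glueMap_pos (midGlue K N hN) (j := j) ha h3
    apply hp' (TauPt.mk (repA K.R N N.toNat u))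
    rw [hv _ a ha]
    exact h4
  have h2 : spFun K N hN (sepM K N) (fun _ _ => 0) (fun _ _ => 0) (sepMX K N) q.1 = 0 := by
    obtain ⟨i, a, ha, rfl⟩ := (sp K N hN).cover q
    rcases ix_cases K N hN i with ⟨j, rfl⟩ | ⟨l, j, rfl⟩ | ⟨l, j, rfl⟩ | ⟨j, rfl⟩
    · rw [hv _ a ha, spFun_C K N hN]
      unfold sepM
      apply sepH_ge hρ.le
      by_contra h3
      apply hq
      have h4 : √(pX N j a ^ 2 + (pY N j a - midY N) ^ 2) < 2 * spRad K N 0 := by
        by_contra h5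
        apply h3
        unfold repA
        rw [sep_midF, min_eq_right (not_lt.1 h5)]
        linarith
      obtain ⟨u, h5, h6, h7⟩ := sep_mid_surj K N hN hN' ha h4
      have hu : u ∈ (spP K N hN).V (ixX K N hN EHI.F) := by
        refine ⟨hN', ?_, h6⟩
        have h8 := spX_lt K N
        change spX K N < ‖u‖
        linarith
      refine ⟨EHI.F, u, hu, ?_⟩
      apply Subtype.ext
      rw [hv (ixX K N hN EHI.F) u hu, hv _ a ha]
      have h8 : 0 < (midGlue K N hN).rQ (((ehP (midEHD K N)).restr (N ≠ ⊤)).ψ EHI.F u) := by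
        change 0 < ehR (WPt.mk ehm (ehs (spX K N) EHI.F u)) - spRad K N 0
        rw [ehR_F]
        linarith
      have h9 := PreP.glueMap_of_pos (midGlue K N hN) (d := EHI.F) rfl hu h8
      refine Eq.trans h9 ?_
      exact congrArg (fun x : TauPt => (Sum.inl (Sum.inl x) : (spP K N hN).Pt)) h7
    · rw [hv _ a ha, spFun_B K N hN hok ha.1 ha.2]
    · rw [hv _ a ha, spFun_E K N hN hok ha.1 ha.2.1 ha.2.2]
    · exact absurd ⟨j, a, ha, rfl⟩ hq
  simp only [h1, h2, sub_zero, one_mul] at hlip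
  rwa [abs_of_pos hρ] at hlip

/-! ### Diameters -/

/-- The bolt charts of the block `k`. -/
theorem sep_EHIn_blk (K : Core) (N : ℕ∞) (hN : 2 ≤ N) (hN' : N ≠ ⊤) {k : ℕ} (hk : 1 ≤ k)
    (hkN : (k : ℕ∞) ≤ N) : EHIn (sp K N hN) (blkEHD (spBlk K N k)) (ixE K N hN k)
      (spB K N k).s where
  c_nonneg := (spB_ok K N k).blk.s_pos.le
  hV := fun j a ha => ⟨⟨hk, hkN⟩, hN', ha⟩
  hg := fun j x v => by
    change √(qf (smulMet ((spB K N k).s ^ 2) (ehg (blkEHD (spBlk K N k)) j) x) v) = _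
    rw [qf_smulMet, Real.sqrt_mul (sq_nonneg _), Real.sqrt_sq (spB_ok K N k).blk.s_pos.le]
  hψ := fun i j u hu v hv h => by
    have hu' : u ∈ (spP K N hN).V (ixE K N hN k i) := ⟨⟨hk, hkN⟩, hN', hu⟩
    have hv' : v ∈ (spP K N hN).V (ixE K N hN k j) := ⟨⟨hk, hkN⟩, hN', hv⟩
    refine (PreP.Pre_cpsi_iff (spP K N hN) (spBase K N hN) hu' hv').2 ?_
    have h1 : (bP (spBlk K N k) (N ≠ ⊤)).ψ (Sum.inr i) u =
        (bP (spBlk K N k) (N ≠ ⊤)).ψ (Sum.inr j) v :=
      congrArg (PreP.glueMap (bGlue (spBlk K N k) (N ≠ ⊤))) h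
    exact congrArg (fun x : (bP (spBlk K N k) (N ≠ ⊤)).Pt =>
      (Sum.inl (PreP.glueMap (spFam K N hN).glueData ⟨k, x⟩) : (spP K N hN).Pt)) h1

/-- The middle block. -/
theorem sep_EHIn_mid (K : Core) (N : ℕ∞) (hN : 2 ≤ N) (hN' : N ≠ ⊤) :
    EHIn (sp K N hN) (midEHD K N) (ixX K N hN) 1 where
  c_nonneg := zero_le_one
  hV := fun j a ha => ⟨hN', ha⟩
  hg := fun j x v => (one_mul _).symm
  hψ := fun i j u hu v hv h => by
    have hu' : u ∈ (spP K N hN).V (ixX K N hN i) := ⟨hN', hu⟩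
    have hv' : v ∈ (spP K N hN).V (ixX K N hN j) := ⟨hN', hv⟩
    refine (PreP.Pre_cpsi_iff (spP K N hN) (spBase K N hN) hu' hv').2 ?_
    exact congrArg (PreP.glueMap (midGlue K N hN)) h

theorem sep_s_lt (K : Core) (N : ℕ∞) (k : ℕ) : (spB K N k).s < 1 := by
  have h := (spB_ok K N k).blk
  have h1 := h.size2
  have h2 := h.T2_gt
  have h3 := K.isCore.T0_gt
  have h4 := spRad_lt K N k
  have h5 := h.s_pos
  by_contra h6
  have h7 := not_lt.1 h6
  nlinarith

/-- The part `A ≤ M a` of the block `k` (`M a ≤ A0/4`). -/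
theorem bolt_diam (K : Core) (N : ℕ∞) (hN : 2 ≤ N) (hN' : N ≠ ⊤) {k : ℕ} (hk : 1 ≤ k)
    (hkN : (k : ℕ∞) ≤ N) {M : ℝ} (hM : 2 ≤ M) (hM' : M * spA K N k ≤ K.A0 / 4) {i j : EHI}
    {a b : E4} (ha : a ∈ (sp K N hN).V (ixE K N hN k i)) (hb : b ∈ (sp K N hN).V (ixE K N hN k j))
    (ha' : ehR (WPt.mk ehm (ehs (spA K N k) i a)) ≤ M * spA K N k)
    (hb' : ehR (WPt.mk ehm (ehs (spA K N k) j b)) ≤ M * spA K N k) :
    dist ((sp K N hN).ψ (ixE K N hN k i) a) ((sp K N hN).ψ (ixE K N hN k j) b) ≤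
      20 * M * spA K N k := by
  have hA0 := K.A0_pos
  have hapos := spA_pos K hN' k
  have hE := sep_EHIn_blk K N hN hN' hk hkN
  have h1 := hE.dist_two hapos (i := i) (j := j) (u := a) (v := b) ha.2.2 hb.2.2
    (lt_of_le_of_lt ha' (by
      change M * spA K N k < K.A0 / 2
      linarith))
    (lt_of_le_of_lt hb' (by
      change M * spA K N k < K.A0 / 2
      linarith))
  refine h1.trans ?_
  have hs := (spB_ok K N k).blk.s_pos
  have hs1 := sep_s_lt K N k
  have h2 : ehR (WPt.mk ehm (ehs (spA K N k) i a)) + ehR (WPt.mk ehm (ehs (spA K N k) j b)) +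
      6 * spA K N k ≤ 20 * M * spA K N k := by nlinarith
  have h3 : 0 ≤ 20 * M * spA K N k := by positivity
  calc (spB K N k).s * (ehR (WPt.mk ehm (ehs (spA K N k) i a)) +
        ehR (WPt.mk ehm (ehs (spA K N k) j b)) + 6 * spA K N k)
      ≤ (spB K N k).s * (20 * M * spA K N k) := mul_le_mul_of_nonneg_left h2 hs.le
    _ ≤ 1 * (20 * M * spA K N k) := mul_le_mul_of_nonneg_right hs1.le h3
    _ = _ := one_mul _

/-- Every point of the middle block has distance at most `15 ρ 0` from the centre. -/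
theorem sep_mid_centre (K : Core) (N : ℕ∞) (hN : 2 ≤ N) (hN' : N ≠ ⊤) {p : (sp K N hN).Pt}
    (hp : p ∈ UX K N hN) : dist p ((sp K N hN).ψ (ixX K N hN EHI.B1) (toE 0 0)) ≤
      15 * spRad K N 0 := by
  obtain ⟨j, a, ha, rfl⟩ := hp
  have hρ := spRad_pos K N 0
  have hX0 := spX_pos K N
  have hX4 : spX K N ≤ spRad K N 0 / 4 := min_le_right _ _
  have hE := sep_EHIn_mid K N hN hN'
  by_cases h : ehR (WPt.mk ehm (ehs (spX K N) j a)) < spRad K N 0 / 2
  · have h1 := hE.dist_centre hX0 (j := j) (u := a) ha.2 h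
    refine h1.trans ?_
    have h2 : (midEHD K N).a = spX K N := rfl
    rw [h2, one_mul]
    linarith
  · have hj := ehR_lt (midEHD K N) (i := j) (u := a) ha.2 (not_lt.1 h)
    subst hj
    rw [ehR_F] at h
    have ha2 : a ∈ ehV (midEHD K N) EHI.F := ha.2
    have h3 := not_lt.1 h
    have hna : 0 < ‖a‖ := by linarith
    set t := 2 / 5 * spRad K N 0 with ht
    have hat : (midEHD K N).a < t := by
      change spX K N < t
      rw [ht]; linarith
    have h4 := hE.dist_radial ha2 (t := t) hat (by rw [ht]; linarith) (by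
      intro A hA
      change 1 / 4 ≤ 1 - ehChi (spRad K N 0) A * spX K N ^ 4 / A ^ 4
      have hAt : t ≤ A := hA.1
      have htp : 0 < t := by rw [ht]; positivity
      have hAp : 0 < A := lt_of_lt_of_le htp hAt
      have h5 : spX K N ≤ 5 / 8 * A := by rw [ht] at hAt; linarith
      have h6 : spX K N ^ 4 ≤ (5 / 8 * A) ^ 4 := pow_le_pow_left₀ hX0.le h5 4
      have h7 : ehChi (spRad K N 0) A * spX K N ^ 4 / A ^ 4 ≤ 3 / 4 := by
        rw [div_le_iff₀ (by positivity)]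
        have h8 := sep_chi_le (spRad K N 0) A
        have h9 := sep_chi (spRad K N 0) A
        have h10 : ehChi (spRad K N 0) A * spX K N ^ 4 ≤ 1 * spX K N ^ 4 :=
          mul_le_mul_of_nonneg_right h8 (by positivity)
        have h11 : (5 / 8 * A) ^ 4 = 625 / 4096 * A ^ 4 := by ring
        have h12 : 0 ≤ A ^ 4 := by positivity
        linarith
      linarith)
    have hb : (t / ‖a‖) • a ∈ ehV (midEHD K N) EHI.F := by
      change ‖(t / ‖a‖) • a‖ ∈ Set.Ioo (spX K N) (2 * spRad K N 0)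
      have htp : 0 < t := by rw [ht]; positivity
      rw [norm_smul, Real.norm_eq_abs, abs_of_pos (by positivity), div_mul_cancel₀ _ hna.ne']
      exact ⟨hat, by rw [ht]; linarith⟩
    have hbn : ‖(t / ‖a‖) • a‖ = t := by
      have htp : 0 < t := by rw [ht]; positivity
      rw [norm_smul, Real.norm_eq_abs, abs_of_pos (by positivity), div_mul_cancel₀ _ hna.ne']
    have h5 := hE.dist_centre hX0 (j := EHI.F) hb (by
      rw [ehR_F, hbn]
      change t < spRad K N 0 / 2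
      rw [ht]; linarith)
    rw [ehR_F, hbn] at h5
    have h6 : (midEHD K N).a = spX K N := rfl
    rw [h6] at h5
    have h7 : ‖a‖ < 2 * spRad K N 0 := ha2.2
    have h8 := dist_triangle ((sp K N hN).ψ (ixX K N hN EHI.F) a)
      ((sp K N hN).ψ (ixX K N hN EHI.F) ((t / ‖a‖) • a))
      ((sp K N hN).ψ (ixX K N hN EHI.B1) (toE 0 0))
    rw [ht] at h4 h5 h8
    linarith

theorem mid_diam (K : Core) (N : ℕ∞) (hN : 2 ≤ N) (hN' : N ≠ ⊤) {p q : (sp K N hN).Pt}
    (hp : p ∈ UX K N hN) (hq : q ∈ UX K N hN) : dist p q ≤ 30 * spRad K N 0 := by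
  have h1 := sep_mid_centre K N hN hN' hp
  have h2 := sep_mid_centre K N hN hN' hq
  rw [dist_comm] at h2
  have h3 := dist_triangle p ((sp K N hN).ψ (ixX K N hN EHI.B1) (toE 0 0)) q
  linarith

end Pool.Agent.W_MP_654ec6
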